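import Pool.Agent.MP_d145c0_al.H75.SmAlg

/-! A checker for failures of the intersection property of a complete table. -/

namespace D145.Sm
noncomputable section

/-- image of the point `x` under the label `c` -/
def ap (T c x : Nat) : Nat := Nat.pred (gt T x c)

/-- image of the point `x` under a word -/
def ev (T : Nat) (w : List Nat) (x : Nat) : Nat :=
  @List.rec Nat (fun _ => Nat) x (fun c _ y => ap T c y) w

/-- membership of a pair -/
def memP (O : List (Nat × Nat)) (a b : Nat) : Bool :=
  frc a fun a => frc b fun b => O.any (fun p => Nat.beq p.1 a && Nat.beq p.2 b)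

/-- The word `u` in the labels `≤ l` and the word `w` in the labels `≥ k` give the same permutation,
which moves the pair `(a, b)` out of a set `O` of pairs closed under the labels in `[k, l]`. -/
def leafOk (n r F T k l : Nat) (u w : List Nat) (O : List (Nat × Nat)) (a b : Nat) : Bool :=
  full F T n && u.all (fun c => Nat.ble c l && Nat.blt c r) &&
  w.all (fun c => Nat.ble k c && Nat.blt c r) &&
  (List.range n).all (fun x => Nat.beq (ev T u x) (ev T w x)) &&
  Nat.blt a n && Nat.blt b n && memP O a b && !memP O (ev T u a) (ev T u b) &&
  O.all (fun p => (List.range r).all (fun c =>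
    !(Nat.ble k c && Nat.ble c l) || memP O (ap T c p.1) (ap T c p.2)))

end
end D145.Sm
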