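import Pool.Agent.MP_d145c0_al.H75.SmKill
import Pool.Agent.MP_d145c0_al.H75.SmLeafA

/-! Soundness of the checker for complete tables. -/

namespace D145
open Equiv Sm

theorem Sm.memP_iff {O : List (ℕ × ℕ)} {a b : ℕ} : memP O a b = true ↔ (a, b) ∈ O := by
  change O.any (fun p => Nat.beq p.1 a && Nat.beq p.2 b) = true ↔ _
  simp only [List.any_eq_true, Bool.and_eq_true, Nat.beq_eq]
  exact ⟨fun ⟨p, hp, h1, h2⟩ => by rw [← h1, ← h2]; exact hp, fun h => ⟨_, h, rfl, rfl⟩⟩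

namespace SD0
variable {Ω : Type} [Fintype Ω] [DecidableEq Ω] {m : ℕ} {S : SD0 Ω m} {T : ℕ} {L : ℕ → Ω}

theorem Inv.surj (hI : S.Inv (4 * m + 3) T L) (z : Ω) : ∃ x, x < 4 * m + 3 ∧ L x = z := by
  have h1 : ((Finset.range (4 * m + 3)).image L).card = 4 * m + 3 := by
    rw [Finset.card_image_of_injOn, Finset.card_range]
    intro x hx y hy e
    exact hI.inj x (by simpa using hx) y (by simpa using hy) e
  have h2 : (Finset.range (4 * m + 3)).image L = Finset.univ :=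
    Finset.eq_univ_of_card _ (by rw [h1, S.card])
  have h3 : z ∈ (Finset.range (4 * m + 3)).image L := h2 ▸ Finset.mem_univ z
  obtain ⟨x, hx, e⟩ := Finset.mem_image.1 h3
  exact ⟨x, Finset.mem_range.1 hx, e⟩

theorem Inv.ap {nd : ℕ} (hI : S.Inv nd T L) {x c : ℕ} (hc : c < 2 * m) (h : gt T x c ≠ 0) :
    ap T c x < nd ∧ S.ρ c (L x) = L (ap T c x) := by
  have hm := S.hm4
  obtain ⟨y, hy⟩ := Nat.exists_eq_succ_of_ne_zero h
  have e : Sm.ap T c x = y := by unfold Sm.ap; rw [hy]; rfl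
  obtain ⟨_, h2, _, h4, _⟩ := hI.ent x c y (by omega) hy
  rw [e, ← S.σ_lt hc]; exact ⟨h2, h4⟩

theorem Inv.ev {nd : ℕ} (hI : S.Inv nd T L) (hf : ∀ x c, x < nd → c < 2 * m → gt T x c ≠ 0)
    {w : List ℕ} (hw : ∀ c ∈ w, c < 2 * m) {x : ℕ} (hx : x < nd) :
    ev T w x < nd ∧ (w.map S.ρ).prod (L x) = L (ev T w x) := by
  induction w with
  | nil => exact ⟨hx, rfl⟩
  | cons c w ih =>
    obtain ⟨h1, h2⟩ := ih (fun c hc => hw c (List.mem_cons_of_mem _ hc))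
    have hc := hw c List.mem_cons_self
    obtain ⟨h3, h4⟩ := hI.ap hc (hf _ c h1 hc)
    refine ⟨h3, ?_⟩
    rw [List.map_cons, List.prod_cons, Perm.mul_apply, h2, h4]; rfl

theorem word_mem (S : SD0 Ω m) {I : Set ℕ} {w : List ℕ} (hw : ∀ c ∈ w, c ∈ I) :
    (w.map S.ρ).prod ∈ S.G I := by
  refine Subgroup.list_prod_mem _ ?_
  intro g hg
  obtain ⟨c, hc, rfl⟩ := List.mem_map.1 hg
  exact S.ρ_mem (hw c hc)

theorem Inv.leaf {F : ℕ} (hF : Fok (2 * m) F) (hI : S.Inv (4 * m + 3) T L) {k l a b : ℕ}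
    {u w : List ℕ} {O : List (ℕ × ℕ)}
    (h : leafOk (4 * m + 3) (2 * m) F T k l u w O a b = true) : False := by
  have hm := S.hm4
  simp only [leafOk, Bool.and_eq_true, List.all_eq_true, Nat.ble_eq, Nat.blt_eq, Nat.beq_eq,
    List.mem_range, Bool.not_eq_true', Bool.or_eq_true, memP_iff] at h
  obtain ⟨⟨⟨⟨⟨⟨⟨⟨h1, h2⟩, h3⟩, h4⟩, ha⟩, hb⟩, h5⟩, h6⟩, h7⟩ := h
  have hf : ∀ x c, x < 4 * m + 3 → c < 2 * m → gt T x c ≠ 0 := fun x c hx hc =>
    full_ne hF (by omega) (by omega) h1 hx hc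
  have eu := fun x hx => hI.ev hf (w := u) (fun c hc => (h2 c hc).2) (x := x) hx
  have ew := fun x hx => hI.ev hf (w := w) (fun c hc => (h3 c hc).2) (x := x) hx
  have e : (u.map S.ρ).prod = (w.map S.ρ).prod := by
    ext z
    obtain ⟨x, hx, rfl⟩ := hI.surj z
    rw [(eu x hx).2, (ew x hx).2, h4 x hx]
  have hg : (u.map S.ρ).prod ∈ S.G (Set.Icc k l) :=
    S.ip k l ⟨S.word_mem (fun c hc => (h2 c hc).1), e ▸ S.word_mem (fun c hc => (h3 c hc).1)⟩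
  have key : ∀ g ∈ S.G (Set.Icc k l), ∃ p ∈ O, p.1 < 4 * m + 3 ∧ p.2 < 4 * m + 3 ∧
      g (L a) = L p.1 ∧ g (L b) = L p.2 := by
    intro g hg
    refine S.G_ind (P := fun g => ∃ p ∈ O, p.1 < 4 * m + 3 ∧ p.2 < 4 * m + 3 ∧
      g (L a) = L p.1 ∧ g (L b) = L p.2) ⟨(a, b), h5, ha, hb, rfl, rfl⟩ ?_ hg
    rintro i hi g _ ⟨p, hp, p1, p2, e1, e2⟩
    by_cases hc : i < 2 * m
    · obtain ⟨q1, q2⟩ := hI.ap hc (hf _ i p1 hc)
      obtain ⟨q3, q4⟩ := hI.ap hc (hf _ i p2 hc)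
      refine ⟨(Sm.ap T i p.1, Sm.ap T i p.2), ?_, q1, q3, ?_, ?_⟩
      · rcases h7 p hp i hc with h | h
        · rw [Bool.and_eq_false_iff] at h
          have := hi.1; have := hi.2
          rcases h with h | h <;> rw [← Bool.not_eq_true, Nat.ble_eq] at h <;> omega
        · exact h
      · rw [Perm.mul_apply, e1, q2]
      · rw [Perm.mul_apply, e2, q4]
    · exact ⟨p, hp, p1, p2, by rw [S.triv i (by omega), one_mul, e1],
        by rw [S.triv i (by omega), one_mul, e2]⟩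
  obtain ⟨p, hp, p1, p2, e1, e2⟩ := key _ hg
  rw [(eu a ha).2] at e1
  rw [(eu b hb).2] at e2
  have f1 := hI.inj _ (eu a ha).1 _ p1 e1
  have f2 := hI.inj _ (eu b hb).1 _ p2 e2
  have : memP O (Sm.ev T u a) (Sm.ev T u b) = true := memP_iff.2 (by rw [f1, f2]; exact hp)
  rw [h6] at this
  exact Bool.false_ne_true this

end SD0
end D145
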