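import Pool.Agent.MP_d145c0_al.H75.Bridge
import Pool.Agent.MP_d145c0_al.H75.SmLeaf

/-! From the list of surviving complete tables to the upper bound (`m = 3, 4`). -/

namespace D145
open Equiv BridgeAux Sm

theorem exists_SD0 {m : ℕ} (hm : 3 ≤ m) (hm4 : m ≤ 4) (A : SDA (4 * m + 3) (2 * m)) :
    letI := A.grp
    ∃ (S : SD0 (Fin (4 * m + 3)) m) (ψ : A.G ≃* alternatingGroup (Fin (4 * m + 3))),
      ∀ i : Fin (2 * m), ((ψ (A.ρ i) : alternatingGroup (Fin (4 * m + 3))) : Perm _) = S.ρ i := by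
  let := A.grp
  obtain ⟨ψ⟩ := A.alt
  obtain ⟨φ, hφ⟩ := A.sd
  obtain ⟨h1, h2, h3, h4⟩ := A.isC
  let f : A.G →* Perm (Fin (4 * m + 3)) := (alternatingGroup _).subtype.comp ψ.toMonoidHom
  have hf : Function.Injective f := Subtype.val_injective.comp ψ.injective
  obtain ⟨d, hd⟩ := aut_alt (by rw [Fintype.card_fin]; omega) (ψ.symm.trans (φ.trans ψ))
  have hd' : ∀ g, f (φ g) = d * f g * d⁻¹ := fun g => by simpa [f] using hd (ψ g)
  have sq : ∀ i, ext (f ∘ A.ρ) i * ext (f ∘ A.ρ) i = 1 := fun i => by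
    rcases lt_or_ge i (2 * m) with h | h
    · rw [ext_lt _ h, Function.comp_apply, ← map_mul, ← pow_two, (h1 _).2, map_one]
    · rw [ext_ge _ h, one_mul]
  have gen : Subgroup.closure (Set.range (ext (f ∘ A.ρ))) = alternatingGroup _ := by
    have := gen_ext f A.ρ Set.univ
    rw [Gen, Set.image_univ] at this
    rw [this]
    simp only [Set.mem_univ, Set.ofPred_true, Set.image_univ, h3]
    ext g
    exact ⟨fun ⟨a, _, e⟩ => e ▸ (ψ a).2, fun hg => ⟨ψ.symm ⟨g, hg⟩, trivial, by simp [f]⟩⟩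
  have φ2 : ∀ g, φ (φ g) = g := fun g => by
    have hg : g ∈ Subgroup.closure (Set.range A.ρ) := h3 ▸ Subgroup.mem_top g
    induction hg using Subgroup.closure_induction with
    | mem _ hx => obtain ⟨i, rfl⟩ := hx; rw [hφ, hφ, Fin.rev_rev]
    | one => simp
    | mul _ _ _ _ a b => simp [a, b]
    | inv _ _ a => simp [a]
  refine ⟨{ ρ := ext (f ∘ A.ρ)
            δ := d
            hm := hm
            hm4 := hm4
            card := Fintype.card_fin _
            triv := fun i h => ext_ge _ h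
            inv := fun i x => by rw [← Perm.mul_apply, sq, Perm.one_apply]
            ne := fun i h e => (h1 ⟨i, h⟩).1 (hf (by rw [map_one, ← e, ext_lt _ h]; rfl))
            comm := fun i j hij x => ?_
            even := fun i => Perm.mem_alternatingGroup.1
              (gen ▸ Subgroup.subset_closure (Set.mem_range_self i))
            gen := gen
            ip := fun k l => ?_
            dinv := fun x => central (c := d * d) (by rw [Fintype.card_fin]; omega)
              (fun g hg => ?_) x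
            dual := fun i h x => ?_ }, ψ, fun i => (ext_lt (f ∘ A.ρ) i.2).symm⟩
  · rcases lt_or_ge j (2 * m) with h | h
    · have hi : i < 2 * m := by omega
      have e : ext (f ∘ A.ρ) i * ext (f ∘ A.ρ) j * (ext (f ∘ A.ρ) i * ext (f ∘ A.ρ) j) = 1 := by
        rw [ext_lt _ h, ext_lt _ hi, Function.comp_apply, Function.comp_apply, ← map_mul,
          ← map_mul, ← pow_two, h2 ⟨i, hi⟩ ⟨j, h⟩ hij, map_one]
      rw [← Perm.mul_apply, eq_inv_of_mul_eq_one_left e, mul_inv_rev,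
        ← eq_inv_of_mul_eq_one_left (sq i), ← eq_inv_of_mul_eq_one_left (sq j), Perm.mul_apply]
    · simp [ext_ge _ h]
  · rw [gen_ext, gen_ext, gen_ext, ← Subgroup.map_inf_eq _ _ _ hf, h4]
    exact Subgroup.map_mono (Subgroup.closure_mono (Set.image_mono fun j hj => ⟨hj.2, hj.1⟩))
  · have e := hd' (φ (ψ.symm ⟨g, hg⟩))
    rw [φ2, hd', show f (ψ.symm ⟨g, hg⟩) = g by simp [f]] at e
    conv_rhs => rw [e]
    group
  · have e := hd' (A.ρ ⟨i, h⟩)
    have h' : 2 * m - 1 - i < 2 * m := by omega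
    rw [hφ, show Fin.rev (⟨i, h⟩ : Fin (2 * m)) = ⟨2 * m - 1 - i, h'⟩ from
      Fin.ext (by simp [Fin.val_rev]; omega)] at e
    rw [ext_lt _ h, ext_lt _ h', Function.comp_apply, Function.comp_apply, e]
    simp

theorem SD0.Inv.iso {Ω : Type} [Fintype Ω] [DecidableEq Ω] {m : ℕ} {S S' : SD0 Ω m} {T : ℕ}
    {L L' : ℕ → Ω} (hI : S.Inv (4 * m + 3) T L) (hI' : S'.Inv (4 * m + 3) T L')
    (hf : ∀ x c, x < 4 * m + 3 → c < 2 * m → gt T x c ≠ 0) :
    ∃ d : Perm Ω, ∀ i, i < 2 * m → ∀ x, d (S.ρ i x) = S'.ρ i (d x) := by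
  choose f hf1 hf2 using hI.surj
  have hinj : Function.Injective (fun z => L' (f z)) := by
    intro z z' e
    have := hI'.inj _ (hf1 z) _ (hf1 z') e
    rw [← hf2 z, ← hf2 z', this]
  refine ⟨Equiv.ofBijective _ (Finite.injective_iff_bijective.1 hinj), fun i hi x => ?_⟩
  simp only [Equiv.ofBijective_apply]
  obtain ⟨h1, h2⟩ := hI.ap hi (hf _ i (hf1 x) hi)
  obtain ⟨_, h4⟩ := hI'.ap hi (hf _ i (hf1 x) hi)
  rw [h4]
  congr 1
  refine hI.inj _ (hf1 _) _ h1 ?_
  rw [hf2, ← h2, hf2]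

theorem upper_of_good {m F : ℕ} (hm : 3 ≤ m) (hm4 : m ≤ 4) (hF : Fok (2 * m) F) (Good : List ℕ)
    (hfull : ∀ T ∈ Good, full F T (4 * m + 3) = true)
    (h : ∀ S : SD0 (Fin (4 * m + 3)) m, ∃ T ∈ Good, S.Real (4 * m + 3) T) :
    N (4 * m + 3) (2 * m) ≤ ((Good.length : ℕ) : ℕ∞) := by
  choose S ψ hψ using exists_SD0 hm hm4
  choose T hT L hL using fun A => h (S A)
  refine le_trans ?_ (Nat.cast_le.2 (List.toFinset_card_le Good))
  rw [← Fintype.card_coe, ← ENat.card_eq_coe_fintype_card]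
  refine ENat.card_le_card_of_injective
    (f := fun q => ⟨T q.out, List.mem_toFinset.2 (hT _)⟩) fun q q' e => ?_
  have e' : T q.out = T q'.out := congrArg Subtype.val e
  obtain ⟨d, hd⟩ := SD0.Inv.iso (hL q.out) (e' ▸ hL q'.out) (fun x c hx hc =>
    SD0.full_ne hF (by omega) (by omega) (hfull _ (hT _)) hx hc)
  rw [← q.out_eq, ← q'.out_eq]
  let := q.out.grp
  let := q'.out.grp
  refine Quot.sound ⟨(ψ q.out).trans ((MulAut.conjNormal d).trans (ψ q'.out).symm), fun i => ?_⟩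
  rw [MulEquiv.trans_apply, MulEquiv.trans_apply, MulEquiv.symm_apply_eq]
  refine Subtype.ext ?_
  rw [MulAut.conjNormal_apply, hψ, hψ]
  ext1 x
  simp [hd _ i.2]

end D145
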