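import Pool.Agent.MP_d145c0_al.H75.SmK15

/-! The complete tables for `n = 15` that fail the intersection property. -/

namespace D145.Sm

theorem l15_0 : leafOk 15 6 f15 t15_0 1 0
  [0]
  [2, 4, 3, 2, 3, 4, 3, 4, 3, 2, 3, 4, 5, 2, 3, 5, 2, 3, 4, 3, 2, 4, 3, 2, 3, 2, 3, 4, 2, 3, 4, 2, 5, 3, 1, 2, 5, 4, 3, 2, 4, 3, 2, 5, 3, 2, 3, 4, 2, 3, 4, 2, 1, 3, 5, 2, 1, 4, 3, 2, 1, 3, 2, 1, 3, 5, 2, 3, 4, 1, 4, 3, 2, 3, 2, 3, 2, 3, 4, 2]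
  [(0, 0)] 0 0 = true := by decide +kernel

theorem l15_1 : leafOk 15 6 f15 t15_1 1 0
  [0]
  [2, 4, 3, 2, 4, 3, 4, 2, 3, 4, 5, 2, 3, 5, 2, 3, 4, 3, 2, 4, 3, 2, 3, 2, 3, 4, 2, 3, 4, 2, 1, 3, 2, 4, 3, 2, 4, 3, 2, 3, 5, 2, 3, 4, 2, 3, 2, 1, 4, 3, 4, 3, 2, 4, 3, 4, 3, 2, 3, 2, 3, 2, 3, 4, 2, 3, 4, 2, 3, 4, 5, 2, 1, 3, 2, 1, 3, 5, 2, 1, 3, 5, 2, 1, 2, 5, 3, 2, 3, 2, 3, 2]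
  [(0, 0)] 0 0 = true := by decide +kernel

theorem l15_2 : leafOk 15 6 f15 t15_2 1 0
  [0]
  [4, 3, 2, 3, 4, 5, 4, 3, 2, 3, 4, 5, 4, 2, 3, 4, 2, 3, 2, 3, 2, 3, 4, 2, 3, 2, 3, 2, 3, 2, 3, 2, 4, 3, 2, 5, 4, 3, 2, 3, 2, 3, 4, 5, 2, 3, 4, 5, 2, 3, 2, 5, 4, 3, 2, 5, 4, 3, 2, 3, 2, 3, 4, 5, 2, 3, 4, 3, 2, 3, 2, 3, 2, 3, 2, 4, 3, 2, 5, 4, 3, 2, 3, 2, 3, 4, 5, 2, 3, 4, 5, 2]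
  [(0, 0)] 0 0 = true := by decide +kernel

theorem l15_3 : leafOk 15 6 f15 t15_3 1 0
  [0]
  [5, 4, 3, 2, 3, 4, 5, 4, 3, 2, 3, 4, 2, 5, 4, 3, 2, 4, 3, 2, 3, 2, 3, 4, 5, 2, 3, 2, 3, 2, 3, 2, 3, 2, 3, 5, 4, 3, 2, 3, 2, 3, 2, 3, 4, 5, 2, 3, 2, 3, 4, 3, 2, 3, 2, 3, 2, 3, 4, 2]
  [(0, 0)] 0 0 = true := by decide +kernel

theorem l15_4 : leafOk 15 6 f15 t15_4 2 2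
  [1, 2, 0, 1, 2, 0, 1, 0]
  [2, 3, 2, 3, 2, 3, 2, 4, 5, 3, 4, 2, 3, 2, 3, 2, 3, 2, 3, 2, 3, 2, 3, 4, 3, 2, 3, 2, 5, 4, 3, 2, 3, 4, 5, 4, 3, 2, 3, 4, 3, 2, 3, 5, 4, 3]
  [(0, 3), (1, 5)] 0 3 = true := by decide +kernel

theorem l15_5 : leafOk 15 6 f15 t15_5 2 2
  [1, 2, 1, 2, 1]
  [2, 3, 2, 3, 2, 3, 2, 4, 3, 4, 2, 3, 2, 3, 2, 3, 2, 3, 2, 3, 2, 3, 4, 3, 2, 3, 2, 3, 2, 3, 4, 3, 2, 3, 2, 3, 2, 3, 2, 3, 2, 3, 2, 3, 4, 2, 3, 2, 3, 2, 3, 2, 3, 2, 3, 2, 3, 2, 3, 2, 3]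
  [(0, 3), (1, 5)] 0 3 = true := by decide +kernel

theorem l15_6 : leafOk 15 6 f15 t15_6 1 0
  [0]
  [4, 3, 2, 3, 2, 3, 2, 1, 2, 3, 2, 3, 2, 3, 4, 3, 2, 3, 2, 3, 2, 1, 2, 3, 2, 3, 2, 3, 4, 3, 2, 3, 2, 3, 2, 1, 2, 3, 2, 3, 2, 3, 1, 3, 2, 3, 2, 3, 2, 3, 4, 3, 2, 3, 2, 3, 2, 3, 1, 4, 2, 3, 2, 3, 2, 3, 2, 1, 2, 3, 2, 3, 2, 3, 4, 2]
  [(0, 7)] 0 7 = true := by decide +kernel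

theorem l15_7 : leafOk 15 6 f15 t15_7 1 0
  [0]
  [1, 2, 1, 2, 3, 2, 3, 2, 4, 3, 2, 3, 2, 1, 2, 3, 1, 2, 3, 5, 4, 5, 4, 2, 1, 3, 2, 1, 3, 2, 1, 2, 3, 1, 2, 3, 1, 2, 4, 5, 4, 2, 3, 4, 1, 2, 3, 2, 4, 3, 1, 3, 2, 1, 2, 3, 4, 3, 2, 1, 2, 3, 4, 1, 3, 4, 2, 3, 2, 1, 4, 3, 2]
  [(0, 7)] 0 7 = true := by decide +kernel

theorem l15_8 : leafOk 15 6 f15 t15_8 1 0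
  [0]
  [3, 2, 4, 3, 4, 3, 2, 4, 3, 2, 3, 2, 1, 3, 2, 1, 2, 3, 1, 3, 2, 3, 4, 3, 4, 3, 4, 3, 2, 3, 2, 3, 2, 3, 1, 2, 1, 2, 3, 1]
  [(0, 8)] 0 8 = true := by decide +kernel

theorem l15_9 : leafOk 15 6 f15 t15_9 1 0
  [0]
  [2, 3, 2, 3, 2, 3, 2, 3, 2, 3, 2, 3, 2, 3, 2, 3, 2, 3, 2, 3, 2, 3, 2, 3, 5, 2, 3, 2, 3]
  [(0, 8)] 0 8 = true := by decide +kernel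

theorem l15_10 : leafOk 15 6 f15 t15_10 1 0
  [0]
  [3, 2, 1, 2, 1, 2, 1, 2, 3, 1, 2, 1, 2, 1, 2, 1, 2, 1, 4, 2, 3, 4, 3, 2, 3, 4, 2, 1, 2, 4, 3, 1, 2, 3, 4, 3, 2, 3, 2, 4, 3, 2, 3, 2, 1, 2, 3, 2, 3, 4, 2, 4, 3, 4, 5, 4, 3, 5, 4, 3, 5, 3, 2, 4, 3, 2, 3, 2, 1, 2, 3, 2, 3, 4, 2, 3, 4]
  [(0, 8)] 0 8 = true := by decide +kernel

theorem l15_11 : leafOk 15 6 f15 t15_11 1 0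
  [0]
  [1, 3, 2, 3, 2, 1, 2, 3, 2, 3, 1, 2, 1, 3, 2, 3, 2, 1, 2, 3, 2, 3, 1, 2, 1, 3, 2, 4, 3, 2, 1, 2, 3, 4, 2, 3, 1, 5, 1, 2, 4, 3, 5, 4, 3, 4, 3, 4, 3, 4, 5, 4, 2, 1, 5, 1, 3, 2, 4, 3, 2, 1, 2, 3, 4, 5, 4, 3, 2, 1, 2, 3, 4, 5, 2, 3, 1]
  [(0, 7)] 0 7 = true := by decide +kernel

theorem l15_12 : leafOk 15 6 f15 t15_12 1 0
  [0]
  [4, 1, 2, 3, 2, 1, 2, 3, 4, 1, 3, 2, 3, 2, 3, 4, 3, 2, 3, 2, 3, 1, 2, 3, 2, 4, 3, 2, 1, 2, 3, 4, 2, 4, 3, 2, 3, 4, 3, 2, 3, 4, 2, 4, 3, 2, 1, 2, 3, 4, 2, 3, 2, 4, 3, 4, 5, 3, 4, 5, 3, 4, 3, 4, 2, 1, 2, 3, 4, 3, 1, 2, 3, 4, 3, 2, 3, 4, 5, 3, 2, 3, 4, 3, 2, 1, 2, 4, 3, 2, 1, 2, 3, 5, 3, 4, 3, 4, 3, 4, 5, 2, 1, 2, 3, 4, 2, 1, 3, 5, 4, 3, 2, 3,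 4, 3, 2, 1, 3, 4, 3, 2, 3, 4, 3, 2, 1, 2, 3, 4, 5, 4, 3, 2, 1, 2, 3, 4, 3]
  [(0, 7)] 0 7 = true := by decide +kernel

theorem l15_13 : leafOk 15 6 f15 t15_13 1 0
  [0]
  [2, 3, 2, 1, 2, 3, 2, 3, 2, 3, 4, 5, 4, 3, 2, 3, 2, 3, 2, 1, 2, 3, 2, 3, 2, 1, 2, 3, 2, 3, 2, 3, 4, 5, 4, 3, 2, 3, 2, 3, 2, 1, 2, 3]
  [(0, 7)] 0 7 = true := by decide +kernel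

theorem l15_14 : leafOk 15 6 f15 t15_14 2 2
  [1, 2, 1, 2, 1, 2, 0, 1, 2, 1, 2, 0, 1, 2, 0, 1, 2, 1, 0, 1]
  [2, 5, 2, 3, 2, 3, 2, 3, 2, 4, 3, 4, 3, 4, 3, 4, 5, 2, 3, 4, 3, 4, 3, 4, 3, 4, 3, 4, 5, 4, 3, 4, 3, 4, 5, 4, 3, 5, 4, 3, 4, 5, 4, 5]
  [(0, 6), (1, 13)] 0 6 = true := by decide +kernel

theorem l15_15 : leafOk 15 6 f15 t15_15 1 2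
  [0, 1, 2, 1, 2, 1, 2, 1, 2, 1, 0]
  [1, 2, 1, 2, 1, 2, 1, 2, 1, 3, 2, 3, 5, 2, 3, 2, 3, 2, 4, 3, 4, 5, 4, 3, 4, 3, 4, 5, 4, 2, 3, 4, 5, 4, 3, 4, 3, 5, 4, 3, 5, 4, 5, 4, 5, 3, 2, 3, 4, 3, 2, 3, 4, 5, 4, 3, 2, 3, 4, 3, 2, 3]
  [(0, 8), (1, 12)] 0 8 = true := by decide +kernel

theorem l15_16 : leafOk 15 6 f15 t15_16 2 2
  [1, 2, 0, 1, 2, 0, 1, 2, 0, 1, 2, 1, 2, 1, 2, 0, 1, 2, 0, 1, 2, 0, 1]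
  [5, 4, 3, 4, 3, 4, 3, 4, 2, 5, 3, 2, 3, 2, 3, 2, 3, 2, 3, 4, 3, 4, 3, 4, 3, 4, 5, 4, 5, 3, 2, 3, 4, 3, 2, 3, 4, 5, 4, 3, 2, 3, 4, 3, 2, 3]
  [(0, 6), (1, 11)] 0 6 = true := by decide +kernel

theorem l15_20 : leafOk 15 6 f15 t15_20 1 2
  [0, 1, 2, 1, 0, 1, 2, 1, 0]
  [3, 2, 1, 2, 3, 2, 1, 2, 3, 2, 1, 2, 1, 4, 3, 2, 1, 2, 3, 4, 1, 2, 3, 2, 1, 2, 3, 2, 1, 2, 3, 2, 3, 4, 5, 4, 5, 3, 2, 1, 2, 3, 4, 3, 2, 1, 2, 3, 4, 5, 4, 5, 3, 1, 2, 1, 2, 3, 4, 3, 2, 1, 2, 1]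
  [(0, 11), (1, 7), (3, 5), (5, 3), (7, 1), (11, 0)] 0 11 = true := by decide +kernel

theorem l15_21 : leafOk 15 6 f15 t15_21 1 0
  [0]
  [2, 3, 2, 3, 2, 3, 2, 3, 2, 3, 5, 2, 3, 1, 3, 2, 1, 5, 4, 3, 2, 3, 2, 1, 3, 5, 4, 2, 3, 1, 2, 1, 3, 2, 1, 3, 4, 5, 3, 2, 4, 3, 2, 3, 4, 1, 2, 3, 1, 2, 5, 2, 1, 2, 4, 5, 3, 4, 2, 1, 2, 4, 5, 3, 4, 2, 4, 5, 3, 2, 1, 2, 3, 4, 5, 2, 3, 2, 1, 4, 3, 2, 4, 3, 4, 3, 2, 3, 2, 1, 2, 3, 1, 2, 3, 2, 3, 2, 3, 2, 3, 2, 3, 5, 2, 3, 5, 2, 1, 3, 2, 1, 3, 4, 5, 3, 2, 4, 3, 2, 3, 4, 1, 2, 3, 1, 2]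
  [(0, 4)] 0 4 = true := by decide +kernel

theorem l15_22 : leafOk 15 6 f15 t15_22 1 0
  [0]
  [2, 3, 2, 3, 2, 3, 2, 3, 2, 3, 5, 2, 3, 1, 3, 2, 4, 3, 2, 3, 2, 3, 4, 2, 3, 4, 1, 3, 2, 5, 3, 2, 3, 2, 3, 2, 3, 2, 3, 4, 3, 5, 2, 3, 2, 3, 2, 3, 2, 3, 2, 3, 4, 1, 2, 4, 5, 4, 3, 2, 1, 3, 2, 3, 4, 2, 1, 4, 3, 2, 5, 3, 1, 2, 3, 4, 1, 2, 1, 4, 3, 2, 3, 2, 3, 2, 3, 4, 5, 3, 2, 1, 5, 4, 3, 2, 3, 2, 3, 2, 3, 4, 5, 1, 2, 3, 1, 2, 1, 5, 1, 4, 3, 2, 3, 2, 3, 2, 3, 4, 5, 2, 1, 5, 2, 1, 4, 3, 2, 1, 3, 5, 2, 3, 4, 2, 1, 2, 4, 3, 2, 3, 1, 2, 3, 4, 5, 4, 1]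
  [(0, 4)] 0 4 = true := by decide +kernel

end D145.Sm
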