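import Pool.Agent.MP_d145c0_al.H75.SmGo
import Pool.Agent.MP_d145c0_al.H75.SmBridge
import Pool.Agent.MP_d145c0_al.H75.SmL15
import Pool.Agent.MP_d145c0_al.H75.SmD15a

/-! The upper bound for `n = 15`. -/

namespace D145
open Sm

theorem Sm.tb15_ok : TBok (2 * 3) tb15 := by decide +kernel

theorem Sm.f15_ok : Fok (2 * 3) f15 := by decide +kernel

namespace SD0
variable {Ω : Type} [Fintype Ω] [DecidableEq Ω] (S : SD0 Ω 3)

/-- one of the surviving tables is realised -/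
def Goal15 : Prop := ∃ T ∈ [t15_17, t15_18, t15_19], S.Real (4 * 3 + 3) T

theorem go15 {K : List (ℕ × ℕ)} {fuel nd T z : ℕ} {s : List ℕ} {k : List ℕ → Bool}
    (h : go 15 6 tb15 f15 K fuel nd T z s k = true)
    (hK : ∀ p ∈ K, S.Real p.1 p.2 → S.Goal15) (hR : S.Real nd T) : S.Goal15 := by
  obtain ⟨p, hp, h'⟩ := S.go_sound tb15_ok f15_ok h hR
  exact hK p hp h'

theorem bad15 {T k l a b : ℕ} {u w : List ℕ} {O : List (ℕ × ℕ)}
    (h : leafOk 15 6 f15 T k l u w O a b = true) (hR : S.Real 15 T) : S.Goal15 := by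
  obtain ⟨L, hL⟩ := hR
  exact (Inv.leaf f15_ok hL h).elim

theorem good15_17 (hR : S.Real 15 t15_17) : S.Goal15 := ⟨_, by simp, hR⟩

theorem good15_18 (hR : S.Real 15 t15_18) : S.Goal15 := ⟨_, by simp, hR⟩

theorem good15_19 (hR : S.Real 15 t15_19) : S.Goal15 := ⟨_, by simp, hR⟩

theorem h15_0 : S.Real 2 u15_0 → S.Goal15 := S.go15 c15_0
    (List.forall_mem_nil _)

theorem h15_1 : S.Real 11 u15_1 → S.Goal15 := S.go15 c15_1
    (List.forall_mem_nil _)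

theorem h15_2 : S.Real 9 u15_2 → S.Goal15 := S.go15 c15_2
    (List.forall_mem_cons.2 ⟨S.h15_1,
    List.forall_mem_nil _⟩)

theorem h15_3 : S.Real 8 u15_3 → S.Goal15 := S.go15 c15_3
    (List.forall_mem_cons.2 ⟨S.bad15 l15_4,
    List.forall_mem_cons.2 ⟨S.bad15 l15_5,
    List.forall_mem_cons.2 ⟨S.bad15 l15_6,
    List.forall_mem_cons.2 ⟨S.bad15 l15_7,
    List.forall_mem_nil _⟩⟩⟩⟩)

theorem h15_4 : S.Real 7 u15_4 → S.Goal15 := S.go15 c15_4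
    (List.forall_mem_cons.2 ⟨S.h15_2,
    List.forall_mem_cons.2 ⟨S.h15_3,
    List.forall_mem_cons.2 ⟨S.bad15 l15_8,
    List.forall_mem_cons.2 ⟨S.bad15 l15_9,
    List.forall_mem_cons.2 ⟨S.bad15 l15_10,
    List.forall_mem_cons.2 ⟨S.bad15 l15_11,
    List.forall_mem_cons.2 ⟨S.bad15 l15_12,
    List.forall_mem_cons.2 ⟨S.bad15 l15_13,
    List.forall_mem_nil _⟩⟩⟩⟩⟩⟩⟩⟩)

theorem h15_5 : S.Real 7 u15_5 → S.Goal15 := S.go15 c15_5
    (List.forall_mem_cons.2 ⟨S.bad15 l15_14,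
    List.forall_mem_cons.2 ⟨S.bad15 l15_15,
    List.forall_mem_cons.2 ⟨S.bad15 l15_16,
    List.forall_mem_nil _⟩⟩⟩)

theorem h15_6 : S.Real 5 u15_6 → S.Goal15 := S.go15 c15_6
    (List.forall_mem_cons.2 ⟨S.h15_4,
    List.forall_mem_cons.2 ⟨S.h15_5,
    List.forall_mem_nil _⟩⟩)

theorem h15_7 : S.Real 3 u15_7 → S.Goal15 := S.go15 c15_7
    (List.forall_mem_cons.2 ⟨S.good15_17,
    List.forall_mem_cons.2 ⟨S.good15_18,
    List.forall_mem_cons.2 ⟨S.good15_19,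
    List.forall_mem_cons.2 ⟨S.bad15 l15_20,
    List.forall_mem_cons.2 ⟨S.bad15 l15_21,
    List.forall_mem_cons.2 ⟨S.bad15 l15_22,
    List.forall_mem_nil _⟩⟩⟩⟩⟩⟩)

theorem h15_8 : S.Real 2 u15_8 → S.Goal15 := S.go15 c15_8
    (List.forall_mem_cons.2 ⟨S.h15_6,
    List.forall_mem_cons.2 ⟨S.h15_7,
    List.forall_mem_nil _⟩⟩)

theorem h15_9 : S.Real 1 u15_9 → S.Goal15 := S.go15 c15_9
    (List.forall_mem_cons.2 ⟨S.bad15 l15_0,
    List.forall_mem_cons.2 ⟨S.bad15 l15_1,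
    List.forall_mem_cons.2 ⟨S.bad15 l15_2,
    List.forall_mem_cons.2 ⟨S.bad15 l15_3,
    List.forall_mem_cons.2 ⟨S.h15_0,
    List.forall_mem_cons.2 ⟨S.h15_8,
    List.forall_mem_nil _⟩⟩⟩⟩⟩⟩)

theorem goal15 : S.Goal15 := S.h15_9 (by
  have e : u15_9 = 2 ^ (10 * 3) := by decide +kernel
  rw [e]; exact S.real_start)

end SD0

theorem upper15 : N (4 * 3 + 3) (2 * 3) ≤ ((3 : ℕ) : ℕ∞) :=
  upper_of_good (by norm_num) (by norm_num) f15_ok [t15_17, t15_18, t15_19] (by decide +kernel)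
    (fun S => S.goal15)

end D145
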