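import Pool.Agent.MP_d145c0_al.H75.SmK19

/-! The complete tables for `n = 19` that fail the intersection property. -/

namespace D145.Sm

theorem l19_0 : leafOk 19 8 f19 t19_0 3 2
  [2, 1, 2, 0, 1, 2, 0, 1, 0]
  [4, 5, 6, 4, 5, 7, 6, 3, 7, 3, 4, 5, 6, 4, 5, 4, 5, 6, 5, 4, 5, 4, 5, 6, 5, 7, 6, 5, 4, 5, 4, 5, 4, 5, 6, 5, 4, 5, 6, 4, 5, 7, 6, 7, 6, 7]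
  [(0, 0)] 0 0 = true := by decide +kernel

theorem l19_1 : leafOk 19 8 f19 t19_1 3 2
  [2, 1, 2, 1, 2, 1]
  [4, 5, 6, 4, 5, 6, 4, 5, 4, 6, 5, 6, 4, 5, 4, 6, 5, 6]
  [(0, 0)] 0 0 = true := by decide +kernel

theorem l19_2 : leafOk 19 8 f19 t19_2 3 2
  [2, 1, 2, 0, 1, 2, 0, 1, 0]
  [5, 4, 3, 4, 3, 4, 3, 5, 4, 3, 5, 4, 3, 4, 3, 4, 5, 4, 3, 4, 5, 6, 7, 5, 6, 4, 5, 3, 4, 3, 5, 4, 5, 6, 5, 7, 6, 5, 4, 5, 3, 5, 4, 3, 5, 4, 5, 3, 4, 5, 3, 4, 3, 5, 4, 5, 4, 3, 5, 4, 5, 3, 4, 5, 3, 4, 3, 4, 5, 7, 6, 7, 6, 5, 4, 5, 4, 3, 4, 3, 4, 5, 6, 5, 4, 5, 7, 3, 5, 4, 3, 7, 5, 6, 7, 5, 3, 4, 3, 4, 5, 7, 6, 7, 6, 5, 4, 3, 4, 3, 6, 4, 5, 4, 5, 6, 7, 5, 4, 5, 4, 5, 4, 5, 4, 5, 6, 5, 4, 5, 4, 5, 7, 4, 3, 4, 5, 6,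 7, 5, 4, 3, 4, 5, 4, 3, 4, 5, 6, 5, 4, 3, 4, 5]
  [(0, 0)] 0 0 = true := by decide +kernel

theorem l19_3 : leafOk 19 8 f19 t19_3 3 2
  [2, 1, 2, 1, 2, 1]
  [5, 4, 3, 4, 3, 4, 3, 5, 4, 3, 5, 4, 3, 4, 3, 4, 5, 4, 3, 4, 5, 6, 5, 6, 4, 5, 3, 4, 3, 5, 4, 5, 6, 5, 6, 5, 4, 5, 3, 4, 5, 6, 4, 3, 4, 5, 6, 5, 6, 5, 4, 3, 4, 5, 4, 5, 4, 3, 4, 6, 5, 6, 5, 4, 3, 4, 5, 3, 4, 5, 4, 5, 6, 5, 4, 6, 7, 6, 5, 4, 5, 6, 7, 5, 6, 4, 5, 4, 3, 5, 4, 3, 4, 5, 6, 5, 6, 4, 5, 4, 5, 3, 4, 5, 3, 4, 3, 5, 4, 3, 4, 3, 4, 5, 6, 5, 4, 3, 4, 3, 7, 6, 7, 6, 4, 3, 4, 5, 6, 5, 4, 3, 4, 5, 4, 3, 4, 5, 6, 7, 5, 4, 3, 4, 5]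
  [(0, 0)] 0 0 = true := by decide +kernel

theorem l19_4 : leafOk 19 8 f19 t19_4 1 0
  [0]
  [2, 3, 2, 3, 2, 3, 2, 3, 2, 3, 2, 3]
  [(0, 11)] 0 11 = true := by decide +kernel

theorem l19_5 : leafOk 19 8 f19 t19_5 1 0
  [0]
  [1, 3, 4, 3, 4, 3, 4, 3, 4, 3, 4, 3, 4, 3, 4, 1, 2, 4, 3, 2, 4, 3, 2, 3, 4, 2, 3, 4, 2, 3, 2, 4, 3, 2, 3, 2, 4, 3, 2, 4, 3, 2, 3, 4, 3, 4, 2, 3, 4, 3, 4, 3, 2, 3, 4, 2, 3, 4]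
  [(0, 11)] 0 11 = true := by decide +kernel

theorem l19_6 : leafOk 19 8 f19 t19_6 1 0
  [0]
  [2, 1, 2, 1, 2, 1, 2, 1, 3, 2, 1, 2, 1, 2, 1, 2, 3]
  [(0, 11)] 0 11 = true := by decide +kernel

theorem l19_7 : leafOk 19 8 f19 t19_7 2 2
  [1, 2, 0, 1, 2, 1, 2, 1, 2, 1, 2, 0, 1, 0]
  [2, 4, 3, 4, 2, 3, 2, 3, 4, 2, 3, 4, 2, 4, 3, 2, 3, 4, 3, 4, 3, 4, 3, 2, 4, 2, 3, 2, 3, 4, 2, 3]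
  [(0, 9)] 0 9 = true := by decide +kernel

theorem l19_8 : leafOk 19 8 f19 t19_8 3 3
  [2, 1, 2, 1, 2, 3, 2, 1, 2, 1, 2, 1]
  [4, 3, 4, 5, 4, 3, 4, 3, 4, 3, 4, 5, 4, 5, 4, 3, 4, 5, 4, 3, 4, 3, 4, 3, 4, 5, 6, 5, 6, 5, 4, 5, 4, 5, 3, 4, 3, 6, 4, 5, 3, 4, 5, 3, 4, 5, 6, 5, 6, 3, 4, 5, 3, 4, 5, 4, 5, 3, 4, 3, 4, 5, 3, 4, 3, 4, 3, 4, 3, 4, 3, 4, 6, 3, 4, 3, 4, 6, 5, 6, 3, 4, 3, 5, 4, 5, 4, 5, 3, 4, 3, 5, 3, 4, 5, 4, 3, 4, 3, 4, 3, 4, 3, 4, 5, 4, 5, 3, 4, 6, 7, 5, 6, 5, 6, 3, 4, 3, 5, 4, 5, 4, 5, 3, 4, 3, 5, 3, 4, 5, 4, 3, 4, 3, 4, 3, 4, 3, 4, 5, 4, 5, 3, 4, 7, 6, 7, 6, 7, 4, 3, 5, 4, 5, 4, 3, 4, 3, 4, 3, 4, 3, 4, 5, 4, 3, 5, 3, 4, 3, 5, 4, 5, 4, 5, 3, 4, 3, 6, 5, 6, 5, 7, 6]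
  [(0, 0), (1, 1)] 0 0 = true := by decide +kernel

theorem l19_9 : leafOk 19 8 f19 t19_9 1 0
  [0]
  [6, 7, 6, 1, 3, 2, 4, 3, 2, 3, 2, 4, 3, 5, 3, 2, 3, 4, 3, 4, 3, 2, 3, 4, 5, 4, 3, 4, 3, 4, 2, 3, 4, 5, 4, 5, 1, 7, 6, 5, 7, 6, 5, 6, 5, 7, 5, 6, 7, 5, 6, 5, 6, 7, 6, 5, 6, 5, 6, 7, 6, 5, 7, 6, 5, 6, 2, 1, 2, 3, 2, 3, 4, 3, 4, 3, 4, 3, 1, 4, 3, 4, 3, 4, 3, 2, 5, 4, 3, 4, 5, 4, 3, 4, 5, 4, 3, 2, 1, 2, 3]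
  [(0, 11)] 0 11 = true := by decide +kernel

theorem l19_10 : leafOk 19 8 f19 t19_10 1 0
  [0]
  [2, 3, 2, 3, 2, 3, 2, 3, 2, 3, 2, 3]
  [(0, 11)] 0 11 = true := by decide +kernel

theorem l19_11 : leafOk 19 8 f19 t19_11 1 0
  [0]
  [2, 3, 2, 3, 2, 3, 2, 3, 2, 3, 2, 3]
  [(0, 11)] 0 11 = true := by decide +kernel

theorem l19_12 : leafOk 19 8 f19 t19_12 1 0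
  [0]
  [3, 2, 3, 2, 3, 2, 3, 2, 3, 2, 3, 2]
  [(0, 11)] 0 11 = true := by decide +kernel

theorem l19_13 : leafOk 19 8 f19 t19_13 1 0
  [0]
  [2, 3, 2, 3, 2, 3, 2, 3, 2, 3, 2, 3]
  [(0, 11)] 0 11 = true := by decide +kernel

theorem l19_14 : leafOk 19 8 f19 t19_14 1 1
  [0, 1, 0, 1, 0]
  [1, 2, 1, 2, 3, 2, 1, 2, 3, 2, 1, 2, 3, 1, 2, 1, 2, 3, 2, 1, 2, 3, 2, 1, 2, 3]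
  [(0, 7), (0, 9)] 0 7 = true := by decide +kernel

theorem l19_15 : leafOk 19 8 f19 t19_15 1 0
  [0]
  [2, 3, 2, 3, 1, 2, 3, 2, 1, 2, 3, 2, 1, 3, 2, 3, 1, 2, 3, 2, 1, 2, 3, 2, 1, 2, 3, 2, 7, 4, 6, 5, 6, 5, 4, 5, 4, 5, 4, 5, 6, 5, 6, 4, 3, 2, 1, 2, 1, 2, 1, 4, 3, 4, 3, 2, 3, 4, 3, 2, 3, 4, 3, 4, 1, 2, 1, 2, 1, 2, 3, 4, 7, 4, 6, 5, 6, 5, 4, 5, 4, 5, 4, 5, 6, 5, 6, 4, 3, 2, 1, 2, 1, 2, 1, 2, 3, 4, 2, 3, 4, 3, 2, 4, 3, 2, 1, 2, 1, 2, 1, 2, 3, 4]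
  [(0, 9)] 0 9 = true := by decide +kernel

theorem l19_16 : leafOk 19 8 f19 t19_16 1 0
  [0]
  [3, 2, 3, 2, 3, 2, 3, 2, 3, 2]
  [(0, 9)] 0 9 = true := by decide +kernel

theorem l19_17 : leafOk 19 8 f19 t19_17 1 2
  [0, 1, 2, 1, 0, 1, 2, 1, 2, 1, 2, 1, 0, 1, 2, 1, 0]
  [1, 2, 1, 2, 5, 4, 3, 1, 2, 3, 4, 5, 1, 5, 6, 2, 3, 4, 5, 3, 2, 1, 2, 3, 4, 3, 2, 3, 4, 3, 4, 2, 3, 4, 5, 6, 3, 4, 3, 4, 3, 4, 5, 1, 2, 1, 3, 2, 1, 3, 2, 3]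
  [(1, 3), (1, 5), (3, 1), (3, 7), (5, 1), (5, 9), (7, 3), (7, 9), (9, 5), (9, 7)] 1 3 = true := by decide +kernel

theorem l19_18 : leafOk 19 8 f19 t19_18 3 2
  [2, 1, 2, 0, 1, 2, 0, 1, 0]
  [4, 5, 4, 5, 3, 4, 3, 4, 5, 4, 5, 4, 3, 4, 5, 3, 5, 6, 5, 4, 3, 5, 6, 4, 5, 3, 4, 6, 5, 4, 5, 7, 5, 4, 5, 3, 4, 5, 3, 4, 3, 4, 3, 6, 5, 4, 5, 4, 5, 3, 5, 6, 5, 4, 5, 6, 5, 3, 7, 6, 7, 6, 7, 3, 4, 5, 6, 7, 6, 7, 5, 4, 6, 5, 4, 5, 6, 7, 6, 5, 4, 5, 6, 4, 5, 6, 5, 4, 5, 4, 5, 6, 5, 4, 3, 5, 7]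
  [(0, 1)] 0 1 = true := by decide +kernel

theorem l19_19 : leafOk 19 8 f19 t19_19 3 2
  [2, 1, 2, 1, 2, 1]
  [4, 5, 4, 5, 3, 4, 3, 4, 5, 4, 5, 4, 3, 4, 5, 3, 4, 3, 6, 5, 6, 5, 4, 5, 3, 5, 4, 3, 4, 5, 6, 5, 6, 4, 3, 4, 6, 5, 4, 5, 3, 4, 5, 3, 4, 3, 4, 3, 6, 5, 4, 6, 5, 4, 5, 3, 4, 3, 6, 4, 3, 4, 5, 4, 5, 6, 5, 4, 5, 4, 3, 4]
  [(0, 1)] 0 1 = true := by decide +kernel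

theorem l19_20 : leafOk 19 8 f19 t19_20 3 2
  [2, 1, 2, 0, 1, 2, 0, 1, 0]
  [4, 5, 4, 5, 6, 5, 4, 5, 6, 4, 5, 4, 5, 6, 7, 5, 6, 5, 4, 7, 6, 5, 7, 6, 3, 4, 5, 6, 7, 6, 7, 6, 5, 4, 6, 5, 4, 5, 6, 7, 6, 5, 4, 5, 6, 4, 5, 6, 5, 4, 5, 4, 5, 6, 5, 4, 3, 5, 7]
  [(0, 1)] 0 1 = true := by decide +kernel

theorem l19_21 : leafOk 19 8 f19 t19_21 3 2
  [2, 1, 2, 1, 2, 1]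
  [4, 5, 4, 5, 6, 4, 5, 6, 4, 5, 4, 6, 5, 4, 5, 4, 6, 5, 6, 5, 4, 6, 5, 6, 5, 6, 3, 5, 4, 5, 6, 7, 6, 5, 4, 5, 3, 6, 7, 6, 7, 3, 6, 5, 4, 5, 6, 5, 4, 3, 5, 7, 6, 7, 6]
  [(0, 1)] 0 1 = true := by decide +kernel

theorem l19_22 : leafOk 19 8 f19 t19_22 1 0
  [0]
  [2, 3, 4, 3, 4, 3, 2, 4, 2, 3, 4, 3, 4, 3, 4, 3, 4, 2, 3, 2, 3, 4, 3, 4, 3, 4, 3, 2, 3, 4, 2, 3, 4, 2, 3, 4, 3, 4, 3, 4, 2, 3, 4, 2]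
  [(0, 9)] 0 9 = true := by decide +kernel

theorem l19_23 : leafOk 19 8 f19 t19_23 1 0
  [0]
  [2, 1, 2, 3, 2, 1, 2, 3, 2, 1, 3, 1, 2, 3, 1, 2, 3, 2, 3, 1, 2, 3, 1, 2, 3, 2, 3, 1, 2, 3, 1, 2, 1, 2, 1, 2, 3, 2, 3, 2, 1, 2, 1, 2, 1, 2, 1, 2, 3, 1, 2, 1, 2, 1, 2, 3, 1, 2, 1, 2]
  [(0, 9)] 0 9 = true := by decide +kernel

theorem l19_24 : leafOk 19 8 f19 t19_24 2 2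
  [1, 2, 1, 2, 1, 2, 0, 1, 2, 1, 2, 0, 1, 2, 0, 1, 2, 1, 0, 1]
  [3, 2, 3, 2, 3, 2, 3, 2, 3]
  [(1, 9), (3, 15)] 1 9 = true := by decide +kernel

theorem l19_25 : leafOk 19 8 f19 t19_25 1 2
  [0, 1, 2, 1, 2, 1, 2, 1, 2, 1, 0]
  [1, 2, 1, 2, 1, 2, 1, 2, 1, 2, 3, 2, 3, 2, 3, 2, 3, 2, 3]
  [(1, 11), (3, 14)] 1 11 = true := by decide +kernel

theorem l19_26 : leafOk 19 8 f19 t19_26 2 2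
  [1, 2, 0, 1, 2, 0, 1, 2, 0, 1, 2, 1, 2, 1, 2, 0, 1, 2, 0, 1, 2, 0, 1]
  [3, 2, 3, 2, 3, 2, 3, 2, 3, 2]
  [(1, 9), (3, 13)] 1 9 = true := by decide +kernel

theorem l19_27 : leafOk 19 8 f19 t19_27 1 0
  [0]
  [3, 2, 3, 2, 3, 2, 3, 2, 3, 2]
  [(0, 11)] 0 11 = true := by decide +kernel

theorem l19_28 : leafOk 19 8 f19 t19_28 1 0
  [0]
  [2, 1, 2, 3, 4, 6, 5, 4, 3, 2, 1, 2, 1, 2, 3, 4, 5, 6, 4, 3, 2, 1, 4, 6, 5, 4, 5, 4, 5, 4, 5, 4, 5, 7, 6, 4, 3, 2, 1, 2, 1, 3, 4, 2, 3, 4, 3, 2, 4, 3, 1, 2, 1, 2, 3, 4, 5, 4, 5, 4, 5, 7, 4, 5, 4, 5, 4, 2, 1, 2, 3, 4, 6, 5, 4, 3, 2, 1, 2, 7, 6, 4, 6, 5, 6, 7, 5, 6, 5, 4, 6, 5, 4, 5, 6, 5, 7, 6, 5, 4, 5, 6, 4, 5, 6, 5, 7, 6, 5, 6, 4]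
  [(0, 11)] 0 11 = true := by decide +kernel

theorem l19_29 : leafOk 19 8 f19 t19_29 1 1
  [0, 1, 0, 1, 0]
  [3, 4, 3, 4, 3, 4, 1, 6, 7, 6, 7, 6, 3, 2, 1, 4, 3, 2, 1, 2, 3, 4, 1, 2, 3, 4, 2, 3, 4, 3, 4, 3, 4, 1, 2, 1, 2, 6, 7, 6, 7, 1, 2, 3, 4, 5, 6, 4, 3, 2, 1, 6, 7, 6, 1, 5, 6, 5, 6, 2, 3, 2, 3, 4, 5, 3, 2, 3, 2, 1, 6, 7, 6, 2, 3, 2, 4, 3, 4, 3, 2, 4, 3, 2, 4, 3, 2, 3, 4, 3, 2, 3, 4, 3, 2, 3, 6, 5, 6, 7, 6, 7, 5, 7, 6, 7, 6, 2, 1, 2, 3, 4, 5, 6, 3, 2, 1, 2, 6, 7, 5, 6, 5, 7, 6, 7, 5, 6, 7, 6, 5, 6, 5, 6]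
  [(0, 3), (0, 11)] 0 3 = true := by decide +kernel

theorem l19_30 : leafOk 19 8 f19 t19_30 1 1
  [0, 1, 0, 1, 0]
  [3, 4, 3, 4, 3, 4, 1, 6, 7, 6, 7, 6, 3, 2, 3, 2, 1, 2, 1, 2, 3, 2, 3, 2, 3, 2, 1, 2, 1, 2, 3, 2, 6, 7, 6, 7, 5, 4, 5, 4, 5, 4, 5, 4, 5, 6, 4, 2, 3, 2, 3, 2, 3, 2, 3, 2, 3, 5, 4, 5, 4, 5, 4, 5, 4, 5, 4, 7, 3, 2, 3, 2, 3, 2, 3, 2, 3, 2, 4, 6, 5, 4, 5, 4, 5, 4, 5, 4, 5, 6, 1, 4, 3, 4, 3, 4, 3, 2, 3, 2, 3, 2, 7, 3, 2, 3, 2, 3, 1]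
  [(0, 3), (0, 11)] 0 3 = true := by decide +kernel

theorem l19_31 : leafOk 19 8 f19 t19_31 1 0
  [0]
  [4, 3, 4, 3, 4, 3, 4, 3, 2, 3, 4, 2, 3, 2, 3, 4, 3, 2, 3, 2, 4, 3, 2, 3, 4]
  [(0, 11)] 0 11 = true := by decide +kernel

theorem l19_32 : leafOk 19 8 f19 t19_32 3 3
  [2, 3, 2, 3, 2, 3, 2, 3, 2, 3, 2]
  [4, 3, 4, 3, 5, 4, 5, 4, 3, 4, 5, 6, 5, 7, 6, 7, 6, 5, 4, 3, 4, 5, 4, 3, 4, 3, 4, 5, 4, 7, 6, 4, 5, 4, 3, 4, 3, 4, 5, 4, 5, 4, 5, 4, 5, 4, 7, 6, 7, 6, 5, 6, 5, 4, 5, 4, 5, 6, 5, 4, 5, 4, 5, 6, 5, 4, 5, 6, 7, 5, 4, 5, 4, 5, 6, 7, 6, 5, 4, 7]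
  [(0, 0), (1, 1)] 0 0 = true := by decide +kernel

theorem l19_33 : leafOk 19 8 f19 t19_33 1 0
  [0]
  [1, 2, 1, 3, 2, 3, 2, 1, 2, 3, 1, 2, 3, 2, 3, 2, 3, 2, 3, 1, 2, 3, 1, 2, 1, 2, 3, 2, 3, 2, 1, 2, 3, 2, 3, 1, 2, 1, 2, 1, 2]
  [(0, 12)] 0 12 = true := by decide +kernel

theorem l19_34 : leafOk 19 8 f19 t19_34 1 0
  [0]
  [3, 2, 1, 2, 1, 2, 3, 2, 3, 2, 3, 2, 3, 1, 2, 1, 2, 3, 1, 2, 3, 2, 3, 2, 1, 2, 3, 2, 3, 1, 2, 1, 2, 1, 2]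
  [(0, 12)] 0 12 = true := by decide +kernel

theorem l19_35 : leafOk 19 8 f19 t19_35 3 3
  [2, 3, 2, 3, 2]
  [3, 4, 3, 4, 3, 5, 4, 3, 4, 5, 4, 3, 5, 4, 3, 4, 5, 6, 5, 6, 5, 4, 3, 4, 3, 4, 3, 4, 3, 4, 5, 6, 5, 4, 3, 4, 3, 5, 6, 5, 6, 4, 3, 4, 3, 4, 5, 4, 3, 4, 5, 4, 5, 4, 3, 4, 5, 4, 3, 4, 5, 4, 5, 4, 3, 4, 5, 4, 3, 4, 3, 4, 3, 4, 5, 6, 5, 6, 5, 4, 3, 4, 3, 4, 5, 4, 5, 4, 5, 4, 5, 3, 4, 3, 4, 5, 6, 5, 6, 5, 4, 3, 4, 3, 6, 5, 6, 5, 4, 3, 4, 5, 6, 5, 6, 5, 4, 3, 4, 3, 4, 5, 6, 5, 4, 3, 4, 3, 4, 5, 6, 5, 6, 5, 4, 3, 4]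
  [(0, 0), (1, 1)] 0 0 = true := by decide +kernel

theorem l19_36 : leafOk 19 8 f19 t19_36 1 0
  [0]
  [2, 1, 2, 3, 2, 1, 2, 1, 3, 2, 3, 2, 3, 2, 3, 2, 1, 2, 1, 2, 3, 2, 1, 2, 1, 2, 1, 3, 2, 3, 2, 1, 2, 3, 2, 3, 2, 1, 2, 1, 2]
  [(0, 12)] 0 12 = true := by decide +kernel

theorem l19_37 : leafOk 19 8 f19 t19_37 1 0
  [0]
  [2, 3, 4, 3, 4, 3, 4, 2, 3, 4, 3, 4, 3, 4]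
  [(0, 12)] 0 12 = true := by decide +kernel

theorem l19_38 : leafOk 19 8 f19 t19_38 1 0
  [0]
  [1, 3, 2, 3, 4, 5, 4, 3, 2, 3, 1, 5, 4, 3, 2, 1, 2, 3, 4, 5, 1, 3, 2, 3, 4, 5, 4, 3, 2, 3, 1, 2, 6, 5, 4, 3, 2, 1, 2, 3, 4, 2, 5, 6, 1, 2, 3, 4, 5, 6, 7, 5, 4, 3, 2, 1, 6, 5, 2, 4, 3, 2, 1, 2, 3, 4, 5, 6, 2, 6, 5, 4, 3, 2, 1, 2, 3, 4, 5, 6, 7, 6, 5, 4, 3, 2, 1, 2, 3, 4, 5, 6, 7, 6, 5, 4, 3, 2, 1, 2, 3, 4, 5, 6, 7, 2, 1, 2, 3, 4, 5, 6, 5, 4, 3, 2, 1, 2]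
  [(0, 9)] 0 9 = true := by decide +kernel

theorem l19_39 : leafOk 19 8 f19 t19_39 1 0
  [0]
  [1, 2, 3, 2, 1, 2, 3, 2, 3, 1, 2, 3]
  [(0, 9)] 0 9 = true := by decide +kernel

theorem l19_40 : leafOk 19 8 f19 t19_40 3 2
  [2, 1, 2, 1, 2, 1]
  [5, 6, 5, 4, 5, 6, 5, 4, 5, 6, 5, 4]
  [(0, 1)] 0 1 = true := by decide +kernel

theorem l19_41 : leafOk 19 8 f19 t19_41 3 3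
  [2, 3, 2, 3, 2]
  [3, 4, 3, 4, 5, 4, 3, 4, 5, 4, 3, 5, 4, 5, 3, 4, 5, 4, 5, 3, 4, 5, 3, 4, 6, 5, 4, 3, 6, 5, 4, 5, 3, 4, 6, 3, 4, 3, 4, 5, 4, 3, 4, 3, 4, 3, 5, 4, 5, 3, 4, 6, 5, 4, 3, 4, 5, 7, 6, 5, 4, 3, 4, 5, 7, 6, 4, 3, 4, 5, 7, 6, 5, 4, 3, 4, 7, 6, 5, 4, 3, 4, 5, 7, 6, 5, 4, 3, 4, 5, 7, 6, 4, 3, 4, 5, 7, 5, 4, 3, 5, 4, 5, 4, 3, 4, 5, 6, 5, 4, 3, 4, 5, 4, 5, 4, 7, 4, 7, 6, 5, 4, 3, 4, 5, 3, 4, 3, 4, 5, 4, 3, 4, 3, 4, 5, 4, 3, 4, 5, 6, 4, 3, 4, 5, 6, 5, 4, 3, 5, 4, 5, 4, 3, 4, 5, 6, 5, 3, 4, 3, 4, 3, 4, 5, 4, 3, 4, 3, 4, 3, 4, 5, 3, 4, 7]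
  [(0, 2), (1, 8)] 0 2 = true := by decide +kernel

theorem l19_42 : leafOk 19 8 f19 t19_42 1 0
  [0]
  [3, 5, 4, 3, 2, 3, 4, 3, 5, 3, 4, 5, 4, 5, 3, 4, 5, 4, 5, 4, 2, 3, 4, 5, 4, 3, 6, 5, 4, 5, 6, 5, 4, 5, 6, 4, 5, 4]
  [(0, 9)] 0 9 = true := by decide +kernel

theorem l19_43 : leafOk 19 8 f19 t19_43 1 1
  [0, 1, 0, 1, 0]
  [2, 3, 2, 3, 2, 3, 1, 2, 3, 2, 3, 2, 3, 1, 2, 3, 2, 1, 2, 3, 2, 1, 2, 3, 2, 3, 2, 3, 2, 3, 1, 2, 3, 4, 3, 4, 3, 4, 2, 1, 3, 2, 3, 2, 4, 2, 3, 4, 3, 4, 3, 2, 3]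
  [(0, 3), (0, 5)] 0 3 = true := by decide +kernel

theorem l19_44 : leafOk 19 8 f19 t19_44 1 0
  [0]
  [1, 2, 1, 3, 2, 3, 2, 3, 2, 3, 4, 3, 4, 3, 4, 2, 1, 3, 4, 3, 4, 3, 4, 2, 1]
  [(0, 5)] 0 5 = true := by decide +kernel

theorem l19_45 : leafOk 19 8 f19 t19_45 1 0
  [0]
  [3, 2, 3, 2, 3, 2]
  [(0, 5)] 0 5 = true := by decide +kernel

theorem l19_46 : leafOk 19 8 f19 t19_46 1 2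
  [0, 1, 2, 0, 1, 2, 1, 2, 0, 1, 0, 1, 2, 0, 1, 2, 1, 2, 0, 1, 0]
  [1, 2, 1, 2, 1, 3, 4, 3, 4, 3, 4, 2, 3, 4, 3, 4, 3, 4]
  [(7, 13), (7, 15), (9, 11), (9, 17)] 7 13 = true := by decide +kernel

theorem l19_47 : leafOk 19 8 f19 t19_47 1 0
  [0]
  [6, 5, 4, 3, 2, 1, 2, 3, 4, 2, 1, 2, 3, 4, 5, 6, 3, 2, 1, 2, 6, 7, 5, 6, 5, 6, 7, 5, 6, 5, 3, 4, 2, 3, 4, 3, 4, 3, 2, 3, 4, 5, 4, 3, 4, 3, 4, 5, 3, 4, 3, 4, 3, 4, 3, 4, 5, 4, 3, 4, 3, 4, 3, 6, 5, 7, 6, 5, 6, 3, 4, 3, 4, 7, 3, 4, 5, 6, 3, 2, 1, 3, 2, 3, 2, 1, 2, 3, 1, 3, 2, 3, 2, 3, 1, 3, 4, 3, 4, 3, 4, 2, 1, 2, 3, 4, 3, 2, 3, 4, 2, 3, 4, 2, 3]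
  [(0, 5)] 0 5 = true := by decide +kernel

theorem l19_48 : leafOk 19 8 f19 t19_48 1 0
  [0]
  [2, 3, 4, 3, 4, 3, 4, 2, 3, 4, 3, 4, 3, 4]
  [(0, 5)] 0 5 = true := by decide +kernel

theorem l19_52 : leafOk 19 8 f19 t19_52 1 0
  [0]
  [3, 2, 3, 2, 3, 2]
  [(0, 9)] 0 9 = true := by decide +kernel

theorem l19_53 : leafOk 19 8 f19 t19_53 1 1
  [0, 1, 0, 1, 0]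
  [2, 1, 2, 3, 4, 3, 2, 1, 2, 4, 3, 2, 1, 2, 1, 4, 3, 4, 3, 2, 1, 2, 4, 3, 4, 1, 2, 1, 2, 1, 4, 3, 4, 3, 4, 3, 2, 4, 3, 2, 1, 2, 1, 3, 4, 2, 1, 2, 3, 4, 3, 2, 1, 2, 4, 3, 1, 2, 1, 2, 3, 4]
  [(0, 7), (0, 9)] 0 7 = true := by decide +kernel

theorem l19_54 : leafOk 19 8 f19 t19_54 1 0
  [0]
  [2, 3, 2, 3, 1, 2, 3, 2, 3, 2, 1, 2, 3, 1, 2, 3, 4, 3, 2, 1, 2, 3, 4, 3, 4, 2, 3, 1, 2, 3, 4, 2, 4, 3, 2, 1, 2, 4, 3, 4, 3, 2, 1, 2, 3, 4, 3, 2, 1, 3, 2, 1, 2, 3, 2, 3, 2, 1, 2, 3, 2, 3, 2, 3, 2, 3, 1, 3, 2, 3, 2, 4, 5, 4, 3, 2, 1, 5, 4, 3, 2, 1, 2, 3, 4, 5, 1, 2, 1, 2, 3, 4, 5, 4, 3, 2, 1, 5, 4, 3, 4, 2, 4, 3, 2, 1, 2, 1, 2, 3, 4, 5]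
  [(0, 9)] 0 9 = true := by decide +kernel

theorem l19_55 : leafOk 19 8 f19 t19_55 1 1
  [0, 1, 0, 1, 0]
  [3, 4, 3, 4, 3, 4, 1, 3, 2, 1, 2, 1, 2, 1, 2, 1, 2, 3, 4, 3, 2, 1, 2, 1, 3, 4, 2, 3, 4, 3, 2, 4, 3, 1, 2, 1, 2, 3, 4]
  [(0, 7), (0, 9)] 0 7 = true := by decide +kernel

theorem l19_56 : leafOk 19 8 f19 t19_56 1 0
  [0]
  [3, 2, 1, 2, 3, 2, 3, 2, 1, 2, 3, 1, 2, 3, 4, 3, 2, 1, 2, 3, 4, 3, 4, 2, 3, 1, 2, 3, 4, 2, 7, 6, 7, 6, 4, 3, 2, 1, 2, 1, 3, 4, 2, 1, 2, 3, 4, 3, 2, 1, 2, 4, 3, 1, 2, 1, 2, 3, 5, 4, 7, 5, 4, 5, 6, 7, 6, 4, 5, 6, 7, 6, 5, 4, 2, 4, 3, 4, 3, 4, 3, 2, 1, 2, 3, 4, 5, 4, 3, 5, 4, 3, 4, 2, 6, 5, 6, 5, 4, 3, 2, 1, 2, 1, 2, 3, 4, 5, 6, 5, 6, 5, 4, 3, 2, 1, 2, 1, 2, 3, 4, 5,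 6, 5, 6, 5, 4, 3, 2, 1, 2, 1, 2, 3, 5, 6, 7, 6, 5, 6, 5, 6, 7, 6, 5, 4]
  [(0, 9)] 0 9 = true := by decide +kernel

theorem l19_57 : leafOk 19 8 f19 t19_57 1 0
  [0]
  [2, 3, 4, 3, 4, 3, 4, 2, 3, 4, 3, 4, 3, 4]
  [(0, 9)] 0 9 = true := by decide +kernel

theorem l19_58 : leafOk 19 8 f19 t19_58 3 4
  [2, 3, 4, 3, 2, 3, 2, 3, 2]
  [3, 5, 4, 3, 4, 3, 4, 3, 4, 3, 4, 5, 4, 3, 4, 5, 4, 5, 4, 5, 6, 5, 4, 5, 6, 5, 4, 3, 4, 5, 3, 4, 3, 4, 5, 4, 3, 4, 5, 3, 4, 5, 3, 5, 6, 5, 4, 5, 7, 6, 7, 5, 4, 3, 5, 4, 3, 5, 4, 5, 3, 4, 3, 4, 3, 4, 5, 6, 3, 4, 5, 3, 4, 3, 4, 3, 4, 3, 4, 3, 4, 5, 6, 5, 4, 3, 4, 3, 4, 3, 4, 3, 7, 5, 4, 3, 5, 4, 5, 6, 5, 4, 5, 3, 4, 5, 6, 7, 3, 5, 4, 5, 6, 7, 5, 4, 3, 5, 4, 5, 6, 7,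 6, 5, 4, 7]
  [(0, 1), (0, 2), (1, 0), (1, 4), (2, 0), (2, 3), (3, 2), (3, 6), (4, 1), (4, 5), (5, 4), (5, 8), (6, 3), (6, 7), (7, 6), (7, 8), (8, 5), (8, 7)] 0 1 = true := by decide +kernel

theorem l19_59 : leafOk 19 8 f19 t19_59 1 0
  [0]
  [1, 2, 1, 2, 3, 2, 4, 3, 2, 1, 2, 3, 4, 2, 3, 1, 2, 1, 2, 1, 2, 1, 2, 3, 2, 1, 4, 3, 2, 1, 2, 3, 4, 2, 1, 2, 1, 4, 3, 2, 1, 2, 3, 4, 2, 3, 1, 2, 1, 2, 1]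
  [(0, 12)] 0 12 = true := by decide +kernel

theorem l19_60 : leafOk 19 8 f19 t19_60 1 0
  [0]
  [7, 2, 5, 4, 3, 4, 5, 4, 3, 4, 5, 4, 3, 2, 3, 2, 3, 2, 3, 2, 3, 4]
  [(0, 12)] 0 12 = true := by decide +kernel

theorem l19_61 : leafOk 19 8 f19 t19_61 3 3
  [2, 3, 2, 3, 2, 3, 2, 3, 2]
  [4, 5, 4, 3, 4, 5, 4, 3, 4, 5, 4, 3]
  [(0, 2), (1, 4)] 0 2 = true := by decide +kernel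

theorem l19_62 : leafOk 19 8 f19 t19_62 3 4
  [2, 3, 2, 3, 4, 3, 2, 3, 2]
  [3, 4, 5, 4, 5, 3, 4, 3, 4, 3, 4, 3, 5, 4, 5, 3, 4, 3, 4, 3, 4, 3, 5, 4, 5, 3, 4, 3, 4, 3, 4, 3, 5, 4, 5, 4, 3, 4, 5, 4, 5]
  [(0, 3), (0, 4), (1, 2), (1, 5), (2, 1), (2, 6), (3, 0), (3, 7), (4, 0), (4, 8), (5, 1), (5, 7), (6, 2), (6, 8), (7, 3), (7, 5), (8, 4), (8, 6)] 0 4 = true := by decide +kernel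

theorem l19_63 : leafOk 19 8 f19 t19_63 3 4
  [2, 3, 2, 3, 4, 3, 2, 3, 2]
  [3, 4, 5, 4, 5, 3, 4, 3, 4, 3, 4, 3, 5, 4, 5, 3, 4, 3, 4, 3, 4, 3, 5, 4, 5, 3, 4, 3, 4, 3, 4, 3, 5, 4, 5, 4, 3, 4, 5, 4, 5]
  [(0, 3), (0, 4), (1, 2), (1, 5), (2, 1), (2, 6), (3, 0), (3, 7), (4, 0), (4, 8), (5, 1), (5, 7), (6, 2), (6, 8), (7, 3), (7, 5), (8, 4), (8, 6)] 0 4 = true := by decide +kernel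

theorem l19_64 : leafOk 19 8 f19 t19_64 1 0
  [0]
  [1, 2, 1, 2, 1, 3, 2, 4, 3, 2, 1, 2, 3, 4, 2, 3, 1, 3, 2, 4, 3, 2, 1, 2, 3, 4, 1, 2, 1, 2, 4, 3, 2, 1, 2, 3, 4, 1, 2, 3, 2, 1, 2]
  [(0, 12)] 0 12 = true := by decide +kernel

theorem l19_65 : leafOk 19 8 f19 t19_65 1 0
  [0]
  [2, 3, 4, 3, 4, 3, 4, 3, 4, 3, 4, 3, 4, 3, 4, 2, 3, 4, 3, 4, 3, 4, 3, 4, 3, 4, 3, 4, 3, 4]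
  [(0, 13)] 0 13 = true := by decide +kernel

theorem l19_66 : leafOk 19 8 f19 t19_66 1 0
  [0]
  [1, 6, 2, 5, 6, 3, 4, 3, 4, 5, 4, 5, 6, 3, 4, 5, 3, 2, 3, 2, 3, 4, 5, 4, 3, 4, 3, 2, 1, 2, 1, 2, 3, 4, 3, 4, 5, 4, 3, 2, 1, 2, 3, 6, 1, 6, 2, 3, 5, 4, 3, 6, 5, 4, 5, 4, 3, 4, 3, 6, 5, 2, 6, 1, 3, 2, 1, 3, 4, 5, 4, 3, 4, 3, 1, 2, 1, 2, 3, 4, 3, 4, 5, 4, 3, 2, 3, 2, 1, 2, 5, 6, 3, 4, 3, 4, 5, 4, 5, 6, 3, 4, 5, 3, 2, 1, 2, 3, 2, 3, 4, 5, 4, 3, 4, 3, 2, 1, 2, 1, 3, 4, 3, 4, 5, 4, 3, 1, 2, 3, 2, 1, 2, 3, 4, 5, 6, 5, 3, 4, 5, 6, 7, 5, 6, 5, 4, 5, 3, 4, 3, 2, 1, 2, 6, 7, 3, 2, 1, 2, 3, 4, 3, 5, 6, 5, 4, 5, 4, 3, 6, 5, 4, 3, 2, 1, 2, 4, 5, 4, 5, 3, 2, 1, 2, 4, 3, 4, 3, 5, 4, 3, 4, 5, 4, 3, 4, 3, 4,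 3, 4, 5, 4, 5, 3, 4, 3, 2, 1, 2]
  [(0, 13)] 0 13 = true := by decide +kernel

theorem l19_67 : leafOk 19 8 f19 t19_67 1 0
  [0]
  [1, 2, 3, 2, 3, 2, 1, 2, 3, 2, 3, 2, 4, 3, 2, 3, 1, 2, 3, 2, 1, 2, 3, 4, 1]
  [(0, 13)] 0 13 = true := by decide +kernel

theorem l19_68 : leafOk 19 8 f19 t19_68 1 0
  [0]
  [7, 4, 3, 4, 3, 4, 3, 4, 3, 4, 3, 4, 3, 4, 3, 6, 7, 6, 2, 1, 2, 4, 3, 4, 3, 4, 3, 4, 3, 4, 3, 4, 3, 4, 3, 2, 3, 4, 3, 4, 3, 4, 3, 4, 3, 4, 3, 4, 3, 4, 1, 2, 4, 5, 4, 3, 4, 3, 2, 1, 2, 4, 3, 4, 3, 4, 5, 3, 5, 4, 5, 6, 7, 6, 5, 4, 5, 3, 5, 4, 3, 4, 3, 4, 2, 1, 2, 3, 4, 3, 4, 5, 4]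
  [(0, 13)] 0 13 = true := by decide +kernel

theorem l19_69 : leafOk 19 8 f19 t19_69 3 2
  [2, 1, 2, 1, 2, 1]
  [4, 3, 4, 5, 4, 3, 4, 3, 4, 5, 4, 3, 4, 3, 4, 5, 4, 3, 6, 5, 4, 6, 5, 4, 6, 5, 4, 5, 6, 4, 5, 4, 6, 5, 6, 5, 4, 5, 4, 5, 4]
  [(0, 4)] 0 4 = true := by decide +kernel

theorem l19_70 : leafOk 19 8 f19 t19_70 3 4
  [2, 3, 4, 3, 2, 3, 4, 3, 2]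
  [3, 4, 5, 4, 5, 3, 5, 4, 5, 3, 4, 3, 4, 3, 5, 4, 3, 4, 3, 4, 5, 4, 3, 5, 4, 5, 3, 4, 5, 4, 5, 6, 3, 5, 4, 5, 6, 5, 4, 3, 4, 5, 3, 4, 3, 4, 3, 4, 3, 4, 3, 4, 3, 4, 3, 4, 3, 4, 6, 4, 5, 4, 5, 6, 5, 4, 5, 4, 6, 4, 5, 3, 4, 5, 3, 5, 4, 5, 3, 4, 3, 4, 3, 5, 4, 3, 4, 5, 3, 4, 3, 4, 3]
  [(0, 1), (0, 2), (1, 0), (1, 4), (2, 0), (2, 3), (3, 2), (3, 6), (4, 1), (4, 5), (5, 4), (5, 6), (6, 3), (6, 5)] 0 1 = true := by decide +kernel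

theorem l19_71 : leafOk 19 8 f19 t19_71 1 0
  [0]
  [2, 1, 3, 4, 3, 2, 3, 4, 3, 2, 1, 2, 3, 4, 3, 2, 3, 4, 3, 1, 3, 2, 3, 4, 3, 2, 1, 2, 3, 4, 3, 2, 3, 4, 3, 1, 2, 3, 4]
  [(0, 9)] 0 9 = true := by decide +kernel

theorem l19_72 : leafOk 19 8 f19 t19_72 1 0
  [0]
  [4, 5, 4, 3, 4, 3, 4, 3, 2, 3, 4, 3, 4, 3, 4, 5, 4, 7, 3, 2, 3, 4, 3, 4, 3, 4, 5, 4, 3, 4, 3, 4, 3, 2, 3, 7, 3, 4, 5, 4, 3, 4, 3, 4, 3, 2, 3, 4, 3, 5, 3, 2, 4, 3, 4, 3, 4, 3, 2, 3, 4, 3, 2, 4, 3, 4, 2, 3, 5, 4]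
  [(0, 9)] 0 9 = true := by decide +kernel

theorem l19_73 : leafOk 19 8 f19 t19_73 1 0
  [0]
  [2, 1, 3, 2, 1, 2, 3, 2, 3, 2, 3, 2, 1, 2, 3, 2, 1, 2, 3, 2, 3, 2, 3, 2, 1, 3, 2, 3, 2, 3, 2, 1, 2, 3, 1, 2, 3, 2, 1, 3, 2, 3, 1, 2, 3, 2, 3, 1, 2, 3, 1, 2, 1, 2]
  [(0, 12)] 0 12 = true := by decide +kernel

theorem l19_74 : leafOk 19 8 f19 t19_74 1 0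
  [0]
  [2, 3, 2, 3, 2, 3, 2, 3, 2, 3, 2, 3, 2, 3, 2, 3, 2, 3, 2, 3]
  [(0, 12)] 0 12 = true := by decide +kernel

theorem l19_75 : leafOk 19 8 f19 t19_75 1 0
  [0]
  [2, 3, 2, 3, 2, 3, 2, 3, 2, 3, 2, 3, 2, 3, 2, 3, 2, 3, 2, 3]
  [(0, 12)] 0 12 = true := by decide +kernel

theorem l19_76 : leafOk 19 8 f19 t19_76 3 4
  [2, 3, 2, 3, 4, 3, 2, 3, 2]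
  [5, 4, 5, 3, 4, 5, 4, 3, 4, 5, 4, 3, 4]
  [(0, 1), (0, 2), (1, 0), (1, 4), (2, 0), (2, 3), (3, 2), (3, 4), (4, 1), (4, 3)] 0 2 = true := by decide +kernel

theorem l19_77 : leafOk 19 8 f19 t19_77 3 4
  [2, 3, 2, 3, 4, 3, 2, 3, 2]
  [5, 4, 5, 3, 4, 5, 4, 3, 4, 5, 4, 3, 4]
  [(0, 1), (0, 2), (1, 0), (1, 4), (2, 0), (2, 3), (3, 2), (3, 4), (4, 1), (4, 3)] 0 2 = true := by decide +kernel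

theorem l19_78 : leafOk 19 8 f19 t19_78 3 4
  [2, 3, 2, 3, 4, 3, 2, 3, 2]
  [5, 4, 5, 3, 4, 5, 4, 3, 4, 5, 4, 3, 4]
  [(0, 1), (0, 2), (1, 0), (1, 4), (2, 0), (2, 3), (3, 2), (3, 4), (4, 1), (4, 3)] 0 2 = true := by decide +kernel

theorem l19_79 : leafOk 19 8 f19 t19_79 1 2
  [0, 1, 2, 1, 0, 1, 2, 1, 0]
  [2, 3, 2, 3, 2, 1, 2, 3, 2, 3, 2, 1, 2, 1, 2, 3, 2, 1, 2, 1, 2, 3, 2, 3, 1, 2, 1, 2, 3, 1, 2, 3, 2, 1, 2, 3, 2, 3, 1, 3, 2, 1, 2, 3, 1, 2, 3, 2, 3, 1, 2, 3, 1, 2]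
  [(4, 17), (6, 12), (8, 10), (10, 8), (12, 6), (17, 4)] 4 17 = true := by decide +kernel

end D145.Sm
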