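import Pool.Agent.MP_d145c0_al.H75.SmGo
import Pool.Agent.MP_d145c0_al.H75.SmBridge
import Pool.Agent.MP_d145c0_al.H75.SmL19
import Pool.Agent.MP_d145c0_al.H75.SmD19a
import Pool.Agent.MP_d145c0_al.H75.SmD19b
import Pool.Agent.MP_d145c0_al.H75.SmD19c
import Pool.Agent.MP_d145c0_al.H75.SmD19d
import Pool.Agent.MP_d145c0_al.H75.SmD19e
import Pool.Agent.MP_d145c0_al.H75.SmD19f
import Pool.Agent.MP_d145c0_al.H75.SmD19g
import Pool.Agent.MP_d145c0_al.H75.SmD19h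

/-! The upper bound for `n = 19`. -/

namespace D145
open Sm

theorem Sm.tb19_ok : TBok (2 * 4) tb19 := by decide +kernel

theorem Sm.f19_ok : Fok (2 * 4) f19 := by decide +kernel

namespace SD0
variable {Ω : Type} [Fintype Ω] [DecidableEq Ω] (S : SD0 Ω 4)

/-- one of the surviving tables is realised -/
def Goal19 : Prop := ∃ T ∈ [t19_49, t19_50, t19_51], S.Real (4 * 4 + 3) T

theorem go19 {K : List (ℕ × ℕ)} {fuel nd T z : ℕ} {s : List ℕ} {k : List ℕ → Bool}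
    (h : go 19 8 tb19 f19 K fuel nd T z s k = true)
    (hK : ∀ p ∈ K, S.Real p.1 p.2 → S.Goal19) (hR : S.Real nd T) : S.Goal19 := by
  obtain ⟨p, hp, h'⟩ := S.go_sound tb19_ok f19_ok h hR
  exact hK p hp h'

theorem bad19 {T k l a b : ℕ} {u w : List ℕ} {O : List (ℕ × ℕ)}
    (h : leafOk 19 8 f19 T k l u w O a b = true) (hR : S.Real 19 T) : S.Goal19 := by
  obtain ⟨L, hL⟩ := hR
  exact (Inv.leaf f19_ok hL h).elim

theorem good19_49 (hR : S.Real 19 t19_49) : S.Goal19 := ⟨_, by simp, hR⟩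

theorem good19_50 (hR : S.Real 19 t19_50) : S.Goal19 := ⟨_, by simp, hR⟩

theorem good19_51 (hR : S.Real 19 t19_51) : S.Goal19 := ⟨_, by simp, hR⟩

theorem h19_0 : S.Real 8 u19_0 → S.Goal19 := S.go19 c19_0
    (List.forall_mem_nil _)

theorem h19_1 : S.Real 4 u19_1 → S.Goal19 := S.go19 c19_1
    (List.forall_mem_nil _)

theorem h19_2 : S.Real 4 u19_2 → S.Goal19 := S.go19 c19_2
    (List.forall_mem_nil _)

theorem h19_3 : S.Real 4 u19_3 → S.Goal19 := S.go19 c19_3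
    (List.forall_mem_cons.2 ⟨S.h19_0,
    List.forall_mem_cons.2 ⟨S.h19_1,
    List.forall_mem_cons.2 ⟨S.h19_2,
    List.forall_mem_nil _⟩⟩⟩)

theorem h19_4 : S.Real 8 u19_4 → S.Goal19 := S.go19 c19_4
    (List.forall_mem_nil _)

theorem h19_5 : S.Real 4 u19_5 → S.Goal19 := S.go19 c19_5
    (List.forall_mem_cons.2 ⟨S.h19_4,
    List.forall_mem_nil _⟩)

theorem h19_6 : S.Real 4 u19_6 → S.Goal19 := S.go19 c19_6
    (List.forall_mem_nil _)

theorem h19_7 : S.Real 6 u19_7 → S.Goal19 := S.go19 c19_7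
    (List.forall_mem_nil _)

theorem h19_8 : S.Real 6 u19_8 → S.Goal19 := S.go19 c19_8
    (List.forall_mem_nil _)

theorem h19_9 : S.Real 12 u19_9 → S.Goal19 := S.go19 c19_9
    (List.forall_mem_nil _)

theorem h19_10 : S.Real 10 u19_10 → S.Goal19 := S.go19 c19_10
    (List.forall_mem_cons.2 ⟨S.h19_9,
    List.forall_mem_nil _⟩)

theorem h19_11 : S.Real 6 u19_11 → S.Goal19 := S.go19 c19_11
    (List.forall_mem_cons.2 ⟨S.h19_10,
    List.forall_mem_nil _⟩)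

theorem h19_12 : S.Real 15 u19_12 → S.Goal19 := S.go19 c19_12
    (List.forall_mem_nil _)

theorem h19_13 : S.Real 12 u19_13 → S.Goal19 := S.go19 c19_13
    (List.forall_mem_nil _)

theorem h19_14 : S.Real 12 u19_14 → S.Goal19 := S.go19 c19_14
    (List.forall_mem_nil _)

theorem h19_15 : S.Real 12 u19_15 → S.Goal19 := S.go19 c19_15
    (List.forall_mem_cons.2 ⟨S.h19_12,
    List.forall_mem_cons.2 ⟨S.h19_13,
    List.forall_mem_cons.2 ⟨S.h19_14,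
    List.forall_mem_nil _⟩⟩⟩)

theorem h19_16 : S.Real 12 u19_16 → S.Goal19 := S.go19 c19_16
    (List.forall_mem_nil _)

theorem h19_17 : S.Real 8 u19_17 → S.Goal19 := S.go19 c19_17
    (List.forall_mem_cons.2 ⟨S.h19_16,
    List.forall_mem_nil _⟩)

theorem h19_18 : S.Real 12 u19_18 → S.Goal19 := S.go19 c19_18
    (List.forall_mem_nil _)

theorem h19_19 : S.Real 11 u19_19 → S.Goal19 := S.go19 c19_19
    (List.forall_mem_cons.2 ⟨S.h19_18,
    List.forall_mem_nil _⟩)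

theorem h19_20 : S.Real 10 u19_20 → S.Goal19 := S.go19 c19_20
    (List.forall_mem_cons.2 ⟨S.h19_19,
    List.forall_mem_nil _⟩)

theorem h19_21 : S.Real 11 u19_21 → S.Goal19 := S.go19 c19_21
    (List.forall_mem_nil _)

theorem h19_22 : S.Real 8 u19_22 → S.Goal19 := S.go19 c19_22
    (List.forall_mem_cons.2 ⟨S.h19_21,
    List.forall_mem_nil _⟩)

theorem h19_23 : S.Real 11 u19_23 → S.Goal19 := S.go19 c19_23
    (List.forall_mem_nil _)

theorem h19_24 : S.Real 9 u19_24 → S.Goal19 := S.go19 c19_24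
    (List.forall_mem_cons.2 ⟨S.h19_23,
    List.forall_mem_nil _⟩)

theorem h19_25 : S.Real 8 u19_25 → S.Goal19 := S.go19 c19_25
    (List.forall_mem_cons.2 ⟨S.h19_20,
    List.forall_mem_cons.2 ⟨S.h19_22,
    List.forall_mem_cons.2 ⟨S.h19_24,
    List.forall_mem_nil _⟩⟩⟩)

theorem h19_26 : S.Real 10 u19_26 → S.Goal19 := S.go19 c19_26
    (List.forall_mem_nil _)

theorem h19_27 : S.Real 8 u19_27 → S.Goal19 := S.go19 c19_27
    (List.forall_mem_nil _)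

theorem h19_28 : S.Real 12 u19_28 → S.Goal19 := S.go19 c19_28
    (List.forall_mem_nil _)

theorem h19_29 : S.Real 8 u19_29 → S.Goal19 := S.go19 c19_29
    (List.forall_mem_cons.2 ⟨S.h19_28,
    List.forall_mem_nil _⟩)

theorem h19_30 : S.Real 8 u19_30 → S.Goal19 := S.go19 c19_30
    (List.forall_mem_nil _)

theorem h19_31 : S.Real 6 u19_31 → S.Goal19 := S.go19 c19_31
    (List.forall_mem_cons.2 ⟨S.h19_15,
    List.forall_mem_cons.2 ⟨S.h19_17,
    List.forall_mem_cons.2 ⟨S.h19_25,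
    List.forall_mem_cons.2 ⟨S.h19_26,
    List.forall_mem_cons.2 ⟨S.h19_27,
    List.forall_mem_cons.2 ⟨S.h19_29,
    List.forall_mem_cons.2 ⟨S.h19_30,
    List.forall_mem_nil _⟩⟩⟩⟩⟩⟩⟩)

theorem h19_32 : S.Real 11 u19_32 → S.Goal19 := S.go19 c19_32
    (List.forall_mem_nil _)

theorem h19_33 : S.Real 8 u19_33 → S.Goal19 := S.go19 c19_33
    (List.forall_mem_cons.2 ⟨S.h19_32,
    List.forall_mem_nil _⟩)

theorem h19_34 : S.Real 8 u19_34 → S.Goal19 := S.go19 c19_34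
    (List.forall_mem_cons.2 ⟨S.h19_33,
    List.forall_mem_nil _⟩)

theorem h19_35 : S.Real 12 u19_35 → S.Goal19 := S.go19 c19_35
    (List.forall_mem_nil _)

theorem h19_36 : S.Real 11 u19_36 → S.Goal19 := S.go19 c19_36
    (List.forall_mem_nil _)

theorem h19_37 : S.Real 8 u19_37 → S.Goal19 := S.go19 c19_37
    (List.forall_mem_cons.2 ⟨S.h19_36,
    List.forall_mem_nil _⟩)

theorem h19_38 : S.Real 6 u19_38 → S.Goal19 := S.go19 c19_38
    (List.forall_mem_cons.2 ⟨S.h19_35,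
    List.forall_mem_cons.2 ⟨S.h19_37,
    List.forall_mem_nil _⟩⟩)

theorem h19_39 : S.Real 4 u19_39 → S.Goal19 := S.go19 c19_39
    (List.forall_mem_cons.2 ⟨S.h19_38,
    List.forall_mem_nil _⟩)

theorem h19_40 : S.Real 12 u19_40 → S.Goal19 := S.go19 c19_40
    (List.forall_mem_nil _)

theorem h19_41 : S.Real 10 u19_41 → S.Goal19 := S.go19 c19_41
    (List.forall_mem_nil _)

theorem h19_42 : S.Real 10 u19_42 → S.Goal19 := S.go19 c19_42
    (List.forall_mem_cons.2 ⟨S.h19_40,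
    List.forall_mem_cons.2 ⟨S.h19_41,
    List.forall_mem_nil _⟩⟩)

theorem h19_43 : S.Real 9 u19_43 → S.Goal19 := S.go19 c19_43
    (List.forall_mem_nil _)

theorem h19_44 : S.Real 12 u19_44 → S.Goal19 := S.go19 c19_44
    (List.forall_mem_nil _)

theorem h19_45 : S.Real 10 u19_45 → S.Goal19 := S.go19 c19_45
    (List.forall_mem_nil _)

theorem h19_46 : S.Real 9 u19_46 → S.Goal19 := S.go19 c19_46
    (List.forall_mem_cons.2 ⟨S.h19_44,
    List.forall_mem_cons.2 ⟨S.h19_45,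
    List.forall_mem_cons.2 ⟨S.bad19 l19_0,
    List.forall_mem_cons.2 ⟨S.bad19 l19_1,
    List.forall_mem_nil _⟩⟩⟩⟩)

theorem h19_47 : S.Real 10 u19_47 → S.Goal19 := S.go19 c19_47
    (List.forall_mem_nil _)

theorem h19_48 : S.Real 7 u19_48 → S.Goal19 := S.go19 c19_48
    (List.forall_mem_cons.2 ⟨S.h19_46,
    List.forall_mem_cons.2 ⟨S.h19_47,
    List.forall_mem_cons.2 ⟨S.bad19 l19_2,
    List.forall_mem_cons.2 ⟨S.bad19 l19_3,
    List.forall_mem_nil _⟩⟩⟩⟩)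

theorem h19_49 : S.Real 10 u19_49 → S.Goal19 := S.go19 c19_49
    (List.forall_mem_nil _)

theorem h19_50 : S.Real 6 u19_50 → S.Goal19 := S.go19 c19_50
    (List.forall_mem_cons.2 ⟨S.h19_42,
    List.forall_mem_cons.2 ⟨S.h19_43,
    List.forall_mem_cons.2 ⟨S.h19_48,
    List.forall_mem_cons.2 ⟨S.h19_49,
    List.forall_mem_nil _⟩⟩⟩⟩)

theorem h19_51 : S.Real 9 u19_51 → S.Goal19 := S.go19 c19_51
    (List.forall_mem_nil _)

theorem h19_52 : S.Real 9 u19_52 → S.Goal19 := S.go19 c19_52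
    (List.forall_mem_nil _)

theorem h19_53 : S.Real 2 u19_53 → S.Goal19 := S.go19 c19_53
    (List.forall_mem_cons.2 ⟨S.h19_50,
    List.forall_mem_cons.2 ⟨S.h19_51,
    List.forall_mem_cons.2 ⟨S.h19_52,
    List.forall_mem_nil _⟩⟩⟩)

theorem h19_54 : S.Real 15 u19_54 → S.Goal19 := S.go19 c19_54
    (List.forall_mem_nil _)

theorem h19_55 : S.Real 14 u19_55 → S.Goal19 := S.go19 c19_55
    (List.forall_mem_cons.2 ⟨S.h19_54,
    List.forall_mem_nil _⟩)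

theorem h19_56 : S.Real 13 u19_56 → S.Goal19 := S.go19 c19_56
    (List.forall_mem_nil _)

theorem h19_57 : S.Real 13 u19_57 → S.Goal19 := S.go19 c19_57
    (List.forall_mem_nil _)

theorem h19_58 : S.Real 12 u19_58 → S.Goal19 := S.go19 c19_58
    (List.forall_mem_cons.2 ⟨S.h19_57,
    List.forall_mem_nil _⟩)

theorem h19_59 : S.Real 11 u19_59 → S.Goal19 := S.go19 c19_59
    (List.forall_mem_cons.2 ⟨S.bad19 l19_4,
    List.forall_mem_cons.2 ⟨S.bad19 l19_5,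
    List.forall_mem_cons.2 ⟨S.bad19 l19_6,
    List.forall_mem_cons.2 ⟨S.bad19 l19_7,
    List.forall_mem_cons.2 ⟨S.bad19 l19_8,
    List.forall_mem_cons.2 ⟨S.bad19 l19_9,
    List.forall_mem_cons.2 ⟨S.bad19 l19_10,
    List.forall_mem_cons.2 ⟨S.bad19 l19_11,
    List.forall_mem_cons.2 ⟨S.bad19 l19_12,
    List.forall_mem_cons.2 ⟨S.bad19 l19_13,
    List.forall_mem_nil _⟩⟩⟩⟩⟩⟩⟩⟩⟩⟩)

theorem h19_60 : S.Real 10 u19_60 → S.Goal19 := S.go19 c19_60
    (List.forall_mem_nil _)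

theorem h19_61 : S.Real 11 u19_61 → S.Goal19 := S.go19 c19_61
    (List.forall_mem_cons.2 ⟨S.bad19 l19_27,
    List.forall_mem_cons.2 ⟨S.bad19 l19_28,
    List.forall_mem_cons.2 ⟨S.bad19 l19_29,
    List.forall_mem_cons.2 ⟨S.bad19 l19_30,
    List.forall_mem_cons.2 ⟨S.bad19 l19_31,
    List.forall_mem_nil _⟩⟩⟩⟩⟩)

theorem h19_62 : S.Real 11 u19_62 → S.Goal19 := S.go19 c19_62
    (List.forall_mem_nil _)

theorem h19_63 : S.Real 9 u19_63 → S.Goal19 := S.go19 c19_63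
    (List.forall_mem_cons.2 ⟨S.h19_62,
    List.forall_mem_nil _⟩)

theorem h19_64 : S.Real 9 u19_64 → S.Goal19 := S.go19 c19_64
    (List.forall_mem_cons.2 ⟨S.h19_55,
    List.forall_mem_cons.2 ⟨S.h19_56,
    List.forall_mem_cons.2 ⟨S.h19_58,
    List.forall_mem_cons.2 ⟨S.h19_59,
    List.forall_mem_cons.2 ⟨S.h19_60,
    List.forall_mem_cons.2 ⟨S.bad19 l19_14,
    List.forall_mem_cons.2 ⟨S.bad19 l19_15,
    List.forall_mem_cons.2 ⟨S.bad19 l19_16,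
    List.forall_mem_cons.2 ⟨S.bad19 l19_17,
    List.forall_mem_cons.2 ⟨S.bad19 l19_18,
    List.forall_mem_cons.2 ⟨S.bad19 l19_19,
    List.forall_mem_cons.2 ⟨S.bad19 l19_20,
    List.forall_mem_cons.2 ⟨S.bad19 l19_21,
    List.forall_mem_cons.2 ⟨S.bad19 l19_22,
    List.forall_mem_cons.2 ⟨S.bad19 l19_23,
    List.forall_mem_cons.2 ⟨S.bad19 l19_24,
    List.forall_mem_cons.2 ⟨S.bad19 l19_25,
    List.forall_mem_cons.2 ⟨S.bad19 l19_26,
    List.forall_mem_cons.2 ⟨S.h19_61,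
    List.forall_mem_cons.2 ⟨S.h19_63,
    List.forall_mem_nil _⟩⟩⟩⟩⟩⟩⟩⟩⟩⟩⟩⟩⟩⟩⟩⟩⟩⟩⟩⟩)

theorem h19_65 : S.Real 13 u19_65 → S.Goal19 := S.go19 c19_65
    (List.forall_mem_nil _)

theorem h19_66 : S.Real 11 u19_66 → S.Goal19 := S.go19 c19_66
    (List.forall_mem_cons.2 ⟨S.h19_65,
    List.forall_mem_cons.2 ⟨S.bad19 l19_32,
    List.forall_mem_cons.2 ⟨S.bad19 l19_33,
    List.forall_mem_cons.2 ⟨S.bad19 l19_34,
    List.forall_mem_cons.2 ⟨S.bad19 l19_35,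
    List.forall_mem_cons.2 ⟨S.bad19 l19_36,
    List.forall_mem_cons.2 ⟨S.bad19 l19_37,
    List.forall_mem_nil _⟩⟩⟩⟩⟩⟩⟩)

theorem h19_67 : S.Real 13 u19_67 → S.Goal19 := S.go19 c19_67
    (List.forall_mem_nil _)

theorem h19_68 : S.Real 9 u19_68 → S.Goal19 := S.go19 c19_68
    (List.forall_mem_cons.2 ⟨S.h19_67,
    List.forall_mem_nil _⟩)

theorem h19_69 : S.Real 9 u19_69 → S.Goal19 := S.go19 c19_69
    (List.forall_mem_nil _)

theorem h19_70 : S.Real 7 u19_70 → S.Goal19 := S.go19 c19_70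
    (List.forall_mem_cons.2 ⟨S.h19_66,
    List.forall_mem_cons.2 ⟨S.h19_68,
    List.forall_mem_cons.2 ⟨S.h19_69,
    List.forall_mem_nil _⟩⟩⟩)

theorem h19_71 : S.Real 9 u19_71 → S.Goal19 := S.go19 c19_71
    (List.forall_mem_nil _)

theorem h19_72 : S.Real 11 u19_72 → S.Goal19 := S.go19 c19_72
    (List.forall_mem_nil _)

theorem h19_73 : S.Real 9 u19_73 → S.Goal19 := S.go19 c19_73
    (List.forall_mem_cons.2 ⟨S.h19_72,
    List.forall_mem_nil _⟩)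

theorem h19_74 : S.Real 9 u19_74 → S.Goal19 := S.go19 c19_74
    (List.forall_mem_cons.2 ⟨S.bad19 l19_38,
    List.forall_mem_cons.2 ⟨S.bad19 l19_39,
    List.forall_mem_cons.2 ⟨S.bad19 l19_40,
    List.forall_mem_cons.2 ⟨S.bad19 l19_41,
    List.forall_mem_cons.2 ⟨S.bad19 l19_42,
    List.forall_mem_cons.2 ⟨S.h19_73,
    List.forall_mem_nil _⟩⟩⟩⟩⟩⟩)

theorem h19_75 : S.Real 7 u19_75 → S.Goal19 := S.go19 c19_75
    (List.forall_mem_cons.2 ⟨S.bad19 l19_43,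
    List.forall_mem_cons.2 ⟨S.bad19 l19_44,
    List.forall_mem_cons.2 ⟨S.bad19 l19_45,
    List.forall_mem_cons.2 ⟨S.bad19 l19_46,
    List.forall_mem_cons.2 ⟨S.bad19 l19_47,
    List.forall_mem_cons.2 ⟨S.bad19 l19_48,
    List.forall_mem_cons.2 ⟨S.good19_49,
    List.forall_mem_cons.2 ⟨S.good19_50,
    List.forall_mem_cons.2 ⟨S.good19_51,
    List.forall_mem_cons.2 ⟨S.bad19 l19_52,
    List.forall_mem_cons.2 ⟨S.bad19 l19_53,
    List.forall_mem_cons.2 ⟨S.bad19 l19_54,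
    List.forall_mem_cons.2 ⟨S.bad19 l19_55,
    List.forall_mem_cons.2 ⟨S.bad19 l19_56,
    List.forall_mem_cons.2 ⟨S.bad19 l19_57,
    List.forall_mem_nil _⟩⟩⟩⟩⟩⟩⟩⟩⟩⟩⟩⟩⟩⟩⟩)

theorem h19_76 : S.Real 5 u19_76 → S.Goal19 := S.go19 c19_76
    (List.forall_mem_cons.2 ⟨S.h19_64,
    List.forall_mem_cons.2 ⟨S.h19_70,
    List.forall_mem_cons.2 ⟨S.h19_71,
    List.forall_mem_cons.2 ⟨S.h19_74,
    List.forall_mem_cons.2 ⟨S.h19_75,
    List.forall_mem_nil _⟩⟩⟩⟩⟩)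

theorem h19_77 : S.Real 13 u19_77 → S.Goal19 := S.go19 c19_77
    (List.forall_mem_nil _)

theorem h19_78 : S.Real 11 u19_78 → S.Goal19 := S.go19 c19_78
    (List.forall_mem_nil _)

theorem h19_79 : S.Real 10 u19_79 → S.Goal19 := S.go19 c19_79
    (List.forall_mem_cons.2 ⟨S.h19_77,
    List.forall_mem_cons.2 ⟨S.h19_78,
    List.forall_mem_nil _⟩⟩)

theorem h19_80 : S.Real 11 u19_80 → S.Goal19 := S.go19 c19_80
    (List.forall_mem_cons.2 ⟨S.bad19 l19_58,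
    List.forall_mem_cons.2 ⟨S.bad19 l19_59,
    List.forall_mem_cons.2 ⟨S.bad19 l19_60,
    List.forall_mem_cons.2 ⟨S.bad19 l19_61,
    List.forall_mem_cons.2 ⟨S.bad19 l19_62,
    List.forall_mem_cons.2 ⟨S.bad19 l19_63,
    List.forall_mem_cons.2 ⟨S.bad19 l19_64,
    List.forall_mem_nil _⟩⟩⟩⟩⟩⟩⟩)

theorem h19_81 : S.Real 8 u19_81 → S.Goal19 := S.go19 c19_81
    (List.forall_mem_cons.2 ⟨S.h19_79,
    List.forall_mem_cons.2 ⟨S.h19_80,
    List.forall_mem_nil _⟩⟩)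

theorem h19_82 : S.Real 7 u19_82 → S.Goal19 := S.go19 c19_82
    (List.forall_mem_cons.2 ⟨S.bad19 l19_65,
    List.forall_mem_cons.2 ⟨S.bad19 l19_66,
    List.forall_mem_cons.2 ⟨S.bad19 l19_67,
    List.forall_mem_cons.2 ⟨S.bad19 l19_68,
    List.forall_mem_cons.2 ⟨S.bad19 l19_69,
    List.forall_mem_cons.2 ⟨S.bad19 l19_70,
    List.forall_mem_cons.2 ⟨S.bad19 l19_71,
    List.forall_mem_cons.2 ⟨S.bad19 l19_72,
    List.forall_mem_nil _⟩⟩⟩⟩⟩⟩⟩⟩)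

theorem h19_83 : S.Real 11 u19_83 → S.Goal19 := S.go19 c19_83
    (List.forall_mem_cons.2 ⟨S.bad19 l19_73,
    List.forall_mem_cons.2 ⟨S.bad19 l19_74,
    List.forall_mem_cons.2 ⟨S.bad19 l19_75,
    List.forall_mem_nil _⟩⟩⟩)

theorem h19_84 : S.Real 7 u19_84 → S.Goal19 := S.go19 c19_84
    (List.forall_mem_cons.2 ⟨S.h19_83,
    List.forall_mem_cons.2 ⟨S.bad19 l19_76,
    List.forall_mem_cons.2 ⟨S.bad19 l19_77,
    List.forall_mem_cons.2 ⟨S.bad19 l19_78,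
    List.forall_mem_cons.2 ⟨S.bad19 l19_79,
    List.forall_mem_nil _⟩⟩⟩⟩⟩)

theorem h19_85 : S.Real 4 u19_85 → S.Goal19 := S.go19 c19_85
    (List.forall_mem_cons.2 ⟨S.h19_81,
    List.forall_mem_cons.2 ⟨S.h19_82,
    List.forall_mem_cons.2 ⟨S.h19_84,
    List.forall_mem_nil _⟩⟩⟩)

theorem h19_86 : S.Real 1 u19_86 → S.Goal19 := S.go19 c19_86
    (List.forall_mem_cons.2 ⟨S.h19_31,
    List.forall_mem_cons.2 ⟨S.h19_34,
    List.forall_mem_cons.2 ⟨S.h19_39,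
    List.forall_mem_cons.2 ⟨S.h19_53,
    List.forall_mem_cons.2 ⟨S.h19_76,
    List.forall_mem_cons.2 ⟨S.h19_85,
    List.forall_mem_nil _⟩⟩⟩⟩⟩⟩)

theorem h19_87 : S.Real 1 u19_87 → S.Goal19 := S.go19 c19_87
    (List.forall_mem_cons.2 ⟨S.h19_3,
    List.forall_mem_cons.2 ⟨S.h19_5,
    List.forall_mem_cons.2 ⟨S.h19_6,
    List.forall_mem_cons.2 ⟨S.h19_7,
    List.forall_mem_cons.2 ⟨S.h19_8,
    List.forall_mem_cons.2 ⟨S.h19_11,
    List.forall_mem_cons.2 ⟨S.h19_86,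
    List.forall_mem_nil _⟩⟩⟩⟩⟩⟩⟩)

theorem goal19 : S.Goal19 := S.h19_87 (by
  have e : u19_87 = 2 ^ (10 * 4) := by decide +kernel
  rw [e]; exact S.real_start)

end SD0

theorem upper19 : N (4 * 4 + 3) (2 * 4) ≤ ((3 : ℕ) : ℕ∞) :=
  upper_of_good (by norm_num) (by norm_num) f19_ok [t19_49, t19_50, t19_51] (by decide +kernel)
    (fun S => S.goal19)

end D145
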