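import Pool.Agent.MP_d145c0_al.H75.Bridge
import Pool.Agent.MP_d145c0_al.H75.SmFin15
import Pool.Agent.MP_d145c0_al.H75.SmFin19

/-! The upper bound for all `m ≥ 3`. -/

namespace D145

theorem upper_all {m : ℕ} (hm : 3 ≤ m) :
    N (4 * m + 3) (2 * m) ≤ (((4 * m + 3 + 9) / 8 : ℕ) : ℕ∞) := by
  obtain rfl | rfl | h : m = 3 ∨ m = 4 ∨ 5 ≤ m := by omega
  · exact upper15
  · exact upper19
  · exact upper h

end D145
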