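import Pool.Agent.MP_d145c0_al.H75.Basic

/-! A level `c` with a single point `x`: the edge `x - ρ c x` is a bridge. -/

namespace D145
open Equiv Finset
namespace SD
variable {Ω : Type} [Fintype Ω] [DecidableEq Ω] {m : ℕ} (S : SD Ω m)

/-- `x` is the only point of level `c`, `1 ≤ c ≤ m - 1` -/
def AlX (c : ℕ) (x : Ω) : Prop := 1 ≤ c ∧ c + 1 ≤ m ∧ S.lo x = c ∧ ∀ z, S.lo z = c → z = x

/-- the invariant carried from one single level to the next -/
def Inv (c : ℕ) : Prop :=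
  2 * c + 1 ≤ (S.A c).card ∧ (c + 1 ≤ S.H c → 2 * c + 2 ≤ (S.A c).card) ∧
    (c + 2 ≤ S.H c → c + S.H c + 3 ≤ (S.A c).card)

theorem alX_of_al {c : ℕ} (h : S.Al c) : ∃ x, S.AlX c x := by
  obtain ⟨h1, h2, h3⟩ := h
  obtain ⟨x, hx⟩ := Finset.card_eq_one.1 h3
  refine ⟨x, h1, h2, ?_, ?_⟩
  · have : x ∈ S.lev c := by rw [hx]; simp
    simpa using this
  · intro z hz
    have : z ∈ S.lev c := by simpa using hz
    rw [hx] at this; simpa using this

theorem hi_le_H {c : ℕ} {z : Ω} (h : S.lo z < c) : S.hi z ≤ S.H c :=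
  Finset.le_sup (f := S.hi) (by simpa using h)

theorem exists_H {c : ℕ} (h : 1 ≤ c) : ∃ z, S.lo z < c ∧ S.hi z = S.H c := by
  obtain ⟨x, hx⟩ := S.exists_lo_zero
  obtain ⟨z, hz, h2⟩ := Finset.exists_mem_eq_sup (S.A c) ⟨x, by simp; omega⟩ S.hi
  exact ⟨z, by simpa using hz, h2.symm⟩

variable {S} {c : ℕ} {x : Ω}

theorem AlX.al (h : S.AlX c x) : S.Al c := by
  refine ⟨h.1, h.2.1, Finset.card_eq_one.2 ⟨x, ?_⟩⟩
  ext z
  simp only [mem_lev, Finset.mem_singleton]
  exact ⟨h.2.2.2 z, fun e => e ▸ h.2.2.1⟩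

theorem AlX.lo_y (h : S.AlX c x) : S.lo (S.ρ c x) + 1 = c := by
  obtain ⟨z, h1, h2⟩ := S.cross h.1 h.2.2.1.ge
  rwa [h.2.2.2 z h1] at h2

theorem AlX.fix_x (h : S.AlX c x) {i : ℕ} (hi : c + 2 ≤ i) : S.ρ i x = x :=
  h.2.2.2 _ (by rw [S.lo_far (by rw [h.2.2.1]; exact hi), h.2.2.1])

theorem AlX.hi_x_le (h : S.AlX c x) : S.hi x ≤ c + 1 := S.hi_le fun _ hj => h.fix_x hj

theorem AlX.fix_B (h : S.AlX c x) {z : Ω} (hz : c ≤ S.lo z) (hx : z ≠ x) : S.ρ c z = z :=
  S.fix_lo (lt_of_le_of_ne hz fun e => hx (h.2.2.2 z e.symm))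

theorem AlX.hi_y (h : S.AlX c x) : S.hi (S.ρ c x) ≤ c + 1 :=
  S.hi_le fun _ hj => (S.fix_comm (Or.inl hj) x).2 (h.fix_x hj)

theorem AlX.A_pres (h : S.AlX c x) {z : Ω} (hz : S.lo z < c) {i : ℕ}
    (hi : i ≠ c ∨ z ≠ S.ρ c x) : S.lo (S.ρ i z) < c := by
  by_contra hn
  have h1 := S.lo_step i z
  have e : i = c := by omega
  subst e
  have h2 := h.2.2.2 (S.ρ i z) (by omega)
  exact hi.elim (fun a => a rfl) fun a => a (S.ρ_swap h2).symm

theorem AlX.A_step (h : S.AlX c x) {z : Ω} (hz : S.lo z < c) (i : ℕ) :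
    S.lo (S.ρ i z) < c ∨ S.ρ i z = x := by
  by_cases e : i ≠ c ∨ z ≠ S.ρ c x
  · exact .inl (h.A_pres hz e)
  · push Not at e
    right
    rw [e.1, e.2, S.inv]

theorem AlX.B_pres (h : S.AlX c x) {z : Ω} (hz : c ≤ S.lo z) {i : ℕ}
    (hi : i ≠ c ∨ z ≠ x) : c ≤ S.lo (S.ρ i z) := by
  by_contra hn
  have h1 := S.lo_step i z
  have e : i = c := by omega
  subst e
  exact hi.elim (fun a => a rfl) fun a => a (h.2.2.2 z (by omega))

/-- the dual of `A_pres` -/
theorem AlX.D_pres (h : S.AlX c x) {z : Ω} (hz : S.lo (S.δ z) < c) {i : ℕ}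
    (hi : i + c + 1 ≠ 2 * m ∨ S.δ z ≠ S.ρ c x) : S.lo (S.δ (S.ρ i z)) < c := by
  by_cases h2 : i < 2 * m
  · rw [S.dual i h2]
    exact h.A_pres hz (hi.imp_left fun a => by omega)
  · rw [S.triv i (by omega)]
    exact hz

theorem AlX.disj (h : S.AlX c x) {z : Ω} (hz : S.lo z < c) : S.hi z + c + 2 ≤ 2 * m := by
  have hy := h.hi_y
  have hc := h.2.1
  have hx := h.2.2.1
  have h1 : c ≤ S.lo (S.δ z) := by
    by_contra hn
    have := S.conn (U := {u | S.lo u < c ∧ S.lo (S.δ u) < c}) (x := z) ⟨hz, by omega⟩ (by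
      intro i u hu
      refine ⟨h.A_pres hu.1 (.inr fun e => ?_), h.D_pres hu.2 (.inr fun e => ?_)⟩
      · have h2 := S.lo_δ u
        have h3 := hu.2
        rw [← e] at hy
        omega
      · have h2 := S.hi_δ u
        have h3 := hu.1
        rw [← e] at hy
        omega) x
    have h4 := this.1
    omega
  have h2 := S.lo_δ z
  by_contra hn
  have h3 := h.2.2.2 (S.δ z) (by omega)
  have h4 := S.hi_δ z
  have h5 := h.hi_x_le
  rw [h3] at h4
  omega

theorem AlX.hi_x (h : S.AlX c x) : S.hi x = c + 1 := by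
  have h1 := h.hi_x_le
  have h2 := S.lo_le_hi x
  have hx := h.2.2.1
  have hc := h.2.1
  by_contra hn
  have h3 := S.lo_δ x
  have := S.conn (U := {u | c ≤ S.lo u ∧ u ≠ x}) (x := S.δ x)
    ⟨by omega, fun e => by rw [e] at h3; omega⟩ (by
      intro i u hu
      refine ⟨h.B_pres hu.1 (.inr hu.2), fun e => ?_⟩
      have e' := S.ρ_swap e
      have h4 : S.ρ i x ≠ x := by rw [e']; exact hu.2
      have h5 := S.lo_le h4
      have h6 := S.le_hi h4
      have h7 : i = c := by omega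
      have h8 := h.lo_y
      have h9 := hu.1
      rw [← h7, e'] at h8
      omega) x
  exact this.2 rfl

theorem AlX.mv1 (h : S.AlX c x) : S.ρ (c + 1) x ≠ x := by
  have := S.mv_hi x
  rwa [h.hi_x] at this

theorem AlX.lo_x1 (h : S.AlX c x) : S.lo (S.ρ (c + 1) x) = c + 1 := by
  have h1 := S.lo_step (c + 1) x
  have hx := h.2.2.1
  by_contra hn
  exact h.mv1 (h.2.2.2 _ (by omega))

theorem AlX.x1 (h : S.AlX c x) :
    S.lo (S.ρ (c + 1) x) = c + 1 ∧ S.hi (S.ρ (c + 1) x) = c + 2 := by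
  refine ⟨h.lo_x1, ?_⟩
  have h1 := S.hi_step (c + 1) x
  have h2 := h.hi_x
  have h3 := h.lo_x1
  have hx := h.2.2.1
  have hc := h.2.1
  have hc1 := h.1
  have hm := S.hm
  by_contra hn
  have h4 : S.hi (S.ρ (c + 1) x) = c + 1 := by omega
  obtain ⟨u, hu⟩ := S.exists_lo_zero
  have h5 := S.hi_δ u
  have := S.conn (U := {w | S.lo w < c ∨ w = x ∨ w = S.ρ (c + 1) x}) (x := x) (.inr (.inl rfl))
    (by
      rintro i w (hw | rfl | rfl)
      · exact (h.A_step hw i).imp_right .inl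
      · by_cases e : S.ρ i w = w
        · exact .inr (.inl e)
        · have h6 := S.lo_le e
          have h7 := S.le_hi e
          have h8 : i = c ∨ i = c + 1 := by omega
          rcases h8 with rfl | rfl
          · have := h.lo_y
            exact .inl (by omega)
          · exact .inr (.inr rfl)
      · by_cases e : S.ρ i (S.ρ (c + 1) x) = S.ρ (c + 1) x
        · exact .inr (.inr e)
        · have h6 := S.lo_le e
          have h7 := S.le_hi e
          have h8 : i = c + 1 := by omega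
          subst h8
          exact .inr (.inl (S.inv _ _))) (S.δ u)
  rcases this with a | a | a
  · have := h.disj a
    omega
  · rw [a] at h5
    omega
  · rw [a] at h5
    omega

theorem AlX.H_le (h : S.AlX c x) : S.H c + c + 2 ≤ 2 * m := by
  obtain ⟨z, h1, h2⟩ := S.exists_H h.1
  rw [← h2]
  exact h.disj h1

/-- all points: the low part, its dual and the middle -/
theorem AlX.card_mid (h : S.AlX c x) : 4 * m + 3 = 2 * (S.A c).card +
    (univ.filter (fun z => c ≤ S.lo z ∧ S.hi z + c + 1 ≤ 2 * m)).card := by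
  have h1 := Finset.card_filter_add_card_filter_not (s := (univ : Finset Ω))
    (fun z => S.lo z < c)
  have h2 := Finset.card_filter_add_card_filter_not
    (s := (univ : Finset Ω).filter fun z => ¬ S.lo z < c) (fun z => S.hi z + c + 1 ≤ 2 * m)
  have h3 : ((univ.filter fun z => ¬ S.lo z < c).filter fun z => S.hi z + c + 1 ≤ 2 * m) =
      univ.filter (fun z => c ≤ S.lo z ∧ S.hi z + c + 1 ≤ 2 * m) := by
    ext z
    simp
  have h4 : ((univ.filter fun z => ¬ S.lo z < c).filter fun z => ¬ S.hi z + c + 1 ≤ 2 * m).card =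
      (S.A c).card := by
    refine Finset.card_bij (fun z _ => S.δ z) (fun z hz => ?_) (fun _ _ _ _ e => S.δ_inj e)
      fun z hz => ⟨S.δ z, ?_, S.dinv z⟩
    · simp only [mem_filter, mem_univ, true_and] at hz
      have := S.lo_δ z
      rw [mem_A]
      omega
    · rw [mem_A] at hz
      have a1 := S.lo_δ z
      have a2 := S.hi_δ z
      have a3 := h.disj hz
      simp only [mem_filter, mem_univ, true_and]
      omega
  rw [h3, h4] at h2
  rw [Finset.card_univ, S.card] at h1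
  have h5 : (univ.filter fun z => S.lo z < c).card = (S.A c).card := rfl
  omega

theorem AlX.mid_lev (h : S.AlX c x) {i : ℕ} (h1 : c ≤ i) (h2 : i + c + 2 ≤ 2 * m) :
    ∃ z, S.lo z = i ∧ S.hi z + c + 1 ≤ 2 * m := by
  have hx := h.2.2.1
  have hh := h.hi_x
  have hc := h.2.1
  have hc1 := h.1
  rcases h1.eq_or_lt with rfl | h1
  · exact ⟨x, hx, by omega⟩
  by_contra hn
  push Not at hn
  obtain ⟨u, hu⟩ := S.exists_lo_zero
  have h3 := S.lo_δ x
  have := S.conn (U := {w | i ≤ S.lo w ∨ S.lo (S.δ w) < c}) (x := S.δ u)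
    (.inr (by rw [S.dinv]; omega)) (by
      intro j w hw
      by_cases a : S.lo (S.δ w) < c
      · by_cases e : j + c + 1 ≠ 2 * m ∨ S.δ w ≠ S.ρ c x
        · exact .inr (h.D_pres a e)
        · push Not at e
          left
          rw [← S.δ_swap e.2, S.δ_edge (i := c) (by omega), S.inv]
          omega
      · have a1 : i ≤ S.lo w := hw.resolve_right a
        have a2 := S.lo_δ w
        have a3 := hn w
        have a4 := S.lo_step j w
        left
        omega) x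
  rcases this with a | a <;> omega

theorem AlX.card_A_le (h : S.AlX c x) : 2 * (S.A c).card + 2 * m ≤ 4 * m + 4 + 2 * c := by
  have h1 := h.card_mid
  have hc := h.2.1
  have h2 := Finset.card_le_card_of_surjOn (s := univ.filter
    (fun z => c ≤ S.lo z ∧ S.hi z + c + 1 ≤ 2 * m)) (t := Finset.Icc c (2 * m - c - 2)) S.lo (by
      intro i hi
      rw [Finset.mem_coe, Finset.mem_Icc] at hi
      obtain ⟨z, a1, a2⟩ := h.mid_lev hi.1 (by omega)
      exact ⟨z, by simp only [coe_filter, mem_univ, true_and]; exact ⟨by omega, a2⟩, a1⟩)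
  rw [Nat.card_Icc] at h2
  omega

theorem AlX.hi_cross (h : S.AlX c x) {j : ℕ} (h1 : c + 1 ≤ j) (h2 : j < S.H c) :
    ∃ z, S.lo z < c ∧ S.hi z = j ∧ S.hi (S.ρ j z) = j + 1 := by
  by_contra hn
  push Not at hn
  obtain ⟨z, a1, a2⟩ := S.exists_H h.1
  have hy := h.hi_y
  have hx := h.2.2.1
  have := S.conn (U := {w | S.lo w < c ∧ j < S.hi w}) (x := z) ⟨a1, by omega⟩ (by
    intro i w hw
    have b1 := hw.2
    have b2 : S.lo (S.ρ i w) < c := h.A_pres hw.1 (.inr fun e => by rw [← e] at hy; omega)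
    refine ⟨b2, ?_⟩
    by_contra b3
    have b4 := S.hi_step i w
    have e : i = j := by omega
    subst e
    exact hn _ b2 (by omega) (by rw [S.inv]; omega)) x
  have := this.1
  omega

/-- the low part together with a set of high points that contains `x` -/
theorem AlX.closed (h : S.AlX c x) {P : Ω → Prop} (hx : P x)
    (hP : ∀ i, c + 1 ≤ i → ∀ z, P z → P (S.ρ i z)) (z : Ω) : S.lo z < c ∨ P z := by
  refine S.conn (U := {w | S.lo w < c ∨ P w}) (x := x) (.inr hx) ?_ z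
  intro i w hw
  by_cases a : S.lo w < c
  · exact (h.A_step a i).imp_right fun e => by rw [e]; exact hx
  have b : P w := hw.resolve_left a
  rcases lt_trichotomy i c with e | rfl | e
  · rw [S.fix_lo (by omega)]
    exact hw
  · by_cases e : w = x
    · have := h.lo_y
      rw [e]
      exact .inl (by omega)
    · rw [h.fix_B (by omega) e]
      exact hw
  · exact .inr (hP i e w b)

theorem AlX.B_orb (h : S.AlX c x) {z : Ω} (hz : c ≤ S.lo z) : S.R (Set.Ici (c + 1)) x z :=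
  (h.closed (P := S.R (Set.Ici (c + 1)) x) (S.R_refl _ x) (fun _ hi _ hw => hw.step hi)
    z).resolve_left (by omega)

theorem AlX.tri (h : S.AlX c x) {l : ℕ} (h1 : S.H c < l) (h2 : c < l) :
    ∃ z, c ≤ S.lo z ∧ z ≠ x ∧ AltIn (S.G (Set.Icc c l)) {S.ρ c x, x, z} := by
  have hH := h.H_le
  have hc := h.2.1
  have hx := h.2.2.1
  obtain ⟨k, k1, k2, k3, k4⟩ : ∃ k, S.H c ≤ k ∧ c ≤ k ∧ k < l ∧ k + 1 < 2 * m :=
    ⟨max (S.H c) c, by omega, by omega, by omega, by omega⟩
  have hA : ∀ w, S.lo w < c → S.ρ (k + 1) w = w := fun w hw =>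
    S.fix_hi (by have := S.hi_le_H hw; omega)
  obtain ⟨g, hg, hm⟩ : ∃ g ∈ S.G (Set.Icc (c + 1) k), S.ρ (k + 1) (g x) ≠ g x := by
    by_contra hn
    push Not at hn
    have k5 : c + 1 ≤ k := by
      by_contra k6
      have e : k = c := by omega
      exact h.mv1 (e ▸ hn 1 (one_mem _))
    obtain ⟨w, hw⟩ := S.exists_moved k4
    refine hw ((h.closed (P := S.R (Set.Icc (c + 1) k) x) (S.R_refl _ x) ?_ w).elim (hA w) ?_)
    · intro i hi z hz
      rcases lt_trichotomy i (k + 1) with e | rfl | e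
      · exact hz.step ⟨hi, by omega⟩
      · obtain ⟨g, hg, rfl⟩ := hz
        rw [hn g hg]
        exact ⟨g, hg, rfl⟩
      · obtain ⟨g, hg, rfl⟩ := hz
        rw [S.G_comm (f := S.ρ i) (fun j hj z => S.comm' (.inr (by have := hj.2; omega)) z) hg,
          h.fix_x (by omega)]
        exact ⟨g, hg, rfl⟩
    · rintro ⟨g, hg, rfl⟩
      exact hn g hg
  have hg1 : g ∈ S.G (Set.Icc (c + 1) l) := S.G_mono (Set.Icc_subset_Icc le_rfl k3.le) hg
  have hg2 : g⁻¹ * S.ρ (k + 1) * g ∈ S.G (Set.Icc (c + 1) l) :=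
    mul_mem (mul_mem (inv_mem hg1) (S.ρ_mem ⟨by omega, by omega⟩)) hg1
  have hmv : (g⁻¹ * S.ρ (k + 1) * g) x ≠ x := fun e => hm (by
    simp only [Perm.mul_apply] at e
    exact Perm.inv_eq_iff_eq.1 e)
  have hmx : S.ρ c x ≠ x := by
    have := S.mv_lo x
    rwa [hx] at this
  have ht := (tri_comm (H := S.G (Set.Icc c l)) (S.ρ_mem ⟨le_rfl, h2.le⟩)
    (S.G_mono (Set.Icc_subset_Icc (Nat.le_succ c) le_rfl) hg2) hmx hmv fun w hw => ?_).1
  · refine ⟨_, ?_, hmv, by rw [Set.insert_comm]; exact ht⟩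
    exact S.G_pres (U := {w | c ≤ S.lo w})
      (fun i hi z hz => h.B_pres hz (.inl (by have := hi.1; omega))) hg2 x hx.ge
  · by_cases a : S.lo w < c
    · right
      have := S.G_pres (U := {w | S.lo w < c})
        (fun i hi z hz => h.A_pres hz (.inl (by have := hi.1; omega))) hg w a
      simp only [Perm.mul_apply]
      rw [hA _ this]
      simp
    · exact .inl (h.fix_B (by omega) hw)

theorem AlX.gp1 (h : S.AlX c x) (h1 : c + 2 ≤ m) (h2 : S.H c + c + 3 ≤ 2 * m) :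
    AltIn (S.G (Set.Ici (c + 1))) {w | S.R (Set.Ici (c + 1)) x w} := by
  have hx := h.2.2.1
  have hy := h.lo_y
  have hh := h.hi_x
  obtain ⟨z, z1, z2, ht⟩ := h.tri (l := 2 * m - 2 - c) (by omega) (by omega)
  have hd : AltIn (S.G (Set.Ici (c + 1))) {S.δ (S.ρ c x), S.δ x, S.δ z} := by
    refine (S.altIn_dual ht (J := Set.Ici (c + 1)) fun i hi _ => ?_).mono le_rfl ?_
    · have := hi.2
      rw [Set.mem_Ici]
      omega
    · rintro _ (rfl | rfl | rfl) <;> simp [S.dinv]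
  obtain ⟨Δ, d1, d2, -, hA, hb⟩ := hd.cls
    (fun e => by have := S.δ_inj e; rw [this] at hy; omega) (fun e => z2 (S.δ_inj e).symm)
    (fun e => by have := S.δ_inj e; rw [this] at hy; omega)
  have key : ∀ g ∈ S.G (Set.Ici (c + 1)), ∃ u ∈ Δ, S.lo (S.δ (g u)) < c := by
    intro g hg
    refine S.G_ind (P := fun g => ∃ u ∈ Δ, S.lo (S.δ (g u)) < c)
      ⟨_, d1, by rw [Perm.one_apply, S.dinv]; omega⟩ ?_ hg
    rintro i _ g hg ⟨u, hu, hl⟩
    by_cases e : i + c + 1 ≠ 2 * m ∨ S.δ (g u) ≠ S.ρ c x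
    · exact ⟨u, hu, h.D_pres hl e⟩
    · push Not at e
      have e' : g⁻¹ (S.δ (S.ρ c x)) = u := by rw [S.δ_swap e.2]; simp
      refine ⟨g⁻¹ (S.δ x), hb _ (inv_mem hg) _ d1 (e' ▸ hu) _ d2, ?_⟩
      have e2 : (S.ρ i * g) (g⁻¹ (S.δ x)) = S.ρ i (S.δ x) := by simp
      rw [e2, S.δ_edge (i := c) (by omega), S.dinv]
      omega
  have hδ := S.lo_δ x
  obtain ⟨g, hg, hgx⟩ := (h.B_orb (z := S.δ x) (by omega)).symm
  obtain ⟨u, hu, hl⟩ := key g hg
  refine (hA.conj hg).mono le_rfl fun w hw => R.ind hw ⟨_, d2, hgx⟩ ?_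
  rintro i hi _ ⟨v, hv, rfl⟩
  have hr : g⁻¹ * S.ρ i * g ∈ S.G (Set.Ici (c + 1)) :=
    mul_mem (mul_mem (inv_mem hg) (S.ρ_mem hi)) hg
  have hfix : ∃ p ∈ Δ, S.ρ i (g p) = g p := by
    rcases (Set.mem_Ici.1 hi).eq_or_lt with rfl | e
    · refine ⟨u, hu, S.fix_lo ?_⟩
      have a1 := S.hi_le_H hl
      have a2 := S.hi_δ (g u)
      omega
    · exact ⟨_, d2, by rw [hgx]; exact h.fix_x e⟩
  obtain ⟨p, hp, e⟩ := hfix
  refine ⟨_, hb _ hr p hp (by simp only [Perm.mul_apply]; rw [e]; simpa using hp) v hv, ?_⟩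
  simp

/-- the labels `≥ k` generate the alternating group on the orbit of `x` -/
theorem AlX.gp (h : S.AlX c x) (h1 : c + 2 ≤ m) (h2 : S.H c + c + 3 ≤ 2 * m) {k : ℕ}
    (hk : k ≤ c + 1) : AltIn (S.G (Set.Ici k)) {w | S.R (Set.Ici k) x w} := by
  have a1 := h.x1
  have a2 := h.mv1
  have a3 : S.ρ (c + 2) (S.ρ (c + 1) x) ≠ S.ρ (c + 1) x := by
    have := S.mv_hi (S.ρ (c + 1) x)
    rwa [a1.2] at this
  have r1 : S.R (Set.Ici (c + 1)) x (S.ρ (c + 1) x) := (S.R_refl _ x).step Set.self_mem_Ici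
  refine S.altR (y := S.ρ (c + 1) x) (z := S.ρ (c + 2) (S.ρ (c + 1) x))
    ((h.gp1 h1 h2).mono (S.G_mono (Set.Ici_subset_Ici.2 hk)) ?_) a2.symm a3.symm
    (fun e => a2 ?_) fun i _ => ?_
  · rintro _ (rfl | rfl | rfl)
    exacts [S.R_refl _ _, r1, r1.step (Nat.le_succ _)]
  · rw [← S.ρ_swap e.symm, h.fix_x le_rfl]
  · rcases lt_trichotomy i (c + 1) with e | rfl | e
    · exact ⟨S.ρ (c + 1) x, by simp,
        by rw [S.fix_lo (x := S.ρ (c + 1) x) (i := i) (by omega)]; simp⟩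
    · exact ⟨x, by simp, by simp⟩
    · exact ⟨x, by simp, by rw [h.fix_x e]; simp⟩

theorem AlX.odd (h : S.AlX c x) : Odd (S.a (c + 1)) := by
  have hx := h.2.2.1
  have h1 : S.ρ (c + 1) x ∈ S.lev (c + 1) := S.mem_lev.2 h.lo_x1
  obtain ⟨k, hk⟩ := even_card_of_inv (S.ρ (c + 1)) ((S.lev (c + 1)).erase (S.ρ (c + 1) x))
    (S.inv _) (by
      intro z hz
      rw [Finset.mem_erase, mem_lev] at hz
      have a1 := S.mv_lo z
      rw [hz.2] at a1
      refine ⟨?_, a1⟩
      rw [Finset.mem_erase, mem_lev]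
      refine ⟨fun e => ?_, ?_⟩
      · have := hz.2
        rw [S.ρ_inj e] at this
        omega
      · have a2 := S.lo_step (c + 1) z
        have a3 := hz.2
        by_contra a4
        exact hz.1 (S.ρ_swap (h.2.2.2 _ (by omega))).symm)
  have h2 := Finset.card_erase_add_one h1
  exact ⟨k, by unfold a; omega⟩

theorem AlX.run (h : S.AlX c x) (h1 : S.a (c + 1) = 1) :
    c + 1 ≤ S.H c ∧ S.H (c + 1) = S.H c ∧ (S.A (c + 1)).card = (S.A c).card + 1 := by
  have hx := h.2.2.1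
  have h2 : c + 1 ≤ S.H c := by
    by_contra hn
    have a1 : S.supp (c + 1) ⊆ insert x (S.lev (c + 1)) := by
      intro z hz
      rw [mem_supp] at hz
      have b1 := S.lo_le hz
      have b2 := S.le_hi hz
      rw [Finset.mem_insert, mem_lev]
      by_cases b3 : S.lo z < c
      · have := S.hi_le_H b3
        omega
      · by_cases b4 : S.lo z = c
        · exact .inl (h.2.2.2 z b4)
        · exact .inr (by omega)
    have a2 := (Finset.card_le_card a1).trans (Finset.card_insert_le _ _)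
    have a3 : 0 < (S.supp (c + 1)).card := Finset.card_pos.2 ⟨x, S.mem_supp.2 h.mv1⟩
    have a4 := Nat.le_of_dvd a3 (S.four_dvd_supp _)
    unfold a at h1
    omega
  have h3 : S.A (c + 1) = insert x (S.A c) := by
    ext z
    rw [Finset.mem_insert, mem_A, mem_A]
    constructor
    · intro a
      by_cases b : S.lo z = c
      exacts [.inl (h.2.2.2 z b), .inr (by omega)]
    · rintro (rfl | a) <;> omega
  refine ⟨h2, ?_, ?_⟩
  · unfold H at h2 ⊢
    rw [h3, Finset.sup_insert, h.hi_x]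
    exact sup_eq_right.2 h2
  · rw [h3, Finset.card_insert_of_notMem (by rw [mem_A]; omega)]

theorem AlX.cv (h : S.AlX c x) (hc : c + 1 = m) : S.CV x := by
  refine ⟨by rw [h.2.2.1, hc], by rw [h.hi_x, hc], fun z h1 h2 => h.2.2.2 z ?_⟩
  by_contra hn
  have := h.disj (z := z) (by omega)
  omega

end SD
end D145
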