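import Mathlib

/-! Automorphisms of large alternating groups are induced by permutations. -/

namespace D145
open Equiv Equiv.Perm

namespace AutAux

theorem ineq3 (m j : ℕ) :
    2 * (m.factorial * 3 ^ (j + 3) * (j + 3).factorial) < 3 * (m + 3 * j + 6).factorial := by
  induction j with
  | zero =>
    have h : m.factorial * 720 ≤ (m + 6).factorial := by
      have := Nat.factorial_mul_factorial_dvd_factorial_add m 6
      exact Nat.le_of_dvd (Nat.factorial_pos _) this
    have h0 := Nat.factorial_pos m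
    have e : (0 + 3).factorial = 6 := rfl
    rw [e]
    simp only [Nat.mul_zero, Nat.add_zero, Nat.zero_add]
    omega
  | succ j ih =>
    have e1 : (j + 1 + 3).factorial = (j + 4) * (j + 3).factorial := Nat.factorial_succ (j + 3)
    have e2 : (m + 3 * (j + 1) + 6).factorial = (m + 3 * j + 9) * ((m + 3 * j + 8) *
        ((m + 3 * j + 7) * (m + 3 * j + 6).factorial)) := by
      rw [← Nat.factorial_succ (m + 3 * j + 6), ← Nat.factorial_succ (m + 3 * j + 7),
        ← Nat.factorial_succ (m + 3 * j + 8)]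
      congr 1
    have e3 : 3 ^ (j + 1 + 3) = 3 * 3 ^ (j + 3) := by rw [← pow_succ']
    have h : 3 * (j + 4) ≤ (m + 3 * j + 9) * ((m + 3 * j + 8) * (m + 3 * j + 7)) := by
      have h1 : 8 * 7 ≤ (m + 3 * j + 8) * (m + 3 * j + 7) := Nat.mul_le_mul (by omega) (by omega)
      calc 3 * (j + 4) ≤ (m + 3 * j + 9) * (8 * 7) := by omega
        _ ≤ _ := Nat.mul_le_mul_left _ h1
    rw [e1, e2, e3]
    calc 2 * (m.factorial * (3 * 3 ^ (j + 3)) * ((j + 4) * (j + 3).factorial))
        = (3 * (j + 4)) * (2 * (m.factorial * 3 ^ (j + 3) * (j + 3).factorial)) := by ring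
      _ < (3 * (j + 4)) * (3 * (m + 3 * j + 6).factorial) :=
        Nat.mul_lt_mul_of_pos_left ih (by omega)
      _ ≤ ((m + 3 * j + 9) * ((m + 3 * j + 8) * (m + 3 * j + 7))) *
          (3 * (m + 3 * j + 6).factorial) := Nat.mul_le_mul_right _ h
      _ = _ := by ring

theorem ineq {n k : ℕ} (hn : 9 ≤ n) (hk : 2 ≤ k) (h : 3 * k ≤ n) :
    2 * ((n - 3 * k).factorial * 3 ^ k * k.factorial) < 3 * (n - 3).factorial := by
  obtain ⟨m, rfl⟩ := Nat.exists_eq_add_of_le h
  rw [Nat.add_sub_cancel_left]
  rcases hk.eq_or_lt with rfl | hk3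
  · have e : 3 * 2 + m - 3 = m + 3 := by omega
    have e2 : (m + 3).factorial = (m + 3) * ((m + 2) * ((m + 1) * m.factorial)) := by
      rw [← Nat.factorial_succ m, ← Nat.factorial_succ (m + 1), ← Nat.factorial_succ (m + 2)]
    have h0 := Nat.factorial_pos m
    have h1 : 6 * (5 * (4 * m.factorial)) ≤ (m + 3) * ((m + 2) * ((m + 1) * m.factorial)) :=
      Nat.mul_le_mul (by omega) (Nat.mul_le_mul (by omega) (Nat.mul_le_mul_right _ (by omega)))
    have e3 : (2 : ℕ).factorial = 2 := rfl
    rw [e, e2, e3]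
    omega
  · obtain ⟨j, rfl⟩ := Nat.exists_eq_add_of_le' (show 3 ≤ k from hk3)
    have e : 3 * (j + 3) + m - 3 = m + 3 * j + 6 := by omega
    rw [e]
    exact ineq3 m j

variable {Ω : Type} [Fintype Ω] [DecidableEq Ω]

theorem card_le (g : alternatingGroup Ω) :
    Nat.card (Subgroup.centralizer ({g} : Set (alternatingGroup Ω))) ≤
      Nat.card (Subgroup.centralizer ({(g : Perm Ω)} : Set (Perm Ω))) := by
  refine Nat.card_le_card_of_injective (fun x => ⟨(x.1 : Perm Ω), ?_⟩) ?_
  · have h := Subgroup.mem_centralizer_singleton_iff.1 x.2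
    exact Subgroup.mem_centralizer_singleton_iff.2 (congrArg Subtype.val h)
  · intro x y h
    exact Subtype.ext (Subtype.ext (congrArg (fun z => (z.1 : Perm Ω)) h))

theorem card_ge (g : alternatingGroup Ω) :
    Nat.card (Subgroup.centralizer ({(g : Perm Ω)} : Set (Perm Ω))) ≤
      2 * Nat.card (Subgroup.centralizer ({g} : Set (alternatingGroup Ω))) := by
  set C := Subgroup.centralizer ({(g : Perm Ω)} : Set (Perm Ω))
  let f : C →* ℤˣ := (sign : Perm Ω →* ℤˣ).comp C.subtype
  have h1 : Nat.card f.range ≤ 2 := by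
    have := Nat.card_le_card_of_injective (fun x : f.range => (x : ℤˣ)) Subtype.val_injective
    simpa using this
  have h2 : Nat.card f.ker ≤
      Nat.card (Subgroup.centralizer ({g} : Set (alternatingGroup Ω))) := by
    refine Nat.card_le_card_of_injective
      (fun x => ⟨⟨(x.1 : Perm Ω), Perm.mem_alternatingGroup.2 x.2⟩, ?_⟩) ?_
    · have h := Subgroup.mem_centralizer_singleton_iff.1 x.1.2
      exact Subgroup.mem_centralizer_singleton_iff.2 (Subtype.ext h)
    · intro x y h
      exact Subtype.ext (Subtype.ext (congrArg (fun z => (z.1 : Perm Ω)) h))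
  rw [← f.ker.card_mul_index, Subgroup.index_ker, mul_comm]
  exact Nat.mul_le_mul h1 h2

theorem card_map {G : Type} [Group G] (φ : G ≃* G) (g : G) :
    Nat.card (Subgroup.centralizer ({φ g} : Set G)) =
      Nat.card (Subgroup.centralizer ({g} : Set G)) := by
  refine (Nat.card_congr (φ.toEquiv.subtypeEquiv fun x => ?_)).symm
  rw [Subgroup.mem_centralizer_singleton_iff, Subgroup.mem_centralizer_singleton_iff]
  change _ ↔ φ x * φ g = φ g * φ x
  rw [← map_mul, ← map_mul, φ.apply_eq_iff_eq]

theorem card_rep {g : Perm Ω} {k : ℕ} (h : g.cycleType = Multiset.replicate (k + 1) 3) :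
    Nat.card (Subgroup.centralizer ({g} : Set (Perm Ω))) =
      (Fintype.card Ω - 3 * (k + 1)).factorial * 3 ^ (k + 1) * (k + 1).factorial := by
  rw [nat_card_centralizer, h, Multiset.sum_replicate, Multiset.prod_replicate,
    Multiset.toFinset_replicate, if_neg (Nat.succ_ne_zero k), Finset.prod_singleton,
    Multiset.count_replicate_self, smul_eq_mul, mul_comm (k + 1) 3]

theorem three_map (hn : 9 ≤ Fintype.card Ω) (φ : alternatingGroup Ω ≃* alternatingGroup Ω)
    {g : alternatingGroup Ω} (hg : IsThreeCycle (g : Perm Ω)) :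
    IsThreeCycle ((φ g : alternatingGroup Ω) : Perm Ω) := by
  have ho : orderOf ((φ g : alternatingGroup Ω) : Perm Ω) = 3 := by
    rw [Subgroup.orderOf_coe, φ.orderOf_eq, ← Subgroup.orderOf_coe, hg.orderOf]
  obtain ⟨k, hk⟩ := cycleType_prime_order (σ := ((φ g : alternatingGroup Ω) : Perm Ω))
    (by rw [ho]; exact Nat.prime_three)
  rw [ho] at hk
  rcases Nat.eq_zero_or_pos k with rfl | hpos
  · exact hk
  exfalso
  have h1 := card_rep hk
  have h2 := card_rep (g := (g : Perm Ω)) (k := 0) hg
  have h3 := card_le (φ g)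
  have h4 := card_ge g
  have h5 := card_map φ g
  have h6 : 3 * (k + 1) ≤ Fintype.card Ω := by
    have := sum_cycleType_le ((φ g : alternatingGroup Ω) : Perm Ω)
    rwa [hk, Multiset.sum_replicate, smul_eq_mul, mul_comm] at this
  have h7 := ineq hn (show 2 ≤ k + 1 by omega) h6
  rw [← h1] at h7
  simp only [Nat.zero_add, mul_one, pow_one, Nat.factorial_one] at h2
  omega

theorem cube {s : Perm Ω} (hs : IsThreeCycle s) (x : Ω) : s (s (s x)) = x := by
  have h := pow_orderOf_eq_one s
  rw [hs.orderOf] at h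
  exact congrArg (fun z : Perm Ω => z x) h

theorem pts {s : Perm Ω} (hs : IsThreeCycle s) {x w : Ω} (hx : s x ≠ x) (hw : s w ≠ w) :
    w = x ∨ w = s x ∨ w = s (s x) := by
  have h := hs.support_eq_iff_mem_support.2 (mem_support.2 hx)
  have h2 := mem_support.2 hw
  rw [h] at h2
  simpa using h2

omit [Fintype Ω] [DecidableEq Ω] in
theorem mv {s : Perm Ω} {x : Ω} (hx : s x ≠ x) : s (s x) ≠ s x := fun h => hx (s.injective h)

theorem three_ext {s t : Perm Ω} (hs : IsThreeCycle s) (ht : IsThreeCycle t) {x : Ω}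
    (hx : s x ≠ x) (h1 : s x = t x) (h2 : s (s x) = t (s x)) : s = t := by
  rw [hs.eq_swap_mul_swap_iff_mem_support.2 (mem_support.2 hx),
    ht.eq_swap_mul_swap_iff_mem_support.2 (mem_support.2 (h1 ▸ hx : t x ≠ x)), ← h1, ← h2]

theorem edge {s t : Perm Ω} (hs : IsThreeCycle s) (ht : IsThreeCycle t)
    (h2 : ∀ w, s (t (s (t w))) = w) (h1 : s * t ≠ 1) : ∃ x, s x ≠ x ∧ s x = t x := by
  have key : ∀ w, t w ≠ w → s w = w → ∃ x, s x ≠ x ∧ s x = t x := fun w hw hsw => by
    have e := h2 (t (t w))
    rw [cube ht, hsw] at e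
    exact ⟨t w, by rw [e]; exact mv hw, e⟩
  obtain ⟨w, hw⟩ : ∃ w, s (t w) ≠ w := by
    by_contra hn
    push Not at hn
    exact h1 (Equiv.ext hn)
  by_cases a1 : t w = w
  · rw [a1] at hw
    have e := h2 w
    rw [a1] at e
    exact ⟨s w, mv hw, s.injective ((cube hs w).trans e.symm)⟩
  by_cases a2 : s w = w
  · exact key w a1 a2
  by_cases a3 : s (t w) = t w
  · exact key _ (mv a1) a3
  rcases pts hs a2 a3 with h | h | h
  · exact absurd h a1
  · exact ⟨w, a2, h.symm⟩
  · rw [h, cube hs] at hw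
    exact absurd rfl hw

theorem third {s t r : Perm Ω} (hs : IsThreeCycle s) (ht : IsThreeCycle t) (hr : IsThreeCycle r)
    {x : Ω} (hx : s x ≠ x) (h : s x = t x) (hne : s ≠ t) (h1 : ∃ p, s p ≠ p ∧ s p = r p)
    (h2 : ∃ q, t q ≠ q ∧ t q = r q) : r x = s x := by
  obtain ⟨p, hp, ep⟩ := h1
  obtain ⟨q, hq, eq⟩ := h2
  have hzw : s (s x) ≠ t (s x) := fun e => hne (three_ext hs ht hx h e)
  have hx' : t x ≠ x := h ▸ hx
  have c1 := cube hs x
  have c2 : t (t (s x)) = x := by rw [h]; exact cube ht x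
  have n1 : s (s x) ≠ x := fun e => hx (by rw [e] at c1; exact c1)
  have n2 : t (s x) ≠ x := fun e => hx (by rw [e] at c2; exact h.trans c2)
  have n3 : s (s x) ≠ s x := mv hx
  have n4 : t (s x) ≠ s x := by rw [h]; exact mv hx'
  rcases pts hs hx hp with rfl | rfl | rfl
  · exact ep.symm
  · rcases pts ht hx' hq with rfl | rfl | rfl
    · exact eq.symm.trans h.symm
    · rw [← h] at eq
      exact absurd (ep.trans eq.symm) hzw
    · exfalso
      rw [← h, c2] at eq
      have m1 : r (s x) ≠ s x := ep ▸ n3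
      have m2 : r (t (s x)) ≠ t (s x) := by rw [← eq]; exact n2.symm
      have m3 : r x ≠ x := fun e => n2 (r.injective (eq.symm.trans e.symm))
      rcases pts hr m1 m2 with e | e | e
      · exact n4 e
      · exact hzw (ep.trans e.symm)
      · rcases pts hr m1 m3 with e' | e' | e'
        · exact hx e'.symm
        · exact n1 (ep.trans e'.symm)
        · exact n2 (e.trans e'.symm)
  · rw [c1] at ep
    rcases pts ht hx' hq with rfl | rfl | rfl
    · exact eq.symm.trans h.symm
    · exfalso
      rw [← h] at eq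
      have m1 : r (s x) ≠ s x := eq ▸ n4
      have m2 : r (s (s x)) ≠ s (s x) := by rw [← ep]; exact n1.symm
      have m3 : r x ≠ x := fun e => n1 (r.injective (ep.symm.trans e.symm))
      rcases pts hr m1 m2 with e | e | e
      · exact n3 e
      · exact hzw (e.trans eq.symm)
      · rcases pts hr m1 m3 with e' | e' | e'
        · exact hx e'.symm
        · exact n2 (eq.trans e'.symm)
        · exact n1 (e.trans e'.symm)
    · rw [← h, c2] at eq
      exact absurd (r.injective (ep.symm.trans eq)) hzw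

theorem gen {a b : Ω} (H : Subgroup (Perm Ω)) (hab : a ≠ b) (hH : H ≤ alternatingGroup Ω)
    (h : ∀ i, i ≠ a → swap a b * swap a i ∈ H) {g : Perm Ω} (hg : g ∈ alternatingGroup Ω) :
    g ∈ H := by
  have step : ∀ i, i ≠ a → ∀ f : Perm Ω, (f ∈ H ∨ swap a b * f ∈ H) →
      (swap a i * f ∈ H ∨ swap a b * (swap a i * f) ∈ H) := by
    rintro i hi f (hf | hf)
    · right
      rw [← mul_assoc]
      exact H.mul_mem (h i hi) hf
    · left
      have := H.mul_mem (H.inv_mem (h i hi)) hf
      rwa [mul_inv_rev, swap_inv, swap_inv, mul_assoc, swap_mul_self_mul] at this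
  have all : ∀ f : Perm Ω, f ∈ H ∨ swap a b * f ∈ H := fun f => by
    induction f using swap_induction_on with
    | one => exact .inl H.one_mem
    | swap_mul f x y hxy ih =>
      by_cases hx : x = a
      · subst hx
        exact step y hxy.symm f ih
      by_cases hy : y = a
      · subst hy
        rw [swap_comm x y]
        exact step x hx f ih
      have e : swap x y * f = swap a x * (swap a y * (swap a x * f)) := by
        rw [← mul_assoc, ← mul_assoc, swap_comm a y,
          swap_mul_swap_mul_swap hy (Ne.symm hxy)]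
      rw [e]
      exact step x hx _ (step y hy _ (step x hx f ih))
  rcases all g with h1 | h1
  · exact h1
  · have h2 := Perm.mem_alternatingGroup.1 (hH h1)
    rw [map_mul, Perm.mem_alternatingGroup.1 hg, sign_swap hab] at h2
    exact absurd h2 (by decide)

omit [Fintype Ω] in
theorem sq_tri {a b i j : Ω} (hab : a ≠ b) (ia : i ≠ a) (ib : i ≠ b) (ja : j ≠ a) (jb : j ≠ b)
    (hij : i ≠ j) : (swap a b * swap a i) * (swap a b * swap a j) = swap a j * swap b i := by
  ext w
  simp only [Perm.mul_apply, swap_apply_def]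
  split_ifs <;> simp_all

end AutAux

open AutAux

theorem aut_alt {Ω : Type} [Fintype Ω] [DecidableEq Ω] (hn : 9 ≤ Fintype.card Ω)
    (φ : alternatingGroup Ω ≃* alternatingGroup Ω) :
    ∃ d : Perm Ω, ∀ g : alternatingGroup Ω, ((φ g : alternatingGroup Ω) : Perm Ω) = d * g * d⁻¹ := by
  obtain ⟨e⟩ : Nonempty (Fin 4 ↪ Ω) :=
    Function.Embedding.nonempty_of_card_le (by rw [Fintype.card_fin]; omega)
  obtain ⟨a, b, i0, i1, hab, a0, b0, a1, b1, h01⟩ : ∃ a b i0 i1 : Ω, a ≠ b ∧ i0 ≠ a ∧ i0 ≠ b ∧
      i1 ≠ a ∧ i1 ≠ b ∧ i0 ≠ i1 :=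
    ⟨e 0, e 1, e 2, e 3, e.injective.ne (by decide), e.injective.ne (by decide),
      e.injective.ne (by decide), e.injective.ne (by decide), e.injective.ne (by decide),
      e.injective.ne (by decide)⟩
  have hT : ∀ i, i ≠ a → swap a b * swap a i ∈ alternatingGroup Ω := fun i hi => by
    rw [Perm.mem_alternatingGroup, map_mul, sign_swap hab, sign_swap hi.symm]
    decide
  let T : Ω → alternatingGroup Ω := fun i =>
    if h : i = a then 1 else ⟨swap a b * swap a i, hT i h⟩
  have eT : ∀ i, i ≠ a → (T i : Perm Ω) = swap a b * swap a i := fun i hi => by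
    simp only [T, dif_neg hi]
  have T3 : ∀ i, i ≠ a → i ≠ b → IsThreeCycle (T i : Perm Ω) := fun i ia ib => by
    rw [eT i ia]
    exact isThreeCycle_swap_mul_swap_same hab ia.symm ib.symm
  let s : Ω → Perm Ω := fun i => ((φ (T i) : alternatingGroup Ω) : Perm Ω)
  have s3 : ∀ i, i ≠ a → i ≠ b → IsThreeCycle (s i) := fun i ia ib => three_map hn φ (T3 i ia ib)
  have Tb : ∀ i, i ≠ a → i ≠ b → (T i : Perm Ω) b = a := fun i ia ib => by
    rw [eT i ia, Perm.mul_apply, swap_apply_of_ne_of_ne hab.symm ib.symm, swap_apply_right]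
  have Ta : ∀ i, i ≠ a → i ≠ b → (T i : Perm Ω) a = i := fun i ia ib => by
    rw [eT i ia, Perm.mul_apply, swap_apply_left, swap_apply_of_ne_of_ne ia ib]
  have sne : ∀ i j, i ≠ a → i ≠ b → j ≠ a → j ≠ b → s i = s j → i = j := by
    intro i j ia ib ja jb h
    have h1 : T i = T j := φ.injective (Subtype.ext h)
    rw [← Ta i ia ib, h1, Ta j ja jb]
  have sed : ∀ i j, i ≠ a → i ≠ b → j ≠ a → j ≠ b → i ≠ j → ∃ x, s i x ≠ x ∧ s i x = s j x := by
    intro i j ia ib ja jb hij
    have e1 : ((T i * T j : alternatingGroup Ω) : Perm Ω) = swap a j * swap b i := by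
      rw [Subgroup.coe_mul, eT i ia, eT j ja, sq_tri hab ia ib ja jb hij]
    have e2 : T i * T j * (T i * T j) = 1 := by
      apply Subtype.ext
      rw [Subgroup.coe_mul, e1]
      ext w
      simp only [Perm.mul_apply, swap_apply_def, Subgroup.coe_one, Perm.one_apply]
      split_ifs <;> simp_all
    have e3 : T i * T j ≠ 1 := fun h => by
      have h1 := congrArg (fun z : alternatingGroup Ω => (z : Perm Ω) a) h
      simp only [e1, Perm.mul_apply, swap_apply_of_ne_of_ne hab ia.symm, swap_apply_left,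
        Subgroup.coe_one, Perm.one_apply] at h1
      exact ja h1
    refine edge (s3 i ia ib) (s3 j ja jb) (fun w => ?_) fun h => e3 ?_
    · have h1 := congrArg φ e2
      rw [map_one, map_mul, map_mul] at h1
      exact congrArg (fun z : alternatingGroup Ω => (z : Perm Ω) w) h1
    · apply φ.injective
      rw [map_one, map_mul]
      exact Subtype.ext h
  obtain ⟨x, hx, ex⟩ := sed i0 i1 a0 b0 a1 b1 h01
  have sx : ∀ i, i ≠ a → i ≠ b → s i x = s i0 x := fun i ia ib => by
    by_cases h0 : i = i0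
    · rw [h0]
    by_cases h1 : i = i1
    · rw [h1, ex]
    exact third (s3 i0 a0 b0) (s3 i1 a1 b1) (s3 i ia ib) hx ex
      (fun h => h01 (sne _ _ a0 b0 a1 b1 h)) (sed i0 i a0 b0 ia ib (Ne.symm h0))
      (sed i1 i a1 b1 ia ib (Ne.symm h1))
  set y := s i0 x with hy
  have sy1 : ∀ i, i ≠ a → i ≠ b → s i y ≠ y := fun i ia ib => by
    rw [← sx i ia ib]
    exact mv (by rw [sx i ia ib]; exact hx)
  have sy2 : ∀ i, i ≠ a → i ≠ b → s i y ≠ x := fun i ia ib h => by
    have c := cube (s3 i ia ib) x
    rw [sx i ia ib, h, sx i ia ib] at c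
    exact hx c
  let f : Ω → Ω := fun i => if i = a then y else if i = b then x else s i y
  have fa : f a = y := if_pos rfl
  have fb : f b = x := by simp only [f, if_neg hab.symm, if_true]
  have fi : ∀ i, i ≠ a → i ≠ b → f i = s i y := fun i ia ib => by
    simp only [f, if_neg ia, if_neg ib]
  have finj : Function.Injective f := by
    intro i j h
    by_cases ia : i = a
    · by_cases ja : j = a
      · rw [ia, ja]
      by_cases jb : j = b
      · rw [ia, jb, fa, fb] at h
        exact absurd h hx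
      · rw [ia, fa, fi j ja jb] at h
        exact absurd h.symm (sy1 j ja jb)
    by_cases ib : i = b
    · by_cases ja : j = a
      · rw [ib, ja, fa, fb] at h
        exact absurd h.symm hx
      by_cases jb : j = b
      · rw [ib, jb]
      · rw [ib, fb, fi j ja jb] at h
        exact absurd h.symm (sy2 j ja jb)
    by_cases ja : j = a
    · rw [ja, fa, fi i ia ib] at h
      exact absurd h (sy1 i ia ib)
    by_cases jb : j = b
    · rw [jb, fb, fi i ia ib] at h
      exact absurd h (sy2 i ia ib)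
    rw [fi i ia ib, fi j ja jb] at h
    refine sne i j ia ib ja jb (three_ext (s3 i ia ib) (s3 j ja jb) (x := x) ?_ ?_ ?_)
    · rw [sx i ia ib]
      exact hx
    · rw [sx i ia ib, sx j ja jb]
    · rw [sx i ia ib]
      exact h
  let d : Perm Ω := Equiv.ofBijective f (Finite.injective_iff_bijective.1 finj)
  have ed : ∀ i, d i = f i := fun _ => rfl
  have di : ∀ i, d⁻¹ (d i) = i := fun i => d.symm_apply_apply i
  have hd : ∀ i, i ≠ a → i ≠ b → s i = d * T i * d⁻¹ := fun i ia ib => by
    have c3 : IsThreeCycle (d * (T i : Perm Ω) * d⁻¹) := by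
      have := T3 i ia ib
      rwa [IsThreeCycle, ← cycleType_conj (τ := d)] at this
    refine three_ext (s3 i ia ib) c3 (x := x) ?_ ?_ ?_
    · rw [sx i ia ib]
      exact hx
    · rw [sx i ia ib, ← fb, ← ed, Perm.mul_apply, Perm.mul_apply, di,
        Tb i ia ib, ed, fa]
    · rw [sx i ia ib, ← fi i ia ib, ← fa, ← ed a, Perm.mul_apply, Perm.mul_apply,
        di, Ta i ia ib, ed]
  let K : Subgroup (alternatingGroup Ω) :=
    MonoidHom.eqLocus ((alternatingGroup Ω).subtype.comp φ.toMonoidHom)
      ((MulAut.conj d).toMonoidHom.comp (alternatingGroup Ω).subtype)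
  refine ⟨d, fun g => ?_⟩
  have hg : (g : Perm Ω) ∈ K.map (alternatingGroup Ω).subtype := by
    refine gen _ hab (Subgroup.map_subtype_le K) (fun i ia => ?_) g.2
    by_cases ib : i = b
    · rw [ib, swap_mul_self]
      exact one_mem _
    · exact ⟨T i, hd i ia ib, eT i ia⟩
  obtain ⟨g', h1, h2⟩ := hg
  rw [← Subtype.ext (a1 := g') (a2 := g) h2]
  exact h1

end D145
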