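import Pool.Agent.MP_d145c0_al.H75.CV0

/-! Ladders: levels of sizes `4, 2, …, 2` with a label moving all their points. -/

namespace D145
open Equiv Finset
namespace SD
variable {Ω : Type} [Fintype Ω] [DecidableEq Ω] {m : ℕ} (S : SD Ω m)

/-- hypotheses of the ladder lemmas -/
def Lad (q τ : ℕ) : Prop :=
  1 ≤ q ∧ q + 2 ≤ τ ∧ τ < m ∧ S.a 0 = 4 ∧ (∀ l, 1 ≤ l → l ≤ q → S.a l = 2) ∧
    ∀ z, S.lo z ≤ q → S.ρ τ z ≠ z

variable {S} {v : Ω} {q τ : ℕ}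

omit [Fintype Ω] in
theorem mem_of_card {s : Finset Ω} {L : List Ω} (hL : L.Nodup) (hc : s.card = L.length)
    (hs : ∀ x ∈ L, x ∈ s) {z : Ω} (hz : z ∈ s) : z ∈ L := by
  have : L.toFinset = s := eq_of_subset_of_card_le (fun x hx => hs x (List.mem_toFinset.1 hx))
    (by rw [List.toFinset_card_of_nodup hL, hc])
  rwa [← this, List.mem_toFinset] at hz

theorem two_pts {l : ℕ} (h2 : S.a l = 2) {x y z : Ω} (hx : S.lo x = l) (hy : S.lo y = l)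
    (hxy : x ≠ y) (hz : S.lo z = l) : z = x ∨ z = y := by
  simpa using mem_of_card (s := S.lev l) (L := [x, y]) (z := z) (by simpa using hxy) h2
    (by simp [hx, hy]) (by simpa using hz)

theorem exists_two {l : ℕ} (h2 : S.a l = 2) : ∃ x y, x ≠ y ∧ S.lo x = l ∧ S.lo y = l := by
  obtain ⟨x, y, hxy, e⟩ := card_eq_two.1 h2
  exact ⟨x, y, hxy, S.mem_lev.1 (by rw [e]; simp), S.mem_lev.1 (by rw [e]; simp)⟩

/-- on a level with two points both points come from the level below -/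
theorem down_two {l : ℕ} (h1 : 1 ≤ l) (h2 : S.a l = 2) {z : Ω} (hz : S.lo z = l) :
    S.lo (S.ρ l z) + 1 = l := by
  obtain ⟨y, y1, y2⟩ := S.cross h1 hz.ge
  by_contra hn
  have h3 := S.lo_step l z
  have h4 : S.lo (S.ρ l z) = l := by omega
  have h5 : S.ρ l z ≠ z := hz ▸ S.mv_lo z
  rcases two_pts h2 h4 hz h5 y1 with rfl | rfl
  · rw [S.inv] at y2; omega
  · exact hn y2

theorem Lad.card (h : S.Lad q τ) {l : ℕ} (hl : l ≤ q) : (S.A (l + 1)).card = 2 * l + 4 := by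
  rw [S.card_A]
  induction l with
  | zero => simpa using h.2.2.2.1
  | succ l ih =>
    rw [sum_range_succ, ih (by omega), h.2.2.2.2.1 _ (by omega) hl]
    ring

theorem Lad.base' (h : S.Lad q τ) (hv : S.CV v) : ∃ f f', S.lo f = 0 ∧ S.ρ τ f = f' ∧
    [f, S.ρ 0 f, f', S.ρ 0 f'].Nodup ∧
    (∀ z, S.lo z = 0 → z = f ∨ z = S.ρ 0 f ∨ z = f' ∨ z = S.ρ 0 f') ∧
    S.lo (S.ρ 1 f) = 1 ∧ S.lo (S.ρ 1 f') = 1 ∧
    S.ρ 1 (S.ρ 0 f) = S.ρ 0 f ∧ S.ρ 1 (S.ρ 0 f') = S.ρ 0 f' ∧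
    (∀ j, 2 ≤ j → S.ρ j f = f ∨ S.ρ j f = f') ∧ ∀ j, 2 ≤ j → S.ρ j f' = f ∨ S.ρ j f' = f' := by
  have hcard := h.card (l := 1) h.1
  obtain ⟨q1, q2, q3, a0, a2, hτ⟩ := h
  obtain ⟨g, g0, gn, gy⟩ := S.d1 (hv.gp (j := 1) (by omega))
  obtain ⟨f, rfl⟩ : ∃ f, g = S.ρ 0 f := ⟨S.ρ 0 g, (S.inv _ _).symm⟩
  rw [S.inv] at gy
  have l0 : ∀ z, S.lo (S.ρ 0 z) = S.lo z := fun z => by have := S.lo_step 0 z; omega
  have f0 : S.lo f = 0 := by rw [← l0, g0]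
  have lτ : ∀ z, S.lo z ≤ 1 → S.lo (S.ρ τ z) = S.lo z := fun z hz => S.lo_far (by omega)
  have c0 : ∀ z, S.ρ 0 (S.ρ τ z) = S.ρ τ (S.ρ 0 z) := S.comm 0 τ (by omega)
  have c1 : ∀ z, S.ρ 1 (S.ρ τ z) = S.ρ τ (S.ρ 1 z) := S.comm 1 τ (by omega)
  have mτ : τ ∈ Set.Ici 1 := by simp; omega
  have m1 : 1 ∈ Set.Ici 1 := by simp
  have f1 : S.lo (S.ρ τ f) = 0 := by rw [lτ _ (by omega), f0]
  have fy := gy.step mτ
  have gn' : ¬S.R (Set.Ici 1) v (S.ρ 0 (S.ρ τ f)) := fun e =>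
    gn (e.step' mτ (by rw [c0, S.inv]))
  have n1 : f ≠ S.ρ τ f := (hτ f (by omega)).symm
  have nd : [f, S.ρ 0 f, S.ρ τ f, S.ρ 0 (S.ρ τ f)].Nodup := by
    have n2 : f ≠ S.ρ 0 f := fun e => gn (e ▸ gy)
    have n3 : f ≠ S.ρ 0 (S.ρ τ f) := fun e => gn' (e ▸ gy)
    have n4 : S.ρ 0 f ≠ S.ρ τ f := fun e => gn (e ▸ fy)
    have n5 : S.ρ τ f ≠ S.ρ 0 (S.ρ τ f) := fun e => gn' (e ▸ fy)
    simp [n1, n2, n3, n4, n5]
  have all : ∀ z, S.lo z = 0 → z = f ∨ z = S.ρ 0 f ∨ z = S.ρ τ f ∨ z = S.ρ 0 (S.ρ τ f) :=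
    fun z hz => by
      simpa using mem_of_card (s := S.lev 0) (z := z) nd a0 (by simp [l0, f0, f1])
        (by simpa using hz)
  have inY : ∀ z, S.lo z = 0 → S.R (Set.Ici 1) v z → z = f ∨ z = S.ρ τ f := fun z hz hr => by
    rcases all z hz with e | e | e | e
    exacts [.inl e, absurd (e ▸ hr) gn, .inr e, absurd (e ▸ hr) gn']
  have up : S.lo (S.ρ 1 f) = 1 ∧ S.lo (S.ρ 1 (S.ρ τ f)) = 1 := by
    obtain ⟨-, z, z1, z2, z3⟩ := gy.symm.cross_lo (j := 1) (by omega) (by have := hv.1; omega)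
    rcases inY _ (by omega) ((gy.trans z1).step m1) with e | e
    · rw [c1, S.ρ_swap e, lτ _ z2.le]; exact ⟨z2, z2⟩
    · rw [← S.ρ_swap e.symm, c1, S.inv, S.inv, S.inv, lτ _ z2.le]; exact ⟨z2, z2⟩
  have fix : S.ρ 1 (S.ρ 0 f) = S.ρ 0 f := by
    by_contra hn
    have e : S.supp 1 = S.A 2 := by
      ext z
      simp only [mem_supp, mem_A]
      refine ⟨fun hz => by have := S.lo_le hz; omega, fun hz => ?_⟩
      by_cases z1 : S.lo z = 1
      · exact z1 ▸ S.mv_lo z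
      rcases all z (by omega) with rfl | rfl | rfl | rfl
      · intro e; rw [e] at up; omega
      · exact hn
      · intro e; rw [e] at up; omega
      · rw [c0, c1]; exact fun e => hn (S.ρ_inj e)
    have := S.four_dvd_supp 1
    rw [e, hcard] at this
    omega
  refine ⟨f, _, f0, rfl, nd, all, up.1, up.2, fix, by rw [c0, c1, fix], fun j hj => ?_,
    fun j hj => ?_⟩
  · exact inY _ (by rw [S.lo_far (by omega), f0]) (gy.step (by simp; omega))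
  · exact inY _ (by rw [S.lo_far (by omega), f1]) (fy.step (by simp; omega))

theorem Lad.base (h : S.Lad q τ) (hv : S.CV v) : ∃ f f', S.lo f = 0 ∧ S.ρ τ f = f' ∧
    [f, S.ρ 0 f, f', S.ρ 0 f'].Nodup ∧
    (∀ z, S.lo z = 0 → z = f ∨ z = S.ρ 0 f ∨ z = f' ∨ z = S.ρ 0 f') ∧
    S.lo (S.ρ 1 f) = 1 ∧ S.lo (S.ρ 1 f') = 1 ∧
    S.ρ 1 (S.ρ 0 f) = S.ρ 0 f ∧ S.ρ 1 (S.ρ 0 f') = S.ρ 0 f' ∧
    ∀ j, 2 ≤ j → S.ρ j f = f ∨ S.ρ j f = f' := by
  obtain ⟨f, f', h1, h2, h3, h4, h5, h6, h7, h8, h9, -⟩ := h.base' hv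
  exact ⟨f, f', h1, h2, h3, h4, h5, h6, h7, h8, h9⟩

theorem Lad.agree (h : S.Lad q τ) {j : ℕ} (hj : 2 ≤ j) {f f' : Ω}
    (all : ∀ z, S.lo z = 0 → z = f ∨ z = S.ρ 0 f ∨ z = f' ∨ z = S.ρ 0 f') {c : Ω → Ω}
    (hc : ∀ i ≤ q, ∀ z, c (S.ρ i z) = S.ρ i (c z)) (hf : S.ρ j f = c f) (hf' : S.ρ j f' = c f')
    (l : ℕ) : ∀ z, S.lo z = l → l ≤ q → l + 2 ≤ j → S.ρ j z = c z := by
  induction l with
  | zero =>
    intro z hz _ _
    rcases all z hz with rfl | rfl | rfl | rfl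
    · exact hf
    · rw [hc 0 (by omega), ← hf, S.comm 0 j hj]
    · exact hf'
    · rw [hc 0 (by omega), ← hf', S.comm 0 j hj]
  | succ l ih =>
    intro z hz h1 h2
    have h3 := down_two (by omega) (h.2.2.2.2.1 _ (by omega) h1) hz
    have h4 := ih _ (by omega : S.lo (S.ρ (l + 1) z) = l) (by omega) (by omega)
    rw [hc _ h1, ← S.comm _ j h2] at h4
    exact S.ρ_inj h4

/-- a label acts on the levels two below it trivially or without fixed points -/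
theorem Lad.rung (h : S.Lad q τ) (hv : S.CV v) {j : ℕ} (hj : 2 ≤ j) :
    (∀ z, S.lo z ≤ q → S.lo z + 2 ≤ j → S.ρ j z = z) ∨
    (∀ z, S.lo z ≤ q → S.lo z + 2 ≤ j → S.ρ j z ≠ z ∧ S.ρ j z = S.ρ τ z) := by
  obtain ⟨f, f', h1, h2, -, all, -, -, -, -, h9, h10⟩ := h.base' hv
  rcases h9 j hj with e | e
  · refine .inl fun z z1 z2 => h.agree hj all (c := id) (fun _ _ _ => rfl) e ?_ _ z rfl z1 z2
    rcases h10 j hj with e' | e'
    · rw [← S.ρ_swap e', e, e]; rfl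
    · exact e'
  · refine .inr fun z z1 z2 => ?_
    have := h.agree hj all (c := S.ρ τ)
      (fun i hi z => (S.comm i τ (by have := h.2.1; omega) z).symm) (e.trans h2.symm)
      ((S.ρ_swap e).trans (S.ρ_swap h2).symm) _ z rfl z1 z2
    exact ⟨this ▸ h.2.2.2.2.2 z z1, this⟩

theorem Lad.climb (h : S.Lad q τ) {k : ℕ} (h1 : k ≤ q + 1)
    (h2 : ∀ z, S.lo z + 1 = k → S.lo (S.ρ k z) = k ∧ S.R (Set.Ici k) v z)
    {j : ℕ} (hj : 2 ≤ j) (hk : j ≤ k) :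
    ∀ z, S.lo z + 1 = j → S.lo (S.ρ j z) = j ∧ S.R (Set.Ici j) v z := by
  induction hk using Nat.decreasingInduction with
  | self => exact h2
  | of_succ i hi ih =>
    intro z hz
    have a1 := h.2.2.2.2.1 i (by omega) (by omega)
    have a2 := h.2.2.2.2.1 (i - 1) (by omega) (by omega)
    obtain ⟨x, y, hxy, hx, hy⟩ := exists_two a1
    have dx := down_two (by omega) a1 hx
    have dy := down_two (by omega) a1 hy
    have key : ∀ u, S.lo u = i → z = S.ρ i u → S.lo (S.ρ i z) = i ∧ S.R (Set.Ici i) v z := by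
      rintro u hu rfl
      exact ⟨by rw [S.inv, hu], ((ih (by omega) u (by omega)).2.mono
        (Set.Ici_subset_Ici.2 (by omega))).step (by simp)⟩
    rcases two_pts a2 (by omega : S.lo (S.ρ i x) = i - 1) (by omega : S.lo (S.ρ i y) = i - 1)
      (fun e => hxy (S.ρ_inj e)) (by omega : S.lo z = i - 1) with e | e
    exacts [key x hx e, key y hy e]

/-- no second rung -/
theorem Lad.two_rung (h : S.Lad q τ) (hv : S.CV v) {k : ℕ} (h1 : k ≤ q + 1)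
    (h2 : ∀ z, S.lo z + 1 = k → S.lo (S.ρ k z) = k ∧ S.R (Set.Ici k) v z)
    {j : ℕ} (hj : 2 ≤ j) (hk : j ≤ k) : ∀ z, S.lo z + 2 ≤ j → S.ρ j z = z := by
  induction j using Nat.strong_induction_on with
  | _ j ih =>
  have hup := h.climb h1 h2 hj hk
  rcases h.rung hv hj with hr | hr
  · exact fun z hz => hr z (by omega) hz
  exfalso
  obtain ⟨f, f', -, -, -, all, u1, u2, u3, u4, -⟩ := h.base hv
  obtain ⟨q1, q2, q3, -, a2, hτ⟩ := h
  obtain ⟨i, rfl⟩ : ∃ i, j = i + 1 := ⟨j - 1, by omega⟩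
  have ai := a2 i (by omega) (by omega)
  obtain ⟨P, -, -, hP, -⟩ := exists_two ai
  obtain ⟨P', e0⟩ : ∃ P', S.ρ τ P = P' := ⟨_, rfl⟩
  have hP' : S.lo P' = i := by rw [← e0, S.lo_far (by omega), hP]
  have nP : P ≠ P' := e0 ▸ (hτ P (by omega)).symm
  have d1 := down_two (by omega) ai hP
  have d2 := down_two (by omega) ai hP'
  obtain ⟨p1, r1⟩ := hup P (by omega)
  obtain ⟨p2, r2⟩ := hup P' (by omega)
  obtain ⟨n3, e3⟩ := hr (S.ρ i P) (by omega) (by omega)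
  rw [← S.comm i τ (by omega), e0] at e3
  have e4 := S.ρ_swap e3
  have e1 : S.ρ i (S.ρ (i + 1) P) = S.ρ (i + 1) P := S.fix_lo (by omega)
  have e6 : S.ρ i (S.ρ (i + 1) P') = S.ρ (i + 1) P' := S.fix_lo (by omega)
  have sup : ∀ z, S.ρ i z ≠ z → z = P ∨ z = P' ∨ z = S.ρ i P ∨ z = S.ρ i P' := by
    intro z hz
    have z1 := S.lo_le hz
    have up : S.lo (S.ρ i z) = i → z = P ∨ z = P' ∨ z = S.ρ i P ∨ z = S.ρ i P' := fun e =>
      .inr (.inr ((two_pts ai hP hP' nP e).imp (fun e => (S.ρ_swap e).symm)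
        fun e => (S.ρ_swap e).symm))
    by_cases z2 : S.lo z = i
    · rcases two_pts ai hP hP' nP z2 with e | e
      exacts [.inl e, .inr (.inl e)]
    by_cases z3 : S.lo z + 2 ≤ i
    · exact absurd (ih i (by omega) (by omega) (by omega) z z3) hz
    by_cases i1 : i = 1
    · subst i1
      rcases all z (by omega) with rfl | rfl | rfl | rfl
      exacts [up u1, absurd u3 hz, up u2, absurd u4 hz]
    · exact .inr (.inr (two_pts (a2 (i - 1) (by omega) (by omega)) (by omega) (by omega)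
        (fun e => nP (S.ρ_inj e)) (by omega)))
  obtain ⟨w, hw⟩ : ∃ w : Perm Ω, w = S.ρ i * S.ρ (i + 1) * (S.ρ i * S.ρ (i + 1)) *
    (S.ρ i * S.ρ (i + 1)) * S.ρ (i + 1) := ⟨_, rfl⟩
  have wa : ∀ z, w z = S.ρ i (S.ρ (i + 1) (S.ρ i (S.ρ (i + 1) (S.ρ i z)))) := fun z => by
    simp [hw, S.inv]
  have w3 : w (S.ρ i P) = S.ρ i P := by rw [wa, S.inv, e1, S.inv]
  have w4 : w (S.ρ i P') = S.ρ i P' := by rw [wa, S.inv, e6, S.inv]
  have w2 : w P = S.ρ (i + 1) P' := by rw [wa, e3, S.inv, e6]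
  have m1 : w ∈ S.G (Set.Iic (i + 1)) := by
    have b1 : S.ρ i ∈ S.G (Set.Iic (i + 1)) := S.ρ_mem (by simp)
    have b2 : S.ρ (i + 1) ∈ S.G (Set.Iic (i + 1)) := S.ρ_mem (by simp)
    rw [hw]
    exact mul_mem (mul_mem (mul_mem (mul_mem b1 b2) (mul_mem b1 b2)) (mul_mem b1 b2)) b2
  have m2 : w ∈ S.G (Set.Ici (i + 1)) := by
    refine hv.gp (by omega) w (S.sign_G m1) fun z hz => ?_
    have s1 : S.ρ i z ≠ z → w z = z := fun e => by
      rcases sup z e with rfl | rfl | rfl | rfl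
      exacts [absurd r1 hz, absurd r2 hz, w3, w4]
    by_cases z1 : S.ρ i z = z
    · by_cases z2 : S.ρ i (S.ρ (i + 1) z) = S.ρ (i + 1) z
      · rw [wa, z1, z2, S.inv, z1]
      · rcases sup _ z2 with e | e | e | e
        · exact absurd (r1.step' (by simp) (S.ρ_swap e)) hz
        · exact absurd (r2.step' (by simp) (S.ρ_swap e)) hz
        · rw [← S.ρ_swap e, e3, w4]
        · rw [← S.ρ_swap e, e4, w3]
    · exact s1 z1
  rcases S.G_single (S.ipG _ _ ⟨m1, m2⟩) with e | e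
  · rw [e, Perm.one_apply] at w2
    rw [← w2] at p2
    omega
  · exact n3 (e ▸ w3)

end SD
end D145
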