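import Pool.Agent.MP_d145c0_al.H75.CVx
import Pool.Agent.MP_d145c0_al.H75.Lad

/-! Tight case: the branching point belongs to the low levels. -/

namespace D145
open Equiv Finset
namespace SD
variable {Ω : Type} [Fintype Ω] [DecidableEq Ω] {m : ℕ} {S : SD Ω m} {v : Ω} {k τ : ℕ}
  {t s : ℕ → Ω}

theorem Tight.l1_cases (hT : S.Tight k τ t s) {z : Ω} (hz : z ∈ S.Dp k t) (hl : k ≤ S.lo z) :
    ∃ j, k < j ∧ j ≤ m ∧ z = s j := by
  refine (hT.1.1 z).1 (S.mem_Yp.2 ⟨hz, hl, ?_⟩)
  by_contra hn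
  have h1 := S.lo_le_hi z
  have : z ∈ S.Cp k := S.mem_Cp.2 ⟨by omega, by omega⟩
  rw [hT.2.1] at this
  exact absurd this (notMem_empty z)

theorem Tight.l1_mem (hT : S.Tight k τ t s) {j : ℕ} (h1 : k < j) (h2 : j ≤ m) :
    s j ∈ S.Dp k t ∧ k ≤ S.lo (s j) :=
  have h := S.mem_Yp.1 ((hT.1.1 (s j)).2 ⟨j, h1, h2, rfl⟩)
  ⟨h.1, h.2.1⟩

theorem Tight.l1_lad (hT : S.Tight (k + 1) τ t s) (h4 : S.a 0 = 4) (hk : 1 ≤ k) :
    S.Lad k τ := by
  obtain ⟨-, -, h1, h2, h3, h5, -⟩ := hT
  refine ⟨hk, by omega, h2, h4, fun l a b => h3 l a (by omega), fun z hz => ?_⟩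
  have := S.mv_hi z
  rwa [h5 z (by omega)] at this

/-- the configuration in which the two top points of the second tail come from the low levels -/
theorem Tail.l1_f {q : ℕ} {S : SD Ω (q + 4)} (ht : S.Tail v (q + 1) t) (h : S.CV v)
    (h4 : S.a 0 = 4) (hT : S.Tight (q + 1) τ t s) (hu : q + 1 ≤ S.lo (t (q + 1)))
    (h1 : S.lo (S.ρ (q + 1) (s (q + 3))) = q) (h2 : S.lo (S.ρ (q + 1) (s (q + 4))) = q) :
    False := by
  have hm := S.hm
  have hL := hT.l1_lad h4 (by omega)
  obtain ⟨m3, l3⟩ := hT.l1_mem (j := q + 3) (by omega) (by omega)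
  obtain ⟨m4, l4⟩ := hT.l1_mem (j := q + 4) (by omega) (by omega)
  obtain ⟨a2, e2⟩ := hT.1.2.1 (q + 2) (by omega) (by omega)
  obtain ⟨a3, e3⟩ := hT.1.2.1 (q + 3) (by omega) (by omega)
  have a4 := hT.1.2.2.1
  have n34 : s (q + 3) ≠ s (q + 4) := hT.1.2.2.2
  have hu' := ht.2.2.2.2.1
  have eu : t (q + 1) = s (q + 2) := by
    obtain ⟨j, j1, j2, e⟩ := hT.l1_cases (ht.mem_Dp h) hu
    have : j = q + 2 ∨ j = q + 3 ∨ j = q + 4 := by omega
    rcases this with rfl | rfl | rfl
    · exact e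
    · rw [e] at hu'; omega
    · rw [e] at hu'; omega
  have mu : S.ρ (q + 1) (s (q + 2)) ≠ s (q + 2) := by
    rw [← eu, ht.2.2.2.1 (q + 1) le_rfl (by omega)]; exact ht.2.2.2.2.2.symm
  have v3 : S.ρ (q + 1) (s (q + 3)) ≠ s (q + 3) := fun e => by rw [e] at h1; omega
  have v4 : S.ρ (q + 1) (s (q + 4)) ≠ s (q + 4) := fun e => by rw [e] at h2; omega
  have np : S.ρ (q + 1) (s (q + 3)) ≠ S.ρ (q + 1) (s (q + 4)) := fun e => n34 (S.ρ_inj e)
  have two : ∀ z, S.lo z = q → z = S.ρ (q + 1) (s (q + 3)) ∨ z = S.ρ (q + 1) (s (q + 4)) :=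
    fun z hz => two_pts (hL.2.2.2.2.1 q (by omega) le_rfl) h1 h2 np hz
  have r2 : S.R (Set.Ici (q + 1)) v (s (q + 2)) := eu ▸ ht.reach le_rfl (by omega) le_rfl
  have r3 : S.R (Set.Ici (q + 1)) v (s (q + 3)) := r2.step' (i := q + 2) (by simp) e2
  have r4 : S.R (Set.Ici (q + 1)) v (s (q + 4)) := r3.step' (i := q + 3) (by simp) e3
  have hfix := hL.two_rung h (k := q + 1) le_rfl (fun z hz => by
    rcases two z (by omega) with rfl | rfl
    · have := S.lo_le v3
      exact ⟨by rw [S.inv]; omega, r3.step (by simp)⟩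
    · have := S.lo_le v4
      exact ⟨by rw [S.inv]; omega, r4.step (by simp)⟩) (j := q + 1) (by omega) le_rfl
  have hc := ht.odd_k h
  have hset : (S.Dp (q + 1) t).filter (fun z => S.ρ (q + 1) z ≠ z) =
      [s (q + 2), s (q + 3), s (q + 4), S.ρ (q + 1) (s (q + 3)),
        S.ρ (q + 1) (s (q + 4))].toFinset := by
    ext z
    simp only [mem_filter, List.mem_toFinset, List.mem_cons, List.not_mem_nil, or_false]
    constructor
    · rintro ⟨hz, hz'⟩
      by_cases hl : q + 1 ≤ S.lo z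
      · obtain ⟨j, j1, j2, e⟩ := hT.l1_cases hz hl
        have : j = q + 2 ∨ j = q + 3 ∨ j = q + 4 := by omega
        rcases this with rfl | rfl | rfl <;> simp [e]
      · have : ¬ S.lo z + 2 ≤ q + 1 := fun hh => hz' (hfix z hh)
        rcases two z (by omega) with e | e <;> simp [e]
    · rintro (rfl | rfl | rfl | rfl | rfl)
      · exact ⟨eu ▸ ht.mem_Dp h, mu⟩
      · exact ⟨m3, v3⟩
      · exact ⟨m4, v4⟩
      · exact ⟨ht.Dp_of_lo (by omega), by rw [S.inv]; exact v3.symm⟩
      · exact ⟨ht.Dp_of_lo (by omega), by rw [S.inv]; exact v4.symm⟩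
  have l2 : q + 1 ≤ S.lo (s (q + 2)) := eu ▸ hu
  have hd : ∀ x y : Ω, S.hi x ≠ S.hi y → x ≠ y := fun x y hh e => hh (by rw [e])
  have ld : ∀ x y : Ω, S.lo x ≠ S.lo y → x ≠ y := fun x y hh e => hh (by rw [e])
  rw [hset, List.toFinset_card_of_nodup] at hc
  · simp at hc
  · simp only [List.nodup_cons, List.mem_cons, List.not_mem_nil, or_false, not_or, List.nodup_nil,
      not_false_eq_true, and_true]
    exact ⟨⟨hd _ _ (by omega), hd _ _ (by omega), ld _ _ (by omega), ld _ _ (by omega)⟩,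
      ⟨n34, ld _ _ (by omega), ld _ _ (by omega)⟩, ⟨ld _ _ (by omega), ld _ _ (by omega)⟩, np⟩

/-- the configuration in which the second tail is a single edge -/
theorem Tail.l1_e {q : ℕ} {S : SD Ω (q + 3)} (ht : S.Tail v (q + 1) t) (h : S.CV v)
    (h4 : S.a 0 = 4) (hT : S.Tight (q + 1) τ t s) (hu : q + 1 ≤ S.lo (t (q + 1))) {w : Ω}
    (hw : w ∈ S.Dp (q + 1) t) (lw : S.lo w = q + 1) (lw' : S.lo (S.ρ (q + 1) w) = q) :
    False := by
  have hm := S.hm
  have hL := hT.l1_lad h4 (by omega)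
  obtain rfl : τ = q + 2 := by have := hT.2.2.1; have := hT.2.2.2.1; omega
  have hhi := hT.2.2.2.2.2.1
  obtain ⟨a2, e2⟩ := hT.1.2.1 (q + 2) (by omega) (by omega)
  have a3 := hT.1.2.2.1
  have ld : ∀ x y : Ω, S.lo x ≠ S.lo y → x ≠ y := fun x y hh e => hh (by rw [e])
  have top : ∀ z ∈ S.Dp (q + 1) t, q + 1 ≤ S.lo z → z = s (q + 2) ∨ z = s (q + 3) := by
    intro z hz hl
    obtain ⟨j, j1, j2, e⟩ := hT.l1_cases hz hl
    have : j = q + 2 ∨ j = q + 3 := by omega
    rcases this with rfl | rfl <;> simp [e]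
  have et1 : S.ρ (q + 1) (t (q + 1)) = t (q + 2) := ht.2.2.2.1 (q + 1) le_rfl (by omega)
  have et2 : S.ρ (q + 2) (t (q + 2)) = v := by
    rw [ht.2.2.2.1 (q + 2) (by omega) (by omega)]; exact ht.2.1
  have lt2 := (ht.2.2.1 (q + 2) (by omega) (by omega)).1
  have nwu : w ≠ t (q + 1) := fun e => by rw [e, et1] at lw'; omega
  have euw : S.ρ (q + 2) (t (q + 1)) = w := by
    rcases top _ (ht.mem_Dp h) hu with e | e <;> rcases top w hw lw.ge with e' | e'
    · exact absurd (e'.trans e.symm) nwu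
    · rw [e, e', e2]
    · rw [e, e']; exact S.ρ_swap e2
    · exact absurd (e'.trans e.symm) nwu
  have top' : ∀ z ∈ S.Dp (q + 1) t, q + 1 ≤ S.lo z → z = t (q + 1) ∨ z = w := by
    intro z hz hl
    rcases top _ (ht.mem_Dp h) hu with e | e <;> rcases top w hw lw.ge with e' | e' <;>
      rcases top z hz hl with e'' | e'' <;> simp_all
  obtain ⟨w', ew⟩ : ∃ w', S.ρ (q + 1) w = w' := ⟨_, rfl⟩
  rw [ew] at lw'
  obtain ⟨w'', ew'⟩ : ∃ w'', S.ρ (q + 2) w' = w'' := ⟨_, rfl⟩
  have lw'' : S.lo w'' = q := by rw [← ew', S.lo_far (by omega), lw']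
  have nw : w' ≠ w'' := by rw [← ew']; exact (hL.2.2.2.2.2 w' lw'.le).symm
  have h2q := hL.2.2.2.2.1 q (by omega) le_rfl
  have two : ∀ z, S.lo z = q → z = w' ∨ z = w'' := fun z hz => two_pts h2q lw' lw'' nw hz
  have fw : S.ρ (q + 1) w'' = w'' := by
    rcases S.lo_step (q + 1) w'' with e | e | e
    · rcases two _ (e.trans lw'') with e' | e'
      · have := S.ρ_inj (e'.trans ew.symm)
        rw [this] at lw''; omega
      · exact e'
    · omega
    · have hz : S.ρ (q + 1) w'' ∈ S.Dp (q + 1) t :=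
        ht.Dp_pres h (ht.Dp_of_lo (by omega)) (Or.inr (ld _ _ (by omega)))
      rcases top' _ hz e.2.ge with e' | e'
      · have := (S.ρ_swap e').symm.trans et1
        rw [this] at lw''; omega
      · exact absurd ((S.ρ_swap e').symm.trans ew).symm nw
  have hcard := ht.card_Dp h
  have hodd := ht.odd h (j := q + 2) (by omega) (by omega)
  rw [filter_true_of_mem, hcard] at hodd
  swap
  · intro z hz
    have hz' := S.mv_hi z
    by_cases hl : q + 1 ≤ S.lo z
    · rcases top z hz hl with e | e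
      · rwa [e, a2, ← e] at hz'
      · rwa [e, show S.hi (s (q + 3)) = q + 2 by omega, ← e] at hz'
    · rwa [hhi z (by omega)] at hz'
  have mw : S.ρ (q + 1) w ≠ w := by rw [ew]; exact ld _ _ (by omega)
  have hfix : ∀ z, S.lo z + 2 ≤ q + 1 → S.ρ (q + 1) z = z := by
    rcases hL.rung h (j := q + 1) (by omega) with hr | hr
    · exact fun z hz => hr z (by omega) hz
    · exfalso
      have hc := ht.odd_k h
      have hset : (S.Dp (q + 1) t).filter (fun z => S.ρ (q + 1) z ≠ z) =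
          (S.Dp (q + 1) t).erase w'' := by
        ext z
        simp only [mem_filter, mem_erase]
        refine ⟨fun hz => ⟨fun e => hz.2 (by rw [e, fw]), hz.1⟩, fun hz => ⟨hz.2, ?_⟩⟩
        by_cases hl : q + 1 ≤ S.lo z
        · rcases top' z hz.2 hl with rfl | rfl
          · rw [et1]; exact ht.2.2.2.2.2.symm
          · exact mw
        · by_cases hl' : S.lo z = q
          · rcases two z hl' with rfl | rfl
            · rw [S.ρ_swap ew]; exact ld _ _ (by omega)
            · exact absurd rfl hz.1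
          · exact (hr z (by omega) (by omega)).1
      rw [hset, card_erase_of_mem (ht.Dp_of_lo (by omega)), hcard] at hc
      omega
  have fixA : ∀ z, S.lo z ≤ q → z ≠ w' → S.ρ (q + 1) z = z := by
    intro z hz hn
    by_cases hl' : S.lo z = q
    · rcases two z hl' with e | e
      · exact absurd e hn
      · rw [e, fw]
    · exact hfix z (by omega)
  have lp := down_two (by omega) h2q lw'
  obtain ⟨h3, n13⟩ := path3 (a := S.ρ (q + 1)) (b := S.ρ q) (S.inv _) (S.inv _) ew rfl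
    (S.fix_lo (by omega)) (hfix _ (by omega)) (ld _ _ (by omega)) (ld _ _ (by omega))
    (fun y y1 y2 y3 => by
      have key : (S.ρ (q + 1) * S.ρ q) ((S.ρ (q + 1) * S.ρ q) y) = y := by
        simp only [Perm.mul_apply]
        by_cases hl : S.lo y ≤ q
        · have b1 : S.lo (S.ρ q y) ≤ q := by have := S.lo_step q y; omega
          rw [fixA _ b1 (fun e => y3 (S.ρ_swap e).symm), S.inv, fixA y hl y2]
        · have b1 : q < S.lo (S.ρ (q + 1) y) := by
            by_contra hn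
            have b2 : S.lo (S.ρ (q + 1) y) = q := by have := S.lo_step (q + 1) y; omega
            rcases two _ b2 with e | e
            · exact y1 (S.ρ_inj (e.trans ew.symm))
            · have := S.ρ_inj (e.trans fw.symm)
              rw [this] at hl; omega
          rw [S.fix_lo (i := q) (x := y) (by omega), S.fix_lo b1, S.inv]
      rw [show 4 = 2 + 2 from rfl, pow_add, pow_two, Perm.mul_apply, Perm.mul_apply,
        Perm.mul_apply (S.ρ (q + 1) * S.ρ q) (S.ρ (q + 1) * S.ρ q), key, key])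
  rw [← S.G_pair'] at h3
  obtain ⟨Δ, d1, d2, -, dA, dB⟩ := (h3.mono (S.G_mono (J := Set.Iic (q + 1 + 1))
    fun i hi => by have := hi.2; simp only [Set.mem_Iic]; omega) subset_rfl).cls
    (ld _ _ (by omega)) (ld _ _ (by omega)) n13
  have dv : v ∈ Δ := by
    have := dB (S.ρ (q + 2) * S.ρ (q + 1) * S.ρ (q + 2))
      (mul_mem (mul_mem (S.ρ_mem (by simp)) (S.ρ_mem (by simp))) (S.ρ_mem (by simp))) w' d2
      (by simp only [Perm.mul_apply]; rw [ew', fw, S.ρ_swap ew']; exact d2) w d1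
    simp only [Perm.mul_apply] at this
    rwa [S.ρ_swap euw, et1, et2] at this
  have lv := h.1
  have rw1 : S.R (Set.Ici (q + 1)) v w :=
    (ht.reach le_rfl (by omega) le_rfl).step' (i := q + 2) (by simp) euw
  have fin := ((h.dk (j := q + 1) (by omega) dA dv d1 d2 (ld _ _ (by omega)) (ld _ _ (by omega))
    (ld _ _ (by omega)) (S.R_refl _ _) rw1 (rw1.step' (by simp) ew)).2 v (by simp)).2
  rw [S.ρ_swap et2] at fin
  rcases fin with e | e | e
  · exact ld _ _ (by omega) e
  · exact (S.mem_Dp.1 hw).2 (q + 2) (by omega) (by omega) e.symm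
  · exact ld _ _ (by omega) e

theorem Tail.cvl1 (ht : S.Tail v k t) (h : S.CV v) (hk : 1 ≤ k) (h4 : S.a 0 = 4)
    (hT : S.Tight k τ t s) : S.lo (t k) < k := by
  by_contra hn
  have hu : k ≤ S.lo (t k) := by omega
  obtain ⟨q, rfl⟩ : ∃ q, k = q + 1 := ⟨k - 1, by omega⟩
  obtain ⟨w, lw, lw'⟩ := S.cross hk hu
  have hkm := ht.1
  have hhi := hT.2.2.2.2.2.1
  have hw : w ∈ S.Dp (q + 1) t := by
    have := ht.Dp_pres h (z := S.ρ (q + 1) w) (ht.Dp_of_lo (by omega)) (i := q + 1)
      (Or.inr fun e => by rw [e] at lw'; omega)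
    rwa [S.inv] at this
  obtain ⟨j, j1, j2, ej⟩ := hT.l1_cases hw lw.ge
  have hs := hT.1.2.1
  have hsm := hT.1.2.2.1
  by_cases hc : q + 3 ≤ S.hi w
  · have hτ : S.hi w = τ := by rw [← hhi (S.ρ (q + 1) w) (by omega), S.hi_far (by omega)]
    have P1 : ∀ z, S.lo (S.ρ (q + 1) z) = q → S.hi z = τ := by
      intro z hz
      have := S.hi_far (i := q + 1) (x := S.ρ (q + 1) z) (by rw [hhi _ (by omega)]; omega)
      rwa [S.inv, hhi (S.ρ (q + 1) z) (by omega)] at this
    have P2 : ∀ z i, q + 3 ≤ i → S.lo (S.ρ (q + 1) z) = q →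
        S.lo (S.ρ (q + 1) (S.ρ i z)) = q := by
      intro z i hi hz
      rw [S.comm _ _ (by omega), S.lo_far (by omega), hz]
    obtain ⟨n, rfl⟩ : ∃ n, m = n + 1 := ⟨m - 1, by omega⟩
    have both : τ = n ∧ S.lo (S.ρ (q + 1) (s n)) = q ∧ S.lo (S.ρ (q + 1) (s (n + 1))) = q := by
      have e := hs n (by omega) (by omega)
      rw [ej] at lw' hτ hc
      by_cases hj : j = n + 1
      · subst hj
        have := P2 (s (n + 1)) n (by omega) (by omega)
        rw [S.ρ_swap e.2] at this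
        exact ⟨by omega, this, by omega⟩
      · have e' := hs j j1 (by omega)
        have h1 := P2 (s j) j (by omega) (by omega)
        rw [e'.2] at h1
        have h2 := P1 _ h1
        have hjn : j = n := by
          by_contra hh
          have := (hs (j + 1) (by omega) (by omega)).1
          omega
        subst hjn
        exact ⟨by omega, by omega, h1⟩
    obtain ⟨b1, b2, b3⟩ := both
    obtain ⟨n, rfl⟩ : ∃ n', n = n' + 1 := ⟨n - 1, by omega⟩
    obtain rfl : n = q + 2 := by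
      by_contra hh
      have e := hs n (by omega) (by omega)
      have h1 := P2 _ n (by omega) b2
      rw [S.ρ_swap e.2] at h1
      have := P1 _ h1
      omega
    exact ht.l1_f h h4 hT hu b2 b3
  · obtain ⟨i, i1, i2, ei⟩ := hT.l1_cases (ht.mem_Dp h) hu
    have hu' := ht.2.2.2.2.1
    have nwu : w ≠ t (q + 1) := fun e => by
      have := (ht.2.2.1 (q + 1 + 1) (by omega) (by omega)).1
      rw [e, ht.2.2.2.1 (q + 1) le_rfl (by omega)] at lw'
      omega
    obtain rfl : m = q + 3 := by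
      by_contra hh
      have hij : ∀ j, q + 1 < j → j ≤ m → S.hi (s j) ≤ q + 2 → j = q + 2 := by
        intro j a b c
        by_cases hj : j = m
        · rw [hj] at c; omega
        · have := (hs j a (by omega)).1; omega
      exact nwu (by rw [ej, ei, hij j j1 j2 (by rw [← ej]; omega),
        hij i i1 i2 (by rw [← ei]; omega)])
    exact ht.l1_e h h4 hT hu hw lw (by omega)

end SD
end D145
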