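import Pool.Agent.MP_d145c0_al.H75.CV0

/-! The models. -/

namespace D145
open Equiv Finset

/-- action of the label `i < m` on the two tails of the half, for the model `ty`:
`ty = 0` both tails hang on one edge with label `0`, `ty = 1` twisted square,
`ty ≥ 2` ladder whose rungs have the label `ty` -/
def sig (ty i : ℕ) (p : Bool × ℕ) : Bool × ℕ :=
  if ty = 0 ∧ i = 1 then
    (if p = (false, 1) then (false, 2) else if p = (false, 2) then (false, 1)
      else if p = (false, 0) then (true, 2) else if p = (true, 2) then (false, 0) else p)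
  else if p.2 = i then (p.1, i + 1) else if p.2 = i + 1 then (p.1, i)
  else if ty = 1 ∧ i = 2 ∧ p.2 < 2 then (!p.1, 1 - p.2)
  else if i = max ty 2 ∧ p.2 < i then (!p.1, p.2) else p

/-- the admissible models -/
def types (m : ℕ) : Finset ℕ := (range m).filter (fun ty => ty = 1 ∨ ty % 2 = 0)

namespace SD
variable {Ω : Type} [Fintype Ω] [DecidableEq Ω] {m : ℕ} (S : SD Ω m)

/-- the half is the model `ty` -/
def Shape (v : Ω) (ty : ℕ) : Prop :=
  ∃ P : Bool × ℕ → Ω, P (false, m) = v ∧ (∀ z, S.lo z < m → ∃ s j, j ≤ m ∧ P (s, j) = z) ∧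
    ∀ i < m, ∀ s j, j ≤ m → S.ρ i (P (s, j)) = P (sig ty i (s, j))

variable {S}

/-- a parametrisation onto the half is a bijection onto the half -/
theorem CV.param_bij {v : Ω} (hv : S.CV v) {P : Bool × ℕ → Ω}
    (hs : ∀ z, S.lo z < m → ∃ s j, j ≤ m ∧ P (s, j) = z) :
    (∀ p : Bool × ℕ, p.2 ≤ m → S.lo (P p) < m) ∧
      ∀ p q : Bool × ℕ, p.2 ≤ m → q.2 ≤ m → P p = P q → p = q := by
  classical
  set B : Finset (Bool × ℕ) := univ ×ˢ range (m + 1) with hB
  have hmem : ∀ p : Bool × ℕ, p ∈ B ↔ p.2 ≤ m := by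
    intro p
    simp only [hB, mem_product, mem_univ, true_and, mem_range]
    omega
  have hcB : B.card = 2 * m + 2 := by
    rw [hB, card_product, card_univ, Fintype.card_bool, card_range]; ring
  have hsub : S.A m ⊆ B.image P := by
    intro z hz
    obtain ⟨s, j, hj, e⟩ := hs z (S.mem_A.1 hz)
    exact mem_image.2 ⟨(s, j), (hmem _).2 hj, e⟩
  have hle : (B.image P).card ≤ (S.A m).card := by
    rw [hv.card_half, ← hcB]; exact card_image_le
  have heq : S.A m = B.image P := eq_of_subset_of_card_le hsub hle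
  have hinj : Set.InjOn P (B : Set (Bool × ℕ)) := by
    apply card_image_iff.1
    rw [← heq, hv.card_half, hcB]
  refine ⟨fun p hp => ?_, fun p q hp hq e => ?_⟩
  · have : P p ∈ S.A m := by
      rw [heq]; exact mem_image.2 ⟨p, (hmem _).2 hp, rfl⟩
    exact S.mem_A.1 this
  · exact hinj (mem_coe.2 ((hmem _).2 hp)) (mem_coe.2 ((hmem _).2 hq)) e

/-- an isomorphism of the halves extends by duality -/
theorem CV.extend {S' : SD Ω m} {v v' : Ω} (hv : S.CV v) (hv' : S'.CV v') {f : Ω → Ω}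
    (hlo : ∀ z, S.lo z < m → S'.lo (f z) < m)
    (hinj : ∀ z w, S.lo z < m → S.lo w < m → f z = f w → z = w)
    (hfv : f v = v')
    (heq : ∀ i < m, ∀ z, S.lo z < m → S.lo (S.ρ i z) < m ∧ f (S.ρ i z) = S'.ρ i (f z)) :
    ∃ d : Perm Ω, ∀ i x, d (S.ρ i x) = S'.ρ i (d x) := by
  classical
  let d : Ω → Ω := fun z => if S.lo z < m then f z else S'.δ (f (S.δ z))
  have hvlo : S.lo v < m := by have := hv.1; omega
  have d1 : ∀ z, S.lo z < m → d z = f z := fun z hz => if_pos hz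
  have d2 : ∀ z, ¬ S.lo z < m → d z = S'.δ (f (S.δ z)) := fun z hz => if_neg hz
  have hδ : ∀ z, ¬ S.lo z < m → S.lo (S.δ z) < m := by
    intro z hz
    have h1 := S.lo_δ z
    have h2 := S.lo_le_hi z
    omega
  have d3 : ∀ z, m ≤ S.hi z → d z = S'.δ (f (S.δ z)) := by
    intro z hz
    by_cases h1 : S.lo z < m
    · have e := hv.2.2 z h1 hz
      rw [d1 z h1, e, hv.dual, hfv, hv'.dual]
    · exact d2 z h1
  have dlo : ∀ z, ¬ S.lo z < m → m ≤ S'.lo (d z) := by
    intro z hz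
    rw [d2 z hz]
    have h1 := hδ z hz
    have h2 := hlo _ h1
    have h3 : S'.hi (f (S.δ z)) < m := by
      by_contra hh
      have e := hv'.2.2 _ h2 (by omega)
      have e2 : S.δ z = v := hinj _ _ h1 hvlo (by rw [e, hfv])
      have e3 : z = v := by rw [← S.δ_swap e2, hv.dual]
      exact hz (by rw [e3]; exact hvlo)
    have h4 := S'.lo_δ (f (S.δ z))
    omega
  have ddual : ∀ z, d (S.δ z) = S'.δ (d z) := by
    intro z
    by_cases h1 : S.lo z < m
    · have h2 := S.hi_δ z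
      rw [d3 (S.δ z) (by omega), S.dinv, d1 z h1]
    · rw [d1 _ (hδ z h1), d2 z h1, S'.dinv]
  have dlow : ∀ i < m, ∀ z, d (S.ρ i z) = S'.ρ i (d z) := by
    intro i hi z
    by_cases h1 : S.lo z < m
    · obtain ⟨h2, h3⟩ := heq i hi z h1
      rw [d1 _ h2, d1 _ h1, h3]
    · have h2 := dlo z h1
      rw [S.fix_lo (by omega), S'.fix_lo (by omega)]
  have dinj : Function.Injective d := by
    intro z w e
    by_cases h1 : S.lo z < m <;> by_cases h2 : S.lo w < m
    · rw [d1 _ h1, d1 _ h2] at e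
      exact hinj _ _ h1 h2 e
    · have h3 := dlo w h2
      have h4 := hlo z h1
      rw [← e, d1 _ h1] at h3
      omega
    · have h3 := dlo z h1
      have h4 := hlo w h2
      rw [e, d1 _ h2] at h3
      omega
    · rw [d2 _ h1, d2 _ h2] at e
      exact S.δ_inj (hinj _ _ (hδ _ h1) (hδ _ h2) (S'.δ_inj e))
  refine ⟨Equiv.ofBijective d (Finite.injective_iff_bijective.1 dinj), fun i x => ?_⟩
  show d (S.ρ i x) = S'.ρ i (d x)
  by_cases h1 : i < m
  · exact dlow i h1 x
  by_cases h2 : i < 2 * m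
  · have e1 : S.ρ i x = S.δ (S.ρ (2 * m - 1 - i) (S.δ x)) := by
      rw [← S.ρ_δ h2, S.dinv]
    have e2 : S'.ρ i (d x) = S'.δ (S'.ρ (2 * m - 1 - i) (S'.δ (d x))) := by
      rw [← S'.ρ_δ h2, S'.dinv]
    rw [e1, e2, ddual, dlow _ (by omega), ddual]
  · rw [S.triv i (by omega), S'.triv i (by omega)]; rfl

theorem sig_le {ty i j : ℕ} {s : Bool} (hm : 5 ≤ m) (hi : i < m) (hj : j ≤ m) :
    (sig ty i (s, j)).2 ≤ m := by
  unfold sig
  split_ifs <;> simp only <;> omega

theorem Shape.iso {S' : SD Ω m} {v v' : Ω} {ty : ℕ} (hv : S.CV v) (hv' : S'.CV v')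
    (h : S.Shape v ty) (h' : S'.Shape v' ty) :
    ∃ d : Perm Ω, ∀ i x, d (S.ρ i x) = S'.ρ i (d x) := by
  classical
  obtain ⟨P, hP0, hPs, hPe⟩ := h
  obtain ⟨P', hP0', hPs', hPe'⟩ := h'
  obtain ⟨hlo, hinj⟩ := hv.param_bij hPs
  obtain ⟨hlo', hinj'⟩ := hv'.param_bij hPs'
  have hQ : ∀ z, ∃ p : Bool × ℕ, S.lo z < m → p.2 ≤ m ∧ P p = z := by
    intro z
    by_cases hz : S.lo z < m
    · obtain ⟨s, j, hj, e⟩ := hPs z hz
      exact ⟨(s, j), fun _ => ⟨hj, e⟩⟩
    · exact ⟨(false, 0), fun h => absurd h hz⟩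
  choose Q hQ using hQ
  have hQP : ∀ p : Bool × ℕ, p.2 ≤ m → Q (P p) = p := by
    intro p hp
    obtain ⟨h1, h2⟩ := hQ _ (hlo p hp)
    exact hinj _ _ h1 hp h2
  refine hv.extend hv' (f := fun z => P' (Q z)) ?_ ?_ ?_ ?_
  · intro z hz
    exact hlo' _ (hQ z hz).1
  · intro z w hz hw e
    have e2 := hinj' _ _ (hQ z hz).1 (hQ w hw).1 e
    rw [← (hQ z hz).2, ← (hQ w hw).2, e2]
  · show P' (Q v) = v'
    rw [← hP0, hQP (false, m) le_rfl, hP0']
  · intro i hi z hz
    obtain ⟨s, j, hj, rfl⟩ := hPs z hz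
    have hs : (sig ty i (s, j)).2 ≤ m := sig_le S.hm hi hj
    rw [hPe i hi s j hj]
    refine ⟨hlo _ hs, ?_⟩
    show P' (Q (P (sig ty i (s, j)))) = S'.ρ i (P' (Q (P (s, j))))
    rw [hQP _ hs, hQP (s, j) hj, hPe' i hi s j hj]

end SD

theorem card_types_aux (m : ℕ) (hm : 2 ≤ m) : (types m).card = (m + 3) / 2 := by
  induction m, hm using Nat.le_induction with
  | base => decide
  | succ n hn ih =>
    unfold types at ih ⊢
    rw [range_add_one, filter_insert]
    split_ifs with h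
    · rw [card_insert_of_notMem (by simp), ih]; omega
    · rw [ih]; omega

theorem card_types {m : ℕ} (hm : 5 ≤ m) : (types m).card = (4 * m + 3 + 9) / 8 := by
  rw [card_types_aux m (by omega)]; omega

end D145
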