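import Pool.Agent.MP_d145c0_al.H75.CVx
import Pool.Agent.MP_d145c0_al.H75.Lad
import Pool.Agent.MP_d145c0_al.H75.Shape

/-! Tight case: identification of the model. -/

namespace D145
open Equiv Finset
namespace SD
variable {Ω : Type} [Fintype Ω] [DecidableEq Ω] {m : ℕ} {S : SD Ω m} {v : Ω} {k τ : ℕ}
  {t s : ℕ → Ω}

namespace CVl2

theorem memY (hs : S.Tail2 k t s) {j : ℕ} (h1 : k < j) (h2 : j ≤ m) :
    s j ∈ S.Dp k t ∧ k ≤ S.lo (s j) := by
  have := S.mem_Yp.1 ((hs.1 (s j)).2 ⟨j, h1, h2, rfl⟩)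
  exact ⟨this.1, this.2.1⟩

theorem split (hT : S.Tight k τ t s) {z : Ω} (hz : z ∈ S.Dp k t) :
    S.lo z < k ∨ ∃ j, k < j ∧ j ≤ m ∧ z = s j := by
  by_cases h1 : S.lo z < k
  · exact .inl h1
  right
  refine (hT.1.1 z).1 (S.mem_Yp.2 ⟨hz, by omega, ?_⟩)
  by_contra h2
  have h3 := S.lo_le_hi z
  have : z ∈ S.Cp k := S.mem_Cp.2 ⟨by omega, by omega⟩
  rw [hT.2.1] at this
  simp at this

theorem card_list {D : Finset Ω} {j : ℕ} (L : List Ω) (hL : L.Nodup)
    (h : ∀ z, (z ∈ D ∧ S.ρ j z ≠ z) ↔ z ∈ L) :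
    (D.filter (fun z => S.ρ j z ≠ z)).card = L.length := by
  rw [← List.toFinset_card_of_nodup hL]
  have : D.filter (fun z => S.ρ j z ≠ z) = L.toFinset := by
    ext z; rw [mem_filter, List.mem_toFinset]; exact h z
  rw [this]

theorem hiS (hs : S.Tail2 k t s) {j : ℕ} (h1 : k < j) (h2 : j ≤ m) :
    (j < m ∧ S.hi (s j) = j) ∨ (j = m ∧ S.hi (s j) + 1 = m) := by
  rcases Nat.lt_or_ge j m with h | h
  · exact .inl ⟨h, (hs.2.1 j h1 h).1⟩
  · have : j = m := by omega
    subst this; exact .inr ⟨rfl, hs.2.2.1⟩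

theorem s_ne (hs : S.Tail2 k t s) {i j : ℕ} (h1 : k < i) (h2 : i < j) (h3 : j ≤ m) :
    s i ≠ s j := by
  intro e
  have a := hiS hs h1 (by omega : i ≤ m)
  have b := hiS hs (by omega : k < j) h3
  rw [e] at a
  have hi : i = m - 1 := by omega
  have hj : j = m := by omega
  subst hj
  exact hs.2.2.2 (by rw [← hi]; exact e)

theorem s_ne_t (hs : S.Tail2 k t s) {i j : ℕ} (h1 : k < i) (h2 : i ≤ m) (h3 : k < j)
    (h4 : j ≤ m) : s i ≠ t j := (S.mem_Dp.1 (memY hs h1 h2).1).2 j h3 h4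

theorem lo_u (ht : S.Tail v k t) (hu : S.lo (t k) < k) : S.lo (t k) + 1 = k := by
  have h1 := (ht.2.2.1 (k + 1) (by omega) (by have := ht.1; omega)).1
  have h2 := ht.2.2.2.1 k le_rfl (by have := ht.1; omega)
  have h3 := S.lo_step k (t k)
  rw [h2] at h3
  omega

theorem norm (ht : S.Tail v k t) (h : S.CV v) (hT : S.Tight k τ t s) (hu : S.lo (t k) < k) :
    τ = k + 1 ∧ ∃ s' : ℕ → Ω, S.Tight k (k + 1) t s' ∧ S.lo (s' (k + 1)) = k ∧
      S.lo (S.ρ k (s' (k + 1))) + 1 = k := by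
  have hτ : τ = k + 1 := by rw [← hT.2.2.2.2.2.1 _ hu]; exact ht.2.2.2.2.1
  subst hτ
  refine ⟨rfl, ?_⟩
  have hkm := ht.1
  have hs := hT.1
  have hne : ∀ z ∈ S.Yp k t, z ∈ S.Dp k t ∧ z ≠ t k := by
    intro z hz
    have := S.mem_Yp.1 hz
    refine ⟨this.1, ?_⟩
    rintro rfl; omega
  obtain ⟨i, hi, w, hw, hn⟩ : ∃ i < m, ∃ w ∈ S.Yp k t, S.ρ i w ∉ S.Yp k t := by
    by_contra hh
    push Not at hh
    exact ht.conn h (U := (S.Yp k t : Set Ω)) hne hh (s m)
      ((hs.1 (s m)).2 ⟨m, by omega, le_rfl, rfl⟩)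
  have hw' := S.mem_Yp.1 hw
  have hD : S.ρ i w ∈ S.Dp k t := ht.Dp_pres h hw'.1 (.inr (hne w hw).2)
  have hlo : S.lo (S.ρ i w) < k := by
    rcases split hT hD with h1 | h1
    · exact h1
    · exact absurd ((hs.1 _).2 h1) hn
  have h3 := S.lo_step i w
  have hik : i = k := by omega
  subst hik
  have h4 := S.hi_step i w
  have h5 := hT.2.2.2.2.2.1 _ hlo
  have h6 : S.hi w = i + 1 := by omega
  obtain ⟨j, j1, j2, rfl⟩ := (hs.1 w).1 hw
  rcases hiS hs j1 j2 with ⟨a, b⟩ | ⟨a, b⟩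
  · have : j = i + 1 := by omega
    subst this
    exact ⟨s, hT, by omega, by omega⟩
  · subst a
    have hm : j = i + 2 := by omega
    subst hm
    have e1 := hs.2.1 (i + 1) (by omega) (by omega)
    refine ⟨fun l => if l = i + 1 then s (i + 2) else s (i + 1), ⟨⟨?_, ?_, ?_, ?_⟩, hT.2⟩, ?_, ?_⟩
    · intro z
      rw [hs.1 z]
      constructor
      · rintro ⟨l, l1, l2, rfl⟩
        by_cases hl : l = i + 1
        · exact ⟨i + 2, by omega, le_rfl, by simp [hl]⟩
        · have : l = i + 2 := by omega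
          exact ⟨i + 1, by omega, by omega, by simp [this]⟩
      · rintro ⟨l, l1, l2, rfl⟩
        by_cases hl : l = i + 1
        · exact ⟨i + 2, by omega, le_rfl, by simp [hl]⟩
        · exact ⟨i + 1, by omega, by omega, by simp [hl]⟩
    · intro l l1 l2
      have : l = i + 1 := by omega
      subst this
      simp only [if_true, show i + 1 + 1 ≠ i + 1 by omega, if_false]
      exact ⟨h6, S.ρ_swap e1.2⟩
    · simp only [show i + 2 ≠ i + 1 by omega, if_false]
      omega
    · simp only [show i + 2 ≠ i + 1 by omega, show i + 2 - 1 = i + 1 by omega, if_true, if_false]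
      exact (s_ne hs (by omega) (by omega) le_rfl).symm
    · simp only [if_true]; omega
    · simp only [if_true]; omega

theorem u_ne_w (ht : S.Tail v k t) (hs : S.Tail2 k t s) : t k ≠ S.ρ k (s (k + 1)) := by
  intro e
  have hkm := ht.1
  have h2 := ht.2.2.2.1 k le_rfl (by omega)
  rw [e, S.inv] at h2
  exact s_ne_t hs (by omega) (by omega) (by omega) (by omega : k + 1 ≤ m) h2

theorem lad (hk : 2 ≤ k) (h4 : S.a 0 = 4) (hT : S.Tight k (k + 1) t s) :
    S.Lad (k - 1) (k + 1) := by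
  refine ⟨by omega, by omega, hT.2.2.2.1, h4, fun l h1 h2 => hT.2.2.2.2.1 l h1 (by omega), ?_⟩
  intro z hz
  have := S.mv_hi z
  rwa [hT.2.2.2.2.2.1 z (by omega)] at this

theorem lev_top (ht : S.Tail v k t) (hk : 2 ≤ k) (hT : S.Tight k (k + 1) t s)
    (hu : S.lo (t k) < k) (hw : S.lo (S.ρ k (s (k + 1))) + 1 = k) {z : Ω}
    (hz : S.lo z + 1 = k) : z = t k ∨ z = S.ρ k (s (k + 1)) := by
  have := lo_u ht hu
  exact two_pts (l := k - 1) (hT.2.2.2.2.1 _ (by omega) (by omega)) (by omega) (by omega)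
    (u_ne_w ht hT.1) (by omega)

theorem mv_low (hT : S.Tight k (k + 1) t s) {z : Ω} (hz : S.lo z < k) :
    S.ρ (k + 1) z ≠ z ∧ S.lo (S.ρ (k + 1) z) = S.lo z := by
  have := S.mv_hi z
  rw [hT.2.2.2.2.2.1 z hz] at this
  exact ⟨this, S.lo_far (by omega)⟩

theorem rung_top (ht : S.Tail v k t) (hk : 2 ≤ k) (hT : S.Tight k (k + 1) t s)
    (hu : S.lo (t k) < k) (hw : S.lo (S.ρ k (s (k + 1))) + 1 = k) :
    S.ρ (k + 1) (t k) = S.ρ k (s (k + 1)) := by
  have h1 := lo_u ht hu
  have h2 := mv_low hT hu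
  rcases lev_top ht hk hT hu hw (z := S.ρ (k + 1) (t k)) (by omega) with e | e
  · exact absurd e h2.1
  · exact e

theorem norung (ht : S.Tail v k t) (h : S.CV v) (hk : 2 ≤ k) (h4 : S.a 0 = 4)
    (hT : S.Tight k (k + 1) t s) (hu : S.lo (t k) < k) (hw0 : S.lo (s (k + 1)) = k)
    (hw : S.lo (S.ρ k (s (k + 1))) + 1 = k) {j : ℕ} (h1 : 2 ≤ j) (h2 : j ≤ k) :
    ∀ z, S.lo z + 2 ≤ j → S.ρ j z = z := by
  have hkm := ht.1
  refine (lad hk h4 hT).two_rung h (k := k) (by omega) ?_ h1 h2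
  intro z hz
  have r : S.R (Set.Ici k) v (t k) := ht.reach le_rfl (by omega) le_rfl
  rcases lev_top ht hk hT hu hw hz with rfl | rfl
  · refine ⟨?_, r⟩
    rw [ht.2.2.2.1 k le_rfl (by omega)]
    have := (ht.2.2.1 (k + 1) (by omega) (by omega)).1
    omega
  · refine ⟨by rw [S.inv]; exact hw0, ?_⟩
    exact r.step' (i := k + 1) (by simp) (rung_top ht hk hT hu hw)

theorem img (ht : S.Tail v k t) (h : S.CV v) (hT : S.Tight k (k + 1) t s)
    (hu : S.lo (t k) < k) {l : ℕ} (h1 : k < l) (h2 : l ≤ m) (i : ℕ) :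
    S.lo (S.ρ i (s l)) < k ∨ ∃ j, k < j ∧ j ≤ m ∧ S.ρ i (s l) = s j := by
  have := memY hT.1 h1 h2
  refine split hT (ht.Dp_pres h this.1 (.inr ?_))
  intro e; rw [e] at this; omega

theorem fix_top (ht : S.Tail v k t) (h : S.CV v) (hT : S.Tight k (k + 1) t s)
    (hu : S.lo (t k) < k) (hw : S.lo (S.ρ k (s (k + 1))) + 1 = k) :
    S.ρ (m - 2) (s m) = s m := by
  have hkm := ht.1
  have hm := S.hm
  have hs := hT.1
  have a1 := memY hs (by omega : k < m) le_rfl
  have a2 := hs.2.2.1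
  have a3 := S.lo_step (m - 2) (s m)
  have a4 := S.hi_step (m - 2) (s m)
  rcases img ht h hT hu (by omega : k < m) le_rfl (m - 2) with h1 | ⟨j, j1, j2, e⟩
  · exfalso
    have hk : k = m - 2 := by omega
    rw [← hk] at h1 a3
    rcases lev_top ht (by omega) hT hu hw (z := S.ρ k (s m)) (by omega) with e | e
    · have e2 := S.ρ_swap e
      rw [ht.2.2.2.1 k le_rfl (by omega)] at e2
      exact s_ne_t hs (by omega) le_rfl (by omega) (by omega) e2.symm
    · exact s_ne hs (by omega) (by omega : k + 1 < m) le_rfl (S.ρ_inj e).symm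
  · rw [e] at a4 ⊢
    rcases hiS hs j1 j2 with ⟨b1, b2⟩ | ⟨b1, b2⟩
    · exfalso
      have e2 := S.ρ_swap e
      by_cases hk : k = m - 2
      · have hj : j = k + 1 := by omega
        rw [← hk, hj] at e2
        rw [e2] at hw
        omega
      · have c := hs.2.1 (m - 2) (by omega) (by omega)
        have hj : j = m - 1 ∨ j = m - 2 := by omega
        rcases hj with rfl | rfl
        · have c2 := S.ρ_swap c.2
          rw [show m - 2 + 1 = m - 1 by omega, e2] at c2
          exact s_ne hs (by omega) (by omega : m - 2 < m) le_rfl c2.symm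
        · rw [c.2] at e2
          exact s_ne hs (by omega) (by omega : m - 2 + 1 < m) le_rfl e2
    · rw [b1]

theorem same_hi (ht : S.Tail v k t) (h : S.CV v) (hT : S.Tight k (k + 1) t s)
    (hu : S.lo (t k) < k) {l j : ℕ} (h1 : k + 1 < S.hi (s l)) (h0 : k < l) (h2 : l ≤ m)
    (h3 : j + 2 ≤ S.hi (s l)) :
    ∃ l', k < l' ∧ l' ≤ m ∧ S.ρ j (s l) = s l' ∧ S.hi (s l') = S.hi (s l) := by
  have a := S.hi_far h3
  rcases img ht h hT hu h0 h2 j with b | ⟨l', b1, b2, e⟩
  · have := hT.2.2.2.2.2.1 _ b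
    omega
  · exact ⟨l', b1, b2, e, by rw [← e, a]⟩

theorem fix_mid (ht : S.Tail v k t) (h : S.CV v) (hT : S.Tight k (k + 1) t s)
    (hu : S.lo (t k) < k) {l j : ℕ} (h1 : k + 2 ≤ l) (h2 : l + 2 ≤ m) (h3 : j + 2 ≤ l) :
    S.ρ j (s l) = s l := by
  have a := (hT.1.2.1 l (by omega) (by omega)).1
  obtain ⟨l', b1, b2, e, b3⟩ := same_hi ht h hT hu (l := l) (j := j) (by omega) (by omega)
    (by omega) (by omega)
  have c := hiS hT.1 b1 b2
  have : l' = l := by omega
  rw [e, this]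

theorem top_cases (ht : S.Tail v k t) (h : S.CV v) (hT : S.Tight k (k + 1) t s)
    (hu : S.lo (t k) < k) {j : ℕ} (h1 : k + 3 ≤ m) (h3 : j + 3 ≤ m) :
    (S.ρ j (s (m - 1)) = s (m - 1) ∧ S.ρ j (s m) = s m) ∨ S.ρ j (s (m - 1)) = s m := by
  have a := (hT.1.2.1 (m - 1) (by omega) (by omega)).1
  have a' := hT.1.2.2.1
  obtain ⟨l', b1, b2, e, b3⟩ := same_hi ht h hT hu (l := m - 1) (j := j) (by omega) (by omega)
    (by omega) (by omega)
  obtain ⟨l2, c1, c2, e2, c3⟩ := same_hi ht h hT hu (l := m) (j := j) (by omega) (by omega)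
    (by omega) (by omega)
  have d := hiS hT.1 b1 b2
  have d2 := hiS hT.1 c1 c2
  have f : l' = m - 1 ∨ l' = m := by omega
  have f2 : l2 = m - 1 ∨ l2 = m := by omega
  rcases f with rfl | f
  · rcases f2 with rfl | f2
    · exact .inr (S.ρ_swap e2)
    · exact .inl ⟨e, by rw [e2, f2]⟩
  · exact .inr (by rw [e, f])

theorem no_swap_k (ht : S.Tail v k t) (h : S.CV v) (h4 : S.a 0 = 4)
    (hT : S.Tight k (k + 1) t s) (hu : S.lo (t k) < k) (hw0 : S.lo (s (k + 1)) = k)
    (hw : S.lo (S.ρ k (s (k + 1))) + 1 = k) (hm : m = k + 3)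
    (e : S.ρ k (s (k + 2)) = s (k + 3)) : False := by
  have h5 := S.hm
  have hs := hT.1
  have lu := lo_u ht hu
  have m1 := memY hs (j := k + 1) (by omega) (by omega)
  have m2 := memY hs (j := k + 2) (by omega) (by omega)
  have m3 := memY hs (j := k + 3) (by omega) (by omega)
  have n12 := s_ne hs (i := k + 1) (j := k + 2) (by omega) (by omega) (by omega)
  have n13 := s_ne hs (i := k + 1) (j := k + 3) (by omega) (by omega) (by omega)
  have n23 := s_ne hs (i := k + 2) (j := k + 3) (by omega) (by omega) (by omega)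
  have nuw := u_ne_w ht hs
  have ne : ∀ x y : Ω, S.lo x < k → k ≤ S.lo y → x ≠ y := by
    intro x y a b c; rw [c] at a; omega
  have lw : S.lo (S.ρ k (s (k + 1))) < k := by omega
  have c := card_list (S := S) (D := S.Dp k t) (j := k)
    [t k, S.ρ k (s (k + 1)), s (k + 1), s (k + 2), s (k + 3)]
    (by simp [nuw, n12, n13, n23, ne _ _ hu m1.2, ne _ _ hu m2.2, ne _ _ hu m3.2,
      ne _ _ lw m1.2, ne _ _ lw m2.2, ne _ _ lw m3.2]) (by
      intro z
      simp only [List.mem_cons, List.not_mem_nil, or_false]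
      constructor
      · rintro ⟨z1, z2⟩
        rcases split hT z1 with a | ⟨l, l1, l2, rfl⟩
        · by_cases b : S.lo z + 1 = k
          · rcases lev_top ht (by omega) hT hu hw b with c | c
            · exact .inl c
            · exact .inr (.inl c)
          · exact absurd (norung ht h (by omega) h4 hT hu hw0 hw (by omega) le_rfl z
              (by omega)) z2
        · have : l = k + 1 ∨ l = k + 2 ∨ l = k + 3 := by omega
          rcases this with rfl | rfl | rfl <;> simp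
      · rintro (rfl | rfl | rfl | rfl | rfl)
        · refine ⟨ht.Dp_of_lo hu, ?_⟩
          rw [ht.2.2.2.1 k le_rfl (by omega)]
          exact ht.2.2.2.2.2.symm
        · refine ⟨ht.Dp_of_lo lw, ?_⟩
          rw [S.inv]
          exact (ne _ _ lw m1.2).symm
        · exact ⟨m1.1, ne _ _ lw m1.2⟩
        · exact ⟨m2.1, by rw [e]; exact n23.symm⟩
        · exact ⟨m3.1, by rw [S.ρ_swap e]; exact n23⟩)
  have := ht.odd_k h
  rw [c] at this
  simp at this

theorem no_swap_far (ht : S.Tail v k t) (h : S.CV v) (hT : S.Tight k (k + 1) t s) {j : ℕ}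
    (hj : k + 2 ≤ j) (hm : m = j + 3) (e : S.ρ j (s (j + 2)) = s (j + 3)) : False := by
  have hs := hT.1
  have m0 := memY hs (j := j) (by omega) (by omega)
  have m1 := memY hs (j := j + 1) (by omega) (by omega)
  have m2 := memY hs (j := j + 2) (by omega) (by omega)
  have m3 := memY hs (j := j + 3) (by omega) (by omega)
  have n01 := s_ne hs (i := j) (j := j + 1) (by omega) (by omega) (by omega)
  have n02 := s_ne hs (i := j) (j := j + 2) (by omega) (by omega) (by omega)
  have n03 := s_ne hs (i := j) (j := j + 3) (by omega) (by omega) (by omega)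
  have n12 := s_ne hs (i := j + 1) (j := j + 2) (by omega) (by omega) (by omega)
  have n13 := s_ne hs (i := j + 1) (j := j + 3) (by omega) (by omega) (by omega)
  have n23 := s_ne hs (i := j + 2) (j := j + 3) (by omega) (by omega) (by omega)
  have e0 := (hs.2.1 j (by omega) (by omega)).2
  have c := card_list (S := S) (D := S.Dp k t) (j := j)
    [s j, s (j + 1), s (j + 2), s (j + 3)]
    (by simp [n01, n02, n03, n12, n13, n23]) (by
      intro z
      simp only [List.mem_cons, List.not_mem_nil, or_false]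
      constructor
      · rintro ⟨z1, z2⟩
        have z3 := S.le_hi z2
        rcases split hT z1 with a | ⟨l, l1, l2, rfl⟩
        · have := hT.2.2.2.2.2.1 z a
          omega
        · have b := hiS hs l1 l2
          have : l = j ∨ l = j + 1 ∨ l = j + 2 ∨ l = j + 3 := by omega
          rcases this with rfl | rfl | rfl | rfl <;> simp
      · rintro (rfl | rfl | rfl | rfl)
        · exact ⟨m0.1, by rw [e0]; exact n01.symm⟩
        · exact ⟨m1.1, by rw [S.ρ_swap e0]; exact n01⟩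
        · exact ⟨m2.1, by rw [e]; exact n23.symm⟩
        · exact ⟨m3.1, by rw [S.ρ_swap e]; exact n23⟩)
  have := ht.odd h (j := j) (by omega) (by omega)
  rw [c] at this
  simp at this

theorem no_swap_g (ht : S.Tail v k t) (h : S.CV v) (hT : S.Tight k (k + 1) t s)
    (hm : m = k + 4) (e : S.ρ (k + 1) (s (k + 3)) = s (k + 4))
    (ftop : S.ρ (k + 2) (s (k + 4)) = s (k + 4)) : False := by
  have hs := hT.1
  have t1 := ht.2.2.1 (k + 1) (by omega) (by omega)
  have t2 := ht.2.2.1 (k + 2) (by omega) (by omega)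
  have t3 := ht.2.2.1 (k + 3) (by omega) (by omega)
  have t4 := ht.2.2.1 (k + 4) (by omega) (by omega)
  have e1 := ht.2.2.2.1 (k + 1) (by omega) (by omega)
  have e2 := ht.2.2.2.1 (k + 2) (by omega) (by omega)
  have e3 := ht.2.2.2.1 (k + 3) (by omega) (by omega)
  have s1 := hs.2.1 (k + 1) (by omega) (by omega)
  have s2 := hs.2.1 (k + 2) (by omega) (by omega)
  have s3 := hs.2.1 (k + 3) (by omega) (by omega)
  have ne : ∀ x y : Ω, S.lo x ≠ S.lo y → x ≠ y := by
    intro x y a c; rw [c] at a; exact a rfl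
  have f1 : S.ρ (k + 2) (s (k + 1)) = s (k + 1) := S.fix_hi (by omega)
  obtain ⟨p3, n13⟩ := path3 (a := S.ρ (k + 1)) (b := S.ρ (k + 2)) (S.inv _) (S.inv _)
    (x1 := t (k + 1)) (x2 := t (k + 2)) (x3 := t (k + 3)) e1 e2 (S.fix_hi (by omega))
    (S.fix_lo (by omega)) (ne _ _ (by omega)) (ne _ _ (by omega)) (by
      intro y y1 y2 y3
      simp only [pow_succ, pow_zero, one_mul, Perm.mul_apply]
      by_cases hy : k + 3 ≤ S.lo y
      · have a : S.ρ (k + 1) y = y := S.fix_lo (by omega)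
        have b : S.ρ (k + 2) y = y := S.fix_lo (by omega)
        simp only [a, b]
      · have hD : y ∈ S.Dp k t := by
          refine S.mem_Dp.2 ⟨by omega, ?_⟩
          intro l l1 l2 el
          have : l = k + 1 ∨ l = k + 2 ∨ l = k + 3 ∨ l = k + 4 := by omega
          rcases this with rfl | rfl | rfl | rfl
          · exact y1 el
          · exact y2 el
          · exact y3 el
          · rw [el] at hy; omega
        rcases split hT hD with a | ⟨l, l1, l2, rfl⟩
        · have b : S.ρ (k + 2) y = y :=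
            S.fix_hi (by have := hT.2.2.2.2.2.1 y a; omega)
          have c := (mv_low hT a).2
          have d : S.ρ (k + 2) (S.ρ (k + 1) y) = S.ρ (k + 1) y :=
            S.fix_hi (by have := hT.2.2.2.2.2.1 (S.ρ (k + 1) y) (by omega); omega)
          simp only [b, d, S.inv]
        · have a1 := s1.2
          have a2 := S.ρ_swap s1.2
          have a4 := S.ρ_swap e
          have b2 := s2.2
          have b3 := S.ρ_swap s2.2
          simp only [show k + 1 + 1 = k + 2 from rfl, show k + 2 + 1 = k + 3 from rfl] at a1 a2 b2 b3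
          have : l = k + 1 ∨ l = k + 2 ∨ l = k + 3 ∨ l = k + 4 := by omega
          rcases this with rfl | rfl | rfl | rfl <;>
            simp only [a1, a2, e, a4, f1, b2, b3, ftop])
  have p4 : AltIn (S.G (Set.Iic (k + 2 + 1))) {t (k + 1), t (k + 2), t (k + 3)} := by
    refine p3.mono ?_ subset_rfl
    rw [← S.G_pair (k + 1)]
    exact S.G_mono (fun i hi => by simp at hi ⊢; omega)
  obtain ⟨Δ, d1, d2, d3, dA, db⟩ := p4.cls (ne _ _ (by omega)) (ne _ _ (by omega)) n13
  have d4 : t (k + 4) ∈ Δ := by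
    have := db (S.ρ (k + 3)) (S.ρ_mem (by simp)) (t (k + 1)) d1
      (by rw [S.fix_hi (by omega)]; exact d1) (t (k + 3)) d3
    rwa [e3] at this
  obtain ⟨q, -⟩ := h.dk (j := k + 2) (by omega) dA d2 d3 d4 (ne _ _ (by omega))
    (ne _ _ (by omega)) (ne _ _ (by omega))
    (ht.reach (by omega) (by omega) le_rfl) (ht.reach (by omega) (by omega) (by omega))
    (ht.reach (by omega) (by omega) (by omega))
  have r := (d3p (S.inv _) (S.inv _) (ne _ _ (by omega)) (ne _ _ (by omega))
    (ne _ _ (by omega)) q (u1 := s (k + 2)) (u2 := s (k + 3)) (u3 := s (k + 4)) s2.2 s3.2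
    (S.fix_hi (by omega)) ftop (s_ne hs (by omega) (by omega) (by omega))
    (s_ne hs (by omega) (by omega) (by omega))).1
  rcases r with r | r | r
  · exact s_ne_t hs (by omega) (by omega) (by omega) (by omega) r
  · exact s_ne_t hs (by omega) (by omega) (by omega) (by omega) r
  · exact s_ne_t hs (by omega) (by omega) (by omega) (by omega) r

theorem fix_pair (ht : S.Tail v k t) (h : S.CV v) (h4 : S.a 0 = 4)
    (hT : S.Tight k (k + 1) t s) (hu : S.lo (t k) < k) (hw0 : S.lo (s (k + 1)) = k)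
    (hw : S.lo (S.ρ k (s (k + 1))) + 1 = k) {j : ℕ} (h1 : k ≤ j) (h3 : j + 3 ≤ m) :
    S.ρ j (s (m - 1)) = s (m - 1) ∧ S.ρ j (s m) = s m := by
  rcases top_cases ht h hT hu (j := j) (by omega) h3 with a | e
  · exact a
  exfalso
  have ft := fix_top ht h hT hu hw
  by_cases hj : j + 4 ≤ m
  · have a := (S.fix_comm (i := j) (j := m - 2) (by omega) (s (m - 1))).1 (by rw [e]; exact ft)
    have b := S.ρ_swap (hT.1.2.1 (m - 2) (by omega) (by omega)).2
    rw [show m - 2 + 1 = m - 1 by omega, a] at b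
    exact s_ne hT.1 (by omega) (by omega : m - 2 < m - 1) (by omega) b.symm
  have hm : m = j + 3 := by omega
  have e' : S.ρ j (s (j + 2)) = s (j + 3) := by
    rw [show j + 2 = m - 1 by omega, ← hm]; exact e
  rcases Nat.lt_or_ge j (k + 2) with a | a
  · have : j = k ∨ j = k + 1 := by omega
    rcases this with rfl | rfl
    · exact no_swap_k ht h h4 hT hu hw0 hw hm e'
    · refine no_swap_g ht h hT hm e' ?_
      rw [show k + 2 = m - 2 by omega, show k + 4 = m by omega]; exact ft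
  · exact no_swap_far ht h hT a hm e'

theorem lo_s (ht : S.Tail v k t) (h : S.CV v) (h4 : S.a 0 = 4)
    (hT : S.Tight k (k + 1) t s) (hu : S.lo (t k) < k) (hw0 : S.lo (s (k + 1)) = k)
    (hw : S.lo (S.ρ k (s (k + 1))) + 1 = k) {l : ℕ} (h1 : k < l) (h2 : l ≤ m) :
    S.lo (s l) + 1 = l := by
  by_cases hl : l = k + 1
  · rw [hl, hw0]
  obtain ⟨p, rfl⟩ : ∃ p, l = p + 1 := ⟨l - 1, by omega⟩
  have e := S.ρ_swap (hT.1.2.1 p (by omega) (by omega)).2
  have : S.lo (s (p + 1)) = p := by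
    refine S.lo_eq (by rw [e]; exact s_ne hT.1 (by omega) (by omega) h2) ?_
    intro j hj
    by_cases hjk : j < k
    · exact S.fix_lo (by have := (memY hT.1 h1 h2).2; omega)
    by_cases a : p + 1 + 2 ≤ m
    · exact fix_mid ht h hT hu (by omega) a (by omega)
    by_cases b : p + 1 = m
    · by_cases c : j + 3 ≤ m
      · rw [b]; exact (fix_pair ht h h4 hT hu hw0 hw (by omega) c).2
      · rw [b, show j = m - 2 by omega]; exact fix_top ht h hT hu hw
    · rw [show p + 1 = m - 1 by omega]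
      exact (fix_pair ht h h4 hT hu hw0 hw (by omega) (by omega)).1
  omega

theorem k_odd (ht : S.Tail v k t) (h : S.CV v) (hk : 2 ≤ k) (h4 : S.a 0 = 4)
    (hT : S.Tight k (k + 1) t s) (hl : ∀ j, k < j → j ≤ m → S.lo (s j) + 1 = j) :
    k % 2 = 1 := by
  have hkm := ht.1
  have hs := hT.1
  have c1 := (lad hk h4 hT).card (l := k - 1) le_rfl
  rw [show k - 1 + 1 = k by omega] at c1
  have m1 := memY hs (j := k + 1) (by omega) (by omega)
  have m2 := memY hs (j := k + 2) (by omega) (by omega)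
  have n12 := s_ne hs (i := k + 1) (j := k + 2) (by omega) (by omega) (by omega)
  have e1 := (hs.2.1 (k + 1) (by omega) (by omega)).2
  have : (S.Dp k t).filter (fun z => S.ρ (k + 1) z ≠ z) =
      insert (s (k + 1)) (insert (s (k + 2)) (S.A k)) := by
    ext z
    simp only [mem_filter, mem_insert, mem_A]
    constructor
    · rintro ⟨z1, z2⟩
      rcases split hT z1 with a | ⟨l, l1, l2, rfl⟩
      · exact .inr (.inr a)
      · have a := hl l l1 l2
        have b := S.lo_le z2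
        have : l = k + 1 ∨ l = k + 2 := by omega
        rcases this with rfl | rfl <;> simp
    · rintro (rfl | rfl | a)
      · exact ⟨m1.1, by rw [e1]; exact n12.symm⟩
      · exact ⟨m2.1, by rw [S.ρ_swap e1]; exact n12⟩
      · exact ⟨ht.Dp_of_lo a, (mv_low hT a).1⟩
  have o := ht.odd h (j := k + 1) (by omega) (by omega)
  rw [this, card_insert_of_notMem (by simp [n12]; omega),
    card_insert_of_notMem (by simp; omega), c1] at o
  omega

theorem second' (ht : S.Tail v k t) (h : S.CV v) (h4 : S.a 0 = 4)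
    (hT : S.Tight k τ t s) (hu : S.lo (t k) < k) :
    τ = k + 1 ∧ ∃ s' : ℕ → Ω, S.Tight k (k + 1) t s' ∧ S.lo (S.ρ k (s' (k + 1))) + 1 = k ∧
      (∀ j, k < j → j ≤ m → S.lo (s' j) + 1 = j) ∧
      (2 ≤ k → k % 2 = 1 ∧ ∀ j, 2 ≤ j → j ≤ k → ∀ z, S.lo z + 2 ≤ j → S.ρ j z = z) := by
  obtain ⟨e, s', a, b, c⟩ := norm ht h hT hu
  have d : ∀ j, k < j → j ≤ m → S.lo (s' j) + 1 = j := fun j h1 h2 => lo_s ht h h4 a hu b c h1 h2
  exact ⟨e, s', a, c, d, fun hk => ⟨k_odd ht h hk h4 a d,
    fun j h1 h2 => norung ht h hk h4 a hu b c h1 h2⟩⟩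

theorem shape_std {ty : ℕ} (hty : 2 ≤ ty) (F : Bool → ℕ → Ω) (hv : F false m = v)
    (surj : ∀ z, S.lo z < m → ∃ b j, j ≤ m ∧ F b j = z)
    (edge : ∀ b i, i < m → S.ρ i (F b i) = F b (i + 1))
    (rung : ∀ b j, j < ty → S.ρ ty (F b j) = F (!b) j)
    (fix : ∀ b i j, i < m → j ≤ m → j ≠ i → j ≠ i + 1 → ¬ (i = ty ∧ j < i) →
      S.ρ i (F b j) = F b j) : S.Shape v ty := by
  refine ⟨fun p => F p.1 p.2, hv, surj, ?_⟩
  intro i hi b j hj
  have hmax : max ty 2 = ty := max_eq_left hty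
  unfold sig
  rw [if_neg (by omega), hmax]
  simp only
  by_cases h1 : j = i
  · rw [if_pos h1, h1]; exact edge b i hi
  rw [if_neg h1]
  by_cases h2 : j = i + 1
  · rw [if_pos h2, h2]; exact S.ρ_swap (edge b i hi)
  rw [if_neg h2, if_neg (by omega)]
  by_cases h3 : i = ty ∧ j < i
  · rw [if_pos h3, h3.1]; exact rung b j (by omega)
  · rw [if_neg h3]; exact fix b i j hi hj h1 h2 h3

theorem exists_down (x : Ω) (k : ℕ) :
    ∃ q : ℕ → Ω, q k = x ∧ ∀ j < k, q j = S.ρ j (q (j + 1)) := by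
  let dn : ℕ → Ω := fun n => Nat.rec x (fun n y => S.ρ (k - 1 - n) y) n
  refine ⟨fun j => dn (k - j), by simp [dn], ?_⟩
  intro j hj
  have : k - j = (k - (j + 1)) + 1 := by omega
  simp only [this, dn]
  rw [show k - 1 - (k - (j + 1)) = j by omega]

theorem up_fix (ht : S.Tail v k t) (hs : S.Tail2 k t s)
    (hl : ∀ j, k < j → j ≤ m → S.lo (s j) + 1 = j) {i j : ℕ} (hi : i < m) (h1 : k < j)
    (h2 : j ≤ m) (n1 : j ≠ i) (n2 : j ≠ i + 1) :
    S.ρ i (t j) = t j ∧ S.ρ i (s j) = s j := by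
  have a := ht.2.2.1 j h1 h2
  have b := hl j h1 h2
  have c := hiS hs h1 h2
  by_cases hij : i < j
  · exact ⟨S.fix_lo (by omega), S.fix_lo (by omega)⟩
  · exact ⟨S.fix_hi (by omega), S.fix_hi (by omega)⟩

theorem half_split (hT : S.Tight k τ t s) {z : Ω} (hz : S.lo z < m) :
    S.lo z < k ∨ ∃ j, k < j ∧ j ≤ m ∧ (z = t j ∨ z = s j) := by
  by_cases a : ∃ j, k < j ∧ j ≤ m ∧ z = t j
  · obtain ⟨j, a1, a2, a3⟩ := a
    exact .inr ⟨j, a1, a2, .inl a3⟩
  · have : z ∈ S.Dp k t := S.mem_Dp.2 ⟨hz, fun j a1 a2 a3 => a ⟨j, a1, a2, a3⟩⟩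
    rcases split hT this with b | ⟨j, a1, a2, a3⟩
    · exact .inl b
    · exact .inr ⟨j, a1, a2, .inr a3⟩

theorem lo_zero {x : Ω} (hx : S.lo x = 0) : S.lo (S.ρ 0 x) = 0 ∧ S.ρ 0 x ≠ x := by
  have a := S.lo_step 0 x
  have b := S.mv_lo x
  rw [hx] at b
  exact ⟨by omega, b⟩

theorem big (ht : S.Tail v k t) (h : S.CV v) (hk : 2 ≤ k) (h4 : S.a 0 = 4)
    (hT : S.Tight k (k + 1) t s) (hu : S.lo (t k) < k)
    (hw : S.lo (S.ρ k (s (k + 1))) + 1 = k) (hl : ∀ j, k < j → j ≤ m → S.lo (s j) + 1 = j)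
    (hr : ∀ j, 2 ≤ j → j ≤ k → ∀ z, S.lo z + 2 ≤ j → S.ρ j z = z) : S.Shape v (k + 1) := by
  have hkm := ht.1
  have hs := hT.1
  obtain ⟨q, qk, qd⟩ := exists_down (S := S) (t k) k
  have lq : ∀ n j, j + n = k → 1 ≤ j → S.lo (q j) + 1 = j := by
    intro n
    induction n with
    | zero =>
      intro j a b
      have : j = k := by omega
      rw [this, qk]; exact lo_u ht hu
    | succ n ih =>
      intro j a b
      have c := ih (j + 1) (by omega) (by omega)
      rw [qd j (by omega)]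
      exact down_two b (hT.2.2.2.2.1 j b (by omega)) (by omega)
  have lq' : ∀ j, 1 ≤ j → j ≤ k → S.lo (q j) + 1 = j := fun j a b => lq (k - j) j (by omega) a
  have l1 : S.lo (q 1) = 0 := by have := lq' 1 le_rfl (by omega); omega
  have l2 : S.lo (q 2) = 1 := by have := lq' 2 (by omega) hk; omega
  have l0 : S.lo (q 0) = 0 := by rw [qd 0 (by omega)]; exact (lo_zero l1).1
  have lk : ∀ j ≤ k, S.lo (q j) < k := by
    intro j a
    rcases Nat.eq_zero_or_pos j with rfl | b
    · omega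
    · have := lq' j b a; omega
  have mv1 : S.ρ 1 (q 1) ≠ q 1 := by
    intro e
    have e2 := S.ρ_swap (qd 1 (by omega)).symm
    rw [e] at e2
    have : S.lo (q 1) = S.lo (q 2) := by rw [e2]
    omega
  have fx0 : S.ρ 1 (q 0) = q 0 := by
    obtain ⟨f, f', -, -, -, all, -, -, g1, g2, -⟩ := (lad hk h4 hT).base h
    rw [qd 0 (by omega)]
    rcases all (q 1) l1 with e | e | e | e
    · rw [e]; exact g1
    · rw [e] at mv1; exact absurd g1 mv1
    · rw [e]; exact g2
    · rw [e] at mv1; exact absurd g2 mv1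
  have c1 : ∀ x, S.ρ 1 (S.ρ (k + 1) x) = S.ρ (k + 1) x ↔ S.ρ 1 x = x :=
    fun x => S.fix_comm (by omega) x
  have fixq : ∀ i j, j ≤ k → j ≠ i → j ≠ i + 1 → i ≠ k + 1 →
      ∀ x, S.lo x = S.lo (q j) → (j = 0 → S.ρ 1 x = x) → S.ρ i x = x := by
    intro i j a n1 n2 n3 x hx h0
    have b := lk j a
    have c := hT.2.2.2.2.2.1 x (by omega)
    by_cases d : k + 1 < i
    · exact S.fix_hi (by omega)
    rcases Nat.eq_zero_or_pos j with rfl | e
    · by_cases f : i = 1
      · rw [f]; exact h0 rfl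
      · exact hr i (by omega) (by omega) x (by omega)
    · have f := lq' j e a
      by_cases g : i < j
      · exact S.fix_lo (by omega)
      · exact hr i (by omega) (by omega) x (by omega)
  refine shape_std (by omega) (fun b j => if k < j then (if b then s j else t j)
    else (if b then S.ρ (k + 1) (q j) else q j)) ?_ ?_ ?_ ?_ ?_
  · simp [show k < m by omega, ht.2.1]
  · intro z hz
    rcases half_split hT hz with a | ⟨j, a1, a2, a3 | a3⟩
    · rcases Nat.eq_zero_or_pos (S.lo z) with b | b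
      · have m0 := mv_low hT (lk 0 (by omega))
        have m1 := mv_low hT (lk 1 (by omega))
        have ne : ∀ x y, S.ρ 1 x = x → S.ρ 1 y ≠ y → x ≠ y := by
          intro x y a b c; rw [c] at a; exact b a
        have n1 := ne _ _ fx0 mv1
        have n2 := ne _ _ fx0 (fun e => mv1 ((c1 _).1 e))
        have n3 := ne _ _ ((c1 _).2 fx0) mv1
        have n4 := ne _ _ ((c1 _).2 fx0) (fun e => mv1 ((c1 _).1 e))
        have := mem_of_card (s := S.lev 0) (z := z)
          (L := [q 0, S.ρ (k + 1) (q 0), q 1, S.ρ (k + 1) (q 1)])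
          (by simp [n1, n2, n3, n4, m0.1.symm, m1.1.symm]) h4
          (by simp [l0, l1, m0.2, m1.2]) (by simpa using b)
        simp only [List.mem_cons, List.not_mem_nil, or_false] at this
        rcases this with rfl | rfl | rfl | rfl
        · exact ⟨false, 0, by omega, by simp⟩
        · exact ⟨true, 0, by omega, by simp⟩
        · exact ⟨false, 1, by omega, by simp [show ¬ k < 1 by omega]⟩
        · exact ⟨true, 1, by omega, by simp [show ¬ k < 1 by omega]⟩
      · have c := lq' (S.lo z + 1) (by omega) (by omega)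
        have d := mv_low hT (lk (S.lo z + 1) (by omega))
        rcases two_pts (l := S.lo z) (x := q (S.lo z + 1)) (y := S.ρ (k + 1) (q (S.lo z + 1)))
          (hT.2.2.2.2.1 _ b a) (by omega) (by omega) d.1.symm rfl with e | e
        · exact ⟨false, S.lo z + 1, by omega, by
            simp only [show ¬ k < S.lo z + 1 by omega, if_false]; simpa using e.symm⟩
        · exact ⟨true, S.lo z + 1, by omega, by
            simp only [show ¬ k < S.lo z + 1 by omega, if_false]; simpa using e.symm⟩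
    · exact ⟨false, j, a2, by simp [a1, a3]⟩
    · exact ⟨true, j, a2, by simp [a1, a3]⟩
  · intro b i hi
    rcases lt_trichotomy i k with a | a | a
    · have e := S.ρ_swap (qd i a).symm
      simp only [show ¬ k < i by omega, show ¬ k < i + 1 by omega, if_false]
      cases b
      · simpa using e
      · simp only [if_true]
        rw [S.comm i (k + 1) (by omega), e]
    · subst a
      simp only [lt_irrefl, Nat.lt_succ_self, if_true, if_false, qk]
      cases b
      · simpa using ht.2.2.2.1 i le_rfl hi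
      · simp only [if_true]
        rw [rung_top ht hk hT hu hw, S.inv]
    · simp only [a, show k < i + 1 by omega, if_true]
      cases b
      · simpa using ht.2.2.2.1 i a.le hi
      · simpa using (hs.2.1 i a hi).2
  · intro b j hj
    simp only [show ¬ k < j by omega, if_false]
    cases b <;> simp [S.inv]
  · intro b i j hi hj n1 n2 n3
    by_cases a : k < j
    · have := up_fix ht hs hl hi a hj n1 n2
      simp only [a, if_true]
      cases b
      · simpa using this.1
      · simpa using this.2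
    · simp only [a, if_false]
      cases b
      · simpa using fixq i j (by omega) n1 n2 (by omega) (q j) rfl (by rintro rfl; exact fx0)
      · simpa using fixq i j (by omega) n1 n2 (by omega) (S.ρ (k + 1) (q j))
          (mv_low hT (lk j (by omega))).2 (by rintro rfl; exact (c1 _).2 fx0)

/-- parametrisation of the half when the branching point has level `0` -/
def mkP (t s : ℕ → Ω) (a0 b0 b1 : Ω) (p : Bool × ℕ) : Ω :=
  if p.1 then (if p.2 = 0 then b0 else if p.2 = 1 then b1 else s p.2)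
  else (if p.2 = 0 then a0 else t p.2)

theorem small (ht : S.Tail v 1 t) (hT : S.Tight 1 2 t s)
    (hl : ∀ j, 1 < j → j ≤ m → S.lo (s j) + 1 = j) {ty : ℕ} (hty : ty ≤ 2) {a0 b0 b1 : Ω}
    (lu : S.lo (t 1) = 0) (la : S.lo a0 = 0) (lb0 : S.lo b0 = 0) (lb1 : S.lo b1 = 0)
    (all : ∀ z, S.lo z = 0 → z = t 1 ∨ z = a0 ∨ z = b0 ∨ z = b1)
    (tab : ∀ i < 3, ∀ b, ∀ j < 3,
      S.ρ i (mkP t s a0 b0 b1 (b, j)) = mkP t s a0 b0 b1 (sig ty i (b, j))) :
    S.Shape v ty := by
  have hm := S.hm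
  have hs := hT.1
  have hmax : max ty 2 = 2 := max_eq_right hty
  refine ⟨mkP t s a0 b0 b1, ?_, ?_, ?_⟩
  · simp [mkP, show m ≠ 0 by omega, ht.2.1]
  · intro z hz
    rcases half_split hT hz with a | ⟨j, a1, a2, a3 | a3⟩
    · rcases all z (by omega) with rfl | rfl | rfl | rfl
      · exact ⟨false, 1, by omega, by simp [mkP]⟩
      · exact ⟨false, 0, by omega, by simp [mkP]⟩
      · exact ⟨true, 0, by omega, by simp [mkP]⟩
      · exact ⟨true, 1, by omega, by simp [mkP]⟩
    · exact ⟨false, j, a2, by simp [mkP, a3, show j ≠ 0 by omega]⟩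
    · exact ⟨true, j, a2, by simp [mkP, a3, show j ≠ 0 by omega, show j ≠ 1 by omega]⟩
  · intro i hi b j hj
    by_cases c : i < 3 ∧ j < 3
    · exact tab i c.1 b j c.2
    have up : ∀ b j, 2 ≤ j → mkP t s a0 b0 b1 (b, j) = if b then s j else t j := by
      intro b j a
      cases b <;> simp [mkP, show j ≠ 0 by omega, show j ≠ 1 by omega]
    have edge : ∀ i, 2 ≤ i → i < m →
        S.ρ i (mkP t s a0 b0 b1 (b, i)) = mkP t s a0 b0 b1 (b, i + 1) := by
      intro i a1 a2
      rw [up b i a1, up b (i + 1) (by omega)]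
      cases b
      · simpa using ht.2.2.2.1 i (by omega) a2
      · simpa using (hs.2.1 i (by omega) a2).2
    by_cases h1 : j = i
    · have : sig ty i (b, j) = (b, i + 1) := by
        unfold sig; rw [if_neg (by omega), if_pos h1]
      rw [this, h1]; exact edge i (by omega) hi
    by_cases h2 : j = i + 1
    · have : sig ty i (b, j) = (b, i) := by
        unfold sig; rw [if_neg (by omega), if_neg h1, if_pos h2]
      rw [this, h2]; exact S.ρ_swap (edge i (by omega) hi)
    have : sig ty i (b, j) = (b, j) := by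
      unfold sig
      by_cases d : ty = 0 ∧ i = 1
      · rw [if_pos d]
        simp [show j ≠ 0 by omega, show j ≠ 1 by omega, show j ≠ 2 by omega]
      · rw [if_neg d, if_neg h1, if_neg h2, if_neg (by simp only; omega), hmax,
          if_neg (by simp only; omega)]
    rw [this]
    by_cases d : 2 ≤ j
    · rw [up b j d]
      have uf := up_fix ht hs hl hi (by omega : 1 < j) hj h1 h2
      clear this
      cases b
      · simpa using uf.1
      · simpa using uf.2
    · have fx : ∀ x, S.lo x = 0 → S.ρ i x = x := fun x hx =>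
        S.fix_hi (by have := hT.2.2.2.2.2.1 x (by omega); omega)
      apply fx
      have : j = 0 ∨ j = 1 := by omega
      rcases this with rfl | rfl <;> cases b <;> simp [mkP, lu, la, lb0, lb1]

theorem one (ht : S.Tail v 1 t) (h : S.CV v) (h4 : S.a 0 = 4)
    (hT : S.Tight 1 2 t s) (hu : S.lo (t 1) < 1)
    (hw : S.lo (S.ρ 1 (s 2)) + 1 = 1) (hl : ∀ j, 1 < j → j ≤ m → S.lo (s j) + 1 = j) :
    ∃ ty ∈ types m, S.Shape v ty := by
  have hm := S.hm
  have hs := hT.1
  have lu : S.lo (t 1) = 0 := by omega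
  have lw : S.lo (S.ρ 1 (s 2)) = 0 := by omega
  have two : ∀ x, S.lo x = 0 → S.ρ 2 x ≠ x ∧ S.lo (S.ρ 2 x) = 0 := by
    intro x hx
    have := mv_low (k := 1) hT (z := x) (by omega)
    exact ⟨this.1, by rw [← hx]; exact this.2⟩
  have c02 : ∀ x, S.ρ 2 (S.ρ 0 x) = S.ρ 0 (S.ρ 2 x) := fun x => (S.comm 0 2 le_rfl x).symm
  have l1 := lo_zero lu
  have l2 := two _ lu
  have l3 := lo_zero l2.2
  have all : ∀ z, S.lo z = 0 → z = t 1 ∨ z = S.ρ 0 (t 1) ∨ z = S.ρ 2 (t 1) ∨
      z = S.ρ 0 (S.ρ 2 (t 1)) := by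
    intro z hz
    refine (hT.2.2.2.2.2.2 (t 1) z hu (by omega)).ind
      (U := {z | S.lo z = 0 ∧ (z = t 1 ∨ z = S.ρ 0 (t 1) ∨ z = S.ρ 2 (t 1) ∨
        z = S.ρ 0 (S.ρ 2 (t 1)))}) ⟨lu, .inl rfl⟩ ?_ |>.2
    rintro i hi z ⟨z1, z2⟩
    have hi' : i = 0 ∨ i = 2 ∨ 2 < i := by
      simp only [PQ, Set.mem_ofPred_eq] at hi; omega
    rcases hi' with rfl | rfl | a
    · refine ⟨(lo_zero z1).1, ?_⟩
      rcases z2 with rfl | rfl | rfl | rfl <;> simp [S.inv]
    · refine ⟨(two z z1).2, ?_⟩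
      rcases z2 with rfl | rfl | rfl | rfl <;> simp [S.inv, c02]
    · have fz : S.ρ i z = z := S.fix_hi (by have := hT.2.2.2.2.2.1 z (by omega); omega)
      rw [fz]
      exact ⟨z1, z2⟩
  have n12 : S.ρ 0 (t 1) ≠ S.ρ 2 (t 1) := by
    intro e
    have : S.lev 0 ⊆ {t 1, S.ρ 0 (t 1)} := by
      intro z hz
      rcases all z (by simpa using hz) with rfl | rfl | rfl | rfl <;> simp [← e, S.inv]
    have a := card_le_card this
    have b : ({t 1, S.ρ 0 (t 1)} : Finset Ω).card ≤ 2 := card_le_two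
    have c : (S.lev 0).card = 4 := h4
    omega
  have n03 : S.ρ 0 (S.ρ 2 (t 1)) ≠ t 1 := fun e => n12 (S.ρ_swap e)
  have n13 : S.ρ 0 (S.ρ 2 (t 1)) ≠ S.ρ 0 (t 1) := fun e => l2.1 (S.ρ_inj e)
  have eu : S.ρ 1 (t 1) = t 2 := ht.2.2.2.1 1 le_rfl (by omega)
  have lt2 : S.lo (t 2) = 1 := by have := (ht.2.2.1 2 (by omega) (by omega)).1; omega
  have ls2 : S.lo (s 2) = 1 := by have := hl 2 (by omega) (by omega); omega
  have nuw : t 1 ≠ S.ρ 1 (s 2) := u_ne_w ht hs
  have mvd : ∀ z ∈ S.Dp 1 t, S.ρ 1 z ≠ z → S.lo z = 0 ∨ z = s 2 := by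
    intro z z1 z2
    rcases split hT z1 with a | ⟨l, a1, a2, rfl⟩
    · left; omega
    · have b := hl l a1 a2
      have c := S.lo_le z2
      right; rw [show l = 2 by omega]
  have ne : ∀ x y : Ω, S.lo x = 0 → S.lo y = 1 → x ≠ y := by
    intro x y a b c; rw [c] at a; omega
  have fx : ∀ x, S.lo x = 0 → x ≠ t 1 → x ≠ S.ρ 1 (s 2) → S.ρ 1 x = x := by
    intro x hx x1 x2
    by_contra x3
    have d1 : x ∈ S.Dp 1 t := ht.Dp_of_lo (by omega)
    have d2 : S.ρ 1 x ∈ S.Dp 1 t := ht.Dp_pres h d1 (.inr x1)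
    have ly : S.lo (S.ρ 1 x) = 0 := by
      rcases mvd _ d2 (by rw [Ne, S.fix_self]; exact x3) with a | a
      · exact a
      · exact absurd (S.ρ_swap a).symm x2
    have y1 : S.ρ 1 x ≠ t 1 := fun e => ne _ _ hx lt2 (by rw [← eu, S.ρ_swap e])
    have y2 : S.ρ 1 x ≠ S.ρ 1 (s 2) := fun e => ne _ _ hx ls2 (S.ρ_inj e)
    have c := card_list (S := S) (D := S.Dp 1 t) (j := 1)
      [t 1, S.ρ 1 (s 2), x, S.ρ 1 x, s 2]
      (by simp only [List.nodup_cons, List.mem_cons, List.not_mem_nil, or_false, not_or,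
            not_false_eq_true, List.nodup_nil, and_true]
          exact ⟨⟨nuw, x1.symm, y1.symm, ne _ _ lu ls2⟩, ⟨x2.symm, y2.symm, ne _ _ lw ls2⟩,
            ⟨Ne.symm x3, ne _ _ hx ls2⟩, ne _ _ ly ls2⟩) (by
        intro z
        simp only [List.mem_cons, List.not_mem_nil, or_false]
        constructor
        · rintro ⟨z1, z2⟩
          rcases mvd z z1 z2 with a | a
          · have := mem_of_card (s := S.lev 0) (z := z)
              (L := [t 1, S.ρ 1 (s 2), x, S.ρ 1 x])
              (by simp only [List.nodup_cons, List.mem_cons, List.not_mem_nil, or_false, not_or,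
                    not_false_eq_true, List.nodup_nil, and_true]
                  exact ⟨⟨nuw, x1.symm, y1.symm⟩, ⟨x2.symm, y2.symm⟩, Ne.symm x3⟩) h4
              (by simp [lu, lw, hx, ly]) (by simpa using a)
            simp only [List.mem_cons, List.not_mem_nil, or_false] at this
            tauto
          · tauto
        · rintro (rfl | rfl | rfl | rfl | rfl)
          · exact ⟨ht.Dp_of_lo hu, by rw [eu]; exact (ne _ _ lu lt2).symm⟩
          · exact ⟨ht.Dp_of_lo (by omega), by rw [S.inv]; exact (ne _ _ lw ls2).symm⟩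
          · exact ⟨d1, x3⟩
          · exact ⟨d2, by rw [Ne, S.fix_self]; exact x3⟩
          · exact ⟨(memY hs (by omega) (by omega)).1, ne _ _ lw ls2⟩)
    have := ht.odd_k h
    rw [c] at this
    simp at this
  have f0t : S.ρ 0 (t 2) = t 2 := S.fix_lo (by omega)
  have f0s : S.ρ 0 (s 2) = s 2 := S.fix_lo (by omega)
  have e2t : S.ρ 2 (t 2) = t 3 := ht.2.2.2.1 2 (by omega) (by omega)
  have e2s : S.ρ 2 (s 2) = s 3 := (hs.2.1 2 (by omega) (by omega)).2
  have eu' := S.ρ_swap eu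
  rcases all _ lw with e | e | e | e
  · exact absurd e.symm nuw
  · have g1 := fx _ l2.2 l2.1 (by rw [e]; exact n12.symm)
    have g2 := fx _ l3.1 n03 (by rw [e]; exact n13)
    have e' := S.ρ_swap e
    refine ⟨0, by simp [types]; omega, small ht hT hl (by omega) (a0 := S.ρ 0 (t 1))
      (b0 := S.ρ 0 (S.ρ 2 (t 1))) (b1 := S.ρ 2 (t 1)) lu l1.1 l3.1 l2.2
      (fun z hz => by have := all z hz; tauto) ?_⟩
    intro i hi b j hj
    interval_cases i <;> interval_cases j <;> cases b <;>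
      simp [mkP, sig, S.inv, c02, f0t, f0s, e2t, e2s, eu, eu', e, e', g1, g2]
  · have g1 := fx _ l1.1 l1.2 (by rw [e]; exact n12)
    have g2 := fx _ l3.1 n03 (by rw [e]; exact l3.2)
    have e' := S.ρ_swap e
    refine ⟨2, by simp [types]; omega, small ht hT hl (by omega) (a0 := S.ρ 0 (t 1))
      (b0 := S.ρ 0 (S.ρ 2 (t 1))) (b1 := S.ρ 2 (t 1)) lu l1.1 l3.1 l2.2
      (fun z hz => by have := all z hz; tauto) ?_⟩
    intro i hi b j hj
    interval_cases i <;> interval_cases j <;> cases b <;>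
      simp [mkP, sig, S.inv, c02, f0t, f0s, e2t, e2s, eu, eu', e, e', g1, g2]
  · have g1 := fx _ l1.1 l1.2 (by rw [e]; exact n13.symm)
    have g2 := fx _ l2.2 l2.1 (by rw [e]; exact l3.2.symm)
    have e' := S.ρ_swap e
    refine ⟨1, by simp [types]; omega, small ht hT hl (by omega) (a0 := S.ρ 0 (t 1))
      (b0 := S.ρ 2 (t 1)) (b1 := S.ρ 0 (S.ρ 2 (t 1))) lu l1.1 l2.2 l3.1
      (fun z hz => by have := all z hz; tauto) ?_⟩
    intro i hi b j hj
    interval_cases i <;> interval_cases j <;> cases b <;>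
      simp [mkP, sig, S.inv, c02, f0t, f0s, e2t, e2s, eu, eu', e, e', g1, g2]

end CVl2

/-- the second tail hangs on the low levels and carries no further edges -/
theorem Tail.second (ht : S.Tail v k t) (h : S.CV v) (hk : 1 ≤ k) (h4 : S.a 0 = 4)
    (hT : S.Tight k τ t s) (hu : S.lo (t k) < k) :
    τ = k + 1 ∧ ∃ s' : ℕ → Ω, S.Tail2 k t s' ∧ S.lo (S.ρ k (s' (k + 1))) + 1 = k ∧
      (∀ j, k < j → j ≤ m → S.lo (s' j) + 1 = j) ∧
      (2 ≤ k → k % 2 = 1 ∧ ∀ j, 2 ≤ j → j ≤ k → ∀ z, S.lo z + 2 ≤ j → S.ρ j z = z) := by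
  have _ := hk
  obtain ⟨e, s', a, b⟩ := CVl2.second' ht h h4 hT hu
  exact ⟨e, s', a.1, b⟩

theorem Tail.cvl2 (ht : S.Tail v k t) (h : S.CV v) (hk : 1 ≤ k) (h4 : S.a 0 = 4)
    (hT : S.Tight k τ t s) (hu : S.lo (t k) < k) : ∃ ty ∈ types m, S.Shape v ty := by
  obtain ⟨-, s', a, b, c, d⟩ := CVl2.second' ht h h4 hT hu
  rcases Nat.lt_or_ge k 2 with h2 | h2
  · have : k = 1 := by omega
    subst this
    exact CVl2.one ht h h4 a hu b c
  · obtain ⟨d1, d2⟩ := d h2
    have := ht.1
    exact ⟨k + 1, by simp [types]; omega, CVl2.big ht h h2 h4 a hu b c d2⟩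

end SD
end D145
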