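import Pool.Agent.MP_d145c0_al.H75.Tri

/-! Paths on five and seven points. -/

namespace D145
open Equiv Finset
variable {Ω : Type} [Fintype Ω] [DecidableEq Ω]

/-- a cycle and an element that moves exactly one point of it -/
theorem cyc_one {H : Subgroup (Perm Ω)} {σ g h : Perm Ω} (σH : σ ∈ H) (gH : g ∈ H) (hH : h ∈ H)
    {P : Set Ω} (ho : ∀ y, y ∉ P → σ y = y) {y0 : Ω} (h0 : σ y0 ≠ y0)
    (hP : ∀ Δ : Set Ω, (∀ w ∈ Δ, σ w ∈ Δ) → y0 ∈ Δ → P ⊆ Δ) (g0 : g (h y0) ≠ h y0)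
    (g1 : ∀ y ∈ P, y ≠ y0 → g (h y) = h y) : AltIn H P := by
  have e : ∀ y, (h⁻¹ * g * h) y = y ↔ g (h y) = h y := fun y => by
    rw [Perm.mul_apply, Perm.mul_apply, Perm.inv_eq_iff_eq]
  have k0 : (h⁻¹ * g * h) y0 ≠ y0 := fun x => g0 ((e y0).1 x)
  obtain ⟨t1, t2⟩ := tri_comm σH (H.mul_mem (H.mul_mem (H.inv_mem hH) gH) hH) h0 k0
    fun y hy => by
      by_cases hp : y ∈ P
      · exact Or.inr ((e y).2 (g1 y hp hy))
      · exact Or.inl (ho y hp)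
  obtain ⟨Δ, d1, d2, -, d4, d5⟩ := t1.cls h0.symm t2 k0.symm
  exact d4.mono le_rfl (hP Δ (d5 σ σH y0 d1 d2) d1)

omit [Fintype Ω] [DecidableEq Ω] in
theorem pow36_off {r : Perm Ω} {y : Ω} (h : (r ^ 12) y = y) : (r ^ 36) y = y := by
  rw [show 36 = 12 * 3 from rfl, pow_mul]
  exact Perm.pow_apply_eq_self_of_apply_eq_self h 3

omit [Fintype Ω] [DecidableEq Ω] in
theorem pow36_five {r : Perm Ω} {y : Ω} (h : r (r (r (r (r y)))) = y) : (r ^ 36) y = r y := by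
  have h1 : (r ^ 5) y = y := by simpa [pow_succ] using h
  rw [show 36 = 5 * 7 + 1 from rfl, pow_succ', pow_mul, Perm.mul_apply,
    Perm.pow_apply_eq_self_of_apply_eq_self h1 7]

omit [Fintype Ω] [DecidableEq Ω] in
theorem pow36_seven {r : Perm Ω} {y : Ω} (h : r (r (r (r (r (r (r y)))))) = y) :
    (r ^ 36) y = r y := by
  have h1 : (r ^ 7) y = y := by simpa [pow_succ] using h
  rw [show 36 = 7 * 5 + 1 from rfl, pow_succ', pow_mul, Perm.mul_apply,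
    Perm.pow_apply_eq_self_of_apply_eq_self h1 5]

omit [Fintype Ω] [DecidableEq Ω] in
theorem pow_cyc {σ : Perm Ω} {d : ZMod 7 → Ω} (hσ : ∀ k, σ (d k) = d (k + 1)) (n : ℕ)
    (k : ZMod 7) : (σ ^ n) (d k) = d (k + n) := by
  induction n with
  | zero => simp
  | succ n ih => rw [pow_succ', Perm.mul_apply, ih, hσ, Nat.cast_succ, add_assoc]

/-- a cycle of length seven and an involution that moves two consecutive points out of it -/
theorem seven {H : Subgroup (Perm Ω)} {σ g : Perm Ω} (σH : σ ∈ H) (gH : g ∈ H)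
    (hg : ∀ x, g (g x) = x) {d : ZMod 7 → Ω}
    (hσ : ∀ k, σ (d k) = d (k + 1)) (ho : ∀ y, y ∉ Set.range d → σ y = y)
    (g0 : g (d 0) ∉ Set.range d) (g1 : g (d 1) ∉ Set.range d)
    (g2 : ∀ k, k ≠ 0 → k ≠ 1 → g (d k) = d k) : AltIn H (Set.range d) := by
  obtain ⟨A, hA⟩ : ∃ A, A = g (d 0) := ⟨_, rfl⟩
  obtain ⟨B, hB⟩ : ∃ B, B = g (d 1) := ⟨_, rfl⟩
  rw [← hA] at g0
  rw [← hB] at g1
  have sA := ho A g0
  have sB := ho B g1
  have gA : g A = d 0 := by rw [hA, hg]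
  have gB : g B = d 1 := by rw [hB, hg]
  obtain ⟨κ, κH, hκ⟩ : ∃ κ ∈ H, ∀ x, κ (σ x) = g (σ (g x)) :=
    ⟨g * σ * g * σ⁻¹, H.mul_mem (H.mul_mem (H.mul_mem gH σH) gH) (H.inv_mem σH),
      fun x => by simp⟩
  have kA : κ A = B := by
    have := hκ A
    rwa [sA, gA, hσ, zero_add, ← hB] at this
  have kB : κ B = d 2 := by
    have := hκ B
    rwa [sB, gB, hσ, g2 _ (by decide) (by decide)] at this
  have k2 : κ (d 2) = d 1 := by
    have := hκ (d 1)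
    rwa [hσ, ← hB, sB, gB] at this
  have kd : ∀ k, k ≠ 0 → k ≠ 1 → k ≠ 2 → κ (d k) = d k := fun k h0 h1 h2 => by
    have := hκ (d (k - 1))
    have z : ∀ k : ZMod 7, k ≠ 1 → k ≠ 2 → k - 1 ≠ 0 ∧ k - 1 ≠ 1 := by decide
    rwa [g2 (k - 1) (z k h1 h2).1 (z k h1 h2).2, hσ, sub_add_cancel, g2 k h0 h1] at this
  have ko : ∀ y, y ∉ Set.range d → y ≠ A → y ≠ B → κ y = y := fun y hy yA yB => by
    have h1 : g y ∉ Set.range d := by
      rintro ⟨k, hk⟩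
      have h2 : y = g (d k) := by rw [hk, hg]
      by_cases e0 : k = 0
      · exact yA (by rw [h2, e0, hA])
      · by_cases e1 : k = 1
        · exact yB (by rw [h2, e1, hB])
        · exact hy ⟨k, by rw [h2, g2 k e0 e1]⟩
    have := hκ y
    rwa [ho y hy, ho _ h1, hg] at this
  have hK : ∀ j : ℕ, ∃ K ∈ H, K A = B ∧ K B = d (2 + j) ∧ K (d (2 + j)) = d (1 + j) ∧
      ∀ k, k ≠ 0 → k ≠ 1 → k ≠ 2 → K (d (k + j)) = d (k + j) := fun j => by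
    have e : ∀ x, (σ ^ j * κ * (σ ^ j)⁻¹) ((σ ^ j) x) = (σ ^ j) (κ x) := fun x => by simp
    have pA := Perm.pow_apply_eq_self_of_apply_eq_self sA j
    have pB := Perm.pow_apply_eq_self_of_apply_eq_self sB j
    refine ⟨σ ^ j * κ * (σ ^ j)⁻¹,
      H.mul_mem (H.mul_mem (H.pow_mem σH j) κH) (H.inv_mem (H.pow_mem σH j)), ?_, ?_, ?_,
      fun k h0 h1 h2 => ?_⟩
    · have := e A
      rwa [pA, kA, pB] at this
    · have := e B
      rwa [pB, kB, pow_cyc hσ] at this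
    · have := e (d 2)
      rwa [k2, pow_cyc hσ, pow_cyc hσ] at this
    · have := e (d k)
      rwa [kd k h0 h1 h2, pow_cyc hσ] at this
  obtain ⟨K3, K3H, a1, a2, -, a4⟩ := hK 3
  obtain ⟨K4, K4H, b1, -, b3, b4⟩ := hK 4
  have e : ∀ y z, (K4⁻¹ * K3) y = z ↔ K3 y = K4 z := fun y z => by
    rw [Perm.mul_apply, Perm.inv_eq_iff_eq]
  have uB : (K4⁻¹ * K3) B = d 6 := (e _ _).2 (a2.trans b3.symm)
  have nB : ∀ k, d k ≠ B := fun k h => g1 ⟨k, h⟩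
  obtain ⟨t1, t2⟩ := tri_comm κH (H.mul_mem (H.inv_mem K4H) K3H) (x := B)
    (by rw [kB]; exact nB 2) (by rw [uB]; exact nB 6) fun y hy => by
      by_cases hp : y ∈ Set.range d
      · obtain ⟨k, rfl⟩ := hp
        by_cases hk : k = 0 ∨ k = 1 ∨ k = 2
        · refine Or.inr ((e _ _).2 ?_)
          have z : ∀ k : ZMod 7, k = 0 ∨ k = 1 ∨ k = 2 → (k - 3 ≠ 0 ∧ k - 3 ≠ 1 ∧ k - 3 ≠ 2) ∧
              k - 4 ≠ 0 ∧ k - 4 ≠ 1 ∧ k - 4 ≠ 2 := by decide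
          obtain ⟨⟨z1, z2, z3⟩, z4, z5, z6⟩ := z k hk
          have c3 := a4 (k - 3) z1 z2 z3
          have c4 := b4 (k - 4) z4 z5 z6
          rw [Nat.cast_ofNat, sub_add_cancel] at c3 c4
          rw [c3, c4]
        · rw [not_or, not_or] at hk
          exact Or.inl (kd k hk.1 hk.2.1 hk.2.2)
      · by_cases yA : y = A
        · exact Or.inr ((e _ _).2 (by rw [yA, a1, b1]))
        · exact Or.inl (ko y hp yA hy)
  rw [kB, uB] at t1 t2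
  obtain ⟨Δ, d1, d2, -, d4, d5⟩ := t1.cls (nB 2).symm t2 (nB 6).symm
  have d6 : d 1 ∈ Δ := k2 ▸ d5 κ κH B d1 (kB ▸ d2) _ d2
  have d7 := d5 σ σH _ d6 (by rw [hσ]; exact d2)
  have d8 : ∀ n : ℕ, d (1 + n) ∈ Δ := fun n => by
    induction n with
    | zero => simpa using d6
    | succ n ih =>
      have := d7 _ ih
      rwa [hσ, add_assoc, ← Nat.cast_succ] at this
  refine d4.mono le_rfl ?_
  rintro _ ⟨k, rfl⟩
  simpa using d8 (k - 1).val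

omit [Fintype Ω] [DecidableEq Ω] in
/-- the cycle of a path on seven points -/
theorem path7_cyc {a b : Perm Ω} (ha : ∀ x, a (a x) = x) (hb : ∀ x, b (b x) = x)
    {x1 x2 x3 x4 x5 x6 x7 : Ω}
    (e1 : a x1 = x2) (e2 : b x2 = x3) (e3 : a x3 = x4) (e4 : b x4 = x5) (e5 : a x5 = x6)
    (e6 : b x6 = x7) (f1 : b x1 = x1) (f7 : a x7 = x7)
    (n12 : x1 ≠ x2) (n23 : x2 ≠ x3) (n34 : x3 ≠ x4) (n45 : x4 ≠ x5) (n56 : x5 ≠ x6)
    (n67 : x6 ≠ x7) :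
    (x1 ≠ x3 ∧ x1 ≠ x4 ∧ x2 ≠ x4) ∧ ∃ c : ZMod 7 → Ω, Function.Injective c ∧
      (∀ k, ((a * b) ^ 36) (c k) = c (k + 1)) ∧
      Set.range c = {x1, x2, x3, x4, x5, x6, x7} := by
  have i1 : a x2 = x1 := by rw [← e1, ha]
  have i2 : b x3 = x2 := by rw [← e2, hb]
  have i3 : a x4 = x3 := by rw [← e3, ha]
  have i4 : b x5 = x4 := by rw [← e4, hb]
  have i5 : a x6 = x5 := by rw [← e5, ha]
  have i6 : b x7 = x6 := by rw [← e6, hb]
  have n13 : x1 ≠ x3 := by grind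
  have n14 : x1 ≠ x4 := by grind
  have n24 : x2 ≠ x4 := by grind
  have r1 : (a * b) x1 = x2 := by rw [Perm.mul_apply, f1, e1]
  have r2 : (a * b) x2 = x4 := by rw [Perm.mul_apply, e2, e3]
  have r4 : (a * b) x4 = x6 := by rw [Perm.mul_apply, e4, e5]
  have r6 : (a * b) x6 = x7 := by rw [Perm.mul_apply, e6, f7]
  have r7 : (a * b) x7 = x5 := by rw [Perm.mul_apply, i6, i5]
  have r5 : (a * b) x5 = x3 := by rw [Perm.mul_apply, i4, i3]
  have r3 : (a * b) x3 = x1 := by rw [Perm.mul_apply, i2, i1]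
  have hN : [x1, x2, x4, x6, x7, x5, x3].Nodup := by
    simp only [List.nodup_cons, List.mem_cons, List.not_mem_nil, List.nodup_nil, not_or]
    grind (splits := 40)
  let c : Fin 7 → Ω := ![x1, x2, x4, x6, x7, x5, x3]
  have hc : List.ofFn c = [x1, x2, x4, x6, x7, x5, x3] := rfl
  refine ⟨⟨n13, n14, n24⟩, c, List.nodup_ofFn.1 (hc ▸ hN), fun k => ?_, ?_⟩
  · generalize a * b = r at *
    fin_cases k
    · exact (pow36_seven (y := x1) (by rw [r1, r2, r4, r6, r7, r5, r3])).trans r1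
    · exact (pow36_seven (y := x2) (by rw [r2, r4, r6, r7, r5, r3, r1])).trans r2
    · exact (pow36_seven (y := x4) (by rw [r4, r6, r7, r5, r3, r1, r2])).trans r4
    · exact (pow36_seven (y := x6) (by rw [r6, r7, r5, r3, r1, r2, r4])).trans r6
    · exact (pow36_seven (y := x7) (by rw [r7, r5, r3, r1, r2, r4, r6])).trans r7
    · exact (pow36_seven (y := x5) (by rw [r5, r3, r1, r2, r4, r6, r7])).trans r5
    · exact (pow36_seven (y := x3) (by rw [r3, r1, r2, r4, r6, r7, r5])).trans r3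
  · ext y
    have : y ∈ Set.range c ↔ y ∈ List.ofFn c := by rw [List.mem_ofFn']
    refine this.trans ?_
    rw [hc]
    simp only [List.mem_cons, List.not_mem_nil, Set.mem_insert_iff, Set.mem_singleton_iff]
    tauto

/-- path on five points; after conjugation by `h`, `g` moves exactly one point -/
theorem path5 {H : Subgroup (Perm Ω)} {a b g h : Perm Ω} (aH : a ∈ H) (bH : b ∈ H) (gH : g ∈ H)
    (hH : h ∈ H) (ha : ∀ x, a (a x) = x) (hb : ∀ x, b (b x) = x) {x1 x2 x3 x4 x5 : Ω}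
    (e1 : a x1 = x2) (e2 : b x2 = x3) (e3 : a x3 = x4) (e4 : b x4 = x5)
    (f1 : b x1 = x1) (f5 : a x5 = x5)
    (n12 : x1 ≠ x2) (n23 : x2 ≠ x3) (n34 : x3 ≠ x4) (n45 : x4 ≠ x5)
    (ho : ∀ y, y ∉ ({x1, x2, x3, x4, x5} : Set Ω) → ((a * b) ^ 12) y = y)
    {y0 : Ω} (hy0 : y0 ∈ ({x1, x2, x3, x4, x5} : Set Ω)) (g0 : g (h y0) ≠ h y0)
    (g1 : ∀ y ∈ ({x1, x2, x3, x4, x5} : Set Ω), y ≠ y0 → g (h y) = h y) :
    AltIn H {x1, x2, x3, x4, x5} ∧ x1 ≠ x3 ∧ x1 ≠ x4 ∧ x2 ≠ x4 := by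
  have i1 : a x2 = x1 := by rw [← e1, ha]
  have i2 : b x3 = x2 := by rw [← e2, hb]
  have i3 : a x4 = x3 := by rw [← e3, ha]
  have i4 : b x5 = x4 := by rw [← e4, hb]
  have n13 : x1 ≠ x3 := by grind
  have n14 : x1 ≠ x4 := by grind
  have n24 : x2 ≠ x4 := by grind
  have n35 : x3 ≠ x5 := by grind
  have r1 : (a * b) x1 = x2 := by rw [Perm.mul_apply, f1, e1]
  have r2 : (a * b) x2 = x4 := by rw [Perm.mul_apply, e2, e3]
  have r4 : (a * b) x4 = x5 := by rw [Perm.mul_apply, e4, f5]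
  have r5 : (a * b) x5 = x3 := by rw [Perm.mul_apply, i4, i3]
  have r3 : (a * b) x3 = x1 := by rw [Perm.mul_apply, i2, i1]
  have rH := H.mul_mem aH bH
  generalize a * b = r at *
  have s1 := (pow36_five (y := x1) (by rw [r1, r2, r4, r5, r3])).trans r1
  have s2 := (pow36_five (y := x2) (by rw [r2, r4, r5, r3, r1])).trans r2
  have s4 := (pow36_five (y := x4) (by rw [r4, r5, r3, r1, r2])).trans r4
  have s5 := (pow36_five (y := x5) (by rw [r5, r3, r1, r2, r4])).trans r5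
  have s3 := (pow36_five (y := x3) (by rw [r3, r1, r2, r4, r5])).trans r3
  refine ⟨cyc_one (H.pow_mem rH 36) gH hH (fun y hy => pow36_off (ho y hy)) ?_
    (fun Δ hΔ h0 => ?_) g0 g1, n13, n14, n24⟩
  · simp only [Set.mem_insert_iff, Set.mem_singleton_iff] at hy0
    grind
  · have t1 := s1 ▸ hΔ x1
    have t2 := s2 ▸ hΔ x2
    have t3 := s3 ▸ hΔ x3
    have t4 := s4 ▸ hΔ x4
    have t5 := s5 ▸ hΔ x5
    intro y hy
    simp only [Set.mem_insert_iff, Set.mem_singleton_iff] at hy0 hy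
    grind

/-- path on seven points; after conjugation by `h`, `g` moves exactly one point -/
theorem path7 {H : Subgroup (Perm Ω)} {a b g h : Perm Ω} (aH : a ∈ H) (bH : b ∈ H) (gH : g ∈ H)
    (hH : h ∈ H) (ha : ∀ x, a (a x) = x) (hb : ∀ x, b (b x) = x) {x1 x2 x3 x4 x5 x6 x7 : Ω}
    (e1 : a x1 = x2) (e2 : b x2 = x3) (e3 : a x3 = x4) (e4 : b x4 = x5) (e5 : a x5 = x6)
    (e6 : b x6 = x7) (f1 : b x1 = x1) (f7 : a x7 = x7)
    (n12 : x1 ≠ x2) (n23 : x2 ≠ x3) (n34 : x3 ≠ x4) (n45 : x4 ≠ x5) (n56 : x5 ≠ x6)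
    (n67 : x6 ≠ x7)
    (ho : ∀ y, y ∉ ({x1, x2, x3, x4, x5, x6, x7} : Set Ω) → ((a * b) ^ 12) y = y)
    {y0 : Ω} (hy0 : y0 ∈ ({x1, x2, x3, x4, x5, x6, x7} : Set Ω)) (g0 : g (h y0) ≠ h y0)
    (g1 : ∀ y ∈ ({x1, x2, x3, x4, x5, x6, x7} : Set Ω), y ≠ y0 → g (h y) = h y) :
    AltIn H {x1, x2, x3, x4, x5, x6, x7} ∧ x1 ≠ x3 ∧ x1 ≠ x4 ∧ x2 ≠ x4 := by
  obtain ⟨hn, c, hc, hσ, hr⟩ := path7_cyc ha hb e1 e2 e3 e4 e5 e6 f1 f7 n12 n23 n34 n45 n56 n67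
  rw [← hr] at hy0 g1 ho ⊢
  obtain ⟨i, rfl⟩ := hy0
  refine ⟨cyc_one (H.pow_mem (H.mul_mem aH bH) 36) gH hH (fun y hy => pow36_off (ho y hy)) ?_
    (fun Δ hΔ h0 => ?_) g0 g1, hn⟩
  · rw [hσ]
    have z : ∀ i : ZMod 7, i + 1 ≠ i := by decide
    exact fun e => z i (hc e)
  · have d8 : ∀ n : ℕ, c (i + n) ∈ Δ := fun n => by
      induction n with
      | zero => simpa using h0
      | succ n ih =>
        have := hΔ _ ih
        rwa [hσ, add_assoc, ← Nat.cast_succ] at this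
    rintro _ ⟨k, rfl⟩
    simpa using d8 (k - i).val

/-- path on seven points; the involution `g` moves exactly two points, both out of the path -/
theorem path7two {H : Subgroup (Perm Ω)} {a b g : Perm Ω} (aH : a ∈ H) (bH : b ∈ H) (gH : g ∈ H)
    (ha : ∀ x, a (a x) = x) (hb : ∀ x, b (b x) = x) (hg : ∀ x, g (g x) = x)
    {x1 x2 x3 x4 x5 x6 x7 : Ω}
    (e1 : a x1 = x2) (e2 : b x2 = x3) (e3 : a x3 = x4) (e4 : b x4 = x5) (e5 : a x5 = x6)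
    (e6 : b x6 = x7) (f1 : b x1 = x1) (f7 : a x7 = x7)
    (n12 : x1 ≠ x2) (n23 : x2 ≠ x3) (n34 : x3 ≠ x4) (n45 : x4 ≠ x5) (n56 : x5 ≠ x6)
    (n67 : x6 ≠ x7)
    (ho : ∀ y, y ∉ ({x1, x2, x3, x4, x5, x6, x7} : Set Ω) → ((a * b) ^ 12) y = y)
    {y0 y1 : Ω} (hy0 : y0 ∈ ({x1, x2, x3, x4, x5, x6, x7} : Set Ω))
    (hy1 : y1 ∈ ({x1, x2, x3, x4, x5, x6, x7} : Set Ω)) (hne : y0 ≠ y1)
    (g0 : g y0 ∉ ({x1, x2, x3, x4, x5, x6, x7} : Set Ω))
    (g0' : g y1 ∉ ({x1, x2, x3, x4, x5, x6, x7} : Set Ω))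
    (g1 : ∀ y ∈ ({x1, x2, x3, x4, x5, x6, x7} : Set Ω), y ≠ y0 → y ≠ y1 → g y = y) :
    AltIn H {x1, x2, x3, x4, x5, x6, x7} ∧ x1 ≠ x3 ∧ x1 ≠ x4 ∧ x2 ≠ x4 := by
  obtain ⟨hn, c, hc, hσ, hr⟩ := path7_cyc ha hb e1 e2 e3 e4 e5 e6 f1 f7 n12 n23 n34 n45 n56 n67
  rw [← hr] at hy0 hy1 g0 g0' g1 ho ⊢
  obtain ⟨i, rfl⟩ := hy0
  obtain ⟨j, rfl⟩ := hy1
  have hij : i ≠ j := fun e => hne (by rw [e])
  have hb : ∀ i j : ZMod 7, i ≠ j → Function.Bijective fun k : ZMod 7 => i + k * (j - i) := by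
    decide
  have hd := hb i j hij
  have hrd : Set.range (c ∘ fun k : ZMod 7 => i + k * (j - i)) = Set.range c :=
    hd.2.range_comp c
  have d0 : (c ∘ fun k : ZMod 7 => i + k * (j - i)) 0 = c i := by simp
  have d1 : (c ∘ fun k : ZMod 7 => i + k * (j - i)) 1 = c j := by simp
  refine ⟨hrd ▸ seven (σ := ((a * b) ^ 36) ^ (j - i).val)
    (H.pow_mem (H.pow_mem (H.mul_mem aH bH) 36) _) gH hg (fun k => ?_)
    (fun y hy => ?_) (by rwa [hrd, d0]) (by rwa [hrd, d1]) fun k h0 h1 => ?_, hn⟩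
  · rw [Function.comp_apply, Function.comp_apply, pow_cyc hσ, ZMod.natCast_zmod_val]
    congr 1
    ring
  · exact Perm.pow_apply_eq_self_of_apply_eq_self (pow36_off (ho y (hrd ▸ hy))) _
  · exact g1 _ ⟨_, rfl⟩ (fun e => h0 ((hc.comp hd.1) (e.trans d0.symm)))
      fun e => h1 ((hc.comp hd.1) (e.trans d1.symm))

end D145
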