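import Pool.Agent.MP_d145c0_al.H75.CV0
import Pool.Agent.MP_d145c0_al.H75.Cyc

/-! Cut vertex, `Yp` empty: reduction to one orbit containing the level `0`. -/

namespace D145
open Equiv Finset
namespace SD
variable {Ω : Type} [Fintype Ω] [DecidableEq Ω] {m : ℕ} {S : SD Ω m} {v : Ω} {k : ℕ} {t : ℕ → Ω}

omit [Fintype Ω] in
theorem y1_len {s : Finset Ω} {L : List Ω} (hL : L.Nodup) (hs : ∀ x ∈ L, x ∈ s) :
    L.length ≤ s.card := by
  rw [← List.toFinset_card_of_nodup hL]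
  exact card_le_card (fun x hx => hs x (List.mem_toFinset.1 hx))

omit [Fintype Ω] in
theorem y1_mem {s : Finset Ω} {L : List Ω} (hL : L.Nodup) (hc : s.card ≤ L.length)
    (hs : ∀ x ∈ L, x ∈ s) {z : Ω} (hz : z ∈ s) : z ∈ L := by
  by_contra hn
  have := y1_len (s := s) (L := z :: L) (List.nodup_cons.2 ⟨hn, hL⟩) (by
    intro x hx
    rcases List.mem_cons.1 hx with rfl | hx
    exacts [hz, hs x hx])
  simp at this; omega

/-- the hypotheses of this file, with `k = b + 1` -/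
structure Y1 (S : SD Ω m) (v : Ω) (b : ℕ) (t : ℕ → Ω) : Prop where
  ht : S.Tail v (b + 1) t
  h : S.CV v
  h4 : S.a 0 = 4
  h2 : ∀ i, 1 ≤ i → i + 3 ≤ m → 2 ≤ S.a i
  hY : S.Yp (b + 1) t = ∅

/-- total cost of the orbits -/
noncomputable def y1SO (S : SD Ω m) (b : ℕ) : ℕ :=
  ∑ O ∈ S.Orbs b (b + 2), (1 + 2 * S.kO O + S.exc O)

variable {b : ℕ} {O O' : Finset Ω}

theorem y1_SO1 (hO : O ∈ S.Orbs b (b + 2)) : 1 + 2 * S.kO O + S.exc O ≤ y1SO S b :=
  single_le_sum (f := fun O => 1 + 2 * S.kO O + S.exc O) (fun _ _ => Nat.zero_le _) hO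

theorem y1_SO2 (hO : O ∈ S.Orbs b (b + 2)) (hO' : O' ∈ S.Orbs b (b + 2)) (hn : O ≠ O') :
    2 + 2 * S.kO O + S.exc O + 2 * S.kO O' + S.exc O' ≤ y1SO S b := by
  have h1 : ({O, O'} : Finset (Finset Ω)) ⊆ S.Orbs b (b + 2) := by
    intro x hx; simp only [mem_insert, mem_singleton] at hx; rcases hx with rfl | rfl
    exacts [hO, hO']
  have h2 := sum_le_sum_of_subset (f := fun O => 1 + 2 * S.kO O + S.exc O) h1
  rw [sum_pair hn] at h2
  unfold y1SO; omega

theorem y1_SOK : 2 * ∑ O ∈ S.Orbs b (b + 2), S.kO O ≤ y1SO S b := by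
  rw [mul_sum]; exact sum_le_sum (fun _ _ => by omega)

theorem y1_aX {l : ℕ} {L : List Ω} (hL : L.Nodup) (hs : ∀ x ∈ L, S.lo x = l ∧ S.hi x < b + 2) :
    L.length ≤ S.aX (b + 2) l :=
  y1_len hL (fun x hx => S.mem_levX.2 (hs x hx))

theorem y1_OI {l : ℕ} (hO : O ∈ S.Orbs b (b + 2)) (h1 : S.pl O < l) (h2 : l ≤ S.ql O) :
    1 ≤ (S.OI b (b + 2) l).card := card_pos.2 ⟨O, S.mem_OI.2 ⟨hO, h1, h2⟩⟩

theorem y1_OP {l : ℕ} (hO : O ∈ S.Orbs b (b + 2)) (h1 : S.pl O = l) :
    1 ≤ (S.OP b (b + 2) l).card := card_pos.2 ⟨O, S.mem_OP.2 ⟨hO, h1⟩⟩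

/-- low labels keep the points not moved by high labels -/
theorem y1_X {z : Ω} (h1 : S.lo z ≤ b) (h2 : S.hi z < b + 2) {i : ℕ} (hi : i ≤ b) :
    S.lo (S.ρ i z) ≤ b ∧ S.hi (S.ρ i z) < b + 2 := by
  have := S.lo_step i z
  have := S.hi_step i z
  omega

theorem y1_lo0 (z : Ω) : S.lo (S.ρ 0 z) = S.lo z := by have := S.lo_step 0 z; omega

theorem y1_mv {l : ℕ} {z : Ω} (hz : S.lo z = l) : S.ρ l z ≠ z := hz ▸ S.mv_lo z

namespace Y1

theorem cls (H : Y1 S v b t) {z : Ω} (hz : z ∈ S.Dp (b + 1) t) :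
    S.lo z ≤ b ∨ (S.lo z = b + 1 ∧ S.hi z = b + 1) := by
  have h1 : z ∉ S.Yp (b + 1) t := by rw [H.hY]; simp
  rw [mem_Yp] at h1
  have := S.lo_le_hi z
  by_contra hh
  exact h1 ⟨hz, by omega, by omega⟩

theorem dp (H : Y1 S v b t) {z : Ω} (hz : S.lo z ≤ b) : z ∈ S.Dp (b + 1) t :=
  H.ht.Dp_of_lo (by omega)

theorem u_edge (H : Y1 S v b t) : S.ρ (b + 1) (t (b + 1)) = t (b + 2) :=
  H.ht.2.2.2.1 (b + 1) le_rfl (by have := H.ht.1; omega)

theorem t_lo (H : Y1 S v b t) : S.lo (t (b + 2)) = b + 1 := by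
  have := (H.ht.2.2.1 (b + 2) (by omega) (by have := H.ht.1; omega)).1; omega

theorem u_hi (H : Y1 S v b t) : S.hi (t (b + 1)) = b + 2 := H.ht.2.2.2.2.1

theorem u_lo (H : Y1 S v b t) : S.lo (t (b + 1)) = b := by
  have h1 := H.cls (H.ht.mem_Dp H.h)
  have h2 := H.u_hi
  have h3 := S.lo_step (b + 1) (t (b + 1))
  rw [H.u_edge, H.t_lo] at h3
  omega

theorem m_le (H : Y1 S v b t) : m ≤ b + 4 := by
  by_contra hh
  have h1 := H.h2 (b + 2) (by omega) (by omega)
  have h2 : S.lev (b + 2) ⊆ {t (b + 3)} := by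
    intro z hz
    rw [mem_lev] at hz
    rw [mem_singleton]
    by_contra hn
    have : z ∈ S.Dp (b + 1) t := by
      rw [mem_Dp]
      refine ⟨by omega, fun j j1 j2 e => hn ?_⟩
      have := (H.ht.2.2.1 j j1 j2).1
      rw [← e] at this
      rw [e]; congr 1; omega
    have := H.cls this
    omega
  have := card_le_card h2
  unfold a at h1
  simp at this; omega

theorem bud (H : Y1 S v b t) {L : Finset ℕ} (hL : L ⊆ Icc 1 b) :
    ∑ l ∈ L, S.gam b (b + 2) l + S.gam b (b + 2) 0 + (S.Cp (b + 1)).card + y1SO S b + b ≤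
      m + 3 + 2 * L.card := by
  have h1 := H.ht.budget H.h (by omega)
  rw [H.hY, Nat.add_sub_cancel] at h1
  have h2 : range (b + 1) = insert 0 (Icc 1 b) := by ext i; simp; omega
  rw [h2, sum_insert (by simp)] at h1
  have h3 := sum_excess (s := Icc 1 b) (f := S.gam b (b + 2)) (fun i hi => by
    rw [mem_Icc] at hi
    exact S.gam_two le_rfl hi.1 hi.2 (H.h2 i hi.1 (by have := H.ht.1; omega))) hL
  rw [Nat.card_Icc] at h3
  simp only [card_empty] at h1
  have h4 : y1SO S b = ∑ O ∈ S.Orbs b (b + 1 + 1), (1 + 2 * S.kO O + S.exc O) := rfl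
  have h5 : S.gam b (b + 1 + 1) = S.gam b (b + 2) := rfl
  rw [← h4, h5] at h1
  omega

theorem bud0 (H : Y1 S v b t) :
    S.gam b (b + 2) 0 + (S.Cp (b + 1)).card + y1SO S b + b ≤ m + 3 := by
  simpa using H.bud (L := ∅) (by simp)

theorem bud1 (H : Y1 S v b t) {l : ℕ} (h1 : 1 ≤ l) (h2 : l ≤ b) :
    S.gam b (b + 2) l + S.gam b (b + 2) 0 + (S.Cp (b + 1)).card + y1SO S b + b ≤ m + 5 := by
  simpa using H.bud (L := {l}) (by simp; omega)

theorem bud2 (H : Y1 S v b t) {l l' : ℕ} (h1 : 1 ≤ l) (h2 : l < l') (h3 : l' ≤ b) :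
    S.gam b (b + 2) l + S.gam b (b + 2) l' + S.gam b (b + 2) 0 + (S.Cp (b + 1)).card +
      y1SO S b + b ≤ m + 7 := by
  have := H.bud (L := {l, l'}) (by
    intro i hi; simp only [mem_insert, mem_singleton] at hi; rw [mem_Icc]; omega)
  rwa [sum_pair h2.ne, card_pair h2.ne] at this

theorem u_orb (H : Y1 S v b t) : ∃ O ∈ S.Orbs b (b + 2), t (b + 1) ∈ O :=
  S.exists_orb H.u_lo.le H.u_hi.ge

/-- the three possibilities for the level `0` -/
theorem lev0 (H : Y1 S v b t) :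
    (∀ z, S.lo z = 0 → S.hi z < b + 2) ∨ (∃ O ∈ S.Orbs b (b + 2), ∀ z, S.lo z = 0 → z ∈ O) ∨
    ∃ f g O, O ∈ S.Orbs b (b + 2) ∧ f ∈ O ∧ S.lo f = 0 ∧
      S.lo g = 0 ∧ g ≠ f ∧ g ≠ S.ρ 0 f ∧ S.ρ 0 g ≠ f ∧ S.ρ 0 g ≠ S.ρ 0 f ∧
      ¬ S.R (Set.Ici 1) v g ∧ S.R (Set.Ici 1) v (S.ρ 0 g) ∧
      (∀ z, S.lo z = 0 → z = f ∨ z = S.ρ 0 f ∨ z = g ∨ z = S.ρ 0 g) ∧
      ∀ j, 2 ≤ j → S.ρ j g = g ∧ S.ρ j (S.ρ 0 g) = S.ρ 0 g ∧
        (S.ρ j f = f ∨ S.ρ j f = S.ρ 0 f) := by
  by_cases h0 : ∀ z, S.lo z = 0 → S.hi z < b + 2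
  · exact .inl h0
  right
  push Not at h0
  obtain ⟨f, f0, f1⟩ := h0
  obtain ⟨O, hO, fO⟩ := S.exists_orb (b := b) (by omega) f1
  have hm := S.hm
  by_cases e : S.ρ (S.hi f) f = S.ρ 0 f
  · right
    obtain ⟨g, hg⟩ := d0 (H.h.gp (j := 1) (by omega)) H.h4 f0
      ((S.R_refl _ f).step' (i := S.hi f) (by simp; omega) e)
    exact ⟨f, g, O, hO, fO, f0, hg⟩
  · left
    refine ⟨O, hO, fun z hz => ?_⟩
    obtain ⟨f2, hf2⟩ : ∃ f2, S.ρ (S.hi f) f = f2 := ⟨_, rfl⟩
    have n1 : f2 ≠ f := hf2 ▸ S.mv_hi f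
    have l2 : S.lo f2 = 0 := by rw [← hf2, S.lo_far (by omega), f0]
    have o2 : f2 ∈ O := hf2 ▸ S.Orbs_ρ hO fO (.inr f1)
    rw [hf2] at e
    have nd : [f, S.ρ 0 f, f2, S.ρ 0 f2].Nodup := by
      have n2 : f ≠ S.ρ 0 f := (y1_mv f0).symm
      have n3 : f ≠ S.ρ 0 f2 := fun h => e (by rw [h, S.inv])
      have n5 : f2 ≠ S.ρ 0 f2 := (y1_mv l2).symm
      simp [n1.symm, n2, n3, Ne.symm e, n5]
    have := y1_mem (s := S.lev 0) nd (le_of_eq H.h4) (by simp [y1_lo0, f0, l2])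
      (S.mem_lev.2 hz)
    simp only [List.mem_cons, List.not_mem_nil, or_false] at this
    rcases this with rfl | rfl | rfl | rfl
    exacts [fO, S.Orbs_ρ hO fO (.inl (by omega)), o2, S.Orbs_ρ hO o2 (.inl (by omega))]

theorem gam0_a (H : Y1 S v b t) (h0 : ∀ z, S.lo z = 0 → S.hi z < b + 2) :
    4 ≤ S.gam b (b + 2) 0 := by
  have : S.lev 0 ⊆ S.levX (b + 2) 0 := fun z hz =>
    S.mem_levX.2 ⟨S.mem_lev.1 hz, h0 z (S.mem_lev.1 hz)⟩
  have h1 := card_le_card this
  have h2 := H.h4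
  unfold a at h2
  unfold gam aX; omega

theorem gam0_ii {f g : Ω} (hO : O ∈ S.Orbs b (b + 2)) (fO : f ∈ O) (f0 : S.lo f = 0)
    (g0 : S.lo g = 0) (hj : ∀ j, 2 ≤ j → S.ρ j g = g ∧ S.ρ j (S.ρ 0 g) = S.ρ 0 g ∧
        (S.ρ j f = f ∨ S.ρ j f = S.ρ 0 f)) :
    S.hi g ≤ 1 ∧ S.hi (S.ρ 0 g) ≤ 1 ∧ S.pl O = 0 ∧ 3 ≤ S.gam b (b + 2) 0 := by
  have h1 : S.hi g ≤ 1 := S.hi_le (fun j hj' => (hj j hj').1)
  have h2 : S.hi (S.ρ 0 g) ≤ 1 := S.hi_le (fun j hj' => (hj j hj').2.1)
  have h3 : S.pl O = 0 := by have := S.pl_le fO; omega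
  refine ⟨h1, h2, h3, ?_⟩
  have h4 := y1_aX (S := S) (b := b) (l := 0) (L := [g, S.ρ 0 g])
    (by simpa using (y1_mv g0).symm) (by simp [y1_lo0, g0]; omega)
  have h5 := y1_OP hO h3
  simp only [List.length_cons, List.length_nil] at h4
  unfold gam; omega

/-- the case `k = m - 3` is impossible -/
theorem mu2 (H : Y1 S v b t) (hm : m = b + 4) : False := by
  have hm5 := S.hm
  have hC : 1 ≤ (S.Cp (b + 1)).card := by
    have h1 := H.h2 (b + 1) (by omega) (by omega)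
    obtain ⟨z, hz, hn⟩ := exists_mem_ne (s := S.lev (b + 1)) h1 (t (b + 2))
    rw [mem_lev] at hz
    have : z ∈ S.Dp (b + 1) t := by
      rw [mem_Dp]
      refine ⟨by omega, fun j j1 j2 e => hn ?_⟩
      have := (H.ht.2.2.1 j j1 j2).1
      rw [← e] at this
      rw [e]; congr 1; omega
    have := H.cls this
    exact card_pos.2 ⟨z, S.mem_Cp.2 (by omega)⟩
  have hK := (H.ht.Y_card H.h (by omega)).2 H.hY
  rw [Nat.add_sub_cancel] at hK
  obtain ⟨O1, hO1, k1⟩ : ∃ O ∈ S.Orbs b (b + 2), 1 ≤ S.kO O := by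
    by_contra hh
    push Not at hh
    have : ∑ O ∈ S.Orbs b (b + 1 + 1), S.kO O = 0 :=
      sum_eq_zero (fun O hO => by have := hh O hO; omega)
    omega
  have b0 := H.bud0
  have s1 := y1_SO1 hO1
  rcases H.lev0 with h0 | ⟨O, hO, h0⟩ | ⟨f, g, O, hO, fO, f0, g0, -, -, -, -, -, -, all, hj⟩
  · have := H.gam0_a h0; omega
  · obtain ⟨g, g0, gn, gy⟩ := S.d1 (H.h.gp (j := 1) (by omega))
    have g0' : S.lo (S.ρ 0 g) = 0 := by rw [y1_lo0, g0]
    have hp : S.pl O = 0 := by have := S.pl_le (h0 g g0); omega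
    have hi : 1 ≤ S.iO O := by
      by_contra hh
      have hq : S.ql O = 0 := by unfold iO at hh; omega
      have := S.conn (U := {z | S.lo z = 0}) (x := g) g0 (by
        intro i z hz
        by_cases hi : i = b + 1
        · exact (S.lo_far (by have : S.lo z = 0 := hz; omega)).trans hz
        · have := S.le_ql (S.Orbs_ρ hO (h0 z hz) (i := i) (by omega))
          show S.lo _ = 0
          omega) v
      have h1 : S.lo v = 0 := this
      have := H.h.1
      omega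
    have ha : 4 ≤ S.aO O 0 := by
      rw [← H.h4]
      refine card_le_card (fun z hz => ?_)
      rw [mem_lev] at hz
      exact mem_filter.2 ⟨h0 z hz, hz⟩
    have he := S.exc_a le_rfl hO hi ha
    have hg := (S.gam_zero (b := b) (b' := b + 2) le_rfl).1
    have e : O = O1 := by
      by_contra hn
      have := y1_SO2 hO hO1 hn
      omega
    subst e
    classical
    have q1 := S.Qorb_ge le_rfl hO (h0 g g0)
    have q2 := S.Qorb_ge le_rfl hO (h0 _ g0')
    have hd : Disjoint (univ.filter (fun y => S.R (Set.Ici (b + 2)) g y))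
        (univ.filter (fun y => S.R (Set.Ici (b + 2)) (S.ρ 0 g) y)) := by
      rw [disjoint_left]
      intro y y1 y2
      simp only [mem_filter, mem_univ, true_and] at y1 y2
      exact gn (gy.trans ((y2.trans y1.symm).mono (Set.Ici_subset_Ici.2 (by omega))))
    have hs : univ.filter (fun y => S.R (Set.Ici (b + 2)) g y) ∪
        univ.filter (fun y => S.R (Set.Ici (b + 2)) (S.ρ 0 g) y) ⊆ S.lev 0 := by
      intro y hy
      simp only [mem_union, mem_filter, mem_univ, true_and] at hy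
      rw [mem_lev]
      rcases hy with hy | hy
      · rw [(S.Q_lo (b := b) le_rfl hy).1 (by omega), g0]
      · rw [(S.Q_lo (b := b) le_rfl hy).1 (by omega), g0']
    have h5 := card_le_card hs
    rw [card_union_of_disjoint hd] at h5
    have h6 := H.h4
    unfold a at h6
    omega
  · obtain ⟨h1, h2, hp, hg⟩ := gam0_ii hO fO f0 g0 hj
    have e : O = O1 := by
      by_contra hn
      have := y1_SO2 hO hO1 hn
      omega
    subst e
    have h3 := S.aO_ge le_rfl hO (l := 0) hp.le (Nat.zero_le _)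
    have h4 : O.filter (fun x => S.lo x = 0) ⊆ {f, S.ρ 0 f} := by
      intro z hz
      rw [mem_filter] at hz
      have := (S.Orbs_W le_rfl hO hz.1).2
      rcases all z hz.2 with rfl | rfl | rfl | rfl
      · simp
      · simp
      · omega
      · omega
    have h5 := (card_le_card h4).trans card_le_two
    unfold aO at h3
    omega

theorem W_hi (H : Y1 S v b t) (hm : m = b + 3) {z : Ω} (h1 : S.lo z ≤ b) :
    S.hi z ≤ b + 2 := by
  have := H.ht.Dp_hi H.h (H.dp h1); omega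

theorem O_hi (H : Y1 S v b t) (hm : m = b + 3) (hO : O ∈ S.Orbs b (b + 2)) {z : Ω} (hz : z ∈ O) :
    S.hi z = b + 2 := by
  have h1 := S.Orbs_W le_rfl hO hz
  have := H.W_hi hm h1.1; omega

theorem k0 (H : Y1 S v b t) (hm : m = b + 3) (hO : O ∈ S.Orbs b (b + 2)) : S.kO O = 0 := by
  obtain ⟨x, hx, e⟩ := S.exists_qh hO
  obtain ⟨y, hy, e'⟩ := S.exists_ph hO
  rw [H.O_hi hm hO hx] at e
  rw [H.O_hi hm hO hy] at e'
  unfold kO; omega

theorem τ_mv (H : Y1 S v b t) (hm : m = b + 3) (hO : O ∈ S.Orbs b (b + 2)) {z : Ω} (hz : z ∈ O) :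
    S.ρ (b + 2) z ∈ O ∧ S.ρ (b + 2) z ≠ z ∧ S.lo (S.ρ (b + 2) z) = S.lo z := by
  refine ⟨S.Orbs_ρ hO hz (.inr le_rfl), ?_, S.lo_far (by have := S.Orbs_W le_rfl hO hz; omega)⟩
  have := S.mv_hi z
  rwa [H.O_hi hm hO hz] at this

theorem exc0 (H : Y1 S v b t) (hm : m = b + 3) (hO : O ∈ S.Orbs b (b + 2)) (he : S.exc O ≤ 1) :
    S.exc O = 0 := by
  have h1 := even_card_of_inv (S.ρ (b + 2)) O (S.inv _)
    (fun z hz => ⟨(H.τ_mv hm hO hz).1, (H.τ_mv hm hO hz).2.1⟩)
  have h2 := S.card_O le_rfl hO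
  obtain ⟨r, hr⟩ := h1
  omega

/-- two points on each level of an orbit without excess -/
theorem two (H : Y1 S v b t) (hm : m = b + 3) (hO : O ∈ S.Orbs b (b + 2)) (he : S.exc O ≤ 1)
    {x z : Ω} (hx : x ∈ O) (hz : z ∈ O) (hl : S.lo z = S.lo x) :
    z = x ∨ z = S.ρ (b + 2) x := by
  have h1 := S.exc_k0 le_rfl hO (H.k0 hm hO) (L := {S.lo x}) (by
    simp only [singleton_subset_iff, mem_Icc]; exact ⟨S.pl_le hx, S.le_ql hx⟩)
  rw [H.exc0 hm hO he] at h1
  simp only [sum_singleton, card_singleton] at h1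
  obtain ⟨a1, a2, a3⟩ := H.τ_mv hm hO hx
  simpa using y1_mem (s := O.filter (fun y => S.lo y = S.lo x)) (L := [x, S.ρ (b + 2) x]) (z := z)
    (by simpa using a2.symm) h1 (by simp [hx, a1, a3]) (by simp [hz, hl])

/-- an edge with label `k` from a low point of an orbit to `X` -/
theorem claim (h0 : ∀ z, S.lo z = 0 → S.hi z < b + 2)
    (hO : O ∈ S.Orbs b (b + 2)) {w : Ω} (hw : w ∈ O) (hl : S.lo w + 1 ≤ b)
    (hx : S.hi (S.ρ (b + 1) w) < b + 2) : ∃ p, 1 ≤ p ∧ p ≤ b ∧ 4 ≤ S.gam b (b + 2) p := by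
  obtain ⟨o, ho, hmin, hp⟩ := S.Pmin (b := b - 1) (x := w) (by omega)
  have h1 : S.lo o ≤ S.lo w := hmin w (S.R_refl _ _)
  have hsub : Set.Iic (b - 1) ⊆ Set.Iic b := Set.Iic_subset_Iic.2 (by omega)
  have oO : o ∈ O := S.Orbs_P hO hw (ho.mono hsub)
  have p1 : 1 ≤ S.lo o := by
    by_contra hh
    have := h0 o (by omega)
    have := S.Orbs_W le_rfl hO oO
    omega
  have hk : S.R (Set.Iic (b - 1)) (S.ρ (b + 1) w) (S.ρ (b + 1) o) :=
    ho.map (fun i hi z => (S.comm i (b + 1) (by simp at hi; omega) z).symm)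
  have x1 : S.hi (S.ρ (b + 1) o) < b + 2 := (S.P_hi (b := b) le_rfl (hk.mono hsub)).2.1 hx
  have l1 : S.lo (S.ρ (b + 1) o) = S.lo o := S.lo_far (by omega)
  obtain ⟨p, ep⟩ : ∃ p, S.lo o = p := ⟨_, rfl⟩
  rw [ep] at hp l1 p1 h1
  have x2 := (y1_X (z := S.ρ (b + 1) o) (by omega) x1 (i := p) (by omega)).2
  have l2 : S.lo (S.ρ p (S.ρ (b + 1) o)) = p := by
    rw [S.comm p (b + 1) (by omega), S.lo_far (by omega), hp]
  have n1 : S.ρ p (S.ρ (b + 1) o) ≠ S.ρ (b + 1) o := y1_mv l1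
  refine ⟨p, p1, by omega, ?_⟩
  have a2 := y1_aX (S := S) (b := b) (l := p) (L := [S.ρ (b + 1) o, S.ρ p (S.ρ (b + 1) o)])
    (by simpa using n1.symm) (by simp [l1, l2, x1, x2])
  simp only [List.length_cons, List.length_nil] at a2
  have pl1 := S.pl_le oO
  have ql1 := S.le_ql oO
  rcases Nat.lt_or_ge (S.pl O) p with hlt | hge
  · have := y1_OI hO hlt (by omega)
    unfold gam; omega
  · have c1 := y1_OP hO (l := p) (by omega)
    obtain ⟨z, z1, z2, ⟨z3, -⟩ | ⟨O2, z3, -⟩⟩ :=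
      S.gam_cross (b := b) (b' := b + 2) le_rfl p1 (by omega) (y := o) (by omega)
    · have a3 := y1_aX (S := S) (b := b) (l := p)
        (L := [z, S.ρ (b + 1) o, S.ρ p (S.ρ (b + 1) o)]) (by
          have n2 : z ≠ S.ρ (b + 1) o := by rintro rfl; omega
          have n3 : z ≠ S.ρ p (S.ρ (b + 1) o) := by rintro rfl; rw [S.inv] at z2; omega
          simp [n1.symm, n2, n3]) (by simp [l1, l2, x1, x2, z1, z3])
      simp only [List.length_cons, List.length_nil] at a3
      unfold gam; omega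
    · have := card_pos.2 ⟨O2, z3⟩
      unfold gam; omega

/-- the five point path -/
theorem five (H : Y1 S v b t) (hm : m = b + 3) {w w' : Ω}
    (hW : ∀ z, S.lo z ≤ b → b + 2 ≤ S.hi z → z = t (b + 1) ∨ z = w)
    (e1 : S.ρ (b + 2) (t (b + 1)) = w) (e2 : S.ρ b (t (b + 1)) = w) (e3 : S.ρ (b + 1) w = w')
    (l1 : S.lo w = b) (n1 : w ≠ t (b + 1)) (x1 : S.hi w' < b + 2) (n2 : w ≠ w')
    (l2 : S.lo (S.ρ b w') + 1 = b) : False := by
  have hv := H.h.1
  have tl := H.t_lo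
  have ul := H.u_lo
  have ue := H.u_edge
  have te : S.ρ (b + 2) (t (b + 2)) = v := by
    rw [H.ht.2.2.2.1 (b + 2) (by omega) (by omega), ← H.ht.2.1, hm]
  have f1 : S.ρ (b + 1) v = v := S.fix_lo (by omega)
  have f5 : S.ρ (b + 2) w' = w' := S.fix_hi x1
  have n12 : v ≠ t (b + 2) := by intro e; rw [e] at hv; omega
  have n23 : t (b + 2) ≠ t (b + 1) := by intro e; rw [e] at tl; omega
  have n13 : v ≠ t (b + 1) := by intro e; rw [e] at hv; omega
  have hτ : ∀ y, y ∉ ({v, t (b + 2), t (b + 1), w, w'} : Set Ω) → S.ρ (b + 2) y = y := by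
    intro y hy
    simp only [Set.mem_insert_iff, Set.mem_singleton_iff, not_or] at hy
    by_contra hn
    have a1 := S.lo_le hn
    have a2 := S.le_hi hn
    have : y ∈ S.Dp (b + 1) t := by
      rw [mem_Dp]
      refine ⟨by omega, fun j j1 j2 e => ?_⟩
      rcases Nat.lt_or_ge j m with j3 | j3
      · exact hy.2.1 (by rw [e]; congr 1; omega)
      · exact hy.1 (by rw [e, ← H.ht.2.1]; congr 1; omega)
    rcases H.cls this with a3 | a3
    · rcases hW y a3 a2 with e | e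
      exacts [hy.2.2.1 e, hy.2.2.2.1 e]
    · omega
  have hκ : ∀ y, y ∉ ({v, t (b + 2), t (b + 1), w, w'} : Set Ω) →
      S.ρ (b + 1) y ∉ ({v, t (b + 2), t (b + 1), w, w'} : Set Ω) := by
    intro y hy hn
    apply hy
    rw [← S.inv (b + 1) y]
    rcases hn with e | e | e | e | e <;> rw [e]
    · rw [f1]; simp
    · rw [S.ρ_swap ue]; simp
    · rw [ue]; simp
    · rw [e3]; simp
    · rw [S.ρ_swap e3]; simp
  obtain ⟨hA, -⟩ := path5 (H := S.G (Set.Iic (b + 1 + 1))) (a := S.ρ (b + 2)) (b := S.ρ (b + 1))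
    (g := S.ρ (b - 1)) (h := S.ρ b) (S.ρ_mem (by simp)) (S.ρ_mem (by simp))
    (S.ρ_mem (by simp; omega)) (S.ρ_mem (by simp; omega)) (S.inv _) (S.inv _)
    (S.ρ_swap te) (S.ρ_swap ue) e1 e3 f1 f5 n12 n23 n1.symm n2 (by
      intro y hy
      have h2 : ((S.ρ (b + 2) * S.ρ (b + 1)) ^ 2) y = y := by
        rw [pow_two]
        simp only [Perm.mul_apply]
        rw [hτ _ (hκ y hy), S.inv, hτ y hy]
      rw [show 12 = 2 * 6 from rfl, pow_mul]
      exact Perm.pow_apply_eq_self_of_apply_eq_self h2 6) (y0 := w') (by simp)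
    (y1_mv (by omega)) (by
      rintro y (rfl | rfl | rfl | rfl | rfl) hn
      · rw [S.fix_lo (i := b) (by omega), S.fix_lo (by omega)]
      · rw [S.fix_lo (i := b) (by omega), S.fix_lo (by omega)]
      · rw [e2, S.fix_lo (by omega)]
      · rw [S.ρ_swap e2, S.fix_lo (by omega)]
      · exact absurd rfl hn)
  obtain ⟨-, hc⟩ := H.h.dk (j := b + 1) (by omega) hA (x := v) (y := t (b + 2)) (z := t (b + 1))
    (by simp) (by simp) (by simp) n12 n23 n13 (S.R_refl _ _)
    (H.ht.reach (by omega) (by omega) (by omega)) (H.ht.reach (by omega) (by omega) (by omega))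
  have h3 := (hc (t (b + 1)) (by simp)).2
  have h4 : S.ρ (b + 1 + 1) (t (b + 1)) = w := e1
  rw [h4] at h3
  rcases h3 with e | e | e
  · rw [e] at l1; omega
  · rw [e] at l1; omega
  · exact n1 e

/-- level `0` is not inside `X` -/
theorem case_a (H : Y1 S v b t) (hm : m = b + 3) (h0 : ∀ z, S.lo z = 0 → S.hi z < b + 2) :
    False := by
  have hm5 := S.hm
  have g0 := H.gam0_a h0
  obtain ⟨O, hO, uO⟩ := H.u_orb
  have b0 := H.bud0
  have s1 := y1_SO1 hO
  have ul := H.u_lo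
  have uh := H.u_hi
  have hcl : ∀ O2 ∈ S.Orbs b (b + 2), ∀ w ∈ O2, S.lo w + 1 ≤ b → b + 2 ≤ S.hi (S.ρ (b + 1) w) := by
    intro O2 hO2 w hw hl
    by_contra hx
    obtain ⟨p, p1, p2, p3⟩ := claim h0 hO2 hw hl (by omega)
    have := H.bud1 p1 p2
    omega
  obtain ⟨w', x1, x2, w1, w2⟩ : ∃ w', S.lo w' ≤ b ∧ S.hi w' < b + 2 ∧
      S.lo (S.ρ (b + 1) w') ≤ b ∧ b + 2 ≤ S.hi (S.ρ (b + 1) w') := by
    by_contra hh
    push Not at hh
    obtain ⟨x, hx⟩ := S.exists_lo_zero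
    refine H.ht.conn H.h (U := {z | (S.lo z ≤ b ∧ S.hi z < b + 2) ∨
      (S.lo z = b + 1 ∧ S.hi z = b + 1 ∧ S.lo (S.ρ (b + 1) z) ≤ b ∧
        S.hi (S.ρ (b + 1) z) < b + 2)}) ?_ ?_ x (.inl ⟨by omega, h0 x hx⟩)
    · rintro z (⟨a1, a2⟩ | ⟨a1, a2, -, -⟩)
      · exact ⟨H.dp a1, by rintro rfl; omega⟩
      · refine ⟨?_, by rintro rfl; omega⟩
        rw [mem_Dp]
        refine ⟨by omega, fun j j1 j2 e => ?_⟩
        have := (H.ht.2.2.1 j j1 j2).2
        rw [← e] at this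
        omega
    · rintro i - z (⟨a1, a2⟩ | ⟨a1, a2, a3, a4⟩)
      · rcases lt_trichotomy i (b + 1) with hi | rfl | hi
        · exact .inl (y1_X a1 a2 (by omega))
        · have d1 := H.ht.Dp_pres H.h (H.dp a1) (i := b + 1) (.inr (by rintro rfl; omega))
          rcases H.cls d1 with c | c
          · exact .inl ⟨c, hh z a1 a2 c⟩
          · exact .inr ⟨c.1, c.2, by rw [S.inv]; exact a1, by rw [S.inv]; exact a2⟩
        · rw [S.fix_hi (by omega)]; exact .inl ⟨a1, a2⟩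
      · rcases lt_trichotomy i (b + 1) with hi | rfl | hi
        · rw [S.fix_lo (by omega)]; exact .inr ⟨a1, a2, a3, a4⟩
        · exact .inl ⟨a3, a4⟩
        · rw [S.fix_hi (by omega)]; exact .inr ⟨a1, a2, a3, a4⟩
  obtain ⟨w, ew⟩ : ∃ w, S.ρ (b + 1) w' = w := ⟨_, rfl⟩
  have ew' := S.ρ_swap ew
  rw [ew] at w1 w2
  obtain ⟨Ow, hOw, wO⟩ := S.exists_orb w1 w2
  have lw : S.lo w = b := by
    by_contra hn
    have := hcl Ow hOw w wO (by omega)
    rw [ew'] at this; omega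
  have lw' : S.lo w' = b := by
    have := S.lo_step (b + 1) w
    rw [ew'] at this; omega
  have nw : w ≠ t (b + 1) := by
    intro e
    rw [e, H.u_edge] at ew'
    have := H.t_lo
    rw [ew'] at this; omega
  have a1 := y1_aX (S := S) (b := b) (l := b) (L := [w']) (by simp) (by simp [lw', x2])
  simp only [List.length_cons, List.length_nil] at a1
  have pu := S.pl_le uO
  have qu := S.le_ql uO
  have b1 := H.bud1 (l := b) (by omega) le_rfl
  by_cases hone : ∀ O2 ∈ S.Orbs b (b + 2), O2 = O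
  · have hW : ∀ z, S.lo z ≤ b → b + 2 ≤ S.hi z → z ∈ O := by
      intro z z1 z2
      obtain ⟨O2, hO2, hz⟩ := S.exists_orb z1 z2
      exact hone O2 hO2 ▸ hz
    have wO' : w ∈ O := hW w w1 w2
    have e1 : w = S.ρ (b + 2) (t (b + 1)) :=
      (H.two hm hO (by omega) uO wO' (by omega)).resolve_left nw
    obtain ⟨y1, y2⟩ := y1_X x1 x2 (i := b) le_rfl
    have y3 : S.ρ b w' ≠ w' := y1_mv lw'
    have y4 := S.lo_step b w'
    have two_of : S.lo (S.ρ b w') = b → 2 ≤ S.aX (b + 2) b := fun y5 =>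
      y1_aX (S := S) (b := b) (l := b) (L := [w', S.ρ b w']) (by simpa using y3.symm)
        (by simp [lw', x2, y5, y2])
    rcases Nat.lt_or_ge (S.pl O) b with hlt | hge
    · have c1 := y1_OI hO hlt (by omega)
      by_cases y5 : S.lo (S.ρ b w') = b
      · have := two_of y5
        unfold gam at b1 g0; omega
      have hodd := H.ht.odd H.h (j := b + 2) (by omega) (by omega)
      have eW : (S.Dp (b + 1) t).filter (fun z => S.ρ (b + 2) z ≠ z) = O := by
        ext z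
        rw [mem_filter]
        constructor
        · rintro ⟨z1, z2⟩
          have z3 := S.le_hi z2
          rcases H.cls z1 with c | c
          · exact hW z c z3
          · omega
        · intro hz
          exact ⟨H.dp (S.Orbs_W le_rfl hO hz).1, (H.τ_mv hm hO hz).2.1⟩
      rw [eW, S.card_O le_rfl hO, H.k0 hm hO, H.exc0 hm hO (by omega)] at hodd
      have r1 := S.Orbs_range le_rfl hO
      have c2 := y1_OI hO (l := b - 1) (by unfold iO at hodd; omega) (by omega)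
      have a2 := y1_aX (S := S) (b := b) (l := b - 1) (L := [S.ρ b w']) (by simp)
        (by simp [y2]; omega)
      simp only [List.length_cons, List.length_nil] at a2
      have b2 := H.bud2 (l := b - 1) (l' := b) (by omega) (by omega) le_rfl
      unfold gam at b2 g0; omega
    · have c1 := y1_OP hO (l := b) (by omega)
      have hO2 : ∀ z ∈ O, z = t (b + 1) ∨ z = w := by
        intro z hz
        have z1 := S.pl_le hz
        have z2 := (S.Orbs_W le_rfl hO hz).1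
        rw [e1]
        exact H.two hm hO (by omega) uO hz (by omega)
      have y5 : S.lo (S.ρ b w') + 1 = b := by
        by_contra hn
        have y5 : S.lo (S.ρ b w') = b := by omega
        have a2 := two_of y5
        obtain ⟨z, z1, z2, ⟨z3, -⟩ | ⟨O2, z3, -⟩⟩ :=
          S.gam_cross (b := b) (b' := b + 2) le_rfl (i := b) (by omega) le_rfl (y := w) (by omega)
        · have a3 := y1_aX (S := S) (b := b) (l := b) (L := [z, w', S.ρ b w']) (by
            have n2 : z ≠ w' := by rintro rfl; omega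
            have n3 : z ≠ S.ρ b w' := by rintro rfl; rw [S.inv] at z2; omega
            simp [y3.symm, n2, n3]) (by simp [lw', x2, y5, y2, z1, z3])
          simp only [List.length_cons, List.length_nil] at a3
          unfold gam at b1 g0; omega
        · have := card_pos.2 ⟨O2, z3⟩
          unfold gam at b1 g0; omega
      refine H.five hm (w := w) (w' := w') (fun z z1 z2 => hO2 z (hW z z1 z2)) e1.symm ?_ ew' lw nw
        x2 (by rintro rfl; omega) y5
      exact (hO2 _ (S.Orbs_ρ hO uO (.inl le_rfl))).resolve_left (y1_mv ul)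
  · push Not at hone
    obtain ⟨O2, hO2, n2⟩ := hone
    have s2 := y1_SO2 hO hO2 n2.symm
    have hp : S.pl O = b := by
      by_contra hn
      have c1 := y1_OI hO (l := b) (by omega) (by omega)
      unfold gam at b1 g0; omega
    have hlow : ∀ O3 ∈ S.Orbs b (b + 2), O3 ≠ O → ∀ z ∈ O3, S.lo z + 1 ≤ b := by
      intro O3 hO3 n3 z hz
      by_contra hn
      have z1 := (S.Orbs_W le_rfl hO3 hz).1
      have z2 := S.pl_le hz
      have z3 := S.le_ql hz
      rcases Nat.lt_or_ge (S.pl O3) b with hlt | hge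
      · have c1 := y1_OI hO3 hlt (by omega)
        unfold gam at b1 g0; omega
      · have c1 : 1 < (S.OP b (b + 2) b).card :=
          one_lt_card.2 ⟨O, S.mem_OP.2 ⟨hO, hp⟩, O3, S.mem_OP.2 ⟨hO3, by omega⟩, n3.symm⟩
        unfold gam at b1 g0; omega
    obtain ⟨x, hx⟩ := S.Orbs_nonempty hO2
    refine H.ht.conn H.h (U := {z | ∃ O3 ∈ S.Orbs b (b + 2), O3 ≠ O ∧ z ∈ O3}) ?_ ?_ x
      ⟨O2, hO2, n2, hx⟩
    · rintro z ⟨O3, hO3, n3, hz⟩
      have := hlow O3 hO3 n3 z hz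
      exact ⟨H.dp (by omega), by rintro rfl; omega⟩
    · rintro i - z ⟨O3, hO3, n3, hz⟩
      by_cases hi : i = b + 1
      · subst hi
        have z1 := hlow O3 hO3 n3 z hz
        have z2 := hcl O3 hO3 z hz z1
        have z3 : S.lo (S.ρ (b + 1) z) = S.lo z := S.lo_far (by omega)
        obtain ⟨O4, hO4, h4⟩ := S.exists_orb (b := b) (by omega) z2
        refine ⟨O4, hO4, ?_, h4⟩
        rintro rfl
        have := S.pl_le h4
        omega
      · exact ⟨O3, hO3, n3, S.Orbs_ρ hO3 hz (by omega)⟩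

/-- level `0` is not split between `X` and an orbit -/
theorem case_ii (H : Y1 S v b t) (hm : m = b + 3) {f g : Ω} (hO : O ∈ S.Orbs b (b + 2))
    (fO : f ∈ O) (f0 : S.lo f = 0) (g0 : S.lo g = 0)
    (gn : ¬ S.R (Set.Ici 1) v g) (gy : S.R (Set.Ici 1) v (S.ρ 0 g))
    (all : ∀ z, S.lo z = 0 → z = f ∨ z = S.ρ 0 f ∨ z = g ∨ z = S.ρ 0 g)
    (hj : ∀ j, 2 ≤ j → S.ρ j g = g ∧ S.ρ j (S.ρ 0 g) = S.ρ 0 g ∧
        (S.ρ j f = f ∨ S.ρ j f = S.ρ 0 f)) : False := by
  have hm5 := S.hm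
  obtain ⟨hg, hg', hp, ga0⟩ := gam0_ii hO fO f0 g0 hj
  obtain ⟨g', eg'⟩ : ∃ g', S.ρ 0 g = g' := ⟨_, rfl⟩
  have g0' : S.lo g' = 0 := by rw [← eg', y1_lo0, g0]
  have f0' : S.lo (S.ρ 0 f) = 0 := by rw [y1_lo0, f0]
  have fO' : S.ρ 0 f ∈ O := S.Orbs_ρ hO fO (.inl (by omega))
  have ngg : g ≠ g' := eg' ▸ (y1_mv g0).symm
  rw [eg'] at gy all hj hg'
  have hf := H.O_hi hm hO fO
  have hf' := H.O_hi hm hO fO'
  have m1 : (1 : ℕ) ∈ Set.Ici 1 := by simp
  have mv1 : S.ρ 1 g' ≠ g' := by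
    intro e
    have := gy.symm.ind (U := {g'}) rfl (by
      intro i hi z hz
      rw [Set.mem_singleton_iff.1 hz]
      rcases Nat.eq_or_lt_of_le (show 1 ≤ i from hi) with rfl | h1
      · exact e
      · exact (hj i h1).2.1)
    have h1 := H.h.1
    rw [Set.mem_singleton_iff.1 this] at h1
    omega
  obtain ⟨g1, eg1⟩ : ∃ g1, S.ρ 1 g' = g1 := ⟨_, rfl⟩
  have eg1' := S.ρ_swap eg1
  have x1 := y1_X (S := S) (b := b) (z := g') (by omega) (by omega) (i := 1) (by omega)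
  have r1 : S.R (Set.Ici 1) v g1 := gy.step' m1 eg1
  rw [eg1] at mv1 x1
  have l1 : S.lo g1 = 1 := by
    have h1 := S.lo_step 1 g'
    rw [eg1] at h1
    by_contra hn
    rcases all g1 (by omega) with e | e | e | e
    · rw [e] at x1; omega
    · rw [e] at x1; omega
    · exact gn (e ▸ r1)
    · exact mv1 e
  have gO : g ∉ O := fun h => by have := H.O_hi hm hO h; omega
  have inP : ∀ z ∈ O, S.lo z = 0 → z = f ∨ z = S.ρ 0 f := by
    intro z hz z0
    have := H.O_hi hm hO hz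
    rcases all z z0 with e | e | e | e
    exacts [.inl e, .inr e, by rw [e] at this; omega, by rw [e] at this; omega]
  have κP : ∀ z ∈ O, S.lo z = 0 → S.ρ (b + 1) z ∈ O := by
    intro z hz z0
    have h1 : S.ρ (b + 1) f ∈ O := by
      rcases (hj (b + 1) (by omega)).2.2 with e | e <;> rw [e]
      exacts [fO, fO']
    rcases inP z hz z0 with rfl | rfl
    · exact h1
    · rw [← S.comm 0 (b + 1) (by omega)]; exact S.Orbs_ρ hO h1 (.inl (by omega))
  have notcl : ¬ ∀ z ∈ O, S.ρ (b + 1) z ∈ O := by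
    intro hc
    refine gO (S.conn (U := (O : Set Ω)) fO (fun i z hz => ?_) g)
    by_cases hi : i = b + 1
    · rw [hi]; exact hc z hz
    · exact S.Orbs_ρ hO hz (by omega)
  have q1 : 1 ≤ S.ql O := by
    by_contra hn
    exact notcl (fun z hz => κP z hz (by have := S.le_ql hz; omega))
  have s1 := y1_SO1 hO
  have a1 := y1_aX (S := S) (b := b) (l := 1) (L := [g1]) (by simp) (by simp [l1, x1])
  simp only [List.length_cons, List.length_nil] at a1
  have c1 := y1_OI hO (l := 1) (by omega) q1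
  have b1 := H.bud1 (l := 1) le_rfl (by omega)
  have he : S.exc O ≤ 1 := by unfold gam at b1 ga0; omega
  have down : ∀ l, 1 ≤ l → ∀ z ∈ O, S.lo z = l → S.lo (S.ρ l z) + 1 = l := by
    intro l hl z hz zl
    have z1 := S.le_ql hz
    have z2 := (S.Orbs_W le_rfl hO hz).1
    obtain ⟨x, hx, xl, xd⟩ := S.cross_lo_O le_rfl hO (l := l) (by omega) (by omega)
    rcases H.two hm hO he hx hz (by omega) with rfl | rfl
    · exact xd
    · rw [S.comm l (b + 2) (by omega), S.lo_far (by omega)]; exact xd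
  have keep : ∀ l, l + 1 ≤ b → ∀ z ∈ O, S.lo z = l → S.ρ (b + 1) z ∈ O := by
    intro l
    induction l with
    | zero => exact fun _ => κP
    | succ l ih =>
      intro hl z hz zl
      have h1 := down (l + 1) (by omega) z hz zl
      have h2 := ih (by omega) _ (S.Orbs_ρ hO hz (i := l + 1) (.inl (by omega))) (by omega)
      rw [← S.comm (l + 1) (b + 1) (by omega)] at h2
      have h3 := S.Orbs_ρ hO h2 (i := l + 1) (.inl (by omega))
      rwa [S.inv] at h3
  have qb : b ≤ S.ql O := by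
    by_contra hn
    exact notcl (fun z hz => keep _ (by have := S.le_ql hz; omega) z hz rfl)
  have hXb : ∀ L : List Ω, L.Nodup → (∀ x ∈ L, 1 ≤ S.lo x ∧ S.lo x ≤ b ∧ S.hi x < b + 2) →
      L.length + y1SO S b ≤ 3 := by
    intro L hL hx
    have h1 := y1_len (s := (Icc 1 b).biUnion (S.levX (b + 2))) hL (fun x h => by
      obtain ⟨a1, a2, a3⟩ := hx x h
      exact mem_biUnion.2 ⟨S.lo x, mem_Icc.2 ⟨a1, a2⟩, S.mem_levX.2 ⟨rfl, a3⟩⟩)
    have h2 := h1.trans card_biUnion_le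
    have h3 : ∑ l ∈ Icc 1 b, ((S.levX (b + 2) l).card + 2) ≤
        ∑ l ∈ Icc 1 b, S.gam b (b + 2) l := sum_le_sum (fun l hl => by
      rw [mem_Icc] at hl
      have := y1_OI hO (l := l) (by omega) (by omega)
      unfold gam aX; omega)
    rw [sum_add_distrib, sum_const, Nat.card_Icc, smul_eq_mul] at h3
    have h4 := H.bud (L := Icc 1 b) subset_rfl
    rw [Nat.card_Icc] at h4
    omega
  have κg : S.ρ (b + 1) g = g := (hj _ (by omega)).1
  have κg' : S.ρ (b + 1) g' = g' := (hj _ (by omega)).2.1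
  have κg1 : S.ρ (b + 1) g1 = g1 := by rw [← eg1, ← S.comm 1 (b + 1) (by omega), κg']
  obtain ⟨i, hi, y, hy, hz⟩ : ∃ i ≤ b, ∃ y, (y = g ∨ y = g' ∨ y = g1) ∧
      ¬ (S.ρ i y = g ∨ S.ρ i y = g' ∨ S.ρ i y = g1) := by
    by_contra hh
    push Not at hh
    have := S.conn (U := {y | y = g ∨ y = g' ∨ y = g1}) (x := g) (.inl rfl) (by
      intro i y hy
      rcases lt_trichotomy i (b + 1) with h1 | rfl | h1
      · exact hh i (by omega) y hy
      · rcases hy with rfl | rfl | rfl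
        · rw [κg]; exact .inl rfl
        · rw [κg']; exact .inr (.inl rfl)
        · rw [κg1]; exact .inr (.inr rfl)
      · rw [S.fix_hi (by rcases hy with rfl | rfl | rfl <;> omega)]; exact hy) f
    rcases this with e | e | e <;> rw [e] at hf <;> omega
  obtain ⟨z, ez⟩ : ∃ z, S.ρ i y = z := ⟨_, rfl⟩
  have xz := y1_X (S := S) (b := b) (z := y) (by rcases hy with rfl | rfl | rfl <;> omega)
    (by rcases hy with rfl | rfl | rfl <;> omega) hi
  rw [ez] at hz xz
  simp only [not_or] at hz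
  have lowX : ∀ x, S.lo x ≤ b → S.hi x < b + 2 → x ≠ g → x ≠ g' → 1 ≤ S.lo x := by
    intro x x1 x2 n1 n2
    by_contra hn
    rcases all x (by omega) with e | e | e | e
    exacts [by rw [e] at x2; omega, by rw [e] at x2; omega, n1 e, n2 e]
  have lz := lowX z xz.1 xz.2 hz.1 hz.2.1
  have allX : ∀ x, S.lo x ≤ b → S.hi x < b + 2 → x = g ∨ x = g' ∨ x = g1 ∨ x = z := by
    intro x x2 x3
    by_contra hn
    simp only [not_or] at hn
    have := hXb [g1, z, x] (by simp [Ne.symm hz.2.2, Ne.symm hn.2.2.1, Ne.symm hn.2.2.2]) (by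
      have := lowX x x2 x3 hn.1 hn.2.1
      simp only [List.mem_cons, List.not_mem_nil, or_false]
      rintro _ (rfl | rfl | rfl) <;> omega)
    simp only [List.length_cons, List.length_nil] at this
    omega
  have so1 : y1SO S b ≤ 1 := by
    have := hXb [g1, z] (by simp [Ne.symm hz.2.2]) (by
      simp only [List.mem_cons, List.not_mem_nil, or_false]
      rintro _ (rfl | rfl) <;> omega)
    simp only [List.length_cons, List.length_nil] at this
    omega
  have κz : S.ρ (b + 1) z ≠ z := by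
    intro e
    have := S.conn (U := {x | S.lo x ≤ b ∧ S.hi x < b + 2}) (x := g) ⟨by omega, by omega⟩ (by
      intro i x hx
      rcases lt_trichotomy i (b + 1) with h1 | rfl | h1
      · exact y1_X hx.1 hx.2 (by omega)
      · rcases allX x hx.1 hx.2 with rfl | rfl | rfl | rfl
        · rwa [κg]
        · rwa [κg']
        · rwa [κg1]
        · rwa [e]
      · rw [S.fix_hi (by have := hx.2; omega)]; exact hx) f
    have := this.2
    omega
  have ib : i = b := by
    by_contra hn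
    apply κz
    rw [← ez, ← S.comm i (b + 1) (by omega)]
    rcases hy with rfl | rfl | rfl
    · rw [κg]
    · rw [κg']
    · rw [κg1]
  subst ib
  have yg : y = g1 := by
    rcases hy with rfl | rfl | rfl
    · exact absurd (ez.symm.trans (hj i (by omega)).1) hz.1
    · exact absurd (ez.symm.trans (hj i (by omega)).2.1) hz.2.1
    · rfl
  subst yg
  rcases Nat.lt_or_ge 2 i with h3 | h3
  · apply hz.2.2
    have : S.ρ 1 z = g' := by
      rw [← ez, S.comm 1 i (by omega), eg1', (hj i (by omega)).2.1]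
    rw [← S.ρ_swap this, eg1]
  have rz : S.R (Set.Ici 1) v z := r1.step' (i := i) (by simp; omega) ez
  have fz : S.ρ 1 z = z := by
    have h1 := y1_X xz.1 xz.2 (i := 1) (by omega)
    rcases allX _ h1.1 h1.2 with e | e | e | e
    · exact absurd (rz.step' m1 e) gn
    · exact absurd ((S.ρ_swap e).symm.trans eg1) hz.2.2
    · exact absurd ((S.ρ_swap e).symm.trans eg1') hz.2.1
    · exact e
  have fg : S.ρ 1 g = g := by
    have h1 := y1_X (S := S) (b := i) (z := g) (by omega) (by omega) (i := 1) (by omega)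
    rcases allX _ h1.1 h1.2 with e | e | e | e
    · exact e
    · exact absurd (gy.step' m1 (S.ρ_swap e)) gn
    · exact absurd (r1.step' m1 (S.ρ_swap e)) gn
    · exact absurd (rz.step' m1 (S.ρ_swap e)) gn
  obtain ⟨x, hx, xl, -⟩ := S.cross_lo_O le_rfl hO (l := 1) (by omega) q1
  obtain ⟨xO', nx, xl'⟩ := H.τ_mv hm hO hx
  obtain ⟨x', ex'⟩ : ∃ x', S.ρ (i + 2) x = x' := ⟨_, rfl⟩
  rw [ex'] at xO' nx xl'
  have d1 := down 1 le_rfl x hx xl
  have hx2 := H.O_hi hm hO hx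
  have hx2' := H.O_hi hm hO xO'
  have hx3 := H.O_hi hm hO (S.Orbs_ρ hO hx (i := 1) (.inl (by omega)))
  have up : (S.supp 1).card ≤ 6 := by
    have : S.supp 1 ⊆ [f, S.ρ 0 f, g', y, x, x'].toFinset := by
      intro w hw
      rw [mem_supp] at hw
      have w1 := S.lo_le hw
      simp only [List.toFinset_cons, List.toFinset_nil, insert_empty_eq, mem_insert, mem_singleton]
      by_cases w0 : S.lo w = 0
      · rcases all w w0 with e | e | e | e
        · exact .inl e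
        · exact .inr (.inl e)
        · exact absurd (e ▸ fg) hw
        · exact .inr (.inr (.inl e))
      by_cases w2 : S.hi w < i + 2
      · rcases allX w (by omega) w2 with e | e | e | e
        · exact absurd (e ▸ fg) hw
        · exact .inr (.inr (.inl e))
        · exact .inr (.inr (.inr (.inl e)))
        · exact absurd (e ▸ fz) hw
      · obtain ⟨O2, hO2, wO⟩ := S.exists_orb (b := i) (b' := i + 2) (x := w) (by omega) (by omega)
        have e : O = O2 := by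
          by_contra hn
          have := y1_SO2 hO hO2 hn
          omega
        rcases H.two hm hO he hx (e ▸ wO) (by omega) with e | e
        · exact .inr (.inr (.inr (.inr (.inl e))))
        · exact .inr (.inr (.inr (.inr (.inr (e.trans ex')))))
    exact (card_le_card this).trans (List.toFinset_card_le _)
  have lowb := y1_len (s := S.supp 1) (L := [g', y, x, x', S.ρ 1 x]) (by
    have n1 : g' ≠ x := by rintro rfl; omega
    have n2 : g' ≠ x' := by rintro rfl; omega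
    have n3 : g' ≠ S.ρ 1 x := by intro e; rw [← e] at hx3; omega
    have n4 : y ≠ x := by rintro rfl; omega
    have n5 : y ≠ x' := by rintro rfl; omega
    have n6 : y ≠ S.ρ 1 x := by intro e; rw [← e] at hx3; omega
    have n7 : x ≠ S.ρ 1 x := by intro e; rw [← e] at d1; omega
    have n8 : x' ≠ S.ρ 1 x := by intro e; rw [← e] at d1; omega
    simp [mv1.symm, n1, n2, n3, n4, n5, n6, n7, n8, nx.symm]) (by
    simp only [List.mem_cons, List.not_mem_nil, or_false, mem_supp]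
    rintro _ (rfl | rfl | rfl | rfl | rfl)
    · rw [eg1]; exact mv1
    · exact y1_mv l1
    · exact y1_mv xl
    · exact y1_mv (by omega)
    · rw [Ne, S.fix_self]; exact y1_mv xl)
  simp only [List.length_cons, List.length_nil] at lowb
  have := S.four_dvd_supp 1
  omega

end Y1

theorem Tail.cvy1 (ht : S.Tail v k t) (h : S.CV v) (hk : 1 ≤ k) (h4 : S.a 0 = 4)
    (h2 : ∀ i, 1 ≤ i → i + 3 ≤ m → 2 ≤ S.a i) (hY : S.Yp k t = ∅) :
    k + 2 = m ∧ ∃ O ∈ S.Orbs (k - 1) (k + 1), ∀ z, S.lo z = 0 → z ∈ O := by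
  obtain ⟨b, rfl⟩ : ∃ b, k = b + 1 := ⟨k - 1, by omega⟩
  have H : Y1 S v b t := ⟨ht, h, h4, h2, hY⟩
  have h1 := H.m_le
  have h3 := ht.1
  have hm : m = b + 3 := by
    by_contra hn
    exact H.mu2 (by omega)
  refine ⟨by omega, ?_⟩
  rw [Nat.add_sub_cancel]
  rcases H.lev0 with h0 | h0 | ⟨f, g, O, hO, fO, f0, g0, -, -, -, -, gn, gy, all, hj⟩
  · exact (H.case_a hm h0).elim
  · exact h0
  · exact (H.case_ii hm hO fO f0 g0 gn gy all hj).elim

end SD
end D145
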