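import Pool.Agent.MP_d145c0_al.H75.Lad

/-! Cut vertex, `Yp` empty, one orbit contains the level `0`. -/

namespace D145
open Equiv Finset
namespace SD
variable {Ω : Type} [Fintype Ω] [DecidableEq Ω] {m : ℕ} {S : SD Ω m} {v : Ω} {k : ℕ} {t : ℕ → Ω}

theorem y2_dn {p : ℕ} {z : Ω} (hz : S.lo z = p) (h : ¬ S.lo (S.ρ p z) + 1 = p) :
    S.lo (S.ρ p z) = p := by
  have := S.lo_step p z; omega

theorem y2_dn' {p : ℕ} {z : Ω} (hz : S.lo z = p) (h : ¬ S.lo (S.ρ p z) = p) :
    S.lo (S.ρ p z) + 1 = p := by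
  have := S.lo_step p z; omega

theorem y2_up {p : ℕ} {z : Ω} (hz : S.lo z = p) (h : ¬ S.lo (S.ρ (p + 1) z) = p + 1) :
    S.lo (S.ρ (p + 1) z) = p := by
  have := S.lo_step (p + 1) z; omega

theorem y2_low {p i : ℕ} {y : Ω} (y1 : S.lo y < p) :
    S.lo (S.ρ i y) < p ∨ (S.lo (S.ρ i y) = p ∧ S.lo (S.ρ p (S.ρ i y)) + 1 = p) := by
  have s1 := S.lo_step i y
  by_cases hn : S.lo (S.ρ i y) < p
  · exact Or.inl hn
  · obtain rfl : i = p := by omega
    exact Or.inr ⟨by omega, by rw [S.inv]; omega⟩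

/-- if all points of the levels `1 .. q` cross down, a far label behaves as on level `0` -/
theorem y2_desc {q j : ℕ} (hj : q + 2 ≤ j)
    (hc : ∀ z, 1 ≤ S.lo z → S.lo z ≤ q → S.lo (S.ρ (S.lo z) z) + 1 = S.lo z) {P : Prop}
    (h0 : ∀ z, S.lo z = 0 → (S.ρ j z = z ↔ P)) : ∀ z, S.lo z ≤ q → (S.ρ j z = z ↔ P) := by
  suffices H : ∀ l z, S.lo z = l → l ≤ q → (S.ρ j z = z ↔ P) from fun z hz => H _ z rfl hz
  intro l
  induction l with
  | zero => intro z hz _; exact h0 z hz
  | succ l ih =>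
    intro z hz hl
    have h1 := hc z (by omega) (by omega)
    rw [hz] at h1
    rw [← S.fix_comm (i := l + 1) (j := j) (Or.inl (by omega))]
    exact ih _ (by omega) (by omega)

/-- a level with a point that does not cross down and a crossing point moved by a far label -/
theorem y2_four {p τ : ℕ} (hτ : p + 2 ≤ τ) {z c : Ω} (hz : S.lo z = p)
    (hz' : S.lo (S.ρ p z) = p) (hc : S.lo c = p) (hc' : S.lo (S.ρ p c) + 1 = p)
    (hτc : S.ρ τ c ≠ c) : 4 ≤ S.a p ∧ S.lo (S.ρ τ c) = p ∧ S.lo (S.ρ p (S.ρ τ c)) + 1 = p ∧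
    (S.a p = 4 → (∀ y, S.lo y = p → S.lo (S.ρ p y) + 1 = p → y = c ∨ y = S.ρ τ c) ∧
      (∀ y, S.lo y = p → S.lo (S.ρ p y) = p → y = z ∨ y = S.ρ p z)) := by
  have e1 : S.lo (S.ρ τ c) = p := by rw [S.lo_far (by omega), hc]
  have e2 : S.lo (S.ρ p (S.ρ τ c)) + 1 = p := by
    rw [S.comm' (Or.inl hτ), S.lo_far (by omega), hc']
  have e3 : S.ρ p z ≠ z := hz ▸ S.mv_lo z
  have e4 : S.lo (S.ρ p (S.ρ p z)) = p := by rw [S.inv, hz]
  have nd : [z, S.ρ p z, c, S.ρ τ c].Nodup := by
    have a1 : z ≠ c := by rintro rfl; omega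
    have a2 : z ≠ S.ρ τ c := by intro e; rw [← e] at e2; omega
    have a3 : S.ρ p z ≠ c := by intro e; rw [← e] at hc'; omega
    have a4 : S.ρ p z ≠ S.ρ τ c := by intro e; rw [← e] at e2; omega
    simp [a1, a2, a3, a4, e3.symm, hτc.symm]
  have hs : ∀ x ∈ [z, S.ρ p z, c, S.ρ τ c], x ∈ S.lev p := by simp [hz, hz', hc, e1]
  refine ⟨?_, e1, e2, fun h4 => ?_⟩
  · have := card_le_card (s := [z, S.ρ p z, c, S.ρ τ c].toFinset) (t := S.lev p)
      (fun x hx => hs x (List.mem_toFinset.1 hx))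
    rwa [List.toFinset_card_of_nodup nd] at this
  have all : ∀ y, S.lo y = p → y = z ∨ y = S.ρ p z ∨ y = c ∨ y = S.ρ τ c := fun y hy => by
    simpa using mem_of_card (s := S.lev p) (z := y) nd h4 hs (by simpa using hy)
  constructor
  · intro y hy hy'
    rcases all y hy with rfl | rfl | h | h
    · omega
    · omega
    · exact Or.inl h
    · exact Or.inr h
  · intro y hy hy'
    rcases all y hy with h | h | rfl | rfl
    · exact Or.inl h
    · exact Or.inr h
    · omega
    · omega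

/-- such a level cannot be followed by a level with two points -/
theorem y2_mid {p τ : ℕ} (hτ : p + 3 ≤ τ) (h4 : S.a p = 4) (h2 : S.a (p + 1) = 2) {z c : Ω}
    (hz : S.lo z = p) (hz' : S.lo (S.ρ p z) = p) (hc : S.lo c = p)
    (hc' : S.lo (S.ρ p c) + 1 = p) (hτc : S.ρ τ c ≠ c) : False := by
  obtain ⟨-, e1, e2, hh⟩ := y2_four (by omega) hz hz' hc hc' hτc
  obtain ⟨cr, nc⟩ := hh h4
  have far : ∀ i y, p + 2 ≤ i → S.lo y = p →
      S.lo (S.ρ i y) = p ∧ S.lo (S.ρ p (S.ρ i y)) = S.lo (S.ρ p y) := by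
    intro i y hi hy
    have := S.lo_step p y
    exact ⟨by rw [S.lo_far (by omega), hy], by rw [S.comm' (Or.inl hi), S.lo_far (by omega)]⟩
  by_cases hT : ∃ d, S.lo d = p ∧ S.lo (S.ρ p d) + 1 = p ∧ S.lo (S.ρ (p + 1) d) = p + 1
  · obtain ⟨d, d1, d2, d3⟩ := hT
    have up : ∀ y, S.lo (S.ρ (p + 1) y) = p + 1 → S.lo (S.ρ (p + 1) (S.ρ τ y)) = p + 1 := by
      intro y hy
      rw [S.comm' (Or.inl (by omega)), S.lo_far (by omega), hy]
    have u12 : S.lo (S.ρ (p + 1) c) = p + 1 ∧ S.lo (S.ρ (p + 1) (S.ρ τ c)) = p + 1 := by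
      rcases cr d d1 d2 with rfl | rfl
      · exact ⟨d3, up _ d3⟩
      · exact ⟨by simpa [S.inv] using up _ d3, d3⟩
    have := S.conn (U := {y | S.lo y = p ∧ S.lo (S.ρ p y) = p}) (x := z) ⟨hz, hz'⟩ (by
      rintro i y ⟨y1, y2⟩
      rcases lt_trichotomy i p with hi | rfl | hi
      · rw [S.fix_lo (by omega)]; exact ⟨y1, y2⟩
      · exact ⟨y2, by rw [S.inv]; exact y1⟩
      by_cases hi' : i = p + 1
      swap
      · obtain ⟨f1, f2⟩ := far i y (by omega) y1
        exact ⟨f1, by rw [f2, y2]⟩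
      subst hi'
      have w1 : S.lo (S.ρ (p + 1) y) = p := by
        refine y2_up y1 (fun hn => ?_)
        rcases two_pts h2 u12.1 u12.2 (fun e => hτc (S.ρ_inj e).symm) hn with e | e
        · rw [S.ρ_inj e] at y2; omega
        · rw [S.ρ_inj e] at y2; omega
      refine ⟨w1, y2_dn w1 (fun hn => ?_)⟩
      rcases cr _ w1 hn with e | e
      · have := u12.1; rw [← e, S.inv] at this; omega
      · have := u12.2; rw [← e, S.inv] at this; omega) c
    have := this.2; omega
  · push Not at hT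
    obtain ⟨x1, x2, x12, l1, l2⟩ := exists_two h2
    have dn : ∀ x, S.lo x = p + 1 → S.ρ (p + 1) x = z ∨ S.ρ (p + 1) x = S.ρ p z := by
      intro x hx
      have b1 : S.lo (S.ρ (p + 1) x) = p := by have := down_two (by omega) h2 hx; omega
      exact nc _ b1 (y2_dn b1 (fun hn => hT _ b1 hn (by rw [S.inv, hx])))
    have upz : ∀ w, w = z ∨ w = S.ρ p z → S.lo (S.ρ (p + 1) w) = p + 1 := by
      intro w hw
      have n12 : S.ρ (p + 1) x1 ≠ S.ρ (p + 1) x2 := fun e => x12 (S.ρ_inj e)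
      have : w = S.ρ (p + 1) x1 ∨ w = S.ρ (p + 1) x2 := by
        rcases dn x1 l1 with a | a <;> rcases dn x2 l2 with b | b <;> rcases hw with rfl | rfl <;>
          simp_all
      rcases this with rfl | rfl <;> rw [S.inv] <;> assumption
    have := S.conn (U := {y | S.lo y < p ∨ (S.lo y = p ∧ S.lo (S.ρ p y) + 1 = p)}) (x := c)
      (Or.inr ⟨hc, hc'⟩) (by
      rintro i y (y1 | ⟨y1, y2⟩)
      · exact y2_low y1
      rcases lt_trichotomy i p with hi | rfl | hi
      · rw [S.fix_lo (by omega)]; exact Or.inr ⟨y1, y2⟩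
      · exact Or.inl (by omega)
      by_cases hi' : i = p + 1
      swap
      · obtain ⟨f1, f2⟩ := far i y (by omega) y1
        exact Or.inr ⟨f1, by rw [f2, y2]⟩
      subst hi'
      have w1 : S.lo (S.ρ (p + 1) y) = p := y2_up y1 (hT y y1 y2)
      refine Or.inr ⟨w1, y2_dn' w1 (fun hn => ?_)⟩
      have := upz _ (nc _ w1 hn)
      rw [S.inv] at this; omega) z
    rcases this with h | ⟨-, h⟩ <;> omega

theorem y2_sum {f : ℕ → ℕ} {L : ℕ} (h2 : ∀ i, 1 ≤ i → i ≤ L → 2 ≤ f i) {T : Finset ℕ}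
    (hT : ∀ i ∈ T, 1 ≤ i ∧ i ≤ L) :
    f 0 + ∑ i ∈ T, f i + 2 * L ≤ ∑ i ∈ range (L + 1), f i + 2 * T.card := by
  have hs : T ⊆ Icc 1 L := fun i hi => mem_Icc.2 (hT i hi)
  have e1 : range (L + 1) = insert 0 (Icc 1 L) := by ext i; simp; omega
  have e2 := sum_sdiff (f := f) hs
  have e3 : (Icc 1 L \ T).card • 2 ≤ ∑ i ∈ Icc 1 L \ T, f i :=
    card_nsmul_le_sum _ _ _ (fun i hi => by
      have := mem_Icc.1 (mem_sdiff.1 hi).1; exact h2 i this.1 this.2)
  have e4 := card_sdiff_add_card_eq_card hs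
  rw [e1, sum_insert (by simp)]
  simp only [Nat.card_Icc, smul_eq_mul] at e3 e4
  omega

/-- a label `≥ 2` moves all or no points of level `0` -/
theorem y2_zero (h : S.CV v) (h4 : S.a 0 = 4) {τ j : ℕ} (hτ : 2 ≤ τ) (hj : 2 ≤ j)
    (h0 : ∀ z, S.lo z = 0 → S.ρ τ z ≠ z) : ∃ P : Prop, ∀ z, S.lo z = 0 → (S.ρ j z = z ↔ P) := by
  have hm := S.hm
  obtain ⟨g, g0, gn, gy⟩ := S.d1 (h.gp (j := 1) (by omega))
  have z0 : ∀ i z, (i = 0 ∨ 2 ≤ i) → S.lo z = 0 → S.lo (S.ρ i z) = 0 := by
    intro i z hi hz; have := S.lo_step i z; omega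
  have yτ : ∀ i z, 1 ≤ i → S.R (Set.Ici 1) v z → S.R (Set.Ici 1) v (S.ρ i z) :=
    fun i z hi hz => hz.step hi
  have f0 := z0 0 g (Or.inl rfl) g0
  have f1 := z0 τ _ (Or.inr hτ) f0
  have g1 := z0 τ _ (Or.inr hτ) g0
  have gn' : ¬ S.R (Set.Ici 1) v (S.ρ τ g) := fun e => gn (by
    simpa [S.inv] using yτ τ _ (by omega) e)
  have gy' := yτ τ _ (by omega) gy
  have nd : [S.ρ 0 g, S.ρ τ (S.ρ 0 g), g, S.ρ τ g].Nodup := by
    have a1 : S.ρ 0 g ≠ g := fun e => gn (e ▸ gy)
    have a2 : S.ρ 0 g ≠ S.ρ τ g := fun e => gn' (e ▸ gy)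
    have a3 : S.ρ τ (S.ρ 0 g) ≠ g := fun e => gn (e ▸ gy')
    simp [a1, a2, a3, (h0 _ f0).symm, (h0 _ g0).symm]
  have all : ∀ y, S.lo y = 0 → y = S.ρ 0 g ∨ y = S.ρ τ (S.ρ 0 g) ∨ y = g ∨ y = S.ρ τ g :=
    fun y hy => by
      simpa using mem_of_card (s := S.lev 0) (z := y) nd h4 (by simp [f0, f1, g0, g1])
        (by simpa using hy)
  have inY : ∀ y, S.lo y = 0 → S.R (Set.Ici 1) v y → y = S.ρ 0 g ∨ y = S.ρ τ (S.ρ 0 g) := by
    intro y hy hr
    rcases all y hy with e | e | rfl | rfl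
    · exact Or.inl e
    · exact Or.inr e
    · exact absurd hr gn
    · exact absurd hr gn'
  have c1 : S.ρ j (S.ρ 0 g) = S.ρ 0 g ↔ S.ρ j g = g := S.fix_comm (Or.inl (by omega)) g
  have c2 : S.ρ j (S.ρ τ (S.ρ 0 g)) = S.ρ τ (S.ρ 0 g) ↔ S.ρ j (S.ρ τ g) = S.ρ τ g := by
    rw [← S.comm' (i := 0) (j := τ) (Or.inl (by omega))]
    exact S.fix_comm (Or.inl (by omega)) _
  have c3 : S.ρ j (S.ρ τ (S.ρ 0 g)) = S.ρ τ (S.ρ 0 g) ↔ S.ρ j (S.ρ 0 g) = S.ρ 0 g := by
    have n := h0 _ f0
    constructor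
    · intro e
      rcases inY _ (z0 j _ (Or.inr hj) f0) (yτ j _ (by omega) gy) with e' | e'
      · exact e'
      · exact absurd (S.ρ_inj (e.trans e'.symm)) n
    · intro e
      rcases inY _ (z0 j _ (Or.inr hj) f1) (yτ j _ (by omega) gy') with e' | e'
      · exact absurd (S.ρ_inj (e'.trans e.symm)) n
      · exact e'
  refine ⟨S.ρ j (S.ρ 0 g) = S.ρ 0 g, fun z hz => ?_⟩
  rcases all z hz with rfl | rfl | rfl | rfl
  · rfl
  · exact c3
  · exact c1.symm
  · exact c2.symm.trans c3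

/-- the top level of the ladder cannot carry a point that does not cross down -/
theorem y2_top {L : ℕ} (ht : S.Tail v (L + 1) t) (h : S.CV v) (hk : L + 3 = m) (h0 : S.a 0 = 4)
    (h2 : ∀ l, 1 ≤ l → l < L → S.a l = 2) (h4 : S.a L = 4)
    (hD : ∀ y ∈ S.Dp (L + 1) t, S.lo y ≤ L) (hu : S.lo (t (L + 1)) = L)
    (hτ : ∀ y, S.lo y < L → S.ρ (L + 2) y ≠ y) {z c : Ω}
    (hz : S.lo z = L) (hz' : S.lo (S.ρ L z) = L) (hc : S.lo c = L)
    (hc' : S.lo (S.ρ L c) + 1 = L) (hτc : S.ρ (L + 2) c ≠ c) : False := by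
  have hm := S.hm
  obtain ⟨-, e1, e2, hh⟩ := y2_four (τ := L + 2) le_rfl hz hz' hc hc' hτc
  obtain ⟨cr, nc⟩ := hh h4
  have ru : S.R (Set.Ici L) v (t (L + 1)) := ht.reach le_rfl (by omega) (by omega)
  have back : ∀ i y, L ≤ i → S.R (Set.Ici L) v (S.ρ i y) → S.R (Set.Ici L) v y :=
    fun i y hi e => by simpa [S.inv] using e.step (i := i) hi
  have toc : ∀ y, S.lo y = L → S.lo (S.ρ L y) + 1 = L → S.R (Set.Ici L) v y →
      S.R (Set.Ici L) v c := by
    intro y y1 y2 r
    rcases cr y y1 y2 with rfl | rfl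
    · exact r
    · exact back _ _ (by omega) r
  have rc : S.R (Set.Ici L) v c := by
    by_cases hx : S.lo (S.ρ L (t (L + 1))) + 1 = L
    · exact toc _ hu hx ru
    have rz : S.R (Set.Ici L) v z := by
      rcases nc _ hu (y2_dn hu hx) with e | e
      · exact e ▸ ru
      · exact back L _ le_rfl (e ▸ ru)
    by_contra hn
    refine ht.conn h (U := {y | S.lo y < L ∨ (S.lo y = L ∧ S.lo (S.ρ L y) + 1 = L)}) ?_ ?_ c
      (Or.inr ⟨hc, hc'⟩)
    · intro y hy
      refine ⟨ht.Dp_of_lo (by rcases hy with a | a <;> omega), ?_⟩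
      rintro rfl
      rcases hy with a | a <;> omega
    rintro i him y (y1 | ⟨y1, y2⟩)
    · exact y2_low y1
    rcases lt_trichotomy i L with hi | rfl | hi
    · rw [S.fix_lo (by omega)]; exact Or.inr ⟨y1, y2⟩
    · exact Or.inl (by omega)
    by_cases hi' : i = L + 1
    swap
    · refine Or.inr ⟨by rw [S.lo_far (by omega), y1], ?_⟩
      rw [S.comm' (Or.inl (by omega)), S.lo_far (by omega), y2]
    subst hi'
    have s3 := hD _ (ht.Dp_pres h (ht.Dp_of_lo (z := y) (by omega)) (i := L + 1)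
      (Or.inr (by rintro rfl; omega)))
    have w1 : S.lo (S.ρ (L + 1) y) = L := y2_up y1 (by omega)
    refine Or.inr ⟨w1, y2_dn' w1 (fun hw => ?_)⟩
    refine hn (toc y y1 y2 (back (L + 1) y (by omega) ?_))
    rcases nc _ w1 hw with e | e
    · exact e ▸ rz
    · exact e ▸ rz.step (i := L) Set.self_mem_Ici
  have lad : S.Lad (L - 1) (L + 2) := ⟨by omega, by omega, by omega, h0,
    fun l a b => h2 l a (by omega), fun y hy => hτ y (by omega)⟩
  have a2 := h2 (L - 1) (by omega) (by omega)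
  have lv : ∀ y, S.lo y + 1 = L → S.lo (S.ρ L y) = L ∧ S.R (Set.Ici L) v y := by
    intro y hy
    rcases two_pts a2 (x := S.ρ L c) (y := S.ρ L (S.ρ (L + 2) c)) (z := y) (by omega) (by omega)
      (fun e => hτc (S.ρ_inj e).symm) (by omega) with rfl | rfl
    · exact ⟨by rw [S.inv, hc], rc.step (i := L) Set.self_mem_Ici⟩
    · exact ⟨by rw [S.inv, e1], (rc.step (i := L + 2) (by simp)).step (i := L) Set.self_mem_Ici⟩
  have fx := lad.two_rung h (k := L) (by omega) lv (j := L) (by omega) le_rfl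
  have es : S.supp L = S.lev L ∪ S.lev (L - 1) := by
    ext y
    simp only [mem_supp, mem_union, mem_lev]
    constructor
    · intro hy
      have b1 := S.lo_le hy
      have b2 : ¬ S.lo y + 2 ≤ L := fun e => hy (fx y e)
      omega
    · rintro (hy | hy)
      · exact hy ▸ S.mv_lo y
      · intro e
        have := (lv y (by omega)).1
        rw [e] at this; omega
  have d4 := S.four_dvd_supp L
  rw [es, card_union_of_disjoint (by
    rw [disjoint_left]; intro y a b; rw [mem_lev] at a b; omega)] at d4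
  unfold a at h4 a2
  omega

theorem y2_main {L : ℕ} (ht : S.Tail v (L + 1) t) (h : S.CV v) (hk : L + 3 = m) (h4 : S.a 0 = 4)
    (h2 : ∀ i, 1 ≤ i → i ≤ L → 2 ≤ S.a i) (hY : S.Yp (L + 1) t = ∅)
    (h0 : ∀ z, S.lo z = 0 → S.ρ (L + 2) z ≠ z) : False := by
  have hm := S.hm
  have uD := ht.mem_Dp h
  have tl := ht.2.2.1
  have te : S.ρ (L + 1) (t (L + 1)) = t (L + 2) := ht.2.2.2.1 (L + 1) le_rfl (by omega)
  have t2 := tl (L + 2) (by omega) (by omega)
  have kind : ∀ z ∈ S.Dp (L + 1) t, S.lo z ≤ L ∨ z ∈ S.Cp (L + 1) := by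
    intro z hz
    have b1 : z ∉ S.Yp (L + 1) t := by rw [hY]; simp
    rw [mem_Yp] at b1
    have b2 := S.lo_le_hi z
    rw [mem_Cp]
    by_cases b3 : S.lo z ≤ L
    · exact Or.inl b3
    · have : ¬ L + 1 < S.hi z := fun e => b1 ⟨hz, by omega, e⟩
      right; omega
  have CD : ∀ z ∈ S.Cp (L + 1), z ∈ S.Dp (L + 1) t := by
    intro z hz
    rw [mem_Cp] at hz
    refine S.mem_Dp.2 ⟨by omega, fun j a b e => ?_⟩
    have := (tl j a b).2
    rw [← e] at this; omega
  have hu : S.lo (t (L + 1)) = L := by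
    have b1 := S.lo_step (L + 1) (t (L + 1))
    have b2 := ht.2.2.2.2.1
    rw [te] at b1
    rcases kind _ uD with e | e
    · omega
    · rw [mem_Cp] at e; omega
  have eD : S.Dp (L + 1) t = S.A (L + 1) ∪ S.Cp (L + 1) := by
    ext z
    rw [mem_union, mem_A]
    constructor
    · intro hz; rcases kind z hz with e | e
      · exact Or.inl (by omega)
      · exact Or.inr e
    · rintro (e | e)
      · exact ht.Dp_of_lo e
      · exact CD z e
  have cD : (S.A (L + 1)).card + (S.Cp (L + 1)).card = 2 * L + 6 := by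
    have := ht.card_Dp h
    rw [eD, card_union_of_disjoint (by
      rw [disjoint_left]; intro y a b; rw [mem_A] at a; rw [mem_Cp] at b; omega)] at this
    omega
  have cA := S.card_A (L + 1)
  have s1 : ∀ p, 1 ≤ p → p ≤ L → S.a p + (S.Cp (L + 1)).card ≤ 4 := by
    intro p a b
    have := y2_sum h2 (T := {p}) (by simp [a, b])
    simp only [sum_singleton, card_singleton] at this
    omega
  have s2 : ∀ p l, 1 ≤ p → p ≤ L → 1 ≤ l → l ≤ L → p ≠ l → S.a p + S.a l ≤ 6 := by
    intro p l a b c d e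
    have := y2_sum h2 (T := {p, l}) (by simp [a, b, c, d])
    rw [sum_pair e, card_pair e] at this
    omega
  have mvτ : ∀ q, q ≤ L → (∀ z, 1 ≤ S.lo z → S.lo z ≤ q → S.lo (S.ρ (S.lo z) z) + 1 = S.lo z) →
      ∀ z, S.lo z ≤ q → S.ρ (L + 2) z ≠ z := fun q hq hc z hz =>
    (y2_desc (j := L + 2) (P := False) (by omega) hc (fun y hy => by simpa using h0 y hy) z hz).1
  have crs : ∀ p z, S.lo z = p → 1 ≤ p → p ≤ L → S.lo (S.ρ p z) + 1 = p := by
    intro p
    induction p using Nat.strong_induction_on with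
    | _ p ih =>
      intro z hz p1 p2
      by_contra hn
      have hz' : S.lo (S.ρ p z) = p := y2_dn hz hn
      have low := mvτ (p - 1) (by omega) (fun y a b => ih _ (by omega) y rfl a (by omega))
      obtain ⟨c, hc, hc'⟩ := S.cross p1 (y := t (L + 1)) (by omega)
      have hτc : S.ρ (L + 2) c ≠ c := by
        rw [Ne, ← S.fix_comm (i := p) (Or.inl (by omega))]
        exact low _ (by omega)
      have b4 := (y2_four (by omega) hz hz' hc hc' hτc).1
      have b5 := s1 p p1 p2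
      have oth : ∀ l, 1 ≤ l → l ≤ L → l ≠ p → S.a l = 2 := fun l a b e => by
        have := s2 p l p1 p2 a b e.symm
        have := h2 l a b
        omega
      rcases lt_or_eq_of_le p2 with p3 | rfl
      · exact y2_mid (by omega) (by omega) (oth (p + 1) (by omega) (by omega) (by omega))
          hz hz' hc hc' hτc
      · refine y2_top ht h hk h4 (fun l a b => oth l a b.le b.ne) (by omega) ?_ hu
          (fun y hy => low y (by omega)) hz hz' hc hc' hτc
        intro y hy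
        rcases kind y hy with e | e
        · exact e
        · have := card_pos.2 ⟨y, e⟩; omega
  have crs' : ∀ q, q ≤ L → ∀ z, 1 ≤ S.lo z → S.lo z ≤ q → S.lo (S.ρ (S.lo z) z) + 1 = S.lo z :=
    fun q hq z a b => crs _ z rfl a (by omega)
  have all := mvτ L le_rfl (crs' L le_rfl)
  have ev : ∀ l, l ≤ L → Even (S.a l) := fun l hl =>
    even_card_of_inv (S.ρ (L + 2)) _ (S.inv _) (fun x hx => by
      rw [mem_lev] at hx ⊢
      exact ⟨by rw [S.lo_far (by omega), hx], all x (by omega)⟩)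
  have mono : S.a L ≤ S.a (L - 1) :=
    card_le_card_of_injOn (S.ρ L) (fun x hx => by
      have := crs L x (by simpa using hx) (by omega) le_rfl
      simp only [coe_filter, lev, mem_univ, true_and, Set.mem_ofPred_eq]; omega)
      (fun x _ y _ e => S.ρ_inj e)
  have aL : S.a L = 2 := by
    have b1 := s2 L (L - 1) (by omega) le_rfl (by omega) (by omega) (by omega)
    have b2 := h2 L (by omega) le_rfl
    obtain ⟨r1, b3⟩ := ev L le_rfl
    obtain ⟨r2, b4⟩ := ev (L - 1) (by omega)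
    omega
  have uτ : S.lo (S.ρ (L + 2) (t (L + 1))) = L := by rw [S.lo_far (by omega), hu]
  have uτ' := all (t (L + 1)) hu.le
  have top : ∀ y, S.lo y = L → y = t (L + 1) ∨ y = S.ρ (L + 2) (t (L + 1)) :=
    fun y hy => two_pts aL hu uτ uτ'.symm hy
  have wA : (S.Dp (L + 1) t).filter (fun z => S.ρ (L + 2) z ≠ z) = S.A (L + 1) := by
    ext y
    rw [mem_filter, mem_A]
    constructor
    · rintro ⟨a, b⟩
      rcases kind y a with e | e
      · omega
      · rw [mem_Cp] at e; exact absurd (S.fix_hi (by omega)) b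
    · intro e; exact ⟨ht.Dp_of_lo e, all y (by omega)⟩
  have od := ht.odd h (j := L + 2) (by omega) (by omega)
  rw [wA] at od
  have c1 : (S.Cp (L + 1)).card ≤ 1 := by
    have key : ∀ o ∈ S.Cp (L + 1), S.ρ (L + 1) o = S.ρ (L + 2) (t (L + 1)) := by
      intro o ho
      have oD := CD o ho
      rw [mem_Cp] at ho
      have b1 := ht.Dp_pres h oD (i := L + 1) (Or.inr (by rintro rfl; omega))
      rcases kind _ b1 with e | e
      · have b2 := y2_dn' ho.1 (by omega)
        rcases top (S.ρ (L + 1) o) (by omega) with e' | e'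
        · have := S.ρ_swap e'
          rw [te] at this
          rw [this] at t2; omega
        · exact e'
      · rw [mem_Cp] at e
        have := S.connF (U := {o, S.ρ (L + 1) o}) (x := o) (by simp) (by
          intro i y hy
          simp only [mem_insert, mem_singleton] at hy ⊢
          rcases lt_trichotomy i (L + 1) with hi | rfl | hi
          · rcases hy with rfl | rfl
            · exact Or.inl (S.fix_lo (by omega))
            · exact Or.inr (S.fix_lo (by omega))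
          · rcases hy with rfl | rfl
            · exact Or.inr rfl
            · exact Or.inl (S.inv _ _)
          · rcases hy with rfl | rfl
            · exact Or.inl (S.fix_hi (by omega))
            · exact Or.inr (S.fix_hi (by omega)))
        have := card_le_two (a := o) (b := S.ρ (L + 1) o)
        omega
    exact card_le_one.2 (fun a ha b hb => S.ρ_inj ((key a ha).trans (key b hb).symm))
  have c0 : (S.Cp (L + 1)).card = 0 := by omega
  have hD : ∀ y ∈ S.Dp (L + 1) t, S.lo y ≤ L := by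
    intro y hy
    rcases kind y hy with e | e
    · exact e
    · have := card_pos.2 ⟨y, e⟩; omega
  have fτ : S.ρ (L + 1) (S.ρ (L + 2) (t (L + 1))) = S.ρ (L + 2) (t (L + 1)) := by
    have b1 := hD _ (ht.Dp_pres h (ht.Dp_of_lo (z := S.ρ (L + 2) (t (L + 1))) (by omega))
      (i := L + 1) (Or.inr uτ'))
    rcases top _ (y2_up uτ (by omega)) with e | e
    · have := S.ρ_swap e
      rw [te] at this
      rw [this] at t2; omega
    · exact e
  obtain ⟨P, hP⟩ := y2_zero h h4 (τ := L + 2) (j := L + 1) (by omega) (by omega) h0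
  have hP' := y2_desc (q := L - 1) (j := L + 1) (by omega) (crs' _ (by omega)) hP
  have ok := ht.odd_k h
  have um : S.ρ (L + 1) (t (L + 1)) ≠ t (L + 1) := by
    rw [te]; intro e; rw [e] at t2; omega
  have cL : (S.A (L + 1)).card = (S.A L).card + 2 := by
    rw [S.card_A, S.card_A, sum_range_succ, aL]
  by_cases hp : P
  · have : (S.Dp (L + 1) t).filter (fun z => S.ρ (L + 1) z ≠ z) = {t (L + 1)} := by
      ext y
      rw [mem_filter, mem_singleton]
      constructor
      · rintro ⟨a, b⟩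
        have b1 := hD y a
        by_cases b2 : S.lo y = L
        · rcases top y b2 with e | e
          · exact e
          · exact absurd (e ▸ fτ) b
        · exact absurd ((hP' y (by omega)).2 hp) b
      · rintro rfl; exact ⟨uD, um⟩
    rw [this] at ok; simp at ok
  · have : (S.Dp (L + 1) t).filter (fun z => S.ρ (L + 1) z ≠ z) = insert (t (L + 1)) (S.A L) := by
      ext y
      rw [mem_filter, mem_insert, mem_A]
      constructor
      · rintro ⟨a, b⟩
        have b1 := hD y a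
        by_cases b2 : S.lo y = L
        · rcases top y b2 with e | e
          · exact Or.inl e
          · exact absurd (e ▸ fτ) b
        · exact Or.inr (by omega)
      · rintro (rfl | e)
        · exact ⟨uD, um⟩
        · exact ⟨ht.Dp_of_lo (by omega), fun e' => hp ((hP' y (by omega)).1 e')⟩
    rw [this, card_insert_of_notMem (by rw [mem_A]; omega)] at ok
    omega

theorem Tail.cvy2 (ht : S.Tail v k t) (h : S.CV v) (hk : k + 2 = m) (h4 : S.a 0 = 4)
    (h2 : ∀ i, 1 ≤ i → i + 3 ≤ m → 2 ≤ S.a i) (hY : S.Yp k t = ∅) {O : Finset Ω}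
    (hO : O ∈ S.Orbs (k - 1) (k + 1)) (h0 : ∀ z, S.lo z = 0 → z ∈ O) : False := by
  have hm := S.hm
  obtain ⟨L, rfl⟩ : ∃ L, k = L + 1 := ⟨k - 1, by omega⟩
  refine y2_main ht h (by omega) h4 (fun i a b => h2 i a (by omega)) hY (fun z hz => ?_)
  have b1 := (S.Orbs_W (by omega) hO (h0 z hz)).2
  have b2 := ht.Dp_hi h (ht.Dp_of_lo (z := z) (by omega))
  have b3 : S.hi z = L + 2 := by omega
  exact b3 ▸ S.mv_hi z

end SD
end D145
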