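import Pool.Agent.MP_d145c0_al.H75.CV0

/-! Cut vertex: the tail does not reach the label `0`. -/

namespace D145
open Equiv Finset
namespace SD
variable {Ω : Type} [Fintype Ω] [DecidableEq Ω] {m : ℕ} {S : SD Ω m} {v : Ω} {t : ℕ → Ω}

/-- the data of the case `k = 0`: crossing points `s j`, the top pair `p, q`, and the second pair
`o, o'` of level `0` -/
structure ZD (S : SD Ω m) (t s : ℕ → Ω) (p q o o' : Ω) : Prop where
  hs : ∀ j, 0 < j → j + 2 ≤ m → s j ∈ S.Dp 0 t ∧ S.hi (s j) = j ∧ S.hi (S.ρ j (s j)) = j + 1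
  hp : S.ρ (m - 2) (s (m - 2)) = p
  hq : S.ρ (m - 1) p = q
  pD : p ∈ S.Dp 0 t ∧ S.hi p + 1 = m
  qD : q ∈ S.Dp 0 t ∧ S.hi q + 1 = m
  pq : p ≠ q
  oo : S.ρ 0 o = o'
  ne : o ≠ o'
  oD : o ∈ S.Dp 0 t ∧ o ≠ t 0
  oD' : o' ∈ S.Dp 0 t ∧ o' ≠ t 0
  lev : ∀ z ∈ S.Dp 0 t, S.lo z = 0 → z = t 0 ∨ z = o ∨ z = o'

variable {s : ℕ → Ω} {p q o o' : Ω}

theorem ZD.symm (d : ZD S t s p q o o') : ZD S t s p q o' o :=
  { d with
    oo := S.ρ_swap d.oo
    ne := d.ne.symm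
    oD := d.oD'
    oD' := d.oD
    lev := fun z hz h => by
      rcases d.lev z hz h with e | e | e
      exacts [Or.inl e, Or.inr (Or.inr e), Or.inr (Or.inl e)] }

/-- a spare point -/
def Spr (S : SD Ω m) (t s : ℕ → Ω) (p q z : Ω) : Prop :=
  z ∈ S.Dp 0 t ∧ (0 < S.hi z → S.hi z + 2 ≤ m → z ≠ s (S.hi z)) ∧ z ≠ p ∧ z ≠ q

theorem ZD.exists (ht : S.Tail v 0 t) (h : S.CV v) (h4 : S.a 0 = 4) :
    ∃ s p q o o', ZD S t s p q o o' := by
  have hm := S.hm
  have hc : ∀ j, ∃ z, 0 < j → j + 2 ≤ m →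
      z ∈ S.Dp 0 t ∧ S.hi z = j ∧ S.hi (S.ρ j z) = j + 1 := by
    intro j
    by_cases hj : 0 < j ∧ j + 2 ≤ m
    · obtain ⟨z, hz⟩ := ht.hi_cross h hj.1 hj.2
      exact ⟨z, fun _ _ => hz⟩
    · exact ⟨v, fun h1 h2 => absurd ⟨h1, h2⟩ hj⟩
  choose s hs using hc
  obtain ⟨a1, -, a3⟩ := hs (m - 2) (by omega) (by omega)
  have pD : S.ρ (m - 2) (s (m - 2)) ∈ S.Dp 0 t := ht.Dp_pres h a1 (Or.inl (by omega))
  have qD : S.ρ (m - 1) (S.ρ (m - 2) (s (m - 2))) ∈ S.Dp 0 t :=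
    ht.Dp_pres h pD (Or.inl (by omega))
  have b1 := ht.Dp_hi h qD
  have b2 := S.hi_step (m - 1) (S.ρ (m - 2) (s (m - 2)))
  have b3 := S.mv_hi (S.ρ (m - 2) (s (m - 2)))
  rw [a3, show m - 2 + 1 = m - 1 by omega] at b3
  have e01 : S.ρ 0 (t 0) = t 1 := ht.2.2.2.1 0 le_rfl (by omega)
  have n01 : t 0 ≠ t 1 := ht.2.2.2.2.2
  have l0 : S.lo (t 0) = 0 := Nat.le_zero.1 (S.lo_le (by rw [e01]; exact n01.symm))
  have l1 : S.lo (t 1) = 0 := by have := (ht.2.2.1 1 (by omega) (by omega)).1; omega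
  obtain ⟨o, ho, hn⟩ : ∃ o ∈ S.lev 0, o ∉ ({t 0, t 1} : Finset Ω) := by
    apply exists_mem_notMem_of_card_lt_card
    have h5 : ({t 0, t 1} : Finset Ω).card ≤ 2 := card_le_two
    have h6 : (S.lev 0).card = 4 := h4
    omega
  rw [mem_lev] at ho
  simp only [mem_insert, mem_singleton, not_or] at hn
  have mo : S.ρ 0 o ≠ o := by have := S.mv_lo o; rwa [ho] at this
  have lo' : S.lo (S.ρ 0 o) = 0 := Nat.le_zero.1 (S.lo_le (by rw [S.inv]; exact mo.symm))
  have n0 : S.ρ 0 o ≠ t 0 := fun e => hn.2 (by rw [← e01, ← e, S.inv])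
  have n1 : S.ρ 0 o ≠ t 1 := fun e => hn.1 (S.ρ_inj (e.trans e01.symm))
  have inD : ∀ z, S.lo z = 0 → z ≠ t 1 → z ∈ S.Dp 0 t := by
    intro z hz hz1
    refine S.mem_Dp.2 ⟨by omega, fun j h1 h2 e => ?_⟩
    have h3 := (ht.2.2.1 j h1 h2).1
    rw [← e, hz] at h3
    exact hz1 (by rw [e, ← h3])
  have hsub : ({t 0, t 1, o, S.ρ 0 o} : Finset Ω) ⊆ S.lev 0 := by
    intro z hz
    simp only [mem_insert, mem_singleton] at hz
    rw [mem_lev]
    rcases hz with rfl | rfl | rfl | rfl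
    exacts [l0, l1, ho, lo']
  have hcard : ({t 0, t 1, o, S.ρ 0 o} : Finset Ω).card = 4 :=
    card_eq_four.2 ⟨_, _, _, _, n01, Ne.symm hn.1, n0.symm, Ne.symm hn.2, n1.symm, mo.symm, rfl⟩
  have heq := eq_of_subset_of_card_le hsub (by rw [hcard]; exact h4.le)
  refine ⟨s, _, _, o, S.ρ 0 o, hs, rfl, rfl, ⟨pD, by omega⟩, ⟨qD, by omega⟩, b3.symm, rfl,
    mo.symm, ⟨inD o ho hn.2, hn.1⟩, ⟨inD _ lo' n1, n0⟩, fun z hz hl => ?_⟩
  have h5 : z ∈ ({t 0, t 1, o, S.ρ 0 o} : Finset Ω) := by rw [heq, mem_lev]; exact hl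
  simp only [mem_insert, mem_singleton] at h5
  rcases h5 with e | e | e | e
  · exact Or.inl e
  · exact absurd e ((S.mem_Dp.1 hz).2 1 (by omega) (by omega))
  · exact Or.inr (Or.inl e)
  · exact Or.inr (Or.inr e)

/-- there are only two spare points -/
theorem ZD.three (ht : S.Tail v 0 t) (h : S.CV v) (d : ZD S t s p q o o') {a b c : Ω}
    (ha : Spr S t s p q a) (hb : Spr S t s p q b) (hc : Spr S t s p q c) (hab : a ≠ b)
    (hac : a ≠ c) (hbc : b ≠ c) : False := by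
  have hm := S.hm
  have hp := d.pD.2
  have hq := d.qD.2
  have key : ∀ z, Spr S t s p q z → z ∉ insert p (insert q ((Icc 1 (m - 2)).image s)) := by
    intro z hz hh
    simp only [mem_insert, mem_image, mem_Icc] at hh
    rcases hh with e | e | ⟨j, hj, e⟩
    · exact hz.2.2.1 e
    · exact hz.2.2.2 e
    · have h1 := (d.hs j (by omega) (by omega)).2.1
      rw [e] at h1
      exact hz.2.1 (by omega) (by omega) (by rw [h1, e])
  have top : ∀ z, S.hi z + 1 = m → z ∉ (Icc 1 (m - 2)).image s := by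
    intro z hz hh
    obtain ⟨j, hj, e⟩ := mem_image.1 hh
    rw [mem_Icc] at hj
    have h1 := (d.hs j (by omega) (by omega)).2.1
    rw [e] at h1
    omega
  have c1 : ((Icc 1 (m - 2)).image s).card = m - 2 := by
    rw [card_image_of_injOn, Nat.card_Icc]
    · omega
    · intro i hi j hj e
      rw [mem_coe, mem_Icc] at hi hj
      rw [← (d.hs i (by omega) (by omega)).2.1, e, (d.hs j (by omega) (by omega)).2.1]
  have c2 : (insert p (insert q ((Icc 1 (m - 2)).image s))).card = m := by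
    rw [card_insert_of_notMem, card_insert_of_notMem (top q hq), c1]
    · omega
    · rw [mem_insert, not_or]
      exact ⟨d.pq, top p hp⟩
  have c3 : (insert a (insert b (insert c
      (insert p (insert q ((Icc 1 (m - 2)).image s)))))).card = m + 3 := by
    rw [card_insert_of_notMem, card_insert_of_notMem, card_insert_of_notMem (key c hc), c2]
    · rw [mem_insert, not_or]
      exact ⟨hbc, key b hb⟩
    · rw [mem_insert, mem_insert, not_or, not_or]
      exact ⟨hab, hac, key a ha⟩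
  have hsub : insert a (insert b (insert c
      (insert p (insert q ((Icc 1 (m - 2)).image s))))) ⊆ S.Dp 0 t := by
    intro z hz
    simp only [mem_insert, mem_image, mem_Icc] at hz
    rcases hz with rfl | rfl | rfl | rfl | rfl | ⟨j, hj, rfl⟩
    exacts [ha.1, hb.1, hc.1, d.pD.1, d.qD.1, (d.hs j (by omega) (by omega)).1]
  have c4 := card_le_card hsub
  rw [c3, ht.card_Dp h] at c4
  omega

theorem ZD.cov (ht : S.Tail v 0 t) (h : S.CV v) (d : ZD S t s p q o o') {a b : Ω}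
    (ha : Spr S t s p q a) (hb : Spr S t s p q b) (hab : a ≠ b) {z : Ω} (hz : z ∈ S.Dp 0 t) :
    z = a ∨ z = b ∨ (0 < S.hi z ∧ S.hi z + 2 ≤ m ∧ z = s (S.hi z)) ∨ z = p ∨ z = q := by
  by_contra hh
  simp only [not_or, not_and] at hh
  exact d.three ht h ha hb ⟨hz, hh.2.2.1, hh.2.2.2.1, hh.2.2.2.2⟩ hab (Ne.symm hh.1)
    (Ne.symm hh.2.1)

/-- a middle value of `hi` not taken by a spare point is taken once -/
theorem ZD.one (ht : S.Tail v 0 t) (h : S.CV v) (d : ZD S t s p q o o') {a b : Ω}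
    (ha : Spr S t s p q a) (hb : Spr S t s p q b) (hab : a ≠ b) {z : Ω} (hz : z ∈ S.Dp 0 t)
    {j : ℕ} (hj : S.hi z = j) (h1 : j + 2 ≤ m) (h2 : z ≠ a) (h3 : z ≠ b) : z = s j := by
  have hp := d.pD.2
  have hq := d.qD.2
  rcases d.cov ht h ha hb hab hz with e | e | e | e | e
  · exact absurd e h2
  · exact absurd e h3
  · rw [← hj]; exact e.2.2
  · rw [← e] at hp; omega
  · rw [← e] at hq; omega

theorem ZD.fix (ht : S.Tail v 0 t) (h : S.CV v) (d : ZD S t s p q o o') {a b : Ω}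
    (ha : Spr S t s p q a) (hb : Spr S t s p q b) (hab : a ≠ b) (la : S.hi a ≤ 2)
    (lb : S.hi b ≤ 2) {z : Ω} (hz : z ∈ S.Dp 0 t) (h3 : 3 ≤ S.hi z) : S.ρ 1 z = z := by
  have hm := S.hm
  have f1 : ∀ j, 3 ≤ j → j + 2 ≤ m → S.ρ 1 (s j) = s j := by
    intro j h1 h2
    obtain ⟨b1, b2, -⟩ := d.hs j (by omega) h2
    have b3 : S.hi (S.ρ 1 (s j)) = j := by rw [S.hi_far (by omega), b2]
    exact d.one ht h ha hb hab (ht.Dp_pres h b1 (Or.inl (by omega))) b3 h2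
      (fun e => by rw [e] at b3; omega) (fun e => by rw [e] at b3; omega)
  have f2 : S.ρ 1 p = p := by
    rw [← d.hp, S.comm 1 (m - 2) (by omega), f1 (m - 2) (by omega) (by omega)]
  have f3 : S.ρ 1 q = q := by rw [← d.hq, S.comm 1 (m - 1) (by omega), f2]
  rcases d.cov ht h ha hb hab hz with e | e | e | e | e
  · rw [e] at h3; omega
  · rw [e] at h3; omega
  · rw [e.2.2]; exact f1 _ h3 e.2.1
  · rw [e]; exact f2
  · rw [e]; exact f3

theorem ZD.lo_o (d : ZD S t s p q o o') : S.lo o = 0 :=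
  Nat.le_zero.1 (S.lo_le (by rw [d.oo]; exact d.ne.symm))

/-- the labels `≥ 2` preserve the pair -/
theorem ZD.pres (ht : S.Tail v 0 t) (h : S.CV v) (d : ZD S t s p q o o') {i : ℕ} (hi : 2 ≤ i) :
    S.ρ i o = o ∨ S.ρ i o = o' := by
  have h1 : S.lo (S.ρ i o) = 0 := by rw [S.lo_far (by rw [d.lo_o]; omega), d.lo_o]
  have h2 : S.hi (t 0) = 1 := ht.2.2.2.2.1
  rcases d.lev _ (ht.Dp_pres h d.oD.1 (Or.inr d.oD.2)) h1 with e | e
  · exact absurd ((S.ρ_swap e).symm.trans (S.fix_hi (by omega))) d.oD.2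
  · exact e

/-- the label `1` does not preserve the pair -/
theorem ZD.closed (ht : S.Tail v 0 t) (h : S.CV v) (d : ZD S t s p q o o')
    (h1 : S.ρ 1 o = o ∨ S.ρ 1 o = o') (h2 : S.ρ 1 o' = o' ∨ S.ρ 1 o' = o) : False := by
  refine ht.conn h (U := {z | z = o ∨ z = o'}) ?_ ?_ o (Or.inl rfl)
  · rintro z (rfl | rfl)
    exacts [d.oD, d.oD']
  · intro i _ z hz
    rcases Nat.lt_or_ge i 2 with hi | hi
    · interval_cases i
      · rcases hz with rfl | rfl
        exacts [Or.inr d.oo, Or.inl d.symm.oo]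
      · rcases hz with rfl | rfl
        exacts [h1, h2.symm]
    · rcases hz with rfl | rfl
      exacts [d.pres ht h hi, (d.symm.pres ht h hi).symm]

/-- four points moved by a label are not all of them -/
theorem Tail.not_four (ht : S.Tail v 0 t) (h : S.CV v) {j : ℕ} (h1 : 0 < j) (h2 : j < m)
    {a b c e : Ω} (hab : a ≠ b) (hac : a ≠ c) (hae : a ≠ e) (hbc : b ≠ c) (hbe : b ≠ e)
    (hce : c ≠ e) (ha : a ∈ S.Dp 0 t ∧ S.ρ j a ≠ a) (hb : b ∈ S.Dp 0 t ∧ S.ρ j b ≠ b)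
    (hc : c ∈ S.Dp 0 t ∧ S.ρ j c ≠ c) (he : e ∈ S.Dp 0 t ∧ S.ρ j e ≠ e)
    (hall : ∀ z ∈ S.Dp 0 t, S.ρ j z ≠ z → z = a ∨ z = b ∨ z = c ∨ z = e) : False := by
  have h3 := ht.odd h h1 h2
  have h4 : (S.Dp 0 t).filter (fun z => S.ρ j z ≠ z) = {a, b, c, e} := by
    ext z
    simp only [mem_filter, mem_insert, mem_singleton]
    refine ⟨fun hz => hall z hz.1 hz.2, ?_⟩
    rintro (rfl | rfl | rfl | rfl)
    exacts [ha, hb, hc, he]
  rw [h4, card_eq_four.2 ⟨_, _, _, _, hab, hac, hae, hbc, hbe, hce, rfl⟩] at h3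
  omega

theorem mv_of_hi {z : Ω} {j : ℕ} (h : S.hi z = j) : S.ρ j z ≠ z := h ▸ S.mv_hi z

theorem ZD.hi_eq (d : ZD S t s p q o o') (h2 : 2 ≤ S.hi o) : S.hi o' = S.hi o := by
  rw [← d.oo, S.hi_far (by omega)]

/-- the pair is not at the top -/
theorem ZD.top (ht : S.Tail v 0 t) (h : S.CV v) (d : ZD S t s p q o o') (ho : S.hi o + 1 = m) :
    False := by
  have hm := S.hm
  have ho' := d.hi_eq (by omega)
  have hp := d.pD.2
  have hq := d.qD.2
  have b2 := (d.hs (m - 2) (by omega) (by omega)).2.1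
  have key : ∀ {o o'}, ZD S t s p q o o' → S.hi o + 1 = m → S.hi o' + 1 = m → o ≠ p := by
    intro o o' d h1 h2 e
    have h3 := S.ρ_swap d.hp
    rcases d.pres ht h (i := m - 2) (by omega) with e' | e'
    · rw [← e, e'] at h3; rw [← h3] at b2; omega
    · rw [← e, e'] at h3; rw [← h3] at b2; omega
  have n1 : o ≠ p := key d ho (by omega)
  have n2 : o' ≠ p := key d.symm (by omega) ho
  have key2 : ∀ {o o'}, ZD S t s p q o o' → o ≠ p → o' ≠ p → o ≠ q := by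
    intro o o' d h1 h2 e
    have h3 := S.ρ_swap d.hq
    rcases d.pres ht h (i := m - 1) (by omega) with e' | e'
    · rw [← e, e'] at h3; exact h1 h3
    · rw [← e, e'] at h3; exact h2 h3
  have n3 : o ≠ q := key2 d n1 n2
  have n4 : o' ≠ q := key2 d.symm n2 n1
  refine ht.not_four h (j := m - 1) (by omega) (by omega) d.ne n1 n3 n2 n4 d.pq
    ⟨d.oD.1, mv_of_hi (by omega)⟩ ⟨d.oD'.1, mv_of_hi (by omega)⟩ ⟨d.pD.1, mv_of_hi (by omega)⟩
    ⟨d.qD.1, mv_of_hi (by omega)⟩ fun z hz hmv => ?_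
  have h5 := S.le_hi hmv
  rcases d.cov ht h (a := o) (b := o') ⟨d.oD.1, fun _ _ => by omega, n1, n3⟩
    ⟨d.oD'.1, fun _ _ => by omega, n2, n4⟩ d.ne hz with e | e | e | e | e
  · exact Or.inl e
  · exact Or.inr (Or.inl e)
  · omega
  · exact Or.inr (Or.inr (Or.inl e))
  · exact Or.inr (Or.inr (Or.inr e))

/-- a point below the top which is not the crossing point is spare -/
theorem ZD.spr (d : ZD S t s p q o o') {z : Ω} (hz : z ∈ S.Dp 0 t) (h1 : S.hi z + 2 ≤ m)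
    (h2 : 0 < S.hi z → z ≠ s (S.hi z)) : Spr S t s p q z := by
  have hp := d.pD.2
  have hq := d.qD.2
  exact ⟨hz, fun h3 _ => h2 h3, fun e => by rw [← e] at hp; omega,
    fun e => by rw [← e] at hq; omega⟩

theorem ZD.mid_spr (ht : S.Tail v 0 t) (h : S.CV v) (d : ZD S t s p q o o') (h2 : 2 ≤ S.hi o)
    (h3 : S.hi o + 2 ≤ m) : Spr S t s p q o := by
  refine d.spr d.oD.1 h3 fun h0 e => ?_
  have h4 := (d.hs _ h0 h3).2.2
  have h5 := d.hi_eq h2
  rw [← e] at h4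
  rcases d.pres ht h h2 with e' | e'
  · rw [e'] at h4; omega
  · rw [e'] at h4; omega

theorem ZD.mid3 (ht : S.Tail v 0 t) (h : S.CV v) (d : ZD S t s p q o o') (h2 : 3 ≤ S.hi o)
    (h3 : S.hi o + 2 ≤ m) : S.ρ 1 o = o ∨ S.ρ 1 o = o' := by
  by_contra hh
  rw [not_or] at hh
  have h5 := d.hi_eq (by omega)
  have e1 : S.ρ 1 o = s (S.hi o) :=
    d.one ht h (d.mid_spr ht h (by omega) h3) (d.symm.mid_spr ht h (by omega) (by omega)) d.ne
      (ht.Dp_pres h d.oD.1 (Or.inl (by omega))) (S.hi_far (by omega)) h3 hh.1 hh.2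
  have e2 : S.ρ (S.hi o) o = o' := (d.pres ht h (by omega)).resolve_left (S.mv_hi o)
  have h6 := (d.hs _ (by omega) h3).2.2
  rw [← e1, ← S.comm 1 (S.hi o) (by omega), e2, S.hi_far (by omega)] at h6
  omega

theorem ZD.mid2 (ht : S.Tail v 0 t) (h : S.CV v) (d : ZD S t s p q o o') (h2 : S.hi o = 2)
    (e : S.ρ 1 (t 0) = o) : False := by
  have hm := S.hm
  have h5 := d.hi_eq (by omega)
  have so := d.mid_spr ht h (by omega) (by omega)
  have so' := d.symm.mid_spr ht h (by omega) (by omega)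
  have hu : S.hi (t 0) = 1 := ht.2.2.2.2.1
  have uD := ht.mem_Dp h
  obtain ⟨b1, b2, -⟩ := d.hs 2 (by omega) (by omega)
  have n1 : o ≠ s 2 := by have := so.2.1 (by omega) (by omega); rwa [h2] at this
  have n2 : o' ≠ s 2 := by have := so'.2.1 (by omega) (by omega); rwa [h5, h2] at this
  have n3 : t 0 ≠ s 2 := fun e => by rw [← e] at b2; omega
  have eu : t 0 = s 1 := d.one ht h so so' d.ne uD hu (by omega) d.oD.2.symm d.oD'.2.symm
  have hall : ∀ z ∈ S.Dp 0 t, S.ρ 1 z ≠ z → z = t 0 ∨ z = o ∨ z = o' ∨ z = s 2 := by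
    intro z hz hmv
    by_contra hh
    simp only [not_or] at hh
    have h6 := S.le_hi hmv
    rcases Nat.lt_or_ge (S.hi z) 3 with h7 | h7
    · have h8 := d.one ht h so so' d.ne hz rfl (by omega) hh.2.1 hh.2.2.1
      rcases (by omega : S.hi z = 1 ∨ S.hi z = 2) with h9 | h9
      · rw [h9] at h8; exact hh.1 (h8.trans eu.symm)
      · rw [h9] at h8; exact hh.2.2.2 h8
    · exact hmv (d.fix ht h so so' d.ne (by omega) (by omega) hz h7)
  have f2 : S.ρ 1 (s 2) = s 2 := by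
    by_contra hh
    rcases hall _ (ht.Dp_pres h b1 (i := 1) (Or.inl (by omega)))
      (by rw [S.inv]; exact Ne.symm hh) with e' | e' | e' | e'
    · exact n1 (e.symm.trans (S.ρ_swap e'))
    · exact n3 (S.ρ_inj (e.trans e'.symm))
    · refine ht.not_four h (j := 1) (by omega) (by omega) d.oD.2.symm d.oD'.2.symm n3 d.ne n1 n2
        ⟨uD, mv_of_hi hu⟩ ⟨d.oD.1, ?_⟩ ⟨d.oD'.1, ?_⟩ ⟨b1, hh⟩ hall
      · rw [S.ρ_swap e]; exact d.oD.2.symm
      · rw [S.ρ_swap e']; exact n2.symm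
    · exact hh e'
  refine ht.conn h (U := {z | z ∈ S.Dp 0 t ∧ z ≠ t 0 ∧ z ≠ o ∧ z ≠ o'})
    (fun z hz => ⟨hz.1, hz.2.1⟩) ?_ (s 2) ⟨b1, n3.symm, n1.symm, n2.symm⟩
  intro i _ z hz
  rcases Nat.lt_or_ge i 2 with hi | hi
  · have fz : S.ρ i z = z := by
      by_contra hh
      interval_cases i
      · rcases d.lev z hz.1 (Nat.le_zero.1 (S.lo_le hh)) with e' | e' | e'
        exacts [hz.2.1 e', hz.2.2.1 e', hz.2.2.2 e']
      · rcases hall z hz.1 hh with e' | e' | e' | e'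
        exacts [hz.2.1 e', hz.2.2.1 e', hz.2.2.2 e', hh (by rw [e', f2])]
    rw [fz]; exact hz
  · refine ⟨ht.Dp_pres h hz.1 (Or.inl (by omega)), fun e' => ?_, fun e' => ?_, fun e' => ?_⟩
    · exact hz.2.1 ((S.ρ_swap e').symm.trans (S.fix_hi (by omega)))
    · rcases d.pres ht h hi with e2 | e2
      exacts [hz.2.2.1 ((S.ρ_swap e').symm.trans e2), hz.2.2.2 ((S.ρ_swap e').symm.trans e2)]
    · rcases d.symm.pres ht h hi with e2 | e2
      exacts [hz.2.2.2 ((S.ρ_swap e').symm.trans e2), hz.2.2.1 ((S.ρ_swap e').symm.trans e2)]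

theorem ZD.mid2' (ht : S.Tail v 0 t) (h : S.CV v) (d : ZD S t s p q o o') (h2 : S.hi o = 2)
    (e : S.ρ 1 (t 0) = s 2) : S.ρ 1 o = o ∨ S.ρ 1 o = o' := by
  by_contra hh
  rw [not_or] at hh
  have hm := S.hm
  have h5 := d.hi_eq (by omega)
  have so := d.mid_spr ht h (by omega) (by omega)
  have so' := d.symm.mid_spr ht h (by omega) (by omega)
  have hu : S.hi (t 0) = 1 := ht.2.2.2.2.1
  have n1 : o ≠ s 2 := by have := so.2.1 (by omega) (by omega); rwa [h2] at this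
  have eu : t 0 = s 1 :=
    d.one ht h so so' d.ne (ht.mem_Dp h) hu (by omega) d.oD.2.symm d.oD'.2.symm
  have h6 := S.hi_step 1 o
  have h7 := d.one ht h so so' d.ne (ht.Dp_pres h d.oD.1 (Or.inl (by omega)) (i := 1)) rfl
    (by omega) hh.1 hh.2
  rcases (by omega : S.hi (S.ρ 1 o) = 1 ∨ S.hi (S.ρ 1 o) = 2) with h9 | h9
  · rw [h9, ← eu] at h7
    exact n1 ((S.ρ_swap h7).symm.trans e)
  · rw [h9] at h7
    exact d.oD.2 (S.ρ_inj (h7.trans e.symm))

theorem ZD.big (ht : S.Tail v 0 t) (h : S.CV v) (d : ZD S t s p q o o') (h2 : 2 ≤ S.hi o) :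
    False := by
  have hm := S.hm
  have h5 := d.hi_eq h2
  have h6 := ht.Dp_hi h d.oD.1
  by_cases h7 : S.hi o + 1 = m
  · exact d.top ht h h7
  by_cases h8 : 3 ≤ S.hi o
  · exact d.closed ht h (d.mid3 ht h h8 (by omega)) (d.symm.mid3 ht h (by omega) (by omega))
  have so := d.mid_spr ht h (by omega) (by omega)
  have so' := d.symm.mid_spr ht h (by omega) (by omega)
  have hu : S.hi (t 0) = 1 := ht.2.2.2.2.1
  have uD := ht.mem_Dp h
  have eu : t 0 = s 1 := d.one ht h so so' d.ne uD hu (by omega) d.oD.2.symm d.oD'.2.symm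
  have h9 := (d.hs 1 (by omega) (by omega)).2.2
  rw [← eu] at h9
  by_cases e1 : S.ρ 1 (t 0) = o
  · exact d.mid2 ht h (by omega) e1
  by_cases e2 : S.ρ 1 (t 0) = o'
  · exact d.symm.mid2 ht h (by omega) e2
  have e3 := d.one ht h so so' d.ne (ht.Dp_pres h uD (Or.inl (by omega)) (i := 1)) h9
    (by omega) e1 e2
  exact d.closed ht h (d.mid2' ht h (by omega) e3) (d.symm.mid2' ht h (by omega) e3)

/-- one spare point with `hi = 0`, the other one with `hi = 1` -/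
theorem ZD.low01 (ht : S.Tail v 0 t) (h : S.CV v) (d : ZD S t s p q o o') {a b : Ω}
    (ha : a ∈ S.Dp 0 t) (hb : b ∈ S.Dp 0 t) (la : S.hi a = 0) (lb : S.hi b = 1) (hn : b ≠ s 1) :
    False := by
  have hm := S.hm
  have sa := d.spr ha (by omega) (by omega)
  have sb := d.spr hb (by omega) (fun _ => by rwa [lb])
  have hab : a ≠ b := fun e => by rw [e] at la; omega
  obtain ⟨b1, b2, b3⟩ := d.hs 1 (by omega) (by omega)
  have e1 : S.ρ 1 (s 1) = s 2 :=
    d.one ht h sa sb hab (ht.Dp_pres h b1 (Or.inl (by omega))) b3 (by omega)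
      (fun e => by rw [e] at b3; omega) (fun e => by rw [e] at b3; omega)
  have h6 := S.hi_step 1 b
  have h7 := d.one ht h sa sb hab (ht.Dp_pres h hb (Or.inl (by omega)) (i := 1)) rfl (by omega)
    (fun e => by rw [e] at h6; omega) (mv_of_hi lb)
  rcases (by omega : S.hi (S.ρ 1 b) = 1 ∨ S.hi (S.ρ 1 b) = 2) with h9 | h9
  · rw [h9] at h7
    rw [S.ρ_swap h7] at b3
    omega
  · rw [h9] at h7
    exact hn (S.ρ_inj (h7.trans e1.symm))

/-- both spare points have `hi = 1` -/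
theorem ZD.low11 (ht : S.Tail v 0 t) (h : S.CV v) (d : ZD S t s p q o o') {a b : Ω}
    (ha : a ∈ S.Dp 0 t) (hb : b ∈ S.Dp 0 t) (la : S.hi a = 1) (lb : S.hi b = 1) (hab : a ≠ b)
    (hn : a ≠ s 1) (hn' : b ≠ s 1) : False := by
  have hm := S.hm
  have sa := d.spr ha (by omega) (fun _ => by rwa [la])
  have sb := d.spr hb (by omega) (fun _ => by rwa [lb])
  obtain ⟨b1, b2, b3⟩ := d.hs 1 (by omega) (by omega)
  obtain ⟨c1, c2, -⟩ := d.hs 2 (by omega) (by omega)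
  have e1 : S.ρ 1 (s 1) = s 2 :=
    d.one ht h sa sb hab (ht.Dp_pres h b1 (Or.inl (by omega))) b3 (by omega)
      (fun e => by rw [e] at b3; omega) (fun e => by rw [e] at b3; omega)
  have n12 : s 1 ≠ s 2 := fun e => by rw [e] at b2; omega
  refine ht.not_four h (j := 1) (by omega) (by omega) hab hn (fun e => by rw [e] at la; omega) hn'
    (fun e => by rw [e] at lb; omega) n12 ⟨ha, mv_of_hi la⟩ ⟨hb, mv_of_hi lb⟩ ⟨b1, mv_of_hi b2⟩
    ⟨c1, by rw [S.ρ_swap e1]; exact n12⟩ fun z hz hmv => ?_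
  by_contra hh
  simp only [not_or] at hh
  have h6 := S.le_hi hmv
  rcases Nat.lt_or_ge (S.hi z) 3 with h7 | h7
  · have h8 := d.one ht h sa sb hab hz rfl (by omega) hh.1 hh.2.1
    rcases (by omega : S.hi z = 1 ∨ S.hi z = 2) with h9 | h9
    · rw [h9] at h8; exact hh.2.2.1 h8
    · rw [h9] at h8; exact hh.2.2.2 h8
  · exact hmv (d.fix ht h sa sb hab (by omega) (by omega) hz h7)

theorem Tail.cvz (ht : S.Tail v 0 t) (h : S.CV v) (h4 : S.a 0 = 4) : False := by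
  obtain ⟨s, p, q, o, o', d⟩ := ZD.exists ht h h4
  by_cases h1 : 2 ≤ S.hi o
  · exact d.big ht h h1
  by_cases h2 : 2 ≤ S.hi o'
  · exact d.symm.big ht h h2
  have hu : S.hi (t 0) = 1 := ht.2.2.2.2.1
  have uD := ht.mem_Dp h
  have key : ∀ {o o'}, ZD S t s p q o o' → S.hi o = 0 → S.hi o' = 1 → False := by
    intro o o' d h3 h5
    by_cases e : t 0 = s 1
    · exact d.low01 ht h d.oD.1 d.oD'.1 h3 h5 (e ▸ d.oD'.2)
    · exact d.low01 ht h d.oD.1 uD h3 hu e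
  rcases (by omega : S.hi o = 0 ∨ S.hi o = 1) with h3 | h3 <;>
    rcases (by omega : S.hi o' = 0 ∨ S.hi o' = 1) with h5 | h5
  · exact d.closed ht h (Or.inl (S.fix_hi (by omega))) (Or.inl (S.fix_hi (by omega)))
  · exact key d h3 h5
  · exact key d.symm h5 h3
  · by_cases e : t 0 = s 1
    · exact d.low11 ht h d.oD.1 d.oD'.1 h3 h5 d.ne (e ▸ d.oD.2) (e ▸ d.oD'.2)
    · by_cases e' : o = s 1
      · exact d.low11 ht h uD d.oD'.1 hu h5 d.oD'.2.symm e (e' ▸ d.ne.symm)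
      · exact d.low11 ht h uD d.oD.1 hu h3 d.oD.2.symm e e'

end SD
end D145
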