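import Pool.Agent.MP_d145c0_al.H75.CV1
import Pool.Agent.MP_d145c0_al.H75.CVz
import Pool.Agent.MP_d145c0_al.H75.CVy1
import Pool.Agent.MP_d145c0_al.H75.CVy2
import Pool.Agent.MP_d145c0_al.H75.CVl1
import Pool.Agent.MP_d145c0_al.H75.CVl2

/-! The classification. -/

namespace D145
open Equiv Finset
namespace SD
variable {Ω : Type} [Fintype Ω] [DecidableEq Ω] {m : ℕ} (S : SD Ω m)

theorem classify : ∃ v, ∃ ty ∈ types m, S.CV v ∧ S.Shape v ty := by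
  obtain ⟨v, hv, h4, h2⟩ := S.cv1
  obtain ⟨k, t, ht⟩ := hv.tail
  rcases Nat.eq_zero_or_pos k with rfl | hk
  · exact (ht.cvz hv h4).elim
  rcases (S.Yp k t).eq_empty_or_nonempty with hY | hY
  · obtain ⟨hk2, O, hO, h0⟩ := ht.cvy1 hv hk h4 h2 hY
    exact (ht.cvy2 hv hk2 h4 h2 hY hO h0).elim
  · obtain ⟨τ, s, hT⟩ := ht.cvx hv hk h4 h2 hY
    obtain ⟨ty, h1, h3⟩ := ht.cvl2 hv hk h4 hT (ht.cvl1 hv hk h4 hT)
    exact ⟨v, ty, h1, hv, h3⟩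

end SD
end D145
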