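import Pool.Agent.MP_d145c0_al.H75.Stmt
import Pool.Agent.MP_d145c0_al.H75.Aut
import Pool.Agent.MP_d145c0_al.H75.Main

/-! From abstract string C-groups to permutations, and the upper bound. -/

namespace D145
open Equiv

namespace BridgeAux

theorem central {Ω : Type} [Fintype Ω] [DecidableEq Ω] (hn : 4 ≤ Fintype.card Ω) {c : Perm Ω}
    (h : ∀ g ∈ alternatingGroup Ω, c * g = g * c) (x : Ω) : c x = x := by
  by_contra hx
  have h2 : 1 < (Finset.univ \ {x, c x} : Finset Ω).card := by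
    have := Finset.card_le_two (a := x) (b := c x)
    rw [Finset.card_univ_sdiff]
    omega
  obtain ⟨z, hz, w, hw, hzw⟩ := Finset.one_lt_card.1 h2
  simp only [Finset.mem_sdiff, Finset.mem_univ, Finset.mem_insert, Finset.mem_singleton, not_or,
    true_and] at hz hw
  have hg : swap (c x) z * swap (c x) w ∈ alternatingGroup Ω := by
    simp [Perm.mem_alternatingGroup, Perm.sign_swap (Ne.symm hz.2), Perm.sign_swap (Ne.symm hw.2)]
  have := congrArg (fun g : Perm Ω => g x) (h _ hg)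
  simp only [Perm.mul_apply, swap_apply_left] at this
  rw [swap_apply_of_ne_of_ne (Ne.symm hx) (Ne.symm hw.1),
    swap_apply_of_ne_of_ne (Ne.symm hx) (Ne.symm hz.1),
    swap_apply_of_ne_of_ne hw.2 (Ne.symm hzw)] at this
  exact hw.2 this.symm

/-- extension of a family by the identity -/
def ext {H : Type} [One H] {r : ℕ} (ρ : Fin r → H) (i : ℕ) : H :=
  if h : i < r then ρ ⟨i, h⟩ else 1

theorem ext_lt {H : Type} [One H] {r : ℕ} (ρ : Fin r → H) {i : ℕ} (h : i < r) :
    ext ρ i = ρ ⟨i, h⟩ := dif_pos h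

theorem ext_ge {H : Type} [One H] {r : ℕ} (ρ : Fin r → H) {i : ℕ} (h : r ≤ i) : ext ρ i = 1 :=
  dif_neg (not_lt.2 h)

theorem gen_ext {Ω G : Type} [Group G] {r : ℕ} (f : G →* Perm Ω) (ρ : Fin r → G) (I : Set ℕ) :
    Gen (ext (f ∘ ρ)) I = (Subgroup.closure (ρ '' {j | (j : ℕ) ∈ I})).map f := by
  rw [MonoidHom.map_closure, Gen]
  refine le_antisymm ((Subgroup.closure_le _).2 ?_) (Subgroup.closure_mono ?_)
  · rintro _ ⟨i, hi, rfl⟩
    rcases lt_or_ge i r with h | h
    · rw [ext_lt _ h]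
      exact Subgroup.subset_closure ⟨_, ⟨⟨i, h⟩, hi, rfl⟩, rfl⟩
    · rw [ext_ge _ h]
      exact one_mem _
  · rintro _ ⟨_, ⟨j, hj, rfl⟩, rfl⟩
    exact ⟨j, hj, ext_lt _ j.2⟩

end BridgeAux

open BridgeAux

theorem exists_SD {m : ℕ} (hm : 5 ≤ m) (A : SDA (4 * m + 3) (2 * m)) :
    letI := A.grp
    ∃ (S : SD (Fin (4 * m + 3)) m) (ψ : A.G ≃* alternatingGroup (Fin (4 * m + 3))),
      ∀ i : Fin (2 * m), ((ψ (A.ρ i) : alternatingGroup (Fin (4 * m + 3))) : Perm _) = S.ρ i := by
  let := A.grp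
  obtain ⟨ψ⟩ := A.alt
  obtain ⟨φ, hφ⟩ := A.sd
  obtain ⟨h1, h2, h3, h4⟩ := A.isC
  let f : A.G →* Perm (Fin (4 * m + 3)) := (alternatingGroup _).subtype.comp ψ.toMonoidHom
  have hf : Function.Injective f := Subtype.val_injective.comp ψ.injective
  obtain ⟨d, hd⟩ := aut_alt (by rw [Fintype.card_fin]; omega) (ψ.symm.trans (φ.trans ψ))
  have hd' : ∀ g, f (φ g) = d * f g * d⁻¹ := fun g => by simpa [f] using hd (ψ g)
  have sq : ∀ i, ext (f ∘ A.ρ) i * ext (f ∘ A.ρ) i = 1 := fun i => by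
    rcases lt_or_ge i (2 * m) with h | h
    · rw [ext_lt _ h, Function.comp_apply, ← map_mul, ← pow_two, (h1 _).2, map_one]
    · rw [ext_ge _ h, one_mul]
  have gen : Subgroup.closure (Set.range (ext (f ∘ A.ρ))) = alternatingGroup _ := by
    have := gen_ext f A.ρ Set.univ
    rw [Gen, Set.image_univ] at this
    rw [this]
    simp only [Set.mem_univ, Set.ofPred_true, Set.image_univ, h3]
    ext g
    exact ⟨fun ⟨a, _, e⟩ => e ▸ (ψ a).2, fun hg => ⟨ψ.symm ⟨g, hg⟩, trivial, by simp [f]⟩⟩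
  have φ2 : ∀ g, φ (φ g) = g := fun g => by
    have hg : g ∈ Subgroup.closure (Set.range A.ρ) := h3 ▸ Subgroup.mem_top g
    induction hg using Subgroup.closure_induction with
    | mem _ hx => obtain ⟨i, rfl⟩ := hx; rw [hφ, hφ, Fin.rev_rev]
    | one => simp
    | mul _ _ _ _ a b => simp [a, b]
    | inv _ _ a => simp [a]
  refine ⟨{ ρ := ext (f ∘ A.ρ)
            δ := d
            hm := hm
            card := Fintype.card_fin _
            triv := fun i h => ext_ge _ h
            inv := fun i x => by rw [← Perm.mul_apply, sq, Perm.one_apply]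
            ne := fun i h e => (h1 ⟨i, h⟩).1 (hf (by rw [map_one, ← e, ext_lt _ h]; rfl))
            comm := fun i j hij x => ?_
            even := fun i => Perm.mem_alternatingGroup.1
              (gen ▸ Subgroup.subset_closure (Set.mem_range_self i))
            gen := gen
            ip := fun k l => ?_
            dinv := fun x => central (c := d * d) (by rw [Fintype.card_fin]; omega)
              (fun g hg => ?_) x
            dual := fun i h x => ?_ }, ψ, fun i => (ext_lt (f ∘ A.ρ) i.2).symm⟩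
  · rcases lt_or_ge j (2 * m) with h | h
    · have hi : i < 2 * m := by omega
      have e : ext (f ∘ A.ρ) i * ext (f ∘ A.ρ) j * (ext (f ∘ A.ρ) i * ext (f ∘ A.ρ) j) = 1 := by
        rw [ext_lt _ h, ext_lt _ hi, Function.comp_apply, Function.comp_apply, ← map_mul,
          ← map_mul, ← pow_two, h2 ⟨i, hi⟩ ⟨j, h⟩ hij, map_one]
      rw [← Perm.mul_apply, eq_inv_of_mul_eq_one_left e, mul_inv_rev,
        ← eq_inv_of_mul_eq_one_left (sq i), ← eq_inv_of_mul_eq_one_left (sq j), Perm.mul_apply]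
    · simp [ext_ge _ h]
  · rw [gen_ext, gen_ext, gen_ext, ← Subgroup.map_inf_eq _ _ _ hf, h4]
    exact Subgroup.map_mono (Subgroup.closure_mono (Set.image_mono fun j hj => ⟨hj.2, hj.1⟩))
  · have e := hd' (φ (ψ.symm ⟨g, hg⟩))
    rw [φ2, hd', show f (ψ.symm ⟨g, hg⟩) = g by simp [f]] at e
    conv_rhs => rw [e]
    group
  · have e := hd' (A.ρ ⟨i, h⟩)
    have h' : 2 * m - 1 - i < 2 * m := by omega
    rw [hφ, show Fin.rev (⟨i, h⟩ : Fin (2 * m)) = ⟨2 * m - 1 - i, h'⟩ from
      Fin.ext (by simp [Fin.val_rev]; omega)] at e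
    rw [ext_lt _ h, ext_lt _ h', Function.comp_apply, Function.comp_apply, e]
    simp

theorem upper {m : ℕ} (hm : 5 ≤ m) :
    N (4 * m + 3) (2 * m) ≤ (((4 * m + 3 + 9) / 8 : ℕ) : ℕ∞) := by
  choose S ψ hψ using exists_SD hm
  choose v ty hty hv hs using fun A => (S A).classify
  rw [← card_types hm, ← Fintype.card_coe, ← ENat.card_eq_coe_fintype_card]
  refine ENat.card_le_card_of_injective (f := fun q => ⟨ty q.out, hty _⟩) fun q q' e => ?_
  have e' : ty q.out = ty q'.out := congrArg Subtype.val e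
  obtain ⟨d, hd⟩ := SD.Shape.iso (hv q.out) (hv q'.out) (hs _) (e' ▸ hs _)
  rw [← q.out_eq, ← q'.out_eq]
  let := q.out.grp
  let := q'.out.grp
  refine Quot.sound ⟨(ψ q.out).trans ((MulAut.conjNormal d).trans (ψ q'.out).symm), fun i => ?_⟩
  rw [MulEquiv.trans_apply, MulEquiv.trans_apply, MulEquiv.symm_apply_eq]
  refine Subtype.ext ?_
  rw [MulAut.conjNormal_apply, hψ, hψ]
  ext1 x
  simp [hd]

end D145
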