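import Pool.Agent.MP_d145c0_al.H75.Tri

/-! Groups generated by two involutions. -/

namespace D145
open Equiv Finset
variable {Ω : Type} [Fintype Ω] [DecidableEq Ω]

theorem dih_cases {a b : Perm Ω} (ha : ∀ x, a (a x) = x) (hb : ∀ x, b (b x) = x) {g : Perm Ω}
    (hg : g ∈ Subgroup.closure ({a, b} : Set (Perm Ω))) :
    ∃ k : ℕ, g = (a * b) ^ k ∨ g = (a * b) ^ k * a := by
  have aa : a * a = 1 := Equiv.ext ha
  have bb : b * b = 1 := Equiv.ext hb
  have ia : a⁻¹ = a := inv_eq_of_mul_eq_one_right aa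
  have ib : b⁻¹ = b := inv_eq_of_mul_eq_one_right bb
  obtain ⟨n, hn⟩ : ∃ n : ℕ, (a * b) ^ (n + 1) = 1 :=
    ⟨orderOf (a * b) - 1, by
      rw [Nat.sub_add_cancel (orderOf_pos _)]; exact pow_orderOf_eq_one _⟩
  have step : ∀ x y : Perm Ω, y ∈ ({a, b} : Set (Perm Ω)) →
      (∃ k : ℕ, x = (a * b) ^ k ∨ x = (a * b) ^ k * a) →
      ∃ k : ℕ, x * y = (a * b) ^ k ∨ x * y = (a * b) ^ k * a := by
    rintro x y (rfl | rfl) ⟨k, rfl | rfl⟩
    · exact ⟨k, .inr rfl⟩
    · exact ⟨k, .inl (by rw [mul_assoc, aa, mul_one])⟩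
    · refine ⟨k + n, .inr ?_⟩
      have : (a * y) ^ n * a = y := by
        rw [pow_succ, ← mul_assoc] at hn
        exact (eq_inv_of_mul_eq_one_left hn).trans ib
      rw [pow_add, mul_assoc, this]
    · exact ⟨k + 1, .inl (by rw [pow_succ, mul_assoc])⟩
  induction hg using Subgroup.closure_induction_right with
  | one => exact ⟨0, .inl (pow_zero _).symm⟩
  | mul_right x _ y hy ih => exact step x y hy ih
  | mul_inv_cancel x _ y hy ih =>
    have : y⁻¹ = y := by rcases hy with rfl | rfl <;> assumption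
    rw [this]
    exact step x y hy ih

omit [Fintype Ω] [DecidableEq Ω] in
theorem dih_sandwich {r c : Perm Ω} (h : r * c * r = c) (k : ℕ) (x : Ω) :
    (r ^ k) (c ((r ^ k) x)) = c x := by
  have : r ^ k * c * r ^ k = c := by
    induction k with
    | zero => simp
    | succ k ih =>
      calc r ^ (k + 1) * c * r ^ (k + 1) = r * (r ^ k * c * r ^ k) * r := by
            rw [pow_succ' r k, show r * r ^ k * c * (r * r ^ k) = r * r ^ k * c * (r ^ k * r) by
              rw [← pow_succ', ← pow_succ]]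
            simp only [mul_assoc]
        _ = c := by rw [ih, h]
  exact congrArg (fun g : Perm Ω => g x) this

omit [Fintype Ω] [DecidableEq Ω] in
theorem dih_left {a b : Perm Ω} (ha : ∀ x, a (a x) = x) (hb : ∀ x, b (b x) = x) :
    a * b * a * (a * b) = a := Equiv.ext fun x => by simp [ha, hb]

omit [Fintype Ω] [DecidableEq Ω] in
theorem dih_right {a b : Perm Ω} (ha : ∀ x, a (a x) = x) (hb : ∀ x, b (b x) = x) :
    a * b * b * (a * b) = b := Equiv.ext fun x => by simp [ha, hb]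

omit [Fintype Ω] [DecidableEq Ω] in
theorem pow_comm_apply (r : Perm Ω) (k l : ℕ) (x : Ω) :
    (r ^ k) ((r ^ l) x) = (r ^ l) ((r ^ k) x) := by
  rw [← Perm.mul_apply, ← Perm.mul_apply, ← pow_add, ← pow_add, add_comm]

omit [Fintype Ω] [DecidableEq Ω] in
theorem pow_mod_apply {r : Perm Ω} {d : ℕ} {x : Ω} (h : (r ^ d) x = x) (k : ℕ) :
    (r ^ k) x = (r ^ (k % d)) x := by
  conv_lhs => rw [← Nat.mod_add_div k d, pow_add, pow_mul, Perm.mul_apply,
    Perm.pow_apply_eq_self_of_apply_eq_self h]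

/-- a 3-cycle of a dihedral group is a rotation -/
theorem dih_rot3 {a b : Perm Ω} (ha : ∀ x, a (a x) = x) (hb : ∀ x, b (b x) = x) {x y z : Ω}
    (hxy : x ≠ y) (hyz : y ≠ z) (hxz : x ≠ z)
    (h : AltIn (Subgroup.closure ({a, b} : Set (Perm Ω))) {x, y, z}) :
    ∃ k : ℕ, ((a * b) ^ k) x = y ∧ ((a * b) ^ k) y = z ∧ ((a * b) ^ k) z = x ∧
      ∀ w, w ∉ ({x, y, z} : Set Ω) → ((a * b) ^ k) w = w := by
  have ht := h.swaps (x := x) (u := z) (v := y) (by simp) (by simp) (by simp) hxz.symm hxy.symm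
  have e1 : (swap x z * swap x y) x = y := by
    rw [Perm.mul_apply, swap_apply_left, swap_apply_of_ne_of_ne hxy.symm hyz]
  have e2 : (swap x z * swap x y) y = z := by
    rw [Perm.mul_apply, swap_apply_right, swap_apply_left]
  have e3 : (swap x z * swap x y) z = x := by
    rw [Perm.mul_apply, swap_apply_of_ne_of_ne hxz.symm hyz.symm, swap_apply_right]
  obtain ⟨k, e | e⟩ := dih_cases ha hb ht
  · refine ⟨k, e ▸ e1, e ▸ e2, e ▸ e3, fun w hw => ?_⟩
    simp only [Set.mem_insert_iff, Set.mem_singleton_iff, not_or] at hw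
    rw [← e, Perm.mul_apply, swap_apply_of_ne_of_ne hw.1 hw.2.1,
      swap_apply_of_ne_of_ne hw.1 hw.2.2]
  · rw [e, Perm.mul_apply] at e1 e2
    have := dih_sandwich (dih_left ha hb) k (a x)
    rw [e1, e2, ha] at this
    exact absurd this.symm hxz

/-- the support of a 3-cycle of a dihedral group is invariant -/
theorem dk3 {a b : Perm Ω} (ha : ∀ x, a (a x) = x) (hb : ∀ x, b (b x) = x) {x y z : Ω}
    (hxy : x ≠ y) (hyz : y ≠ z) (hxz : x ≠ z)
    (h : AltIn (Subgroup.closure ({a, b} : Set (Perm Ω))) {x, y, z}) :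
    ∀ w ∈ ({x, y, z} : Set Ω), a w ∈ ({x, y, z} : Set Ω) ∧ b w ∈ ({x, y, z} : Set Ω) := by
  obtain ⟨k, e1, e2, e3, e4⟩ := dih_rot3 ha hb hxy hyz hxz h
  have key : ∀ c : Perm Ω, a * b * c * (a * b) = c → ∀ w ∈ ({x, y, z} : Set Ω),
      c w ∈ ({x, y, z} : Set Ω) := by
    intro c hc w hw
    by_contra hn
    have h1 := dih_sandwich hc k w
    rw [← e4 _ hn] at h1
    have h2 := c.injective (((a * b) ^ k).injective h1)
    rcases hw with rfl | rfl | rfl
    · exact hxy (h2.symm.trans e1)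
    · exact hyz (h2.symm.trans e2)
    · exact hxz (h2.symm.trans e3).symm
  exact fun w hw => ⟨key a (dih_left ha hb) w hw, key b (dih_right ha hb) w hw⟩

/-- a dihedral group does not contain the alternating group on four points -/
theorem dk4pts {a b : Perm Ω} (ha : ∀ x, a (a x) = x) (hb : ∀ x, b (b x) = x) {U : Set Ω}
    (h : AltIn (Subgroup.closure ({a, b} : Set (Perm Ω))) U) {x y z w : Ω}
    (hx : x ∈ U) (hy : y ∈ U) (hz : z ∈ U) (hw : w ∈ U)
    (hxy : x ≠ y) (hxz : x ≠ z) (hxw : x ≠ w) (hyz : y ≠ z) (hyw : y ≠ w) (hzw : z ≠ w) :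
    False := by
  obtain ⟨k, e1, e2, -⟩ := dih_rot3 ha hb hxy hyz hxz
    (h.mono le_rfl (by rintro _ (rfl | rfl | rfl) <;> assumption))
  obtain ⟨l, f1, f2, -⟩ := dih_rot3 ha hb hxy hyw hxw
    (h.mono le_rfl (by rintro _ (rfl | rfl | rfl) <;> assumption))
  have := pow_comm_apply (a * b) k l x
  rw [e1, f1, e2, f2] at this
  exact hzw this

/-- if the dihedral group contains a 3-cycle, every orbit that is a path on three points is its
support -/
theorem d3p {a b : Perm Ω} (ha : ∀ x, a (a x) = x) (hb : ∀ x, b (b x) = x) {x y z : Ω}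
    (hxy : x ≠ y) (hyz : y ≠ z) (hxz : x ≠ z)
    (h : AltIn (Subgroup.closure ({a, b} : Set (Perm Ω))) {x, y, z}) {u1 u2 u3 : Ω}
    (e1 : a u1 = u2) (e2 : b u2 = u3) (f1 : b u1 = u1) (f3 : a u3 = u3)
    (n12 : u1 ≠ u2) (n23 : u2 ≠ u3) :
    u1 ∈ ({x, y, z} : Set Ω) ∧ u2 ∈ ({x, y, z} : Set Ω) ∧ u3 ∈ ({x, y, z} : Set Ω) := by
  have hi := dk3 ha hb hxy hyz hxz h
  suffices h1 : u1 ∈ ({x, y, z} : Set Ω) from
    ⟨h1, e1 ▸ (hi _ h1).1, e2 ▸ (hi _ (e1 ▸ (hi _ h1).1)).2⟩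
  by_contra hn
  obtain ⟨k, t1, t2, t3, t4⟩ := dih_rot3 ha hb hxy hyz hxz h
  have b3 : b u3 = u2 := by rw [← e2, hb]
  have a2 : a u2 = u1 := by rw [← e1, ha]
  have n13 : u1 ≠ u3 := fun e => n12 (by rw [← f1, e, b3])
  have r1 : (a * b) u1 = u2 := by rw [Perm.mul_apply, f1, e1]
  have r2 : (a * b) u2 = u3 := by rw [Perm.mul_apply, e2, f3]
  have r3 : (a * b) u3 = u1 := by rw [Perm.mul_apply, b3, a2]
  have hr : (a * b) x ∈ ({x, y, z} : Set Ω) := (hi _ (hi x (by simp)).2).1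
  generalize a * b = r at *
  have p3 : ∀ v, (r ^ 3) v = r (r (r v)) := fun v => by simp [pow_succ]
  have hc : ∀ v, r ((r ^ k) v) = (r ^ k) (r v) := fun v => by
    simpa using pow_comm_apply r 1 k v
  have h3 : (r ^ 3) x = x := by
    rw [p3]
    rcases hr with e | e | e
    · rw [e, e, e]
    · have g1 : r y = z := by rw [← t1, hc, e, t2]
      have g2 : r z = x := by rw [← t2, hc, g1, t3]
      rw [e, g1, g2]
    · have g1 : r y = x := by rw [← t1, hc, e, t3]
      have g2 : r z = y := by rw [← t2, hc, g1, t1]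
      rw [e, g2, g1]
  have h4 := t4 _ hn
  rw [pow_mod_apply (d := 3) (by rw [p3, r1, r2, r3])] at h4
  rw [pow_mod_apply h3] at t1
  have : k % 3 = 0 ∨ k % 3 = 1 ∨ k % 3 = 2 := by omega
  rcases this with e | e | e <;> rw [e] at h4 t1
  · exact hxy t1
  · exact n12 (by simpa [r1] using h4.symm)
  · exact n13 (by simpa [pow_succ, r1, r2] using h4.symm)

/-- an element fixing a path on four points fixes every path on four points of the other kind -/
theorem dk44 {a b : Perm Ω} (ha : ∀ x, a (a x) = x) (hb : ∀ x, b (b x) = x) {g : Perm Ω}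
    (hg : g ∈ Subgroup.closure ({a, b} : Set (Perm Ω))) {u1 u2 u3 u4 w1 w2 w3 w4 : Ω}
    (e1 : a u1 = u2) (e2 : b u2 = u3) (e3 : a u3 = u4) (f1 : b u1 = u1) (f4 : b u4 = u4)
    (n12 : u1 ≠ u2) (n23 : u2 ≠ u3) (n34 : u3 ≠ u4)
    (g1 : g u1 = u1) (g2 : g u2 = u2) (g3 : g u3 = u3) (g4 : g u4 = u4)
    (d1 : b w1 = w2) (d2 : a w2 = w3) (d3 : b w3 = w4) (c1 : a w1 = w1) (c4 : a w4 = w4) :
    g w1 = w1 := by
  have b3 : b u3 = u2 := by rw [← e2, hb]
  have a2 : a u2 = u1 := by rw [← e1, ha]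
  have a4 : a u4 = u3 := by rw [← e3, ha]
  have n13 : u1 ≠ u3 := fun e => n12 (by rw [← f1, e, b3])
  have n14 : u1 ≠ u4 := fun e => n23 (by rw [← e1, e, a4])
  have r1 : (a * b) u1 = u2 := by rw [Perm.mul_apply, f1, e1]
  have r2 : (a * b) u2 = u4 := by rw [Perm.mul_apply, e2, e3]
  have r4 : (a * b) u4 = u3 := by rw [Perm.mul_apply, f4, a4]
  have r3 : (a * b) u3 = u1 := by rw [Perm.mul_apply, b3, a2]
  have s1 : (a * b) w1 = w3 := by rw [Perm.mul_apply, d1, d2]
  have s3 : (a * b) w3 = w4 := by rw [Perm.mul_apply, d3, c4]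
  have s4 : (a * b) w4 = w2 := by rw [Perm.mul_apply, ← d3, hb, ← d2, ha]
  have s2 : (a * b) w2 = w1 := by rw [Perm.mul_apply, ← d1, hb, c1]
  obtain ⟨k, rfl | rfl⟩ := dih_cases ha hb hg
  · generalize a * b = r at *
    have p4 : ∀ v, (r ^ 4) v = r (r (r (r v))) := fun v => by simp [pow_succ]
    rw [pow_mod_apply (d := 4) (by rw [p4, r1, r2, r4, r3])] at g1
    rw [pow_mod_apply (d := 4) (by rw [p4, s1, s3, s4, s2])]
    have : k % 4 = 0 ∨ k % 4 = 1 ∨ k % 4 = 2 ∨ k % 4 = 3 := by omega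
    rcases this with e | e | e | e <;> rw [e] at g1 ⊢
    · rfl
    · exact absurd (by simpa [r1] using g1.symm) n12
    · exact absurd (by simpa [pow_succ, r1, r2] using g1.symm) n14
    · exact absurd (by simpa [pow_succ, r1, r2, r4] using g1.symm) n13
  · rw [Perm.mul_apply, e1] at g1
    rw [Perm.mul_apply, a2] at g2
    have := pow_comm_apply (a * b) 1 k u1
    rw [pow_one, r1, g1, g2, r2] at this
    exact absurd this.symm n14

/-- twelfth powers fix the points of invariant sets with at most four points -/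
theorem pow12 {g : Perm Ω} {U : Finset Ω} (hU : ∀ x ∈ U, g x ∈ U) (hc : U.card ≤ 4) {x : Ω}
    (hx : x ∈ U) : (g ^ 12) x = x := by
  have hm : ∀ i : ℕ, (g ^ i) x ∈ U := fun i => by
    induction i with
    | zero => exact hx
    | succ i ih => rw [pow_succ', Perm.mul_apply]; exact hU _ ih
  have key : ∀ i j : ℕ, i < j → j < 5 → (g ^ i) x = (g ^ j) x → (g ^ 12) x = x := by
    intro i j hij hj e
    obtain ⟨d, rfl⟩ := Nat.exists_eq_add_of_lt hij
    rw [add_assoc, pow_add, Perm.mul_apply] at e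
    rw [pow_mod_apply ((g ^ i).injective e).symm]
    have : d = 0 ∨ d = 1 ∨ d = 2 ∨ d = 3 := by omega
    rcases this with rfl | rfl | rfl | rfl <;> rfl
  obtain ⟨i, hi, j, hj, hne, e⟩ := exists_ne_map_eq_of_card_lt_of_maps_to
    (s := range 5) (t := U) (by rw [card_range]; omega) (f := fun i => (g ^ i) x)
    fun i _ => hm i
  rcases lt_or_gt_of_ne hne with h | h
  · exact key i j h (mem_range.1 hj) e
  · exact key j i h (mem_range.1 hi) e.symm

/-- a path on three points, when the fourth power of the rotation is trivial elsewhere -/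
theorem path3 {a b : Perm Ω} (ha : ∀ x, a (a x) = x) (hb : ∀ x, b (b x) = x) {x1 x2 x3 : Ω}
    (e1 : a x1 = x2) (e2 : b x2 = x3) (f1 : b x1 = x1) (f3 : a x3 = x3)
    (n12 : x1 ≠ x2) (n23 : x2 ≠ x3)
    (ho : ∀ y, y ≠ x1 → y ≠ x2 → y ≠ x3 → ((a * b) ^ 4) y = y) :
    AltIn (Subgroup.closure ({a, b} : Set (Perm Ω))) {x1, x2, x3} ∧ x1 ≠ x3 := by
  have b3 : b x3 = x2 := by rw [← e2, hb]
  have a2 : a x2 = x1 := by rw [← e1, ha]
  have n13 : x1 ≠ x3 := fun e => n12 (by rw [← f1, e, b3])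
  have r1 : (a * b) x1 = x2 := by rw [Perm.mul_apply, f1, e1]
  have r2 : (a * b) x2 = x3 := by rw [Perm.mul_apply, e2, f3]
  have r3 : (a * b) x3 = x1 := by rw [Perm.mul_apply, b3, a2]
  have hm : (a * b) ^ 4 ∈ Subgroup.closure ({a, b} : Set (Perm Ω)) :=
    pow_mem (mul_mem (Subgroup.subset_closure (by simp)) (Subgroup.subset_closure (by simp))) 4
  generalize a * b = r at *
  have p4 : ∀ v, (r ^ 4) v = r (r (r (r v))) := fun v => by simp [pow_succ]
  exact ⟨altIn_three hm n12 n23 n13 (by rw [p4, r1, r2, r3, r1]) (by rw [p4, r2, r3, r1, r2])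
    (by rw [p4, r3, r1, r2, r3]) ho, n13⟩

end D145
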