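import Pool.Agent.MP_d145c0_al.H75.Sum
import Pool.Agent.MP_d145c0_al.H75.Dih

/-! Cut vertex: basic facts and the tail below it. -/

namespace D145
open Equiv Finset
namespace SD
variable {Ω : Type} [Fintype Ω] [DecidableEq Ω] {m : ℕ} (S : SD Ω m)

/-- the tail `t m = v, t (m-1), …, t (k+1)` and the first branching point `t k` -/
def Tail (v : Ω) (k : ℕ) (t : ℕ → Ω) : Prop :=
  k + 2 ≤ m ∧ t m = v ∧ (∀ j, k < j → j ≤ m → S.lo (t j) + 1 = j ∧ S.hi (t j) = j) ∧
  (∀ j, k ≤ j → j < m → S.ρ j (t j) = t (j + 1)) ∧ S.hi (t k) = k + 1 ∧ t k ≠ t (k + 1)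

/-- the points of the half outside the tail -/
noncomputable def Dp (k : ℕ) (t : ℕ → Ω) : Finset Ω :=
  S.A m \ (Icc (k + 1) m).image t

/-- points moved only by the label `k` -/
noncomputable def Cp (k : ℕ) : Finset Ω := univ.filter (fun z => S.lo z = k ∧ S.hi z = k)

/-- points outside the tail moved by a label `> k` and by no label `< k` -/
noncomputable def Yp (k : ℕ) (t : ℕ → Ω) : Finset Ω :=
  (S.Dp k t).filter (fun z => k ≤ S.lo z ∧ k < S.hi z)

/-- `Yp` is a second tail -/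
def Tail2 (k : ℕ) (t s : ℕ → Ω) : Prop :=
  (∀ z, z ∈ S.Yp k t ↔ ∃ j, k < j ∧ j ≤ m ∧ z = s j) ∧
  (∀ j, k < j → j < m → S.hi (s j) = j ∧ S.ρ j (s j) = s (j + 1)) ∧ S.hi (s m) + 1 = m ∧
  s (m - 1) ≠ s m

theorem mem_Dp {k : ℕ} {t : ℕ → Ω} {z : Ω} :
    z ∈ S.Dp k t ↔ S.lo z < m ∧ ∀ j, k < j → j ≤ m → z ≠ t j := by
  simp only [Dp, mem_sdiff, mem_A, mem_image, mem_Icc, not_exists, not_and]
  exact ⟨fun h => ⟨h.1, fun j h1 h2 e => h.2 j ⟨h1, h2⟩ e.symm⟩,
    fun h => ⟨h.1, fun j h1 e => h.2 j h1.1 h1.2 e.symm⟩⟩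

theorem mem_Cp {k : ℕ} {z : Ω} : z ∈ S.Cp k ↔ S.lo z = k ∧ S.hi z = k := by simp [Cp]

theorem mem_Yp {k : ℕ} {t : ℕ → Ω} {z : Ω} :
    z ∈ S.Yp k t ↔ z ∈ S.Dp k t ∧ k ≤ S.lo z ∧ k < S.hi z := by simp [Yp]

variable {S} {v : Ω} {k : ℕ} {t : ℕ → Ω}

theorem CV.dual (h : S.CV v) : S.δ v = v := by
  obtain ⟨h1, h2, h3⟩ := h
  have e1 := S.lo_δ v
  have e2 := S.hi_δ v
  exact h3 _ (by omega) (by omega)

theorem CV.hi_lt (h : S.CV v) {z : Ω} (hz : S.lo z < m) (hv : z ≠ v) : S.hi z < m := by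
  by_contra hh
  exact hv (h.2.2 z hz (by omega))

theorem CV.half_pres (h : S.CV v) {z : Ω} (hz : S.lo z < m) {i : ℕ} (hi : i ≠ m ∨ z ≠ v) :
    S.lo (S.ρ i z) < m := by
  have h1 := S.lo_step i z
  by_contra hh
  have h2 : i = m := by omega
  have h3 : z ≠ v := hi.resolve_left (fun e => e h2)
  have h4 := h.hi_lt hz h3
  rw [S.fix_hi (by omega)] at hh
  exact hh hz

theorem CV.card_half (h : S.CV v) : (S.A m).card = 2 * m + 2 := by
  have hv : v ∈ S.A m := by rw [mem_A]; have := h.1; omega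
  have h1 : ((S.A m).erase v).card = (univ \ S.A m).card := by
    refine Finset.card_bij (fun x _ => S.δ x) ?_ (fun x _ y _ e => S.δ_inj e) ?_
    · intro x hx
      rw [mem_erase, mem_A] at hx
      have h2 := h.hi_lt hx.2 hx.1
      have h3 := S.lo_δ x
      simp only [mem_sdiff, mem_univ, mem_A, true_and]
      omega
    · intro y hy
      simp only [mem_sdiff, mem_univ, mem_A, true_and] at hy
      have h2 := S.lo_δ y
      have h3 := S.hi_δ y
      have h4 := S.lo_le_hi y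
      refine ⟨S.δ y, ?_, S.dinv y⟩
      rw [mem_erase, mem_A]
      refine ⟨fun e => ?_, by omega⟩
      have h5 := h.2.1
      rw [e] at h3
      omega
  rw [card_erase_of_mem hv, card_sdiff_of_subset (subset_univ _), card_univ, S.card] at h1
  have h2 : 0 < (S.A m).card := card_pos.2 ⟨v, hv⟩
  have h3 : (S.A m).card ≤ 4 * m + 3 := by rw [← S.card]; exact card_le_univ _
  omega

theorem CV.gp (h : S.CV v) {j : ℕ} (hj : j < m) :
    AltIn (S.G (Set.Ici j)) {w | S.R (Set.Ici j) v w} := by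
  have h1 := h.1
  have h2 := h.2.1
  have m1 : S.ρ (m - 1) v ≠ v := by
    have := S.mv_lo v
    rwa [show S.lo v = m - 1 by omega] at this
  have m2 : S.ρ m v ≠ v := by
    have := S.mv_hi v
    rwa [h2] at this
  obtain ⟨hA, hne⟩ := tri_comm (H := S.G (Set.Ici j)) (g := S.ρ (m - 1)) (h := S.ρ m)
    (S.ρ_mem (Set.mem_Ici.2 (by omega))) (S.ρ_mem (Set.mem_Ici.2 (by omega))) m1 m2 (by
      intro y hy
      by_cases e : S.ρ (m - 1) y = y
      · exact Or.inl e
      · have h3 := S.lo_le e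
        exact Or.inr (S.fix_hi (h.hi_lt (by omega) hy)))
  refine S.altR hA m1.symm hne m2.symm ?_
  intro i _
  by_cases hi : i < m
  · refine ⟨S.ρ m v, by simp, ?_⟩
    have h3 : m ≤ S.hi (S.ρ m v) := S.le_hi (by rw [Ne, S.fix_self]; exact m2)
    have h4 : m ≤ S.lo (S.ρ m v) := by
      by_contra hh
      exact m2 (h.2.2 _ (by omega) h3)
    rw [S.fix_lo (i := i) (by omega)]
    simp
  · refine ⟨S.ρ (m - 1) v, by simp, ?_⟩
    have h3 : S.lo (S.ρ (m - 1) v) ≤ m - 1 := S.lo_le (by rw [Ne, S.fix_self]; exact m1)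
    have h4 := h.hi_lt (z := S.ρ (m - 1) v) (by omega) m1
    rw [S.fix_hi (i := i) (by omega)]
    simp

/-- a subset of the half avoiding `v` and closed under the labels `< m` is empty -/
theorem CV.conn (h : S.CV v) {U : Set Ω} (hU : ∀ z ∈ U, S.lo z < m ∧ z ≠ v)
    (hc : ∀ i < m, ∀ z ∈ U, S.ρ i z ∈ U) : ∀ z, z ∉ U := by
  intro z hz
  refine (hU v (S.conn hz ?_ v)).2 rfl
  intro i w hw
  by_cases hi : i < m
  · exact hc i hi w hw
  · have := h.hi_lt (hU w hw).1 (hU w hw).2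
    rwa [S.fix_hi (by omega)]

/-- three points reached from `v` by labels `≥ j` and carrying a 3-cycle of the labels `≤ j+1` form
an invariant set -/
theorem CV.dk (h : S.CV v) {j : ℕ} (hj : j < m) {U : Set Ω} (hU : AltIn (S.G (Set.Iic (j + 1))) U)
    {x y z : Ω} (hx : x ∈ U) (hy : y ∈ U) (hz : z ∈ U) (hxy : x ≠ y) (hyz : y ≠ z) (hxz : x ≠ z)
    (rx : S.R (Set.Ici j) v x) (ry : S.R (Set.Ici j) v y) (rz : S.R (Set.Ici j) v z) :
    AltIn (Subgroup.closure ({S.ρ j, S.ρ (j + 1)} : Set (Perm Ω))) {x, y, z} ∧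
    ∀ w ∈ ({x, y, z} : Set Ω),
      S.ρ j w ∈ ({x, y, z} : Set Ω) ∧ S.ρ (j + 1) w ∈ ({x, y, z} : Set Ω) := by
  have h1 := S.ipAlt hU (h.gp hj)
  rw [S.G_pair] at h1
  have h2 : AltIn (Subgroup.closure ({S.ρ j, S.ρ (j + 1)} : Set (Perm Ω))) {x, y, z} :=
    h1.mono le_rfl (by
      rintro w (rfl | rfl | rfl)
      exacts [⟨hx, rx⟩, ⟨hy, ry⟩, ⟨hz, rz⟩])
  exact ⟨h2, dk3 (S.inv j) (S.inv (j + 1)) hxy hyz hxz h2⟩

/-- four points of level `0`, one pair inside an orbit of the labels `≥ 1` -/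
theorem d0 {y : Ω} (hy : AltIn (S.G (Set.Ici 1)) {w | S.R (Set.Ici 1) y w}) (h4 : S.a 0 = 4)
    {f : Ω} (hf : S.lo f = 0) (hr : S.R (Set.Ici 1) f (S.ρ 0 f)) :
    ∃ g, S.lo g = 0 ∧ g ≠ f ∧ g ≠ S.ρ 0 f ∧ S.ρ 0 g ≠ f ∧ S.ρ 0 g ≠ S.ρ 0 f ∧
      ¬ S.R (Set.Ici 1) y g ∧ S.R (Set.Ici 1) y (S.ρ 0 g) ∧
      (∀ z, S.lo z = 0 → z = f ∨ z = S.ρ 0 f ∨ z = g ∨ z = S.ρ 0 g) ∧
      ∀ j, 2 ≤ j → S.ρ j g = g ∧ S.ρ j (S.ρ 0 g) = S.ρ 0 g ∧
        (S.ρ j f = f ∨ S.ρ j f = S.ρ 0 f) := by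
  obtain ⟨g, g0, ng, rg⟩ := S.d1 hy
  have mv : ∀ z, S.lo z = 0 → S.ρ 0 z ≠ z := fun z hz => by
    have := S.mv_lo z
    rwa [hz] at this
  have l0 : ∀ z, S.lo z = 0 → S.lo (S.ρ 0 z) = 0 := fun z hz => by
    have := S.lo_le (i := 0) (x := S.ρ 0 z) (by rw [Ne, S.fix_self]; exact mv z hz)
    omega
  have n1 : g ≠ f := fun e => ng (by rw [e] at rg ⊢; exact rg.trans hr.symm)
  have n2 : g ≠ S.ρ 0 f := fun e => ng (by rw [e, S.inv] at rg; rw [e]; exact rg.trans hr)
  have n3 : S.ρ 0 g ≠ f := fun e => n2 (S.ρ_swap e).symm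
  have n4 : S.ρ 0 g ≠ S.ρ 0 f := fun e => n1 (S.ρ_inj e)
  have hall : ∀ z, S.lo z = 0 → z = f ∨ z = S.ρ 0 f ∨ z = g ∨ z = S.ρ 0 g := by
    have hsub : ({f, S.ρ 0 f, g, S.ρ 0 g} : Finset Ω) ⊆ S.lev 0 := by
      intro z hz
      simp only [mem_insert, mem_singleton] at hz
      rw [mem_lev]
      rcases hz with rfl | rfl | rfl | rfl
      exacts [hf, l0 _ hf, g0, l0 _ g0]
    have hc : ({f, S.ρ 0 f, g, S.ρ 0 g} : Finset Ω).card = 4 := by
      rw [card_insert_of_notMem, card_insert_of_notMem, card_pair (mv g g0).symm]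
      · simp only [mem_insert, mem_singleton, not_or]
        exact ⟨n2.symm, n4.symm⟩
      · simp only [mem_insert, mem_singleton, not_or]
        exact ⟨(mv f hf).symm, n1.symm, n3.symm⟩
    have he := eq_of_subset_of_card_le hsub (by rw [hc]; exact h4.le)
    intro z hz
    have : z ∈ ({f, S.ρ 0 f, g, S.ρ 0 g} : Finset Ω) := by rw [he, mem_lev]; exact hz
    simpa only [mem_insert, mem_singleton] using this
  refine ⟨g, g0, n1, n2, n3, n4, ng, rg, hall, fun j hj => ?_⟩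
  have hj1 : j ∈ Set.Ici 1 := Set.mem_Ici.2 (by omega)
  have hc : ∀ z, S.ρ j (S.ρ 0 z) = S.ρ 0 (S.ρ j z) := fun z => (S.comm 0 j hj z).symm
  have e1 : S.ρ j g = g := by
    rcases hall (S.ρ j g) (by rw [S.lo_far (by omega)]; exact g0) with e | e | e | e
    · exact absurd (((rg.step' hj1 (by rw [hc, e])).trans hr.symm).step' hj1 (S.ρ_swap e)) ng
    · exact absurd (((rg.step' hj1 (by rw [hc, e, S.inv])).trans hr).step' hj1 (S.ρ_swap e)) ng
    · exact e
    · exact absurd (rg.step' hj1 (S.ρ_swap e)) ng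
  have e2 : S.ρ j (S.ρ 0 g) = S.ρ 0 g := by rw [hc, e1]
  refine ⟨e1, e2, ?_⟩
  rcases hall (S.ρ j f) (by rw [S.lo_far (by omega)]; exact hf) with e | e | e | e
  · exact Or.inl e
  · exact Or.inr e
  · exact absurd (S.ρ_inj (e1.trans e.symm)) n1
  · exact absurd (S.ρ_inj (e2.trans e.symm)) n3

theorem CV.tail (h : S.CV v) : ∃ k t, S.Tail v k t := by
  classical
  let s : ℕ → Ω := fun n => Nat.rec v (fun n x => S.ρ (m - (n + 1)) x) n
  let t : ℕ → Ω := fun j => s (m - j)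
  have tm : t m = v := by simp [t, s]
  have ts : ∀ j, j < m → S.ρ j (t j) = t (j + 1) := by
    intro j hj
    have e : t j = S.ρ j (t (j + 1)) := by
      show s (m - j) = S.ρ j (s (m - (j + 1)))
      rw [show m - j = (m - (j + 1)) + 1 by omega]
      show S.ρ (m - (m - (j + 1) + 1)) (s (m - (j + 1))) = _
      rw [show m - (m - (j + 1) + 1) = j by omega]
    rw [e, S.inv]
  have hex : ∃ j, ∀ i, j ≤ i → i ≤ m → S.lo (t i) + 1 = i ∧ S.hi (t i) = i :=
    ⟨m, fun i h1 h2 => by rw [show i = m by omega, tm]; exact ⟨h.1, h.2.1⟩⟩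
  have hP := Nat.find_spec hex
  have hle : Nat.find hex ≤ m :=
    Nat.find_min' hex (fun i h1 h2 => by rw [show i = m by omega, tm]; exact ⟨h.1, h.2.1⟩)
  obtain ⟨k, hk⟩ : ∃ k, Nat.find hex = k + 1 := by
    refine ⟨Nat.find hex - 1, ?_⟩
    by_contra hh
    have := (hP 0 (by omega) (by omega)).1
    omega
  have hN := Nat.find_min hex (m := k) (by omega)
  rw [hk] at hP hle
  have hk1 := hP (k + 1) le_rfl hle
  have e1 := ts k (by omega)
  have e2 := S.ρ_swap e1
  have mv : S.ρ k (t (k + 1)) ≠ t (k + 1) := by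
    have := S.mv_lo (t (k + 1))
    rwa [show S.lo (t (k + 1)) = k by omega] at this
  have hne : t k ≠ t (k + 1) := e2 ▸ mv
  have s1 := S.lo_step k (t (k + 1))
  have s2 := S.hi_step k (t (k + 1))
  rw [e2] at s1 s2
  have hhi : S.hi (t k) = k + 1 := by
    by_contra hh
    have a1 : S.hi (t k) = k := by omega
    have a2 : S.lo (t k) = k := by
      by_contra h2
      refine hN fun i h3 h4 => ?_
      rcases Nat.eq_or_lt_of_le h3 with e | e
      · subst e
        omega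
      · exact hP i e h4
    have hU := h.conn (U := {z | S.lo z < m ∧ ∀ l, k ≤ l → l ≤ m → z ≠ t l})
      (fun z hz => ⟨hz.1, tm ▸ hz.2 m (by omega) le_rfl⟩) (by
        intro i hi z hz
        refine ⟨h.half_pres hz.1 (Or.inl (by omega)), fun l l1 l2 e => ?_⟩
        have e' := S.ρ_swap e
        by_cases hf : S.ρ i (t l) = t l
        · exact hz.2 l l1 l2 (e'.symm.trans hf)
        have b1 := S.lo_le hf
        have b2 := S.le_hi hf
        by_cases hil : i = l
        · subst hil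
          exact hz.2 (i + 1) (by omega) (by omega) (e'.symm.trans (ts i hi))
        · have hl : k < l := by
            by_contra h5
            have : l = k := by omega
            subst this
            omega
          have b3 := hP l hl l2
          have b4 : l = i + 1 := by omega
          subst b4
          exact hz.2 i (by omega) (by omega) (e'.symm.trans (S.ρ_swap (ts i hi))))
    have hsub : S.A m ⊆ (Icc k m).image t := by
      intro z hz
      by_contra h5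
      refine hU z ⟨S.mem_A.1 hz, fun l l1 l2 e => h5 ?_⟩
      exact mem_image.2 ⟨l, mem_Icc.2 ⟨l1, l2⟩, e.symm⟩
    have c1 := (card_le_card hsub).trans card_image_le
    rw [h.card_half, Nat.card_Icc] at c1
    omega
  refine ⟨k, t, ?_, tm, fun j h1 h2 => hP j h1 h2, fun j _ h2 => ts j h2, hhi, hne⟩
  by_contra hh
  have e : k + 1 = m := by omega
  refine hne ?_
  rw [e, tm]
  exact h.2.2 _ (by omega) (by omega)

theorem Tail.mem_Dp (ht : S.Tail v k t) (h : S.CV v) : t k ∈ S.Dp k t := by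
  obtain ⟨h1, h2, h3, h4, h5, h6⟩ := ht
  have b := S.lo_le (i := k) (x := t k) (by rw [h4 k le_rfl (by omega)]; exact h6.symm)
  refine S.mem_Dp.2 ⟨by omega, fun j j1 j2 e => h6 ?_⟩
  have := (h3 j j1 j2).2
  rw [← e] at this
  rw [e, show j = k + 1 by omega]

theorem Tail.card_Dp (ht : S.Tail v k t) (h : S.CV v) : (S.Dp k t).card = m + k + 2 := by
  obtain ⟨h1, h2, h3, h4, h5, h6⟩ := ht
  have hsub : (Icc (k + 1) m).image t ⊆ S.A m := by
    intro z hz
    obtain ⟨j, hj, rfl⟩ := mem_image.1 hz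
    rw [mem_Icc] at hj
    have := (h3 j hj.1 hj.2).1
    rw [mem_A]
    omega
  have hc : ((Icc (k + 1) m).image t).card = (Icc (k + 1) m).card := by
    refine card_image_of_injOn fun i hi j hj e => ?_
    rw [mem_coe, mem_Icc] at hi hj
    rw [← (h3 i hi.1 hi.2).2, ← (h3 j hj.1 hj.2).2, e]
  rw [Dp, card_sdiff_of_subset hsub, hc, h.card_half, Nat.card_Icc]
  omega

theorem Tail.Dp_hi (ht : S.Tail v k t) (h : S.CV v) {z : Ω} (hz : z ∈ S.Dp k t) :
    S.hi z < m := by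
  have h1 := S.mem_Dp.1 hz
  have h2 := ht.1
  exact h.hi_lt h1.1 (ht.2.1 ▸ h1.2 m (by omega) le_rfl)

theorem Tail.Dp_of_lo (ht : S.Tail v k t) {z : Ω} (hz : S.lo z < k) : z ∈ S.Dp k t := by
  have h1 := ht.1
  refine S.mem_Dp.2 ⟨by omega, fun j j1 j2 e => ?_⟩
  have := (ht.2.2.1 j j1 j2).1
  rw [← e] at this
  omega

theorem Tail.Dp_pres (ht : S.Tail v k t) (h : S.CV v) {z : Ω} (hz : z ∈ S.Dp k t) {i : ℕ}
    (hi : i ≠ k ∨ z ≠ t k) : S.ρ i z ∈ S.Dp k t := by
  have hh := ht.Dp_hi h hz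
  obtain ⟨h1, h2, h3, h4, h5, h6⟩ := ht
  have hz' := S.mem_Dp.1 hz
  refine S.mem_Dp.2 ⟨h.half_pres hz'.1 (Or.inr (h2 ▸ hz'.2 m (by omega) le_rfl)),
    fun l l1 l2 e => ?_⟩
  have e' := S.ρ_swap e
  by_cases hf : S.ρ i (t l) = t l
  · exact hz'.2 l l1 l2 (e'.symm.trans hf)
  have b1 := S.lo_le hf
  have b2 := S.le_hi hf
  have b3 := h3 l l1 l2
  by_cases hil : i = l
  · subst hil
    by_cases him : i < m
    · exact hz'.2 (i + 1) (by omega) (by omega) (e'.symm.trans (h4 i (by omega) him))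
    · rw [S.fix_hi (by omega)] at e
      exact hz'.2 i l1 l2 e
  · have b4 : l = i + 1 := by omega
    subst b4
    have e2 : z = t i := e'.symm.trans (S.ρ_swap (h4 i (by omega) (by omega)))
    by_cases hik : k < i
    · exact hz'.2 i hik (by omega) e2
    · have b5 : i = k := by omega
      subst b5
      rcases hi with hi | hi
      · exact hi rfl
      · exact hi e2

theorem Tail.reach (ht : S.Tail v k t) {i j : ℕ} (h1 : k ≤ j) (h2 : j ≤ m) (h3 : i ≤ j) :
    S.R (Set.Ici i) v (t j) := by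
  obtain ⟨d, hd⟩ : ∃ d, j + d = m := ⟨m - j, by omega⟩
  induction d generalizing j with
  | zero =>
    rw [show j = m by omega, ht.2.1]
    exact S.R_refl _ _
  | succ d ih =>
    exact (ih (j := j + 1) (by omega) (by omega) (by omega) (by omega)).step'
      (Set.mem_Ici.2 h3) (S.ρ_swap (ht.2.2.2.1 j h1 (by omega)))

/-- a subset of `Dp` avoiding `t k` and closed under all labels is empty -/
theorem Tail.conn (ht : S.Tail v k t) (h : S.CV v) {U : Set Ω}
    (hU : ∀ z ∈ U, z ∈ S.Dp k t ∧ z ≠ t k) (hc : ∀ i < m, ∀ z ∈ U, S.ρ i z ∈ U) :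
    ∀ z, z ∉ U := by
  have h1 := ht.1
  refine h.conn (fun z hz => ?_) hc
  have h2 := S.mem_Dp.1 (hU z hz).1
  exact ⟨h2.1, ht.2.1 ▸ h2.2 m (by omega) le_rfl⟩

variable (S) in
/-- the points moved by a label `< m` lie in `Dp` or on the tail -/
theorem supp_split {j : ℕ} (hj : j < m) (T : Finset Ω)
    (hT : ∀ z, z ∈ T ↔ S.ρ j z ≠ z ∧ ∃ l, k < l ∧ l ≤ m ∧ z = t l) :
    (((S.Dp k t).filter (fun z => S.ρ j z ≠ z)).card + T.card) % 4 = 0 := by
  have e : S.supp j = (S.Dp k t).filter (fun z => S.ρ j z ≠ z) ∪ T := by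
    ext z
    simp only [mem_supp, mem_union, mem_filter, hT, mem_Dp]
    constructor
    · intro hz
      by_cases a : ∃ l, k < l ∧ l ≤ m ∧ z = t l
      · exact Or.inr ⟨hz, a⟩
      · have b := S.lo_le hz
        exact Or.inl ⟨⟨by omega, fun l l1 l2 e => a ⟨l, l1, l2, e⟩⟩, hz⟩
    · rintro (hz | hz)
      exacts [hz.2, hz.1]
  have d : Disjoint ((S.Dp k t).filter (fun z => S.ρ j z ≠ z)) T := by
    rw [disjoint_left]
    intro z h1 h2
    obtain ⟨-, l, l1, l2, e⟩ := (hT z).1 h2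
    exact (S.mem_Dp.1 (mem_filter.1 h1).1).2 l l1 l2 e
  have c := S.four_dvd_supp j
  rw [e, card_union_of_disjoint d] at c
  omega

/-- the labels above `k` act as odd permutations on `Dp` -/
theorem Tail.odd (ht : S.Tail v k t) (h : S.CV v) {j : ℕ} (h1 : k < j) (h2 : j < m) :
    ((S.Dp k t).filter (fun z => S.ρ j z ≠ z)).card % 4 = 2 := by
  obtain ⟨h3, h4, h5, h6, h7, h8⟩ := ht
  have a1 := h5 j h1 h2.le
  have a2 := h5 (j + 1) (by omega) h2
  have hne : t j ≠ t (j + 1) := fun e => by rw [e] at a1; omega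
  have e1 := h6 j h1.le h2
  have c := S.supp_split (k := k) (t := t) h2 {t j, t (j + 1)} (by
    intro z
    simp only [mem_insert, mem_singleton]
    constructor
    · rintro (rfl | rfl)
      · exact ⟨by rw [e1]; exact hne.symm, j, h1, h2.le, rfl⟩
      · exact ⟨by rw [S.ρ_swap e1]; exact hne, j + 1, by omega, h2, rfl⟩
    · rintro ⟨hf, l, l1, l2, rfl⟩
      have b1 := S.lo_le hf
      have b2 := S.le_hi hf
      have b3 := h5 l l1 l2
      have b4 : l = j ∨ l = j + 1 := by omega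
      rcases b4 with rfl | rfl
      exacts [Or.inl rfl, Or.inr rfl])
  rw [card_pair hne] at c
  omega

theorem Tail.odd_k (ht : S.Tail v k t) (h : S.CV v) :
    ((S.Dp k t).filter (fun z => S.ρ k z ≠ z)).card % 4 = 3 := by
  obtain ⟨h3, h4, h5, h6, h7, h8⟩ := ht
  have e1 := h6 k le_rfl (by omega)
  have c := S.supp_split (k := k) (t := t) (j := k) (by omega) {t (k + 1)} (by
    intro z
    simp only [mem_singleton]
    constructor
    · rintro rfl
      exact ⟨by rw [S.ρ_swap e1]; exact h8, k + 1, by omega, by omega, rfl⟩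
    · rintro ⟨hf, l, l1, l2, rfl⟩
      have b1 := S.lo_le hf
      have b3 := h5 l l1 l2
      rw [show l = k + 1 by omega])
  rw [card_singleton] at c
  omega

theorem Tail.even_lt (ht : S.Tail v k t) (h : S.CV v) {j : ℕ} (h1 : j < k) :
    ((S.Dp k t).filter (fun z => S.ρ j z ≠ z)).card % 4 = 0 := by
  obtain ⟨h3, h4, h5, h6, h7, h8⟩ := ht
  have c := S.supp_split (k := k) (t := t) (j := j) (by omega) ∅ (by
    intro z
    simp only [notMem_empty, false_iff]
    rintro ⟨hf, l, l1, l2, rfl⟩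
    have b1 := S.lo_le hf
    have b3 := h5 l l1 l2
    omega)
  rw [card_empty] at c
  omega

theorem Tail.hi_cross (ht : S.Tail v k t) (h : S.CV v) {j : ℕ} (h1 : k < j) (h2 : j + 2 ≤ m) :
    ∃ z ∈ S.Dp k t, S.hi z = j ∧ S.hi (S.ρ j z) = j + 1 := by
  by_contra hh
  have c := ht.odd h (j := m - 1) (by omega) (by omega)
  obtain ⟨y, hy⟩ : ((S.Dp k t).filter (fun z => S.ρ (m - 1) z ≠ z)).Nonempty :=
    card_pos.1 (by omega)
  rw [mem_filter] at hy
  have b := S.le_hi hy.2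
  have hk := ht.2.2.2.2.1
  have hn : ∀ z, j < S.hi z → z ≠ t k := fun z hz e => by rw [e] at hz; omega
  refine ht.conn h (U := {z | z ∈ S.Dp k t ∧ j < S.hi z}) (fun z hz => ⟨hz.1, hn z hz.2⟩) ?_ y
    ⟨hy.1, by omega⟩
  intro i _ z hz
  have d := ht.Dp_pres h hz.1 (i := i) (Or.inr (hn z hz.2))
  refine ⟨d, ?_⟩
  have s := S.hi_step i z
  have h3 := hz.2
  by_contra h4
  have e : i = j := by omega
  subst e
  exact hh ⟨_, d, by omega, by rw [S.inv]; omega⟩

/-- the four kinds of points of `Dp` -/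
theorem Tail.budget (ht : S.Tail v k t) (h : S.CV v) (hk : 1 ≤ k) :
    m + k + 2 = (S.Cp k).card + (S.Yp k t).card +
      ∑ i ∈ range k, S.gam (k - 1) (k + 1) i +
      ∑ O ∈ S.Orbs (k - 1) (k + 1), (1 + 2 * S.kO O + S.exc O) := by
  have s1 := S.sum1 (b := k - 1) (b' := k + 1) (by omega)
  rw [show k - 1 + 1 = k by omega] at s1
  have c := ht.card_Dp h
  have h1 := ht.1
  have e : S.Dp k t = S.A k ∪ (S.Cp k ∪ S.Yp k t) := by
    ext z
    simp only [mem_union, mem_A, mem_Cp, mem_Yp]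
    have b := S.lo_le_hi z
    constructor
    · intro hz
      by_cases b1 : S.lo z < k
      · exact Or.inl b1
      by_cases b2 : k < S.hi z
      · exact Or.inr (Or.inr ⟨hz, by omega, b2⟩)
      · exact Or.inr (Or.inl (by omega))
    · rintro (hz | hz | hz)
      · exact ht.Dp_of_lo hz
      · refine S.mem_Dp.2 ⟨by omega, fun j j1 j2 e => ?_⟩
        have := (ht.2.2.1 j j1 j2).2
        rw [← e] at this
        omega
      · exact hz.1
  have d1 : Disjoint (S.Cp k) (S.Yp k t) := by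
    rw [disjoint_left]
    intro z h2 h3
    rw [mem_Cp] at h2
    rw [mem_Yp] at h3
    omega
  have d2 : Disjoint (S.A k) (S.Cp k ∪ S.Yp k t) := by
    rw [disjoint_left]
    intro z h2 h3
    simp only [mem_union, mem_A, mem_Cp, mem_Yp] at h2 h3
    omega
  have c2 := congrArg Finset.card e
  rw [card_union_of_disjoint d2, card_union_of_disjoint d1] at c2
  omega

/-- the labels above `k` preserve `Yp` -/
theorem Tail.Yp_pres (ht : S.Tail v k t) (h : S.CV v) {z : Ω} (hz : z ∈ S.Yp k t) {j : ℕ}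
    (hj : k < j) : S.ρ j z ∈ S.Yp k t := by
  have h1 := S.mem_Yp.1 hz
  have s1 := S.lo_step j z
  have s2 := S.hi_step j z
  exact S.mem_Yp.2 ⟨ht.Dp_pres h h1.1 (Or.inl (by omega)), by omega, by omega⟩

/-- a crossing edge for `hi` lies in `Yp` or inside an orbit of the cut -/
theorem Tail.cross_Y (ht : S.Tail v k t) (h : S.CV v) (hk : 1 ≤ k) {j : ℕ} (h1 : k < j)
    (h2 : j + 2 ≤ m) : (∃ z ∈ S.Yp k t, S.hi z = j ∧ S.hi (S.ρ j z) = j + 1) ∨
      ∃ O ∈ S.Orbs (k - 1) (k + 1), S.ph O ≤ j ∧ j < S.qh O := by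
  obtain ⟨z, hz, z1, z2⟩ := ht.hi_cross h h1 h2
  by_cases a : k ≤ S.lo z
  · exact Or.inl ⟨z, S.mem_Yp.2 ⟨hz, a, by omega⟩, z1, z2⟩
  · obtain ⟨O, hO, hzO⟩ := S.exists_orb (b := k - 1) (b' := k + 1) (x := z) (by omega) (by omega)
    have b1 := S.ph_le hzO
    have b2 := S.le_qh (S.Orbs_ρ hO hzO (i := j) (Or.inr h1))
    exact Or.inr ⟨O, hO, by omega, by omega⟩

theorem Tail.Y_card (ht : S.Tail v k t) (h : S.CV v) (hk : 1 ≤ k) :
    ((S.Yp k t).Nonempty →
      m ≤ k + (S.Yp k t).card + ∑ O ∈ S.Orbs (k - 1) (k + 1), S.kO O) ∧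
    (S.Yp k t = ∅ → m ≤ k + 2 + ∑ O ∈ S.Orbs (k - 1) (k + 1), S.kO O) := by
  classical
  let J1 := (Ioc k (m - 2)).filter
    (fun j => ∃ z ∈ S.Yp k t, S.hi z = j ∧ S.hi (S.ρ j z) = j + 1)
  have h1 := ht.1
  have c1 : (Ioc k (m - 2) \ J1).card ≤ ∑ O ∈ S.Orbs (k - 1) (k + 1), S.kO O := by
    refine S.sumK fun j hj => ?_
    rw [mem_sdiff] at hj
    have hj' := mem_Ioc.1 hj.1
    exact (ht.cross_Y h hk hj'.1 (by omega)).resolve_left fun e => hj.2 (mem_filter.2 ⟨hj.1, e⟩)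
  have hJ : J1 ⊆ Ioc k (m - 2) := filter_subset _ _
  rw [card_sdiff_of_subset hJ, Nat.card_Ioc] at c1
  refine ⟨fun hY => ?_, fun hY => ?_⟩
  · obtain ⟨y, hy, hmax⟩ := exists_max_image _ S.hi hY
    have hy' := S.mem_Yp.1 hy
    have y2 := ht.Yp_pres h hy hy'.2.2
    have b1 : S.hi y ≤ S.hi (S.ρ (S.hi y) y) :=
      S.le_hi (by rw [Ne, S.fix_self]; exact S.mv_hi y)
    have hsub : J1 ⊆ (S.Yp k t \ {y, S.ρ (S.hi y) y}).image S.hi := by
      intro j hj
      obtain ⟨hj1, z, hz, z1, z2⟩ := mem_filter.1 hj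
      have z3 := hmax _ (ht.Yp_pres h hz (mem_Ioc.1 hj1).1)
      refine mem_image.2 ⟨z, mem_sdiff.2 ⟨hz, ?_⟩, z1⟩
      simp only [mem_insert, mem_singleton, not_or]
      constructor
      · intro e
        rw [e] at z1
        omega
      · intro e
        rw [e] at z1
        omega
    have hs2 : ({y, S.ρ (S.hi y) y} : Finset Ω) ⊆ S.Yp k t := by
      intro z hz
      simp only [mem_insert, mem_singleton] at hz
      rcases hz with rfl | rfl
      exacts [hy, y2]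
    have c2 := (card_le_card hsub).trans card_image_le
    have c3 := card_le_card hs2
    rw [card_sdiff_of_subset hs2] at c2
    rw [card_pair (S.mv_hi y).symm] at c2 c3
    omega
  · have e : J1 = ∅ := by
      refine filter_eq_empty_iff.2 fun j _ => ?_
      rintro ⟨z, hz, -⟩
      rw [hY] at hz
      exact notMem_empty z hz
    rw [e, card_empty] at c1
    omega

theorem Tail.tail2 (ht : S.Tail v k t) (h : S.CV v) (hk : 1 ≤ k)
    (h0 : ∀ O ∈ S.Orbs (k - 1) (k + 1), S.kO O = 0) (hY : k + (S.Yp k t).card = m) :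
    ∃ s, S.Tail2 k t s := by
  classical
  have h1 := ht.1
  have hz : ∀ j, ∃ z, k < j → j + 2 ≤ m →
      z ∈ S.Yp k t ∧ S.hi z = j ∧ S.hi (S.ρ j z) = j + 1 := by
    intro j
    by_cases hj : k < j ∧ j + 2 ≤ m
    · rcases ht.cross_Y h hk hj.1 hj.2 with ⟨z, hz⟩ | ⟨O, hO, o1, o2⟩
      · exact ⟨z, fun _ _ => hz⟩
      · have := h0 O hO
        unfold kO at this
        omega
    · exact ⟨v, fun a b => absurd ⟨a, b⟩ hj⟩
  choose z hz using hz
  obtain ⟨y, hy, y1, y2⟩ : ∃ y ∈ S.Yp k t, S.hi y + 1 = m ∧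
      (k < m - 2 → S.ρ (m - 2) (z (m - 2)) = y) := by
    by_cases hc : k < m - 2
    · have a := hz (m - 2) hc (by omega)
      exact ⟨_, ht.Yp_pres h a.1 hc, by omega, fun _ => rfl⟩
    · obtain ⟨y, hy⟩ : (S.Yp k t).Nonempty := card_pos.1 (by omega)
      have a := S.mem_Yp.1 hy
      have b := ht.Dp_hi h a.1
      exact ⟨y, hy, by omega, fun e => absurd e hc⟩
  have mv : S.ρ (m - 1) y ≠ y := by
    have := S.mv_hi y
    rwa [show S.hi y = m - 1 by omega] at this
  have y3 := ht.Yp_pres h hy (j := m - 1) (by omega)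
  have y4 : S.hi (S.ρ (m - 1) y) + 1 = m := by
    have a := ht.Dp_hi h (S.mem_Yp.1 y3).1
    have b : m - 1 ≤ S.hi (S.ρ (m - 1) y) := S.le_hi (by rw [Ne, S.fix_self]; exact mv)
    omega
  obtain ⟨s, s1, s2, s3⟩ : ∃ s : ℕ → Ω, (∀ j, j + 2 ≤ m → s j = z j) ∧ s (m - 1) = y ∧
      s m = S.ρ (m - 1) y :=
    ⟨fun j => if j + 2 ≤ m then z j else if j + 1 = m then y else S.ρ (m - 1) y,
      fun j hj => if_pos hj, (if_neg (by omega)).trans (if_pos (by omega)),
      (if_neg (by omega)).trans (if_neg (by omega))⟩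
  have sh : ∀ j, k < j → j < m → S.hi (s j) = j := by
    intro j j1 j2
    by_cases hj : j + 2 ≤ m
    · rw [s1 j hj]
      exact (hz j j1 hj).2.1
    · rw [show j = m - 1 by omega, s2]
      omega
  have sm : S.hi (s m) + 1 = m := by rw [s3]; exact y4
  have sne : s (m - 1) ≠ s m := by rw [s2, s3]; exact mv.symm
  have hsub : (Ioc k m).image s ⊆ S.Yp k t := by
    intro w hw
    obtain ⟨j, hj, rfl⟩ := mem_image.1 hw
    rw [mem_Ioc] at hj
    by_cases a : j + 2 ≤ m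
    · rw [s1 j a]
      exact (hz j hj.1 a).1
    by_cases b : j = m
    · rw [b, s3]
      exact y3
    · rw [show j = m - 1 by omega, s2]
      exact hy
  have hc : ((Ioc k m).image s).card = (Ioc k m).card := by
    refine card_image_of_injOn fun i hi j hj e => ?_
    rw [mem_coe, mem_Ioc] at hi hj
    by_cases a : i = m
    · by_cases b : j = m
      · rw [a, b]
      · have c := sh j hj.1 (by omega)
        rw [← e, a] at c
        rw [a, show j = m - 1 by omega] at e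
        exact absurd e.symm sne
    · have c := sh i hi.1 (by omega)
      by_cases b : j = m
      · rw [e, b] at c
        rw [b, show i = m - 1 by omega] at e
        exact absurd e sne
      · rw [← c, e, sh j hj.1 (by omega)]
  have he := eq_of_subset_of_card_le hsub (by rw [hc, Nat.card_Ioc]; omega)
  have hall : ∀ w, w ∈ S.Yp k t ↔ ∃ j, k < j ∧ j ≤ m ∧ w = s j := by
    intro w
    rw [← he, mem_image]
    exact ⟨fun ⟨j, hj, e⟩ => ⟨j, (mem_Ioc.1 hj).1, (mem_Ioc.1 hj).2, e.symm⟩,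
      fun ⟨j, a, b, e⟩ => ⟨j, mem_Ioc.2 ⟨a, b⟩, e.symm⟩⟩
  refine ⟨s, hall, fun j j1 j2 => ⟨sh j j1 j2, ?_⟩, sm, sne⟩
  by_cases a : j + 3 ≤ m
  · have b := hz j j1 (by omega)
    obtain ⟨l, l1, l2, e⟩ := (hall _).1 (ht.Yp_pres h b.1 j1)
    have c := b.2.2
    rw [e] at c
    have d : l = j + 1 := by
      by_cases f : l = m
      · rw [f] at c
        omega
      · rw [sh l l1 (by omega)] at c
        exact c
    rw [s1 j (by omega), e, d]
  by_cases b : j + 2 = m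
  · have e : j = m - 2 := by omega
    rw [s1 j b.le, show j + 1 = m - 1 by omega, s2, e]
    exact y2 (by omega)
  · have e : j = m - 1 := by omega
    rw [show j + 1 = m by omega, s3, e, s2]

end SD
end D145
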