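import Pool.Agent.MP_d145c0_al.H75.First
import Pool.Agent.MP_d145c0_al.H75.CV0

/-! Cut vertex, run of single levels: counts, parity, and the case `c = 1`. -/

namespace D145
open Equiv Finset
namespace SD
variable {Ω : Type} [Fintype Ω] [DecidableEq Ω] {m : ℕ} {S : SD Ω m} {c : ℕ} {x v : Ω}

/-- the points of level `< c` moved by the label `j` -/
noncomputable def cvhM (S : SD Ω m) (c j : ℕ) : Finset Ω :=
  (S.A c).filter (fun z => S.ρ j z ≠ z)

theorem mem_cvhM {j : ℕ} {z : Ω} : z ∈ S.cvhM c j ↔ S.lo z < c ∧ S.ρ j z ≠ z := by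
  simp [cvhM]

theorem cvh_run (h : S.AlX c x) (hr : ∀ i, c ≤ i → i < m → S.a i = 1) (d : ℕ)
    (hd : c + d + 1 ≤ m) : S.H (c + d) = S.H c ∧ (S.A (c + d)).card = (S.A c).card + d := by
  induction d with
  | zero => simp
  | succ d ih =>
    obtain ⟨h1, h2⟩ := ih (by omega)
    obtain ⟨x', hx'⟩ := S.alX_of_al (c := c + d)
      ⟨by have := h.1; omega, by omega, hr _ (by omega) (by omega)⟩
    obtain ⟨-, h3, h4⟩ := hx'.run (hr _ (by omega) (by omega))
    rw [show c + (d + 1) = c + d + 1 from rfl, h3, h4, h1, h2]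
    exact ⟨rfl, by omega⟩

theorem cvh_H (hv : S.CV v) (h : S.AlX c x) (hr : ∀ i, c ≤ i → i < m → S.a i = 1)
    (hc : c + 3 ≤ m) : S.H c + 1 = m ∧ (S.A c).card = m + c + 2 := by
  obtain ⟨d, hd⟩ : ∃ d, m = c + d + 2 := ⟨m - c - 2, by omega⟩
  obtain ⟨h1, -⟩ := cvh_run h hr d (by omega)
  obtain ⟨-, h2⟩ := cvh_run h hr (d + 1) (by omega)
  obtain ⟨x', hx'⟩ := S.alX_of_al (c := c + d)
    ⟨by have := h.1; omega, by omega, hr _ (by omega) (by omega)⟩
  obtain ⟨h3, -, -⟩ := hx'.run (hr _ (by omega) (by omega))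
  obtain ⟨z, hz, hz2⟩ := S.exists_H h.1
  have h4 : S.hi z < m := hv.hi_lt (by omega) (by rintro rfl; have := hv.1; omega)
  have h5 := hv.card_half
  have h6 := S.card_A m
  have h7 := S.card_A (c + (d + 1))
  have h8 := hr (c + (d + 1)) (by omega) (by omega)
  have h9 : ∑ i ∈ range m, S.a i = ∑ i ∈ range (c + (d + 1)), S.a i + S.a (c + (d + 1)) := by
    rw [← Finset.sum_range_succ]
    exact congrArg (fun n => ∑ i ∈ range n, S.a i) (by omega)
  omega

theorem cvh_par (h : S.AlX c x) (hr : ∀ i, c ≤ i → i < m → S.a i = 1) {j : ℕ}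
    (h1 : c + 1 ≤ j) (h2 : j < m) : (S.cvhM c j).card % 4 = 2 := by
  have hc := h.1
  have hx : ∀ i, c ≤ i → i < m → ∃ y, S.AlX i y := fun i a b =>
    S.alX_of_al ⟨by omega, by omega, hr i a b⟩
  obtain ⟨x1, hx1⟩ := hx (j - 1) (by omega) (by omega)
  obtain ⟨x2, hx2⟩ := hx j (by omega) h2
  have e : S.supp j = insert x1 (insert x2 (S.cvhM c j)) := by
    ext z
    simp only [mem_supp, mem_insert, mem_cvhM]
    constructor
    · intro hz
      have a1 := S.lo_le hz
      have a2 := S.le_hi hz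
      by_cases a3 : S.lo z < c
      · exact Or.inr (Or.inr ⟨a3, hz⟩)
      · obtain ⟨y, hy⟩ := hx (S.lo z) (by omega) (by omega)
        have a4 := hy.2.2.2 z rfl
        have a5 := hy.hi_x
        rw [← a4] at a5
        by_cases a6 : S.lo z = j
        · exact Or.inr (Or.inl (hx2.2.2.2 z a6))
        · exact Or.inl (hx1.2.2.2 z (by omega))
    · rintro (rfl | rfl | hz)
      · have a1 := hx1.hi_x
        have a2 := S.mv_hi z
        rwa [a1, show j - 1 + 1 = j by omega] at a2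
      · have a2 := S.mv_lo z
        rwa [hx2.2.2.1] at a2
      · exact hz.2
  have l1 := hx1.2.2.1
  have l2 := hx2.2.2.1
  have n1 : x1 ∉ insert x2 (S.cvhM c j) := by
    simp only [mem_insert, mem_cvhM, not_or, not_and]
    exact ⟨by rintro rfl; omega, fun a => by omega⟩
  have n2 : x2 ∉ S.cvhM c j := by
    simp only [mem_cvhM, not_and]
    exact fun a => by omega
  have := S.four_dvd_supp j
  rw [e, card_insert_of_notMem n1, card_insert_of_notMem n2] at this
  omega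

theorem cvh_hi0 {z : Ω} (hz : 2 ≤ S.hi z) : S.hi (S.ρ 0 z) = S.hi z := S.hi_far (by omega)

theorem cvh_lo0 {z : Ω} (hz : S.lo z = 0) : S.lo (S.ρ 0 z) = 0 ∧ S.ρ 0 z ≠ z := by
  have h1 := S.lo_step 0 z
  have h2 := S.mv_lo z
  rw [hz] at h2
  exact ⟨by omega, h2⟩

theorem cvh_one (hv : S.CV v) (h : S.AlX 1 x) (hr : ∀ i, 1 ≤ i → i < m → S.a i = 1) :
    False := by
  have hm := S.hm
  obtain ⟨hH, hA⟩ := cvh_H hv h hr (by omega)
  have h0 := h.first_one (by omega)
  have hA1 := S.card_A 1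
  rw [Finset.sum_range_one] at hA1
  have hm5 : m = 5 := by omega
  have hH4 : S.H 1 = 4 := by omega
  have hA8 : (S.A 1).card = 8 := by omega
  have hhi : ∀ z, S.lo z = 0 → S.hi z ≤ 4 := fun z hz => hH4 ▸ S.hi_le_H (by omega)
  obtain ⟨t, lt, ht, ht'⟩ := h.hi_cross (j := 3) (by omega) (by omega)
  obtain ⟨z, lz, hz, hz'⟩ := h.hi_cross (j := 2) (by omega) (by omega)
  have c03 : ∀ u, S.ρ 3 (S.ρ 0 u) = S.ρ 0 (S.ρ 3 u) := fun u => (S.comm 0 3 (by omega) u).symm
  have c02 : ∀ u, S.ρ 2 (S.ρ 0 u) = S.ρ 0 (S.ρ 2 u) := fun u => (S.comm 0 2 (by omega) u).symm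
  have c13 : ∀ u, S.ρ 3 (S.ρ 1 u) = S.ρ 1 (S.ρ 3 u) := fun u => (S.comm 1 3 (by omega) u).symm
  have lt0 : S.lo t = 0 := by omega
  have lz0 : S.lo z = 0 := by omega
  have lp : S.lo (S.ρ 3 t) = 0 := by rw [S.lo_far (by omega)]; exact lt0
  obtain ⟨lt1, nt⟩ := cvh_lo0 lt0
  obtain ⟨lz1, nz⟩ := cvh_lo0 lz0
  obtain ⟨lp1, np⟩ := cvh_lo0 lp
  have ht1 : S.hi (S.ρ 0 t) = 3 := by rw [cvh_hi0 (by omega)]; exact ht
  have hz1 : S.hi (S.ρ 0 z) = 2 := by rw [cvh_hi0 (by omega)]; exact hz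
  have hp1 : S.hi (S.ρ 0 (S.ρ 3 t)) = 4 := by rw [cvh_hi0 (by omega)]; exact ht'
  -- the points moved by the label 3
  have hM3 := cvh_par h hr (j := 3) (by omega) (by omega)
  have hM4 := cvh_par h hr (j := 4) (by omega) (by omega)
  have s3 : S.cvhM 1 3 ⊆ ((S.A 1).erase z).erase (S.ρ 0 z) := by
    intro u hu
    rw [mem_cvhM] at hu
    have := S.le_hi hu.2
    simp only [mem_erase, mem_A]
    exact ⟨by rintro rfl; omega, by rintro rfl; omega, hu.1⟩
  have k3 : (((S.A 1).erase z).erase (S.ρ 0 z)).card = 6 := by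
    rw [card_erase_of_mem (by simp only [mem_erase, mem_A]; exact ⟨nz, by omega⟩),
      card_erase_of_mem (by simp only [mem_A]; omega), hA8]
  have mv3 : ∀ u, S.hi u = 3 → S.ρ 3 u ≠ u := fun u hu => hu ▸ S.mv_hi u
  have mv4 : ∀ u, S.hi u = 4 → S.ρ 4 u ≠ u := fun u hu => hu ▸ S.mv_hi u
  have t3 : ({t, S.ρ 0 t, S.ρ 3 t} : Finset Ω) ⊆ S.cvhM 1 3 := by
    intro u hu
    simp only [mem_insert, mem_singleton] at hu
    rw [mem_cvhM]
    rcases hu with rfl | rfl | rfl
    · exact ⟨by omega, mv3 _ ht⟩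
    · exact ⟨by omega, mv3 _ ht1⟩
    · exact ⟨by omega, by rw [Ne, S.fix_self]; exact mv3 _ ht⟩
  have k4 : ({t, S.ρ 0 t, S.ρ 3 t} : Finset Ω).card = 3 :=
    card_eq_three.2 ⟨_, _, _, nt.symm, fun e => by rw [← e] at ht'; omega,
      fun e => by rw [← e] at ht'; omega, rfl⟩
  have e3 : S.cvhM 1 3 = ((S.A 1).erase z).erase (S.ρ 0 z) := by
    have a1 := card_le_card s3
    have a2 := card_le_card t3
    exact eq_of_subset_of_card_le s3 (by omega)
  have F2 : ∀ u, S.lo u = 0 → S.hi u ≤ 2 → u = z ∨ u = S.ρ 0 z := by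
    intro u a1 a2
    by_contra a3
    push Not at a3
    have : u ∈ S.cvhM 1 3 := by
      rw [e3]; simp only [mem_erase, mem_A]; exact ⟨a3.2, a3.1, by omega⟩
    have := S.le_hi (mem_cvhM.1 this).2
    omega
  -- the points moved by the label 4
  have s4 : S.cvhM 1 4 ⊆ ((S.cvhM 1 3).erase t).erase (S.ρ 0 t) := by
    intro u hu
    rw [mem_cvhM] at hu
    have := S.le_hi hu.2
    rw [e3]
    simp only [mem_erase, mem_A]
    exact ⟨by rintro rfl; omega, by rintro rfl; omega, by rintro rfl; omega,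
      by rintro rfl; omega, hu.1⟩
  have k5 : (((S.cvhM 1 3).erase t).erase (S.ρ 0 t)).card = 4 := by
    rw [card_erase_of_mem (mem_erase.2 ⟨nt, t3 (by simp)⟩), card_erase_of_mem (t3 (by simp)), e3,
      k3]
  have t4 : ({S.ρ 3 t, S.ρ 0 (S.ρ 3 t)} : Finset Ω) ⊆ S.cvhM 1 4 := by
    intro u hu
    simp only [mem_insert, mem_singleton] at hu
    rw [mem_cvhM]
    rcases hu with rfl | rfl
    · exact ⟨by omega, mv4 _ ht'⟩
    · exact ⟨by omega, mv4 _ hp1⟩
  have e4 : ({S.ρ 3 t, S.ρ 0 (S.ρ 3 t)} : Finset Ω) = S.cvhM 1 4 := by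
    have a1 := card_le_card s4
    exact eq_of_subset_of_card_le t4 (by rw [card_pair np.symm]; omega)
  have F4 : ∀ u, S.lo u = 0 → S.hi u = 4 → u = S.ρ 3 t ∨ u = S.ρ 0 (S.ρ 3 t) := by
    intro u a1 a2
    have : u ∈ S.cvhM 1 4 := mem_cvhM.2 ⟨by omega, mv4 u a2⟩
    rw [← e4] at this
    simpa using this
  have F34 : ∀ u, S.lo u = 0 → S.hi (S.ρ 3 u) = 4 → u = t ∨ u = S.ρ 0 t := by
    intro u a1 a2
    rcases F4 (S.ρ 3 u) (by rw [S.lo_far (by omega)]; exact a1) a2 with a3 | a3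
    · exact Or.inl (S.ρ_inj a3)
    · rw [← c03] at a3; exact Or.inr (S.ρ_inj a3)
  -- the remaining two points
  set U := ((((S.cvhM 1 3).erase t).erase (S.ρ 0 t)).erase (S.ρ 3 t)).erase (S.ρ 0 (S.ρ 3 t))
    with hU
  have kU : U.card = 2 := by
    rw [hU, card_erase_of_mem (mem_erase.2 ⟨np, s4 (t4 (by simp))⟩),
      card_erase_of_mem (s4 (t4 (by simp))), k5]
  have mU : ∀ u, u ∈ U ↔ S.lo u = 0 ∧ S.hi u = 3 ∧ S.hi (S.ρ 3 u) = 3 := by
    intro u
    simp only [hU, mem_erase, mem_cvhM]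
    constructor
    · rintro ⟨a1, a2, a3, a4, a5, a6⟩
      have b1 := S.le_hi a6
      have b2 := hhi u (by omega)
      have b3 : S.hi u ≠ 4 := fun e => by rcases F4 u (by omega) e with e | e <;> contradiction
      have b4 : S.hi (S.ρ 3 u) ≠ 4 := fun e => by
        rcases F34 u (by omega) e with e | e <;> contradiction
      have b5 := S.hi_step 3 u
      omega
    · rintro ⟨a1, a2, a3⟩
      refine ⟨by rintro rfl; omega, by rintro rfl; omega, ?_, by rintro rfl; omega, by omega,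
        mv3 u a2⟩
      rintro rfl
      rw [c03] at a3; omega
  have lw : S.lo (S.ρ 2 z) = 0 := by rw [S.lo_far (by omega)]; exact lz0
  obtain ⟨lw1, nw⟩ := cvh_lo0 lw
  have l1 : ∀ u, S.lo u = 0 → 3 ≤ S.hi u → S.lo (S.ρ 1 u) = 0 := by
    intro u a1 a2
    have b1 := h.hi_y
    have b2 := h.A_pres (z := u) (by omega) (i := 1) (Or.inr (by rintro rfl; omega))
    omega
  have key2 : ∀ u, S.lo u = 0 → S.hi u = 3 → u ≠ S.ρ 2 z → u ≠ S.ρ 0 (S.ρ 2 z) →
      S.hi (S.ρ 2 u) = 3 ∧ S.ρ 2 u ≠ S.ρ 2 z ∧ S.ρ 2 u ≠ S.ρ 0 (S.ρ 2 z) := by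
    intro u a1 a2 a3 a4
    have b1 := S.hi_step 2 u
    refine ⟨?_, ?_, ?_⟩
    · by_contra b2
      rcases F2 (S.ρ 2 u) (by rw [S.lo_far (by omega)]; exact a1) (by omega) with e | e
      · exact a3 (S.ρ_swap e).symm
      · exact a4 (by rw [← c02]; exact (S.ρ_swap e).symm)
    · intro e; have := S.ρ_inj e; subst this; omega
    · intro e; rw [← c02] at e; have := S.ρ_inj e; subst this; omega
  have hw := S.hi_step 3 (S.ρ 2 z)
  have hw0 : S.hi (S.ρ 3 (S.ρ 0 (S.ρ 2 z))) = S.hi (S.ρ 3 (S.ρ 2 z)) := by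
    rw [c03, cvh_hi0 (by omega)]
  by_cases hcase : S.hi (S.ρ 3 (S.ρ 2 z)) = 4
  · obtain ⟨u0, hu0⟩ : U.Nonempty := card_pos.1 (by omega)
    have hT : ∀ u, S.lo u = 0 → S.hi (S.ρ 3 u) = 4 → u = S.ρ 2 z ∨ u = S.ρ 0 (S.ρ 2 z) := by
      intro u a1 a2
      rcases F34 _ lw hcase with e | e <;> rcases F34 u a1 a2 with e' | e' <;> rw [e, e'] <;>
        simp [S.inv]
    have := S.connF hu0 (by
      intro i u hu
      obtain ⟨a1, a2, a3⟩ := (mU u).1 hu
      rw [mU]
      rcases Nat.lt_or_ge i 4 with hi | hi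
      · interval_cases i
        · exact ⟨(cvh_lo0 a1).1, by rw [cvh_hi0 (by omega), a2],
            by rw [c03, cvh_hi0 (by omega), a3]⟩
        · exact ⟨l1 u a1 (by omega), by rw [S.hi_far (by omega), a2],
            by rw [c13, S.hi_far (by omega), a3]⟩
        · obtain ⟨b1, b2, b3⟩ := key2 u a1 a2 (by rintro rfl; omega) (by rintro rfl; omega)
          have b4 : S.lo (S.ρ 2 u) = 0 := by rw [S.lo_far (by omega)]; exact a1
          have b5 := S.hi_step 3 (S.ρ 2 u)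
          refine ⟨b4, b1, ?_⟩
          by_contra b6
          rcases hT _ b4 (by omega) with e | e <;> contradiction
        · exact ⟨by rw [S.lo_far (by omega)]; exact a1, a3, by rw [S.inv]; exact a2⟩
      · rw [S.fix_hi (by omega)]; exact ⟨a1, a2, a3⟩)
    omega
  · have hT : ∀ u, u ∈ U → u = S.ρ 2 z ∨ u = S.ρ 0 (S.ρ 2 z) := by
      have a1 : ({S.ρ 2 z, S.ρ 0 (S.ρ 2 z)} : Finset Ω) ⊆ U := by
        intro u hu
        simp only [mem_insert, mem_singleton] at hu
        rw [mU]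
        rcases hu with rfl | rfl
        · exact ⟨lw, hz', by omega⟩
        · exact ⟨lw1, by rw [cvh_hi0 (by omega)]; exact hz', by omega⟩
      have a2 := eq_of_subset_of_card_le a1 (by rw [card_pair nw.symm]; omega)
      intro u hu
      rw [← a2] at hu
      simpa using hu
    have := S.conn (U := {u | S.lo u = 0 ∧ (S.hi u = 4 ∨ (S.hi u = 3 ∧ S.hi (S.ρ 3 u) = 4))})
      (x := t) ⟨lt0, Or.inr ⟨ht, ht'⟩⟩ (by
      rintro i u ⟨a1, a2⟩
      have a3 : 3 ≤ S.hi u := by omega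
      rcases Nat.lt_or_ge i 5 with hi | hi
      · interval_cases i
        · refine ⟨(cvh_lo0 a1).1, ?_⟩
          rw [cvh_hi0 (by omega), c03]
          rcases a2 with a2 | a2
          · exact Or.inl a2
          · exact Or.inr ⟨a2.1, by rw [cvh_hi0 (by omega), a2.2]⟩
        · refine ⟨l1 u a1 a3, ?_⟩
          rw [S.hi_far (by omega), c13]
          rcases a2 with a2 | a2
          · exact Or.inl a2
          · exact Or.inr ⟨a2.1, by rw [S.hi_far (by omega), a2.2]⟩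
        · have b4 : S.lo (S.ρ 2 u) = 0 := by rw [S.lo_far (by omega)]; exact a1
          refine ⟨b4, ?_⟩
          rcases a2 with a2 | a2
          · exact Or.inl (by rw [S.hi_far (by omega), a2])
          · obtain ⟨b1, b2, b3⟩ := key2 u a1 a2.1 (by rintro rfl; omega) (by rintro rfl; omega)
            have b5 := S.hi_step 3 (S.ρ 2 u)
            refine Or.inr ⟨b1, ?_⟩
            by_contra b6
            rcases hT _ ((mU _).2 ⟨b4, b1, by omega⟩) with e | e <;> contradiction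
        · refine ⟨by rw [S.lo_far (by omega)]; exact a1, ?_⟩
          rw [S.inv]
          have b5 := S.hi_step 3 u
          omega
        · have b4 : S.lo (S.ρ 4 u) = 0 := by rw [S.lo_far (by omega)]; exact a1
          refine ⟨b4, ?_⟩
          rcases a2 with a2 | a2
          · have b5 := S.hi_step 4 u
            have b6 := hhi _ b4
            omega
          · rw [S.fix_hi (i := 4) (by omega)]; exact Or.inr a2
      · rw [S.fix_hi (by omega)]; exact ⟨a1, a2⟩) z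
    obtain ⟨-, a2⟩ := this
    omega

end SD
end D145
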