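import Pool.Agent.MP_d145c0_al.H75.First
import Pool.Agent.MP_d145c0_al.H75.CV0
import Pool.Agent.MP_d145c0_al.H75.CVhX1

/-! Cut vertex: a run of at least three single levels starting at the first one is impossible. -/

namespace D145
open Equiv Finset
namespace SD
variable {Ω : Type} [Fintype Ω] [DecidableEq Ω] {m : ℕ} {S : SD Ω m} {c : ℕ} {x v : Ω}
  {b b' : ℕ} {O O' : Finset Ω}

theorem cvh_gam0 : S.gam2 b b' 0 = S.aX b' 0 + 2 * (S.OP b b' 0).card := by
  have : S.OI b b' 0 = ∅ := by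
    ext O; simp [S.mem_OI]
  unfold gam2; rw [this]; simp

theorem cvh_gam (i : ℕ) : S.gam2 b b' i =
    S.aX b' i + 2 * (S.OI b b' i).card + 2 * (S.OP b b' i).card := rfl

theorem cvh_lev0 {z : Ω} (hz : S.lo z = 0) : S.hi z < b' ∨ ∃ O ∈ S.OP b b' 0, z ∈ O := by
  by_cases h : S.hi z < b'
  · exact Or.inl h
  · obtain ⟨O, hO, hzO⟩ := S.exists_orb (b := b) (b' := b') (x := z) (by omega) (by omega)
    have := S.pl_le hzO
    exact Or.inr ⟨O, S.mem_OP.2 ⟨hO, by omega⟩, hzO⟩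

theorem cvh_aX_pos {z : Ω} {i : ℕ} (h1 : S.lo z = i) (h2 : S.hi z < b') : 1 ≤ S.aX b' i :=
  card_pos.2 ⟨z, S.mem_levX.2 ⟨h1, h2⟩⟩

theorem cvh_aX0 (h : (S.OP b b' 0).card = 0) : 4 ≤ S.aX b' 0 := by
  have h1 : S.lev 0 ⊆ S.levX b' 0 := by
    intro z hz
    rw [mem_lev] at hz
    rcases cvh_lev0 (b := b) (b' := b') hz with h2 | ⟨O, hO, -⟩
    · exact S.mem_levX.2 ⟨hz, h2⟩
    · rw [card_eq_zero.1 h] at hO; simp at hO
  exact S.four_le_a0.trans (card_le_card h1)

theorem cvh_W0 (h : S.aX b' 0 = 0) {z : Ω} (hz : S.lo z = 0) : ∃ O ∈ S.OP b b' 0, z ∈ O := by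
  rcases cvh_lev0 (b := b) (b' := b') hz with h2 | h2
  · have := cvh_aX_pos hz h2; omega
  · exact h2

/-- without low points of level `0`, some orbit enters level `1` -/
theorem cvh_i1 (hb1 : 1 ≤ b) (h : S.aX b' 0 = 0) (hx : 1 ≤ S.lo x) :
    ∃ O ∈ S.OP b b' 0, 1 ≤ S.iO O := by
  obtain ⟨z, h1, h2⟩ := S.cross (j := 1) le_rfl hx
  obtain ⟨O, hO, hz⟩ := cvh_W0 (b := b) h (z := S.ρ 1 z) (by omega)
  refine ⟨O, hO, ?_⟩
  obtain ⟨hO1, hO2⟩ := S.mem_OP.1 hO
  have h3 := S.Orbs_ρ hO1 hz (i := 1) (Or.inl hb1)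
  rw [S.inv] at h3
  have := S.le_ql h3
  unfold iO; omega

theorem cvh_single (hb : b + 2 ≤ b') (hb1 : 1 ≤ b) (h : S.aX b' 0 = 0)
    (h1 : (S.OP b b' 0).card = 1) (hx : 1 ≤ S.lo x) :
    ∃ O, S.OP b b' 0 = {O} ∧ O ∈ S.Orbs b b' ∧ S.pl O = 0 ∧ (∀ z, S.lo z = 0 → z ∈ O) ∧
      1 ≤ S.iO O ∧ 2 ≤ S.exc O := by
  obtain ⟨O, hO⟩ := card_eq_one.1 h1
  have hm : O ∈ S.OP b b' 0 := by rw [hO]; simp
  obtain ⟨hO1, hO2⟩ := S.mem_OP.1 hm
  have h2 : ∀ z, S.lo z = 0 → z ∈ O := by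
    intro z hz
    obtain ⟨O', hO', hz'⟩ := cvh_W0 (b := b) h hz
    rw [hO, mem_singleton] at hO'
    exact hO' ▸ hz'
  have h3 : 1 ≤ S.iO O := by
    obtain ⟨O', hO', hi⟩ := cvh_i1 (b := b) hb1 h hx
    rw [hO, mem_singleton] at hO'
    exact hO' ▸ hi
  refine ⟨O, hO, hO1, hO2, h2, h3, S.exc_a hb hO1 h3 (l := 0) ?_⟩
  refine S.four_le_a0.trans (card_le_card ?_)
  intro z hz
  rw [mem_lev] at hz
  exact mem_filter.2 ⟨h2 z hz, hz⟩

/-- a crossed value of `hi` moves at least three points of the orbit -/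
theorem cvh_three (hb : b + 2 ≤ b') (hO : O ∈ S.Orbs b b') {j : ℕ} (h1 : S.ph O ≤ j)
    (h2 : j < S.qh O) : 3 ≤ (S.cvhM (b + 1) j).card := by
  obtain ⟨z, hz, a1, a2⟩ := S.cross_hi_O hb hO h1 h2
  obtain ⟨a3, a4⟩ := S.Orbs_W hb hO hz
  have a5 : S.hi (S.ρ (S.lo z) z) = j := by rw [S.hi_far (by omega), a1]
  have a6 := S.lo_step (S.lo z) z
  have a7 : S.ρ j z ≠ z := a1 ▸ S.mv_hi z
  have t : ({z, S.ρ (S.lo z) z, S.ρ j z} : Finset Ω) ⊆ S.cvhM (b + 1) j := by
    intro u hu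
    simp only [mem_insert, mem_singleton] at hu
    rw [mem_cvhM]
    rcases hu with rfl | rfl | rfl
    · exact ⟨by omega, a7⟩
    · exact ⟨by omega, a5 ▸ S.mv_hi _⟩
    · exact ⟨by rw [S.lo_far (by omega)]; omega, by rw [Ne, S.fix_self]; exact a7⟩
  have k : ({z, S.ρ (S.lo z) z, S.ρ j z} : Finset Ω).card = 3 :=
    card_eq_three.2 ⟨_, _, _, (S.mv_lo z).symm, a7.symm, fun e => by rw [← e] at a2; omega, rfl⟩
  exact k ▸ card_le_card t

theorem cvh_le {f : Finset Ω → ℕ} (hO : O ∈ S.Orbs b b') : f O ≤ ∑ O ∈ S.Orbs b b', f O :=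
  single_le_sum (f := f) (fun _ _ => Nat.zero_le _) hO

theorem cvh_le2 {f : Finset Ω → ℕ} (hO : O ∈ S.Orbs b b') (hO' : O' ∈ S.Orbs b b') (h : O ≠ O') :
    f O + f O' ≤ ∑ O ∈ S.Orbs b b', f O := by
  rw [← sum_pair h]
  exact sum_le_sum_of_subset (by intro u hu; simp only [mem_insert, mem_singleton] at hu
                                 rcases hu with rfl | rfl <;> assumption)

theorem cvh_sum1 {f : Finset Ω → ℕ} (hO : O ∈ S.Orbs b b')
    (h : ∀ O' ∈ S.Orbs b b', O' ≠ O → f O' = 0) : ∑ O ∈ S.Orbs b b', f O = f O :=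
  sum_eq_single_of_mem O hO h

/-- budgets for one, two and three levels -/
theorem cvh_budget {γ : ℕ → ℕ} {n : ℕ} (h : ∀ i < n, 2 ≤ γ i) (hn : 0 < n) :
    γ 0 + 2 * n ≤ ∑ i ∈ range n, γ i + 2 ∧
    (∀ p, 1 ≤ p → p < n → γ 0 + γ p + 2 * n ≤ ∑ i ∈ range n, γ i + 4) ∧
    ∀ p q, 1 ≤ p → p < n → 1 ≤ q → q < n → p ≠ q →
      γ 0 + γ p + γ q + 2 * n ≤ ∑ i ∈ range n, γ i + 6 := by
  have h' : ∀ i ∈ range n, 2 ≤ γ i := fun i hi => h i (mem_range.1 hi)
  refine ⟨?_, ?_, ?_⟩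
  · have := sum_excess (t := {0}) h' (by simp [hn])
    simpa using this
  · intro p h1 h2
    have := sum_excess (t := {0, p}) h' (by
      intro u hu; simp only [mem_insert, mem_singleton, mem_range] at hu ⊢; omega)
    rw [sum_pair (by omega), card_pair (by omega), card_range] at this
    omega
  · intro p q h1 h2 h3 h4 h5
    have := sum_excess (t := {0, p, q}) h' (by
      intro u hu; simp only [mem_insert, mem_singleton, mem_range] at hu ⊢; omega)
    have n0 : 0 ∉ ({p, q} : Finset ℕ) := by simp only [mem_insert, mem_singleton]; omega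
    rw [sum_insert n0, card_insert_of_notMem n0, sum_pair h5, card_pair h5, card_range] at this
    omega

theorem cvh_gam2 (hb : b + 2 ≤ b') (hf : ∀ i, 1 ≤ i → i < b + 1 → 2 ≤ S.a i) :
    ∀ i < b + 1, 2 ≤ S.gam2 b b' i := by
  intro i hi
  rcases Nat.eq_zero_or_pos i with rfl | h0
  · exact (S.gam_zero hb).2
  · exact (S.gam_two hb h0 (by omega) (hf i h0 hi)).trans (S.gam_le_gam2 i)

/-- a low point when level `0` has none -/
theorem cvh_X (hb : b + 2 ≤ b') (h : S.aX b' 0 = 0) {y : Ω} (h1 : S.lo y ≤ b)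
    (h2 : S.hi y < b') : ∃ p, 1 ≤ p ∧ p ≤ S.lo y ∧ 3 ≤ S.gam2 b b' p := by
  obtain ⟨z, -, a1, -, -, -, a2, a3⟩ := S.gam_X hb h1 h2
  have a4 : 1 ≤ S.lo z := by
    by_contra a5
    rw [show S.lo z = 0 by omega] at a2; omega
  refine ⟨S.lo z, a4, a1, ?_⟩
  have := a3 a4
  unfold gam2; omega

theorem cvh_h3 (hv : S.CV v) (h : S.AlX (b + 1) x) (hf : ∀ i, 1 ≤ i → i < b + 1 → 2 ≤ S.a i)
    (hr : ∀ i, b + 1 ≤ i → i < m → S.a i = 1) (hb1 : 1 ≤ b) (hm : m = b + 5)
    (hK : ∑ O ∈ S.Orbs b (b + 2), S.kO O = 2)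
    (hT : ∑ i ∈ range (b + 1), S.gam2 b (b + 2) i + ∑ O ∈ S.Orbs b (b + 2), S.exc O =
      2 * b + 4) : False := by
  have hb : b + 2 ≤ b + 2 := le_rfl
  obtain ⟨hH, -⟩ := cvh_H hv h hr (by omega)
  obtain ⟨B1, B2, -⟩ := cvh_budget (cvh_gam2 hb hf) (by omega)
  have g0 := cvh_gam0 (S := S) (b := b) (b' := b + 2)
  have ev := S.even_aX0 (b' := b + 2) (by omega)
  have lx : 1 ≤ S.lo x := by have := h.2.2.1; omega
  have hP : ∀ O ∈ S.Orbs b (b + 2), 1 ≤ S.pl O →
      S.gam2 b (b + 2) 0 + ∑ O ∈ S.Orbs b (b + 2), S.exc O ≤ 3 := by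
    intro O hO hp
    have a1 := (S.gam_P hb hO hp).2.2
    have a2 := S.Orbs_range hb hO
    have a3 := B2 (S.pl O) hp (by omega)
    omega
  have a0 := cvh_aX0 (S := S) (b := b) (b' := b + 2)
  by_cases c1 : S.aX (b + 2) 0 = 0 ∧ (S.OP b (b + 2) 0).card = 1
  · obtain ⟨O, e, hO, -, -, hi, hx⟩ := cvh_single hb hb1 c1.1 c1.2 lx
    have a1 := cvh_le (f := S.exc) hO
    have a2 : ∀ O' ∈ S.Orbs b (b + 2), O' = O := by
      intro O' hO'
      by_cases a3 : 1 ≤ S.pl O'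
      · have := hP O' hO' a3; omega
      · have : O' ∈ S.OP b (b + 2) 0 := S.mem_OP.2 ⟨hO', by omega⟩
        rw [e] at this; simpa using this
    have a4 := cvh_sum1 (f := S.kO) hO (fun O' a b => absurd (a2 O' a) b)
    have a5 := S.exc_four hb hO hi (by omega) (by omega)
    omega
  have g4 : S.gam2 b (b + 2) 0 = 4 := by obtain ⟨k, hk⟩ := ev; omega
  have X0 : ∑ O ∈ S.Orbs b (b + 2), S.exc O = 0 := by omega
  have hex : ∀ O ∈ S.Orbs b (b + 2), S.exc O = 0 := fun O hO => by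
    have := cvh_le (f := S.exc) hO; omega
  have hp0 : ∀ O ∈ S.Orbs b (b + 2), S.pl O = 0 := fun O hO => by
    by_contra a1
    have := hP O hO (by omega); omega
  have hOP : S.OP b (b + 2) 0 = S.Orbs b (b + 2) := by
    ext O; rw [S.mem_OP]; exact ⟨fun a => a.1, fun a => ⟨a, hp0 O a⟩⟩
  have hik : ∀ O ∈ S.Orbs b (b + 2), S.iO O = 0 ∨ S.kO O = 0 := fun O hO => by
    by_contra a1
    have a2 := S.exc_two hb hO (by omega) (by omega)
    have := hex O hO; omega
  -- the orbit with `k = 2`; the other orbits have `hi = b + 2`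
  obtain ⟨O, hO, hk, hoth⟩ : ∃ O ∈ S.Orbs b (b + 2), S.kO O = 2 ∧
      ∀ O' ∈ S.Orbs b (b + 2), O' ≠ O → S.qh O' ≤ b + 2 := by
    rw [hOP] at g0
    by_cases c2 : (S.Orbs b (b + 2)).card ≤ 1
    · obtain ⟨O, hO, -⟩ := exists_ne_zero_of_sum_ne_zero (by rw [hK]; omega :
        ∑ O ∈ S.Orbs b (b + 2), S.kO O ≠ 0)
      have a2 : ∀ O' ∈ S.Orbs b (b + 2), O' = O := fun O' hO' => card_le_one.1 c2 _ hO' _ hO
      have a4 := cvh_sum1 (f := S.kO) hO (fun O' a b => absurd (a2 O' a) b)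
      exact ⟨O, hO, by omega, fun O' a b => absurd (a2 O' a) b⟩
    · have c3 : S.aX (b + 2) 0 = 0 := by omega
      have ly := h.lo_y
      have hy := h.hi_y
      have hy2 : b + 2 ≤ S.hi (S.ρ (b + 1) x) := by
        by_contra a1
        obtain ⟨p, p1, p2, p3⟩ := cvh_X hb c3 (y := S.ρ (b + 1) x) (by omega) (by omega)
        have := B2 p p1 (by omega)
        omega
      obtain ⟨O', hO', hyO⟩ := S.exists_orb (b := b) (b' := b + 2) (x := S.ρ (b + 1) x)
        (by omega) hy2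
      have k0 : S.kO O' = 0 := by
        have a1 := S.le_ql hyO
        have a2 := hp0 O' hO'
        rcases hik O' hO' with a3 | a3
        · unfold iO at a3; omega
        · exact a3
      obtain ⟨O, hO⟩ := card_eq_one.1
        (show ((S.Orbs b (b + 2)).erase O').card = 1 by rw [card_erase_of_mem hO']; omega)
      have hO1 : O ∈ (S.Orbs b (b + 2)).erase O' := by rw [hO]; simp
      have a2 : ∀ O'' ∈ S.Orbs b (b + 2), O'' ≠ O → O'' = O' := by
        intro O'' a3 a4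
        by_contra a5
        have : O'' ∈ (S.Orbs b (b + 2)).erase O' := mem_erase.2 ⟨a5, a3⟩
        rw [hO] at this
        exact a4 (by simpa using this)
      have a4 := cvh_sum1 (f := S.kO) (mem_erase.1 hO1).2 (fun O'' a b => by rw [a2 O'' a b, k0])
      refine ⟨O, (mem_erase.1 hO1).2, by omega, fun O'' a b => ?_⟩
      rw [a2 O'' a b]
      have a5 := S.ph_le hyO
      unfold kO at k0; omega
  have hi0 : S.iO O = 0 := by rcases hik O hO with a | a <;> omega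
  have hc := S.card_O hb hO
  rw [hi0, hk, hex O hO] at hc
  have hR := S.Orbs_range hb hO
  have hq : S.qh O ≤ b + 4 := by
    obtain ⟨u, hu, e⟩ := S.exists_qh hO
    have a1 := S.Orbs_W hb hO hu
    have a2 := S.hi_le_H (c := b + 1) (z := u) (by omega)
    omega
  unfold kO at hk
  have h3 := cvh_three hb hO (j := b + 3) (by omega) (by omega)
  have hpar := cvh_par h hr (j := b + 3) (by omega) (by omega)
  obtain ⟨u, hu, e⟩ := S.exists_ph hO
  have lu := S.Orbs_W hb hO hu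
  have hu' : S.ρ (S.lo u) u ∈ O := S.Orbs_ρ hO hu (Or.inl lu.1)
  have e' : S.hi (S.ρ (S.lo u) u) = S.hi u := S.hi_far (by omega)
  have sub : S.cvhM (b + 1) (b + 3) ⊆ (O.erase u).erase (S.ρ (S.lo u) u) := by
    intro z hz
    rw [mem_cvhM] at hz
    have a1 := S.le_hi hz.2
    obtain ⟨O', hO', hz'⟩ := S.exists_orb (b := b) (b' := b + 2) (x := z) (by omega) (by omega)
    have a2 := S.le_qh hz'
    have a3 : O' = O := by
      by_contra a4
      have := hoth O' hO' a4; omega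
    simp only [mem_erase]
    exact ⟨by rintro rfl; omega, by rintro rfl; omega, a3 ▸ hz'⟩
  have := card_le_card sub
  rw [card_erase_of_mem (mem_erase.2 ⟨S.mv_lo u, hu'⟩), card_erase_of_mem hu] at this
  omega

theorem cvh_h2 (hv : S.CV v) (h : S.AlX (b + 1) x) (hf : ∀ i, 1 ≤ i → i < b + 1 → 2 ≤ S.a i)
    (hr : ∀ i, b + 1 ≤ i → i < m → S.a i = 1) (hb1 : 1 ≤ b) (hm : m = b + 4)
    (hK : ∑ O ∈ S.Orbs b (b + 2), S.kO O = 1)
    (hT : ∑ i ∈ range (b + 1), S.gam2 b (b + 2) i + ∑ O ∈ S.Orbs b (b + 2), S.exc O =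
      2 * b + 5) : False := by
  have hb : b + 2 ≤ b + 2 := le_rfl
  obtain ⟨hH, hA⟩ := cvh_H hv h hr (by omega)
  obtain ⟨B1, B2, B3⟩ := cvh_budget (cvh_gam2 hb hf) (by omega)
  have g0 := cvh_gam0 (S := S) (b := b) (b' := b + 2)
  have ev := S.even_aX0 (b' := b + 2) (by omega)
  have lx : 1 ≤ S.lo x := by have := h.2.2.1; omega
  have lv := hv.1
  have a4 : S.a 0 = 4 := by
    have a1 := S.four_le_a0
    have a2 := S.four_dvd_a0
    have a3 := (cvh_budget (γ := S.a) (n := b + 1) (by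
      intro i hi
      rcases Nat.eq_zero_or_pos i with rfl | h0
      · omega
      · exact hf i h0 hi) (by omega)).1
    rw [← S.card_A] at a3
    omega
  have gp := hv.gp (j := 1) (by omega)
  obtain ⟨O1, hO1, hk1⟩ := exists_ne_zero_of_sum_ne_zero (by rw [hK]; omega :
    ∑ O ∈ S.Orbs b (b + 2), S.kO O ≠ 0)
  have hk : S.kO O1 = 1 := by have := cvh_le (f := S.kO) hO1; omega
  have hR := S.Orbs_range hb hO1
  have hq : S.qh O1 ≤ b + 3 := by
    obtain ⟨u, hu, e⟩ := S.exists_qh hO1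
    have a1 := S.Orbs_W hb hO1 hu
    have a2 := S.hi_le_H (c := b + 1) (z := u) (by omega)
    omega
  have ex1 := cvh_le (f := S.exc) hO1
  have a0 := cvh_aX0 (S := S) (b := b) (b' := b + 2)
  have two : ∀ O ∈ S.Orbs b (b + 2), ∀ O' ∈ S.Orbs b (b + 2), O ≠ O' → S.pl O = S.pl O' →
      2 ≤ (S.OP b (b + 2) (S.pl O)).card := by
    intro O hO O' hO' hne e
    exact one_lt_card.2 ⟨O, S.mem_OP.2 ⟨hO, rfl⟩, O', S.mem_OP.2 ⟨hO', e.symm⟩, hne⟩
  -- a point of level `0` in an orbit whose high partner is its `0`-partner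
  have pair : ∀ O ∈ S.Orbs b (b + 2), ∀ f ∈ O, S.lo f = 0 → ∀ u, S.lo u = 0 → u ∉ O →
      S.R (Set.Ici 1) f (S.ρ 0 f) ∧ ∀ z ∈ O, S.lo z = 0 → z = f ∨ z = S.ρ 0 f := by
    intro O hO f hf lf u lu hu
    have hf' : S.ρ 0 f ∈ O := S.Orbs_ρ hO hf (Or.inl (by omega))
    have hu' : S.ρ 0 u ∉ O := fun a => hu (by
      have := S.Orbs_ρ hO a (i := 0) (Or.inl (by omega)); rwa [S.inv] at this)
    obtain ⟨lf', nf⟩ := cvh_lo0 lf
    obtain ⟨lu', nu⟩ := cvh_lo0 lu
    have sub : ({f, S.ρ 0 f} : Finset Ω) ⊆ ((S.lev 0).erase u).erase (S.ρ 0 u) := by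
      intro z hz
      simp only [mem_insert, mem_singleton] at hz
      simp only [mem_erase, mem_lev]
      rcases hz with rfl | rfl
      · exact ⟨by rintro rfl; exact hu' hf, by rintro rfl; exact hu hf, lf⟩
      · exact ⟨fun e => hu' (e ▸ hf'), fun e => hu (e ▸ hf'), lf'⟩
    have e := eq_of_subset_of_card_le sub (by
      rw [card_pair nf.symm, card_erase_of_mem (by simp only [mem_erase, mem_lev]; exact ⟨nu, lu'⟩),
        card_erase_of_mem (by simpa using lu)]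
      unfold a at a4; omega)
    have key : ∀ z ∈ O, S.lo z = 0 → z = f ∨ z = S.ρ 0 f := by
      intro z hz lz
      have : z ∈ ((S.lev 0).erase u).erase (S.ρ 0 u) := by
        simp only [mem_erase, mem_lev]
        exact ⟨fun e => hu' (e ▸ hz), fun e => hu (e ▸ hz), lz⟩
      rw [← e] at this
      simpa using this
    refine ⟨?_, key⟩
    have a1 := (S.Orbs_W hb hO hf).2
    rcases key (S.ρ (S.hi f) f) (S.Orbs_ρ hO hf (Or.inr a1))
      (by rw [S.lo_far (by omega)]; exact lf) with a2 | a2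
    · exact absurd a2 (S.mv_hi f)
    · exact (S.R_refl _ f).step' (i := S.hi f) (by simp only [Set.mem_Ici]; omega) a2
  by_cases c0 : (S.OP b (b + 2) 0).card = 0
  · -- no orbit starts at level `0`
    have hp : ∀ O ∈ S.Orbs b (b + 2), 1 ≤ S.pl O := by
      intro O hO
      by_contra a1
      have : O ∈ S.OP b (b + 2) 0 := S.mem_OP.2 ⟨hO, by omega⟩
      rw [card_eq_zero.1 c0] at this; simp at this
    have a1 := a0 c0
    obtain ⟨p1, -, p3⟩ := S.gam_P hb hO1 (hp O1 hO1)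
    have a2 := B2 (S.pl O1) (hp O1 hO1) (by omega)
    have a3 : ∀ O ∈ S.Orbs b (b + 2), O = O1 := by
      intro O hO
      by_contra hne
      by_cases e : S.pl O1 = S.pl O
      · have := two O1 hO1 O hO (Ne.symm hne) e
        have := cvh_gam (S := S) (b := b) (b' := b + 2) (S.pl O1)
        omega
      · have q3 := (S.gam_P hb hO (hp O hO)).2.2
        have q4 := S.Orbs_range hb hO
        have := B3 (S.pl O1) (S.pl O) (hp O1 hO1) (by omega) (hp O hO) (by omega) e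
        omega
    have hi0 : S.iO O1 = 0 := by
      by_contra a5
      have := S.exc_two hb hO1 (by omega) (by omega); omega
    have hc := S.card_O hb hO1
    unfold kO at hk hc
    have h3 := cvh_three hb hO1 (j := b + 2) (by omega) (by omega)
    have hpar := cvh_par h hr (j := b + 2) (by omega) (by omega)
    have sub : S.cvhM (b + 1) (b + 2) ⊆ O1 := by
      intro z hz
      rw [mem_cvhM] at hz
      have a5 := S.le_hi hz.2
      obtain ⟨O', hO', hz'⟩ := S.exists_orb (b := b) (b' := b + 2) (x := z) (by omega) a5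
      exact a3 O' hO' ▸ hz'
    have := card_le_card sub
    omega
  by_cases c2 : 2 ≤ (S.OP b (b + 2) 0).card
  · -- two orbits start at level `0`
    have c3 : S.aX (b + 2) 0 = 0 := by obtain ⟨k, hk⟩ := ev; omega
    obtain ⟨g, lg, ng, rg⟩ := S.d1 gp
    obtain ⟨O, hO, hg⟩ := cvh_W0 (b := b) c3 lg
    obtain ⟨O', hO', hne⟩ := exists_mem_ne c2 O
    obtain ⟨hO'1, hO'2⟩ := S.mem_OP.1 hO'
    obtain ⟨u, hu, lu⟩ := S.exists_pl hO'1
    have := (pair O (S.mem_OP.1 hO).1 g hg lg u (by omega)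
      (fun a => hne (S.Orbs_eq hO'1 (S.mem_OP.1 hO).1 hu a))).1
    exact ng (rg.trans this.symm)
  have c1 : (S.OP b (b + 2) 0).card = 1 := by omega
  by_cases c3 : S.aX (b + 2) 0 = 0
  · -- level `0` is inside one orbit
    obtain ⟨O, e, hO, p0, hl, hi, hx⟩ := cvh_single hb hb1 c3 c1 lx
    have a1 := cvh_le (f := S.exc) hO
    by_cases c4 : O = O1
    · subst c4
      obtain ⟨g, lg, ng, rg⟩ := S.d1 gp
      obtain ⟨lg', -⟩ := cvh_lo0 lg
      have q1 := S.Qorb_ge hb hO (hl g lg)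
      have q2 := S.Qorb_ge hb hO (hl _ lg')
      classical
      have s1 : ∀ u, S.lo u = 0 →
          univ.filter (fun y => S.R (Set.Ici (b + 2)) u y) ⊆ S.lev 0 := by
        intro u lu y hy
        rw [mem_lev, (S.Q_lo hb (mem_filter.1 hy).2).1 (by omega), lu]
      have hd : Disjoint (univ.filter (fun y => S.R (Set.Ici (b + 2)) g y))
          (univ.filter (fun y => S.R (Set.Ici (b + 2)) (S.ρ 0 g) y)) := by
        rw [disjoint_left]
        intro y a2 a3
        refine ng (rg.trans (((mem_filter.1 a3).2.trans (mem_filter.1 a2).2.symm).mono ?_))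
        intro i hi; simp only [Set.mem_Ici] at hi ⊢; omega
      have := card_le_card (union_subset (s1 g lg) (s1 _ lg'))
      rw [card_union_of_disjoint hd] at this
      unfold a at a4
      omega
    · have p1 : 1 ≤ S.pl O1 := by
        by_contra a2
        have : O1 ∈ S.OP b (b + 2) 0 := S.mem_OP.2 ⟨hO1, by omega⟩
        rw [e, mem_singleton] at this
        exact c4 this.symm
      obtain ⟨-, p2, p3⟩ := S.gam_P hb hO1 p1
      have a2 := B2 (S.pl O1) p1 (by omega)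
      obtain ⟨u, hu, lu⟩ := S.exists_pl hO1
      obtain ⟨z, z1, z2, z3⟩ := S.gam_cross hb (i := S.pl O1) p1 (by omega) lu.ge
      rcases z3 with z3 | ⟨O', hO', -⟩
      · obtain ⟨p, q1, q2, q3⟩ := cvh_X hb c3 (y := S.ρ (S.pl O1) z) (by omega) z3.2
        have := B3 (S.pl O1) p p1 (by omega) q1 (by omega) (by omega)
        omega
      · have := card_pos.2 ⟨O', hO'⟩
        have := cvh_gam (S := S) (b := b) (b' := b + 2) (S.pl O1)
        omega
  · -- one pair of level `0` is low, the other one is in an orbit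
    obtain ⟨O, e⟩ := card_eq_one.1 c1
    obtain ⟨hO, p0⟩ := S.mem_OP.1 (show O ∈ S.OP b (b + 2) 0 by rw [e]; simp)
    obtain ⟨f, hf', lf⟩ := S.exists_pl hO
    obtain ⟨u, hu⟩ := card_pos.1 (show 0 < (S.levX (b + 2) 0).card by unfold aX at c3; omega)
    obtain ⟨lu, hu2⟩ := S.mem_levX.1 hu
    obtain ⟨rf, key⟩ := pair O hO f hf' (by omega) u lu
      (fun a => by have := (S.Orbs_W hb hO a).2; omega)
    obtain ⟨g, lg, -, -, -, -, ng, rg, hall, hj⟩ := d0 gp a4 (f := f) (by omega) rf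
    obtain ⟨lg', ng'⟩ := cvh_lo0 lg
    have hg' : S.hi (S.ρ 0 g) ≤ 1 := S.hi_le fun j hj' => (hj j (by omega)).2.1
    have mv : S.ρ 1 (S.ρ 0 g) ≠ S.ρ 0 g := by
      intro a1
      obtain ⟨k, hk', e'⟩ := rg.symm
      have a2 : k (S.ρ 0 g) = S.ρ 0 g := S.G_fix (fun i hi => by
        rcases Nat.lt_or_ge i 2 with a3 | a3
        · have a5 : 1 ≤ i := hi
          rw [show i = 1 by omega]; exact a1
        · exact (hj i a3).2.1) hk'
      rw [a2] at e'
      rw [e'] at lg'; omega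
    have hg1 := S.hi_step 1 (S.ρ 0 g)
    have lg1 := S.lo_step 1 (S.ρ 0 g)
    have wf := (S.Orbs_W hb hO hf').2
    have wf' := (S.Orbs_W hb hO (S.Orbs_ρ hO hf' (i := 0) (Or.inl (by omega)))).2
    have l1 : S.lo (S.ρ 1 (S.ρ 0 g)) = 1 := by
      by_contra a1
      rcases hall (S.ρ 1 (S.ρ 0 g)) (by omega) with a2 | a2 | a2 | a2
      · rw [a2] at hg1; omega
      · rw [a2] at hg1; omega
      · exact ng (rg.step' (i := 1) (by simp) a2)
      · exact mv a2
    have x1 := cvh_aX_pos (b' := b + 2) l1 (by omega)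
    have hi : 1 ≤ S.iO O := by
      by_contra a1
      have a2 : ∀ z ∈ O, S.lo z = 0 := fun z hz => by
        have := S.le_ql hz; unfold iO at a1; omega
      have := S.conn (U := {z | z ∈ O}) (x := f) hf' (by
        intro i z hz
        by_cases a3 : i ≤ b ∨ b + 2 ≤ i
        · exact S.Orbs_ρ hO hz a3
        · have a5 := (hj i (by omega)).2.2
          have a6 := S.Orbs_ρ hO hf' (i := 0) (Or.inl (by omega))
          rcases key z hz (a2 z hz) with rfl | rfl
          · rcases a5 with a5 | a5 <;> rw [a5] <;> assumption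
          · rw [← S.comm 0 i (by omega)]
            rcases a5 with a5 | a5 <;> rw [a5]
            · exact a6
            · rw [S.inv]; exact hf') u
      have := (S.Orbs_W hb hO this).2
      omega
    have i1 : 1 ≤ (S.OI b (b + 2) 1).card :=
      card_pos.2 ⟨O, S.mem_OI.2 ⟨hO, by omega, by unfold iO at hi; omega⟩⟩
    have g4 : 4 ≤ S.gam2 b (b + 2) 0 := by obtain ⟨k, hk⟩ := ev; omega
    have g3 : 3 ≤ S.gam2 b (b + 2) 1 := by unfold gam2; omega
    have a2 := B2 1 le_rfl (by omega)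
    have hne : O1 ≠ O := by
      rintro rfl
      have := S.exc_two hb hO1 hi (by omega); omega
    have p1 : 1 ≤ S.pl O1 := by
      by_contra a3
      have : O1 ∈ S.OP b (b + 2) 0 := S.mem_OP.2 ⟨hO1, by omega⟩
      rw [e, mem_singleton] at this
      exact hne this
    obtain ⟨-, p2, p3⟩ := S.gam_P hb hO1 p1
    by_cases c5 : S.pl O1 = 1
    · rw [c5] at p2
      have := cvh_gam (S := S) (b := b) (b' := b + 2) 1
      omega
    · have := B3 1 (S.pl O1) le_rfl (by omega) p1 (by omega) (Ne.symm c5)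
      omega

theorem CV.cvh (hv : S.CV v) (h : S.AlX c x) (hf : ∀ i, 1 ≤ i → i < c → 2 ≤ S.a i)
    (hr : ∀ i, c ≤ i → i < m → S.a i = 1) (hc : c + 3 ≤ m) : False := by
  have h1 := h.1
  by_cases c1 : c = 1
  · subst c1; exact cvh_one hv h hr
  obtain ⟨b, rfl⟩ : ∃ b, c = b + 1 := ⟨c - 1, by omega⟩
  obtain ⟨hH, hA⟩ := cvh_H hv h hr hc
  obtain ⟨s1, s2⟩ := h.first_sum
  have s3 := h.first_t2 hf (by omega) (by omega)
  simp only [Nat.add_sub_cancel, show b + 1 + 1 = b + 2 from rfl] at s1 s2 s3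
  by_cases c2 : m = b + 4
  · exact cvh_h2 hv h hf hr (by omega) c2 (by omega) (by omega)
  · exact cvh_h3 hv h hf hr (by omega) (by omega) (by omega) (by omega)

end SD
end D145
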