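import Pool.Agent.MP_d145c0_al.H75.LastA

/-! The last single level, `c ≤ m - 4`. -/

namespace D145
open Equiv Finset
namespace SD
variable {Ω : Type} [Fintype Ω] [DecidableEq Ω] {m : ℕ} {S : SD Ω m} {c : ℕ} {x : Ω}

theorem lb_X1 {b' i : ℕ} (T : List Ω) (hT : T.Nodup)
    (h : ∀ z ∈ T, S.lo z = i ∧ S.hi z < b') : T.length ≤ S.aX b' i := by
  rw [← List.toFinset_card_of_nodup hT]
  apply Finset.card_le_card
  intro z hz
  exact S.mem_levX.2 (h z (List.mem_toFinset.1 hz))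

theorem lb_X2 {b' i : ℕ} (T : List Ω) (hT : T.Nodup)
    (h : ∀ z ∈ T, (S.lo z = i ∨ S.lo z = i + 1) ∧ S.hi z < b') :
    T.length ≤ S.aX b' i + S.aX b' (i + 1) := by
  rw [← List.toFinset_card_of_nodup hT]
  refine le_trans (Finset.card_le_card (t := S.levX b' i ∪ S.levX b' (i + 1)) ?_)
    (Finset.card_union_le _ _)
  intro z hz
  have := h z (List.mem_toFinset.1 hz)
  rw [Finset.mem_union, S.mem_levX, S.mem_levX]
  tauto

theorem lb_O2 {O : Finset Ω} {i : ℕ} (T : List Ω) (hT : T.Nodup)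
    (h : ∀ z ∈ T, (S.lo z = i ∨ S.lo z = i + 1) ∧ z ∈ O) :
    T.length ≤ S.aO O i + S.aO O (i + 1) := by
  rw [← List.toFinset_card_of_nodup hT]
  refine le_trans (Finset.card_le_card (t := O.filter (fun x => S.lo x = i) ∪
    O.filter (fun x => S.lo x = i + 1)) ?_) (Finset.card_union_le _ _)
  intro z hz
  have := h z (List.mem_toFinset.1 hz)
  rw [Finset.mem_union, Finset.mem_filter, Finset.mem_filter]
  tauto

theorem lb_keep {i : ℕ} (hi : i + 2 ≤ m) {z : Ω} (hz : S.hi z < m + 1) :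
    S.hi (S.ρ i z) < m + 1 := by
  have := S.hi_step i z; omega

/-- the budget on two and on three levels -/
theorem lb_budget (h : S.AlX c x) (hc : c + 4 ≤ m) (hH : S.H c ≤ c + 1)
    (hl : ∀ i, c < i → i < m → 2 ≤ S.a i) (hI : S.Inv c) :
    (2 * (S.gam (m - 2) (m + 1) (c + 1) + S.gam (m - 2) (m + 1) (c + 2)) ≤ 15) ∧
    ∀ p, c + 2 < p → p ≤ m - 2 →
      2 * (S.gam (m - 2) (m + 1) (c + 1) + S.gam (m - 2) (m + 1) (c + 2) +
        S.gam (m - 2) (m + 1) p) + ∑ O ∈ S.Orbs (m - 2) (m + 1), S.exc O ≤ 19 := by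
  have hs := (h.last_sum (by omega) (by omega)).1
  have hA := hI.1
  have h2 : ∀ i ∈ Icc (c + 1) (m - 2), 2 ≤ S.gam (m - 2) (m + 1) i := by
    intro i hi
    rw [Finset.mem_Icc] at hi
    exact S.gam_two (by omega) (by omega) hi.2 (hl i (by omega) (by omega))
  have hcard : (Icc (c + 1) (m - 2)).card + c + 2 = m := by rw [Nat.card_Icc]; omega
  constructor
  · have := sum_excess (t := {c + 1, c + 2}) h2 (by
      intro i hi; simp only [Finset.mem_insert, Finset.mem_singleton] at hi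
      rw [Finset.mem_Icc]; omega)
    rw [Finset.sum_pair (by omega), Finset.card_pair (by omega)] at this
    omega
  · intro p hp1 hp2
    have := sum_excess (t := {c + 1, c + 2, p}) h2 (by
      intro i hi; simp only [Finset.mem_insert, Finset.mem_singleton] at hi
      rw [Finset.mem_Icc]; omega)
    have hn : c + 1 ∉ ({c + 2, p} : Finset ℕ) := by
      simp only [Finset.mem_insert, Finset.mem_singleton]; omega
    rw [Finset.sum_insert hn, Finset.card_insert_of_notMem hn, Finset.sum_pair (by omega),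
      Finset.card_pair (by omega)] at this
    omega

/-- the orbit with an edge leaving `W` and the copy of its lowest pair -/
theorem lb_O1 (hc : c + 4 ≤ m) (hl : ∀ i, c < i → i < m → 2 ≤ S.a i)
    (hpl : ∀ O ∈ S.Orbs (m - 2) (m + 1), c + 1 ≤ S.pl O) {v : Ω} (hv1 : S.lo v ≤ m - 2)
    (hv2 : m + 1 ≤ S.hi v) :
    ∃ O ∈ S.Orbs (m - 2) (m + 1), 4 ≤ S.gam (m - 2) (m + 1) (S.pl O) ∧ S.pl O ≤ m - 2 ∧
      (∀ y ∈ O, ∃ φ : Perm Ω, (∀ i ≤ m - 2, ∀ z, φ (S.ρ i z) = S.ρ i (φ z)) ∧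
        S.hi (φ y) < m + 1) ∧
      ∃ y ∈ O, S.lo y = S.pl O ∧ S.lo (S.ρ (S.pl O) y) = S.pl O := by
  have ha := hl (m - 1) (by omega) (by omega)
  obtain ⟨y0, hy0⟩ : (S.lev (m - 1)).Nonempty := by
    rw [← Finset.card_pos]; unfold a at ha; omega
  rw [S.mem_lev] at hy0
  obtain ⟨O, hO, x0, hx0, he⟩ := S.exists_O1 (y := y0) (by omega) ⟨v, S.mem_W.2 ⟨hv1, hv2⟩⟩
  have he' : S.hi (S.ρ (m + 1 - 1) x0) < m + 1 := by simpa using he
  have hr := S.Orbs_range (by omega) hO
  have h1 := hpl O hO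
  refine ⟨O, hO, (S.copy_gam (by omega) hO hx0 he').2.2 (by omega), by omega,
    fun y hy => S.copy (by omega) hO hx0 he' hy, ?_⟩
  obtain ⟨y, hy, hy1⟩ := S.exists_pl hO
  refine ⟨y, hy, hy1, ?_⟩
  have h2 := S.pl_le (S.Orbs_ρ hO hy (i := S.pl O) (Or.inl (by omega)))
  have h3 := S.lo_step (S.pl O) y
  omega

/-- an orbit through a point of level `c + 1` or `c + 2` -/
theorem lb_orb (hc : c + 4 ≤ m) (hpl : ∀ O ∈ S.Orbs (m - 2) (m + 1), c + 1 ≤ S.pl O) {u : Ω}
    (h1 : S.lo u = c + 1 ∨ S.lo u = c + 2) (h2 : ¬ S.hi u < m + 1) :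
    ∃ O ∈ S.Orbs (m - 2) (m + 1), u ∈ O ∧
      (O ∈ S.OP (m - 2) (m + 1) (c + 1) ∨ O ∈ S.OP (m - 2) (m + 1) (c + 2)) := by
  obtain ⟨O, hO, hu⟩ := S.exists_orb (b := m - 2) (b' := m + 1) (x := u) (by omega) (by omega)
  refine ⟨O, hO, hu, ?_⟩
  have h3 := hpl O hO
  have h4 := S.pl_le hu
  rw [S.mem_OP, S.mem_OP]
  by_cases h5 : S.pl O = c + 1
  · exact Or.inl ⟨hO, h5⟩
  · exact Or.inr ⟨hO, by omega⟩

theorem AlX.last3 (h : S.AlX c x) (hc : c + 4 ≤ m) (hH : S.H c ≤ c + 1) (hp : S.Prim c x)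
    (hl : ∀ i, c < i → i < m → 2 ≤ S.a i) (hI : S.Inv c) : False := by
  obtain ⟨w, p, q, w', u1, u2, lw, lp, lq, epq, epw, eqw, eu, lw', lu1, lu2, hnd⟩ :=
    h.eight hH hp (hl (c + 1) (by omega) (by omega))
  obtain ⟨B2, B3⟩ := lb_budget h hc hH hl hI
  have hpl := (h.last_sum (by omega) (by omega)).2
  have lx : S.lo x = c := h.2.2.1
  have ux : ∀ z, S.lo z = c → z = x := h.2.2.2
  obtain ⟨lx1, hx1⟩ := h.x1
  have lx2 := hp.1
  generalize hx1d : S.ρ (c + 1) x = x1 at lx1 hx1 lx2 hnd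
  generalize hx2d : S.ρ (c + 2) x1 = x2 at lx2 hnd
  have e1 : S.ρ (c + 1) x1 = x := S.ρ_swap hx1d
  have e2 : S.ρ (c + 2) x2 = x1 := S.ρ_swap hx2d
  have X1 : S.hi x1 < m + 1 := by omega
  have X2 : S.hi x2 < m + 1 := hx2d ▸ lb_keep (by omega) X1
  have hnd0 := hnd
  simp only [List.nodup_cons, List.mem_cons, List.not_mem_nil, or_false, not_or,
    List.nodup_nil, and_true, not_false_eq_true] at hnd
  obtain ⟨⟨n12, n1w, n1p, n1q, n1w', n1u, n1v⟩, ⟨n2w, n2p, n2q, n2w', n2u, n2v⟩,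
    ⟨nwp, nwq, nww', nwu, nwv⟩, ⟨npq, npw', npu, npv⟩, ⟨nqw', nqu, nqv⟩, ⟨nw'u, nw'v⟩, nuv⟩ := hnd
  have ga : S.gam (m - 2) (m + 1) (c + 1) = S.aX (m + 1) (c + 1) +
    2 * (S.OI (m - 2) (m + 1) (c + 1)).card + (S.OP (m - 2) (m + 1) (c + 1)).card := rfl
  have gb : S.gam (m - 2) (m + 1) (c + 2) = S.aX (m + 1) (c + 2) +
    2 * (S.OI (m - 2) (m + 1) (c + 2)).card + (S.OP (m - 2) (m + 1) (c + 2)).card := rfl
  have aa1 : 1 ≤ S.aX (m + 1) (c + 1) :=
    lb_X1 (S := S) [x1] (by simp) (List.forall_mem_singleton.2 ⟨lx1, X1⟩)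
  have ab1 : 1 ≤ S.aX (m + 1) (c + 2) :=
    lb_X1 (S := S) [x2] (by simp) (List.forall_mem_singleton.2 ⟨lx2, X2⟩)
  by_cases Xp : S.hi p < m + 1
  · have Xq : S.hi q < m + 1 := epq ▸ lb_keep (by omega) Xp
    have Xw : S.hi w < m + 1 := epw ▸ lb_keep (by omega) Xp
    have Xw' : S.hi w' < m + 1 := eqw ▸ lb_keep (by omega) Xq
    by_cases Xu : S.hi u1 < m + 1
    · have Xv : S.hi u2 < m + 1 := eu ▸ lb_keep (by omega) Xu
      have : 8 ≤ S.aX (m + 1) (c + 1) + S.aX (m + 1) (c + 2) :=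
        lb_X2 (S := S) [x1, x2, w, p, q, w', u1, u2] hnd0
          (by
            simp only [List.forall_mem_cons]
            exact ⟨⟨.inl lx1, X1⟩, ⟨.inr lx2, X2⟩, ⟨.inr lw, Xw⟩, ⟨.inl lp, Xp⟩, ⟨.inl lq, Xq⟩,
              ⟨lw', Xw'⟩, ⟨lu1, Xu⟩, ⟨lu2, Xv⟩, by simp⟩)
      omega
    · obtain ⟨Ou, hOu, hu, hOP⟩ := lb_orb hc hpl lu1 Xu
      have hP1 : 1 ≤ (S.OP (m - 2) (m + 1) (c + 1)).card + (S.OP (m - 2) (m + 1) (c + 2)).card := by
        rcases hOP with h1 | h1
        · have := Finset.card_pos.2 ⟨_, h1⟩; omega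
        · have := Finset.card_pos.2 ⟨_, h1⟩; omega
      have nd6 : [x1, x2, w, p, q, w'].Nodup :=
        hnd0.sublist (List.take_sublist 6 [x1, x2, w, p, q, w', u1, u2])
      have all6 : ∀ z ∈ [x1, x2, w, p, q, w'],
          (S.lo z = c + 1 ∨ S.lo z = c + 1 + 1) ∧ S.hi z < m + 1 := by
        simp only [List.forall_mem_cons]
        exact ⟨⟨.inl lx1, X1⟩, ⟨.inr lx2, X2⟩, ⟨.inr lw, Xw⟩, ⟨.inl lp, Xp⟩, ⟨.inl lq, Xq⟩,
          ⟨lw', Xw'⟩, by simp⟩
      have six : 6 ≤ S.aX (m + 1) (c + 1) + S.aX (m + 1) (c + 2) := lb_X2 (S := S) _ nd6 all6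
      have seven : ∀ z, (S.lo z = c + 1 ∨ S.lo z = c + 2) → S.hi z < m + 1 →
          z = x1 ∨ z = x2 ∨ z = w ∨ z = p ∨ z = q ∨ z = w' := by
        intro z z1 z2
        by_contra hn
        have : 7 ≤ S.aX (m + 1) (c + 1) + S.aX (m + 1) (c + 2) :=
          lb_X2 (S := S) (z :: [x1, x2, w, p, q, w'])
            (List.nodup_cons.2 ⟨by simpa only [List.mem_cons, List.not_mem_nil, or_false] using hn,
              nd6⟩)
            (List.forall_mem_cons.2 ⟨⟨z1, z2⟩, all6⟩)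
        omega
      have lw2 : S.lo w' = c + 2 := by
        by_contra hn
        have l1 : S.lo w' = c + 1 := by omega
        have l2 : S.lo (S.ρ (c + 1) w') = c + 1 := by
          have h1 := S.lo_step (c + 1) w'
          by_contra h2
          have h3 := ux (S.ρ (c + 1) w') (by omega)
          exact n1w' (by rw [← hx1d, ← h3, S.inv])
        rcases seven _ (Or.inl l2) (lb_keep (by omega) Xw') with e | e | e | e | e | e
        · have := S.ρ_swap e; rw [e1] at this; rw [this] at lx; omega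
        · rw [e] at l2; omega
        · rw [e] at l2; omega
        · have := S.ρ_swap e; rw [epq] at this; exact nqw' this
        · have := S.ρ_swap e; rw [S.ρ_swap epq] at this; exact npw' this
        · have := S.mv_lo w'; rw [l1] at this; exact this e
      obtain ⟨O1, hO1, g4, pm, hcopy, y, hy, ly, ly'⟩ :=
        lb_O1 hc hl hpl (v := u1) (by omega) (by omega)
      obtain ⟨φ, hφ, Xz⟩ := hcopy y hy
      have p1 := hpl O1 hO1
      have lz : S.lo (φ y) = S.pl O1 := by rw [S.lo_comm hφ (by omega), ly]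
      have lz' : S.lo (S.ρ (S.pl O1) (φ y)) = S.pl O1 := by
        rw [← hφ _ pm, S.lo_comm hφ (by omega), ly']
      by_cases hb : c + 2 < S.pl O1
      · have := B3 _ hb pm; omega
      by_cases ha : S.pl O1 = c + 1
      · rw [ha] at lz lz'
        have key : S.lo (S.ρ (c + 2) (φ y)) = c + 2 → False := by
          intro h1
          have h2 := S.Orbs_ρ hO1 hy (i := c + 2) (Or.inl (by omega))
          rw [← hφ _ (by omega), S.lo_comm hφ (S.Orbs_W (by omega) hO1 h2).1] at h1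
          have h3 := S.le_ql h2
          have h4 : O1 ∈ S.OI (m - 2) (m + 1) (c + 2) := S.mem_OI.2 ⟨hO1, by omega, by omega⟩
          have := Finset.card_pos.2 ⟨_, h4⟩
          omega
        rcases seven _ (Or.inl lz) Xz with e | e | e | e | e | e
        · rw [e, e1] at lz'; omega
        · rw [e] at lz; omega
        · rw [e] at lz; omega
        · exact key (by rw [e, epw, lw])
        · exact key (by rw [e, eqw, lw2])
        · rw [e] at lz; omega
      · have hb2 : S.pl O1 = c + 2 := by omega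
        rw [hb2] at lz lz'
        rcases seven _ (Or.inr lz) Xz with e | e | e | e | e | e
        · rw [e] at lz; omega
        · rw [e, e2] at lz'; omega
        · rw [e, S.ρ_swap epw] at lz'; omega
        · rw [e] at lz; omega
        · rw [e] at lz; omega
        · rw [e, S.ρ_swap eqw] at lz'; omega
  · obtain ⟨O, hO, hpO⟩ := S.exists_orb (b := m - 2) (b' := m + 1) (x := p) (by omega) (by omega)
    have hqO : q ∈ O := epq ▸ S.Orbs_ρ hO hpO (Or.inl (by omega))
    have hwO : w ∈ O := epw ▸ S.Orbs_ρ hO hpO (Or.inl (by omega))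
    have hw'O : w' ∈ O := eqw ▸ S.Orbs_ρ hO hqO (Or.inl (by omega))
    have plO : S.pl O = c + 1 := by have := hpl O hO; have := S.pl_le hpO; omega
    have qlO : c + 2 ≤ S.ql O := by have := S.le_ql hwO; omega
    have hOP : O ∈ S.OP (m - 2) (m + 1) (c + 1) := S.mem_OP.2 ⟨hO, plO⟩
    have hOI : O ∈ S.OI (m - 2) (m + 1) (c + 2) := S.mem_OI.2 ⟨hO, by omega, qlO⟩
    have cP := Finset.card_pos.2 ⟨_, hOP⟩
    have cI := Finset.card_pos.2 ⟨_, hOI⟩
    obtain ⟨O1, hO1, g4, pm, hcopy, y, hy, ly, ly'⟩ :=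
      lb_O1 hc hl hpl (v := p) (by omega) (by omega)
    by_cases hOO : O1 = O
    · subst hOO
      obtain ⟨φ, hφ, Xp'⟩ := hcopy p hpO
      have fq : S.ρ (c + 1) (φ p) = φ q := by rw [← hφ _ (by omega), epq]
      have fw : S.ρ (c + 2) (φ p) = φ w := by rw [← hφ _ (by omega), epw]
      have fw' : S.ρ (c + 2) (φ q) = φ w' := by rw [← hφ _ (by omega), eqw]
      have Xq : S.hi (φ q) < m + 1 := fq ▸ lb_keep (by omega) Xp'
      have Xw : S.hi (φ w) < m + 1 := fw ▸ lb_keep (by omega) Xp'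
      have Xw' : S.hi (φ w') < m + 1 := fw' ▸ lb_keep (by omega) Xq
      have l1 : S.lo (φ p) = c + 1 := by rw [S.lo_comm hφ (by omega), lp]
      have l2 : S.lo (φ q) = c + 1 := by rw [S.lo_comm hφ (by omega), lq]
      have l3 : S.lo (φ w) = c + 2 := by rw [S.lo_comm hφ (by omega), lw]
      have l4 : S.lo (φ w') = c + 1 ∨ S.lo (φ w') = c + 2 := by
        rw [S.lo_comm hφ (by omega)]; exact lw'
      have m1 : x1 ≠ φ p := fun e => by rw [← fq, ← e, e1] at l2; omega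
      have m2 : x1 ≠ φ q := fun e => by rw [← S.ρ_swap fq, ← e, e1] at l1; omega
      have m3 : x1 ≠ φ w := fun e => by rw [← e] at l3; omega
      have m4 : x1 ≠ φ w' := fun e => by rw [← S.ρ_swap fw', ← e, hx2d] at l2; omega
      have m5 : x2 ≠ φ p := fun e => by rw [← e] at l1; omega
      have m6 : x2 ≠ φ q := fun e => by rw [← e] at l2; omega
      have m7 : x2 ≠ φ w := fun e => m1 (by rw [← S.ρ_swap fw, ← e, e2])
      have m8 : x2 ≠ φ w' := fun e => m2 (by rw [← S.ρ_swap fw', ← e, e2])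
      have six : 6 ≤ S.aX (m + 1) (c + 1) + S.aX (m + 1) (c + 2) :=
        lb_X2 (S := S) [x1, x2, φ w, φ p, φ q, φ w']
          (by simp [n12, m1, m2, m3, m4, m5, m6, m7, m8, nwp, nwq, nww', npq, npw', nqw'])
          (by
            simp only [List.forall_mem_cons]
            exact ⟨⟨.inl lx1, X1⟩, ⟨.inr lx2, X2⟩, ⟨.inr l3, Xw⟩, ⟨.inl l1, Xp'⟩, ⟨.inl l2, Xq⟩,
              ⟨l4, Xw'⟩, by simp⟩)
      omega
    · obtain ⟨φ, hφ, Xz⟩ := hcopy y hy
      have p1 := hpl O1 hO1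
      have lz : S.lo (φ y) = S.pl O1 := by rw [S.lo_comm hφ (by omega), ly]
      have lz' : S.lo (S.ρ (S.pl O1) (φ y)) = S.pl O1 := by
        rw [← hφ _ pm, S.lo_comm hφ (by omega), ly']
      have Xz' : S.hi (S.ρ (S.pl O1) (φ y)) < m + 1 := lb_keep (by omega) Xz
      have nz : φ y ≠ S.ρ (S.pl O1) (φ y) := by
        have := S.mv_lo (φ y); rw [lz] at this; exact this.symm
      by_cases hb : c + 2 < S.pl O1
      · have B := B3 _ hb pm
        have hex : S.exc O ≤ ∑ O ∈ S.Orbs (m - 2) (m + 1), S.exc O :=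
          Finset.single_le_sum (f := S.exc) (fun _ _ => Nat.zero_le _) hO
        by_cases Xu : S.hi u1 < m + 1
        · have : 3 ≤ S.aX (m + 1) (c + 1) + S.aX (m + 1) (c + 2) :=
            lb_X2 (S := S) [x1, x2, u1] (by simp [n12, n1u, n2u])
              (by
                simp only [List.forall_mem_cons]
                exact ⟨⟨.inl lx1, X1⟩, ⟨.inr lx2, X2⟩, ⟨lu1, Xu⟩, by simp⟩)
          omega
        obtain ⟨Ou, hOu, hu, hOP'⟩ := lb_orb hc hpl lu1 Xu
        have eO : Ou = O := by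
          rcases hOP' with h1 | h1
          · by_contra hn
            have := Finset.one_lt_card.2 ⟨_, h1, _, hOP, hn⟩
            omega
          · have := Finset.card_pos.2 ⟨_, h1⟩; omega
        subst eO
        have hv : u2 ∈ Ou := eu ▸ S.Orbs_ρ hO hu (Or.inl (by omega))
        have six : 6 ≤ S.aO Ou (c + 1) + S.aO Ou (c + 2) :=
          lb_O2 (S := S) [w, p, q, w', u1, u2] hnd0.of_cons.of_cons
            (by
              simp only [List.forall_mem_cons]
              exact ⟨⟨.inr lw, hwO⟩, ⟨.inl lp, hpO⟩, ⟨.inl lq, hqO⟩, ⟨lw', hw'O⟩, ⟨lu1, hu⟩,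
                ⟨lu2, hv⟩, by simp⟩)
        by_cases hk : S.kO Ou = 0
        · have := S.exc_k0 (by omega) hO hk (L := {c + 1, c + 2}) (by
            intro i hi; simp only [Finset.mem_insert, Finset.mem_singleton] at hi
            rw [Finset.mem_Icc]; omega)
          rw [Finset.sum_pair (by omega), Finset.card_pair (by omega)] at this
          omega
        · have := S.exc_two (by omega) hO (by unfold iO; omega) (by omega)
          omega
      by_cases ha : S.pl O1 = c + 1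
      · have hOP1 : O1 ∈ S.OP (m - 2) (m + 1) (c + 1) := S.mem_OP.2 ⟨hO1, ha⟩
        have c2 := Finset.one_lt_card.2 ⟨_, hOP1, _, hOP, hOO⟩
        rw [ha] at lz lz' Xz' nz
        have m1 : x1 ≠ φ y := fun e => by rw [← e, e1] at lz'; omega
        have m2 : x1 ≠ S.ρ (c + 1) (φ y) := fun e => by
          rw [← S.ρ_swap e.symm, e1] at lz; omega
        have : 3 ≤ S.aX (m + 1) (c + 1) :=
          lb_X1 (S := S) [x1, φ y, S.ρ (c + 1) (φ y)] (by simp [m1, m2, nz])
            (by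
              simp only [List.forall_mem_cons]
              exact ⟨⟨lx1, X1⟩, ⟨lz, Xz⟩, ⟨lz', Xz'⟩, by simp⟩)
        omega
      · have hb2 : S.pl O1 = c + 2 := by omega
        have hOP1 : O1 ∈ S.OP (m - 2) (m + 1) (c + 2) := S.mem_OP.2 ⟨hO1, hb2⟩
        have c2 := Finset.card_pos.2 ⟨_, hOP1⟩
        rw [hb2] at lz lz' Xz' nz
        have m1 : x2 ≠ φ y := fun e => by rw [← e, e2] at lz'; omega
        have m2 : x2 ≠ S.ρ (c + 2) (φ y) := fun e => by
          rw [← S.ρ_swap e.symm, e2] at lz; omega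
        have : 3 ≤ S.aX (m + 1) (c + 2) :=
          lb_X1 (S := S) [x2, φ y, S.ρ (c + 2) (φ y)] (by simp [m1, m2, nz])
            (by
              simp only [List.forall_mem_cons]
              exact ⟨⟨lx2, X2⟩, ⟨lz, Xz⟩, ⟨lz', Xz'⟩, by simp⟩)
        omega

end SD
end D145
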