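import Pool.Agent.MP_d145c0_al.H75.LastA
import Pool.Agent.MP_d145c0_al.H75.Cyc

/-! The last single level, `c = m - 3`. -/

namespace D145
open Equiv Finset
namespace SD
variable {Ω : Type} [Fintype Ω] [DecidableEq Ω]

theorem lc_two {m : ℕ} (S : SD Ω m) {z : Ω} {l : ℕ} (h1 : l ≤ S.lo z) (h2 : S.hi z ≤ l + 1)
    (i : ℕ) : S.ρ i z = z ∨ i = l ∨ i = l + 1 := by
  by_cases h : S.ρ i z = z
  · exact Or.inl h
  · have := S.lo_le h; have := S.le_hi h; omega

theorem lc_ne_lo {m : ℕ} (S : SD Ω m) {y z : Ω} (h : S.lo y ≠ S.lo z) : y ≠ z :=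
  fun e => h (by rw [e])

theorem lc_ne_hi {m : ℕ} (S : SD Ω m) {y z : Ω} (h : S.hi y ≠ S.hi z) : y ≠ z :=
  fun e => h (by rw [e])

theorem lc_card_δ {m : ℕ} (S : SD Ω m) (P Q : Ω → Prop) [DecidablePred P] [DecidablePred Q]
    (h : ∀ z, P z ↔ Q (S.δ z)) : (univ.filter P).card = (univ.filter Q).card :=
  Finset.card_equiv S.δ (by intro z; simp [h z])

section
variable {c : ℕ} {S : SD Ω (c + 3)} {x : Ω}

theorem lc_lo (h : S.AlX c x) (hH : S.H c ≤ c + 1) {z : Ω} (hz : S.lo z ≤ c) :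
    S.hi z ≤ c + 1 := by
  by_cases h1 : S.lo z < c
  · exact (S.hi_le_H h1).trans hH
  · rw [h.2.2.2 z (by omega), h.hi_x]

theorem lc_hi (h : S.AlX c x) (hH : S.H c ≤ c + 1) {z : Ω} (hz : S.lo z ≤ c + 3) :
    S.hi z ≤ c + 4 := by
  by_contra hh
  have h1 := S.lo_δ z
  have h2 := S.hi_δ z
  have h3 := lc_lo h hH (z := S.δ z) (by omega)
  omega

theorem lc_low (h : S.AlX c x) {z : Ω} (hz : S.lo z ≤ c) (i : ℕ) :
    S.lo (S.ρ i z) ≤ c ∨ S.ρ i z = S.ρ (c + 1) x := by
  rcases S.lo_step i z with h1 | h1 | h1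
  · left; omega
  · left; omega
  · by_cases h2 : S.lo z = c
    · right
      have e : i = c + 1 := by omega
      rw [h.2.2.2 z h2, e]
    · left; omega

theorem lc_high (h : S.AlX c x) {z : Ω} (hz : c + 5 ≤ S.hi z) (i : ℕ) :
    c + 5 ≤ S.hi (S.ρ i z) ∨ S.ρ i z = S.δ (S.ρ (c + 1) x) := by
  rcases S.hi_step i z with h1 | h1 | h1
  · left; omega
  · left; omega
  · by_cases h2 : S.hi z = c + 5
    · right
      have e : i = c + 4 := by omega
      have h3 := S.lo_δ z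
      have e2 := S.δ_swap (h.2.2.2 (S.δ z) (by omega))
      rw [← e2, e, S.δ_edge (i := c + 1) (by omega)]
    · left; omega

/-- a set that together with the two ends is closed under all labels -/
theorem lc_closed (h : S.AlX c x) {V : Set Ω} (h1 : S.ρ (c + 1) x ∈ V)
    (h2 : S.δ (S.ρ (c + 1) x) ∈ V)
    (hV : ∀ i, ∀ z ∈ V, S.ρ i z ∈ V ∨ S.lo (S.ρ i z) ≤ c ∨ c + 5 ≤ S.hi (S.ρ i z)) (y : Ω) :
    y ∈ V ∨ S.lo y ≤ c ∨ c + 5 ≤ S.hi y := by
  refine S.conn (U := {y | y ∈ V ∨ S.lo y ≤ c ∨ c + 5 ≤ S.hi y}) (Or.inl h1) ?_ y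
  rintro i z (hz | hz | hz)
  · exact hV i z hz
  · rcases lc_low h hz i with k | k
    · exact Or.inr (Or.inl k)
    · left; rw [k]; exact h1
  · rcases lc_high h hz i with k | k
    · exact Or.inr (Or.inr k)
    · left; rw [k]; exact h2

theorem lc_count (h : S.AlX c x) :
    2 * (S.A c).card + 2 +
      2 * (univ.filter (fun z => S.lo z = c + 1 ∧ S.hi z ≤ c + 3)).card +
      (univ.filter (fun z => S.lo z = c + 1 ∧ S.hi z = c + 4)).card +
      (univ.filter (fun z => c + 2 ≤ S.lo z ∧ S.hi z ≤ c + 3)).card ≤ 4 * c + 15 := by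
  have h0 := h.card_mid
  have e1 : (univ.filter (fun z => S.lo z = c)).card = 1 := h.al.2.2
  have e2 : (univ.filter (fun z => S.hi z = c + 5)).card =
      (univ.filter (fun z => S.lo z = c)).card :=
    S.lc_card_δ _ _ (by intro z; have := S.lo_δ z; omega)
  have e3 : (univ.filter (fun z => c + 2 ≤ S.lo z ∧ S.hi z = c + 4)).card =
      (univ.filter (fun z => S.lo z = c + 1 ∧ S.hi z ≤ c + 3)).card :=
    S.lc_card_δ _ _ (by intro z; have := S.lo_δ z; have := S.hi_δ z; omega)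
  have key : (univ.filter (fun z => S.lo z = c)).card +
      (univ.filter (fun z => S.hi z = c + 5)).card +
      (univ.filter (fun z => S.lo z = c + 1 ∧ S.hi z ≤ c + 3)).card +
      (univ.filter (fun z => c + 2 ≤ S.lo z ∧ S.hi z = c + 4)).card +
      (univ.filter (fun z => S.lo z = c + 1 ∧ S.hi z = c + 4)).card +
      (univ.filter (fun z => c + 2 ≤ S.lo z ∧ S.hi z ≤ c + 3)).card ≤
      (univ.filter (fun z => c ≤ S.lo z ∧ S.hi z + c + 1 ≤ 2 * (c + 3))).card := by
    simp only [card_filter, ← sum_add_distrib]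
    refine sum_le_sum (fun z _ => ?_)
    have k1 : S.lo z = c → S.hi z = c + 1 := fun e => by rw [h.2.2.2 z e, h.hi_x]
    have k2 : S.hi z = c + 5 → S.lo z = c + 4 := fun e => by
      have a1 := S.lo_δ z
      have a2 := S.hi_δ z
      have a3 := h.hi_x
      rw [← h.2.2.2 (S.δ z) (by omega)] at a3
      omega
    split_ifs <;> omega
  omega

/-- four points of a self-dual family cannot carry the alternating group -/
theorem lc_kill {V : Set Ω} (hV : AltIn (S.G (Set.Iic (c + 3))) V) {y1 y2 y3 y4 : Ω}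
    (a1 : y1 ∈ V) (a2 : y2 ∈ V) (a3 : y3 ∈ V) (a4 : y4 ∈ V)
    (b1 : S.δ y1 ∈ V) (b2 : S.δ y2 ∈ V) (b3 : S.δ y3 ∈ V) (b4 : S.δ y4 ∈ V)
    (n12 : y1 ≠ y2) (n13 : y1 ≠ y3) (n14 : y1 ≠ y4) (n23 : y2 ≠ y3) (n24 : y2 ≠ y4)
    (n34 : y3 ≠ y4) : False := by
  have h1 := S.altIn_dual (J := Set.Ici (c + 2)) hV (by
    intro i hi _
    simp only [Set.mem_Iic, Set.mem_Ici] at hi ⊢
    omega)
  have h2 := S.ipAlt hV h1
  have e : S.G (Set.Icc (c + 2) (c + 3)) = _ := S.G_pair (c + 2)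
  rw [e] at h2
  exact dk4pts (S.inv _) (S.inv _) h2 ⟨a1, b1⟩ ⟨a2, b2⟩ ⟨a3, b3⟩ ⟨a4, b4⟩ n12 n13 n14 n23 n24 n34

/-- the configuration of the middle part -/
structure LC (S : SD Ω (c + 3)) (x x1 x2 w p q w' u1 u2 : Ω) : Prop where
  al : S.AlX c x
  e0 : S.ρ (c + 1) x = x1
  e1 : S.ρ (c + 2) x1 = x2
  ea : S.ρ (c + 1) p = q
  ep : S.ρ (c + 2) p = w
  eq : S.ρ (c + 2) q = w'
  eu : S.ρ (c + 2) u1 = u2
  lx1 : S.lo x1 = c + 1
  hx1 : S.hi x1 = c + 2
  lx2 : S.lo x2 = c + 2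
  hx2 : S.hi x2 = c + 3
  lp : S.lo p = c + 1
  lq : S.lo q = c + 1
  hp : S.hi p ≤ c + 3
  hq : S.hi q ≤ c + 3
  lw : S.lo w = c + 2
  lw' : S.lo w' = c + 2
  lu1 : S.lo u1 = c + 2
  lu2 : S.lo u2 = c + 2
  n1p : x1 ≠ p
  n1q : x1 ≠ q
  npq : p ≠ q
  n2w : x2 ≠ w
  n2w' : x2 ≠ w'
  n2u1 : x2 ≠ u1
  n2u2 : x2 ≠ u2
  nww : w ≠ w'
  nwu1 : w ≠ u1
  nwu2 : w ≠ u2
  nw'u1 : w' ≠ u1
  nw'u2 : w' ≠ u2
  nuu : u1 ≠ u2
  nδ : S.δ x2 ≠ x2
  low : ∀ z, S.lo z ≤ c → S.hi z ≤ c + 1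
  top : ∀ z, S.lo z ≤ c + 3 → S.hi z ≤ c + 4
  lev : ∀ z, S.lo z = c + 1 → z = x1 ∨ z = p ∨ z = q
  cardC : (univ.filter (fun z => c + 2 ≤ S.lo z ∧ S.hi z ≤ c + 3)).card ≤ 5
  altU : AltIn (S.G (Set.Iic (c + 3))) {z | S.R (Set.Icc (c + 1) (c + 3)) x z}

variable {x1 x2 w p q w' u1 u2 : Ω}

theorem LC.sw1 (h : LC S x x1 x2 w p q w' u1 u2) : LC S x x1 x2 w' q p w u1 u2 :=
  { h with
    ea := S.ρ_swap h.ea, ep := h.eq, eq := h.ep, lp := h.lq, lq := h.lp, hp := h.hq, hq := h.hp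
    lw := h.lw', lw' := h.lw, n1p := h.n1q, n1q := h.n1p, npq := h.npq.symm
    n2w := h.n2w', n2w' := h.n2w, nww := h.nww.symm, nwu1 := h.nw'u1, nwu2 := h.nw'u2
    nw'u1 := h.nwu1, nw'u2 := h.nwu2
    lev := fun z hz => by rcases h.lev z hz with e | e | e <;> simp [e] }

theorem LC.sw2 (h : LC S x x1 x2 w p q w' u1 u2) : LC S x x1 x2 w p q w' u2 u1 :=
  { h with
    eu := S.ρ_swap h.eu, lu1 := h.lu2, lu2 := h.lu1, n2u1 := h.n2u2, n2u2 := h.n2u1
    nwu1 := h.nwu2, nwu2 := h.nwu1, nw'u1 := h.nw'u2, nw'u2 := h.nw'u1, nuu := h.nuu.symm }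

/-- a point with largest label `c + 4` is dual to a point of level `c + 1` -/
theorem LC.dlev (h : LC S x x1 x2 w p q w' u1 u2) {z : Ω} (hz : S.hi z = c + 4) :
    z = S.δ x1 ∨ z = S.δ p ∨ z = S.δ q := by
  have h1 := S.lo_δ z
  rcases h.lev (S.δ z) (by omega) with e | e | e
  · exact Or.inl (S.δ_swap e).symm
  · exact Or.inr (Or.inl (S.δ_swap e).symm)
  · exact Or.inr (Or.inr (S.δ_swap e).symm)

/-- the label `c + 2` moves exactly eight points -/
theorem LC.supp (h : LC S x x1 x2 w p q w' u1 u2) {z : Ω} (hz : S.ρ (c + 2) z ≠ z) :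
    z = x1 ∨ z = p ∨ z = q ∨ z = x2 ∨ z = w ∨ z = w' ∨ z = u1 ∨ z = u2 := by
  have nd : [x1, p, q, x2, w, w', u1, u2].Nodup := by
    have k : ∀ y z, S.lo y = c + 1 → S.lo z = c + 2 → y ≠ z :=
      fun y z a b => S.lc_ne_lo (by omega)
    simp only [List.nodup_cons, List.mem_cons, List.not_mem_nil, or_false, not_or,
      not_false_eq_true, List.nodup_nil, and_true]
    exact ⟨⟨h.n1p, h.n1q, k _ _ h.lx1 h.lx2, k _ _ h.lx1 h.lw, k _ _ h.lx1 h.lw',
        k _ _ h.lx1 h.lu1, k _ _ h.lx1 h.lu2⟩,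
      ⟨h.npq, k _ _ h.lp h.lx2, k _ _ h.lp h.lw, k _ _ h.lp h.lw', k _ _ h.lp h.lu1,
        k _ _ h.lp h.lu2⟩,
      ⟨k _ _ h.lq h.lx2, k _ _ h.lq h.lw, k _ _ h.lq h.lw', k _ _ h.lq h.lu1, k _ _ h.lq h.lu2⟩,
      ⟨h.n2w, h.n2w', h.n2u1, h.n2u2⟩, ⟨h.nww, h.nwu1, h.nwu2⟩, ⟨h.nw'u1, h.nw'u2⟩, h.nuu⟩
  have c8 : ([x1, p, q, x2, w, w', u1, u2].toFinset).card = 8 :=
    List.toFinset_card_of_nodup nd
  have mv : ∀ z, S.lo z = c + 2 → S.ρ (c + 2) z ≠ z := fun z e => by
    have := S.mv_lo z; rwa [e] at this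
  have s1 : [x1, p, q, x2, w, w', u1, u2].toFinset ⊆ S.supp (c + 2) := by
    intro y hy
    simp only [List.mem_toFinset, List.mem_cons, List.not_mem_nil, or_false] at hy
    rw [mem_supp]
    rcases hy with e | e | e | e | e | e | e | e <;> rw [e]
    · rw [h.e1]; exact S.lc_ne_lo (by rw [h.lx1, h.lx2]; omega)
    · rw [h.ep]; exact S.lc_ne_lo (by rw [h.lp, h.lw]; omega)
    · rw [h.eq]; exact S.lc_ne_lo (by rw [h.lq, h.lw']; omega)
    · exact mv _ h.lx2
    · exact mv _ h.lw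
    · exact mv _ h.lw'
    · exact mv _ h.lu1
    · exact mv _ h.lu2
  have s2 : S.supp (c + 2) ⊆ [x1, p, q, S.δ p, S.δ q].toFinset ∪
      univ.filter (fun z => c + 2 ≤ S.lo z ∧ S.hi z ≤ c + 3) := by
    intro y hy
    rw [mem_supp] at hy
    have a1 := S.lo_le hy
    have a2 := S.le_hi hy
    have a3 := h.low y
    have a4 := h.top y
    simp only [mem_union, List.mem_toFinset, List.mem_cons, List.not_mem_nil, or_false,
      mem_filter, mem_univ, true_and]
    by_cases b1 : S.lo y = c + 1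
    · rcases h.lev y b1 with e | e | e <;> simp [e]
    by_cases b2 : S.hi y = c + 4
    · rcases h.dlev b2 with e | e | e
      · have a5 := S.lo_δ x1
        rw [← e, h.hx1] at a5
        omega
      · simp [e]
      · simp [e]
    · right; omega
  have c1 := card_le_card s1
  have c2 := (card_le_card s2).trans (card_union_le _ _)
  have c3 : ([x1, p, q, S.δ p, S.δ q].toFinset).card ≤ 5 := List.toFinset_card_le _
  have c4 := h.cardC
  have c5 := S.four_dvd_supp (c + 2)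
  have e := eq_of_subset_of_card_le s1 (by omega)
  have : z ∈ [x1, p, q, x2, w, w', u1, u2].toFinset := by rw [e, mem_supp]; exact hz
  simpa only [List.mem_toFinset, List.mem_cons, List.not_mem_nil, or_false] using this

theorem LC.lev2 (h : LC S x x1 x2 w p q w' u1 u2) {z : Ω} (hz : S.lo z = c + 2) :
    z = x2 ∨ z = w ∨ z = w' ∨ z = u1 ∨ z = u2 := by
  have mv : S.ρ (c + 2) z ≠ z := by have := S.mv_lo z; rwa [hz] at this
  rcases h.supp mv with e | e | e | e
  · have := h.lx1; rw [← e] at this; omega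
  · have := h.lp; rw [← e] at this; omega
  · have := h.lq; rw [← e] at this; omega
  · exact e

/-- the duality has a fixed point -/
theorem LC.fixed (h : LC S x x1 x2 w p q w' u1 u2) :
    S.δ w = w ∨ S.δ w' = w' ∨ S.δ u1 = u1 ∨ S.δ u2 = u2 := by
  have : ∃ z, S.δ z = z := by
    by_contra hh
    push Not at hh
    have := even_card_of_inv S.δ univ S.dinv (fun z _ => ⟨mem_univ _, hh z⟩)
    rw [card_univ, S.card, Nat.even_iff] at this
    omega
  obtain ⟨z, hz⟩ := this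
  have a1 := S.lo_δ z
  rw [hz] at a1
  have a2 := S.lo_le_hi z
  have a3 := h.low z
  have a4 : S.lo z ≠ c + 1 := by
    intro e
    rcases h.lev z e with k | k | k
    · have := h.hx1; rw [← k] at this; omega
    · have := h.hp; rw [← k] at this; omega
    · have := h.hq; rw [← k] at this; omega
  rcases h.lev2 (z := z) (by omega) with e | e | e | e | e <;> rw [e] at hz
  · exact absurd hz h.nδ
  · exact Or.inl hz
  · exact Or.inr (Or.inl hz)
  · exact Or.inr (Or.inr (Or.inl hz))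
  · exact Or.inr (Or.inr (Or.inr hz))

theorem lc_d3 (S : SD Ω (c + 3)) {y z : Ω} (e : S.ρ (c + 2) y = z) :
    S.ρ (c + 3) (S.δ y) = S.δ z := by
  rw [S.δ_edge (i := c + 2) (by omega), e]

theorem lc_d2 (S : SD Ω (c + 3)) {y z : Ω} (e : S.ρ (c + 3) y = z) :
    S.ρ (c + 2) (S.δ y) = S.δ z := by
  rw [S.δ_edge (i := c + 3) (by omega), e]

/-- first case: `p` has the label `c + 3` -/
theorem LC.one (h : LC S x x1 x2 w p q w' u1 u2) (hb : S.ρ (c + 3) p ≠ p) :
    S.ρ (c + 3) p = q ∧ S.hi u1 = c + 4 ∧ S.hi u2 = c + 4 := by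
  have e1 : S.ρ (c + 3) p = q := by
    have a1 : S.lo (S.ρ (c + 3) p) = c + 1 := by
      rw [S.lo_far (by rw [h.lp]), h.lp]
    rcases h.lev _ a1 with e | e | e
    · have := S.ρ_swap e
      rw [S.fix_hi (by rw [h.hx1]; omega)] at this
      exact absurd this h.n1p
    · exact absurd e hb
    · exact e
  have e2 := lc_d2 S e1
  have hb' : S.ρ (c + 3) q ≠ q := by rw [S.ρ_swap e1]; exact h.npq
  have a1 := S.le_hi hb
  have a2 := S.le_hi hb'
  have a3 := S.lo_δ p
  have a4 := S.hi_δ p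
  have a5 := S.lo_δ q
  have a6 := S.hi_δ q
  have := h.hp; have := h.hq; have := h.lp; have := h.lq
  refine ⟨e1, ?_⟩
  rcases h.lev2 (z := S.δ p) (by omega) with e | e | e | e | e
  · have := h.hx2; rw [← e] at this; omega
  · rw [e, S.ρ_swap h.ep] at e2; rw [← e2] at a5; omega
  · rw [e, S.ρ_swap h.eq] at e2; rw [← e2] at a5; omega
  · rw [e, h.eu] at e2; rw [e] at a4; rw [← e2] at a6; omega
  · rw [e, S.ρ_swap h.eu] at e2; rw [e] at a4; rw [← e2] at a6; omega

theorem LC.caseI (h : LC S x x1 x2 w p q w' u1 u2) (hb : S.ρ (c + 3) p ≠ p)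
    (hx : S.δ x2 = w) : False := by
  obtain ⟨e1, k1, k2⟩ := h.one hb
  have hw := S.δ_swap hx
  have hw' : S.δ w' = w' := by
    rcases h.fixed with e | e | e | e
    · rw [hw] at e; exact absurd e h.n2w
    · exact e
    · have := S.lo_δ u1; rw [e, h.lu1] at this; omega
    · have := S.lo_δ u2; rw [e, h.lu2] at this; omega
  have m1 : c + 1 ∈ Set.Icc (c + 1) (c + 3) := ⟨by omega, by omega⟩
  have m2 : c + 2 ∈ Set.Icc (c + 1) (c + 3) := ⟨by omega, by omega⟩
  have m3 : c + 3 ∈ Set.Icc (c + 1) (c + 3) := ⟨by omega, by omega⟩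
  have r1 := (S.R_refl (Set.Icc (c + 1) (c + 3)) x).step' m1 h.e0
  have r2 := r1.step' m2 h.e1
  have r3 : S.R _ x (S.δ p) := r2.step' m3 (by rw [← hw]; exact lc_d3 S (S.ρ_swap h.ep))
  have r4 := r3.step' m2 (lc_d2 S e1)
  have r5 : S.R _ x w' := r4.step' m3 (by rw [← hw']; exact lc_d3 S h.eq)
  have r6 := r5.step' m2 (S.ρ_swap h.eq)
  have r7 := r6.step' m1 (S.ρ_swap h.ea)
  have r8 := r7.step' m2 h.ep
  exact lc_kill h.altU (y1 := x2) (y2 := w) (y3 := p) (y4 := q) r2 r8 r7 r6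
    (by rw [hx]; exact r8) (by rw [hw]; exact r2) r3 r4 h.n2w
    (S.lc_ne_lo (by rw [h.lx2, h.lp]; omega)) (S.lc_ne_lo (by rw [h.lx2, h.lq]; omega))
    (S.lc_ne_lo (by rw [h.lw, h.lp]; omega)) (S.lc_ne_lo (by rw [h.lw, h.lq]; omega)) h.npq

theorem LC.fixq (h : LC S x x1 x2 w p q w' u1 u2) (hb : S.ρ (c + 3) p = p) :
    S.ρ (c + 3) q = q := by
  rw [← h.ea, S.fix_comm (by omega)]; exact hb

/-- second case: the points of level `c + 2` have labels `c + 2`, `c + 3` only -/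
theorem LC.two_hi (h : LC S x x1 x2 w p q w' u1 u2) (hb : S.ρ (c + 3) p = p) {z : Ω}
    (hz : S.lo z = c + 2) : S.hi z ≤ c + 3 := by
  by_contra hh
  have a1 := h.top z (by omega)
  have mv : S.ρ (c + 2) z ≠ z := by have := S.mv_lo z; rwa [hz] at this
  rcases h.dlev (z := z) (by omega) with e | e | e
  · have a5 := S.lo_δ x1
    rw [← e, h.hx1] at a5
    omega
  · rw [e] at mv; exact mv (lc_d2 S hb)
  · rw [e] at mv; exact mv (lc_d2 S (h.fixq hb))

theorem LC.two_δ (h : LC S x x1 x2 w p q w' u1 u2) (hb : S.ρ (c + 3) p = p) {z : Ω}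
    (hz : S.lo z = c + 2) : S.δ z = x2 ∨ S.δ z = w ∨ S.δ z = w' ∨ S.δ z = u1 ∨ S.δ z = u2 := by
  have nd : [x2, w, w', u1, u2].Nodup := by
    simp only [List.nodup_cons, List.mem_cons, List.not_mem_nil, or_false, not_or,
      not_false_eq_true, List.nodup_nil, and_true]
    exact ⟨⟨h.n2w, h.n2w', h.n2u1, h.n2u2⟩, ⟨h.nww, h.nwu1, h.nwu2⟩, ⟨h.nw'u1, h.nw'u2⟩, h.nuu⟩
  have c5 : ([x2, w, w', u1, u2].toFinset).card = 5 := List.toFinset_card_of_nodup nd
  have s1 : [x2, w, w', u1, u2].toFinset ⊆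
      univ.filter (fun z => c + 2 ≤ S.lo z ∧ S.hi z ≤ c + 3) := by
    intro y hy
    simp only [List.mem_toFinset, List.mem_cons, List.not_mem_nil, or_false] at hy
    have : S.lo y = c + 2 := by
      rcases hy with e | e | e | e | e <;> rw [e]
      exacts [h.lx2, h.lw, h.lw', h.lu1, h.lu2]
    simp only [mem_filter, mem_univ, true_and]
    exact ⟨by omega, h.two_hi hb this⟩
  have e := eq_of_subset_of_card_le s1 (by have := h.cardC; omega)
  have : S.δ z ∈ [x2, w, w', u1, u2].toFinset := by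
    rw [e]
    simp only [mem_filter, mem_univ, true_and]
    have := S.lo_δ z; have := S.hi_δ z; have := h.two_hi hb hz
    omega
  simpa only [List.mem_toFinset, List.mem_cons, List.not_mem_nil, or_false] using this

/-- points fixed by both middle labels -/
theorem LC.rest (h : LC S x x1 x2 w p q w' u1 u2) (y : Ω) :
    (S.ρ (c + 2) y = y ∧ S.ρ (c + 3) y = y) ∨
    (y = x1 ∨ y = p ∨ y = q ∨ y = x2 ∨ y = w ∨ y = w' ∨ y = u1 ∨ y = u2) ∨
    (y = S.δ x1 ∨ y = S.δ p ∨ y = S.δ q ∨ y = S.δ x2 ∨ y = S.δ w ∨ y = S.δ w' ∨ y = S.δ u1 ∨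
      y = S.δ u2) := by
  by_cases a1 : S.ρ (c + 2) y = y
  · by_cases a2 : S.ρ (c + 3) y = y
    · exact Or.inl ⟨a1, a2⟩
    · have a3 : S.ρ (c + 2) (S.δ y) ≠ S.δ y := by
        rw [Ne, S.δ_fix (i := c + 3) (by omega)]; exact a2
      right; right
      rcases h.supp a3 with e | e | e | e | e | e | e | e <;> simp [← S.δ_swap e]
  · exact Or.inr (Or.inl (h.supp a1))

theorem LC.caseIIa (h : LC S x x1 x2 w p q w' u1 u2) (hb : S.ρ (c + 3) p = p)
    (hx : S.δ x2 = w) (hw' : S.δ w' = u2) : False := by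
  have hw := S.δ_swap hx
  have hu2 := S.δ_swap hw'
  have hq := h.fixq hb
  have hu1 : S.δ u1 = u1 := by
    rcases h.fixed with e | e | e | e
    · rw [hw] at e; exact absurd e h.n2w
    · rw [hw'] at e; exact absurd e.symm h.nw'u2
    · exact e
    · rw [hu2] at e; exact absurd e h.nw'u2
  have f1 : S.ρ (c + 3) w' = u1 := by
    have := lc_d3 S (S.ρ_swap h.eu); rwa [hu2, hu1] at this
  have f2 : S.ρ (c + 3) u2 = S.δ q := by
    have := lc_d3 S (S.ρ_swap h.eq); rwa [hw'] at this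
  have f3 : S.ρ (c + 3) x2 = S.δ p := by
    have := lc_d3 S (S.ρ_swap h.ep); rwa [hw] at this
  have f4 : S.ρ (c + 3) (S.δ x1) = w := by
    have := lc_d3 S h.e1; rwa [hx] at this
  have f5 : S.ρ (c + 3) x1 = x1 := S.fix_hi (by rw [h.hx1]; omega)
  have f6 := lc_d2 S f5
  have f7 := lc_d2 S hb
  have f8 := lc_d2 S hq
  have a1 := S.lo_δ q
  have a2 := S.hi_δ q
  have a3 := h.hq
  have a4 := h.lq
  have a5 := h.two_hi hb h.lu2
  have mem : ∀ i, i ≤ c + 3 → S.ρ i ∈ S.G (Set.Iic (c + 3)) := fun i hi => S.ρ_mem hi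
  have P := path5 (H := S.G (Set.Iic (c + 3))) (a := S.ρ (c + 2)) (b := S.ρ (c + 3))
    (g := S.ρ (c + 1)) (h := 1) (mem _ (by omega)) (mem _ (by omega)) (mem _ (by omega))
    (one_mem _) (S.inv _) (S.inv _) h.eq f1 h.eu f2 hq f8
    (S.lc_ne_lo (by rw [h.lq, h.lw']; omega)) h.nw'u1 h.nuu (S.lc_ne_hi (by omega))
    (by
      intro y hy
      simp only [Set.mem_insert_iff, Set.mem_singleton_iff, not_or] at hy
      have U1 : y ∈ ({x1, x2, S.δ p} : Finset Ω) → ((S.ρ (c + 2) * S.ρ (c + 3)) ^ 12) y = y :=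
        pow12 (by
          intro z hz
          simp only [mem_insert, mem_singleton] at hz ⊢
          rcases hz with e | e | e <;> rw [e, Perm.mul_apply]
          · rw [f5, h.e1]; simp
          · rw [f3, f7]; simp
          · rw [S.ρ_swap f3, S.ρ_swap h.e1]; simp) (card_le_three.trans (by omega))
      have U2 : y ∈ ({S.δ x1, w, p} : Finset Ω) → ((S.ρ (c + 2) * S.ρ (c + 3)) ^ 12) y = y :=
        pow12 (by
          intro z hz
          simp only [mem_insert, mem_singleton] at hz ⊢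
          rcases hz with e | e | e <;> rw [e, Perm.mul_apply]
          · rw [f4, S.ρ_swap h.ep]; simp
          · rw [S.ρ_swap f4, f6]; simp
          · rw [hb, h.ep]; simp) (card_le_three.trans (by omega))
      rcases h.rest y with e | e | e
      · exact Perm.pow_apply_eq_self_of_apply_eq_self (by rw [Perm.mul_apply, e.2, e.1]) _
      · rcases e with e | e | e | e | e | e | e | e
        · exact U1 (by simp [e])
        · exact U2 (by simp [e])
        · exact absurd e hy.1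
        · exact U1 (by simp [e])
        · exact U2 (by simp [e])
        · exact absurd e hy.2.1
        · exact absurd e hy.2.2.1
        · exact absurd e hy.2.2.2.1
      · rw [hx, hw, hw', hu1, hu2] at e
        rcases e with e | e | e | e | e | e | e | e
        · exact U2 (by simp [e])
        · exact U1 (by simp [e])
        · exact absurd e hy.2.2.2.2
        · exact U2 (by simp [e])
        · exact U1 (by simp [e])
        · exact absurd e hy.2.2.2.1
        · exact absurd e hy.2.2.1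
        · exact absurd e hy.2.1)
    (y0 := q) (by simp)
    (by rw [Perm.one_apply, S.ρ_swap h.ea]; exact h.npq)
    (by
      intro y hy hne
      simp only [Set.mem_insert_iff, Set.mem_singleton_iff] at hy
      rw [Perm.one_apply]
      apply S.fix_lo
      rcases hy with e | e | e | e | e
      · exact absurd e hne
      · rw [e, h.lw']; omega
      · rw [e, h.lu1]; omega
      · rw [e, h.lu2]; omega
      · rw [e]; omega)
  exact lc_kill P.1 (y1 := q) (y2 := w') (y3 := u1) (y4 := u2) (by simp) (by simp) (by simp)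
    (by simp) (by simp) (by simp [hw']) (by simp [hu1]) (by simp [hu2])
    (S.lc_ne_lo (by rw [h.lq, h.lw']; omega)) P.2.1 P.2.2.1 h.nw'u1 P.2.2.2 h.nuu

/-- the pair `u1, u2` is not preserved by the duality -/
theorem LC.pair (h : LC S x x1 x2 w p q w' u1 u2) (hb : S.ρ (c + 3) p = p)
    (e : S.ρ (c + 3) u1 = u2) : False := by
  have := S.conn (U := {u1, u2}) (x := u1) (by simp) (by
    intro i z hz
    simp only [Set.mem_insert_iff, Set.mem_singleton_iff] at hz ⊢
    rcases hz with k | k <;> rw [k]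
    · rcases S.lc_two (l := c + 2) h.lu1.ge (h.two_hi hb h.lu1) i with a | a | a
      · exact Or.inl a
      · rw [a]; exact Or.inr h.eu
      · rw [a]; exact Or.inr e
    · rcases S.lc_two (l := c + 2) h.lu2.ge (h.two_hi hb h.lu2) i with a | a | a
      · exact Or.inr a
      · rw [a]; exact Or.inl (S.ρ_swap h.eu)
      · rw [a]; exact Or.inl (S.ρ_swap e)) x2
  simp only [Set.mem_insert_iff, Set.mem_singleton_iff] at this
  exact this.elim h.n2u1 h.n2u2

theorem LC.caseA (h : LC S x x1 x2 w p q w' u1 u2) (hx : S.δ x2 = w) : False := by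
  by_cases hb : S.ρ (c + 3) p = p
  swap
  · exact h.caseI hb hx
  have hw := S.δ_swap hx
  rcases h.two_δ hb h.lw' with e | e | e | e | e
  · have := S.δ_swap e; rw [hx] at this; exact h.nww this
  · have := S.δ_swap e; rw [hw] at this; exact h.n2w' this
  · have f := lc_d3 S h.eu
    rcases h.two_δ hb h.lu1 with a | a | a | a | a
    · have := S.δ_swap a; rw [hx] at this; exact h.nwu1 this
    · have := S.δ_swap a; rw [hw] at this; exact h.n2u1 this
    · have := S.δ_swap a; rw [e] at this; exact h.nw'u1 this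
    · rcases h.two_δ hb h.lu2 with b | b | b | b | b
      · have := S.δ_swap b; rw [hx] at this; exact h.nwu2 this
      · have := S.δ_swap b; rw [hw] at this; exact h.n2u2 this
      · have := S.δ_swap b; rw [e] at this; exact h.nw'u2 this
      · have := S.δ_swap b; rw [a] at this; exact h.nuu this
      · rw [a, b] at f; exact h.pair hb f
    · rw [a, S.δ_swap a] at f; exact h.pair hb (S.ρ_swap f)
  · exact h.sw2.caseIIa hb hx e
  · exact h.caseIIa hb hx e

theorem LC.caseIIb (h : LC S x x1 x2 w p q w' u1 u2) (hb : S.ρ (c + 3) p = p)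
    (hx : S.δ x2 = u1) (hu2 : S.δ u2 = w) : False := by
  have hu1 := S.δ_swap hx
  have hw := S.δ_swap hu2
  have hq := h.fixq hb
  have hw' : S.δ w' = w' := by
    rcases h.fixed with e | e | e | e
    · rw [hw] at e; exact absurd e.symm h.nwu2
    · exact e
    · rw [hu1] at e; exact absurd e h.n2u1
    · rw [hu2] at e; exact absurd e h.nwu2
  have f1 : S.ρ (c + 3) x2 = w := by
    have := lc_d3 S h.eu; rwa [hu1, hu2] at this
  have f2 : S.ρ (c + 3) (S.δ x1) = u1 := by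
    have := lc_d3 S h.e1; rwa [hx] at this
  have f3 : S.ρ (c + 3) u2 = S.δ p := by
    have := lc_d3 S (S.ρ_swap h.ep); rwa [hw] at this
  have f4 : S.ρ (c + 3) w' = S.δ q := by
    have := lc_d3 S (S.ρ_swap h.eq); rwa [hw'] at this
  have f5 : S.ρ (c + 3) x1 = x1 := S.fix_hi (by rw [h.hx1]; omega)
  have f6 := lc_d2 S f5
  have f7 := lc_d2 S hb
  have m1 : c + 1 ∈ Set.Icc (c + 1) (c + 3) := ⟨by omega, by omega⟩
  have m2 : c + 2 ∈ Set.Icc (c + 1) (c + 3) := ⟨by omega, by omega⟩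
  have m3 : c + 3 ∈ Set.Icc (c + 1) (c + 3) := ⟨by omega, by omega⟩
  have r1 := (S.R_refl (Set.Icc (c + 1) (c + 3)) x).step' m1 h.e0
  have r2 := r1.step' m2 h.e1
  have r3 := r2.step' m3 f1
  have r4 := r3.step' m2 (S.ρ_swap h.ep)
  have r5 := r4.step' m1 h.ea
  have r6 := r5.step' m2 h.eq
  have r7 := r6.step' m3 f4
  have k : ∀ y z, S.lo y = c + 1 → S.lo z = c + 2 → y ≠ z :=
    fun y z a b => S.lc_ne_lo (by omega)
  have n12 := k _ _ h.lx1 h.lx2
  have n1w := k _ _ h.lx1 h.lw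
  have np2 := k _ _ h.lp h.lx2
  have npw := k _ _ h.lp h.lw
  have n1p := h.n1p
  have n2w := h.n2w
  set g : Perm Ω := swap x1 p * swap x2 w with hg
  have gs : Perm.sign g = 1 := by
    rw [hg, Perm.sign_mul, Perm.sign_swap n1p, Perm.sign_swap n2w]; simp
  have gfix : ∀ y, y ≠ x1 → y ≠ p → y ≠ x2 → y ≠ w → g y = y := by
    intro y a1 a2 a3 a4
    rw [hg, Perm.mul_apply, swap_apply_of_ne_of_ne a3 a4, swap_apply_of_ne_of_ne a1 a2]
  have g1 : g x1 = p := by
    rw [hg, Perm.mul_apply, swap_apply_of_ne_of_ne n12 n1w, swap_apply_left]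
  have g2 : g p = x1 := by
    rw [hg, Perm.mul_apply, swap_apply_of_ne_of_ne np2 npw, swap_apply_right]
  have g3 : g x2 = w := by
    rw [hg, Perm.mul_apply, swap_apply_left, swap_apply_of_ne_of_ne n1w.symm npw.symm]
  have g4 : g w = x2 := by
    rw [hg, Perm.mul_apply, swap_apply_right, swap_apply_of_ne_of_ne n12.symm np2.symm]
  have gL : g ∈ S.G (Set.Iic (c + 3)) := h.altU g gs (by
    intro y hy
    refine gfix y ?_ ?_ ?_ ?_ <;> intro e <;> rw [e] at hy
    exacts [hy r1, hy r4, hy r2, hy r3])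
  have hD := S.altIn_dual (J := Set.Ici (c + 2)) h.altU (by
    intro i hi _
    simp only [Set.mem_Iic, Set.mem_Ici] at hi ⊢
    omega)
  set r : Perm Ω := S.ρ (c + 2) * S.ρ (c + 3) with hr
  have rH : r ∈ S.G (Set.Ici (c + 2)) :=
    mul_mem (S.ρ_mem (Set.mem_Ici.2 le_rfl)) (S.ρ_mem (Set.mem_Ici.2 (by omega)))
  have s1 : r x1 = x2 := by rw [hr, Perm.mul_apply, f5, h.e1]
  have s2 : r x2 = p := by rw [hr, Perm.mul_apply, f1, S.ρ_swap h.ep]
  have s3 : r p = w := by rw [hr, Perm.mul_apply, hb, h.ep]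
  have s4 : r w = x1 := by rw [hr, Perm.mul_apply, S.ρ_swap f1, S.ρ_swap h.e1]
  have grH : g * (r * r) ∈ S.G (Set.Ici (c + 2)) := hD _
    (by rw [Perm.sign_mul, gs, Perm.sign_mul, S.sign_G rH]; simp) (by
      intro y hy
      replace hy : ¬ S.R (Set.Icc (c + 1) (c + 3)) x (S.δ y) := hy
      show g (r (r y)) = y
      by_cases a1 : y = x1
      · rw [a1, s1, s2, g2]
      by_cases a2 : y = p
      · rw [a2, s3, s4, g1]
      by_cases a3 : y = x2
      · rw [a3, s2, s3, g4]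
      by_cases a4 : y = w
      · rw [a4, s4, s1, g3]
      rcases h.rest y with e | e | e
      · have : r y = y := by rw [hr, Perm.mul_apply, e.2, e.1]
        rw [this, this, gfix y a1 a2 a3 a4]
      · exfalso
        rcases e with e | e | e | e | e | e | e | e
        · exact a1 e
        · exact a2 e
        · rw [e] at hy; exact hy r7
        · exact a3 e
        · exact a4 e
        · rw [e, hw'] at hy; exact hy r6
        · rw [e, hu1] at hy; exact hy r2
        · rw [e, hu2] at hy; exact hy r3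
      · exfalso
        rcases e with e | e | e | e | e | e | e | e <;> rw [e, S.dinv] at hy
        · exact hy r1
        · exact hy r4
        · exact hy r5
        · exact hy r2
        · exact hy r3
        · exact hy r6
        · rw [hu1] at e; exact a3 e
        · rw [hu2] at e; exact a4 e)
  have gH : g ∈ S.G (Set.Ici (c + 2)) := by
    have := mul_mem grH (inv_mem (mul_mem rH rH))
    rwa [mul_inv_cancel_right] at this
  have gD := S.ipG (c + 2) (c + 3) (Subgroup.mem_inf.2 ⟨gL, gH⟩)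
  have eG : S.G (Set.Icc (c + 2) (c + 3)) = _ := S.G_pair' (c + 2)
  rw [eG] at gD
  have b1 := S.lo_δ x1
  have b2 := S.hi_δ x1
  have b3 := S.hi_δ p
  have b4 := h.two_hi hb h.lw
  have b5 := h.two_hi hb h.lu2
  have := h.lx1; have := h.hx1; have := h.lp; have := h.hp; have := h.hx2; have := h.lu1
  have := dk44 (S.inv _) (S.inv _) gD f2 h.eu f3 f6 f7 (S.lc_ne_lo (by omega)) h.nuu
    (S.lc_ne_hi (by omega))
    (gfix _ (S.lc_ne_hi (by omega)) (S.lc_ne_hi (by omega)) (S.lc_ne_hi (by omega))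
      (S.lc_ne_hi (by omega)))
    (gfix _ (k _ _ h.lx1 h.lu1).symm (k _ _ h.lp h.lu1).symm h.n2u1.symm h.nwu1.symm)
    (gfix _ (k _ _ h.lx1 h.lu2).symm (k _ _ h.lp h.lu2).symm h.n2u2.symm h.nwu2.symm)
    (gfix _ (S.lc_ne_hi (by omega)) (S.lc_ne_hi (by omega)) (S.lc_ne_hi (by omega))
      (S.lc_ne_hi (by omega)))
    h.e1 f1 (S.ρ_swap h.ep) f5 hb
  rw [g1] at this
  exact n1p this.symm

theorem LC.caseB (h : LC S x x1 x2 w p q w' u1 u2) (hx : S.δ x2 = u1) : False := by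
  have a1 := S.hi_δ x2
  rw [hx, h.lx2] at a1
  by_cases hb : S.ρ (c + 3) p = p
  swap
  · have := (h.one hb).2.1; omega
  have hu1 := S.δ_swap hx
  rcases h.two_δ hb h.lu2 with e | e | e | e | e
  · have := S.δ_swap e; rw [hx] at this; exact h.nuu this
  · exact h.caseIIb hb hx e
  · exact h.sw1.caseIIb (h.fixq hb) hx e
  · have := S.δ_swap e; rw [hu1] at this; exact h.n2u2 this
  · have f1 : S.ρ (c + 3) x2 = u2 := by
      have := lc_d3 S h.eu; rwa [hu1, e] at this
    have f2 : S.ρ (c + 3) (S.δ x1) = u1 := by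
      have := lc_d3 S h.e1; rwa [hx] at this
    have f3 : S.ρ (c + 4) (S.δ x1) = S.δ x := by
      rw [S.δ_edge (i := c + 1) (by omega), S.ρ_swap h.e0]
    have b1 := S.lo_δ x1
    have b2 := S.hi_δ x1
    have b3 := S.hi_δ x
    have b4 := h.al.2.2.1
    have := h.lx1; have := h.hx1; have := h.lp; have := h.hp
    have := lc_closed h.al (V := {x1, x2, u2, u1, S.δ x1}) (by simp [h.e0]) (by simp [h.e0]) (by
      intro i z hz
      simp only [Set.mem_insert_iff, Set.mem_singleton_iff] at hz ⊢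
      rcases hz with k | k | k | k | k <;> rw [k]
      · rcases S.lc_two (l := c + 1) h.lx1.ge h.hx1.le i with a | a | a
        · simp [a]
        · rw [a, S.ρ_swap h.e0]; right; left; omega
        · rw [a, h.e1]; simp
      · rcases S.lc_two (l := c + 2) h.lx2.ge h.hx2.le i with a | a | a
        · simp [a]
        · rw [a, S.ρ_swap h.e1]; simp
        · rw [a, f1]; simp
      · rcases S.lc_two (l := c + 2) h.lu2.ge (h.two_hi hb h.lu2) i with a | a | a
        · simp [a]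
        · rw [a, S.ρ_swap h.eu]; simp
        · rw [a, S.ρ_swap f1]; simp
      · rcases S.lc_two (l := c + 2) h.lu1.ge (h.two_hi hb h.lu1) i with a | a | a
        · simp [a]
        · rw [a, h.eu]; simp
        · rw [a, S.ρ_swap f2]; simp
      · rcases S.lc_two (z := S.δ x1) (l := c + 3) (by omega) (by omega) i with a | a | a
        · simp [a]
        · rw [a, f2]; simp
        · rw [a, f3]; right; right; omega) p
    simp only [Set.mem_insert_iff, Set.mem_singleton_iff] at this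
    rcases this with (k | k | k | k | k) | k | k
    · exact h.n1p k.symm
    · have := h.lx2; rw [← k] at this; omega
    · have := h.lu2; rw [← k] at this; omega
    · have := h.lu1; rw [← k] at this; omega
    · rw [← k] at b1; omega
    · omega
    · omega

theorem LC.false (h : LC S x x1 x2 w p q w' u1 u2) : False := by
  have a1 := S.lo_δ x2
  rw [h.hx2] at a1
  rcases h.lev2 (z := S.δ x2) (by omega) with e | e | e | e | e
  · exact h.nδ e
  · exact h.caseA e
  · exact h.sw1.caseA e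
  · exact h.caseB e
  · exact h.sw2.caseB e

theorem lc_x2 (h : S.AlX c x) (e0 : S.ρ (c + 1) x = x1) (e1 : S.ρ (c + 2) x1 = x2)
    (lx2 : S.lo x2 = c + 2) (lp : S.lo p = c + 1) (hp4 : S.hi p ≤ c + 4) (n1p : x1 ≠ p) :
    S.hi x2 = c + 3 ∧ S.δ x2 ≠ x2 := by
  obtain ⟨lx1, hx1⟩ := h.x1
  rw [e0] at lx1 hx1
  have n2p : x2 ≠ p := S.lc_ne_lo (by omega)
  have lx := h.2.2.1
  have hx2' : S.hi x2 ≤ c + 3 := S.hi_le (by
    intro j hj
    rw [← e1, S.fix_comm (by omega)]
    exact S.fix_hi (by omega))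
  have hx2 : S.hi x2 = c + 3 := by
    by_contra hh
    have := S.conn (U := {y | S.lo y ≤ c ∨ y = x1 ∨ y = x2}) (x := x1) (by simp) (by
      rintro i z (hz | hz | hz)
      · rcases lc_low h hz i with k | k
        · exact Or.inl k
        · rw [e0] at k; exact Or.inr (Or.inl k)
      · rw [hz]
        rcases S.lc_two (l := c + 1) lx1.ge hx1.le i with a | a | a
        · exact Or.inr (Or.inl a)
        · rw [a, S.ρ_swap e0]; exact Or.inl lx.le
        · rw [a]; exact Or.inr (Or.inr e1)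
      · rw [hz]
        rcases S.lc_two (z := x2) (l := c + 1) (by omega) (by omega) i with a | a | a
        · exact Or.inr (Or.inr a)
        · rw [a]; exact Or.inr (Or.inr (S.fix_lo (by omega)))
        · rw [a]; exact Or.inr (Or.inl (S.ρ_swap e1))) p
    rcases this with k | k | k
    · omega
    · exact n1p k.symm
    · exact n2p k.symm
  refine ⟨hx2, fun e => ?_⟩
  have b1 := S.lo_δ x1
  have b2 := S.hi_δ x1
  have b3 := S.hi_δ x
  have f2 : S.ρ (c + 3) (S.δ x1) = x2 := by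
    have := lc_d3 S e1; rwa [e] at this
  have f3 : S.ρ (c + 4) (S.δ x1) = S.δ x := by
    rw [S.δ_edge (i := c + 1) (by omega), S.ρ_swap e0]
  have := lc_closed h (V := {x1, x2, S.δ x1}) (by simp [e0]) (by simp [e0]) (by
    intro i z hz
    simp only [Set.mem_insert_iff, Set.mem_singleton_iff] at hz ⊢
    rcases hz with k | k | k <;> rw [k]
    · rcases S.lc_two (l := c + 1) lx1.ge hx1.le i with a | a | a
      · simp [a]
      · rw [a, S.ρ_swap e0]; right; left; omega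
      · rw [a, e1]; simp
    · rcases S.lc_two (l := c + 2) lx2.ge hx2.le i with a | a | a
      · simp [a]
      · rw [a, S.ρ_swap e1]; simp
      · rw [a, S.ρ_swap f2]; simp
    · rcases S.lc_two (z := S.δ x1) (l := c + 3) (by omega) (by omega) i with a | a | a
      · simp [a]
      · rw [a, f2]; simp
      · rw [a, f3]; right; right; omega) p
  simp only [Set.mem_insert_iff, Set.mem_singleton_iff] at this
  rcases this with (k | k | k) | k | k
  · exact n1p k.symm
  · exact n2p k.symm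
  · rw [← k] at b1; omega
  · omega
  · omega

theorem lc_supp (h : S.AlX c x) (hH : S.H c ≤ c) :
    (S.supp (c + 1)).card = (univ.filter (fun z => S.lo z = c)).card +
      (univ.filter (fun z => S.lo z = c + 1 ∧ S.hi z ≤ c + 3)).card +
      (univ.filter (fun z => S.lo z = c + 1 ∧ S.hi z = c + 4)).card := by
  unfold supp
  simp only [card_filter, ← sum_add_distrib]
  refine sum_congr rfl (fun y _ => ?_)
  have j1 : S.lo y < c → S.hi y ≤ c := fun a => (S.hi_le_H a).trans hH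
  have j2 := lc_hi h (by omega) (z := y)
  by_cases mv : S.ρ (c + 1) y = y
  · have j3 : S.lo y ≠ c + 1 := fun a => by
      have := S.mv_lo y; rw [a] at this; exact this mv
    have j4 : S.lo y ≠ c := fun a => by
      have := S.mv_hi x; rw [h.hi_x, ← h.2.2.2 y a] at this; exact this mv
    rw [if_neg (not_not.2 mv)]
    split_ifs <;> omega
  · have := S.lo_le mv
    have := S.le_hi mv
    rw [if_pos mv]
    split_ifs <;> omega

theorem lc_W (h : S.AlX c x) (hH : S.H c ≤ c + 1) {y z0 : Ω} (ly : S.lo y = c + 2)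
    (hz0 : S.lo z0 = c + 1) (hh : ¬ S.hi z0 ≤ c + 3) :
    1 < (univ.filter (fun z => S.lo z = c + 1 ∧ S.hi z = c + 4)).card ∧
    2 < (univ.filter (fun z => S.lo z = c + 1 ∧ S.hi z ≤ c + 3)).card := by
  obtain ⟨lx1, hx1⟩ := h.x1
  obtain ⟨x1, e0⟩ : ∃ x1, S.ρ (c + 1) x = x1 := ⟨_, rfl⟩
  rw [e0] at lx1 hx1
  obtain ⟨O, hO, z, hzO, hz⟩ := S.exists_O1 (y := y) (by omega)
    ⟨z0, S.mem_W.2 ⟨by omega, by omega⟩⟩
  obtain ⟨k1, k2⟩ := S.Orbs_W (by omega) hO hzO
  have lz : S.lo z = c + 1 := by have := lc_lo h hH (z := z); omega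
  have hiz : S.hi z = c + 4 := by have := lc_hi h hH (z := z) (by omega); omega
  have mz : S.ρ (c + 1) z ≠ z := by have := S.mv_lo z; rwa [lz] at this
  have hi2 : S.hi (S.ρ (c + 1) z) = c + 4 := by rw [S.hi_far (by omega), hiz]
  have lo2 : S.lo (S.ρ (c + 1) z) = c + 1 := by
    have := lc_lo h hH (z := S.ρ (c + 1) z)
    have := S.lo_step (c + 1) z
    omega
  have lo3 : S.lo (S.ρ (c + 3) z) = c + 1 := by rw [S.lo_far (by omega), lz]
  have lo4 : S.lo (S.ρ (c + 3) (S.ρ (c + 1) z)) = c + 1 := by rw [S.lo_far (by omega), lo2]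
  have hi4 : S.hi (S.ρ (c + 3) (S.ρ (c + 1) z)) ≤ c + 3 := S.hi_le (by
    intro j hj
    rw [← S.comm (c + 1) (c + 3) (by omega), S.fix_comm (by omega)]
    exact S.fix_hi (by omega))
  have f5 : S.ρ (c + 3) x1 = x1 := S.fix_hi (by omega)
  refine ⟨one_lt_card.2 ⟨S.ρ (c + 1) z, mem_filter.2 ⟨mem_univ _, lo2, hi2⟩,
      z, mem_filter.2 ⟨mem_univ _, lz, hiz⟩, mz⟩,
    two_lt_card_iff.2 ⟨x1, S.ρ (c + 3) z, S.ρ (c + 3) (S.ρ (c + 1) z),
      mem_filter.2 ⟨mem_univ _, lx1, by omega⟩, mem_filter.2 ⟨mem_univ _, lo3, by omega⟩,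
      mem_filter.2 ⟨mem_univ _, lo4, hi4⟩, fun e => ?_, fun e => ?_,
      fun e => mz (S.ρ_inj e).symm⟩⟩
  · have := S.ρ_swap e.symm
    rw [f5] at this; rw [← this] at hiz; omega
  · have := S.ρ_swap e.symm
    rw [f5] at this; rw [← this] at hi2; omega

theorem lc_lev (h : S.AlX c x) (hH : S.H c ≤ c + 1) (hI : S.Inv c) (lx2 : S.lo x2 = c + 2)
    (hx2 : S.hi x2 = c + 3) (nδ : S.δ x2 ≠ x2) (h3 : 3 ≤ S.a (c + 1)) :
    (∀ z, S.lo z = c + 1 → S.hi z ≤ c + 3) ∧ S.a (c + 1) = 3 ∧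
      (univ.filter (fun z => c + 2 ≤ S.lo z ∧ S.hi z ≤ c + 3)).card ≤ 5 := by
  have cC : 1 < (univ.filter (fun z => c + 2 ≤ S.lo z ∧ S.hi z ≤ c + 3)).card :=
    one_lt_card.2 ⟨S.δ x2, mem_filter.2 ⟨mem_univ _, by have := S.lo_δ x2; omega,
        by have := S.hi_δ x2; omega⟩,
      x2, mem_filter.2 ⟨mem_univ _, lx2.ge, hx2.le⟩, nδ⟩
  have cnt := lc_count h
  obtain ⟨hA, hB, -⟩ := hI
  have noW : ∀ z, S.lo z = c + 1 → S.hi z ≤ c + 3 := by
    intro z0 hz0
    by_contra hh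
    obtain ⟨cW, cX⟩ := lc_W h hH lx2 hz0 hh
    have cs := lc_supp h
    have e1c : (univ.filter (fun z => S.lo z = c)).card = 1 := h.al.2.2
    rw [e1c] at cs
    have := S.four_dvd_supp (c + 1)
    generalize (univ.filter (fun z => c + 2 ≤ S.lo z ∧ S.hi z ≤ c + 3)).card = nC at *
    generalize (univ.filter (fun z => S.lo z = c + 1 ∧ S.hi z ≤ c + 3)).card = nX at *
    generalize (univ.filter (fun z => S.lo z = c + 1 ∧ S.hi z = c + 4)).card = nW at *
    omega
  have eX : univ.filter (fun z => S.lo z = c + 1 ∧ S.hi z ≤ c + 3) = S.lev (c + 1) := by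
    ext z
    simp only [mem_lev, mem_filter, mem_univ, true_and]
    exact ⟨fun a => a.1, fun a => ⟨a, noW z a⟩⟩
  have hodd := h.odd
  rw [Nat.odd_iff] at hodd
  rw [eX] at cnt
  unfold a at *
  refine ⟨noW, ?_⟩
  generalize (univ.filter (fun z => c + 2 ≤ S.lo z ∧ S.hi z ≤ c + 3)).card = nC at *
  generalize (univ.filter (fun z => S.lo z = c + 1 ∧ S.hi z = c + 4)).card = nW at *
  omega

theorem lc_altU (h : S.AlX c x) (hp : S.Prim c x) :
    AltIn (S.G (Set.Iic (c + 3))) {z | S.R (Set.Icc (c + 1) (c + 3)) x z} := by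
  obtain ⟨lx1, hx1⟩ := h.x1
  obtain ⟨lx2, halt⟩ := hp
  have lx := h.2.2.1
  have hx := h.hi_x
  have t1 := halt.mono (H' := S.G (Set.Icc (c + 1) (c + 3))) (by
    rw [Subgroup.closure_le]
    rintro g (hg | hg) <;> rw [hg]
    · exact S.ρ_mem ⟨by omega, by omega⟩
    · exact S.ρ_mem ⟨by omega, by omega⟩) subset_rfl
  refine (S.altR t1 (S.lc_ne_lo (by omega)) (S.lc_ne_lo (by omega)) (S.lc_ne_lo (by omega))
    ?_).mono (S.G_mono Set.Icc_subset_Iic_self) subset_rfl
  intro i hi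
  refine ⟨x, by simp, ?_⟩
  by_cases a : i = c + 1
  · rw [a]; simp
  · rw [S.fix_hi (x := x) (i := i) (by have := hi.1; omega)]; simp

theorem lc_main (h : S.AlX c x) (hH : S.H c ≤ c + 1) (hp : S.Prim c x)
    (ha : 2 ≤ S.a (c + 1)) (hI : S.Inv c) : False := by
  obtain ⟨w, p, q, w', u1, u2, lw, lp, lq, ea, ep, eq, eu, lw', lu1, lu2, nd⟩ := h.eight hH hp ha
  have altU := lc_altU h hp
  obtain ⟨lx1, hx1⟩ := h.x1
  obtain ⟨lx2, -⟩ := hp
  obtain ⟨x1, e0⟩ : ∃ x1, S.ρ (c + 1) x = x1 := ⟨_, rfl⟩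
  rw [e0] at nd lx1 hx1 lx2
  obtain ⟨x2, e1⟩ : ∃ x2, S.ρ (c + 2) x1 = x2 := ⟨_, rfl⟩
  rw [e1] at nd lx2
  simp only [List.nodup_cons, List.mem_cons, List.not_mem_nil, or_false, not_or,
    not_false_eq_true, List.nodup_nil, and_true] at nd
  obtain ⟨⟨n12, n1w, n1p, n1q, n1w', n1u1, n1u2⟩, ⟨n2w, n2p, n2q, n2w', n2u1, n2u2⟩,
    ⟨nwp, nwq, nww, nwu1, nwu2⟩, ⟨npq, npw', npu1, npu2⟩, ⟨nqw', nqu1, nqu2⟩, ⟨nw'u1, nw'u2⟩,
    nuu⟩ := nd
  obtain ⟨hx2, nδ⟩ := lc_x2 h e0 e1 lx2 lp (lc_hi h hH (by rw [lp]; omega)) n1p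
  have s3 : ({x1, p, q} : Finset Ω) ⊆ S.lev (c + 1) := by
    intro z hz
    simp only [mem_insert, mem_singleton] at hz
    rw [mem_lev]
    rcases hz with e | e | e <;> rw [e] <;> assumption
  have c3 : ({x1, p, q} : Finset Ω).card = 3 := card_eq_three.2 ⟨x1, p, q, n1p, n1q, npq, rfl⟩
  obtain ⟨noW, a3, cC⟩ := lc_lev h hH hI lx2 hx2 nδ (c3.ge.trans (card_le_card s3))
  have e3 := eq_of_subset_of_card_le s3 (by rw [c3]; exact a3.le)
  have lev : ∀ z, S.lo z = c + 1 → z = x1 ∨ z = p ∨ z = q := by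
    intro z hz
    have : z ∈ ({x1, p, q} : Finset Ω) := by rw [e3, mem_lev]; exact hz
    simpa only [mem_insert, mem_singleton] using this
  have up : ∀ z, (S.lo z = c + 1 ∨ S.lo z = c + 2) → x1 ≠ z → p ≠ z → q ≠ z →
      S.lo z = c + 2 := by
    intro z hz a1 a2 a3
    refine hz.resolve_left (fun e => ?_)
    rcases lev z e with k | k | k
    exacts [a1 k.symm, a2 k.symm, a3 k.symm]
  exact LC.false (S := S) (x := x) (x1 := x1) (x2 := x2) (w := w) (p := p) (q := q) (w' := w')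
    (u1 := u1) (u2 := u2)
    { al := h, e0 := e0, e1 := e1, ea := ea, ep := ep, eq := eq, eu := eu, lx1 := lx1
      hx1 := hx1, lx2 := lx2, hx2 := hx2, lp := lp, lq := lq, hp := noW p lp, hq := noW q lq
      lw := lw, lw' := up _ lw' n1w' npw' nqw', lu1 := up _ lu1 n1u1 npu1 nqu1
      lu2 := up _ lu2 n1u2 npu2 nqu2, n1p := n1p, n1q := n1q, npq := npq, n2w := n2w
      n2w' := n2w', n2u1 := n2u1, n2u2 := n2u2, nww := nww, nwu1 := nwu1, nwu2 := nwu2
      nw'u1 := nw'u1, nw'u2 := nw'u2, nuu := nuu, nδ := nδ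
      low := fun z hz => lc_lo h hH hz, top := fun z hz => lc_hi h hH hz, lev := lev
      cardC := cC, altU := altU }

end

variable {m : ℕ} {S : SD Ω m} {c : ℕ} {x : Ω}

theorem AlX.last2 (h : S.AlX c x) (hc : c + 3 = m) (hH : S.H c ≤ c + 1) (hp : S.Prim c x)
    (hl : ∀ i, c < i → i < m → 2 ≤ S.a i) (hI : S.Inv c) : False := by
  subst hc
  exact lc_main h hH hp (hl _ (by omega) (by omega)) hI

end SD
end D145
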