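import Pool.Agent.MP_d145c0_al.H75.G1
import Pool.Agent.MP_d145c0_al.H75.CV0

/-! Cut vertex: the exceptional gap is impossible. -/

namespace D145
open Equiv Finset

theorem ls_card {Ω : Type} [DecidableEq Ω] {F : Finset Ω} {l : List Ω} (hn : l.Nodup)
    (h : ∀ z, z ∈ F ↔ z ∈ l) : F.card = l.length := by
  rw [← List.toFinset_card_of_nodup hn]
  congr 1
  ext z
  rw [h, List.mem_toFinset]

theorem ls_le {Ω : Type} [DecidableEq Ω] {F : Finset Ω} {l : List Ω} (hn : l.Nodup)
    (h : ∀ z ∈ l, z ∈ F) : l.length ≤ F.card := by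
  rw [← List.toFinset_card_of_nodup hn]
  exact Finset.card_le_card fun z hz => h z (List.mem_toFinset.1 hz)

theorem ls_full {Ω : Type} [DecidableEq Ω] {F : Finset Ω} {l : List Ω} (hn : l.Nodup)
    (h : ∀ z ∈ l, z ∈ F) (hc : F.card ≤ l.length) : ∀ z ∈ F, z ∈ l := by
  have e : l.toFinset = F := Finset.eq_of_subset_of_card_le
    (fun z hz => h z (List.mem_toFinset.1 hz)) (by rw [List.toFinset_card_of_nodup hn]; exact hc)
  intro z hz
  rw [← e] at hz
  exact List.mem_toFinset.1 hz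

namespace SD
variable {Ω : Type} [Fintype Ω] [DecidableEq Ω] {m : ℕ} {S : SD Ω m} {c c' : ℕ} {x x' v : Ω}

/-- the two levels above the lower single level -/
structure LCfg (S : SD Ω m) (c' : ℕ) (x' x1 x2 w p q w' u1 u2 : Ω) : Prop where
  al : S.AlX c' x'
  low : ∀ z, S.lo z < c' → ∀ i, c' < i → S.ρ i z = z
  e1 : S.ρ (c' + 1) x' = x1
  e2 : S.ρ (c' + 2) x1 = x2
  ea : S.ρ (c' + 1) p = q
  ep : S.ρ (c' + 2) p = w
  eq : S.ρ (c' + 2) q = w'
  eu : S.ρ (c' + 2) u1 = u2
  lp : S.lo p = c' + 1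
  lq : S.lo q = c' + 1
  l2 : S.lo x2 = c' + 2
  lw : S.lo w = c' + 2
  lw' : S.lo w' = c' + 2
  lu1 : S.lo u1 = c' + 2
  lu2 : S.lo u2 = c' + 2
  n1 : p ≠ x1
  n2 : q ≠ x1
  la : ∀ z, S.lo z = c' + 1 → z = x1 ∨ z = p ∨ z = q
  lb : ∀ z, S.lo z = c' + 2 → z = x2 ∨ z = w ∨ z = w' ∨ z = u1 ∨ z = u2

variable {x1 x2 w p q w' u1 u2 : Ω}

namespace LCfg

theorem sw2 (C : S.LCfg c' x' x1 x2 w p q w' u1 u2) : S.LCfg c' x' x1 x2 w' q p w u1 u2 :=
  { C with
    ea := S.ρ_swap C.ea, ep := C.eq, eq := C.ep, lp := C.lq, lq := C.lp, lw := C.lw',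
    lw' := C.lw, n1 := C.n2, n2 := C.n1
    la := fun z hz => by have := C.la z hz; tauto
    lb := fun z hz => by have := C.lb z hz; tauto }

theorem sw3 (C : S.LCfg c' x' x1 x2 w p q w' u1 u2) : S.LCfg c' x' x1 x2 w p q w' u2 u1 :=
  { C with
    eu := S.ρ_swap C.eu, lu1 := C.lu2, lu2 := C.lu1
    lb := fun z hz => by have := C.lb z hz; tauto }

variable (C : S.LCfg c' x' x1 x2 w p q w' u1 u2)
include C

theorem l0 : S.lo x' = c' := C.al.2.2.1

theorem l1 : S.lo x1 = c' + 1 := C.e1 ▸ C.al.lo_x1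

theorem npq : p ≠ q := fun e => S.mv_lo p (by rw [C.lp, C.ea, e])

theorem nu : u1 ≠ u2 := fun e => S.mv_lo u1 (by rw [C.lu1, C.eu, e])

theorem nw : w ≠ w' := fun e => C.npq (S.ρ_inj (i := c' + 2) (by rw [C.ep, C.eq, e]))

theorem n2w : x2 ≠ w := fun e => C.n1 (S.ρ_inj (i := c' + 2) (by rw [C.ep, C.e2, e]))

theorem n2u : x2 ≠ u1 := fun e => by
  have h1 := S.ρ_swap C.e2
  rw [e, C.eu] at h1
  have := C.l1; have := C.lu2; rw [h1] at this; omega

theorem nwu : w ≠ u1 := fun e => by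
  have h1 := S.ρ_swap C.ep
  rw [e, C.eu] at h1
  have := C.lp; have := C.lu2; rw [h1] at this; omega

theorem f0 {i : ℕ} (hi : c' + 2 ≤ i) : S.ρ i x' = x' := C.al.fix_x hi

theorem f1 {i : ℕ} (hi : c' + 3 ≤ i) : S.ρ i x1 = x1 :=
  S.fix_hi (by rw [← C.e1, C.al.x1.2]; omega)

theorem f2 {i : ℕ} (hi : c' + 4 ≤ i) : S.ρ i x2 = x2 := by
  rw [← C.e2, S.fix_comm (Or.inl (by omega))]; exact C.f1 (by omega)

theorem pq {i : ℕ} (hi : c' + 3 ≤ i) : S.ρ i p = p ∨ S.ρ i p = q := by
  have h1 : S.lo (S.ρ i p) = c' + 1 := by rw [S.lo_far (by rw [C.lp]; omega), C.lp]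
  rcases C.la _ h1 with h | h | h
  · exact absurd (S.ρ_inj (h.trans (C.f1 hi).symm)) C.n1
  exacts [.inl h, .inr h]

theorem ww {i : ℕ} (hi : c' + 4 ≤ i) : S.ρ i w = w ∨ S.ρ i w = w' := by
  rw [← C.ep, ← S.comm (c' + 2) i (by omega)]
  rcases C.pq (i := i) (by omega) with h | h
  · left; rw [h]
  · right; rw [h, C.eq]

theorem uu {i : ℕ} (hi : c' + 4 ≤ i) : S.ρ i u1 = u1 ∨ S.ρ i u1 = u2 := by
  have h1 : S.lo (S.ρ i u1) = c' + 2 := by rw [S.lo_far (by rw [C.lu1]; omega), C.lu1]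
  rcases C.lb _ h1 with h | h | h | h | h
  · exact absurd (S.ρ_inj (h.trans (C.f2 hi).symm)).symm C.n2u
  · have h2 := S.ρ_swap h
    rcases C.ww hi with k | k
    · exact absurd (k.symm.trans h2) C.nwu
    · exact absurd (k.symm.trans h2) C.sw2.nwu
  · have h2 := S.ρ_swap h
    rcases C.sw2.ww hi with k | k
    · exact absurd (k.symm.trans h2) C.sw2.nwu
    · exact absurd (k.symm.trans h2) C.nwu
  exacts [.inl h, .inr h]

theorem K1 {i : ℕ} (hi : c' + 1 ≤ i) {z : Ω} (hz : z = x' ∨ z = x1 ∨ z = x2)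
    (hd : i ≠ c' + 3 ∨ z ≠ x2) : S.ρ i z = x' ∨ S.ρ i z = x1 ∨ S.ρ i z = x2 := by
  rcases hz with rfl | rfl | rfl
  · rcases hi.eq_or_lt with rfl | h
    · exact .inr (.inl C.e1)
    · exact .inl (C.f0 h)
  · rcases (by omega : i = c' + 1 ∨ i = c' + 2 ∨ c' + 3 ≤ i) with rfl | rfl | h
    · exact .inl (S.ρ_swap C.e1)
    · exact .inr (.inr C.e2)
    · exact .inr (.inl (C.f1 h))
  · have hd' : i ≠ c' + 3 := hd.resolve_right (fun h => h rfl)
    rcases (by omega : i = c' + 1 ∨ i = c' + 2 ∨ c' + 4 ≤ i) with rfl | rfl | h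
    · exact .inr (.inr (S.fix_lo (by rw [C.l2]; omega)))
    · exact .inr (.inl (S.ρ_swap C.e2))
    · exact .inr (.inr (C.f2 h))

theorem Kp (i : ℕ) : S.ρ i p = w ∨ S.ρ i p = p ∨ S.ρ i p = q := by
  rcases (by omega : i < c' + 1 ∨ i = c' + 1 ∨ i = c' + 2 ∨ c' + 3 ≤ i) with h | rfl | rfl | h
  · exact .inr (.inl (S.fix_lo (by rw [C.lp]; exact h)))
  · exact .inr (.inr C.ea)
  · exact .inl C.ep
  · exact .inr (C.pq h)

theorem Kw {i : ℕ} (hd : i ≠ c' + 3) : S.ρ i w = w ∨ S.ρ i w = p ∨ S.ρ i w = w' := by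
  rcases (by omega : i < c' + 2 ∨ i = c' + 2 ∨ c' + 4 ≤ i) with h | rfl | h
  · exact .inl (S.fix_lo (by rw [C.lw]; exact h))
  · exact .inr (.inl (S.ρ_swap C.ep))
  · have := C.ww h; tauto

theorem K2 {i : ℕ} {z : Ω} (hz : z = w ∨ z = p ∨ z = q ∨ z = w')
    (hd : i ≠ c' + 3 ∨ (z ≠ w ∧ z ≠ w')) :
    S.ρ i z = w ∨ S.ρ i z = p ∨ S.ρ i z = q ∨ S.ρ i z = w' := by
  rcases hz with rfl | rfl | rfl | rfl
  · have := C.Kw (hd.resolve_right fun h => h.1 rfl); tauto
  · have := C.Kp i; tauto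
  · have := C.sw2.Kp i; tauto
  · have := C.sw2.Kw (hd.resolve_right fun h => h.2 rfl); tauto

theorem Ku {i : ℕ} (hd : i ≠ c' + 3) : S.ρ i u1 = u1 ∨ S.ρ i u1 = u2 := by
  rcases (by omega : i < c' + 2 ∨ i = c' + 2 ∨ c' + 4 ≤ i) with h | rfl | h
  · exact .inl (S.fix_lo (by rw [C.lu1]; exact h))
  · exact .inr C.eu
  · exact C.uu h

theorem K3 {i : ℕ} {z : Ω} (hz : z = u1 ∨ z = u2) (hd : i ≠ c' + 3) :
    S.ρ i z = u1 ∨ S.ρ i z = u2 := by
  rcases hz with rfl | rfl
  · exact C.Ku hd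
  · exact (C.sw3.Ku hd).symm

theorem noA {t : Ω} (ht : c' + 3 ≤ S.lo t) {P : Ω → Prop} (hx : P x')
    (hl : ∀ z, P z → S.lo z ≤ c' + 2) (hP : ∀ i, c' + 1 ≤ i → ∀ z, P z → P (S.ρ i z)) :
    False := by
  rcases C.al.closed hx hP t with h | h
  · omega
  · have := hl t h; omega

theorem no1 {t : Ω} (ht : c' + 3 ≤ S.lo t) (h : S.ρ (c' + 3) x2 = x2) : False := by
  refine C.noA ht (P := fun z => z = x' ∨ z = x1 ∨ z = x2) (.inl rfl) ?_ ?_
  · have := C.l0; have := C.l1; have := C.l2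
    rintro z (rfl | rfl | rfl) <;> omega
  · intro i hi z hz
    by_cases e : i ≠ c' + 3 ∨ z ≠ x2
    · exact C.K1 hi hz e
    · push Not at e
      rw [e.1, e.2]; exact .inr (.inr h)

theorem no12 {t : Ω} (ht : c' + 3 ≤ S.lo t) (h : ∀ z, z = x2 ∨ z = w ∨ z = w' →
    S.ρ (c' + 3) z = x2 ∨ S.ρ (c' + 3) z = w ∨ S.ρ (c' + 3) z = w') : False := by
  refine C.noA ht (P := fun z => (z = x' ∨ z = x1 ∨ z = x2) ∨ (z = w ∨ z = p ∨ z = q ∨ z = w'))
    (.inl (.inl rfl)) ?_ ?_
  · have := C.l0; have := C.l1; have := C.l2; have := C.lw; have := C.lp; have := C.lq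
    have := C.lw'
    rintro z ((rfl | rfl | rfl) | rfl | rfl | rfl | rfl) <;> omega
  · intro i hi z hz
    by_cases e : i = c' + 3 ∧ (z = x2 ∨ z = w ∨ z = w')
    · have := h z e.2
      rw [e.1]; tauto
    · rcases hz with hz | hz
      · exact .inl (C.K1 hi hz (by tauto))
      · exact .inr (C.K2 hz (by tauto))

theorem no13 {t : Ω} (ht : c' + 3 ≤ S.lo t) (h : ∀ z, z = x2 ∨ z = u1 ∨ z = u2 →
    S.ρ (c' + 3) z = x2 ∨ S.ρ (c' + 3) z = u1 ∨ S.ρ (c' + 3) z = u2) : False := by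
  refine C.noA ht (P := fun z => (z = x' ∨ z = x1 ∨ z = x2) ∨ (z = u1 ∨ z = u2))
    (.inl (.inl rfl)) ?_ ?_
  · have := C.l0; have := C.l1; have := C.l2; have := C.lu1; have := C.lu2
    rintro z ((rfl | rfl | rfl) | rfl | rfl) <;> omega
  · intro i hi z hz
    by_cases e : i = c' + 3 ∧ (z = x2 ∨ z = u1 ∨ z = u2)
    · have := h z e.2
      rw [e.1]; tauto
    · rcases hz with hz | hz
      · exact .inl (C.K1 hi hz (by tauto))
      · exact .inr (C.K3 hz (by tauto))

theorem no3 (h : ∀ z, z = u1 ∨ z = u2 → S.ρ (c' + 3) z = u1 ∨ S.ρ (c' + 3) z = u2) : False := by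
  have h1 := S.conn (U := {z | z = u1 ∨ z = u2}) (x := u1) (.inl rfl) (by
    intro i z hz
    by_cases e : i = c' + 3
    · rw [e]; exact h z hz
    · exact C.K3 hz e) x'
  have := C.l0; have := C.lu1; have := C.lu2
  rcases h1 with rfl | rfl <;> omega

theorem no23 (h : ∀ z, z = w ∨ z = w' ∨ z = u1 ∨ z = u2 → S.ρ (c' + 3) z = w ∨
    S.ρ (c' + 3) z = w' ∨ S.ρ (c' + 3) z = u1 ∨ S.ρ (c' + 3) z = u2) : False := by
  have h1 := S.conn (U := {z | (z = w ∨ z = p ∨ z = q ∨ z = w') ∨ (z = u1 ∨ z = u2)}) (x := u1)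
    (.inr (.inl rfl)) (by
    intro i z hz
    by_cases e : i = c' + 3 ∧ (z = w ∨ z = w' ∨ z = u1 ∨ z = u2)
    · have := h z e.2
      rw [e.1, Set.mem_ofPred_eq]; tauto
    · rcases hz with hz | hz
      · exact .inl (C.K2 hz (by tauto))
      · exact .inr (C.K3 hz (by tauto))) x'
  have := C.l0; have := C.lu1; have := C.lu2; have := C.lw; have := C.lp; have := C.lq
  have := C.lw'
  rcases h1 with (rfl | rfl | rfl | rfl) | rfl | rfl <;> omega

/-- orbit of the lower single point under three labels -/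
theorem r2 : S.R (Set.Icc (c' + 1) (c' + 3)) x' x2 :=
  ((S.R_refl (Set.Icc (c' + 1) (c' + 3)) x').step' (i := c' + 1) ⟨by omega, by omega⟩
    C.e1).step' (i := c' + 2)
    ⟨by omega, by omega⟩ C.e2

theorem rw2 (h : S.R (Set.Icc (c' + 1) (c' + 3)) x' w) :
    S.R (Set.Icc (c' + 1) (c' + 3)) x' w' :=
  ((h.step' (i := c' + 2) ⟨by omega, by omega⟩ (S.ρ_swap C.ep)).step' (i := c' + 1)
    ⟨by omega, by omega⟩ C.ea).step' (i := c' + 2) ⟨by omega, by omega⟩ C.eq

theorem ru2 (h : S.R (Set.Icc (c' + 1) (c' + 3)) x' u1) :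
    S.R (Set.Icc (c' + 1) (c' + 3)) x' u2 :=
  h.step' (i := c' + 2) ⟨by omega, by omega⟩ C.eu

omit C in
theorem rd {y z : Ω} (h : S.R (Set.Icc (c' + 1) (c' + 3)) x' y) (e : S.ρ (c' + 3) y = z) :
    S.R (Set.Icc (c' + 1) (c' + 3)) x' z :=
  h.step' (i := c' + 3) ⟨by omega, by omega⟩ e

/-- adjacent case, the point below the upper single point is `u2` -/
theorem adj_u (h : S.AlX (c' + 3) x) (hy : S.ρ (c' + 3) u2 = x)
    (stay : ∀ z, S.lo z = c' + 2 → z ≠ u2 → S.lo (S.ρ (c' + 3) z) = c' + 2)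
    (key : S.R (Set.Icc (c' + 1) (c' + 3)) x' u2 → S.ρ (c' + 3) u1 = u1)
    (hs : S.ρ (c' + 3) x2 = w) : False := by
  have hx := h.2.2.1
  have hn : ∀ z, S.lo z = c' + 2 → S.ρ (c' + 3) z ≠ u2 := fun z hz e => by
    have := S.ρ_swap e; rw [hy] at this; rw [this] at hx; omega
  have h1 := stay w' C.lw' C.sw2.sw3.nwu
  rcases C.lb _ h1 with k | k | k | k | k
  · exact C.nw (hs.symm.trans (S.ρ_swap k))
  · exact C.sw2.n2w ((S.ρ_swap hs).symm.trans (S.ρ_swap k))
  · refine C.no12 (t := x) hx.ge ?_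
    rintro z (rfl | rfl | rfl)
    · exact .inr (.inl hs)
    · exact .inl (S.ρ_swap hs)
    · exact .inr (.inr k)
  · have := key (C.ru2 (rd (C.rw2 (rd C.r2 hs)) k))
    exact C.sw2.nwu ((S.ρ_swap k).symm.trans this)
  · exact hn _ C.lw' k

/-- adjacent case, the point below the upper single point is `w'` -/
theorem adj_w (h : S.AlX (c' + 3) x) (hy : S.ρ (c' + 3) w' = x)
    (stay : ∀ z, S.lo z = c' + 2 → z ≠ w' → S.lo (S.ρ (c' + 3) z) = c' + 2)
    (key : S.R (Set.Icc (c' + 1) (c' + 3)) x' w' → S.ρ (c' + 3) q = q)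
    (hs : S.ρ (c' + 3) x2 = u1) : False := by
  have hx := h.2.2.1
  have hn : ∀ z, S.lo z = c' + 2 → S.ρ (c' + 3) z ≠ w' := fun z hz e => by
    have := S.ρ_swap e; rw [hy] at this; rw [this] at hx; omega
  have h1 := stay u2 C.lu2 C.sw2.sw3.nwu.symm
  rcases C.lb _ h1 with k | k | k | k | k
  · exact C.nu (hs.symm.trans (S.ρ_swap k))
  · have fq := key (C.rw2 (rd (C.ru2 (rd C.r2 hs)) k))
    have fp : S.ρ (c' + 3) p = p := by
      rw [← S.ρ_swap C.ea, S.fix_comm (Or.inl (by omega))]; exact fq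
    have hc := ls_card (F := S.supp (c' + 3)) (l := [x, x2, w, w', u1, u2]) (by
      have a : ∀ z, S.lo z = c' + 2 → x ≠ z := fun z hz e => by rw [e] at hx; omega
      simp [a _ C.l2, a _ C.lw, a _ C.lw', a _ C.lu1, a _ C.lu2, C.n2w, C.sw2.n2w, C.n2u,
        C.sw3.n2u, C.nw, C.nwu, C.sw3.nwu, C.sw2.nwu, C.sw2.sw3.nwu, C.nu]) (by
      intro z
      simp only [mem_supp, List.mem_cons, List.not_mem_nil, or_false]
      constructor
      · intro hz
        have h2 := S.lo_le hz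
        rcases (by omega : S.lo z < c' ∨ S.lo z = c' ∨ S.lo z = c' + 1 ∨ S.lo z = c' + 2 ∨
          S.lo z = c' + 3) with a | a | a | a | a
        · exact absurd (C.low z a _ (by omega)) hz
        · rw [C.al.2.2.2 z a] at hz; exact absurd (C.f0 (by omega)) hz
        · rcases C.la z a with rfl | rfl | rfl
          exacts [absurd (C.f1 le_rfl) hz, absurd fp hz, absurd fq hz]
        · exact .inr (C.lb z a)
        · exact .inl (h.2.2.2 z a)
      · rintro (rfl | rfl | rfl | rfl | rfl | rfl)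
        · have := S.mv_lo z; rwa [hx] at this
        · rw [hs]; exact C.n2u.symm
        · rw [S.ρ_swap k]; exact C.sw3.nwu.symm
        · rw [hy]; intro e; have := C.lw'; rw [e] at hx; omega
        · rw [S.ρ_swap hs]; exact C.n2u
        · rw [k]; exact C.sw3.nwu)
    have := S.four_dvd_supp (c' + 3)
    rw [hc] at this
    simp at this
  · exact hn _ C.lu2 k
  · exact C.sw3.n2u ((S.ρ_swap hs).symm.trans (S.ρ_swap k))
  · refine C.no13 (t := x) hx.ge ?_
    rintro z (rfl | rfl | rfl)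
    · exact .inr (.inl hs)
    · exact .inl (S.ρ_swap hs)
    · exact .inr (.inr k)

theorem adj_u' (h : S.AlX (c' + 3) x) (hy : S.ρ (c' + 3) u2 = x)
    (stay : ∀ z, S.lo z = c' + 2 → z ≠ u2 → S.lo (S.ρ (c' + 3) z) = c' + 2)
    (key : S.R (Set.Icc (c' + 1) (c' + 3)) x' u2 → S.ρ (c' + 3) u1 = u1) : False := by
  have hx := h.2.2.1
  rcases C.lb _ (stay x2 C.l2 C.sw3.n2u) with k | k | k | k | k
  · exact C.no1 (t := x) hx.ge k
  · exact C.adj_u h hy stay key k
  · exact C.sw2.adj_u h hy stay key k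
  · exact C.n2u ((S.ρ_swap k).symm.trans (key (C.ru2 (rd C.r2 k))))
  · have := S.ρ_swap k; rw [hy] at this; rw [this, C.l2] at hx; omega

theorem adj_w' (h : S.AlX (c' + 3) x) (hy : S.ρ (c' + 3) w' = x)
    (stay : ∀ z, S.lo z = c' + 2 → z ≠ w' → S.lo (S.ρ (c' + 3) z) = c' + 2)
    (key : S.R (Set.Icc (c' + 1) (c' + 3)) x' w' → S.ρ (c' + 3) q = q) : False := by
  have hx := h.2.2.1
  have hn : ∀ z, S.lo z = c' + 2 → S.ρ (c' + 3) z ≠ w' := fun z hz e => by
    have := S.ρ_swap e; rw [hy] at this; rw [this] at hx; omega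
  rcases C.lb _ (stay x2 C.l2 C.sw2.n2w) with k | k | k | k | k
  · exact C.no1 (t := x) hx.ge k
  · refine C.no3 ?_
    have aux : ∀ {a b : Ω}, S.LCfg c' x' x1 x2 w p q w' a b →
        S.ρ (c' + 3) a = a ∨ S.ρ (c' + 3) a = b := by
      intro a b D
      rcases D.lb _ (stay a D.lu1 D.sw2.nwu.symm) with j | j | j | j | j
      · exact absurd (k.symm.trans (S.ρ_swap j)) D.nwu
      · exact absurd ((S.ρ_swap k).symm.trans (S.ρ_swap j)) D.n2u
      · exact absurd j (hn _ D.lu1)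
      exacts [.inl j, .inr j]
    rintro z (rfl | rfl)
    · exact aux C
    · exact (aux C.sw3).symm
  · exact hn _ C.l2 k
  · exact C.adj_w h hy stay key k
  · exact C.sw3.adj_w h hy stay key k

/-- the upper single level is adjacent to the two big levels -/
theorem adj (hv : S.CV v) (h : S.AlX (c' + 3) x) (hm2 : c' + 3 + 2 = m)
    (hxv : S.ρ (c' + 3 + 1) v = x) (hp : S.Prim c' x') : False := by
  have hx := h.2.2.1
  have hy := h.lo_y
  have hA : AltIn (S.G (Set.Icc (c' + 1) (c' + 3))) {x', x1, x2} := by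
    have := hp.2
    rw [← S.G_pair (c' + 1), C.e1, C.e2] at this
    exact this.mono (S.G_mono (Set.Icc_subset_Icc_right (by omega))) subset_rfl
  have a0 := C.l0
  have a1 := C.l1
  have a2 := C.l2
  have hU := (S.altR hA (fun e => by rw [e] at a0; omega) (fun e => by rw [e] at a1; omega)
    (fun e => by rw [e] at a0; omega) (by
      rintro i ⟨i1, i2⟩
      rcases (by omega : i = c' + 1 ∨ c' + 2 ≤ i) with rfl | e
      · exact ⟨x', by simp, by simp [C.e1]⟩
      · exact ⟨x', by simp, by simp [C.f0 e]⟩)).mono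
    (S.G_mono (J := Set.Iic (c' + 2 + 1)) fun i hi => hi.2) subset_rfl
  have key : ∀ y, S.ρ (c' + 3) y = x → S.R (Set.Icc (c' + 1) (c' + 3)) x' y →
      S.ρ (c' + 3) (S.ρ (c' + 2) y) = S.ρ (c' + 2) y := by
    intro y e r
    have ly : S.lo y = c' + 2 := by rw [← S.ρ_swap e]; omega
    have m1 : S.ρ (c' + 2) y ≠ y := by have := S.mv_lo y; rwa [ly] at this
    have m2 : S.lo (S.ρ (c' + 2) y) ≤ c' + 2 := S.lo_le (by rw [Ne, S.fix_self]; exact m1)
    have rx : S.R (Set.Ici (c' + 2)) v x :=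
      (S.R_refl _ v).step' (i := c' + 3 + 1) (Set.mem_Ici.2 (by omega)) hxv
    have ry : S.R (Set.Ici (c' + 2)) v y :=
      rx.step' (i := c' + 3) (Set.mem_Ici.2 (by omega)) (S.ρ_swap e)
    have := (hv.dk (j := c' + 2) (by omega) hU (x := x) (y := y) (z := S.ρ (c' + 2) y)
      (rd r e) r (r.step ⟨by omega, by omega⟩) (fun a => by rw [a] at hx; omega) m1.symm
      (fun a => by rw [a] at hx; omega) rx ry (ry.step (Set.mem_Ici.2 le_rfl))).2
      (S.ρ (c' + 2) y) (by simp)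
    rcases this.2 with k | k | k
    · exact absurd (S.ρ_inj (k.trans e.symm)) m1
    · have := (S.ρ_swap k).symm.trans e
      rw [← this] at hx; omega
    · exact k
  have stay : ∀ y, S.ρ (c' + 3) y = x → ∀ z, S.lo z = c' + 2 → z ≠ y →
      S.lo (S.ρ (c' + 3) z) = c' + 2 := by
    intro y e z hz hn
    have := S.lo_step (c' + 3) z
    by_contra hh
    exact hn (S.ρ_inj ((h.2.2.2 _ (by omega)).trans e.symm))
  have e := S.inv (c' + 3) x
  rcases C.lb (S.ρ (c' + 3) x) (by omega) with k | k | k | k | k <;> rw [k] at e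
  · refine C.no23 fun z hz => ?_
    have lz : S.lo z = c' + 2 := by
      rcases hz with rfl | rfl | rfl | rfl
      exacts [C.lw, C.lw', C.lu1, C.lu2]
    have nz : z ≠ x2 := by
      rcases hz with rfl | rfl | rfl | rfl
      exacts [C.n2w.symm, C.sw2.n2w.symm, C.n2u.symm, C.sw3.n2u.symm]
    rcases C.lb _ (stay _ e z lz nz) with j | j
    · have := (S.ρ_swap j).symm.trans e
      rw [this] at lz; omega
    · exact j
  · exact C.sw2.adj_w' h e (stay _ e) fun r => by
      have := key _ e r; rwa [S.ρ_swap C.ep] at this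
  · exact C.adj_w' h e (stay _ e) fun r => by
      have := key _ e r; rwa [S.ρ_swap C.eq] at this
  · exact C.sw3.adj_u' h e (stay _ e) fun r => by
      have := key _ e r; rwa [C.eu] at this
  · exact C.adj_u' h e (stay _ e) fun r => by
      have := key _ e r; rwa [S.ρ_swap C.eu] at this

/-- there is a ladder between the two big levels and the upper single level -/
theorem far (h : S.AlX c x) (hc : c' + 4 ≤ c) (h2 : ∀ l, c' + 3 ≤ l → l < c → S.a l = 2)
    (hv : ∀ z, S.lo z = c + 1 → z = v) (lv : S.lo v = c + 1) : False := by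
  have hx := h.2.2.1
  have down : ∀ l, c' + 3 ≤ l → l < c → ∀ r, S.lo r = l → S.lo (S.ρ l r) + 1 = l := by
    intro l l1 l2 r hr
    obtain ⟨z, z1, z2⟩ := S.cross (j := l) (by omega) (y := x) (by omega)
    by_cases e : r = z
    · rw [e]; exact z2
    have := S.lo_step l r
    by_contra hh
    have m1 : S.ρ l r ≠ r := by have := S.mv_lo r; rwa [hr] at this
    have m2 : S.ρ l r ≠ z := fun a => by rw [S.ρ_swap a] at z2; omega
    have := ls_le (F := S.lev l) (l := [S.ρ l r, r, z]) (by simp [m1, m2, e]) (by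
      intro t ht
      simp only [List.mem_cons, List.not_mem_nil, or_false] at ht
      rw [mem_lev]
      rcases ht with rfl | rfl | rfl <;> omega)
    have h3 := h2 l l1 l2
    unfold a at h3
    simp [h3] at this
  obtain ⟨r, r', nr, hr⟩ := Finset.card_eq_two.1 (h2 (c' + 3) le_rfl (by omega))
  have hl : ∀ t, S.lo t = c' + 3 ↔ t = r ∨ t = r' := fun t => by
    rw [← mem_lev, hr]; simp
  have lr := (hl r).2 (.inl rfl)
  have lr' := (hl r').2 (.inr rfl)
  have lz := down _ le_rfl (by omega) r lr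
  have lz' := down _ le_rfl (by omega) r' lr'
  have nz : S.ρ (c' + 3) r ≠ S.ρ (c' + 3) r' := fun e => nr (S.ρ_inj e)
  have cm : ∀ t, S.ρ (c + 1) (S.ρ (c' + 3) t) = S.ρ (c' + 3) (S.ρ (c + 1) t) := fun t =>
    (S.comm _ _ (by omega) t).symm
  have stay : ∀ t, S.lo t = c' + 2 → t ≠ S.ρ (c' + 3) r → t ≠ S.ρ (c' + 3) r' →
      S.lo (S.ρ (c' + 3) t) = c' + 2 ∧ S.ρ (c' + 3) t ≠ S.ρ (c' + 3) r ∧
        S.ρ (c' + 3) t ≠ S.ρ (c' + 3) r' := by
    intro t ht a b
    refine ⟨?_, fun e => by rw [S.ρ_inj e] at ht; omega, fun e => by rw [S.ρ_inj e] at ht; omega⟩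
    have := S.lo_step (c' + 3) t
    by_contra hh
    rcases (hl (S.ρ (c' + 3) t)).1 (by omega) with e | e
    exacts [a (S.ρ_swap e).symm, b (S.ρ_swap e).symm]
  have t2 := C.f2 (i := c + 1) (by omega)
  generalize hz : S.ρ (c' + 3) r = z at lz nz stay
  generalize hz' : S.ρ (c' + 3) r' = z' at lz' nz stay
  have tr : S.lo (S.ρ (c + 1) r) = c' + 3 := by rw [S.lo_far (by omega), lr]
  have tr' : S.lo (S.ρ (c + 1) r') = c' + 3 := by rw [S.lo_far (by omega), lr']
  rcases (hl _).1 tr with e | e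
  · have e' : S.ρ (c + 1) r' = r' := by
      rcases (hl _).1 tr' with k | k
      · exact absurd (e.symm.trans (S.ρ_swap k)) nr
      · exact k
    have fz : S.ρ (c + 1) z = z := by rw [← hz, cm, e]
    have fz' : S.ρ (c + 1) z' = z' := by rw [← hz', cm, e']
    have up : ∀ l, c' + 3 ≤ l → l < c → ∀ t, S.lo t = l → S.ρ (c + 1) t = t := by
      intro l l1
      induction l, l1 using Nat.le_induction with
      | base =>
        intro _ t ht
        rcases (hl t).1 ht with rfl | rfl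
        exacts [e, e']
      | succ l l1 ih =>
        intro l2 t ht
        have h3 := down (l + 1) (by omega) l2 t ht
        exact (S.fix_comm (i := l + 1) (Or.inl (by omega)) t).1 (ih (by omega) _ (by omega))
    have mx : S.ρ (c + 1) x ≠ x := h.mv1
    have mv : S.ρ (c + 1) v ≠ v := by have := S.mv_lo v; rwa [lv] at this
    have nxv : x ≠ v := fun a => by rw [a] at hx; omega
    have sup : ∀ t, S.ρ (c + 1) t ≠ t →
        t = x ∨ t = v ∨ t = p ∨ t = q ∨ t = w ∨ t = w' ∨ t = u1 ∨ t = u2 := by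
      intro t ht
      have h3 := S.lo_le ht
      rcases (by omega : S.lo t < c' ∨ S.lo t = c' ∨ S.lo t = c' + 1 ∨ S.lo t = c' + 2 ∨
        (c' + 3 ≤ S.lo t ∧ S.lo t < c) ∨ S.lo t = c ∨ S.lo t = c + 1) with
        a | a | a | a | a | a | a
      · exact absurd (C.low t a _ (by omega)) ht
      · rw [C.al.2.2.2 t a] at ht; exact absurd (C.f0 (by omega)) ht
      · rcases C.la t a with rfl | k
        · exact absurd (C.f1 (by omega)) ht
        · tauto
      · rcases C.lb t a with rfl | k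
        · exact absurd t2 ht
        · tauto
      · exact absurd (up _ a.1 a.2 t rfl) ht
      · exact .inl (h.2.2.2 t a)
      · exact .inr (.inl (hv t a))
    have par := S.four_dvd_supp (c + 1)
    have tu : S.ρ (c + 1) u1 = u2 := by
      refine (C.uu (i := c + 1) (by omega)).resolve_left fun k1 => ?_
      have k2 : S.ρ (c + 1) u2 = u2 := by
        rw [← C.eu, S.fix_comm (Or.inl (by omega))]; exact k1
      have jq : S.ρ (c + 1) q = q ↔ S.ρ (c + 1) p = p := by
        rw [← C.ea, S.fix_comm (Or.inl (by omega))]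
      have jw : S.ρ (c + 1) w = w ↔ S.ρ (c + 1) p = p := by
        rw [← C.ep, S.fix_comm (Or.inl (by omega))]
      have jw' : S.ρ (c + 1) w' = w' ↔ S.ρ (c + 1) p = p := by
        rw [← C.eq, S.fix_comm (Or.inl (by omega)), jq]
      by_cases jp : S.ρ (c + 1) p = p
      · rw [ls_card (F := S.supp (c + 1)) (l := [x, v]) (by simp [nxv]) (by
          intro t
          simp only [mem_supp, List.mem_cons, List.not_mem_nil, or_false]
          refine ⟨fun ht => ?_, by rintro (rfl | rfl); exacts [mx, mv]⟩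
          rcases sup t ht with k | k | rfl | rfl | rfl | rfl | rfl | rfl
          exacts [.inl k, .inr k, absurd jp ht, absurd (jq.2 jp) ht, absurd (jw.2 jp) ht,
            absurd (jw'.2 jp) ht, absurd k1 ht, absurd k2 ht])] at par
        simp at par
      · have ne : ∀ s t : Ω, S.lo s ≠ S.lo t → s ≠ t := fun s t a b => a (by rw [b])
        have := C.lp; have := C.lq; have := C.lw; have := C.lw'
        rw [ls_card (F := S.supp (c + 1)) (l := [x, v, p, q, w, w']) (by
          simp [nxv, C.npq, C.nw, ne x p (by omega), ne x q (by omega), ne x w (by omega),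
            ne x w' (by omega), ne v p (by omega), ne v q (by omega), ne v w (by omega),
            ne v w' (by omega), ne p w (by omega), ne p w' (by omega), ne q w (by omega),
            ne q w' (by omega)]) (by
          intro t
          simp only [mem_supp, List.mem_cons, List.not_mem_nil, or_false]
          constructor
          · intro ht
            rcases sup t ht with k | k | k | k | k | k | rfl | rfl
            exacts [by tauto, by tauto, by tauto, by tauto, by tauto, by tauto,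
              absurd k1 ht, absurd k2 ht]
          · rintro (rfl | rfl | rfl | rfl | rfl | rfl)
            exacts [mx, mv, jp, mt jq.1 jp, mt jw.1 jp, mt jw'.1 jp])] at par
        simp at par
    have nf : ∀ t, S.ρ (c + 1) t = t → u1 ≠ t ∧ u2 ≠ t := fun t ht =>
      ⟨fun a => C.nu (by rw [← tu, a, ht]), fun a => C.nu (by rw [← S.ρ_swap tu, a, ht])⟩
    obtain ⟨s1, s2, s3⟩ := stay u1 C.lu1 (nf z fz).1 (nf z' fz').1
    have du : S.ρ (c' + 3) u2 = S.ρ (c + 1) (S.ρ (c' + 3) u1) := by rw [cm, tu]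
    have nx : S.ρ (c + 1) (S.ρ (c' + 3) u1) ≠ S.ρ (c' + 3) u1 := fun a =>
      C.nu (S.ρ_inj (du.trans a)).symm
    have aux : ∀ {a b s t : Ω}, S.LCfg c' x' x1 x2 a s t b u1 u2 → S.ρ (c' + 3) u1 ≠ a := by
      intro a b s t D k
      rw [k] at s2 s3 nx
      have k1 := (D.ww (i := c + 1) (by omega)).resolve_left nx
      have k2 : ∀ y, S.lo y + 1 = c' + 3 → S.ρ (c + 1) y = y → a ≠ y → y = x2 := by
        intro y y1 y2 y3
        rcases D.lb y (by omega) with j | j | j | j | j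
        · exact j
        · exact absurd j.symm y3
        · rw [j, S.ρ_swap k1] at y2; exact absurd y2 D.nw
        · exact absurd j.symm (nf y y2).1
        · exact absurd j.symm (nf y y2).2
      exact nz ((k2 z lz fz s2).trans (k2 z' lz' fz' s3).symm)
    have d1 : S.ρ (c' + 3) u1 = u1 ∨ S.ρ (c' + 3) u1 = u2 := by
      rcases C.lb _ s1 with k | k | k | k
      · rw [k] at nx; exact absurd t2 nx
      · exact absurd k (aux C)
      · exact absurd k (aux C.sw2)
      · exact k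
    refine C.no3 ?_
    rintro t (rfl | rfl)
    · exact d1
    · rw [du]
      rcases d1 with k | k <;> rw [k]
      exacts [.inr tu, .inl (S.ρ_swap tu)]
  · have tz : S.ρ (c + 1) z = z' := by rw [← hz, cm, e, hz']
    have aw : ∀ {a b s t : Ω}, S.LCfg c' x' x1 x2 a s t b u1 u2 → z ≠ a := by
      intro a b s t D k
      have k' : z' = b := by
        rcases D.ww (i := c + 1) (by omega) with j | j
        · exact absurd (by rw [← tz, k, j]) nz
        · rw [← tz, k, j]
      refine D.no13 (t := x) (by omega) fun y hy => ?_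
      have y1 : S.lo y = c' + 2 ∧ y ≠ a ∧ y ≠ b := by
        rcases hy with rfl | rfl | rfl
        exacts [⟨D.l2, D.n2w, D.sw2.n2w⟩, ⟨D.lu1, D.nwu.symm, D.sw2.nwu.symm⟩,
          ⟨D.lu2, D.sw3.nwu.symm, D.sw2.sw3.nwu.symm⟩]
      rw [k, k'] at stay
      obtain ⟨s1, s2, s3⟩ := stay y y1.1 y1.2.1 y1.2.2
      have := D.lb _ s1
      tauto
    have au : ∀ {a b : Ω}, S.LCfg c' x' x1 x2 w p q w' a b → z ≠ a := by
      intro a b D k
      have k' : z' = b := by
        rcases D.uu (i := c + 1) (by omega) with j | j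
        · exact absurd (by rw [← tz, k, j]) nz
        · rw [← tz, k, j]
      refine D.no12 (t := x) (by omega) fun y hy => ?_
      have y1 : S.lo y = c' + 2 ∧ y ≠ a ∧ y ≠ b := by
        rcases hy with rfl | rfl | rfl
        exacts [⟨D.l2, D.n2u, D.sw3.n2u⟩, ⟨D.lw, D.nwu, D.sw3.nwu⟩,
          ⟨D.lw', D.sw2.nwu, D.sw2.sw3.nwu⟩]
      rw [k, k'] at stay
      obtain ⟨s1, s2, s3⟩ := stay y y1.1 y1.2.1 y1.2.2
      have := D.lb _ s1
      tauto
    rcases C.lb z (by omega) with k | k | k | k | k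
    · exact nz (by rw [← tz, k, t2])
    exacts [aw C k, aw C.sw2 k, au C k, au C.sw3 k]

end LCfg

theorem CV.lstar (hv : S.CV v) (h' : S.AlX c' x') (h : S.AlX c x) (hm2 : c + 2 = m)
    (h1 : S.a (c + 1) = 1) (hc : c' + 2 ≤ c) (hg : ∀ i, c' < i → i < c → 2 ≤ S.a i)
    (hH : S.H c' ≤ c') (hA' : (S.A c').card = 2 * c' + 1) (hA : (S.A c).card = 2 * c + 4)
    (hp : S.Prim c' x') : False := by
  obtain ⟨w, p, q, w', u1, u2, he⟩ := h'.eight (by omega) hp (hg _ (by omega) (by omega))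
  obtain ⟨c8, c3, c2⟩ := h'.eight_card hp he
  have ac : S.a c = 1 := h.al.2.2
  have ac' : S.a c' = 1 := h'.al.2.2
  have hc3 : c' + 3 ≤ c := by
    by_contra hh
    rw [show c' + 2 = c by omega] at c2; omega
  have hs : ∑ i ∈ Ico (c' + 1) c, S.a i + 2 * c' + 2 = 2 * c + 4 := by
    have e := Finset.sum_range_add_sum_Ico S.a (show c' + 1 ≤ c by omega)
    rw [Finset.sum_range_succ, ← S.card_A, ← S.card_A] at e
    omega
  have g2 : ∀ i ∈ Ico (c' + 1) c, 2 ≤ S.a i := fun i hi => by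
    rw [mem_Ico] at hi; exact hg i (by omega) hi.2
  have s2 := sum_excess (t := {c' + 1, c' + 2}) g2 (by
    intro i hi; simp only [mem_insert, mem_singleton] at hi; rw [mem_Ico]; omega)
  rw [Finset.sum_pair (by omega), Finset.card_pair (by omega), Nat.card_Ico] at s2
  have s3 : ∀ l, c' + 3 ≤ l → l < c → S.a l = 2 := by
    intro l l1 l2
    have := sum_excess (t := {l, c' + 1, c' + 2}) g2 (by
      intro i hi; simp only [mem_insert, mem_singleton] at hi; rw [mem_Ico]; omega)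
    have nl : l ∉ ({c' + 1, c' + 2} : Finset ℕ) := by
      simp only [mem_insert, mem_singleton]; omega
    rw [Finset.sum_insert nl, Finset.card_insert_of_notMem nl, Finset.sum_pair (by omega),
      Finset.card_pair (by omega), Nat.card_Ico] at this
    have := hg l (by omega) l2
    omega
  have low : ∀ z, S.lo z < c' → ∀ i, c' < i → S.ρ i z = z := fun z hz i hi =>
    S.fix_hi (by have := S.hi_le_H hz; omega)
  have a3 : S.a (c' + 1) = 3 := by
    have e : S.supp (c' + 1) = insert x' (S.lev (c' + 1)) := by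
      ext z
      simp only [mem_supp, mem_insert, mem_lev]
      constructor
      · intro hz
        have := S.lo_le hz
        by_cases a : S.lo z < c'
        · exact absurd (low z a _ (by omega)) hz
        by_cases b : S.lo z = c'
        exacts [.inl (h'.2.2.2 z b), .inr (by omega)]
      · rintro (rfl | hz)
        · exact h'.mv1
        · have := S.mv_lo z; rwa [hz] at this
    have := S.four_dvd_supp (c' + 1)
    rw [e, Finset.card_insert_of_notMem (by rw [mem_lev, h'.2.2.1]; omega)] at this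
    unfold a at *
    omega
  have a5 : S.a (c' + 2) = 5 := by omega
  obtain ⟨lw, lp, lq, ea, ep, eq, eu, lw', lu1, lu2, nd⟩ := he
  simp only [List.nodup_cons, List.mem_cons, List.not_mem_nil, or_false, not_or] at nd
  obtain ⟨⟨-, -, a3', a4, a5', a6, a7⟩, ⟨b2, -, -, b5, b6, b7⟩, ⟨-, -, d5, d6, d7⟩,
    ⟨e4, e5, e6, e7⟩, ⟨f5, f6, f7⟩, ⟨g6, g7⟩, k7, -⟩ := nd
  have la := ls_full (F := S.lev (c' + 1)) (l := [S.ρ (c' + 1) x', p, q])
    (by simp [a3', a4, e4]) (by simp [h'.lo_x1, lp, lq]) (le_of_eq a3)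
  simp only [mem_lev, List.mem_cons, List.not_mem_nil, or_false] at la
  have kw' : S.lo w' = c' + 2 := lw'.resolve_left fun k => by
    rcases la _ k with j | j | j
    exacts [a5' j.symm, e5 j.symm, f5 j.symm]
  have ku1 : S.lo u1 = c' + 2 := lu1.resolve_left fun k => by
    rcases la _ k with j | j | j
    exacts [a6 j.symm, e6 j.symm, f6 j.symm]
  have ku2 : S.lo u2 = c' + 2 := lu2.resolve_left fun k => by
    rcases la _ k with j | j | j
    exacts [a7 j.symm, e7 j.symm, f7 j.symm]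
  have lb := ls_full (F := S.lev (c' + 2))
    (l := [S.ρ (c' + 2) (S.ρ (c' + 1) x'), w, w', u1, u2])
    (by simp [b2, b5, b6, b7, d5, d6, d7, g6, g7, k7])
    (by simp [hp.1, lw, kw', ku1, ku2]) (le_of_eq a5)
  simp only [mem_lev, List.mem_cons, List.not_mem_nil, or_false] at lb
  have C : S.LCfg c' x' _ _ w p q w' u1 u2 :=
    ⟨h', low, rfl, rfl, ea, ep, eq, eu, lp, lq, hp.1, lw, kw', ku1, ku2,
      fun e => a3' e.symm, fun e => a4 e.symm, la, lb⟩
  have lv : S.lo v = c + 1 := by have := hv.1; omega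
  have uv : ∀ z, S.lo z = c + 1 → z = v := fun z hz =>
    Finset.card_le_one.1 (le_of_eq h1) z (S.mem_lev.2 hz) v (S.mem_lev.2 lv)
  rcases hc3.eq_or_lt with rfl | hc4
  · exact C.adj hv h hm2 (S.ρ_swap (uv _ h.lo_x1)) hp
  · exact C.far h hc4 s3 uv lv

end SD
end D145
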