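import Pool.Agent.MP_d145c0_al.H75.S2

/-! No single level: no point is moved by a label `≤ m - 2` and by a label `≥ m + 1`. -/

namespace D145
open Equiv Finset
namespace SD
variable {Ω : Type} [Fintype Ω] [DecidableEq Ω] {m : ℕ} (S : SD Ω m)

section
variable {b b' : ℕ} {O O' O1 : Finset Ω} {x y : Ω}

theorem na1_gam (i : ℕ) :
    S.gam b b' i = S.aX b' i + 2 * (S.OI b b' i).card + (S.OP b b' i).card := rfl

theorem na1_I {l : ℕ} (hO : O ∈ S.Orbs b b') (h1 : S.pl O < l) (h2 : l ≤ S.ql O) :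
    1 ≤ (S.OI b b' l).card := card_pos.2 ⟨O, S.mem_OI.2 ⟨hO, h1, h2⟩⟩

theorem na1_P {l : ℕ} (hO : O ∈ S.Orbs b b') (h1 : S.pl O = l) :
    1 ≤ (S.OP b b' l).card := card_pos.2 ⟨O, S.mem_OP.2 ⟨hO, h1⟩⟩

theorem na1_X {l : ℕ} (h1 : S.lo x = l) (h2 : S.hi x < b') : 1 ≤ S.aX b' l :=
  card_pos.2 ⟨x, S.mem_levX.2 ⟨h1, h2⟩⟩

theorem na1_one {s : Finset (Finset Ω)} {l : ℕ} (h : s.card ≤ 1) (hO : O ∈ s) (hq : S.ql O ≤ l) :
    ∀ O' ∈ s, S.ql O' ≤ l := fun O' h' => card_le_one.1 h O hO O' h' ▸ hq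

theorem na1_zero {s : Finset (Finset Ω)} {l : ℕ} (h : s.card = 0) : ∀ O' ∈ s, S.ql O' ≤ l := by
  simp [card_eq_zero.1 h]

theorem na1_nc (hb : b + 3 ≤ b') {l : ℕ} (hl : l + 1 ≤ b) (hy : b ≤ S.lo y)
    (hX : ∀ w, S.lo w = l → S.hi w < b' → S.lo (S.ρ (l + 1) w) ≤ l)
    (hI : ∀ O ∈ S.OI b b' l, S.ql O ≤ l) (hP : ∀ O ∈ S.OP b b' l, S.ql O ≤ l) : False := by
  obtain ⟨z, h1, h2, h3 | ⟨O, h3, -⟩⟩ :=
    S.gam_cross (b' := b') (by omega) (i := l + 1) (by omega) hl (hl.trans hy)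
  · have := hX _ (by omega) h3.2
    rw [S.inv] at this
    omega
  · obtain ⟨h4, h5, h6⟩ := S.mem_OI.1 h3
    rcases (Nat.le_of_lt_succ h5).eq_or_lt with h | h
    · have := hP O (S.mem_OP.2 ⟨h4, h⟩)
      omega
    · have := hI O (S.mem_OI.2 ⟨h4, h, by omega⟩)
      omega

theorem na1_nc2 (hb : b + 3 ≤ b') {l : ℕ} (hl : l + 1 ≤ b) (hy : b ≤ S.lo y)
    (hO : O ∈ S.Orbs b b') (h1 : S.pl O < l) (h2 : S.ql O = l) (hg : S.gam b b' l ≤ 2) :
    False := by
  have h3 := S.na1_I hO h1 h2.ge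
  rw [S.na1_gam] at hg
  refine S.na1_nc hb hl hy (fun w h4 h5 => ?_)
    (S.na1_one (by omega) (S.mem_OI.2 ⟨hO, h1, h2.ge⟩) h2.le) (S.na1_zero (by omega))
  have := S.na1_X h4 h5
  omega

theorem na1_copy (hb : b + 3 ≤ b') (hO : O ∈ S.Orbs b b') {φ : Perm Ω}
    (hφ : ∀ i ≤ b, ∀ z, φ (S.ρ i z) = S.ρ i (φ z)) {l : ℕ} {T : Finset Ω}
    (hT : ∀ y ∈ T, y ∈ O ∧ S.lo y = l ∧ S.hi (φ y) < b') :
    T.card ≤ S.aX b' l ∧ (S.aX b' l ≤ T.card → S.ql O ≤ l → l + 1 ≤ b →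
      ∀ w, S.lo w = l → S.hi w < b' → S.lo (S.ρ (l + 1) w) ≤ l) := by
  have h1 : T.image φ ⊆ S.levX b' l := fun w hw => by
    obtain ⟨y, hy, rfl⟩ := mem_image.1 hw
    obtain ⟨h2, h3, h4⟩ := hT y hy
    exact S.mem_levX.2 ⟨by rw [S.lo_comm hφ (S.Orbs_W (by omega) hO h2).1, h3], h4⟩
  have h2 : (T.image φ).card = T.card := card_image_of_injective _ φ.injective
  refine ⟨h2 ▸ card_le_card h1, fun h3 h4 h5 w h6 h7 => ?_⟩
  have h8 := S.mem_levX.2 ⟨h6, h7⟩
  rw [← eq_of_subset_of_card_le h1 (h2 ▸ h3)] at h8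
  obtain ⟨y, hy, rfl⟩ := mem_image.1 h8
  have h9 := S.le_ql (S.Orbs_ρ hO (hT y hy).1 (i := l + 1) (Or.inl h5))
  rw [← hφ _ h5, S.lo_comm hφ (by omega)]
  omega

/-- the copied pair of an orbit on a single level -/
theorem na1_pair (hb : b + 3 ≤ b') (hO : O ∈ S.Orbs b b') (hx : x ∈ O)
    (he : S.hi (S.ρ (b' - 1) x) < b') (hq : S.ql O ≤ S.pl O) :
    ∃ φ : Perm Ω, (∀ i ≤ b, ∀ z, φ (S.ρ i z) = S.ρ i (φ z)) ∧ ∃ T : Finset Ω, T.card = 2 ∧
      ∀ y ∈ T, y ∈ O ∧ S.lo y = S.pl O ∧ S.hi (φ y) < b' := by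
  obtain ⟨φ, hφ, h1⟩ := S.copy hb hO hx he hx
  have h2 := (S.Orbs_W (by omega) hO hx).1
  have h3 := S.Orbs_ρ hO hx (i := S.lo x) (Or.inl h2)
  refine ⟨φ, hφ, {x, S.ρ (S.lo x) x}, card_pair (S.mv_lo x).symm, fun y hy => ?_⟩
  rcases mem_insert.1 hy with rfl | hy
  · exact ⟨hx, le_antisymm ((S.le_ql hx).trans hq) (S.pl_le hx), h1⟩
  · rw [mem_singleton.1 hy]
    refine ⟨h3, le_antisymm ((S.le_ql h3).trans hq) (S.pl_le h3), ?_⟩
    have := S.hi_step (S.lo x) (φ x)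
    rw [hφ _ h2]
    omega

theorem na1_f1 (hb : b + 3 ≤ b') (hO : O ∈ S.Orbs b b') (hi : 1 ≤ S.iO O) (he : S.exc O ≤ 1)
    (l : ℕ) : S.aO O l ≤ 2 := by
  have h1 : S.kO O = 0 := by
    by_contra h
    have := S.exc_two (by omega) hO hi (by omega)
    omega
  have h2 := Nat.even_iff.1 (S.even_aO_k0 (by omega) hO h1 l)
  by_contra h
  have := S.exc_a (by omega) hO hi (l := l) (by omega)
  omega

theorem na1_f4 (hb : b + 3 ≤ b') (hO : O ∈ S.Orbs b b') (hp : S.pl O = 0) (hi : 1 ≤ S.iO O)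
    (he : S.exc O ≤ 3) (h6 : 6 ≤ S.aO O 0) : S.ql O = 1 ∧ S.exc O = 3 := by
  have h1 : 1 ≤ S.kO O := by
    by_contra h
    have := S.exc_k0 (by omega) hO (by omega) (L := {0}) (by simp [hp])
    rw [sum_singleton, card_singleton] at this
    omega
  have h2 : S.iO O + S.kO O ≤ 2 := by
    by_contra h
    have := S.exc_four (by omega) hO hi h1 (by omega)
    omega
  have h3 : S.ql O = 1 := by unfold iO at hi h2; omega
  have h4 := S.aO_ge (by omega) hO (l := 1) (by omega) (by omega)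
  have h5 := S.sum_aO O
  rw [hp, h3, S.card_O (by omega) hO, show Icc 0 1 = {0, 1} from rfl,
    sum_pair (by omega)] at h5
  omega

theorem na1_a0 (hb : b + 3 ≤ b') : S.a 0 = S.aX b' 0 + ∑ O ∈ S.OP b b' 0, S.aO O 0 := by
  rw [S.a_split (b := b) (b' := b') (by omega) (Nat.zero_le _), OP, sum_filter_of_ne]
  intro O _ h
  obtain ⟨x, hx⟩ := card_pos.1 (Nat.pos_of_ne_zero h)
  have := S.pl_le (mem_filter.1 hx).1
  have := (mem_filter.1 hx).2
  omega

theorem na1_stair (h3 : 3 ≤ b) (hx : ∀ y, S.R (Set.Iic b) x y → S.lo y = 0) {Z : Finset Ω}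
    (hZ : ∀ z ∈ Z, S.hi z < b' ∧ ∀ y, S.R (Set.Iic b) z y → S.lo y = 0) {n : ℕ}
    (hn : ((S.OP b b' 0).filter (fun O => 1 ≤ S.iO O)).card ≤ n) (c : ℕ) :
    (∃ O ∈ S.Orbs b b', S.pl O = 0 ∧ 1 ≤ S.iO O ∧ c < S.aO O 0) ∨
      6 + Z.card ≤ S.aX b' 0 + c * n := by
  classical
  refine or_iff_not_imp_left.2 fun h => ?_
  push Not at h
  have h1 := S.stair hx
  have h2 : (S.lev 0).filter (fun z => ∃ y, S.R (Set.Iic b) z y ∧ S.lo y ≠ 0) ⊆
      (S.levX b' 0 \ Z) ∪ ((S.OP b b' 0).filter (fun O => 1 ≤ S.iO O)).biUnion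
        (fun O => O.filter (fun x => S.lo x = 0)) := fun z hz => by
    obtain ⟨h4, y, h5, h6⟩ := mem_filter.1 hz
    rw [S.mem_lev] at h4
    rcases lt_or_ge (S.hi z) b' with h7 | h7
    · exact mem_union_left _ (mem_sdiff.2 ⟨S.mem_levX.2 ⟨h4, h7⟩, fun e => h6 ((hZ z e).2 y h5)⟩)
    · obtain ⟨O, hO, h8⟩ := S.exists_orb (b := b) (by omega) h7
      have k1 := S.pl_le h8
      have k2 := S.le_ql (S.Orbs_P hO h8 h5)
      exact mem_union_right _ (mem_biUnion.2 ⟨O, mem_filter.2 ⟨S.mem_OP.2 ⟨hO, by omega⟩,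
        by unfold iO; omega⟩, mem_filter.2 ⟨h8, h4⟩⟩)
  have h4 := (card_le_card h2).trans (card_union_le _ _)
  have h5 := card_sdiff_add_card_eq_card (s := Z) (t := S.levX b' 0) fun z hz =>
    S.mem_levX.2 ⟨(hZ z hz).2 z (S.R_refl _ _), (hZ z hz).1⟩
  have h6 := card_biUnion_le_card_mul ((S.OP b b' 0).filter (fun O => 1 ≤ S.iO O))
    (fun O => O.filter (fun x => S.lo x = 0)) c fun O hO => by
      obtain ⟨k1, k2⟩ := mem_filter.1 hO
      exact h O (S.mem_OP.1 k1).1 (S.mem_OP.1 k1).2 k2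
  have h7 := Nat.mul_le_mul_left c hn
  rw [mul_comm] at h6
  unfold aX
  omega

theorem na1_stay (h3 : 3 ≤ b) (hO : O ∈ S.Orbs b b') (hq : S.ql O = 0) {Z : Finset Ω}
    (hZ : ∀ z ∈ Z, S.hi z < b' ∧ ∀ y, S.R (Set.Iic b) z y → S.lo y = 0) (c : ℕ) :
    (∃ O ∈ S.Orbs b b', S.pl O = 0 ∧ 1 ≤ S.iO O ∧ c < S.aO O 0) ∨
      6 + Z.card ≤ S.aX b' 0 + c * ((S.OP b b' 0).card - 1) := by
  obtain ⟨x, hx⟩ := S.Orbs_nonempty hO
  have h1 := S.pl_le hx
  have h2 := S.le_ql hx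
  refine S.na1_stair h3 (x := x) (fun y hy => ?_) hZ ?_ c
  · have := S.le_ql (S.Orbs_P hO hx hy)
    omega
  · refine Nat.le_sub_one_of_lt (card_lt_card (filter_ssubset.2 ⟨O, S.mem_OP.2 ⟨hO, by omega⟩, ?_⟩))
    unfold iO
    omega

/-- the budget of the middle cut -/
def Bud (b b' : ℕ) : Prop := ∀ t ⊆ Icc 1 b, ∀ F ⊆ S.Orbs b b',
  2 * S.gam b b' 0 + 2 * ∑ i ∈ t, S.gam b b' i + ∑ O ∈ F, S.exc O ≤ 11 + 4 * t.card

variable {S}

theorem Bud.z (h : S.Bud b b') (hO : O ∈ S.Orbs b b') : 2 * S.gam b b' 0 + S.exc O ≤ 11 := by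
  simpa using h ∅ (empty_subset _) {O} (by simpa using hO)

theorem Bud.one (h : S.Bud b b') (hO : O ∈ S.Orbs b b') {i : ℕ} (h1 : 1 ≤ i) (h2 : i ≤ b) :
    2 * S.gam b b' 0 + 2 * S.gam b b' i + S.exc O ≤ 15 := by
  simpa using h {i} (by simp [h1, h2]) {O} (by simpa using hO)

theorem Bud.one' (h : S.Bud b b') (hO : O ∈ S.Orbs b b') (hO' : O' ∈ S.Orbs b b') (hne : O ≠ O')
    {i : ℕ} (h1 : 1 ≤ i) (h2 : i ≤ b) :
    2 * S.gam b b' 0 + 2 * S.gam b b' i + (S.exc O + S.exc O') ≤ 15 := by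
  simpa [sum_pair hne] using h {i} (by simp [h1, h2]) {O, O'} (by simp [insert_subset_iff, hO, hO'])

theorem Bud.two (h : S.Bud b b') (hO : O ∈ S.Orbs b b') {i j : ℕ} (h1 : 1 ≤ i) (h2 : i ≤ b)
    (h3 : 1 ≤ j) (h4 : j ≤ b) (h5 : i ≠ j) :
    2 * S.gam b b' 0 + 2 * (S.gam b b' i + S.gam b b' j) + S.exc O ≤ 19 := by
  simpa [sum_pair h5, card_pair h5] using
    h {i, j} (by simp [insert_subset_iff, h1, h2, h3, h4]) {O} (by simpa using hO)

theorem Bud.two' (h : S.Bud b b') (hO : O ∈ S.Orbs b b') (hO' : O' ∈ S.Orbs b b') (hne : O ≠ O')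
    {i j : ℕ} (h1 : 1 ≤ i) (h2 : i ≤ b) (h3 : 1 ≤ j) (h4 : j ≤ b) (h5 : i ≠ j) :
    2 * S.gam b b' 0 + 2 * (S.gam b b' i + S.gam b b' j) + (S.exc O + S.exc O') ≤ 19 := by
  simpa [sum_pair h5, card_pair h5, sum_pair hne] using
    h {i, j} (by simp [insert_subset_iff, h1, h2, h3, h4]) {O, O'}
      (by simp [insert_subset_iff, hO, hO'])

theorem Bud.three (h : S.Bud b b') (hO : O ∈ S.Orbs b b') {i j k : ℕ} (h1 : 1 ≤ i) (h2 : i < j)
    (h3 : j < k) (h4 : k ≤ b) :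
    2 * S.gam b b' 0 + 2 * (S.gam b b' i + (S.gam b b' j + S.gam b b' k)) + S.exc O ≤ 23 := by
  have k1 : i ∉ ({j, k} : Finset ℕ) := by simp; omega
  have := h {i, j, k} (by simp [insert_subset_iff]; omega) {O} (by simpa using hO)
  rwa [sum_insert k1, card_insert_of_notMem k1, sum_pair h3.ne, card_pair h3.ne,
    sum_singleton] at this

/-- the special orbit starts at level `0` -/
theorem Bud.caseA (h : S.Bud b b') (hb : b + 3 ≤ b') (h3 : 3 ≤ b) (hy : b ≤ S.lo y)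
    (hO : O1 ∈ S.Orbs b b') (hx : x ∈ O1) (he : S.hi (S.ρ (b' - 1) x) < b') (hp : S.pl O1 = 0) :
    False := by
  obtain ⟨c1, c2, -⟩ := S.copy_gam hb hO hx he
  rw [hp] at c1 c2
  have g0 := S.na1_gam (b := b) (b' := b') 0
  have g1 := S.na1_gam (b := b) (b' := b') 1
  have n0 := S.na1_P hO hp
  have ev := Nat.even_iff.1 (S.even_aX0 (b' := b') (by omega))
  rcases Nat.eq_zero_or_pos (S.ql O1) with hq | hq
  · obtain ⟨φ, hφ, T, t2, hT⟩ := S.na1_pair hb hO hx he (by omega)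
    have hZ : ∀ z ∈ T.image φ, S.hi z < b' ∧ ∀ y, S.R (Set.Iic b) z y → S.lo y = 0 := by
      intro z hz
      obtain ⟨w, hw, rfl⟩ := mem_image.1 hz
      refine ⟨(hT w hw).2.2, fun y ⟨g, hg, e⟩ => ?_⟩
      have k1 := S.le_ql (S.Orbs_P hO (hT w hw).1 ⟨g, hg, rfl⟩)
      rw [← e, ← S.G_comm (f := φ) hφ hg w, S.lo_comm hφ (by omega)]
      omega
    have z2 : (T.image φ).card = 2 := by rw [card_image_of_injective _ φ.injective, t2]
    have b0 := h.z hO
    rcases S.na1_stay h3 hO hq hZ 2 with ⟨O, k1, k2, k3, k4⟩ | k1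
    swap
    · omega
    have k5 : 2 ≤ S.exc O := by
      by_contra k
      have := S.na1_f1 hb k1 k3 (by omega) 0
      omega
    have b1 := h.z k1
    rcases S.na1_stay h3 hO hq hZ 5 with ⟨O', k1, k2, k3, k4⟩ | k1
    swap
    · omega
    have n2 : 1 < (S.OP b b' 0).card := one_lt_card.2 ⟨O', S.mem_OP.2 ⟨k1, k2⟩, O1,
      S.mem_OP.2 ⟨hO, hp⟩, fun e => by subst e; unfold iO at k3; omega⟩
    have b2 := h.z k1
    obtain ⟨k6, k7⟩ := S.na1_f4 hb k1 k2 k3 (by omega) k4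
    have b3 := h.one k1 le_rfl (by omega)
    exact S.na1_nc2 hb (by omega) hy k1 (by omega) k6 (by omega)
  · have hi : 1 ≤ S.iO O1 := by unfold iO; omega
    have x1 := c2 1 one_pos hq
    have i1 := S.na1_I hO (l := 1) (by omega) hq
    have b1 := h.one hO le_rfl (by omega)
    have m1 : O1 ∈ S.OI b b' 1 := S.mem_OI.2 ⟨hO, by omega, hq⟩
    have r1 := S.Orbs_range (by omega) hO
    by_cases h2 : S.aO O1 0 = 2
    · obtain ⟨φ, hφ, hφ'⟩ := S.copy_all hb hO hx he (hp ▸ h2)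
      have key : ∀ l, ∀ y ∈ O1.filter (fun x => S.lo x = l),
          y ∈ O1 ∧ S.lo y = l ∧ S.hi (φ y) < b' := fun l y hy =>
        ⟨(mem_filter.1 hy).1, (mem_filter.1 hy).2, hφ' y (mem_filter.1 hy).1⟩
      obtain ⟨k1, k2⟩ := S.na1_copy hb hO hφ (key 1)
      have k3 := S.aO_ge (by omega) hO (l := 1) (by omega) hq
      unfold aO at k3
      have k4 : S.ql O1 ≤ 1 := by
        by_contra k
        have k5 := (S.na1_copy hb hO hφ (key 2)).1
        have k6 := S.aO_ge (by omega) hO (l := 2) (by omega) (by omega)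
        unfold aO at k6
        have i2 := S.na1_I hO (l := 2) (by omega) (by omega)
        have g2 := S.na1_gam (b := b) (b' := b') 2
        have b2 := h.two hO (i := 1) (j := 2) le_rfl (by omega) (by omega) (by omega) (by omega)
        omega
      exact S.na1_nc hb (l := 1) (by omega) hy (k2 (by omega) k4 (by omega))
        (S.na1_one (by omega) m1 k4) (S.na1_zero (by omega))
    · have k1 := S.aO_ge (by omega) hO (l := 0) (by omega) (by omega)
      have k2 : 2 ≤ S.exc O1 := by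
        by_contra k
        have := S.na1_f1 hb hO hi (by omega) 0
        omega
      obtain ⟨O, k3⟩ := card_eq_one.1 (show (S.OP b b' 0).card = 1 by omega)
      have k4 : O1 = O := by simpa [k3] using S.mem_OP.2 ⟨hO, hp⟩
      have k5 := S.na1_a0 hb
      rw [k3, sum_singleton, ← k4] at k5
      have k6 := S.four_dvd_a0
      obtain ⟨k7, k8⟩ := S.na1_f4 hb hO hp hi (by omega) (by omega)
      obtain ⟨w, hw, k9⟩ := S.exists_ql hO
      obtain ⟨φ, hφ, hφ'⟩ := S.copy hb hO hx he hw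
      have k := (S.na1_copy hb hO hφ (l := 1) (T := {w}) (by simp [hw, k9, k7, hφ'])).2
      rw [card_singleton] at k
      exact S.na1_nc hb (l := 1) (by omega) hy (k (by omega) k7.le (by omega))
        (S.na1_one (by omega) m1 k7.le) (S.na1_zero (by omega))

/-- level `0` is contained in one orbit -/
theorem Bud.caseC (h : S.Bud b b') (hb : b + 3 ≤ b') (h3 : 3 ≤ b) (hs : b + b' + 1 = 2 * m)
    (hy : b ≤ S.lo y) (hO : O1 ∈ S.Orbs b b') (hx : x ∈ O1) (he : S.hi (S.ρ (b' - 1) x) < b')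
    (hp : 1 ≤ S.pl O1) (x0 : S.aX b' 0 = 0) (n0 : (S.OP b b' 0).card = 1) : False := by
  obtain ⟨c1, c2, c3⟩ := S.copy_gam hb hO hx he
  replace c3 := c3 hp
  have g0 := S.na1_gam (b := b) (b' := b') 0
  have g1 := S.na1_gam (b := b) (b' := b') 1
  have gp := S.na1_gam (b := b) (b' := b') (S.pl O1)
  have np := S.na1_P hO rfl
  have r1 := S.Orbs_range (by omega) hO
  obtain ⟨O, k1⟩ := card_eq_one.1 n0
  have u0 : ∀ O' ∈ S.Orbs b b', S.pl O' = 0 → O' = O := fun O' k2 k3 => by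
    simpa [k1] using S.mem_OP.2 ⟨k2, k3⟩
  obtain ⟨hO0, p0⟩ := S.mem_OP.1 (k1 ▸ mem_singleton_self O)
  have r0 := S.Orbs_range (by omega) hO0
  have q0 : 1 ≤ S.ql O := by
    by_contra k
    refine S.na1_nc hb (l := 0) (by omega) hy (fun w k2 k3 => ?_)
      (fun O' k2 => by have := S.mem_OI.1 k2; omega) fun O' k2 => ?_
    · have := S.na1_X k2 k3
      omega
    · rw [u0 O' (S.mem_OP.1 k2).1 (S.mem_OP.1 k2).2]
      omega
  have hi : 1 ≤ S.iO O := by unfold iO; omega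
  have k2 := S.na1_a0 hb
  rw [k1, sum_singleton] at k2
  have k3 := S.four_le_a0
  have e2 := S.exc_a (by omega) hO0 hi (l := 0) (by omega)
  have k4 : 5 ≤ S.gam b b' (S.pl O1) ∨ ∃ j, 1 ≤ j ∧ j ≤ S.ql O ∧ S.ql O < S.pl O1 ∧
      3 ≤ S.gam b b' j := by
    rcases le_or_gt (S.pl O1) (S.ql O) with k | k
    · have := S.na1_I hO0 (l := S.pl O1) (by omega) k
      omega
    obtain ⟨z, z1, z2, z3 | ⟨O', z3, -⟩⟩ := S.gam_cross (b := b) (b' := b') (by omega)
      (i := S.ql O + 1) (by omega) (by omega) (y := y) (by omega)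
    · have := S.na1_X (l := S.ql O) (by omega) z3.2
      have := S.na1_I hO0 (l := S.ql O) (by omega) le_rfl
      have := S.na1_gam (b := b) (b' := b') (S.ql O)
      exact Or.inr ⟨_, q0, le_rfl, k, by omega⟩
    · obtain ⟨z4, z5, z6⟩ := S.mem_OI.1 z3
      have z7 : 1 ≤ S.pl O' := Nat.pos_of_ne_zero fun e => by rw [u0 O' z4 e] at z6; omega
      have := S.na1_P z4 rfl
      have := S.na1_I hO0 (l := S.pl O') (by omega) (by omega)
      have := S.na1_gam (b := b) (b' := b') (S.pl O')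
      exact Or.inr ⟨_, z7, by omega, k, by omega⟩
  obtain ⟨d1, -, -, -, -, d2, -, d3⟩ := S.dual_O (by omega) hs hO0
  have k5 : O = O.image S.δ ∧ S.exc O ≤ 3 := by
    rcases k4 with k | ⟨j, j1, j2, j3, j4⟩
    · have b1 := h.one hO0 hp (by omega)
      refine ⟨by_contra fun e => ?_, by omega⟩
      have := h.one' hO0 d1 e hp (by omega)
      omega
    · have b1 := h.two hO0 j1 (by omega) hp (by omega) (by omega)
      refine ⟨by_contra fun e => ?_, by omega⟩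
      have := h.two' hO0 d1 e j1 (by omega) hp (by omega) (by omega)
      omega
  rw [← k5.1] at d2
  have q1 : S.ql O = 1 := by
    by_contra k
    have : 2 ≤ S.iO O := by unfold iO; omega
    have := S.exc_four (by omega) hO0 hi (by omega) (by omega)
    omega
  have m0 : O ∈ S.OI b b' 1 := S.mem_OI.2 ⟨hO0, by omega, q0⟩
  have i1 := card_pos.2 ⟨_, m0⟩
  rcases hp.eq_or_lt with p1 | p1
  · have b1 := h.one hO0 le_rfl (by omega)
    have k6 : S.ql O1 ≤ S.pl O1 := by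
      by_contra k
      have := c2 2 (by omega) (by omega)
      have := S.na1_I hO (l := 2) (by omega) (by omega)
      have := S.na1_gam (b := b) (b' := b') 2
      have := h.two hO0 (i := 1) (j := 2) le_rfl (by omega) (by omega) (by omega) (by omega)
      rw [← p1] at c1 np
      omega
    obtain ⟨φ, hφ, T, t2, hT⟩ := S.na1_pair hb hO hx he k6
    have k := (S.na1_copy hb hO hφ hT).2
    rw [← p1] at k c1 np k6
    exact S.na1_nc hb (l := 1) (by omega) hy (k (by omega) k6 (by omega))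
      (S.na1_one (by omega) m0 q1.le) (S.na1_one (by omega) (S.mem_OP.2 ⟨hO, p1.symm⟩) k6)
  · have b1 := h.two hO0 le_rfl (by omega) hp (by omega) (by omega)
    obtain ⟨z, z1, z2, z3 | ⟨O', z3, -⟩⟩ := S.gam_cross (b := b) (b' := b') (by omega)
      (i := 2) (by omega) (by omega) (y := y) (by omega)
    · obtain ⟨w, -, w1, -, -, -, w2, -⟩ := S.gam_X (b := b) (by omega) (by omega) z3.2
      rcases Nat.eq_zero_or_pos (S.lo w) with w3 | w3
      · rw [w3] at w2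
        omega
      · rw [show S.lo w = 1 by omega] at w2
        omega
    · obtain ⟨z4, z5, z6⟩ := S.mem_OI.1 z3
      have z7 : 1 ≤ S.pl O' := Nat.pos_of_ne_zero fun e => by rw [u0 O' z4 e] at z6; omega
      have := S.na1_P z4 (l := 1) (by omega)
      rcases le_or_gt (S.pl O1) (S.ql O') with k | k
      · have := S.na1_I z4 (l := S.pl O1) (by omega) k
        omega
      · have := h.three hO0 (i := 1) (j := S.ql O') (k := S.pl O1) le_rfl (by omega) k (by omega)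
        exact S.na1_nc2 hb (by omega) hy z4 (by omega) rfl (by omega)

/-- the special orbit starts at a positive level -/
theorem Bud.caseB (h : S.Bud b b') (hb : b + 3 ≤ b') (h3 : 3 ≤ b) (hs : b + b' + 1 = 2 * m)
    (hy : b ≤ S.lo y) (hO : O1 ∈ S.Orbs b b') (hx : x ∈ O1) (he : S.hi (S.ρ (b' - 1) x) < b')
    (hp : 1 ≤ S.pl O1) : False := by
  obtain ⟨c1, -, c3⟩ := S.copy_gam hb hO hx he
  replace c3 := c3 hp
  have g0 := S.na1_gam (b := b) (b' := b') 0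
  have g1 := S.na1_gam (b := b) (b' := b') 1
  have np := S.na1_P hO rfl
  have r1 := S.Orbs_range (by omega) hO
  have ev := Nat.even_iff.1 (S.even_aX0 (b' := b') (by omega))
  have b1 := h.one hO hp (by omega)
  have n0 : 1 ≤ (S.OP b b' 0).card := Nat.pos_of_ne_zero fun e => by
    have k1 := S.na1_a0 hb
    have k2 := S.four_le_a0
    rw [card_eq_zero.1 e, sum_empty] at k1
    omega
  have small : 3 ≤ S.gam b b' 0 → ¬ ∃ O ∈ S.Orbs b b', S.pl O = 0 ∧ 1 ≤ S.iO O ∧ 2 < S.aO O 0 := by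
    rintro k ⟨O, k1, -, k2, k3⟩
    have := h.one k1 hp (by omega)
    have := S.na1_f1 hb k1 k2 (by omega) 0
    omega
  have lev1 : S.pl O1 = 1 ∧ 2 ≤ S.aX b' 1 ∧ 1 ≤ (S.OP b b' 1).card ∨
      1 < S.pl O1 ∧ ∀ O ∈ S.Orbs b b',
        2 * S.gam b b' 0 + 2 * S.gam b b' 1 + S.exc O ≤ 11 := by
    rcases hp.eq_or_lt with p1 | p1
    · rw [← p1] at c1 np
      exact Or.inl ⟨p1.symm, c1, np⟩
    · refine Or.inr ⟨p1, fun O k => ?_⟩
      have := h.two k le_rfl (by omega) hp (by omega) (by omega)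
      omega
  have b2 := h.one hO le_rfl (by omega)
  by_cases hc : ∃ O ∈ S.Orbs b b', S.ql O = 0
  · obtain ⟨O, k1, k2⟩ := hc
    rcases S.na1_stay h3 k1 k2 (Z := ∅) (by simp) 2 with k | k
    swap
    · omega
    have k3 : S.gam b b' 0 ≤ 2 := not_lt.1 fun e => small e k
    rcases S.na1_stay h3 k1 k2 (Z := ∅) (by simp) 5 with ⟨O', k4, k5, k6, k7⟩ | k
    swap
    · omega
    have r2 := S.Orbs_range (by omega) k1
    have n2 : 1 < (S.OP b b' 0).card := one_lt_card.2 ⟨O', S.mem_OP.2 ⟨k4, k5⟩, O,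
      S.mem_OP.2 ⟨k1, by omega⟩, fun e => by subst e; unfold iO at k6; omega⟩
    have b3 := h.one k4 hp (by omega)
    obtain ⟨k8, k9⟩ := S.na1_f4 hb k4 k5 k6 (by omega) k7
    have i1 := S.na1_I k4 (l := 1) (by omega) (by omega)
    have b4 := h.one k4 le_rfl (by omega)
    rcases lev1 with k | ⟨-, k⟩
    · omega
    · have := k O' k4
      exact S.na1_nc2 hb (by omega) hy k4 (by omega) k8 (by omega)
  · push Not at hc
    have i1 : (S.OP b b' 0).card ≤ (S.OI b b' 1).card := card_le_card fun O k => by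
      obtain ⟨k1, k2⟩ := S.mem_OP.1 k
      exact S.mem_OI.2 ⟨k1, by omega, Nat.pos_of_ne_zero (hc O k1)⟩
    have lev2 : S.pl O1 = 1 ∧ 2 ≤ S.aX b' 1 ∧ 1 ≤ (S.OP b b' 1).card ∨
        2 * S.gam b b' 0 + 2 * S.gam b b' 1 ≤ 11 :=
      lev1.imp id fun k => by have := k.2 O1 hO; omega
    rcases Nat.eq_zero_or_pos (S.aX b' 0) with x0 | x0
    · exact h.caseC hb h3 hs hy hO hx he hp x0 (by omega)
    obtain ⟨w, hw⟩ := card_pos.1 x0
    obtain ⟨w1, w2⟩ := S.mem_levX.1 hw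
    by_cases hw' : ∀ y, S.R (Set.Iic b) w y → S.lo y = 0
    · rcases S.na1_stair h3 hw' (Z := ∅) (by simp) (card_filter_le _ _) 2 with k | k
      · exact small (by omega) k
      · omega
    · push Not at hw'
      obtain ⟨u, u1, u2⟩ := hw'
      obtain ⟨-, z, z1, z2, -⟩ := u1.cross_lo (j := 1) (by omega) (by omega)
      have := S.na1_X z2 ((S.P_hi (by omega) z1).2.1 w2)
      omega

end

theorem na1 (hn : ∀ i, 1 ≤ i → i < m → 2 ≤ S.a i) : S.W (m - 2) (m + 1) = ∅ := by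
  by_contra hW
  have hm := S.hm
  obtain ⟨y, hy⟩ := S.s2
  obtain ⟨O, hO, x, hx, he⟩ := S.exists_O1 hy (nonempty_iff_ne_empty.2 hW)
  have h : S.Bud (m - 2) (m + 1) := fun t ht F hF => by
    have h1 := S.sumSym (b := m - 2) (b' := m + 1) (by omega) (by omega)
    have h2 := sum_excess (f := S.gam (m - 2) (m + 1)) (fun i hi => by
      have := mem_Icc.1 hi
      exact S.gam_two (by omega) this.1 this.2 (hn i this.1 (by omega))) ht
    have h3 := sum_le_sum_of_subset (f := S.exc) hF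
    have h4 : range (m - 2 + 1) = insert 0 (Icc 1 (m - 2)) := by
      ext i
      simp only [mem_range, mem_insert, mem_Icc]
      omega
    rw [h4, sum_insert (by simp)] at h1
    rw [Nat.card_Icc] at h2
    omega
  rcases Nat.eq_zero_or_pos (S.pl O) with hp | hp
  · exact h.caseA (by omega) (by omega) (y := y) (by omega) hO hx he hp
  · exact h.caseB (by omega) (by omega) (by omega) (y := y) (by omega) hO hx he hp

end SD
end D145
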