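import Pool.Agent.MP_d145c0_al.H75.S2
import Pool.Agent.MP_d145c0_al.H75.Dih
import Pool.Agent.MP_d145c0_al.H75.Cyc

/-! No single level: there is a cut vertex. -/

namespace D145
open Equiv Finset
namespace SD
variable {Ω : Type} [Fintype Ω] [DecidableEq Ω] {m : ℕ} (S : SD Ω m)

/-- the common hypotheses, `r = m - 2` -/
structure Na2 (r : ℕ) : Prop where
  hr : r + 2 = m
  hX : ∀ z, S.lo z ≤ r → S.hi z ≤ r + 2
  a0 : S.a 0 = 4
  a3 : ∀ l, 1 ≤ l → l ≤ r → S.a l ≤ 3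

/-- the central points -/
def InC (r : ℕ) (z : Ω) : Prop := r + 1 ≤ S.lo z ∧ S.hi z ≤ r + 2

theorem na2_len {l : ℕ} (L : List Ω) (hL : L.Nodup) (h : ∀ z ∈ L, S.lo z = l) :
    L.length ≤ S.a l := by
  rw [← List.toFinset_card_of_nodup hL]
  exact Finset.card_le_card fun z hz => S.mem_lev.2 (h z (List.mem_toFinset.1 hz))

theorem na2_three {l : ℕ} {x y z : Ω} (hx : S.lo x = l) (hy : S.lo y = l) (hz : S.lo z = l)
    (h1 : x ≠ y) (h2 : x ≠ z) (h3 : y ≠ z) : 3 ≤ S.a l :=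
  S.na2_len [x, y, z] (by simp [h1, h2, h3]) (by simp [hx, hy, hz])

theorem na2_four {l : ℕ} {x y z w : Ω} (hx : S.lo x = l) (hy : S.lo y = l) (hz : S.lo z = l)
    (hw : S.lo w = l) (h1 : x ≠ y) (h2 : x ≠ z) (h3 : y ≠ z) (h4 : x ≠ w) (h5 : y ≠ w)
    (h6 : z ≠ w) : 4 ≤ S.a l :=
  S.na2_len [x, y, z, w] (by simp [h1, h2, h3, h4, h5, h6]) (by simp [hx, hy, hz, hw])

theorem na2_mv {l : ℕ} {z : Ω} (h : S.lo z = l) : S.ρ l z ≠ z := h ▸ S.mv_lo z

/-- a label far above `l` carries edges between the levels below `l` -/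
theorem na2_lo {l j : ℕ} (hj : l + 2 ≤ j) {z : Ω} (h : S.lo (S.ρ l z) ≤ l) :
    S.lo (S.ρ l (S.ρ j z)) = S.lo (S.ρ l z) := by
  rw [S.comm' (.inl hj), S.lo_far (by omega)]

variable {S} {r : ℕ}

theorem Na2.three (c : S.Na2 r) : 3 ≤ r := by
  have := S.hm
  have := c.hr
  omega

theorem Na2.dmu (c : S.Na2 r) (z : Ω) : S.ρ (r + 2) (S.δ z) = S.δ (S.ρ (r + 1) z) :=
  S.δ_edge (by have := c.hr; omega) z

theorem Na2.dnu (c : S.Na2 r) (z : Ω) : S.ρ (r + 1) (S.δ z) = S.δ (S.ρ (r + 2) z) :=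
  S.δ_edge (by have := c.hr; omega) z

theorem Na2.C_δ (c : S.Na2 r) {z : Ω} (h : S.InC r z) : S.InC r (S.δ z) := by
  have h1 := S.lo_δ z
  have h2 := S.hi_δ z
  have := c.hr
  unfold InC at h ⊢
  omega

theorem Na2.mu_X (c : S.Na2 r) {z : Ω} (h : S.lo z ≤ r) :
    S.lo (S.ρ (r + 1) z) = S.lo z ∨ (S.lo z = r ∧ S.InC r (S.ρ (r + 1) z)) := by
  have h1 := S.lo_step (r + 1) z
  have h2 := S.hi_step (r + 1) z
  have h3 := c.hX z h
  unfold InC
  omega

theorem na2_mu_C {z : Ω} (h : S.InC r z) :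
    S.InC r (S.ρ (r + 1) z) ∨ S.lo (S.ρ (r + 1) z) = r := by
  have h1 := S.lo_step (r + 1) z
  have h2 := S.hi_step (r + 1) z
  unfold InC at h ⊢
  omega

theorem na2_nu {z : Ω} (h : S.lo z ≤ r) : S.lo (S.ρ (r + 2) z) = S.lo z :=
  S.lo_far (by omega)

/-- no set of central points is closed under both labels -/
theorem Na2.closedC (c : S.Na2 r) {U : Set Ω} {x : Ω} (hx : x ∈ U) (hC : ∀ z ∈ U, S.InC r z)
    (hd : ∀ z ∈ U, S.δ z ∈ U) (h1 : ∀ z ∈ U, S.ρ (r + 1) z ∈ U) : False := by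
  obtain ⟨u, hu⟩ := S.exists_lo_zero
  have := (hC u (S.conn hx (fun i z hz => ?_) u)).1
  · omega
  by_cases e1 : i = r + 1
  · exact e1 ▸ h1 z hz
  by_cases e2 : i = r + 2
  · have := hd _ (h1 _ (hd z hz))
    rwa [← c.dmu, S.dinv, ← e2] at this
  have h2 := hC z hz
  rcases Nat.lt_or_ge i (r + 1) with e | e
  · rw [S.fix_lo (by have := h2.1; omega)]
    exact hz
  · rw [S.fix_hi (by have := h2.2; omega)]
    exact hz

theorem Na2.both (c : S.Na2 r) {o : Ω} (h : S.InC r o) (hd : S.δ o = o) :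
    S.lo o = r + 1 ∧ S.hi o = r + 2 := by
  have h1 := S.lo_δ o
  have h2 := S.lo_le_hi o
  have := c.hr
  rw [hd] at h1
  unfold InC at h
  omega

theorem Na2.smallX (c : S.Na2 r) {P : Set Ω} (h1 : ∀ z ∈ P, S.ρ (r + 1) z ∈ P)
    (h2 : ∀ z ∈ P, S.ρ (r + 2) z ∈ P) (hC : ∀ z, S.InC r z → z ∈ P) {y : Ω} (hy : y ∉ P)
    (hl : S.lo y ≤ r) : ∃ U : Finset Ω, y ∈ U ∧ U.card ≤ 4 ∧
      ∀ z ∈ U, S.ρ (r + 1) z ∈ U ∧ S.ρ (r + 2) z ∈ U := by
  classical
  refine ⟨(S.lev (S.lo y)).filter (fun z => z ∉ P), by simpa using hy, ?_, fun z hz => ?_⟩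
  · refine (Finset.card_filter_le _ _).trans ?_
    change S.a _ ≤ 4
    rcases Nat.eq_zero_or_pos (S.lo y) with e | e
    · rw [e, c.a0]
    · have := c.a3 _ e hl
      omega
  · simp only [mem_filter, mem_lev] at hz ⊢
    have a1 : S.ρ (r + 1) z ∉ P := fun h => hz.2 (by simpa only [S.inv] using h1 _ h)
    have a2 : S.ρ (r + 2) z ∉ P := fun h => hz.2 (by simpa only [S.inv] using h2 _ h)
    refine ⟨⟨?_, a1⟩, by rw [na2_nu (by omega), hz.1], a2⟩
    rcases c.mu_X (z := z) (by omega) with e | e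
    · rw [e, hz.1]
    · exact absurd (hC _ e.2) a1

theorem Na2.off12 (c : S.Na2 r) {P : Set Ω} (hd : ∀ z ∈ P, S.δ z ∈ P)
    (h1 : ∀ z ∈ P, S.ρ (r + 1) z ∈ P) (hC : ∀ z, S.InC r z → z ∈ P) {i j : ℕ}
    (hi : i = r + 1 ∨ i = r + 2) (hj : j = r + 1 ∨ j = r + 2) {y : Ω} (hy : y ∉ P) :
    ((S.ρ i * S.ρ j) ^ 12) y = y := by
  have h2 : ∀ z ∈ P, S.ρ (r + 2) z ∈ P := fun z hz => by
    have := hd _ (h1 _ (hd z hz))
    rwa [← c.dmu, S.dinv] at this
  obtain ⟨U, hU, hc, hcl⟩ : ∃ U : Finset Ω, y ∈ U ∧ U.card ≤ 4 ∧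
      ∀ z ∈ U, S.ρ (r + 1) z ∈ U ∧ S.ρ (r + 2) z ∈ U := by
    by_cases hl : S.lo y ≤ r
    · exact c.smallX h1 h2 hC hy hl
    · have a1 : ¬ S.InC r y := fun h => hy (hC y h)
      have a2 := S.lo_δ y
      have := c.hr
      obtain ⟨U, hU, hc, hcl⟩ := c.smallX h1 h2 hC (y := S.δ y)
        (fun h => hy (by simpa only [S.dinv] using hd _ h)) (by unfold InC at a1; omega)
      refine ⟨U.image S.δ, Finset.mem_image.2 ⟨_, hU, S.dinv y⟩,
        Finset.card_image_le.trans hc, fun z hz => ?_⟩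
      obtain ⟨w, hw, rfl⟩ := Finset.mem_image.1 hz
      rw [c.dmu, c.dnu]
      exact ⟨Finset.mem_image_of_mem _ (hcl w hw).2, Finset.mem_image_of_mem _ (hcl w hw).1⟩
  have h3 : ∀ k, k = r + 1 ∨ k = r + 2 → ∀ z ∈ U, S.ρ k z ∈ U := by
    rintro k (rfl | rfl) z hz
    exacts [(hcl z hz).1, (hcl z hz).2]
  exact pow12 (fun z hz => h3 i hi (S.ρ j z) (h3 j hj z hz)) hc hU

theorem Na2.kill (c : S.Na2 r) {U : Set Ω} (hU : AltIn (S.G (Set.Iic (r + 2))) U)
    (hd : ∀ z ∈ U, S.δ z ∈ U) {x y z w : Ω} (hx : x ∈ U) (hy : y ∈ U) (hz : z ∈ U) (hw : w ∈ U)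
    (hxy : x ≠ y) (hxz : x ≠ z) (hxw : x ≠ w) (hyz : y ≠ z) (hyw : y ≠ w) (hzw : z ≠ w) :
    False := by
  have h1 : AltIn (S.G (Set.Ici (r + 1))) U :=
    (S.altIn_dual hU (J := Set.Ici (r + 1)) fun i hi _ => by
      have := c.hr
      rw [Set.mem_Iic] at hi
      rw [Set.mem_Ici]
      omega).mono le_rfl hd
  have h2 := S.ipAlt hU h1
  rw [Set.inter_self, (S.G_pair (r + 1) : S.G (Set.Icc (r + 1) (r + 2)) = _)] at h2
  exact dk4pts (S.inv _) (S.inv _) h2 hx hy hz hw hxy hxz hxw hyz hyw hzw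

theorem Na2.kill5 (c : S.Na2 r) {x1 x2 x3 : Ω} (e1 : S.ρ (r + 1) x1 = x2)
    (e2 : S.ρ (r + 2) x2 = x3) (f1 : S.ρ (r + 2) x1 = x1) (d3 : S.δ x3 = x3) (n23 : x2 ≠ x3)
    (l1 : S.lo x1 = r) (l2 : S.InC r x2) (l3 : S.InC r x3)
    (hC : ∀ z, S.InC r z → z = x2 ∨ z = x3 ∨ z = S.δ x2) : False := by
  have n12 : x1 ≠ x2 := fun e => by have := l2.1; rw [← e] at this; omega
  have e3 : S.ρ (r + 1) x3 = S.δ x2 := by rw [← d3, c.dnu, S.ρ_swap e2]
  have e4 : S.ρ (r + 2) (S.δ x2) = S.δ x1 := by rw [c.dmu, S.ρ_swap e1]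
  have f5 : S.ρ (r + 1) (S.δ x1) = S.δ x1 := by rw [c.dnu, f1]
  have n34 : x3 ≠ S.δ x2 := fun e => n23 (S.δ_inj (by rw [d3, e]))
  have n45 : S.δ x2 ≠ S.δ x1 := fun e => n12 (S.δ_inj e).symm
  have hd : ∀ z ∈ ({x1, x2, x3, S.δ x2, S.δ x1} : Set Ω),
      S.δ z ∈ ({x1, x2, x3, S.δ x2, S.δ x1} : Set Ω) := by
    rintro _ (rfl | rfl | rfl | rfl | rfl) <;> simp [S.dinv, d3]
  have h1 : ∀ z ∈ ({x1, x2, x3, S.δ x2, S.δ x1} : Set Ω),
      S.ρ (r + 1) z ∈ ({x1, x2, x3, S.δ x2, S.δ x1} : Set Ω) := by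
    intro z hz
    rcases hz with h | h | h | h | h <;> rw [h]
    · simp [e1]
    · simp [S.ρ_swap e1]
    · simp [e3]
    · simp [S.ρ_swap e3]
    · simp [f5]
  have hm : ∀ k, k ≤ r + 2 → S.ρ k ∈ S.G (Set.Iic (r + 2)) := fun k hk => S.ρ_mem hk
  obtain ⟨hA, n13, n14, n24⟩ := path5 (g := S.ρ r) (h := 1) (hm _ (by omega)) (hm _ le_rfl)
    (hm _ (by omega)) (one_mem _) (S.inv _) (S.inv _) e1 e2 e3 e4 f1 f5 n12 n23 n34 n45
    (fun y hy => c.off12 hd h1 (fun z hz => by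
      rcases hC z hz with h | h | h <;> simp [h]) (.inl rfl) (.inr rfl) hy)
    (y0 := x1) (by simp) (S.na2_mv l1) (by
      intro y hy hn
      refine S.fix_lo ?_
      have a1 := l2.1
      have a2 := l3.1
      have a3 := (c.C_δ l2).1
      have a4 := S.lo_δ x1
      have a5 := c.hX x1 l1.le
      have := c.hr
      rw [Perm.one_apply]
      rcases hy with h | h | h | h | h
      · exact absurd h hn
      all_goals rw [h]; omega)
  exact c.kill hA hd (x := x1) (y := x2) (z := x3) (w := S.δ x2) (by simp) (by simp) (by simp)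
    (by simp) n12 n13 n14 n23 n24 n34

/-- the symmetric path on seven points -/
def P7 (S : SD Ω m) (x1 x2 x3 x4 : Ω) : Set Ω := {x1, x2, x3, x4, S.δ x3, S.δ x2, S.δ x1}

theorem Na2.kill7 (c : S.Na2 r) {i j : ℕ} (hij : i = r + 1 ∧ j = r + 2 ∨ i = r + 2 ∧ j = r + 1)
    {x1 x2 x3 x4 : Ω} (e1 : S.ρ i x1 = x2) (e2 : S.ρ j x2 = x3) (e3 : S.ρ i x3 = x4)
    (f1 : S.ρ j x1 = x1) (d4 : S.δ x4 = x4) (n12 : x1 ≠ x2) (n23 : x2 ≠ x3) (n34 : x3 ≠ x4)
    (hC : ∀ z, S.InC r z → z ∈ S.P7 x1 x2 x3 x4)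
    (hg : (∃ g ∈ S.G (Set.Iic (r + 2)), ∃ h ∈ S.G (Set.Iic (r + 2)), ∃ y0 ∈ S.P7 x1 x2 x3 x4,
        g (h y0) ≠ h y0 ∧ ∀ y ∈ S.P7 x1 x2 x3 x4, y ≠ y0 → g (h y) = h y) ∨
      ∃ y0 ∈ S.P7 x1 x2 x3 x4, ∃ y1 ∈ S.P7 x1 x2 x3 x4, y0 ≠ y1 ∧
        S.ρ r y0 ∉ S.P7 x1 x2 x3 x4 ∧ S.ρ r y1 ∉ S.P7 x1 x2 x3 x4 ∧
        ∀ y ∈ S.P7 x1 x2 x3 x4, y ≠ y0 → y ≠ y1 → S.ρ r y = y) : False := by
  have hr := c.hr
  have di : ∀ z, S.ρ i (S.δ z) = S.δ (S.ρ j z) := S.δ_edge (by omega)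
  have dj : ∀ z, S.ρ j (S.δ z) = S.δ (S.ρ i z) := S.δ_edge (by omega)
  have e4 : S.ρ j x4 = S.δ x3 := by rw [← d4, dj, S.ρ_swap e3]
  have e5 : S.ρ i (S.δ x3) = S.δ x2 := by rw [di, S.ρ_swap e2]
  have e6 : S.ρ j (S.δ x2) = S.δ x1 := by rw [dj, S.ρ_swap e1]
  have f7 : S.ρ i (S.δ x1) = S.δ x1 := by rw [di, f1]
  have n45 : x4 ≠ S.δ x3 := fun e => n34 (S.δ_inj (by rw [d4, e]))
  have n56 : S.δ x3 ≠ S.δ x2 := fun e => n23 (S.δ_inj e).symm
  have n67 : S.δ x2 ≠ S.δ x1 := fun e => n12 (S.δ_inj e).symm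
  have hd : ∀ z ∈ S.P7 x1 x2 x3 x4, S.δ z ∈ S.P7 x1 x2 x3 x4 := by
    intro z hz
    rcases hz with h | h | h | h | h | h | h <;> rw [h] <;> simp [P7, S.dinv, d4]
  have hi : ∀ z ∈ S.P7 x1 x2 x3 x4, S.ρ i z ∈ S.P7 x1 x2 x3 x4 := by
    intro z hz
    rcases hz with h | h | h | h | h | h | h <;> rw [h]
    · simp [P7, e1]
    · simp [P7, S.ρ_swap e1]
    · simp [P7, e3]
    · simp [P7, S.ρ_swap e3]
    · simp [P7, e5]
    · simp [P7, S.ρ_swap e5]
    · simp [P7, f7]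
  have h1 : ∀ z ∈ S.P7 x1 x2 x3 x4, S.ρ (r + 1) z ∈ S.P7 x1 x2 x3 x4 := by
    rcases hij with h | h
    · exact h.1 ▸ hi
    · intro z hz
      have := hd _ (hi _ (hd z hz))
      rwa [← dj, S.dinv, h.2] at this
  have hm : ∀ k, k ≤ r + 2 → S.ρ k ∈ S.G (Set.Iic (r + 2)) := fun k hk => S.ρ_mem hk
  have ho : ∀ y, y ∉ S.P7 x1 x2 x3 x4 → ((S.ρ i * S.ρ j) ^ 12) y = y := fun y hy =>
    c.off12 hd h1 hC (by omega) (by omega) hy
  obtain ⟨hA, n13, n14, n24⟩ : AltIn (S.G (Set.Iic (r + 2))) (S.P7 x1 x2 x3 x4) ∧ x1 ≠ x3 ∧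
      x1 ≠ x4 ∧ x2 ≠ x4 := by
    rcases hg with ⟨g, hg, h, hh, y0, hy0, g0, g1⟩ | ⟨y0, hy0, y1, hy1, hne, g0, g0', g1⟩
    · exact path7 (hm _ (by omega)) (hm _ (by omega)) hg hh (S.inv _) (S.inv _)
        e1 e2 e3 e4 e5 e6 f1 f7 n12 n23 n34 n45 n56 n67 ho hy0 g0 g1
    · exact path7two (hm _ (by omega)) (hm _ (by omega)) (hm r (by omega)) (S.inv _) (S.inv _)
        (S.inv _) e1 e2 e3 e4 e5 e6 f1 f7 n12 n23 n34 n45 n56 n67 ho hy0 hy1 hne g0 g0' g1
  exact c.kill hA hd (x := x1) (y := x2) (z := x3) (w := x4) (by simp [P7]) (by simp [P7])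
    (by simp [P7]) (by simp [P7]) n12 n13 n14 n23 n24 n34

theorem Na2.lo_dX (c : S.Na2 r) {z : Ω} (h : S.lo z ≤ r) : r + 1 ≤ S.lo (S.δ z) := by
  have h1 := S.lo_δ z
  have h2 := c.hX z h
  have := c.hr
  omega

/-- both points of a level with two points come from the level below -/
theorem na2_down {l : ℕ} (h1 : 1 ≤ l) (h2 : S.a l ≤ 2) {z : Ω} (hz : S.lo z = l) :
    S.lo (S.ρ l z) + 1 = l := by
  obtain ⟨w, w1, w2⟩ := S.cross h1 hz.ge
  by_contra hn
  have h3 := S.lo_step l z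
  have h4 : S.lo (S.ρ l z) = l := by omega
  have := S.na2_three hz h4 w1 (S.na2_mv hz).symm (fun e => hn (e ▸ w2))
    fun e => by rw [← e, S.inv] at w2; omega
  omega

/-- the two points of level `r` lie on the path, the others are higher -/
theorem Na2.kill7two (c : S.Na2 r) (h2 : S.a r ≤ 2) {i j : ℕ}
    (hij : i = r + 1 ∧ j = r + 2 ∨ i = r + 2 ∧ j = r + 1)
    {x1 x2 x3 x4 : Ω} (e1 : S.ρ i x1 = x2) (e2 : S.ρ j x2 = x3) (e3 : S.ρ i x3 = x4)
    (f1 : S.ρ j x1 = x1) (d4 : S.δ x4 = x4) (n12 : x1 ≠ x2) (n23 : x2 ≠ x3) (n34 : x3 ≠ x4)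
    (hC : ∀ z, S.InC r z → z ∈ S.P7 x1 x2 x3 x4) (l2 : S.lo x2 = r) (l4 : S.InC r x4)
    (l13 : S.lo x1 = r ∧ S.InC r x3 ∨ S.InC r x1 ∧ S.lo x3 = r) : False := by
  have h3 := c.three
  have a2 := c.lo_dX l2.le
  have a4 := l4.1
  have key : ∀ y0 ∈ S.P7 x1 x2 x3 x4, y0 ≠ x2 → S.lo y0 = r →
      (∀ y ∈ S.P7 x1 x2 x3 x4, y = y0 ∨ y = x2 ∨ r + 1 ≤ S.lo y) → False := by
    intro y0 hy0 hne hl hall
    have hout : ∀ y, S.lo y = r → S.ρ r y ∉ S.P7 x1 x2 x3 x4 := fun y hy hm => by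
      have := na2_down (by omega) h2 hy
      rcases hall _ hm with h | h | h
      · rw [h] at this; omega
      · rw [h] at this; omega
      · omega
    refine c.kill7 hij e1 e2 e3 f1 d4 n12 n23 n34 hC (.inr ⟨y0, hy0, x2, by simp [P7], hne,
      hout _ hl, hout _ l2, fun y hy a b => S.fix_lo ?_⟩)
    rcases hall y hy with h | h | h
    exacts [absurd h a, absurd h b, h]
  rcases l13 with ⟨l1, l3⟩ | ⟨l1, l3⟩
  · refine key x1 (by simp [P7]) n12 l1 fun y hy => ?_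
    have a1 := c.lo_dX l1.le
    have a3 := l3.1
    have a5 := (c.C_δ l3).1
    rcases hy with h | h | h | h | h | h | h <;> rw [h] <;> simp [*]
  · refine key x3 (by simp [P7]) n23.symm l3 fun y hy => ?_
    have a1 := c.lo_dX l3.le
    have a3 := l1.1
    have a5 := (c.C_δ l1).1
    rcases hy with h | h | h | h | h | h | h <;> rw [h] <;> simp [*]

/-- no edge with label `r + 1` joins a moved and a fixed point of `r + 2` on level zero -/
theorem Na2.link0 (c : S.Na2 r) {w : Ω} (h0 : S.lo w = 0) (hw : S.ρ (r + 2) w ≠ w)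
    (hw' : S.ρ (r + 2) (S.ρ (r + 1) w) = S.ρ (r + 1) w) : False := by
  have h3 := c.three
  have l0 : ∀ z, S.lo z = 0 → S.lo (S.ρ 0 z) = 0 := fun z hz => by
    have := S.lo_step 0 z
    omega
  have l1 : S.lo (S.ρ (r + 1) w) = 0 := by rw [S.lo_far (by omega), h0]
  have m0 : S.ρ (r + 2) (S.ρ 0 w) ≠ S.ρ 0 w := by rwa [Ne, S.fix_comm (.inl (by omega))]
  have m1 : S.ρ (r + 2) (S.ρ 0 (S.ρ (r + 1) w)) = S.ρ 0 (S.ρ (r + 1) w) := by
    rwa [S.fix_comm (.inl (by omega))]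
  have n1 : w ≠ S.ρ 0 w := (S.na2_mv h0).symm
  have n2 : w ≠ S.ρ (r + 1) w := fun e => hw (by rwa [← e] at hw')
  have n3 : S.ρ 0 w ≠ S.ρ (r + 1) w := fun e => m0 (by rwa [← e] at hw')
  have n4 : w ≠ S.ρ 0 (S.ρ (r + 1) w) := fun e => hw (by rwa [← e] at m1)
  have n5 : S.ρ 0 w ≠ S.ρ 0 (S.ρ (r + 1) w) := fun e => m0 (by rwa [← e] at m1)
  have n6 : S.ρ (r + 1) w ≠ S.ρ 0 (S.ρ (r + 1) w) := (S.na2_mv l1).symm
  have hall : ∀ z, S.lo z = 0 →
      z = w ∨ z = S.ρ 0 w ∨ z = S.ρ (r + 1) w ∨ z = S.ρ 0 (S.ρ (r + 1) w) := fun z hz => by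
    by_contra hn
    simp only [not_or] at hn
    have := S.na2_len (l := 0) [z, w, S.ρ 0 w, S.ρ (r + 1) w, S.ρ 0 (S.ρ (r + 1) w)]
      (by simp [hn.1, hn.2.1, hn.2.2.1, hn.2.2.2, n1, n2, n3, n4, n5, n6])
      (by simp [hz, h0, l0 w h0, l1, l0 _ l1])
    rw [c.a0] at this
    simp at this
  have e : S.ρ (r + 2) w = S.ρ 0 w := by
    rcases hall (S.ρ (r + 2) w) (by rw [na2_nu (by omega), h0]) with h | h | h | h
    · exact absurd h hw
    · exact h
    · exact absurd ((S.ρ_swap h).symm.trans hw') n2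
    · exact absurd ((S.ρ_swap h).symm.trans m1) n4
  have up : ∀ z, S.lo z = 0 → S.lo (S.ρ 1 z) ≤ 1 := fun z hz => by
    have := S.lo_step 1 z
    omega
  have u1 : S.lo (S.ρ 1 (S.ρ (r + 1) w)) = S.lo (S.ρ 1 w) := S.na2_lo (by omega) (up w h0)
  have u2 : S.lo (S.ρ 1 (S.ρ 0 w)) = S.lo (S.ρ 1 w) := by
    rw [← e]
    exact S.na2_lo (by omega) (up w h0)
  have u3 : S.lo (S.ρ 1 (S.ρ 0 (S.ρ (r + 1) w))) = S.lo (S.ρ 1 w) := by
    rw [S.comm' (i := 0) (.inl (by omega)), S.na2_lo (by omega) (up _ (l0 w h0)), u2]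
  obtain ⟨y, hy⟩ := S.s2
  obtain ⟨z, z1, z2⟩ := S.cross (j := 1) le_rfl (y := y) (by have := S.hm; omega)
  have u0 : S.lo (S.ρ 1 w) = 1 := by
    rcases hall (S.ρ 1 z) (by omega) with h | h | h | h
    · rw [← h, S.inv, z1]
    · rw [← u2, ← h, S.inv, z1]
    · rw [← u1, ← h, S.inv, z1]
    · rw [← u3, ← h, S.inv, z1]
  have := S.na2_four u0 (u2.trans u0) (u1.trans u0) (u3.trans u0) (fun h => n1 (S.ρ_inj h))
    (fun h => n2 (S.ρ_inj h)) (fun h => n3 (S.ρ_inj h)) (fun h => n4 (S.ρ_inj h))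
    (fun h => n5 (S.ρ_inj h)) (fun h => n6 (S.ρ_inj h))
  have := c.a3 1 le_rfl (by omega)
  omega

/-- the labels other than `r + 1` keep the low points and the label `r + 2` on them -/
theorem Na2.M_pres (c : S.Na2 r) {z : Ω} (hz : S.lo z ≤ r) {i : ℕ} (hi : i ≠ r + 1) :
    S.lo (S.ρ i z) ≤ r ∧ (S.ρ (r + 2) (S.ρ i z) = S.ρ i z ↔ S.ρ (r + 2) z = z) := by
  refine ⟨by have := S.lo_step i z; omega, ?_⟩
  rcases lt_trichotomy i (r + 2) with e | rfl | e
  · exact S.fix_comm (.inl (by omega)) z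
  · exact S.fix_self _ z
  · rw [S.fix_hi (i := i) (by have := c.hX z hz; omega)]

/-- an edge that joins the two kinds of low points -/
theorem Na2.link (c : S.Na2 r) {p : Prop} {x : Ω} (hx : S.lo x ≤ r) (hp : S.ρ (r + 2) x = x ↔ p)
    (hC : ∀ z, S.lo z = r → (S.ρ (r + 2) z = z ↔ p) → ¬ S.InC r (S.ρ (r + 1) z)) :
    ∃ w, S.lo w ≤ r ∧ S.lo (S.ρ (r + 1) w) = S.lo w ∧ S.ρ (r + 2) w ≠ w ∧
      S.ρ (r + 2) (S.ρ (r + 1) w) = S.ρ (r + 1) w := by
  by_contra hn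
  push Not at hn
  obtain ⟨y, hy⟩ := S.s2
  have := (S.conn (U := {z | S.lo z ≤ r ∧ (S.ρ (r + 2) z = z ↔ p)}) (x := x) ⟨hx, hp⟩
    (fun i z hz => ?_) y).1
  · have := c.hr
    omega
  by_cases hi : i = r + 1
  · subst hi
    have h1 : S.lo (S.ρ (r + 1) z) = S.lo z :=
      (c.mu_X hz.1).resolve_right fun h => hC z h.1 hz.2 h.2
    refine ⟨h1 ▸ hz.1, Iff.trans ⟨fun h => ?_, fun h => ?_⟩ hz.2⟩
    · by_contra h2
      exact hn z hz.1 h1 h2 h
    · by_contra h2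
      exact hn _ (h1 ▸ hz.1) (by rw [S.inv, h1]) h2 (by rwa [S.inv])
  · exact ⟨(c.M_pres hz.1 hi).1, (c.M_pres hz.1 hi).2.trans hz.2⟩

theorem na2_link3 {w : Ω} (h0 : S.lo w ≤ r) (h1 : S.lo (S.ρ (r + 1) w) = S.lo w)
    (hw : S.ρ (r + 2) w ≠ w) (hw' : S.ρ (r + 2) (S.ρ (r + 1) w) = S.ρ (r + 1) w) :
    w ≠ S.ρ (r + 1) w ∧ S.ρ (r + 2) w ≠ S.ρ (r + 1) w ∧ 3 ≤ S.a (S.lo w) := by
  have n2 : w ≠ S.ρ (r + 1) w := fun e => hw (by rwa [← e] at hw')
  have n3 : S.ρ (r + 2) w ≠ S.ρ (r + 1) w := fun e => n2 ((S.ρ_swap e).symm.trans hw')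
  exact ⟨n2, n3, S.na2_three rfl (na2_nu h0) h1 hw.symm n2 n3⟩

/-- one central point -/
theorem Na2.one (c : S.Na2 r) {o : Ω} (ho : S.InC r o) (hC : ∀ z, S.InC r z → z = o)
    (h2 : 2 ≤ S.a (r + 1)) {l : ℕ} (hl : l ≤ r) (h3 : S.a l = 3)
    (h4 : ∀ k, 1 ≤ k → k ≤ r → k ≠ l → S.a k ≤ 2) : False := by
  have hr := c.hr
  have r3 := c.three
  have hd : S.δ o = o := hC _ (c.C_δ ho)
  have hb := c.both ho hd
  have mo : S.ρ (r + 1) o ≠ o := S.na2_mv hb.1
  have z0 : S.lo (S.ρ (r + 1) o) = r := (na2_mu_C ho).resolve_left fun h => mo (hC _ h)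
  obtain ⟨u, u1, u2⟩ : ∃ u, S.lo u ≤ r ∧ S.ρ (r + 2) u ≠ u := by
    obtain ⟨y, hy, hne⟩ := Finset.exists_mem_ne (s := S.lev (r + 1)) h2 o
    rw [mem_lev] at hy
    have a1 : ¬ S.InC r y := fun h => hne (hC y h)
    have a2 := S.lo_δ y
    refine ⟨S.δ y, by unfold InC at a1; omega, ?_⟩
    rw [c.dmu]
    exact fun h => S.na2_mv hy (S.δ_inj h)
  obtain ⟨u', v1, v2⟩ : ∃ u, S.lo u ≤ r ∧ S.ρ (r + 2) u = u := by
    by_contra hn
    push Not at hn
    have := even_card_of_inv (S.ρ (r + 2)) (S.lev l) (S.inv _) fun z hz => by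
      rw [mem_lev] at hz ⊢
      exact ⟨by rw [na2_nu (by omega), hz], hn z (by omega)⟩
    change Even (S.a l) at this
    rw [h3] at this
    exact absurd this (by decide)
  obtain ⟨w, w0, w1, w2, w3⟩ : ∃ w, S.lo w ≤ r ∧ S.lo (S.ρ (r + 1) w) = S.lo w ∧
      S.ρ (r + 2) w ≠ w ∧ S.ρ (r + 2) (S.ρ (r + 1) w) = S.ρ (r + 1) w := by
    by_cases e : S.ρ (r + 2) (S.ρ (r + 1) o) = S.ρ (r + 1) o
    · refine c.link (p := False) u1 (iff_false_intro u2) fun z _ hz h => hz.1 ?_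
      rwa [← S.ρ_swap (hC _ h)]
    · refine c.link (p := True) v1 (iff_true_intro v2) fun z _ hz h => e ?_
      rw [S.ρ_swap (hC _ h)]
      exact hz.2 trivial
  obtain ⟨n2, n3, a3⟩ := na2_link3 w0 w1 w2 w3
  rcases Nat.eq_zero_or_pos (S.lo w) with e0 | e0
  · exact c.link0 e0 w2 w3
  have el : S.lo w = l := by
    by_contra hn
    have := h4 _ e0 w0 hn
    omega
  have lq : S.lo (S.ρ (r + 2) w) = l := by rw [na2_nu w0, el]
  have lz : S.lo (S.ρ (r + 1) w) = l := w1.trans el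
  have hall : ∀ z, S.lo z = l → z = w ∨ z = S.ρ (r + 2) w ∨ z = S.ρ (r + 1) w := fun z hz => by
    by_contra hn
    simp only [not_or] at hn
    have := S.na2_four hz el lq lz hn.1 hn.2.1 w2.symm hn.2.2 n2 n3
    omega
  have dn : ∀ z, S.lo z = l → S.lo (S.ρ l z) ≤ l := fun z hz => by
    have := S.lo_step l z
    omega
  have q1 : S.lo (S.ρ l (S.ρ (r + 2) w)) = S.lo (S.ρ l w) := S.na2_lo (by omega) (dn w el)
  -- three points cannot go down to a level with two points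
  have no3 : 2 ≤ l → S.lo (S.ρ l w) + 1 = l → S.lo (S.ρ l (S.ρ (r + 1) w)) + 1 = l → False := by
    intro a1 a2 a4
    have := S.na2_three (l := l - 1) (x := S.ρ l w) (y := S.ρ l (S.ρ (r + 2) w))
      (z := S.ρ l (S.ρ (r + 1) w)) (by omega) (by omega) (by omega)
      (fun h => w2 (S.ρ_inj h).symm) (fun h => n2 (S.ρ_inj h)) fun h => n3 (S.ρ_inj h)
    have := h4 (l - 1) (by omega) (by omega) (by omega)
    omega
  have mw := (c.M_pres (i := l) w0 (by omega)).2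
  have mq := (c.M_pres (i := l) (z := S.ρ (r + 2) w) (by omega) (by omega)).2
  have mz := (c.M_pres (i := l) (z := S.ρ (r + 1) w) (by omega) (by omega)).2
  rw [S.fix_self] at mq
  have zd : S.lo (S.ρ l (S.ρ (r + 1) w)) + 1 = l := by
    by_contra hn
    have a1 := S.lo_step l (S.ρ (r + 1) w)
    rcases hall (S.ρ l (S.ρ (r + 1) w)) (by omega) with h | h | h
    · rw [h] at mz
      exact w2 (mz.2 w3)
    · rw [h, S.fix_self] at mz
      exact w2 (mz.2 w3)
    · exact S.na2_mv lz h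
  rcases hl.eq_or_lt with rfl | hlt
  · have eq : S.ρ (l + 1) (S.ρ (l + 2) w) = o := by
      rcases hall _ z0 with h | h | h
      · rw [S.ρ_swap h] at lz
        omega
      · exact S.ρ_swap h
      · rw [← S.ρ_inj h] at el
        omega
    have wl : S.lo (S.ρ l w) = l := by
      by_contra hn
      have a1 := S.lo_step l w
      exact no3 (by omega) (by omega) zd
    obtain ⟨k, rfl⟩ : ∃ k, l = k + 1 := ⟨l - 1, by omega⟩
    refine c.kill7 (.inl ⟨rfl, rfl⟩) (S.inv _ w) rfl eq w3 hd n2.symm w2.symm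
      (fun h => by rw [h] at lq; omega) (fun z hz => by simp [P7, hC z hz])
      (.inl ⟨S.ρ k, S.ρ_mem (by rw [Set.mem_Iic]; omega), S.ρ (k + 1),
        S.ρ_mem (by rw [Set.mem_Iic]; omega), S.ρ (k + 1 + 1) w, by simp [P7],
        S.na2_mv (by omega), fun y hy hn => S.fix_lo ?_⟩)
    have hi : ∀ z, k + 2 ≤ S.lo z → k < S.lo (S.ρ (k + 1) z) := fun z hz => by
      rw [S.fix_lo (by omega)]
      omega
    rcases hy with h | h | h | h | h | h | h
    · exact absurd h hn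
    · rw [h]; omega
    · rw [h]; omega
    · rw [h]; exact hi _ hb.1.ge
    · rw [h]; exact hi _ (c.lo_dX lq.le)
    · rw [h]; exact hi _ (c.lo_dX el.le)
    · rw [h]; exact hi _ (c.lo_dX lz.le)
  · have q2 : S.lo (S.ρ l (S.ρ (r + 1) w)) = S.lo (S.ρ l w) := S.na2_lo (by omega) (dn w el)
    have l1 : l = 1 := by
      by_contra hn
      exact no3 (by omega) (by omega) zd
    subst l1
    refine c.link0 (w := S.ρ 1 w) (by omega) (fun h => w2 (mw.1 h)) ?_
    rw [← S.comm' (i := 1) (.inl (by omega))]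
    exact mz.2 w3

/-- three central points -/
theorem Na2.three_pts (c : S.Na2 r) (h2 : ∀ k, 1 ≤ k → k ≤ r → S.a k ≤ 2) {o p q : Ω}
    (ho : S.InC r o) (hd : S.δ o = o) (hp : S.InC r p) (hq : S.InC r q) (npo : p ≠ o)
    (nqo : q ≠ o) (npq : p ≠ q) (hC : ∀ z, S.InC r z → z = o ∨ z = p ∨ z = q) : S.CV o := by
  have hr := c.hr
  have r3 := c.three
  have hb := c.both ho hd
  have mo : S.ρ (r + 1) o ≠ o := S.na2_mv hb.1
  have ar := h2 r (by omega) le_rfl
  -- three different central points are all of them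
  have hC' : ∀ x y, S.InC r x → S.InC r y → x ≠ o → y ≠ o → x ≠ y →
      ∀ z, S.InC r z → z = o ∨ z = x ∨ z = y := by
    intro x y hx hy a1 a2 a3 z hz
    rcases hC x hx with rfl | rfl | rfl <;> rcases hC y hy with rfl | rfl | rfl <;>
      rcases hC z hz with rfl | rfl | rfl <;> simp_all
  have dne : ∀ x, x ≠ o → S.δ x ≠ o := fun x hx h => hx (by rw [← S.δ_swap h, hd])
  have hpair : ∀ z, S.lo z = r → S.ρ (r + 2) z ≠ z → ∀ y, S.lo y = r →
      y = z ∨ y = S.ρ (r + 2) z := fun z hz hm y hy => by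
    by_contra hn
    simp only [not_or] at hn
    have := S.na2_three hy hz (by rw [na2_nu hz.le, hz]) hn.1 hn.2 hm.symm
    omega
  rcases na2_mu_C ho with h3 | h3
  · exfalso
    have e1 : S.ρ (r + 2) (S.δ (S.ρ (r + 1) o)) = o := by rw [c.dmu, S.inv, hd]
    have n13 : S.δ (S.ρ (r + 1) o) ≠ S.ρ (r + 1) o := fun e =>
      c.closedC (U := {o, S.ρ (r + 1) o}) (x := o) (by simp)
        (by rintro _ (rfl | rfl); exacts [ho, h3]) (by rintro _ (rfl | rfl) <;> simp [hd, e])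
        (by rintro _ (rfl | rfl) <;> simp [S.inv])
    have h1 := c.C_δ h3
    have hall := hC' _ _ h1 h3 (dne _ mo) mo n13
    obtain ⟨y, y1, y2⟩ := S.cross (j := r + 1) (by omega) hb.1.ge
    have yC : S.InC r y := by
      rcases c.mu_X (z := S.ρ (r + 1) y) (by omega) with h | h
      · rw [S.inv] at h
        omega
      · simpa only [S.inv] using h.2
    have lz : S.lo (S.ρ (r + 1) (S.δ (S.ρ (r + 1) o))) = r := by
      rcases hall y yC with h | h | h
      · have := h3.1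
        rw [h] at y2
        omega
      · rw [← h]
        omega
      · rw [h, S.inv] at y2
        omega
    generalize hc : S.δ (S.ρ (r + 1) o) = x at *
    have hall' : ∀ z, S.InC r z → z = x ∨ z = o ∨ z = S.δ x := fun z hz => by
      rw [S.δ_swap hc]
      rcases hall z hz with h | h | h <;> simp [h]
    have nxo : x ≠ o := hc ▸ dne _ mo
    by_cases f : S.ρ (r + 2) (S.ρ (r + 1) x) = S.ρ (r + 1) x
    · exact c.kill5 (S.inv _ x) e1 f hd nxo lz h1 ho hall'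
    · have lz' : S.lo (S.ρ (r + 2) (S.ρ (r + 1) x)) = r := by rw [na2_nu lz.le, lz]
      refine c.kill7two ar (.inr ⟨rfl, rfl⟩) (S.inv _ _) (S.inv _ x) e1 ?_ hd f
        (fun h => by have := h1.1; rw [← h] at this; omega) nxo
        (fun z hz => by rcases hall' z hz with h | h | h <;> simp [P7, h]) lz ho
        (.inl ⟨lz', h1⟩)
      rcases c.mu_X lz'.le with h | h
      · rcases hpair _ lz f _ (h.trans lz') with h' | h'
        · have := h1.1
          rw [← S.ρ_inj h'] at this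
          omega
        · exact h'
      · rcases hall _ h.2 with h' | h' | h'
        · have := h3.1
          rw [S.ρ_swap h'] at this
          omega
        · exact absurd (S.ρ_swap h').symm f
        · rw [S.ρ_inj h'] at lz'
          omega
  · have rest : (∀ z, S.InC r z → z ≠ o → S.InC r (S.ρ (r + 1) z)) → False := fun h =>
      c.closedC (U := {z | S.InC r z ∧ z ≠ o}) (x := p) ⟨hp, npo⟩ (fun _ hz => hz.1)
        (fun z hz => ⟨c.C_δ hz.1, dne z hz.2⟩) fun z hz => ⟨h z hz.1 hz.2, fun e => by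
          have := hz.1.1
          rw [← S.ρ_swap e] at this
          omega⟩
    -- a second central point with a low neighbour
    obtain ⟨x, hx, nxo, lx⟩ : ∃ x, S.InC r x ∧ x ≠ o ∧ S.lo (S.ρ (r + 1) x) = r := by
      by_contra hn
      push Not at hn
      exact rest fun z hz hne => (na2_mu_C hz).resolve_right (hn z hz hne)
    have nz : S.ρ (r + 1) x ≠ S.ρ (r + 1) o := fun h => nxo (S.ρ_inj h)
    obtain ⟨y, hy, nyo, nxy⟩ : ∃ y, S.InC r y ∧ y ≠ o ∧ x ≠ y := by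
      by_cases e : x = p
      · exact ⟨q, hq, nqo, e ▸ npq⟩
      · exact ⟨p, hp, npo, e⟩
    have hall := hC' x y hx hy nxo nyo nxy
    have fy : S.ρ (r + 1) y = y := by
      rcases na2_mu_C hy with h | h
      · rcases hall _ h with h' | h' | h'
        · have := hy.1
          rw [← S.ρ_swap h'] at this
          omega
        · have := hy.1
          rw [← S.ρ_swap h'] at this
          omega
        · exact h'
      · have := S.na2_three h lx h3 (fun e => nxy (S.ρ_inj e).symm) (fun e => nyo (S.ρ_inj e)) nz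
        omega
    have dy : S.δ y = x := by
      rcases hall _ (c.C_δ hy) with h | h | h
      · exact absurd h (dne y nyo)
      · exact h
      · exact absurd fy (S.na2_mv (c.both hy h).1)
    have fx : S.ρ (r + 2) x = x := by rw [← dy, c.dmu, fy]
    by_cases f : S.ρ (r + 2) (S.ρ (r + 1) o) = S.ρ (r + 1) o
    · have lev_r : ∀ z, S.lo z = r → S.ρ (r + 2) z = z := fun z hz => by
        by_contra hm
        rcases hpair z hz hm _ h3 with h | h
        · exact hm (h ▸ f)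
        · rw [h, S.fix_self] at f
          exact hm f
      have noM : ∀ z, S.lo z ≤ r → S.ρ (r + 2) z = z := fun z hz => by
        by_contra hm
        obtain ⟨w, w0, w1, w2, w3⟩ := c.link (p := False) hz (iff_false_intro hm)
          fun u hu h _ => h.1 (lev_r u hu)
        obtain ⟨-, -, a3⟩ := na2_link3 w0 w1 w2 w3
        rcases Nat.eq_zero_or_pos (S.lo w) with e0 | e0
        · exact c.link0 e0 w2 w3
        · have := h2 _ e0 w0
          omega
      refine ⟨by omega, by omega, fun z z1 z2 => ?_⟩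
      have b1 : r + 1 ≤ S.lo z := by
        by_contra hn
        have a1 := c.hX z (by omega)
        have a2 := S.mv_hi z
        rw [show S.hi z = r + 2 by omega] at a2
        exact a2 (noM z (by omega))
      have b2 : S.hi z ≤ r + 2 := by
        by_contra hn
        have a1 := S.lo_δ z
        have a2 := noM (S.δ z) (by omega)
        rw [c.dmu] at a2
        exact S.na2_mv (by omega) (S.δ_inj a2)
      rcases hall z ⟨b1, b2⟩ with h | h | h
      · exact h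
      · have a2 := S.mv_hi z
        rw [show S.hi z = r + 2 by omega, h] at a2
        exact absurd fx a2
      · exact absurd (h ▸ fy) (S.na2_mv (z := z) (by omega))
    · exfalso
      have e2 : S.ρ (r + 2) (S.ρ (r + 1) x) = S.ρ (r + 1) o :=
        S.ρ_swap ((hpair _ h3 f _ lx).resolve_left nz).symm
      exact c.kill7two ar (.inl ⟨rfl, rfl⟩) rfl e2 (S.inv _ o) fx hd
        (fun h => by have := hx.1; rw [h] at this; omega) nz mo
        (fun z hz => by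
          rcases hall z hz with h | h | h
          · simp [P7, h]
          · simp [P7, h]
          · simp [P7, h, ← S.δ_swap dy]) lx ho (.inr ⟨hx, h3⟩)

variable (S)

theorem na2 (hn : ∀ i, 1 ≤ i → i < m → 2 ≤ S.a i) (hW : S.W (m - 2) (m + 1) = ∅) :
    ∃ v, S.CV v := by
  classical
  obtain ⟨r, hr⟩ : ∃ r, r + 2 = m := ⟨m - 2, by have := S.hm; omega⟩
  have hm := S.hm
  have hX : ∀ z, S.lo z ≤ r → S.hi z ≤ r + 2 := fun z hz => by
    by_contra h
    have : z ∈ S.W (m - 2) (m + 1) := S.mem_W.2 ⟨by omega, by omega⟩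
    rw [hW] at this
    simp at this
  set C : Finset Ω := univ.filter (fun z => S.InC r z) with hC
  have mC : ∀ z, z ∈ C ↔ S.InC r z := fun z => by simp [hC]
  have cnt : C.card + 2 * ∑ i ∈ range (r + 1), S.a i = 4 * m + 3 := by
    have h1 := Finset.card_filter_add_card_filter_not (s := (univ : Finset Ω))
      (fun z => S.lo z < r + 1)
    have h2 := Finset.card_filter_add_card_filter_not
      (s := (univ : Finset Ω).filter fun z => ¬ S.lo z < r + 1) (fun z => S.hi z ≤ r + 2)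
    have h3 : ((univ.filter fun z => ¬ S.lo z < r + 1).filter fun z => S.hi z ≤ r + 2) = C := by
      ext z
      simp [mC, InC]
    have h4 : ((univ.filter fun z => ¬ S.lo z < r + 1).filter fun z => ¬ S.hi z ≤ r + 2).card =
        (S.A (r + 1)).card := by
      refine Finset.card_bij (fun z _ => S.δ z) (fun z hz => ?_) (fun _ _ _ _ e => S.δ_inj e)
        fun z hz => ⟨S.δ z, ?_, S.dinv z⟩
      · simp only [mem_filter, mem_univ, true_and] at hz
        have := S.lo_δ z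
        rw [mem_A]
        omega
      · rw [mem_A] at hz
        have a1 := S.lo_δ z
        have a2 := S.hi_δ z
        have a3 := hX z (by omega)
        simp only [mem_filter, mem_univ, true_and]
        omega
    rw [h3, h4] at h2
    rw [Finset.card_univ, S.card] at h1
    have h5 : (univ.filter fun z => S.lo z < r + 1).card = (S.A (r + 1)).card := rfl
    rw [← S.card_A]
    omega
  have a4 := S.four_le_a0
  have hs : ∀ i ∈ range (r + 1), 2 ≤ S.a i := fun i hi => by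
    rw [Finset.mem_range] at hi
    rcases Nat.eq_zero_or_pos i with rfl | h
    · omega
    · exact hn i h (by omega)
  have x0 := sum_excess hs (t := {0}) (by simp)
  have x1 : ∀ l, 1 ≤ l → l ≤ r → S.a 0 + S.a l + 2 * (r + 1) ≤ ∑ i ∈ range (r + 1), S.a i + 4 := by
    intro l l1 l2
    have := sum_excess hs (t := {0, l}) (by
      intro i hi
      simp only [mem_insert, mem_singleton] at hi
      rw [Finset.mem_range]
      omega)
    rwa [Finset.sum_pair (by omega), Finset.card_pair (by omega), Finset.card_range] at this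
  have x2 : ∀ l k, 1 ≤ l → l ≤ r → 1 ≤ k → k ≤ r → k ≠ l →
      S.a 0 + (S.a l + S.a k) + 2 * (r + 1) ≤ ∑ i ∈ range (r + 1), S.a i + 6 := by
    intro l k l1 l2 k1 k2 hne
    have h0 : 0 ∉ ({l, k} : Finset ℕ) := by simp; omega
    have := sum_excess hs (t := {0, l, k}) (by
      intro i hi
      simp only [mem_insert, mem_singleton] at hi
      rw [Finset.mem_range]
      omega)
    rwa [Finset.sum_insert h0, Finset.sum_pair hne.symm, Finset.card_insert_of_notMem h0,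
      Finset.card_pair hne.symm, Finset.card_range] at this
  rw [Finset.sum_singleton, Finset.card_singleton, Finset.card_range] at x0
  obtain ⟨t, ht⟩ := S.four_dvd_a0
  have c : S.Na2 r := ⟨hr, hX, by omega, fun l l1 l2 => by have := x1 l l1 l2; omega⟩
  by_cases h2 : ∀ k, 1 ≤ k → k ≤ r → S.a k ≤ 2
  · have hsum : ∑ i ∈ range (r + 1), S.a i = 2 * r + 4 := by
      rw [Finset.sum_range_succ', c.a0, Finset.sum_congr rfl (g := fun _ => 2) fun i hi => ?_]
      · simp [mul_comm]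
      · rw [Finset.mem_range] at hi
        exact le_antisymm (h2 _ (by omega) (by omega)) (hn _ (by omega) (by omega))
    have c3 : C.card = 3 := by omega
    obtain ⟨o, ho, hd⟩ : ∃ o ∈ C, S.δ o = o := by
      by_contra h
      push Not at h
      have := even_card_of_inv S.δ C S.dinv fun z hz => ⟨(mC _).2 (c.C_δ ((mC z).1 hz)), h z hz⟩
      rw [c3] at this
      exact absurd this (by decide)
    obtain ⟨p, q, npq, e⟩ := Finset.card_eq_two.1
      (show (C.erase o).card = 2 by rw [Finset.card_erase_of_mem ho, c3])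
    have hp : p ∈ C.erase o := by simp [e]
    have hq : q ∈ C.erase o := by simp [e]
    rw [Finset.mem_erase] at hp hq
    refine ⟨o, c.three_pts h2 ((mC o).1 ho) hd ((mC p).1 hp.2) ((mC q).1 hq.2) hp.1 hq.1 npq
      fun z hz => ?_⟩
    by_cases hzo : z = o
    · exact .inl hzo
    · have : z ∈ C.erase o := Finset.mem_erase.2 ⟨hzo, (mC z).2 hz⟩
      rw [e] at this
      exact .inr (by simpa using this)
  · push Not at h2
    obtain ⟨l, l1, l2, l3⟩ := h2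
    have y1 := x1 l l1 l2
    have y2 := c.a3 l l1 l2
    obtain ⟨o, e⟩ := Finset.card_eq_one.1 (show C.card = 1 by omega)
    refine (c.one (o := o) ((mC o).1 (by simp [e])) (fun z hz => ?_) (hn _ (by omega) (by omega))
      l2 (by omega) fun k k1 k2 hne => ?_).elim
    · have := (mC z).2 hz
      rw [e] at this
      simpa using this
    · have := x2 l k l1 l2 k1 k2 hne
      omega

end SD
end D145
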