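import Pool.Agent.MP_d145c0_al.H75.Gap
import Pool.Agent.MP_d145c0_al.H75.LastB
import Pool.Agent.MP_d145c0_al.H75.LastC
import Pool.Agent.MP_d145c0_al.H75.NA1
import Pool.Agent.MP_d145c0_al.H75.NA2
import Pool.Agent.MP_d145c0_al.H75.CVh
import Pool.Agent.MP_d145c0_al.H75.Lstar

/-! There is a cut vertex and the levels `1 .. m-3` have at least two points. -/

namespace D145
open Equiv Finset
namespace SD
variable {Ω : Type} [Fintype Ω] [DecidableEq Ω] {m : ℕ} (S : SD Ω m)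

theorem cv1_largest {n : ℕ} (hn : n ≤ m) : (∀ i, 1 ≤ i → i < n → 2 ≤ S.a i) ∨
    ∃ c x, S.AlX c x ∧ c < n ∧ ∀ i, c < i → i < n → 2 ≤ S.a i := by
  induction n with
  | zero => exact .inl fun i _ h => absurd h (by omega)
  | succ n ih =>
    by_cases e : 1 ≤ n ∧ S.a n = 1
    · obtain ⟨x, hx⟩ := S.alX_of_al ⟨e.1, hn, e.2⟩
      exact .inr ⟨n, x, hx, by omega, fun i h1 h2 => absurd h2 (by omega)⟩
    have h0 := S.a_pos (i := n) hn
    have key : ∀ i, 1 ≤ i → i < n + 1 → (i < n → 2 ≤ S.a i) → 2 ≤ S.a i := fun i h1 h2 h3 => by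
      by_cases h4 : i = n
      · subst h4; omega
      · exact h3 (by omega)
    rcases ih (by omega) with h | ⟨c, x, h1, h2, h3⟩
    · exact .inl fun i h1 h2 => key i h1 h2 (h i h1)
    · exact .inr ⟨c, x, h1, by omega, fun i h4 h5 => key i (by omega) h5 (h3 i h4)⟩

theorem cv1_card {n : ℕ} (h : ∀ i, 1 ≤ i → i < n + 1 → 2 ≤ S.a i) :
    S.a 0 + 2 * n ≤ (S.A (n + 1)).card := by
  rw [S.card_A]
  induction n with
  | zero => simp
  | succ n ih =>
    have h1 := ih fun i h1 h2 => h i h1 (by omega)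
    have h2 := h (n + 1) (by omega) (by omega)
    rw [sum_range_succ]
    omega

theorem cv1 : ∃ v, S.CV v ∧ S.a 0 = 4 ∧ ∀ i, 1 ≤ i → i + 3 ≤ m → 2 ≤ S.a i := by
  have hm := S.hm
  have h4 := S.four_le_a0
  have h5 := S.four_dvd_a0
  rcases S.cv1_largest le_rfl with hn | ⟨c, v, h, hc, hl⟩
  · obtain ⟨v, hv⟩ := S.na2 hn (S.na1 hn)
    have h1 := S.cv1_card (n := m - 1) fun i h1 h2 => hn i h1 (by omega)
    rw [show m - 1 + 1 = m by omega, hv.card_half] at h1
    exact ⟨v, hv, by omega, fun i h1 h2 => hn i h1 (by omega)⟩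
  have hc1 : c + 1 = m := by
    by_contra hne
    by_cases hH : m ≤ S.H c + 1 ∨ c + 2 = m
    · exact h.last12 (by omega) hl h.inv hH
    obtain ⟨h1, h2⟩ := h.last_prim (by omega) (by omega) hl h.inv
    by_cases e : c + 3 = m
    · exact h.last2 e h1 h2 hl h.inv
    · exact h.last3 (by omega) h1 h2 hl h.inv
  have hv := h.cv hc1
  have hQ : ∃ c, (∃ x, S.AlX c x) ∧ (∀ i, c ≤ i → i < m → S.a i = 1) ∧
      (S.A c).card = m + c + 2 ∧ max (S.H c) c + 1 = m := by
    have h1 := h.al.2.2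
    refine ⟨c, ⟨v, h⟩, fun i h2 h3 => by rwa [show i = c by omega], ?_, ?_⟩
    · have h2 := hv.card_half
      have h3 := S.card_A (c + 1)
      rw [sum_range_succ, ← S.card_A, hc1] at h3
      omega
    · obtain ⟨z, h2, h3⟩ := S.exists_H h.1
      have := hv.hi_lt (z := z) (by omega) fun e => by have := h.2.2.1; rw [← e] at this; omega
      omega
  classical
  obtain ⟨⟨x, hx⟩, q1, q2, q3⟩ := Nat.find_spec hQ
  have hmin := fun d => Nat.find_min hQ (m := d)
  generalize Nat.find hQ = k at *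
  have k1 := hx.1
  have k2 := hx.2.1
  rcases S.cv1_largest (n := k) (by omega) with hn | ⟨d, y, hy, hd, hg⟩
  · have h1 : ¬k + 3 ≤ m := fun e => hv.cvh hx hn q1 e
    have h2 := S.cv1_card (n := k - 1) fun i h1 h2 => hn i h1 (by omega)
    rw [show k - 1 + 1 = k by omega] at h2
    exact ⟨v, hv, by omega, fun i h1 h2 => hn i h1 (by omega)⟩
  exfalso
  by_cases e : d + 1 = k
  · subst e
    obtain ⟨r1, r2, r3⟩ := hy.run (q1 _ le_rfl k2)
    refine hmin d hd ⟨⟨y, hy⟩, fun i h1 h2 => ?_, by omega, by omega⟩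
    rcases h1.eq_or_lt with rfl | h1
    exacts [hy.al.2.2, q1 i h1 h2]
  rcases hy.gap hx (by omega) hg hy.inv with g | ⟨g1, g2, g3, g4, g5⟩
  · omega
  · exact hv.lstar hy hx (by omega) (q1 _ (by omega) (by omega)) (by omega) hg g1 g2 g4 g5

end SD
end D145
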