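import Pool.Agent.MP_d145c0_al.H75.CV0
import Pool.Agent.MP_d145c0_al.H75.Cyc

/-! Cut vertex, `Yp` nonempty: a second tail and one orbit formed by the low levels. -/

namespace D145
open Equiv Finset
namespace SD
variable {Ω : Type} [Fintype Ω] [DecidableEq Ω] {m : ℕ} (S : SD Ω m)

/-- the low levels have sizes `4, 2, …, 2`, form one orbit with constant `hi = τ`, and the other
points of `Dp` form a second tail -/
def Tight (k τ : ℕ) (t s : ℕ → Ω) : Prop :=
  S.Tail2 k t s ∧ S.Cp k = ∅ ∧ k < τ ∧ τ < m ∧ (∀ l, 1 ≤ l → l < k → S.a l = 2) ∧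
    (∀ z, S.lo z < k → S.hi z = τ) ∧
    ∀ y z, S.lo y < k → S.lo z < k → S.R (PQ (k - 1) (k + 1)) y z

variable {S} {v : Ω} {k : ℕ} {t : ℕ → Ω}

/-- the budget with its slack -/
theorem Tail.cvx_budget (ht : S.Tail v k t) (h : S.CV v) (hk : 1 ≤ k)
    (h2 : ∀ i, 1 ≤ i → i + 3 ≤ m → 2 ≤ S.a i) (hY : (S.Yp k t).Nonempty) :
    ∃ d E, 4 = d + (S.Cp k).card + S.gam (k - 1) (k + 1) 0 + E + (S.Orbs (k - 1) (k + 1)).card +
        ∑ O ∈ S.Orbs (k - 1) (k + 1), S.kO O + ∑ O ∈ S.Orbs (k - 1) (k + 1), S.exc O ∧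
      k + (S.Yp k t).card + ∑ O ∈ S.Orbs (k - 1) (k + 1), S.kO O = m + d ∧
      ∀ l, 1 ≤ l → l < k → S.gam (k - 1) (k + 1) l ≤ 2 + E := by
  have hkm := ht.1
  have hb := ht.budget h hk
  have hy := (ht.Y_card h hk).1 hY
  have hg : ∀ i ∈ Ico 1 k, 2 ≤ S.gam (k - 1) (k + 1) i := by
    intro i hi
    rw [mem_Ico] at hi
    exact S.gam_two (by omega) hi.1 (by omega) (h2 i hi.1 (by omega))
  have e1 : ∑ i ∈ range k, S.gam (k - 1) (k + 1) i =
      S.gam (k - 1) (k + 1) 0 + ∑ i ∈ Ico 1 k, S.gam (k - 1) (k + 1) i := by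
    rw [range_eq_Ico, sum_eq_sum_Ico_succ_bot (by omega)]
  have e2 : ∑ O ∈ S.Orbs (k - 1) (k + 1), (1 + 2 * S.kO O + S.exc O) =
      (S.Orbs (k - 1) (k + 1)).card + 2 * ∑ O ∈ S.Orbs (k - 1) (k + 1), S.kO O +
        ∑ O ∈ S.Orbs (k - 1) (k + 1), S.exc O := by
    rw [sum_add_distrib, sum_add_distrib, mul_sum, card_eq_sum_ones]
  have e3 := sum_excess hg (empty_subset _)
  simp only [sum_empty, card_empty, Nat.card_Ico] at e3
  refine ⟨k + (S.Yp k t).card + ∑ O ∈ S.Orbs (k - 1) (k + 1), S.kO O - m,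
    ∑ i ∈ Ico 1 k, S.gam (k - 1) (k + 1) i - 2 * (k - 1), by omega, by omega, ?_⟩
  intro l h1 hl
  have e4 := sum_excess hg (t := {l}) (by
    intro x hx
    rw [mem_singleton] at hx
    rw [mem_Ico]
    omega)
  simp only [sum_singleton, card_singleton, Nat.card_Ico] at e4
  omega

theorem Tail.v_not_Dp (ht : S.Tail v k t) : v ∉ S.Dp k t := by
  intro hv
  have hkm := ht.1
  exact (S.mem_Dp.1 hv).2 m (by omega) le_rfl ht.2.1.symm

theorem Tail.t_not_Dp (ht : S.Tail v k t) : t (k + 1) ∉ S.Dp k t := by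
  intro hv
  have hkm := ht.1
  exact (S.mem_Dp.1 hv).2 (k + 1) (by omega) (by omega) rfl

/-- the points of `Dp` when `Cp` is empty -/
theorem Dp_cases (hC : S.Cp k = ∅) {z : Ω} (hz : z ∈ S.Dp k t) :
    S.lo z < k ∨ z ∈ S.Yp k t := by
  by_cases h1 : S.lo z < k
  · exact Or.inl h1
  · refine Or.inr (S.mem_Yp.2 ⟨hz, by omega, ?_⟩)
    have h2 := S.lo_le_hi z
    by_contra h3
    have : z ∈ S.Cp k := S.mem_Cp.2 ⟨by omega, by omega⟩
    rw [hC] at this
    exact notMem_empty _ this

/-- two points of the second tail with the same `hi` are the top pair -/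
theorem Tail2.same_hi {s : ℕ → Ω} (hs : S.Tail2 k t s) (hkm : k + 2 ≤ m) {y z : Ω}
    (hy : y ∈ S.Yp k t) (hz : z ∈ S.Yp k t) (he : S.hi y = S.hi z) (hne : y ≠ z) :
    S.hi y + 1 = m ∧ S.ρ (m - 1) y = z := by
  obtain ⟨i, i1, i2, rfl⟩ := (hs.1 y).1 hy
  obtain ⟨j, j1, j2, rfl⟩ := (hs.1 z).1 hz
  have hm := hs.2.2.1
  have e := (hs.2.1 (m - 1) (by omega) (by omega)).2
  rw [show m - 1 + 1 = m by omega] at e
  rcases eq_or_lt_of_le i2 with rfl | i3
  · rcases eq_or_lt_of_le j2 with rfl | j3
    · exact absurd rfl hne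
    · have := (hs.2.1 j j1 j3).1
      have hj : j = i - 1 := by omega
      subst hj
      exact ⟨hm, S.ρ_swap e⟩
  · have hi := (hs.2.1 i i1 i3).1
    rcases eq_or_lt_of_le j2 with rfl | j3
    · have hj : i = j - 1 := by omega
      subst hj
      exact ⟨by omega, e⟩
    · have := (hs.2.1 j j1 j3).1
      have hj : i = j := by omega
      subst hj
      exact absurd rfl hne

/-- the case without orbits -/
theorem Tail.cvx_W0 (ht : S.Tail v k t) (h : S.CV v) (hk : 1 ≤ k) {s : ℕ → Ω}
    (hs : S.Tail2 k t s) (hC : S.Cp k = ∅) (hX : ∀ z, S.lo z < k → S.hi z ≤ k) : False := by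
  have hkm := ht.1
  have hm := S.hm
  have huD := ht.mem_Dp h
  have huh : S.hi (t k) = k + 1 := ht.2.2.2.2.1
  have hul : k ≤ S.lo (t k) := by
    by_contra hc
    have := hX (t k) (by omega)
    omega
  have huY : t k ∈ S.Yp k t := S.mem_Yp.2 ⟨huD, hul, by omega⟩
  have hvl : S.lo v + 1 = m := h.1
  obtain ⟨w', hw1, hw2⟩ : ∃ w', S.lo w' + 1 = k ∧ S.lo (S.ρ k w') = k := by
    obtain ⟨z, hz1, hz2⟩ := S.cross hk (y := v) (by omega)
    exact ⟨S.ρ k z, hz2, by rw [S.inv]; exact hz1⟩
  have hw'D : w' ∈ S.Dp k t := ht.Dp_of_lo (by omega)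
  have hw'u : w' ≠ t k := by
    intro e
    rw [e] at hw1
    omega
  have hwD : S.ρ k w' ∈ S.Dp k t := ht.Dp_pres h hw'D (Or.inr hw'u)
  have hwY : S.ρ k w' ∈ S.Yp k t := by
    rcases Dp_cases hC hwD with h1 | h1
    · omega
    · exact h1
  have eu : S.ρ k (t k) = t (k + 1) := ht.2.2.2.1 k le_rfl (by omega)
  have hwu : t k ≠ S.ρ k w' := by
    intro e
    have := S.ρ_swap e.symm
    rw [eu] at this
    exact ht.t_not_Dp (this ▸ hw'D)
  have hw'h := hX w' (by omega)
  have hwh : S.hi (S.ρ k w') = k + 1 := by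
    have h1 := (S.mem_Yp.1 hwY).2.2
    rcases S.hi_step k w' with h2 | h2 | h2 <;> omega
  obtain ⟨hkm', eτ⟩ := hs.same_hi hkm huY hwY (by omega) hwu
  have hm1 : m - 1 = k + 1 := by omega
  have hm2 : m = k + 2 := by omega
  rw [hm1] at eτ
  have htv : t (k + 2) = v := by rw [← hm2]; exact ht.2.1
  have et : S.ρ (k + 1) (t (k + 1)) = v := by
    rw [← htv]
    exact ht.2.2.2.1 (k + 1) (by omega) (by omega)
  have htl := (ht.2.2.1 (k + 1) (by omega) (by omega)).1
  -- the points moved by the label `k + 1`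
  have hτ : ∀ y, S.ρ (k + 1) y ≠ y → y = v ∨ y = t (k + 1) ∨ y = t k ∨ y = S.ρ k w' := by
    intro y hy
    have y1 := S.lo_le hy
    have y2 := S.le_hi hy
    by_cases hD : y ∈ S.Dp k t
    · rcases Dp_cases hC hD with h1 | h1
      · have := hX y h1
        omega
      · have y3 := ht.Dp_hi h hD
        by_cases e : t k = y
        · exact Or.inr (Or.inr (Or.inl e.symm))
        · have := (hs.same_hi hkm huY h1 (by omega) e).2
          rw [hm1, eτ] at this
          exact Or.inr (Or.inr (Or.inr this.symm))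
    · rw [S.mem_Dp] at hD
      push Not at hD
      obtain ⟨j, j1, j2, e⟩ := hD (by omega)
      rcases eq_or_lt_of_le j2 with e' | j3
      · left
        rw [e, e']
        exact ht.2.1
      · right
        left
        rw [e, show j = k + 1 by omega]
  have fv : S.ρ k v = v := S.fix_lo (by omega)
  have hp := path5 (H := S.G (Set.Iic (k + 1))) (a := S.ρ (k + 1)) (b := S.ρ k)
    (g := S.ρ (k - 1)) (h := 1) (S.ρ_mem (by simp)) (S.ρ_mem (by simp))
    (S.ρ_mem (by simp only [Set.mem_Iic]; omega)) (one_mem _) (S.inv _) (S.inv _)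
    (x1 := v) (x2 := t (k + 1)) (x3 := t k) (x4 := S.ρ k w') (x5 := w')
    (S.ρ_swap et) (S.ρ_swap eu) eτ (S.inv _ _) fv (S.fix_hi (by omega))
    (by intro e; rw [← e] at htl; omega) ht.2.2.2.2.2.symm hwu
    (by intro e; rw [e] at hw2; omega)
    (by
      intro y hy
      simp only [Set.mem_insert_iff, Set.mem_singleton_iff, not_or] at hy
      obtain ⟨n1, n2, n3, n4, n5⟩ := hy
      have a1 : S.ρ (k + 1) y = y := by
        by_contra hc
        rcases hτ y hc with e | e | e | e <;> contradiction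
      have a2 : S.ρ (k + 1) (S.ρ k y) = S.ρ k y := by
        by_contra hc
        rcases hτ _ hc with e | e | e | e
        · exact n1 ((S.ρ_swap e).symm.trans fv)
        · exact n3 ((S.ρ_swap e).symm.trans (S.ρ_swap eu))
        · exact n2 ((S.ρ_swap e).symm.trans eu)
        · exact n5 (S.ρ_inj e)
      refine pow12 (U := {y, S.ρ k y}) ?_ (card_le_two.trans (by omega)) (by simp)
      intro x hx
      simp only [mem_insert, mem_singleton] at hx ⊢
      rcases hx with rfl | rfl
      · right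
        exact a2
      · left
        show S.ρ (k + 1) (S.ρ k (S.ρ k y)) = y
        rw [S.inv, a1])
    (y0 := w') (by simp)
    (by
      have := S.mv_lo w'
      rw [show S.lo w' = k - 1 by omega] at this
      exact this)
    (by
      intro y hy hne
      simp only [Set.mem_insert_iff, Set.mem_singleton_iff] at hy
      show S.ρ (k - 1) y = y
      rcases hy with rfl | rfl | rfl | rfl | rfl
      · exact S.fix_lo (by omega)
      · exact S.fix_lo (by omega)
      · exact S.fix_lo (by omega)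
      · exact S.fix_lo (by omega)
      · exact absurd rfl hne)
  obtain ⟨hA, n13, n14, n24⟩ := hp
  have hd := (h.dk (j := k) (by omega) hA (x := v) (y := t (k + 1)) (z := t k) (by simp) (by simp)
    (by simp) (by intro e; rw [← e] at htl; omega) ht.2.2.2.2.2.symm n13 (S.R_refl _ _)
    (ht.reach (by omega) (by omega) (by omega)) (ht.reach le_rfl (by omega) le_rfl)).2 (t k)
    (by simp)
  have h3 := hd.2
  rw [eτ] at h3
  simp only [Set.mem_insert_iff, Set.mem_singleton_iff] at h3
  rcases h3 with e | e | e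
  · exact n14 e.symm
  · exact n24 e.symm
  · exact hwu e.symm

theorem lo_zero_ρ0 {z : Ω} (hz : S.lo z = 0) : S.lo (S.ρ 0 z) = 0 := by
  rcases S.lo_step 0 z with h | h | h <;> omega

/-- a pair of level `0` swapped by a large label, for `k = 1` -/
theorem Tail.cvx_one (ht : S.Tail v 1 t) (h : S.CV v) {s : ℕ → Ω}
    (hs : S.Tail2 1 t s) (hC : S.Cp 1 = ∅) {f g : Ω} (hf : S.lo f = 0) (hg : S.lo g = 0)
    (hf2 : 2 ≤ S.hi f) (hff : S.hi (S.ρ 0 f) = S.hi f)
    (n3 : S.ρ 0 g ≠ f) (n4 : S.ρ 0 g ≠ S.ρ 0 f)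
    (hall : ∀ z, S.lo z = 0 → z = f ∨ z = S.ρ 0 f ∨ z = g ∨ z = S.ρ 0 g)
    (hj : ∀ j, 2 ≤ j → S.ρ j g = g ∧ S.ρ j (S.ρ 0 g) = S.ρ 0 g ∧
      (S.ρ j f = f ∨ S.ρ j f = S.ρ 0 f))
    (hg1 : S.ρ 1 (S.ρ 0 g) ≠ S.ρ 0 g) : False := by
  have hm := S.hm
  have hvl : S.lo v + 1 = m := h.1
  have hf' := lo_zero_ρ0 hf
  have hg' := lo_zero_ρ0 hg
  have hgh : S.hi g ≤ 1 := S.hi_le fun j hj' => (hj j (by omega)).1
  have hgh' : S.hi (S.ρ 0 g) ≤ 1 := S.hi_le fun j hj' => (hj j (by omega)).2.1
  -- the pair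
  have hP : ∀ j, 2 ≤ j → ∀ o, (o = f ∨ o = S.ρ 0 f) → (S.ρ j o = f ∨ S.ρ j o = S.ρ 0 f) := by
    intro j h2 o ho
    rcases ho with rfl | rfl
    · exact (hj j h2).2.2
    · rw [← S.comm 0 j (by omega)]
      rcases (hj j h2).2.2 with e | e
      · right
        rw [e]
      · left
        rw [e, S.inv]
  have hPh : ∀ o, (o = f ∨ o = S.ρ 0 f) → S.lo o = 0 ∧ S.hi o = S.hi f := by
    intro o ho
    rcases ho with rfl | rfl
    · exact ⟨hf, rfl⟩
    · exact ⟨hf', hff⟩
  obtain ⟨o, ho, ho1⟩ : ∃ o, (o = f ∨ o = S.ρ 0 f) ∧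
      ¬ (S.ρ 1 o = f ∨ S.ρ 1 o = S.ρ 0 f) := by
    by_contra hc
    push Not at hc
    have := S.conn (U := {o | o = f ∨ o = S.ρ 0 f}) (x := f) (Or.inl rfl) (by
      intro i z hz
      rcases Nat.lt_or_ge i 2 with h2 | h2
      · obtain rfl | rfl : i = 0 ∨ i = 1 := by omega
        · rcases hz with rfl | rfl
          · exact Or.inr rfl
          · exact Or.inl (S.inv _ _)
        · exact hc z hz
      · exact hP i h2 z hz) v
    have := (hPh v this).1
    omega
  have huD := ht.mem_Dp h
  have huh : S.hi (t 1) = 2 := ht.2.2.2.2.1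
  have eu : S.ρ 1 (t 1) = t 2 := ht.2.2.2.1 1 le_rfl (by omega)
  have hoD : o ∈ S.Dp 1 t := ht.Dp_of_lo (by have := (hPh o ho).1; omega)
  have sY : ∀ j, 1 < j → j ≤ m → s j ∈ S.Yp 1 t := fun j j1 j2 => (hs.1 _).2 ⟨j, j1, j2, rfl⟩
  rcases Nat.lt_or_ge (S.hi f) 3 with h3 | h3
  · -- the pair is swapped by the label two
    have hlow : ∀ z, S.lo z = 0 → S.hi z ≤ 2 := by
      intro z hz
      rcases hall z hz with rfl | rfl | rfl | rfl <;> omega
    have fix3 : S.ρ 1 (s 3) = s 3 := by
      have y3 := sY 3 (by omega) (by omega)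
      have e3 := (hs.2.1 3 (by omega) (by omega)).1
      have d3 := (S.mem_Yp.1 y3).1
      have d3' : S.ρ 1 (s 3) ∈ S.Dp 1 t := ht.Dp_pres h d3 (Or.inr (by
        intro e
        rw [e] at e3
        omega))
      have e3' : S.hi (S.ρ 1 (s 3)) = S.hi (s 3) := S.hi_far (by omega)
      rcases Dp_cases hC d3' with h1 | h1
      · have := hlow _ (Nat.lt_one_iff.1 h1)
        omega
      · by_contra hc
        have := (hs.same_hi ht.1 h1 y3 e3' hc).1
        omega
    have fixs : ∀ j, 3 ≤ j → j ≤ m → S.ρ 1 (s j) = s j := by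
      intro j j1
      induction j, j1 using Nat.le_induction with
      | base => exact fun _ => fix3
      | succ n hn ih =>
        intro j2
        have e := (hs.2.1 n (by omega) (by omega)).2
        rw [← e, S.comm 1 n (by omega), ih (by omega)]
    have hYc : ∀ z ∈ S.Yp 1 t, z = s 2 ∨ S.ρ 1 z = z := by
      intro z hz
      obtain ⟨j, j1, j2, rfl⟩ := (hs.1 z).1 hz
      rcases Nat.lt_or_ge j 3 with j3 | j3
      · left
        rw [show j = 2 by omega]
      · exact Or.inr (fixs j j3 j2)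
    have hY0 : ∀ z ∈ S.Yp 1 t, S.ρ 0 z = z := fun z hz =>
      S.fix_lo (by have := (S.mem_Yp.1 hz).2.1; omega)
    have y2 := sY 2 (by omega) (by omega)
    have mv2 : S.ρ 1 (s 2) ≠ s 2 := by
      intro e
      have := S.conn (U := {z | z ∈ S.Yp 1 t}) (x := s 2) y2 (by
        intro i z hz
        rcases Nat.lt_or_ge i 2 with h2 | h2
        · obtain rfl | rfl : i = 0 ∨ i = 1 := by omega
          · rw [hY0 z hz]
            exact hz
          · rcases hYc z hz with rfl | e'
            · rw [e]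
              exact hz
            · rw [e']
              exact hz
        · exact ht.Yp_pres h hz (by omega)) v
      exact ht.v_not_Dp (S.mem_Yp.1 this).1
    have mvo : S.ρ 1 o ≠ o := by
      intro e
      rw [e] at ho1
      exact ho1 ho
    have s2l : 1 ≤ S.lo (s 2) := (S.mem_Yp.1 y2).2.1
    have hol := (hPh o ho).1
    have nog : o ≠ S.ρ 0 g := by
      rcases ho with rfl | rfl
      · exact n3.symm
      · exact n4.symm
    have nos : o ≠ s 2 := by
      intro e
      rw [e] at hol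
      omega
    have ngs : S.ρ 0 g ≠ s 2 := by
      intro e
      rw [e] at hg'
      omega
    have hodd := ht.odd_k h
    have sub5 : (S.Dp 1 t).filter (fun z => S.ρ 1 z ≠ z) ⊆ {f, S.ρ 0 f, g, S.ρ 0 g, s 2} := by
      intro z hz
      rw [mem_filter] at hz
      simp only [mem_insert, mem_singleton]
      rcases Dp_cases hC hz.1 with h1 | h1
      · rcases hall z (by omega) with e | e | e | e <;> simp [e]
      · rcases hYc z h1 with e | e
        · simp [e]
        · exact absurd e hz.2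
    have c5 := (card_le_card sub5).trans card_le_five
    have sub3 : ({o, S.ρ 0 g, s 2} : Finset Ω) ⊆ (S.Dp 1 t).filter (fun z => S.ρ 1 z ≠ z) := by
      intro z hz
      simp only [mem_insert, mem_singleton] at hz
      rw [mem_filter]
      rcases hz with rfl | rfl | rfl
      · exact ⟨hoD, mvo⟩
      · exact ⟨ht.Dp_of_lo (by omega), hg1⟩
      · exact ⟨(S.mem_Yp.1 y2).1, mv2⟩
    have c3 : ({o, S.ρ 0 g, s 2} : Finset Ω).card = 3 := card_eq_three.2
      ⟨_, _, _, nog, nos, ngs, rfl⟩
    have eq3 := eq_of_subset_of_card_le sub3 (by omega)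
    have mvd : ∀ z ∈ S.Dp 1 t, S.ρ 1 z ≠ z → z = o ∨ z = S.ρ 0 g ∨ z = s 2 := by
      intro z hz hz'
      have : z ∈ ({o, S.ρ 0 g, s 2} : Finset Ω) := by
        rw [eq3, mem_filter]
        exact ⟨hz, hz'⟩
      simpa using this
    have img : ∀ z ∈ S.Dp 1 t, z ≠ t 1 → S.ρ 1 z = z ∨ (S.ρ 1 z ≠ t 1 ∧
        (S.ρ 1 z = o ∨ S.ρ 1 z = S.ρ 0 g ∨ S.ρ 1 z = s 2)) := by
      intro z hz hzu
      by_cases e : S.ρ 1 z = z
      · exact Or.inl e
      · refine Or.inr ⟨?_, mvd _ (ht.Dp_pres h hz (Or.inr hzu)) ?_⟩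
        · intro e'
          have := S.ρ_swap e'
          rw [eu] at this
          exact ht.t_not_Dp (this ▸ hz)
        · rw [S.inv]
          exact fun e' => e e'.symm
    have mvu : S.ρ 1 (t 1) ≠ t 1 := by
      rw [eu]
      exact ht.2.2.2.2.2.symm
    rcases mvd _ huD mvu with e | e | e
    · have := S.conn (U := {z | z = g ∨ z = S.ρ 0 g ∨ z ∈ S.Yp 1 t}) (x := g) (Or.inl rfl) (by
        intro i z hz
        rcases Nat.lt_or_ge i 2 with h2 | h2
        · obtain rfl | rfl : i = 0 ∨ i = 1 := by omega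
          · rcases hz with rfl | rfl | hz
            · exact Or.inr (Or.inl rfl)
            · exact Or.inl (S.inv _ _)
            · rw [hY0 z hz]
              exact Or.inr (Or.inr hz)
          · have hz' : z ∈ S.Dp 1 t ∧ z ≠ t 1 := by
              rcases hz with rfl | rfl | hz
              · refine ⟨ht.Dp_of_lo (by omega), fun e' => ?_⟩
                rw [e'] at hgh
                omega
              · refine ⟨ht.Dp_of_lo (by omega), fun e' => ?_⟩
                rw [e'] at hgh'
                omega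
              · refine ⟨(S.mem_Yp.1 hz).1, fun e' => ?_⟩
                have := (S.mem_Yp.1 hz).2.1
                rw [e', e] at this
                omega
            rcases img z hz'.1 hz'.2 with e' | ⟨e1, e' | e' | e'⟩
            · rw [e']
              exact hz
            · exact absurd (e'.trans e.symm) e1
            · exact Or.inr (Or.inl e')
            · rw [e']
              exact Or.inr (Or.inr y2)
        · rcases hz with rfl | rfl | hz
          · exact Or.inl (hj i h2).1
          · exact Or.inr (Or.inl (hj i h2).2.1)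
          · exact Or.inr (Or.inr (ht.Yp_pres h hz (by omega)))) v
      rcases this with e' | e' | e'
      · rw [← e'] at hg
        omega
      · rw [← e'] at hg'
        omega
      · exact ht.v_not_Dp (S.mem_Yp.1 e').1
    · rw [e] at huh
      omega
    · have := S.conn (U := {z | S.lo z = 0}) (x := g) hg (by
        intro i z hz
        have hz0 : S.lo z = 0 := hz
        show S.lo (S.ρ i z) = 0
        rcases Nat.lt_or_ge i 2 with h2 | h2
        · obtain rfl | rfl : i = 0 ∨ i = 1 := by omega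
          · exact lo_zero_ρ0 hz0
          · rcases img z (ht.Dp_of_lo (by omega)) (by
              intro e'
              rw [e', e] at hz0
              omega) with e' | ⟨e1, e' | e' | e'⟩
            · rw [e', hz0]
            · rw [e', hol]
            · rw [e', hg']
            · exact absurd (e'.trans e.symm) e1
        · rw [S.lo_far (by omega), hz0]) v
      have hv0 : S.lo v = 0 := this
      omega
  · -- the pair is swapped by a label at least three
    have hQ : ∀ o, (o = f ∨ o = S.ρ 0 f) → S.hi (S.ρ 1 o) = S.hi f := by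
      intro o ho
      have := (hPh o ho).2
      rw [S.hi_far (by omega), this]
    have hz := hQ o ho
    have hzD : S.ρ 1 o ∈ S.Dp 1 t := ht.Dp_pres h hoD (Or.inr (by
      intro e
      have := (hPh o ho).2
      rw [e] at this
      omega))
    have hzY : S.ρ 1 o ∈ S.Yp 1 t := by
      rcases Dp_cases hC hzD with h1 | h1
      · rcases hall _ (Nat.lt_one_iff.1 h1) with e | e | e | e
        · exact absurd (Or.inl e) ho1
        · exact absurd (Or.inr e) ho1
        · rw [e] at hz
          omega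
        · rw [e] at hz
          omega
      · exact h1
    have key : ∀ o, (o = f ∨ o = S.ρ 0 f) → ∀ j, 1 < j → j < m → S.ρ 1 o ≠ s j := by
      intro o ho j j1 j2 e
      have a1 := hQ o ho
      have a2 := hs.2.1 j j1 j2
      rw [e] at a1
      rcases Nat.lt_or_ge (j + 1) m with j3 | j3
      · have a3 := (hs.2.1 (j + 1) (by omega) j3).1
        rw [← a2.2, ← e, ← S.comm 1 j (by omega), hQ _ (hP j (by omega) o ho)] at a3
        omega
      · have a3 := hs.2.1 (j - 1) (by omega) (by omega)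
        rw [show j - 1 + 1 = j by omega] at a3
        have a4 := a3.1
        rw [← S.ρ_swap a3.2, ← e, ← S.comm 1 (j - 1) (by omega),
          hQ _ (hP (j - 1) (by omega) o ho)] at a4
        omega
    obtain ⟨j, j1, j2, e⟩ := (hs.1 _).1 hzY
    rcases eq_or_lt_of_le j2 with rfl | j3
    · have a2 := (hs.2.1 (j - 1) (by omega) (by omega)).2
      rw [show j - 1 + 1 = j by omega] at a2
      refine key _ (hP (j - 1) (by omega) o ho) (j - 1) (by omega) (by omega) ?_
      rw [S.comm 1 (j - 1) (by omega), e]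
      exact S.ρ_swap a2
    · exact key o ho j j1 j3 e

theorem mem_aO {O : Finset Ω} {l : ℕ} (h : 1 ≤ S.aO O l) : ∃ x ∈ O, S.lo x = l := by
  obtain ⟨x, hx⟩ := card_pos.1 h
  rw [mem_filter] at hx
  exact ⟨x, hx.1, hx.2⟩

theorem Tail.cvx (ht : S.Tail v k t) (h : S.CV v) (hk : 1 ≤ k) (h4 : S.a 0 = 4)
    (h2 : ∀ i, 1 ≤ i → i + 3 ≤ m → 2 ≤ S.a i) (hY : (S.Yp k t).Nonempty) :
    ∃ τ s, S.Tight k τ t s := by
  have hm := S.hm
  have hkm := ht.1
  have hvl : S.lo v + 1 = m := h.1
  have hb : k - 1 + 2 ≤ k + 1 := by omega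
  obtain ⟨d, E, hbud, hd, hE⟩ := ht.cvx_budget h hk h2 hY
  have hsplit := S.a_split hb (i := 0) (by omega)
  have hg0 : S.aX (k + 1) 0 + (S.OP (k - 1) (k + 1) 0).card ≤ S.gam (k - 1) (k + 1) 0 := by
    unfold gam
    omega
  have hK : ∀ O ∈ S.Orbs (k - 1) (k + 1), S.kO O ≤ ∑ O ∈ S.Orbs (k - 1) (k + 1), S.kO O :=
    fun O hO => single_le_sum (f := S.kO) (fun _ _ => Nat.zero_le _) hO
  have hExc : ∀ O ∈ S.Orbs (k - 1) (k + 1), S.exc O ≤ ∑ O ∈ S.Orbs (k - 1) (k + 1), S.exc O :=
    fun O hO => single_le_sum (f := S.exc) (fun _ _ => Nat.zero_le _) hO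
  rcases (S.Orbs (k - 1) (k + 1)).eq_empty_or_nonempty with hO | hO
  · exfalso
    rw [hO] at hsplit hbud hd
    simp only [sum_empty, card_empty] at hsplit hbud hd
    obtain ⟨s, hs⟩ := ht.tail2 h hk (by rw [hO]; simp) (by omega)
    refine ht.cvx_W0 h hk hs (card_eq_zero.1 (by omega)) ?_
    intro z hz
    by_contra hc
    obtain ⟨O, hO', -⟩ := S.exists_orb (b := k - 1) (b' := k + 1) (x := z) (by omega) (by omega)
    rw [hO] at hO'
    exact notMem_empty _ hO'
  have cO := card_pos.2 hO
  obtain ⟨O, hO0, ha0⟩ : ∃ O ∈ S.Orbs (k - 1) (k + 1), 1 ≤ S.aO O 0 := by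
    by_contra hc
    push Not at hc
    have : ∑ O ∈ S.Orbs (k - 1) (k + 1), S.aO O 0 = 0 :=
      sum_eq_zero fun O hO => by have := hc O hO; omega
    omega
  obtain ⟨f, hfO, hf⟩ := mem_aO ha0
  have hpl : S.pl O = 0 := by
    have := S.pl_le hfO
    omega
  have cOP : 1 ≤ (S.OP (k - 1) (k + 1) 0).card := card_pos.2 ⟨O, S.mem_OP.2 ⟨hO0, hpl⟩⟩
  have hev := S.even_aO_pl hb hO0
  rw [hpl] at hev
  have hle : S.aO O 0 ≤ ∑ O ∈ S.Orbs (k - 1) (k + 1), S.aO O 0 :=
    single_le_sum (f := fun O => S.aO O 0) (fun _ _ => Nat.zero_le _) hO0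
  have hrange := S.Orbs_range hb hO0
  have hgp := h.gp (j := 1) (by omega)
  have uniq : (S.Orbs (k - 1) (k + 1)).card ≤ 1 → ∀ z, S.lo z < k → k < S.hi z → z ∈ O := by
    intro hc z z1 z2
    obtain ⟨O', hO', hz⟩ := S.exists_orb (b := k - 1) (b' := k + 1) (x := z) (by omega) (by omega)
    rwa [card_le_one.1 hc O hO0 O' hO']
  have hiO : S.kO O = 0 → ∀ z ∈ O, S.hi z = S.qh O := by
    intro h0 z hz
    have := S.ph_le hz
    have := S.le_qh hz
    unfold kO at h0
    omega
  obtain ha | ha : S.aO O 0 = 2 ∨ S.aO O 0 = 4 := by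
    obtain ⟨c, hc⟩ := hev
    omega
  · exfalso
    have hf' := lo_zero_ρ0 hf
    have hf'O : S.ρ 0 f ∈ O := S.Orbs_ρ hO0 hfO (Or.inl (by omega))
    have nff : f ≠ S.ρ 0 f := by
      have := S.mv_lo f
      rw [hf] at this
      exact this.symm
    have hpair : ∀ z ∈ O, S.lo z = 0 → z = f ∨ z = S.ρ 0 f := by
      intro z hz hz0
      have sub : ({f, S.ρ 0 f} : Finset Ω) ⊆ O.filter (fun x => S.lo x = 0) := by
        intro x hx
        simp only [mem_insert, mem_singleton] at hx
        rw [mem_filter]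
        rcases hx with rfl | rfl
        · exact ⟨hfO, hf⟩
        · exact ⟨hf'O, hf'⟩
      have e := eq_of_subset_of_card_le sub (by
        rw [card_pair nff]
        exact ha.le)
      have : z ∈ ({f, S.ρ 0 f} : Finset Ω) := by
        rw [e, mem_filter]
        exact ⟨hz, hz0⟩
      simpa using this
    have hfh := (S.Orbs_W hb hO0 hfO).2
    have hfh' := (S.Orbs_W hb hO0 hf'O).2
    have hsw : S.ρ (S.hi f) f = S.ρ 0 f := by
      rcases hpair _ (S.Orbs_ρ hO0 hfO (Or.inr hfh)) (by rw [S.lo_far (by omega), hf]) with e | e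
      · exact absurd e (S.mv_hi f)
      · exact e
    obtain ⟨g, hg, n1, n2, n3, n4, r1, r2, hall, hj⟩ := d0 hgp h4 hf
      ((S.R_refl _ f).step' (i := S.hi f) (by simp only [Set.mem_Ici]; omega) hsw)
    have hg' := lo_zero_ρ0 hg
    have hgh : S.hi g ≤ 1 := S.hi_le fun j hj' => (hj j (by omega)).1
    have hgh' : S.hi (S.ρ 0 g) ≤ 1 := S.hi_le fun j hj' => (hj j (by omega)).2.1
    have ngg : g ≠ S.ρ 0 g := by
      have := S.mv_lo g
      rw [hg] at this
      exact this.symm
    have aX2 : 2 ≤ S.aX (k + 1) 0 := by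
      rw [← card_pair ngg]
      refine card_le_card fun x hx => ?_
      simp only [mem_insert, mem_singleton] at hx
      rw [S.mem_levX]
      rcases hx with rfl | rfl
      · exact ⟨hg, by omega⟩
      · exact ⟨hg', by omega⟩
    have hg1 : S.ρ 1 (S.ρ 0 g) ≠ S.ρ 0 g := by
      intro e
      obtain ⟨p, hp, e'⟩ := r2.symm
      rw [S.G_fix (x := S.ρ 0 g) (fun i hi => by
        rcases eq_or_lt_of_le (show 1 ≤ i from hi) with rfl | h1
        · exact e
        · exact (hj i h1).2.1) hp] at e'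
      rw [e'] at hg'
      omega
    have hk0 : S.kO O = 0 := by
      have := hK O hO0
      omega
    have hC : S.Cp k = ∅ := card_eq_zero.1 (by omega)
    rcases eq_or_lt_of_le hk with rfl | hk2
    · obtain ⟨s, hs⟩ := ht.tail2 h hk (fun O' hO' => by have := hK O' hO'; omega) (by omega)
      exact ht.cvx_one h hs hC hf hg hfh (by rw [hiO hk0 _ hfO, hiO hk0 _ hf'O]) n3 n4 hall hj hg1
    · have g1h : S.hi (S.ρ 1 (S.ρ 0 g)) ≤ 2 := by
        rcases S.hi_step 1 (S.ρ 0 g) with e | e | e <;> omega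
      have g1l : S.lo (S.ρ 1 (S.ρ 0 g)) = 1 := by
        rcases S.lo_step 1 (S.ρ 0 g) with e | e | e
        · exfalso
          rcases hall _ (e.trans hg') with e' | e' | e' | e'
          · rw [e'] at g1h
            omega
          · rw [e'] at g1h
            omega
          · exact r1 (r2.step' (i := 1) (by simp) e')
          · exact hg1 e'
        · omega
        · exact e.2
      have aX1 : 1 ≤ S.aX (k + 1) 1 := card_pos.2 ⟨_, S.mem_levX.2 ⟨g1l, by omega⟩⟩
      have hE1 := hE 1 le_rfl hk2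
      have hql : S.ql O = 0 := by
        by_contra hc
        have : 1 ≤ (S.OI (k - 1) (k + 1) 1).card :=
          card_pos.2 ⟨O, S.mem_OI.2 ⟨hO0, by omega, by omega⟩⟩
        unfold gam at hE1
        omega
      have hO00 : ∀ z ∈ O, S.lo z = 0 := fun z hz => by
        have := S.le_ql hz
        omega
      have := S.conn (U := {z | z ∈ O}) (x := f) hfO (by
        intro i z hz
        by_cases hi : i = k
        · subst hi
          show S.ρ i z ∈ O
          rcases hpair z hz (hO00 z hz) with rfl | rfl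
          · rcases (hj i hk2).2.2 with e | e
            · rw [e]
              exact hfO
            · rw [e]
              exact hf'O
          · rw [← S.comm 0 i (by omega)]
            rcases (hj i hk2).2.2 with e | e
            · rw [e]
              exact hf'O
            · rw [e, S.inv]
              exact hfO
        · exact S.Orbs_ρ hO0 hz (by omega)) v
      have := hO00 v this
      omega
  · have hlev : ∀ z, S.lo z = 0 → z ∈ O := by
      intro z hz
      have sub : O.filter (fun x => S.lo x = 0) ⊆ S.lev 0 := by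
        intro x hx
        rw [mem_filter] at hx
        exact mem_filter.2 ⟨mem_univ _, hx.2⟩
      have e := eq_of_subset_of_card_le sub (by
        show S.a 0 ≤ S.aO O 0
        omega)
      have : z ∈ O.filter (fun x => S.lo x = 0) := by
        rw [e]
        exact mem_filter.2 ⟨mem_univ _, hz⟩
      exact (mem_filter.1 this).1
    have hk0 : S.kO O = 0 := by
      by_contra hc
      obtain ⟨g, hg, r1, r2⟩ := S.d1 hgp
      have hg' := lo_zero_ρ0 hg
      have q1 := S.Qorb_ge hb hO0 (hlev g hg)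
      have q2 := S.Qorb_ge hb hO0 (hlev _ hg')
      have sub : ∀ x, S.lo x = 0 → ∀ T : Finset Ω, (∀ y ∈ T, S.R (Set.Ici (k + 1)) x y) →
          T ⊆ S.lev 0 := by
        intro x hx T hT y hy
        refine mem_filter.2 ⟨mem_univ _, ?_⟩
        rw [(S.Q_lo hb (hT y hy)).1 (by omega), hx]
      classical
      obtain ⟨y, hy⟩ := inter_nonempty_of_card_lt_card_add_card
        (sub g hg _ fun y hy => (mem_filter.1 hy).2)
        (sub _ hg' _ fun y hy => (mem_filter.1 hy).2)
        (lt_of_lt_of_le (by show S.a 0 < (S.kO O + 2) + (S.kO O + 2); omega) (add_le_add q1 q2))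
      obtain ⟨y1, y2⟩ := mem_inter.1 hy
      have hsub : Set.Ici (k + 1) ⊆ Set.Ici 1 := fun i hi => by
        simp only [Set.mem_Ici] at hi ⊢
        omega
      exact r1 (r2.trans (((mem_filter.1 y2).2.trans (mem_filter.1 y1).2.symm).mono hsub))
    have hexc := S.exc_k0 hb hO0 hk0 (L := {0}) (by
      intro x hx
      rw [mem_singleton] at hx
      rw [mem_Icc]
      omega)
    simp only [sum_singleton, card_singleton] at hexc
    have hE0 := hExc O hO0
    obtain ⟨s, hs⟩ := ht.tail2 h hk (fun O' hO' => by have := hK O' hO'; omega) (by omega)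
    have hA : ∀ z, S.lo z < k → z ∈ O := by
      intro z hz
      refine uniq (by omega) z hz ?_
      by_contra hc
      obtain ⟨y, -, y1, -, -, -, y2, y3⟩ := S.gam_X hb (x := z) (by omega) (by omega)
      rcases Nat.eq_zero_or_pos (S.lo y) with e | e
      · rw [e] at y2
        omega
      · have := hE (S.lo y) e (by omega)
        have := y3 e
        unfold gam at *
        omega
    refine ⟨S.qh O, s, hs, card_eq_zero.1 (by omega), by omega, ?_, ?_,
      fun z hz => hiO hk0 z (hA z hz), fun y z hy hz => S.Orbs_R hO0 (hA y hy) (hA z hz)⟩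
    · rw [← hiO hk0 f hfO]
      exact ht.Dp_hi h (ht.Dp_of_lo (by omega))
    · intro l l1 l2
      have e : S.a l = S.aO O l := by
        unfold a aO lev
        congr 1
        ext x
        simp only [mem_filter, mem_univ, true_and]
        exact ⟨fun hx => ⟨hA x (by omega), hx⟩, fun hx => hx.2⟩
      have a2 := h2 l l1 (by omega)
      obtain ⟨x, hx, hxl⟩ := mem_aO (S := S) (O := O) (l := l) (by omega)
      have := S.le_ql hx
      have hexc2 := S.exc_k0 hb hO0 hk0 (L := {0, l}) (by
        intro x hx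
        simp only [mem_insert, mem_singleton] at hx
        rw [mem_Icc]
        omega)
      rw [sum_pair (by omega), card_pair (by omega)] at hexc2
      omega

end SD
end D145
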