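import Pool.Agent.MP_d145c0_al.H75.Basic

/-! Orbits of the commuting pair (labels `≤ b`, labels `≥ b'`). -/

namespace D145
open Equiv Finset
namespace SD
variable {Ω : Type} [Fintype Ω] [DecidableEq Ω] {m : ℕ} (S : SD Ω m) {b b' : ℕ}
  {O O' : Finset Ω} {x y : Ω}

theorem mem_W : x ∈ S.W b b' ↔ S.lo x ≤ b ∧ b' ≤ S.hi x := by simp [W]
theorem mem_orb : y ∈ S.orb b b' x ↔ S.R (PQ b b') x y := by simp [orb]
theorem mem_levX {i : ℕ} : x ∈ S.levX b' i ↔ S.lo x = i ∧ S.hi x < b' := by simp [levX]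
theorem mem_OI {i : ℕ} : O ∈ S.OI b b' i ↔ O ∈ S.Orbs b b' ∧ S.pl O < i ∧ i ≤ S.ql O := by
  simp [OI]
theorem mem_OP {i : ℕ} : O ∈ S.OP b b' i ↔ O ∈ S.Orbs b b' ∧ S.pl O = i := by simp [OP]

theorem Orbs_base (hO : O ∈ S.Orbs b b') :
    ∃ x, S.lo x ≤ b ∧ b' ≤ S.hi x ∧ ∀ y, y ∈ O ↔ S.R (PQ b b') x y := by
  obtain ⟨x, hx, rfl⟩ := mem_image.1 hO
  exact ⟨x, (S.mem_W.1 hx).1, (S.mem_W.1 hx).2, fun y => S.mem_orb⟩

theorem exists_orb (h1 : S.lo x ≤ b) (h2 : b' ≤ S.hi x) : ∃ O ∈ S.Orbs b b', x ∈ O := by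
  exact ⟨S.orb b b' x, mem_image_of_mem _ (S.mem_W.2 ⟨h1, h2⟩), S.mem_orb.2 (S.R_refl _ _)⟩

theorem Orbs_nonempty (hO : O ∈ S.Orbs b b') : O.Nonempty := by
  obtain ⟨x, -, -, h⟩ := S.Orbs_base hO
  exact ⟨x, (h x).2 (S.R_refl _ _)⟩

theorem Orbs_W (hb : b + 2 ≤ b') (hO : O ∈ S.Orbs b b') (hx : x ∈ O) :
    S.lo x ≤ b ∧ b' ≤ S.hi x := by
  obtain ⟨x0, h1, h2, h⟩ := S.Orbs_base hO
  refine ((h x).1 hx).ind' (P := fun z => S.lo z ≤ b ∧ b' ≤ S.hi z) ⟨h1, h2⟩ ?_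
  intro i hi z _ hz
  have h3 := S.lo_step i z
  have h4 := S.hi_step i z
  have h5 : i ≤ b ∨ b' ≤ i := hi
  omega

theorem Orbs_ρ (hO : O ∈ S.Orbs b b') (hx : x ∈ O) {i : ℕ} (hi : i ≤ b ∨ b' ≤ i) :
    S.ρ i x ∈ O := by
  obtain ⟨x0, -, -, h⟩ := S.Orbs_base hO
  exact (h _).2 (((h x).1 hx).step hi)

theorem Orbs_R (hO : O ∈ S.Orbs b b') (hx : x ∈ O) (hy : y ∈ O) : S.R (PQ b b') x y := by
  obtain ⟨x0, -, -, h⟩ := S.Orbs_base hO
  exact ((h x).1 hx).symm.trans ((h y).1 hy)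

theorem Orbs_of_R (hO : O ∈ S.Orbs b b') (hx : x ∈ O) (h : S.R (PQ b b') x y) : y ∈ O := by
  obtain ⟨x0, -, -, h0⟩ := S.Orbs_base hO
  exact (h0 y).2 (((h0 x).1 hx).trans h)

theorem Orbs_eq (hO : O ∈ S.Orbs b b') (hO' : O' ∈ S.Orbs b b') (hx : x ∈ O) (hx' : x ∈ O') :
    O = O' := by
  ext y
  exact ⟨fun h => S.Orbs_of_R hO' hx' (S.Orbs_R hO hx h),
    fun h => S.Orbs_of_R hO hx (S.Orbs_R hO' hx' h)⟩

/-- a subset of an orbit closed under the labels of the cut is the orbit -/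
theorem Orbs_ind (hO : O ∈ S.Orbs b b') (hx : x ∈ O) {U : Set Ω} (hU : x ∈ U)
    (hc : ∀ i, (i ≤ b ∨ b' ≤ i) → ∀ z ∈ O, z ∈ U → S.ρ i z ∈ U) : ∀ y ∈ O, y ∈ U := by
  intro y hy
  exact (S.Orbs_R hO hx hy).ind' (P := fun z => z ∈ U) hU
    fun i hi z hz hz' => hc i hi z (S.Orbs_of_R hO hx hz) hz'

theorem pl_le (hx : x ∈ O) : S.pl O ≤ S.lo x := by
  exact Nat.sInf_le ⟨x, hx, rfl⟩
theorem le_ql (hx : x ∈ O) : S.lo x ≤ S.ql O := by
  exact Finset.le_sup hx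
theorem ph_le (hx : x ∈ O) : S.ph O ≤ S.hi x := by
  exact Nat.sInf_le ⟨x, hx, rfl⟩
theorem le_qh (hx : x ∈ O) : S.hi x ≤ S.qh O := by
  exact Finset.le_sup hx
theorem exists_pl (hO : O ∈ S.Orbs b b') : ∃ x ∈ O, S.lo x = S.pl O := by
  obtain ⟨x, hx⟩ := S.Orbs_nonempty hO
  exact Nat.sInf_mem (s := S.lo '' (O : Set Ω)) ⟨_, x, hx, rfl⟩
theorem exists_ql (hO : O ∈ S.Orbs b b') : ∃ x ∈ O, S.lo x = S.ql O := by
  obtain ⟨x, hx, h⟩ := Finset.exists_mem_eq_sup O (S.Orbs_nonempty hO) S.lo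
  exact ⟨x, hx, h.symm⟩
theorem exists_ph (hO : O ∈ S.Orbs b b') : ∃ x ∈ O, S.hi x = S.ph O := by
  obtain ⟨x, hx⟩ := S.Orbs_nonempty hO
  exact Nat.sInf_mem (s := S.hi '' (O : Set Ω)) ⟨_, x, hx, rfl⟩
theorem exists_qh (hO : O ∈ S.Orbs b b') : ∃ x ∈ O, S.hi x = S.qh O := by
  obtain ⟨x, hx, h⟩ := Finset.exists_mem_eq_sup O (S.Orbs_nonempty hO) S.hi
  exact ⟨x, hx, h.symm⟩

theorem Orbs_range (hb : b + 2 ≤ b') (hO : O ∈ S.Orbs b b') :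
    S.pl O ≤ S.ql O ∧ S.ql O ≤ b ∧ b' ≤ S.ph O ∧ S.ph O ≤ S.qh O ∧ S.qh O < 2 * m := by
  obtain ⟨x, hx, h1⟩ := S.exists_ql hO
  obtain ⟨y, hy, h2⟩ := S.exists_ph hO
  obtain ⟨z, hz, h3⟩ := S.exists_qh hO
  have h4 := S.pl_le hx
  have h5 := S.Orbs_W hb hO hx
  have h6 := S.Orbs_W hb hO hy
  have h7 := S.le_qh hy
  have h8 := S.hi_lt z
  omega

theorem cross_lo_O (hb : b + 2 ≤ b') (hO : O ∈ S.Orbs b b') {l : ℕ} (h1 : S.pl O < l)
    (h2 : l ≤ S.ql O) : ∃ x ∈ O, S.lo x = l ∧ S.lo (S.ρ l x) + 1 = l := by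
  obtain ⟨x, hx, h3⟩ := S.exists_pl hO
  obtain ⟨y, hy, h4⟩ := S.exists_ql hO
  obtain ⟨-, z, hz, h⟩ := (S.Orbs_R hO hx hy).cross_lo (j := l) (by omega) (by omega)
  exact ⟨z, S.Orbs_of_R hO hx hz, h⟩

theorem cross_hi_O (hb : b + 2 ≤ b') (hO : O ∈ S.Orbs b b') {j : ℕ} (h1 : S.ph O ≤ j)
    (h2 : j < S.qh O) : ∃ x ∈ O, S.hi x = j ∧ S.hi (S.ρ j x) = j + 1 := by
  obtain ⟨x, hx, h3⟩ := S.exists_ph hO
  obtain ⟨y, hy, h4⟩ := S.exists_qh hO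
  obtain ⟨-, z, hz, h⟩ := (S.Orbs_R hO hx hy).cross_hi (j := j) (by omega) (by omega)
  exact ⟨z, S.Orbs_of_R hO hx hz, h⟩

/-- the two groups commute: an orbit is a product -/
theorem PQ_split (hb : b + 2 ≤ b') (h : S.R (PQ b b') x y) :
    ∃ z, S.R (Set.Iic b) x z ∧ S.R (Set.Ici b') z y := by
  refine h.ind' (P := fun y => ∃ z, S.R (Set.Iic b) x z ∧ S.R (Set.Ici b') z y)
    ⟨x, S.R_refl _ _, S.R_refl _ _⟩ ?_
  rintro i (hi | hi) w - ⟨z, h1, h2⟩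
  · exact ⟨S.ρ i z, h1.step hi, h2.map (f := S.ρ i) fun j hj u =>
      S.comm i j (by have : b' ≤ j := hj; omega) u⟩
  · exact ⟨z, h1, h2.step hi⟩

theorem PQ_split' (hb : b + 2 ≤ b') (h : S.R (PQ b b') x y) :
    ∃ z, S.R (Set.Ici b') x z ∧ S.R (Set.Iic b) z y := by
  obtain ⟨z, h1, h2⟩ := S.PQ_split hb h.symm
  exact ⟨z, h2.symm, h1.symm⟩

/-- the low labels keep `hi` when it is large, and keep the points not moved by high labels -/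
theorem P_hi (hb : b + 2 ≤ b') (h : S.R (Set.Iic b) x y) :
    (b' ≤ S.hi x → S.hi y = S.hi x) ∧ (S.hi x < b' → S.hi y < b') ∧
      (S.lo x ≤ b → S.lo y ≤ b) := by
  refine h.ind' (P := fun y => (b' ≤ S.hi x → S.hi y = S.hi x) ∧ (S.hi x < b' → S.hi y < b') ∧
    (S.lo x ≤ b → S.lo y ≤ b)) ⟨fun _ => rfl, id, id⟩ ?_
  intro i hi z _ hz
  have h3 := S.lo_step i z
  have h4 := S.hi_step i z
  have h5 : i ≤ b := hi
  omega

theorem Q_lo (hb : b + 2 ≤ b') (h : S.R (Set.Ici b') x y) :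
    (S.lo x ≤ b → S.lo y = S.lo x) ∧ (b < S.lo x → b < S.lo y) ∧
      (b' ≤ S.hi x → b' ≤ S.hi y) := by
  refine h.ind' (P := fun y => (S.lo x ≤ b → S.lo y = S.lo x) ∧ (b < S.lo x → b < S.lo y) ∧
    (b' ≤ S.hi x → b' ≤ S.hi y)) ⟨fun _ => rfl, id, id⟩ ?_
  intro i hi z _ hz
  have h3 := S.lo_step i z
  have h4 := S.hi_step i z
  have h5 : b' ≤ i := hi
  omega

theorem P_levels (hb : b + 2 ≤ b') (hO : O ∈ S.Orbs b b') (hx : x ∈ O) {l : ℕ}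
    (h1 : S.pl O ≤ l) (h2 : l ≤ S.ql O) : ∃ y, S.R (Set.Iic b) x y ∧ S.lo y = l := by
  obtain ⟨w, hw, h3⟩ : ∃ w ∈ O, S.lo w = l := by
    rcases h1.eq_or_lt with rfl | h1
    · exact S.exists_pl hO
    · obtain ⟨w, hw, h, -⟩ := S.cross_lo_O hb hO h1 h2
      exact ⟨w, hw, h⟩
  obtain ⟨z, h4, h5⟩ := S.PQ_split hb (S.Orbs_R hO hx hw)
  exact ⟨z, h4, by rw [← h3, (S.Q_lo hb h5).1 ((S.P_hi hb h4).2.2 (S.Orbs_W hb hO hx).1)]⟩

theorem Q_levels (hb : b + 2 ≤ b') (hO : O ∈ S.Orbs b b') (hx : x ∈ O) {j : ℕ}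
    (h1 : S.ph O ≤ j) (h2 : j ≤ S.qh O) : ∃ y, S.R (Set.Ici b') x y ∧ S.hi y = j := by
  obtain ⟨w, hw, h3⟩ : ∃ w ∈ O, S.hi w = j := by
    rcases h2.eq_or_lt with rfl | h2
    · exact S.exists_qh hO
    · obtain ⟨w, hw, h, -⟩ := S.cross_hi_O hb hO h1 h2
      exact ⟨w, hw, h⟩
  obtain ⟨z, h4, h5⟩ := S.PQ_split' hb (S.Orbs_R hO hx hw)
  exact ⟨z, h4, by rw [← h3, (S.P_hi hb h5).1 ((S.Q_lo hb h4).2.2 (S.Orbs_W hb hO hx).2)]⟩

theorem Orbs_P (hO : O ∈ S.Orbs b b') (hx : x ∈ O) (h : S.R (Set.Iic b) x y) : y ∈ O :=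
  S.Orbs_of_R hO hx (h.mono fun _ hi => Or.inl hi)

theorem Orbs_Q (hO : O ∈ S.Orbs b b') (hx : x ∈ O) (h : S.R (Set.Ici b') x y) : y ∈ O :=
  S.Orbs_of_R hO hx (h.mono fun _ hi => Or.inr hi)

omit [Fintype Ω] [DecidableEq Ω] in
theorem card_ge_aux {T : Finset Ω} {f : Ω → ℕ} {p q : ℕ} (hpq : p ≤ q)
    (h : ∀ j, p ≤ j → j ≤ q → ∃ y ∈ T, f y = j) {z w : Ω} (hz : z ∈ T) (hw : w ∈ T) (hne : w ≠ z)
    (he : f w = f z) : q - p + 2 ≤ T.card := by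
  have h1 : Icc p q ⊆ T.image f := fun j hj => by
    obtain ⟨y, hy, e⟩ := h j (mem_Icc.1 hj).1 (mem_Icc.1 hj).2
    exact mem_image.2 ⟨y, hy, e⟩
  have h2 := card_le_card h1
  have h3 : (T.image f).card ≠ T.card := fun e => hne (card_image_iff.1 e hw hz he)
  have h4 : (T.image f).card ≤ T.card := card_image_le
  rw [Nat.card_Icc] at h2
  omega

open Classical in
theorem Qorb_ge (hb : b + 2 ≤ b') (hO : O ∈ S.Orbs b b') (hx : x ∈ O) :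
    S.kO O + 2 ≤ (univ.filter (fun y => S.R (Set.Ici b') x y)).card := by
  have hr := S.Orbs_range hb hO
  obtain ⟨z, h1, h2⟩ := S.Q_levels hb hO hx hr.2.2.2.1 le_rfl
  have h3 : S.R (Set.Ici b') x (S.ρ (S.hi z) z) := h1.step (by simp; omega)
  refine card_ge_aux (f := S.hi) hr.2.2.2.1 (fun j h4 h5 => ?_) (z := z) (by simpa using h1)
    (by simpa using h3) (S.mv_hi z) ?_
  · obtain ⟨y, h6, h7⟩ := S.Q_levels hb hO hx h4 h5
    exact ⟨y, by simpa using h6, h7⟩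
  · have h4 := S.hi_step (S.hi z) z
    have h5 := S.le_qh (S.Orbs_Q hO hx h3)
    omega

open Classical in
theorem Porb_ge (hb : b + 2 ≤ b') (hO : O ∈ S.Orbs b b') (hx : x ∈ O) :
    S.iO O + 2 ≤ (univ.filter (fun y => S.R (Set.Iic b) x y)).card := by
  have hr := S.Orbs_range hb hO
  obtain ⟨z, h1, h2⟩ := S.P_levels hb hO hx le_rfl hr.1
  have h3 : S.R (Set.Iic b) x (S.ρ (S.lo z) z) := h1.step (by simp; omega)
  refine card_ge_aux (f := S.lo) hr.1 (fun j h4 h5 => ?_) (z := z) (by simpa using h1)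
    (by simpa using h3) (S.mv_lo z) ?_
  · obtain ⟨y, h6, h7⟩ := S.P_levels hb hO hx h4 h5
    exact ⟨y, by simpa using h6, h7⟩
  · have h4 := S.lo_step (S.lo z) z
    have h5 := S.pl_le (S.Orbs_P hO hx h3)
    omega

theorem aO_ge (hb : b + 2 ≤ b') (hO : O ∈ S.Orbs b b') {l : ℕ} (h1 : S.pl O ≤ l)
    (h2 : l ≤ S.ql O) : S.kO O + 2 ≤ S.aO O l := by
  obtain ⟨x, hx⟩ := S.Orbs_nonempty hO
  obtain ⟨y, h3, h4⟩ := S.P_levels hb hO hx h1 h2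
  have hy := S.Orbs_P hO hx h3
  refine (S.Qorb_ge hb hO hy).trans (card_le_card fun z hz => ?_)
  have h5 : S.R (Set.Ici b') y z := by simpa using hz
  exact mem_filter.2 ⟨S.Orbs_Q hO hy h5, by rw [(S.Q_lo hb h5).1 (S.Orbs_W hb hO hy).1, h4]⟩

theorem bO_ge (hb : b + 2 ≤ b') (hO : O ∈ S.Orbs b b') {j : ℕ} (h1 : S.ph O ≤ j)
    (h2 : j ≤ S.qh O) : S.iO O + 2 ≤ S.bO O j := by
  obtain ⟨x, hx⟩ := S.Orbs_nonempty hO
  obtain ⟨y, h3, h4⟩ := S.Q_levels hb hO hx h1 h2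
  have hy := S.Orbs_Q hO hx h3
  refine (S.Porb_ge hb hO hy).trans (card_le_card fun z hz => ?_)
  have h5 : S.R (Set.Iic b) y z := by simpa using hz
  exact mem_filter.2 ⟨S.Orbs_P hO hy h5, by rw [(S.P_hi hb h5).1 (S.Orbs_W hb hO hy).2, h4]⟩

theorem sum_aO (O : Finset Ω) : O.card = ∑ l ∈ Icc (S.pl O) (S.ql O), S.aO O l := by
  exact card_eq_sum_card_fiberwise fun x hx => by
    simpa using ⟨S.pl_le (by simpa using hx), S.le_ql (by simpa using hx)⟩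

theorem sum_bO (O : Finset Ω) : O.card = ∑ j ∈ Icc (S.ph O) (S.qh O), S.bO O j := by
  exact card_eq_sum_card_fiberwise fun x hx => by
    simpa using ⟨S.ph_le (by simpa using hx), S.le_qh (by simpa using hx)⟩

theorem sum_ge_aux {f : ℕ → ℕ} {p q c : ℕ} (hpq : p ≤ q) (h : ∀ j, p ≤ j → j ≤ q → c ≤ f j)
    {L : Finset ℕ} (hL : L ⊆ Icc p q) :
    ∑ l ∈ L, f l + c * (q - p + 1) ≤ ∑ l ∈ Icc p q, f l + c * L.card := by
  have h1 := sum_sdiff (f := f) hL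
  have h2 := card_sdiff_add_card_eq_card hL
  have h3 := card_nsmul_le_sum (Icc p q \ L) f c fun j hj => by
    have := mem_Icc.1 (mem_sdiff.1 hj).1
    exact h j this.1 this.2
  rw [Nat.card_Icc, show q + 1 - p = q - p + 1 by omega] at h2
  rw [smul_eq_mul, mul_comm] at h3
  rw [← h2, ← h1, mul_add, add_comm (∑ x ∈ Icc p q \ L, f x), add_assoc]
  exact Nat.add_le_add_left (Nat.add_le_add_right h3 _) _

theorem card_a (hb : b + 2 ≤ b') (hO : O ∈ S.Orbs b b') {c : ℕ}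
    (h : ∀ l, S.pl O ≤ l → l ≤ S.ql O → c ≤ S.aO O l) : c * (S.iO O + 1) ≤ O.card := by
  have := sum_ge_aux (S.Orbs_range hb hO).1 h (empty_subset _)
  rw [← S.sum_aO] at this
  simpa [iO] using this

theorem card_b (hb : b + 2 ≤ b') (hO : O ∈ S.Orbs b b') :
    (S.iO O + 2) * (S.kO O + 1) ≤ O.card := by
  have := sum_ge_aux (S.Orbs_range hb hO).2.2.2.1 (fun _ => S.bO_ge hb hO) (empty_subset _)
  rw [← S.sum_bO] at this
  simpa [kO] using this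

theorem P_map (hb : b + 2 ≤ b') {g : Perm Ω} (hg : g ∈ S.G (Set.Iic b))
    (h : S.R (Set.Ici b') x y) : S.R (Set.Ici b') (g x) (g y) :=
  h.map (f := g) fun i hi z => (S.G_comm (f := S.ρ i) (fun j hj u =>
    (S.comm j i (by have : b' ≤ i := hi; have : j ≤ b := hj; omega) u).symm) hg z).symm

theorem Q_map (hb : b + 2 ≤ b') {g : Perm Ω} (hg : g ∈ S.G (Set.Ici b'))
    (h : S.R (Set.Iic b) x y) : S.R (Set.Iic b) (g x) (g y) :=
  h.map (f := g) fun i hi z => (S.G_comm (f := S.ρ i) (fun j hj u =>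
    S.comm i j (by have : b' ≤ j := hj; have : i ≤ b := hi; omega) u) hg z).symm

theorem card_fine (hb : b + 2 ≤ b') (hO : O ∈ S.Orbs b b') :
    2 * (S.kO O + 1) * (S.iO O + 1) ≤ O.card ∨ (S.iO O + 2) * (S.kO O + 2) ≤ O.card := by
  classical
  by_cases hc : ∃ x ∈ O, ∃ y, S.R (Set.Iic b) x y ∧ S.R (Set.Ici b') x y ∧ x ≠ y
  · obtain ⟨x, hx, y, hP, hQ, hne⟩ := hc
    refine Or.inl (S.card_a hb hO fun l h1 h2 => ?_)
    obtain ⟨_, ⟨g, hg, rfl⟩, h3⟩ := S.P_levels hb hO hx h1 h2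
    have hgx := S.Orbs_P hO hx ⟨g, hg, rfl⟩
    have e : S.aO O l = ∑ j ∈ Icc (S.ph O) (S.qh O),
        ((O.filter (fun x => S.lo x = l)).filter (fun x => S.hi x = j)).card :=
      card_eq_sum_card_fiberwise fun x hx => by
        have : x ∈ O := (mem_filter.1 hx).1
        simpa using ⟨S.ph_le this, S.le_qh this⟩
    have := sum_ge_aux (c := 2) (S.Orbs_range hb hO).2.2.2.1
      (f := fun j => ((O.filter (fun x => S.lo x = l)).filter (fun x => S.hi x = j)).card)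
      (fun j h4 h5 => ?_) (empty_subset _)
    · rw [← e] at this
      simpa [kO] using this
    obtain ⟨_, ⟨h, hh, rfl⟩, h6⟩ := S.Q_levels hb hO hx h4 h5
    have hhx := S.Orbs_Q hO hx ⟨h, hh, rfl⟩
    have key : ∀ w, S.R (Set.Iic b) x w → S.R (Set.Ici b') x w →
        g (h w) ∈ (O.filter (fun x => S.lo x = l)).filter (fun x => S.hi x = j) := by
      intro w k1 k2
      have k3 := S.P_map hb hg (k2.trans ⟨h, hh, rfl⟩)
      have k4 : S.R (Set.Iic b) (h x) (g (h w)) := (S.Q_map hb hh k1).trans ⟨g, hg, rfl⟩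
      exact mem_filter.2 ⟨mem_filter.2 ⟨S.Orbs_Q hO hgx k3,
        by rw [(S.Q_lo hb k3).1 (S.Orbs_W hb hO hgx).1, h3]⟩,
        by rw [(S.P_hi hb k4).1 (S.Orbs_W hb hO hhx).2, h6]⟩
    exact one_lt_card.2 ⟨_, key x (S.R_refl _ _) (S.R_refl _ _), _, key y hP hQ,
      fun e => hne (h.injective (g.injective e))⟩
  · push Not at hc
    obtain ⟨x, hx⟩ := S.Orbs_nonempty hO
    refine Or.inr ((Nat.mul_le_mul (S.Porb_ge hb hO hx) (S.Qorb_ge hb hO hx)).trans ?_)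
    have : ∀ u, ∃ g ∈ S.G (Set.Iic b), S.R (Set.Iic b) x u → g x = u := fun u => by
      by_cases hu : S.R (Set.Iic b) x u
      · obtain ⟨g, hg, e⟩ := hu
        exact ⟨g, hg, fun _ => e⟩
      · exact ⟨1, one_mem _, fun h => absurd h hu⟩
    choose g hg hgx using this
    rw [← card_product]
    refine card_le_card_of_injOn (fun p => g p.1 p.2) (fun p hp => ?_) fun p hp q hq e => ?_
    · have k1 : S.R (Set.Iic b) x p.1 ∧ S.R (Set.Ici b') x p.2 := by simpa using hp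
      exact S.Orbs_P hO (S.Orbs_Q hO hx k1.2) ⟨_, hg _, rfl⟩
    · have k1 : S.R (Set.Iic b) x p.1 ∧ S.R (Set.Ici b') x p.2 := by simpa using hp
      have k2 : S.R (Set.Iic b) x q.1 ∧ S.R (Set.Ici b') x q.2 := by simpa using hq
      have e' : g p.1 p.2 = g q.1 q.2 := e
      have k3 := S.P_map hb (hg p.1) k1.2
      have k4 := S.P_map hb (hg q.1) k2.2
      rw [hgx _ k1.1, e'] at k3
      rw [hgx _ k2.1] at k4
      have k5 : S.R (Set.Iic b) q.2 (g q.1 q.2) := ⟨_, hg _, rfl⟩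
      exact Prod.ext (hc _ (S.Orbs_P hO hx k1.1) _ (k1.1.symm.trans k2.1) (k3.trans k4.symm))
        (hc _ (S.Orbs_Q hO hx k1.2) _ (R.trans ⟨_, hg _, e'⟩ k5.symm) (k1.2.symm.trans k2.2))

theorem card_O (hb : b + 2 ≤ b') (hO : O ∈ S.Orbs b b') :
    O.card = 2 * S.iO O + 2 * S.kO O + 2 + S.exc O := by
  have h1 := S.card_a hb hO fun _ => S.aO_ge hb hO
  have h2 := S.card_b hb hO
  have : 2 * S.iO O + 2 * S.kO O + 2 ≤ O.card := by
    rcases Nat.eq_zero_or_pos (S.iO O) with h | h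
    · rw [h] at h2 ⊢; omega
    · nlinarith
  unfold exc
  omega

theorem exc_two (hb : b + 2 ≤ b') (hO : O ∈ S.Orbs b b') (hi : 1 ≤ S.iO O) (hk : 1 ≤ S.kO O) :
    2 ≤ S.exc O := by
  have h1 := S.card_fine hb hO
  rw [S.card_O hb hO] at h1
  rcases h1 with h1 | h1 <;> nlinarith

theorem exc_four (hb : b + 2 ≤ b') (hO : O ∈ S.Orbs b b') (hi : 1 ≤ S.iO O) (hk : 1 ≤ S.kO O)
    (h3 : 3 ≤ S.iO O + S.kO O) : 4 ≤ S.exc O := by
  have h1 := S.card_fine hb hO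
  rw [S.card_O hb hO] at h1
  have h2 : 2 ≤ S.iO O * S.kO O := by
    rcases hi.eq_or_lt with h | h
    · rw [← h] at h3 ⊢; omega
    · nlinarith
  rcases h1 with h1 | h1 <;> nlinarith

/-- for `k = 0` the excess is the sum of the excesses of the levels -/
theorem exc_k0 (hb : b + 2 ≤ b') (hO : O ∈ S.Orbs b b') (hk : S.kO O = 0) {L : Finset ℕ}
    (hL : L ⊆ Icc (S.pl O) (S.ql O)) : ∑ l ∈ L, S.aO O l ≤ S.exc O + 2 * L.card := by
  have h1 := sum_ge_aux (S.Orbs_range hb hO).1 (fun _ => S.aO_ge hb hO) hL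
  rw [← S.sum_aO, S.card_O hb hO, hk] at h1
  unfold iO at h1
  omega

theorem exc_i0 (hb : b + 2 ≤ b') (hO : O ∈ S.Orbs b b') (hi : S.iO O = 0) {J : Finset ℕ}
    (hJ : J ⊆ Icc (S.ph O) (S.qh O)) : ∑ j ∈ J, S.bO O j ≤ S.exc O + 2 * J.card := by
  have h1 := sum_ge_aux (S.Orbs_range hb hO).2.2.2.1 (fun _ => S.bO_ge hb hO) hJ
  rw [← S.sum_bO, S.card_O hb hO, hi] at h1
  unfold kO at h1
  omega

theorem exc_a (hb : b + 2 ≤ b') (hO : O ∈ S.Orbs b b') (hi : 1 ≤ S.iO O) {l : ℕ}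
    (h4 : 4 ≤ S.aO O l) : 2 ≤ S.exc O := by
  rcases Nat.eq_zero_or_pos (S.kO O) with h | h
  · obtain ⟨x, hx⟩ : (O.filter (fun x => S.lo x = l)).Nonempty :=
      card_pos.1 (by unfold aO at h4; omega)
    obtain ⟨hx', rfl⟩ := mem_filter.1 hx
    have := S.exc_k0 hb hO h (L := {S.lo x}) (by simpa using ⟨S.pl_le hx', S.le_ql hx'⟩)
    rw [sum_singleton, card_singleton] at this
    omega
  · exact S.exc_two hb hO hi h

theorem aO_i0 (hO : O ∈ S.Orbs b b') (hi : S.iO O = 0) : S.aO O (S.pl O) = O.card := by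
  unfold aO
  rw [filter_true_of_mem]
  intro x hx
  have h1 := S.pl_le hx
  have h2 := S.le_ql hx
  unfold iO at hi
  omega

theorem even_aO_pl (hb : b + 2 ≤ b') (hO : O ∈ S.Orbs b b') : Even (S.aO O (S.pl O)) := by
  refine even_card_of_inv (S.ρ (S.pl O)) _ (S.inv _) fun x hx => ?_
  obtain ⟨hx, h1⟩ := mem_filter.1 hx
  have h2 := S.Orbs_ρ hO hx (i := S.pl O) (Or.inl (h1 ▸ (S.Orbs_W hb hO hx).1))
  have h3 := S.pl_le h2
  have h4 := S.lo_step (S.pl O) x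
  exact ⟨mem_filter.2 ⟨h2, by omega⟩, h1 ▸ S.mv_lo x⟩

theorem even_aO_k0 (hb : b + 2 ≤ b') (hO : O ∈ S.Orbs b b') (hk : S.kO O = 0) (l : ℕ) :
    Even (S.aO O l) := by
  refine even_card_of_inv (S.ρ (S.qh O)) _ (S.inv _) fun x hx => ?_
  obtain ⟨hx, h1⟩ := mem_filter.1 hx
  have h2 := S.Orbs_W hb hO hx
  have h3 := S.ph_le hx
  have h4 := S.le_qh hx
  have h5 : S.hi x = S.qh O := by unfold kO at hk; omega
  exact ⟨mem_filter.2 ⟨S.Orbs_ρ hO hx (Or.inr (by omega)), by rw [S.lo_far (by omega), h1]⟩,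
    h5 ▸ S.mv_hi x⟩

/-- a point of least level in an orbit of the low labels has its partner on the same level -/
theorem Pmin (hx : S.lo x ≤ b) : ∃ z, S.R (Set.Iic b) x z ∧
    (∀ w, S.R (Set.Iic b) x w → S.lo z ≤ S.lo w) ∧ S.lo (S.ρ (S.lo z) z) = S.lo z := by
  classical
  obtain ⟨z, h1, h2⟩ := exists_min_image (univ.filter (fun y => S.R (Set.Iic b) x y)) S.lo
    ⟨x, by simpa using S.R_refl _ x⟩
  have h3 : S.R (Set.Iic b) x z := by simpa using h1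
  have h4 : ∀ w, S.R (Set.Iic b) x w → S.lo z ≤ S.lo w := fun w hw => h2 w (by simpa using hw)
  have h5 := h4 _ (h3.step (i := S.lo z) ((h4 x (S.R_refl _ _)).trans hx))
  have h6 := S.lo_step (S.lo z) z
  exact ⟨z, h3, h4, by omega⟩

/-- a permutation commuting with the low labels keeps the low levels -/
theorem lo_comm {φ : Perm Ω} (hφ : ∀ i ≤ b, ∀ z, φ (S.ρ i z) = S.ρ i (φ z)) (hx : S.lo x ≤ b) :
    S.lo (φ x) = S.lo x := by
  refine S.lo_eq ?_ fun j hj => ?_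
  · rw [← hφ _ hx]
    exact fun e => S.mv_lo x (φ.injective e)
  · rw [← hφ _ (by omega), S.fix_lo hj]

end SD
end D145
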