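import Mathlib

/-! Definitions for the classification of self-dual string C-groups of rank `2m` for `A_{4m+3}`. -/

namespace D145
open Equiv Finset

/-- `H` contains every even permutation supported in `U`. -/
def AltIn {Ω : Type} [Fintype Ω] [DecidableEq Ω] (H : Subgroup (Perm Ω)) (U : Set Ω) : Prop :=
  ∀ g : Perm Ω, Perm.sign g = 1 → (∀ x, x ∉ U → g x = x) → g ∈ H

/-- subgroup generated by the generators with labels in `I` -/
def Gen {Ω : Type} (ρ : ℕ → Perm Ω) (I : Set ℕ) : Subgroup (Perm Ω) := Subgroup.closure (ρ '' I)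

/-- A self-dual string C-group for the alternating group, as permutations. -/
structure SD (Ω : Type) [Fintype Ω] [DecidableEq Ω] (m : ℕ) where
  ρ : ℕ → Perm Ω
  δ : Perm Ω
  hm : 5 ≤ m
  card : Fintype.card Ω = 4 * m + 3
  triv : ∀ i, 2 * m ≤ i → ρ i = 1
  inv : ∀ i x, ρ i (ρ i x) = x
  ne : ∀ i, i < 2 * m → ρ i ≠ 1
  comm : ∀ i j, i + 2 ≤ j → ∀ x, ρ i (ρ j x) = ρ j (ρ i x)
  even : ∀ i, Perm.sign (ρ i) = 1
  gen : Subgroup.closure (Set.range ρ) = alternatingGroup Ω
  ip : ∀ k l, Gen ρ (Set.Iic l) ⊓ Gen ρ (Set.Ici k) ≤ Gen ρ (Set.Icc k l)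
  dinv : ∀ x, δ (δ x) = x
  dual : ∀ i, i < 2 * m → ∀ x, δ (ρ i x) = ρ (2 * m - 1 - i) (δ x)

namespace SD
variable {Ω : Type} [Fintype Ω] [DecidableEq Ω] {m : ℕ} (S : SD Ω m)

/-- subgroup generated by the labels in `I` -/
def G (I : Set ℕ) : Subgroup (Perm Ω) := Gen S.ρ I

/-- `y` is in the orbit of `x` under the labels in `I` -/
def R (I : Set ℕ) (x y : Ω) : Prop := ∃ g ∈ S.G I, g x = y

/-- least label moving `x` (the level of `x`) -/
noncomputable def lo (x : Ω) : ℕ := sInf {i | S.ρ i x ≠ x}

/-- largest label moving `x` -/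
noncomputable def hi (x : Ω) : ℕ := sSup {i | S.ρ i x ≠ x}

/-- points of level `i` -/
noncomputable def lev (i : ℕ) : Finset Ω := univ.filter (fun x => S.lo x = i)

/-- number of points of level `i` -/
noncomputable def a (i : ℕ) : ℕ := (S.lev i).card

/-- points moved by the label `i` -/
def supp (i : ℕ) : Finset Ω := univ.filter (fun x => S.ρ i x ≠ x)

/-- points of level `< c` -/
noncomputable def A (c : ℕ) : Finset Ω := univ.filter (fun x => S.lo x < c)

/-- largest label acting on the points of level `< c` -/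
noncomputable def H (c : ℕ) : ℕ := (S.A c).sup S.hi

/-- overhang at `c` -/
noncomputable def h (c : ℕ) : ℕ := S.H c - c

/-- labels of the cut `(b, b')` -/
def PQ (b b' : ℕ) : Set ℕ := {i | i ≤ b ∨ b' ≤ i}

open Classical in
/-- orbit of `x` under the labels `≤ b` and `≥ b'` -/
noncomputable def orb (b b' : ℕ) (x : Ω) : Finset Ω := univ.filter (fun y => S.R (PQ b b') x y)

/-- points moved both by a label `≤ b` and by a label `≥ b'` -/
noncomputable def W (b b' : ℕ) : Finset Ω := univ.filter (fun x => S.lo x ≤ b ∧ b' ≤ S.hi x)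

/-- the orbits contained in `W b b'` -/
noncomputable def Orbs (b b' : ℕ) : Finset (Finset Ω) := (S.W b b').image (S.orb b b')

/-- least level in `O` -/
noncomputable def pl (O : Finset Ω) : ℕ := sInf (S.lo '' (O : Set Ω))
/-- largest level in `O` -/
noncomputable def ql (O : Finset Ω) : ℕ := O.sup S.lo
/-- least value of `hi` on `O` -/
noncomputable def ph (O : Finset Ω) : ℕ := sInf (S.hi '' (O : Set Ω))
/-- largest value of `hi` on `O` -/
noncomputable def qh (O : Finset Ω) : ℕ := O.sup S.hi
/-- spread of the levels -/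
noncomputable def iO (O : Finset Ω) : ℕ := S.ql O - S.pl O
/-- spread of `hi` -/
noncomputable def kO (O : Finset Ω) : ℕ := S.qh O - S.ph O
/-- excess of an orbit -/
noncomputable def exc (O : Finset Ω) : ℕ := O.card - (2 * S.iO O + 2 * S.kO O + 2)
/-- number of points of `O` of level `l` -/
noncomputable def aO (O : Finset Ω) (l : ℕ) : ℕ := (O.filter (fun x => S.lo x = l)).card
/-- number of points of `O` with `hi = j` -/
noncomputable def bO (O : Finset Ω) (j : ℕ) : ℕ := (O.filter (fun x => S.hi x = j)).card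

/-- points of level `i` not moved by labels `≥ b'` -/
noncomputable def levX (b' i : ℕ) : Finset Ω := univ.filter (fun x => S.lo x = i ∧ S.hi x < b')
/-- their number -/
noncomputable def aX (b' i : ℕ) : ℕ := (S.levX b' i).card
/-- orbits entering level `i` from below -/
noncomputable def OI (b b' i : ℕ) : Finset (Finset Ω) :=
  (S.Orbs b b').filter (fun O => S.pl O < i ∧ i ≤ S.ql O)
/-- orbits starting at level `i` -/
noncomputable def OP (b b' i : ℕ) : Finset (Finset Ω) :=
  (S.Orbs b b').filter (fun O => S.pl O = i)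
/-- symmetric credit of level `i` -/
noncomputable def gam (b b' i : ℕ) : ℕ :=
  S.aX b' i + 2 * (S.OI b b' i).card + (S.OP b b' i).card
/-- one-sided credit of level `i` -/
noncomputable def gam2 (b b' i : ℕ) : ℕ :=
  S.aX b' i + 2 * (S.OI b b' i).card + 2 * (S.OP b b' i).card

/-- `c` is a level in `[1, m-1]` with a single point -/
def Al (c : ℕ) : Prop := 1 ≤ c ∧ c + 1 ≤ m ∧ S.a c = 1

/-- `v` is a cut vertex: the only point moved by a label `< m` and by a label `≥ m` -/
def CV (v : Ω) : Prop :=
  S.lo v + 1 = m ∧ S.hi v = m ∧ ∀ x, S.lo x < m → m ≤ S.hi x → x = v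

end SD
end D145
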