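import Pool.Agent.MP_d145c0_al.H75.Cut

/-! Counting identities and lower bounds for the credits. -/

namespace D145
open Equiv Finset
namespace SD
variable {Ω : Type} [Fintype Ω] [DecidableEq Ω] {m : ℕ} (S : SD Ω m) {b b' : ℕ}
  {O O' : Finset Ω} {x y : Ω}

/-- the orbits partition `W` -/
theorem sm_filter (hb : b + 2 ≤ b') (p : Ω → Prop) [DecidablePred p] :
    ((S.W b b').filter p).card = ∑ O ∈ S.Orbs b b', (O.filter p).card := by
  rw [← card_biUnion]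
  · congr 1
    ext x
    simp only [mem_filter, mem_biUnion]
    constructor
    · rintro ⟨h1, h2⟩
      obtain ⟨O, hO, hx⟩ := S.exists_orb (S.mem_W.1 h1).1 (S.mem_W.1 h1).2
      exact ⟨O, hO, hx, h2⟩
    · rintro ⟨O, hO, hx, h2⟩
      exact ⟨S.mem_W.2 (S.Orbs_W hb hO hx), h2⟩
  · intro O hO O' hO' hne
    rw [Function.onFun, disjoint_left]
    intro x h1 h2
    exact hne (S.Orbs_eq hO hO' (mem_filter.1 h1).1 (mem_filter.1 h2).1)

theorem a_split (hb : b + 2 ≤ b') {i : ℕ} (hi : i ≤ b) :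
    S.a i = S.aX b' i + ∑ O ∈ S.Orbs b b', S.aO O i := by
  unfold a aX aO
  rw [← S.sm_filter hb, ← card_union_of_disjoint]
  · congr 1
    ext x
    simp only [mem_lev, mem_union, mem_levX, mem_filter, mem_W]
    omega
  · rw [disjoint_left]
    intro x h1 h2
    have h3 := S.mem_levX.1 h1
    have h4 := S.mem_W.1 (mem_filter.1 h2).1
    omega

theorem card_W (hb : b + 2 ≤ b') : (S.W b b').card = ∑ O ∈ S.Orbs b b', O.card := by
  have := S.sm_filter hb (fun _ => True)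
  simpa using this

theorem even_aX0 (hb : 2 ≤ b') : Even (S.aX b' 0) := by
  refine even_card_of_inv (S.ρ 0) _ (S.inv _) fun x hx => ?_
  obtain ⟨h1, h2⟩ := S.mem_levX.1 hx
  have h3 := S.lo_step 0 x
  have h4 := S.hi_step 0 x
  exact ⟨S.mem_levX.2 ⟨by omega, by omega⟩, h1 ▸ S.mv_lo x⟩

theorem sm_OI (hb : b + 2 ≤ b') (i0 : ℕ)
    (h0 : ∀ O ∈ S.Orbs b b', i0 ≤ S.pl O ∨ S.ql O < i0) :
    ∑ i ∈ Icc i0 b, (S.OI b b' i).card =
      ∑ O ∈ (S.Orbs b b').filter (fun O => i0 ≤ S.pl O), S.iO O := by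
  unfold OI
  simp only [card_filter]
  rw [sum_comm, sum_filter]
  refine sum_congr rfl fun O hO => ?_
  have hr := S.Orbs_range hb hO
  have h1 := h0 O hO
  rw [← card_filter]
  split_ifs with h
  · have : (Icc i0 b).filter (fun i => S.pl O < i ∧ i ≤ S.ql O) = Ioc (S.pl O) (S.ql O) := by
      ext i
      simp only [mem_filter, mem_Icc, mem_Ioc]
      omega
    rw [this, Nat.card_Ioc]
    rfl
  · rw [card_eq_zero, filter_eq_empty_iff]
    intro i hi
    have := mem_Icc.1 hi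
    omega

theorem sm_OP (hb : b + 2 ≤ b') (i0 : ℕ) :
    ∑ i ∈ Icc i0 b, (S.OP b b' i).card =
      ((S.Orbs b b').filter (fun O => i0 ≤ S.pl O)).card := by
  rw [card_eq_sum_card_fiberwise (f := S.pl) (t := Icc i0 b) (fun O hO => by
    obtain ⟨h1, h2⟩ := mem_filter.1 hO
    have hr := S.Orbs_range hb h1
    simp only [coe_Icc, Set.mem_Icc]
    omega)]
  refine sum_congr rfl fun i hi => ?_
  have := mem_Icc.1 hi
  congr 1
  ext O
  simp only [mem_OP, mem_filter]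
  constructor
  · rintro ⟨h1, h2⟩
    exact ⟨⟨h1, by omega⟩, h2⟩
  · rintro ⟨⟨h1, -⟩, h2⟩
    exact ⟨h1, h2⟩

/-- one-sided count of the levels `i0 .. b` -/
theorem sum2 (hb : b + 2 ≤ b') (i0 : ℕ)
    (h0 : ∀ O ∈ S.Orbs b b', i0 ≤ S.pl O ∨ S.ql O < i0) :
    (univ.filter (fun x => i0 ≤ S.lo x ∧ S.lo x ≤ b)).card =
      ∑ i ∈ Icc i0 b, S.gam2 b b' i +
        ∑ O ∈ (S.Orbs b b').filter (fun O => i0 ≤ S.pl O), (2 * S.kO O + S.exc O) := by
  have e1 : (univ.filter (fun x => i0 ≤ S.lo x ∧ S.lo x ≤ b)).card = ∑ i ∈ Icc i0 b, S.a i := by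
    rw [card_eq_sum_card_fiberwise (f := S.lo) (t := Icc i0 b) (fun x hx => by simpa using hx)]
    refine sum_congr rfl fun i hi => ?_
    have := mem_Icc.1 hi
    unfold a
    congr 1
    ext x
    simp only [mem_filter, mem_univ, true_and, mem_lev]
    omega
  have e2 : ∑ i ∈ Icc i0 b, S.a i = ∑ i ∈ Icc i0 b, S.aX b' i +
      ∑ O ∈ (S.Orbs b b').filter (fun O => i0 ≤ S.pl O), O.card := by
    rw [sum_congr rfl fun i hi => S.a_split hb (mem_Icc.1 hi).2, sum_add_distrib, sum_comm,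
      sum_filter]
    congr 1
    refine sum_congr rfl fun O hO => ?_
    have hr := S.Orbs_range hb hO
    split_ifs with h
    · exact (card_eq_sum_card_fiberwise fun x hx => by
        have hx' : x ∈ O := by simpa using hx
        have h1 := S.pl_le hx'
        have h2 := S.le_ql hx'
        simp only [coe_Icc, Set.mem_Icc]
        omega).symm
    · refine sum_eq_zero fun i hi => ?_
      have h1 := mem_Icc.1 hi
      have h2 := h0 O hO
      unfold aO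
      rw [card_eq_zero, filter_eq_empty_iff]
      intro x hx
      have h3 := S.le_ql hx
      omega
  have e3 : ∑ O ∈ (S.Orbs b b').filter (fun O => i0 ≤ S.pl O), O.card =
      2 * ∑ O ∈ (S.Orbs b b').filter (fun O => i0 ≤ S.pl O), S.iO O +
      2 * ((S.Orbs b b').filter (fun O => i0 ≤ S.pl O)).card +
      ∑ O ∈ (S.Orbs b b').filter (fun O => i0 ≤ S.pl O), (2 * S.kO O + S.exc O) := by
    rw [card_eq_sum_ones, mul_sum, mul_sum, ← sum_add_distrib, ← sum_add_distrib]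
    refine sum_congr rfl fun O hO => ?_
    have := S.card_O hb (mem_filter.1 hO).1
    omega
  rw [e1, e2, e3, ← S.sm_OI hb i0 h0, ← S.sm_OP hb i0]
  unfold gam2
  rw [sum_add_distrib (s := Icc i0 b), sum_add_distrib (s := Icc i0 b), ← mul_sum, ← mul_sum]
  omega

theorem sum1 (hb : b + 2 ≤ b') :
    (S.A (b + 1)).card = ∑ i ∈ range (b + 1), S.gam b b' i +
        ∑ O ∈ S.Orbs b b', (1 + 2 * S.kO O + S.exc O) := by
  have h1 := S.sum2 hb 0 fun _ _ => Or.inl (Nat.zero_le _)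
  have h2 := S.sm_OP hb 0
  have e1 : S.A (b + 1) = univ.filter (fun x => 0 ≤ S.lo x ∧ S.lo x ≤ b) := by
    ext x
    simp only [mem_A, mem_filter, mem_univ, true_and]
    omega
  have e2 : range (b + 1) = Icc 0 b := by
    ext i
    simp only [mem_range, mem_Icc]
    omega
  have e3 : ∑ i ∈ Icc 0 b, S.gam2 b b' i =
      ∑ i ∈ Icc 0 b, S.gam b b' i + ∑ i ∈ Icc 0 b, (S.OP b b' i).card := by
    rw [← sum_add_distrib]
    refine sum_congr rfl fun i _ => ?_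
    unfold gam gam2
    omega
  have e4 : ∑ O ∈ S.Orbs b b', (1 + 2 * S.kO O + S.exc O) =
      (S.Orbs b b').card + ∑ O ∈ S.Orbs b b', (2 * S.kO O + S.exc O) := by
    rw [card_eq_sum_ones, ← sum_add_distrib]
    refine sum_congr rfl fun O _ => ?_
    omega
  rw [filter_true_of_mem fun _ _ => Nat.zero_le _] at h1 h2
  rw [e1, e2, e4, h1, e3, h2]
  omega

theorem dual_O (hb : b + 2 ≤ b') (hs : b + b' + 1 = 2 * m) (hO : O ∈ S.Orbs b b') :
    O.image S.δ ∈ S.Orbs b b' ∧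
    S.pl (O.image S.δ) + S.qh O + 1 = 2 * m ∧ S.ql (O.image S.δ) + S.ph O + 1 = 2 * m ∧
    S.ph (O.image S.δ) + S.ql O + 1 = 2 * m ∧ S.qh (O.image S.δ) + S.pl O + 1 = 2 * m ∧
    S.iO (O.image S.δ) = S.kO O ∧ S.kO (O.image S.δ) = S.iO O ∧
    S.exc (O.image S.δ) = S.exc O := by
  have hd : ∀ i ∈ PQ b b', i < 2 * m → 2 * m - 1 - i ∈ PQ b b' := by
    intro i hi h2
    have h3 : i ≤ b ∨ b' ≤ i := hi
    show 2 * m - 1 - i ≤ b ∨ b' ≤ 2 * m - 1 - i
    omega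
  have hO' : O.image S.δ ∈ S.Orbs b b' := by
    obtain ⟨x, hx⟩ := S.Orbs_nonempty hO
    have h1 := S.Orbs_W hb hO hx
    have h2 := S.lo_δ x
    have h3 := S.hi_δ x
    obtain ⟨O1, h4, h5⟩ := S.exists_orb (b := b) (b' := b') (x := S.δ x) (by omega) (by omega)
    have : O.image S.δ = O1 := by
      ext y
      rw [mem_image]
      constructor
      · rintro ⟨z, hz, rfl⟩
        exact S.Orbs_of_R h4 h5 ((S.Orbs_R hO hx hz).dual hd)
      · intro hy
        have h6 := (S.Orbs_R h4 h5 hy).dual hd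
        rw [S.dinv] at h6
        exact ⟨S.δ y, S.Orbs_of_R hO hx h6, S.dinv y⟩
    rw [this]
    exact h4
  have e1 : S.pl (O.image S.δ) + S.qh O + 1 = 2 * m := by
    obtain ⟨u, hu, h1⟩ := S.exists_pl hO'
    obtain ⟨x, hx, rfl⟩ := mem_image.1 hu
    obtain ⟨y, hy, h2⟩ := S.exists_qh hO
    have h3 := S.pl_le (mem_image_of_mem S.δ hy)
    have h4 := S.le_qh hx
    have h5 := S.lo_δ x
    have h6 := S.lo_δ y
    omega
  have e2 : S.ql (O.image S.δ) + S.ph O + 1 = 2 * m := by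
    obtain ⟨u, hu, h1⟩ := S.exists_ql hO'
    obtain ⟨x, hx, rfl⟩ := mem_image.1 hu
    obtain ⟨y, hy, h2⟩ := S.exists_ph hO
    have h3 := S.le_ql (mem_image_of_mem S.δ hy)
    have h4 := S.ph_le hx
    have h5 := S.lo_δ x
    have h6 := S.lo_δ y
    omega
  have e3 : S.ph (O.image S.δ) + S.ql O + 1 = 2 * m := by
    obtain ⟨u, hu, h1⟩ := S.exists_ph hO'
    obtain ⟨x, hx, rfl⟩ := mem_image.1 hu
    obtain ⟨y, hy, h2⟩ := S.exists_ql hO
    have h3 := S.ph_le (mem_image_of_mem S.δ hy)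
    have h4 := S.le_ql hx
    have h5 := S.hi_δ x
    have h6 := S.hi_δ y
    omega
  have e4 : S.qh (O.image S.δ) + S.pl O + 1 = 2 * m := by
    obtain ⟨u, hu, h1⟩ := S.exists_qh hO'
    obtain ⟨x, hx, rfl⟩ := mem_image.1 hu
    obtain ⟨y, hy, h2⟩ := S.exists_pl hO
    have h3 := S.le_qh (mem_image_of_mem S.δ hy)
    have h4 := S.pl_le hx
    have h5 := S.hi_δ x
    have h6 := S.hi_δ y
    omega
  have e5 : S.iO (O.image S.δ) = S.kO O := by
    unfold iO kO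
    omega
  have e6 : S.kO (O.image S.δ) = S.iO O := by
    unfold iO kO
    omega
  refine ⟨hO', e1, e2, e3, e4, e5, e6, ?_⟩
  unfold exc
  rw [e5, e6, card_image_of_injective _ S.δ.injective]
  omega

/-- symmetric count of all points -/
theorem sumSym (hb : b + 2 ≤ b') (hs : b + b' + 1 = 2 * m) :
    4 * m + 3 = (univ.filter (fun x => b < S.lo x ∧ S.hi x < b')).card +
      2 * ∑ i ∈ range (b + 1), S.gam b b' i + ∑ O ∈ S.Orbs b b', S.exc O := by
  have h1 := S.sum1 hb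
  have h2 := S.card_W hb
  have h3 : ∑ O ∈ S.Orbs b b', S.iO O = ∑ O ∈ S.Orbs b b', S.kO O := by
    have hi : ∀ O : Finset Ω, (O.image S.δ).image S.δ = O := by
      intro O
      rw [image_image]
      have : (S.δ ∘ S.δ : Ω → Ω) = id := funext S.dinv
      rw [this, image_id]
    exact sum_nbij' (fun O => O.image S.δ) (fun O => O.image S.δ)
      (fun O hO => (S.dual_O hb hs hO).1) (fun O hO => (S.dual_O hb hs hO).1)
      (fun O _ => hi O) (fun O _ => hi O)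
      (fun O hO => (S.dual_O hb hs hO).2.2.2.2.2.2.1.symm)
  have h4 : (univ.filter (fun x => b' ≤ S.hi x)).card = (S.A (b + 1)).card := by
    refine card_nbij' S.δ S.δ (fun x hx => ?_) (fun x hx => ?_) (fun x _ => S.dinv x)
      (fun x _ => S.dinv x)
    · have h5 : b' ≤ S.hi x := by simpa using hx
      have h6 := S.lo_δ x
      simp only [mem_coe, mem_A]
      omega
    · have h5 : S.lo x < b + 1 := by simpa using hx
      have h6 := S.hi_δ x
      simp only [coe_filter, mem_univ, true_and, Set.mem_ofPred_eq]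
      omega
  have h5 := card_union_add_card_inter (S.A (b + 1)) (univ.filter (fun x => b' ≤ S.hi x))
  have h6 : S.A (b + 1) ∩ univ.filter (fun x => b' ≤ S.hi x) = S.W b b' := by
    ext x
    simp only [mem_inter, mem_A, mem_filter, mem_univ, true_and, mem_W]
    omega
  have h7 := card_filter_add_card_filter_not (s := (univ : Finset Ω))
    (fun x => b < S.lo x ∧ S.hi x < b')
  have h8 : univ.filter (fun x => ¬ (b < S.lo x ∧ S.hi x < b')) =
      S.A (b + 1) ∪ univ.filter (fun x => b' ≤ S.hi x) := by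
    ext x
    simp only [mem_union, mem_A, mem_filter, mem_univ, true_and]
    omega
  have h9 : ∑ O ∈ S.Orbs b b', O.card = 2 * ∑ O ∈ S.Orbs b b', S.iO O +
      2 * ∑ O ∈ S.Orbs b b', S.kO O + 2 * (S.Orbs b b').card + ∑ O ∈ S.Orbs b b', S.exc O := by
    rw [card_eq_sum_ones (S.Orbs b b'), mul_sum, mul_sum, mul_sum, ← sum_add_distrib,
      ← sum_add_distrib, ← sum_add_distrib]
    exact sum_congr rfl fun O hO => S.card_O hb hO
  have h10 : ∑ O ∈ S.Orbs b b', (1 + 2 * S.kO O + S.exc O) = (S.Orbs b b').card +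
      2 * ∑ O ∈ S.Orbs b b', S.kO O + ∑ O ∈ S.Orbs b b', S.exc O := by
    rw [card_eq_sum_ones (S.Orbs b b'), mul_sum, ← sum_add_distrib, ← sum_add_distrib]
  rw [h8, card_univ, S.card] at h7
  rw [h6] at h5
  omega

theorem sum_OP (hb : b + 2 ≤ b') :
    ∑ i ∈ range (b + 1), (S.OP b b' i).card = (S.Orbs b b').card := by
  have h2 := S.sm_OP hb 0
  have e2 : range (b + 1) = Icc 0 b := by
    ext i
    simp only [mem_range, mem_Icc]
    omega
  rw [filter_true_of_mem fun _ _ => Nat.zero_le _] at h2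
  rw [e2, h2]

/-- covered values of `hi` are paid by the spreads -/
theorem sumK {F : Finset (Finset Ω)} {J : Finset ℕ}
    (h : ∀ j ∈ J, ∃ O ∈ F, S.ph O ≤ j ∧ j < S.qh O) : J.card ≤ ∑ O ∈ F, S.kO O := by
  have h1 : J ⊆ F.biUnion (fun O => Ico (S.ph O) (S.qh O)) := fun j hj => by
    obtain ⟨O, hO, h2⟩ := h j hj
    exact mem_biUnion.2 ⟨O, hO, mem_Ico.2 h2⟩
  refine (card_le_card h1).trans (card_biUnion_le.trans (le_of_eq ?_))
  exact sum_congr rfl fun O _ => Nat.card_Ico _ _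

/-- the crossing edge into a nonempty level `i ≤ b` -/
theorem gam_cross (hb : b + 2 ≤ b') {i : ℕ} (h1 : 1 ≤ i) (h2 : i ≤ b) (hy : i ≤ S.lo y) :
    ∃ z, S.lo z = i ∧ S.lo (S.ρ i z) + 1 = i ∧
      ((S.hi z < b' ∧ S.hi (S.ρ i z) < b') ∨ ∃ O ∈ S.OI b b' i, z ∈ O ∧ S.ρ i z ∈ O) := by
  obtain ⟨z, h3, h4⟩ := S.cross h1 hy
  refine ⟨z, h3, h4, ?_⟩
  by_cases h5 : S.hi z < b'
  · have h6 := S.hi_step i z
    exact Or.inl ⟨h5, by omega⟩
  · obtain ⟨O, hO, hz⟩ := S.exists_orb (b := b) (b' := b') (x := z) (by omega) (by omega)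
    have h6 := S.Orbs_ρ hO hz (i := i) (Or.inl h2)
    have h7 := S.pl_le h6
    have h8 := S.le_ql hz
    exact Or.inr ⟨O, S.mem_OI.2 ⟨hO, by omega, by omega⟩, hz, h6⟩

theorem gam_le_gam2 (i : ℕ) : S.gam b b' i ≤ S.gam2 b b' i := by
  unfold gam gam2; omega

theorem gam_two (hb : b + 2 ≤ b') {i : ℕ} (h1 : 1 ≤ i) (h2 : i ≤ b) (ha : 2 ≤ S.a i) :
    2 ≤ S.gam b b' i := by
  obtain ⟨y, hy⟩ : (S.lev i).Nonempty := card_pos.1 (by unfold a at ha; omega)
  obtain ⟨z, h3, -, h5⟩ := S.gam_cross hb h1 h2 (S.mem_lev.1 hy).ge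
  unfold gam
  rcases h5 with h5 | ⟨O, hO, -⟩
  · obtain ⟨w, hw, hne⟩ := exists_mem_ne (s := S.lev i) (by unfold a at ha; omega) z
    have h6 := S.mem_lev.1 hw
    have h7 : z ∈ S.levX b' i := S.mem_levX.2 ⟨h3, h5.1⟩
    by_cases h8 : S.hi w < b'
    · have : 1 < S.aX b' i := one_lt_card.2 ⟨w, S.mem_levX.2 ⟨h6, h8⟩, z, h7, hne⟩
      omega
    · obtain ⟨O, hO, hw'⟩ := S.exists_orb (b := b) (b' := b') (x := w) (by omega) (by omega)
      have h9 : 0 < S.aX b' i := card_pos.2 ⟨z, h7⟩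
      have h10 := S.pl_le hw'
      have h11 := S.le_ql hw'
      by_cases h12 : S.pl O = i
      · have := card_pos.2 ⟨O, S.mem_OP.2 ⟨hO, h12⟩⟩
        omega
      · have := card_pos.2 ⟨O, (S.mem_OI (i := i)).2 ⟨hO, by omega, by omega⟩⟩
        omega
  · have := card_pos.2 ⟨O, hO⟩
    omega

theorem gam_zero (hb : b + 2 ≤ b') : 1 ≤ S.gam b b' 0 ∧ 2 ≤ S.gam2 b b' 0 := by
  obtain ⟨x, hx⟩ := S.exists_lo_zero
  unfold gam gam2
  by_cases h : S.hi x < b'
  · have h1 : 0 < S.aX b' 0 := card_pos.2 ⟨x, S.mem_levX.2 ⟨hx, h⟩⟩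
    obtain ⟨k, hk⟩ := S.even_aX0 (b' := b') (by omega)
    omega
  · obtain ⟨O, hO, hx'⟩ := S.exists_orb (b := b) (b' := b') (x := x) (by omega) (by omega)
    have h1 := S.pl_le hx'
    have := card_pos.2 ⟨O, (S.mem_OP (i := 0)).2 ⟨hO, by omega⟩⟩
    omega

/-- an orbit starting at a positive level -/
theorem gam_P (hb : b + 2 ≤ b') (hO : O ∈ S.Orbs b b') (hp : 1 ≤ S.pl O) :
    (1 ≤ S.aX b' (S.pl O) ∨ 1 ≤ (S.OI b b' (S.pl O)).card) ∧ 1 ≤ (S.OP b b' (S.pl O)).card ∧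
      3 ≤ S.gam2 b b' (S.pl O) := by
  obtain ⟨y, hy, h1⟩ := S.exists_pl hO
  have hr := S.Orbs_range hb hO
  have h2 := card_pos.2 ⟨O, S.mem_OP.2 ⟨hO, rfl⟩⟩
  obtain ⟨z, h3, -, h5⟩ := S.gam_cross hb hp (by omega) h1.ge
  unfold gam2
  rcases h5 with h5 | ⟨O', hO', -⟩
  · have : 0 < S.aX b' (S.pl O) := card_pos.2 ⟨z, S.mem_levX.2 ⟨h3, h5.1⟩⟩
    omega
  · have := card_pos.2 ⟨O', hO'⟩
    omega

/-- a pair inside a level, not moved by high labels -/
theorem sm_pair (hb : b + 2 ≤ b') (h1 : S.lo x ≤ b) (h2 : S.lo (S.ρ (S.lo x) x) = S.lo x)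
    (h3 : S.hi x < b') : 2 ≤ S.aX b' (S.lo x) ∧
      (1 ≤ S.lo x → 3 ≤ S.aX b' (S.lo x) ∨ 1 ≤ (S.OI b b' (S.lo x)).card) := by
  have h4 := S.hi_step (S.lo x) x
  have h5 : x ∈ S.levX b' (S.lo x) := S.mem_levX.2 ⟨rfl, h3⟩
  have h6 : S.ρ (S.lo x) x ∈ S.levX b' (S.lo x) := S.mem_levX.2 ⟨h2, by omega⟩
  refine ⟨one_lt_card.2 ⟨_, h6, _, h5, S.mv_lo x⟩, fun hp => ?_⟩
  obtain ⟨z, k1, k2, k3⟩ := S.gam_cross hb hp h1 (le_refl (S.lo x))
  rcases k3 with k3 | ⟨O, hO, -⟩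
  · refine Or.inl (two_lt_card_iff.2 ⟨_, _, z, h5, h6, S.mem_levX.2 ⟨k1, k3.1⟩, (S.mv_lo x).symm,
      ?_, ?_⟩)
    · rintro rfl
      omega
    · rintro rfl
      rw [S.inv] at k2
      omega
  · exact Or.inr (card_pos.2 ⟨O, hO⟩)

/-- the orbit under the low labels of a point not moved by high labels -/
theorem gam_X (hb : b + 2 ≤ b') (h1 : S.lo x ≤ b) (h2 : S.hi x < b') :
    ∃ z, S.R (Set.Iic b) x z ∧ S.lo z ≤ S.lo x ∧ S.hi z < b' ∧
      S.lo (S.ρ (S.lo z) z) = S.lo z ∧ S.hi (S.ρ (S.lo z) z) < b' ∧ 2 ≤ S.aX b' (S.lo z) ∧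
      (1 ≤ S.lo z → 3 ≤ S.aX b' (S.lo z) ∨ 1 ≤ (S.OI b b' (S.lo z)).card) := by
  obtain ⟨z, h3, h4, h5⟩ := S.Pmin h1
  have h6 := h4 x (S.R_refl _ _)
  have h7 := (S.P_hi hb h3).2.1 h2
  have h8 := (S.P_hi hb (h3.step (i := S.lo z) (h6.trans h1))).2.1 h2
  have h9 := S.sm_pair hb (h6.trans h1) h5 h7
  exact ⟨z, h3, h6, h7, h5, h8, h9.1, h9.2⟩

/-- copy of an orbit of the low labels through an edge with label `b' - 1` -/
theorem copy (hb : b + 3 ≤ b') (hO : O ∈ S.Orbs b b') (hx : x ∈ O)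
    (he : S.hi (S.ρ (b' - 1) x) < b') (hy : y ∈ O) :
    ∃ φ : Perm Ω, (∀ i ≤ b, ∀ z, φ (S.ρ i z) = S.ρ i (φ z)) ∧ S.hi (φ y) < b' := by
  obtain ⟨z, ⟨q, hq, rfl⟩, h2⟩ := S.PQ_split' (by omega) (S.Orbs_R hO hx hy)
  have hc : ∀ i ≤ b, ∀ z, (S.ρ (b' - 1) * q⁻¹) (S.ρ i z) = S.ρ i ((S.ρ (b' - 1) * q⁻¹) z) := by
    intro i hi z
    simp only [Perm.mul_apply]
    rw [S.comm i (b' - 1) (by omega), S.G_comm (f := S.ρ i) (fun j hj u =>
      S.comm i j (by have : b' ≤ j := hj; omega) u) (inv_mem hq) z]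
  refine ⟨S.ρ (b' - 1) * q⁻¹, hc, ?_⟩
  have h3 := h2.map (f := (S.ρ (b' - 1) * q⁻¹ : Perm Ω)) fun i hi z => hc i hi z
  refine (S.P_hi (by omega) h3).2.1 ?_
  simpa using he

theorem copy_all (hb : b + 3 ≤ b') (hO : O ∈ S.Orbs b b') (hx : x ∈ O)
    (he : S.hi (S.ρ (b' - 1) x) < b') (h2 : S.aO O (S.pl O) = 2) :
    ∃ φ : Perm Ω, (∀ i ≤ b, ∀ z, φ (S.ρ i z) = S.ρ i (φ z)) ∧ ∀ y ∈ O, S.hi (φ y) < b' := by
  have hb' : b + 2 ≤ b' := by omega
  have hr := S.Orbs_range hb' hO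
  have hc : ∀ i ≤ b, ∀ z, S.ρ (b' - 1) (S.ρ i z) = S.ρ i (S.ρ (b' - 1) z) :=
    fun i hi z => (S.comm i (b' - 1) (by omega) z).symm
  refine ⟨S.ρ (b' - 1), hc, fun y hy => ?_⟩
  obtain ⟨u, h3, h4⟩ := S.P_levels hb' hO hx le_rfl hr.1
  obtain ⟨w, h5, h6⟩ := S.P_levels hb' hO hy le_rfl hr.1
  have h7 : S.R (Set.Iic b) x (S.ρ (S.pl O) u) := h3.step (show S.pl O ≤ b by omega)
  have h8 := S.pl_le (S.Orbs_P hO hx h7)
  have h9 := S.lo_step (S.pl O) u
  have h10 : S.R (Set.Iic b) x w := by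
    by_contra hn
    have : 2 < S.aO O (S.pl O) := by
      refine two_lt_card_iff.2 ⟨u, S.ρ (S.pl O) u, w, mem_filter.2 ⟨S.Orbs_P hO hx h3, h4⟩,
        mem_filter.2 ⟨S.Orbs_P hO hx h7, by omega⟩, mem_filter.2 ⟨S.Orbs_P hO hy h5, h6⟩,
        (h4 ▸ S.mv_lo u).symm, ?_, ?_⟩
      · rintro rfl
        exact hn h3
      · rintro rfl
        exact hn h7
    omega
  have h11 := (h10.trans h5.symm).map (f := S.ρ (b' - 1)) fun i hi z => hc i hi z
  exact (S.P_hi hb' h11).2.1 he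

theorem copy_gam (hb : b + 3 ≤ b') (hO : O ∈ S.Orbs b b') (hx : x ∈ O)
    (he : S.hi (S.ρ (b' - 1) x) < b') :
    2 ≤ S.aX b' (S.pl O) ∧ (∀ l, S.pl O < l → l ≤ S.ql O → 1 ≤ S.aX b' l) ∧
      (1 ≤ S.pl O → 4 ≤ S.gam b b' (S.pl O)) := by
  have hb' : b + 2 ≤ b' := by omega
  have hr := S.Orbs_range hb' hO
  obtain ⟨y, hy, h1⟩ := S.exists_pl hO
  obtain ⟨φ, hφ, h2⟩ := S.copy hb hO hx he hy
  have h3 : S.lo (φ y) = S.pl O := by rw [S.lo_comm hφ (by omega), h1]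
  have h4 := S.Orbs_ρ hO hy (i := S.pl O) (Or.inl (by omega))
  have h5 := S.pl_le h4
  have h6 := S.lo_step (S.pl O) y
  have h7 : S.lo (S.ρ (S.lo (φ y)) (φ y)) = S.lo (φ y) := by
    rw [h3, ← hφ _ (by omega), S.lo_comm hφ (by omega)]
    omega
  have h8 := S.sm_pair hb' (by omega) h7 h2
  rw [h3] at h8
  refine ⟨h8.1, fun l k1 k2 => ?_, fun hp => ?_⟩
  · obtain ⟨w, hw, k3, -⟩ := S.cross_lo_O hb' hO k1 k2
    obtain ⟨ψ, hψ, k4⟩ := S.copy hb hO hx he hw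
    exact card_pos.2 ⟨ψ w, S.mem_levX.2 ⟨by rw [S.lo_comm hψ (by omega), k3], k4⟩⟩
  · have k1 := card_pos.2 ⟨O, S.mem_OP.2 ⟨hO, rfl⟩⟩
    have k2 := h8.1
    have k3 := h8.2 hp
    unfold gam
    omega

/-- for the middle cut some orbit has an edge with label `m` leaving `W` -/
theorem exists_O1 (hy : m ≤ S.lo y + 1) (hW : (S.W (m - 2) (m + 1)).Nonempty) :
    ∃ O ∈ S.Orbs (m - 2) (m + 1), ∃ x ∈ O, S.hi (S.ρ m x) < m + 1 := by
  have hm := S.hm
  obtain ⟨x, hx⟩ := hW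
  obtain ⟨i, z, hz, hn⟩ : ∃ i z, z ∈ S.W (m - 2) (m + 1) ∧ S.ρ i z ∉ S.W (m - 2) (m + 1) := by
    by_contra hh
    push Not at hh
    have := S.conn (U := (S.W (m - 2) (m + 1) : Set Ω)) hx (fun i z hz => hh i z hz) y
    have := S.mem_W.1 this
    omega
  rw [S.mem_W] at hz hn
  have h1 := S.lo_step i z
  have h2 := S.hi_step i z
  by_cases h3 : S.hi (S.ρ i z) < m + 1
  · have h4 : i = m := by omega
    obtain ⟨O, hO, hz'⟩ := S.exists_orb hz.1 hz.2
    exact ⟨O, hO, z, hz', h4 ▸ h3⟩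
  · have h4 : i + m + 1 = 2 * m := by omega
    have h5 := S.lo_δ z
    have h6 := S.hi_δ z
    have h7 := S.hi_δ (S.ρ i z)
    obtain ⟨O, hO, hz'⟩ := S.exists_orb (b := m - 2) (b' := m + 1) (x := S.δ z)
      (by omega) (by omega)
    refine ⟨O, hO, S.δ z, hz', ?_⟩
    rw [S.δ_edge h4]
    omega

open Classical in
/-- staircase: an orbit of the labels `≤ J` inside level `0` forces many points of level `0` -/
theorem stair {J : ℕ} (hx : ∀ y, S.R (Set.Iic J) x y → S.lo y = 0) :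
    2 * J ≤ ((S.lev 0).filter (fun z => ∃ y, S.R (Set.Iic J) z y ∧ S.lo y ≠ 0)).card := by
  induction J with
  | zero => omega
  | succ J ih =>
    have hm : Set.Iic J ⊆ Set.Iic (J + 1) := Set.Iic_subset_Iic.2 (by omega)
    have h1 := ih fun y hy => hx y (hy.mono hm)
    set T := (S.lev 0).filter (fun z => ∃ y, S.R (Set.Iic J) z y ∧ S.lo y ≠ 0) with hT
    set T' := (S.lev 0).filter (fun z => ∃ y, S.R (Set.Iic (J + 1)) z y ∧ S.lo y ≠ 0) with hT'
    have hsub : T ⊆ T' := fun z hz => by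
      obtain ⟨k1, y, k2, k3⟩ := mem_filter.1 hz
      exact mem_filter.2 ⟨k1, y, k2.mono hm, k3⟩
    obtain ⟨z, k1, k2⟩ : ∃ z, (∀ y, S.R (Set.Iic J) z y → S.lo y = 0) ∧
        ∃ y, S.R (Set.Iic (J + 1)) z y ∧ S.lo y ≠ 0 := by
      by_contra hh
      push Not at hh
      have hall := S.conn (U := {z | ∀ y, S.R (Set.Iic (J + 1)) z y → S.lo y = 0}) hx (by
        intro i z hz
        by_cases hi : i ≤ J + 1
        · exact fun y hy => hz y (((S.R_refl (Set.Iic (J + 1)) z).step (i := i) hi).trans hy)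
        · refine hh _ fun y hy => ?_
          have k3 := hy.map (f := S.ρ i) fun j hj u =>
            (S.comm j i (by have : j ≤ J := hj; omega) u).symm
          rw [S.inv] at k3
          have k4 := hz _ (k3.mono hm)
          have k5 := S.lo_step i y
          omega)
      have h2 : S.lev 0 = univ := by
        ext y
        simp only [mem_lev, mem_univ, iff_true]
        exact hall y y (S.R_refl _ _)
      have h3 := S.four_dvd_a0
      unfold a at h3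
      rw [h2, card_univ, S.card] at h3
      omega
    have k3 := k1 z (S.R_refl _ _)
    have k4 : S.R (Set.Iic J) z (S.ρ 0 z) := (S.R_refl _ z).step (Nat.zero_le J)
    have key : ∀ w, S.R (Set.Iic J) z w → w ∈ T' \ T := by
      intro w hw
      obtain ⟨y, k5, k6⟩ := k2
      refine mem_sdiff.2 ⟨mem_filter.2 ⟨S.mem_lev.2 (k1 w hw), y, (hw.symm.mono hm).trans k5, k6⟩,
        fun hh => ?_⟩
      obtain ⟨-, u, k7, k8⟩ := mem_filter.1 hh
      exact k8 (k1 u (hw.trans k7))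
    have k5 : 1 < (T' \ T).card :=
      one_lt_card.2 ⟨_, key _ k4, _, key _ (S.R_refl _ _), k3 ▸ S.mv_lo z⟩
    have k6 := card_sdiff_add_card_eq_card hsub
    omega

/-- bookkeeping: if `f ≥ 2` on `s`, the values on a subset are bounded by the total -/
theorem sum_excess {s t : Finset ℕ} {f : ℕ → ℕ} (h : ∀ i ∈ s, 2 ≤ f i) (ht : t ⊆ s) :
    ∑ i ∈ t, f i + 2 * s.card ≤ ∑ i ∈ s, f i + 2 * t.card := by
  have h1 := sum_sdiff (f := f) ht
  have h2 := card_sdiff_add_card_eq_card ht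
  have h3 : (s \ t).card * 2 ≤ ∑ i ∈ s \ t, f i :=
    card_nsmul_le_sum (s \ t) f 2 fun j hj => h j (mem_sdiff.1 hj).1
  omega

end SD
end D145
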