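import Pool.Agent.MP_d145c0_al.H75.Alpha
import Pool.Agent.MP_d145c0_al.H75.Sum

/-! The first single level. -/

namespace D145
open Equiv Finset
namespace SD
variable {Ω : Type} [Fintype Ω] [DecidableEq Ω] {m : ℕ} {S : SD Ω m} {c : ℕ} {x : Ω}

/-- the count of the low part for the cut `(c-1, c+1)` -/
theorem AlX.first_sum (h : S.AlX c x) :
    (S.A c).card = ∑ i ∈ range c, S.gam2 (c - 1) (c + 1) i +
      2 * ∑ O ∈ S.Orbs (c - 1) (c + 1), S.kO O + ∑ O ∈ S.Orbs (c - 1) (c + 1), S.exc O ∧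
    S.H c ≤ c + 1 + ∑ O ∈ S.Orbs (c - 1) (c + 1), S.kO O := by
  have hc := h.1
  constructor
  · have e := S.sum2 (b := c - 1) (b' := c + 1) (by omega) 0 fun O _ => Or.inl (Nat.zero_le _)
    rw [filter_true_of_mem (fun O _ => Nat.zero_le _), sum_add_distrib, ← mul_sum,
      show Icc 0 (c - 1) = range c by ext; simp; omega,
      show univ.filter (fun x => 0 ≤ S.lo x ∧ S.lo x ≤ c - 1) = S.A c by ext; simp; omega] at e
    omega
  · have e := S.sumK (F := S.Orbs (c - 1) (c + 1)) (J := Ico (c + 1) (S.H c)) fun j hj => by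
      rw [mem_Ico] at hj
      obtain ⟨z, z1, z2, z3⟩ := h.hi_cross hj.1 hj.2
      obtain ⟨O, hO, hz⟩ := S.exists_orb (b := c - 1) (b' := c + 1) (x := z) (by omega) (by omega)
      have h1 := S.ph_le hz
      have h2 := S.le_qh (S.Orbs_ρ hO hz (Or.inr hj.1))
      exact ⟨O, hO, by omega, by omega⟩
    rw [Nat.card_Ico] at e
    omega

theorem first_mem {b b' i : ℕ} {z : Ω} (hi : i ≤ b) (hX : S.aX b' i = 0) (hz : S.lo z = i) :
    ∃ O ∈ S.Orbs b b', z ∈ O := by
  refine S.exists_orb (by omega) (not_lt.1 fun hh => ?_)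
  exact absurd hX (card_pos.2 ⟨z, S.mem_levX.2 ⟨hz, hh⟩⟩).ne'

theorem first_a0 {b b' : ℕ} (hb : b + 2 ≤ b') :
    S.a 0 = S.aX b' 0 + ∑ O ∈ S.OP b b' 0, S.aO O 0 := by
  rw [S.a_split hb (Nat.zero_le _), OP, sum_filter_of_ne]
  intro O _ hne
  obtain ⟨z, hz⟩ := card_pos.1 (Nat.pos_of_ne_zero hne)
  rw [mem_filter] at hz
  have := S.pl_le hz.1
  omega

theorem first_one_orb {b b' : ℕ} (hb : b + 2 ≤ b') (h1 : 1 ≤ b) (hx : 1 ≤ S.lo x) {O : Finset Ω}
    (hX : S.aX b' 0 = 0) (hP : S.OP b b' 0 = {O}) :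
    O ∈ S.Orbs b b' ∧ S.pl O = 0 ∧ S.aO O 0 = S.a 0 ∧ 1 ≤ S.iO O ∧ 2 ≤ S.exc O := by
  obtain ⟨hO, hp⟩ := S.mem_OP.1 (hP ▸ mem_singleton_self O : O ∈ S.OP b b' 0)
  have e := first_a0 (S := S) hb
  rw [hP, sum_singleton, hX, zero_add] at e
  obtain ⟨z, z1, z2⟩ := S.cross le_rfl hx
  obtain ⟨O', hO', hz⟩ := first_mem (z := S.ρ 1 z) (Nat.zero_le b) hX (by omega)
  have := S.pl_le hz
  obtain rfl : O' = O := mem_singleton.1 (hP ▸ S.mem_OP.2 ⟨hO', by omega⟩)
  have h2 := S.le_ql (S.Orbs_ρ hO hz (Or.inl h1))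
  rw [S.inv] at h2
  have h3 : 1 ≤ S.iO O' := by unfold iO; omega
  exact ⟨hO, hp, e.symm, h3, S.exc_a hb hO h3 (l := 0) (e ▸ S.four_le_a0)⟩

theorem first_g0 {b b' : ℕ} (hb : b + 2 ≤ b') (h1 : 1 ≤ b) (hx : 1 ≤ S.lo x) :
    4 ≤ S.gam2 b b' 0 + ∑ O ∈ S.Orbs b b', S.exc O := by
  have e := first_a0 (S := S) hb
  have h4 := S.four_le_a0
  have ev := Nat.even_iff.1 (S.even_aX0 (b' := b') (by omega))
  unfold gam2
  by_contra hh
  rcases (S.OP b b' 0).eq_empty_or_nonempty with h0 | h0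
  · rw [h0, sum_empty] at e
    omega
  · have := h0.card_pos
    obtain ⟨O, hO⟩ := card_eq_one.1 (show (S.OP b b' 0).card = 1 by omega)
    obtain ⟨a1, -, -, -, a2⟩ := first_one_orb hb h1 hx (by omega) hO
    have := single_le_sum (f := S.exc) (fun _ _ => Nat.zero_le _) a1
    omega

theorem first_two (h : S.AlX c x) (hf : ∀ i, 1 ≤ i → i < c → 2 ≤ S.a i) :
    ∀ i ∈ range c, 2 ≤ S.gam2 (c - 1) (c + 1) i := fun i hi => by
  have hc := h.1
  rw [mem_range] at hi
  rcases Nat.eq_zero_or_pos i with rfl | h0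
  · exact (S.gam_zero (by omega)).2
  · exact (S.gam_two (by omega) h0 (by omega) (hf i h0 hi)).trans (S.gam_le_gam2 i)

theorem AlX.first_t2 (h : S.AlX c x) (hf : ∀ i, 1 ≤ i → i < c → 2 ≤ S.a i) (hc : 2 ≤ c)
    (hH : c + 1 ≤ S.H c) : 2 * c + 2 ≤ ∑ i ∈ range c, S.gam2 (c - 1) (c + 1) i +
      ∑ O ∈ S.Orbs (c - 1) (c + 1), S.exc O := by
  have e := sum_excess (first_two h hf) (t := {0}) (by simp; omega)
  have h3 := h.2.2.1
  have g := first_g0 (S := S) (x := x) (b := c - 1) (b' := c + 1) (by omega) (by omega) (by omega)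
  rw [sum_singleton, card_range, card_singleton] at e
  omega

theorem first_zero {z : Ω} (hz : S.lo z = 0) : S.ρ 0 z ≠ z ∧ S.lo (S.ρ 0 z) = 0 := by
  have h1 : S.ρ 0 z ≠ z := hz ▸ S.mv_lo z
  exact ⟨h1, Nat.le_zero.1 (S.lo_le fun e => h1 ((S.fix_self 0 z).1 e))⟩

theorem AlX.first_one (h : S.AlX 1 x) (hH : 3 ≤ S.H 1) : 2 * S.H 1 ≤ S.a 0 := by
  by_contra hh
  have h4 := S.four_dvd_a0
  have hm := S.hm
  let B : ℕ → Finset Ω := fun j => (S.lev 0).filter (fun z => S.hi z = j)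
  have mB : ∀ j z, z ∈ B j ↔ S.lo z = 0 ∧ S.hi z = j := fun j z => by simp [B]
  have B0 : ∀ j, 2 ≤ j → ∀ z ∈ B j, S.ρ 0 z ∈ B j := fun j hj z hz => by
    rw [mB] at hz ⊢
    exact ⟨(first_zero hz.1).2, (S.hi_far (by omega)).trans hz.2⟩
  have B2 : ∀ j ∈ Icc 2 (S.H 1), 2 ≤ (B j).card := fun j hj => by
    rw [mem_Icc] at hj
    obtain ⟨z, hz⟩ : ∃ z, z ∈ B j := by
      rcases hj.2.lt_or_eq with h1 | rfl
      · obtain ⟨z, z1, z2, -⟩ := h.hi_cross hj.1 h1
        exact ⟨z, (mB _ _).2 ⟨by omega, z2⟩⟩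
      · obtain ⟨z, z1, z2⟩ := S.exists_H (c := 1) le_rfl
        exact ⟨z, (mB _ _).2 ⟨by omega, z2⟩⟩
    exact one_lt_card.2 ⟨_, B0 j hj.1 z hz, z, hz, (first_zero ((mB _ _).1 hz).1).1⟩
  have hs : S.a 0 = ∑ j ∈ range (S.H 1 + 1), (B j).card :=
    card_eq_sum_card_fiberwise fun z hz => by
      have := S.hi_le_H (c := 1) (z := z) (by simpa using hz)
      simpa using Nat.lt_succ_of_le this
  rw [range_eq_Ico, ← sum_Ico_consecutive _ (Nat.zero_le 2) (by omega),
    show Ico 2 (S.H 1 + 1) = Icc 2 (S.H 1) from rfl] at hs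
  have e0 := sum_excess B2 (empty_subset _)
  rw [sum_empty, Nat.card_Icc, card_empty] at e0
  have lowB : ∀ z, S.lo z = 0 → 2 ≤ S.hi z := fun z hz => by
    by_contra h2
    have := single_le_sum (f := fun j => (B j).card) (fun _ _ => Nat.zero_le _)
      (show S.hi z ∈ Ico 0 2 by simp; omega)
    have := card_pos.2 ⟨z, (mB _ _).2 ⟨hz, rfl⟩⟩
    omega
  have pair : ∀ j, 2 ≤ j → j ≤ S.H 1 → ∀ u ∈ B j, ∀ v ∈ B j, v = u ∨ v = S.ρ 0 u := by
    intro j j1 j2 u hu v hv
    have e1 := sum_excess B2 (singleton_subset_iff.2 (mem_Icc.2 ⟨j1, j2⟩))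
    rw [sum_singleton, Nat.card_Icc, card_singleton] at e1
    by_contra hn
    push Not at hn
    have := two_lt_card_iff.2 ⟨v, u, _, hv, hu, B0 j j1 u hu, hn.1, hn.2,
      (first_zero ((mB _ _).1 hu).1).1.symm⟩
    omega
  have up : ∀ j, 2 ≤ j → j < S.H 1 → ∀ u ∈ B j, S.ρ j u ∈ B (j + 1) := by
    intro j j1 j2 u hu
    obtain ⟨z, z1, z2, z3⟩ := h.hi_cross j1 j2
    have hz : S.ρ j z ∈ B (j + 1) := (mB _ _).2 ⟨(S.lo_far (by omega)).trans (by omega), z3⟩
    rcases pair j j1 j2.le z ((mB _ _).2 ⟨by omega, z2⟩) u hu with rfl | rfl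
    · exact hz
    · rw [← S.comm 0 j j1]
      exact B0 _ (by omega) _ hz
  have asc : ∀ j, 2 ≤ j → j ≤ S.H 1 → ∃ u ∈ B j, S.R (Set.Ici 1) x u := by
    intro j j1
    induction j, j1 using Nat.le_induction with
    | base =>
      have h1 := h.lo_y
      have h2 := h.hi_y
      have h3 := lowB (S.ρ 1 x) (by omega)
      exact fun _ => ⟨_, (mB _ _).2 ⟨by omega, by omega⟩, (S.R_refl _ x).step (le_refl 1)⟩
    | succ j j1 ih =>
      intro j2
      obtain ⟨u, hu, r⟩ := ih (by omega)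
      exact ⟨_, up j j1 j2 u hu, r.step (show 1 ≤ j by omega)⟩
  have desc : ∀ j, j ≤ S.H 1 → 2 ≤ j → ∀ v ∈ B j, S.R (Set.Ici 1) x v := by
    intro j j2
    induction j2 using Nat.decreasingInduction with
    | self =>
      intro j1 v hv
      obtain ⟨u, hu, r⟩ := asc _ j1 le_rfl
      obtain ⟨u1, u2⟩ := (mB _ _).1 hu
      have l1 : S.lo (S.ρ (S.H 1) u) = 0 := (S.lo_far (by omega)).trans u1
      have l2 := S.hi_le_H (c := 1) (z := S.ρ (S.H 1) u) (by omega)
      have l3 := S.hi_step (S.H 1) u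
      rcases pair _ j1 le_rfl u hu v hv with rfl | rfl
      · exact r
      · rcases pair _ j1 le_rfl u hu _ ((mB _ _).2 ⟨l1, by omega⟩) with e | e
        · exact absurd e (u2 ▸ S.mv_hi u)
        · exact r.step' (show 1 ≤ S.H 1 by omega) e
    | of_succ j j2 ih =>
      intro j1 v hv
      exact (ih (by omega) _ (up j j1 j2 v hv)).step' (show 1 ≤ j by omega) (S.inv _ _)
  have c1 := h.card_A_le
  have c2 := h.H_le
  rw [S.card_A, sum_range_one] at c1
  obtain ⟨g, g1, g2, -⟩ := S.d1 (h.gp (by omega) (by omega) (k := 1) (by omega))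
  exact g2 (desc _ (S.hi_le_H (by omega)) (lowB g g1) g ((mB _ _).2 ⟨g1, rfl⟩))

/-- a level of an orbit with four points is one orbit of the high labels when `k = 1` -/
theorem first_Q {b b' l : ℕ} (hb : b + 2 ≤ b') {O : Finset Ω} (hO : O ∈ S.Orbs b b')
    (hk : S.kO O = 1) (h4 : S.aO O l = 4) {u v : Ω} (hu : u ∈ O) (hv : v ∈ O) (lu : S.lo u = l)
    (lv : S.lo v = l) : S.R (Set.Ici b') u v := by
  classical
  have sub : ∀ w ∈ O, S.lo w = l → univ.filter (fun y => S.R (Set.Ici b') w y) ⊆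
      O.filter (fun y => S.lo y = l) := fun w hw lw y hy => by
    rw [mem_filter] at hy ⊢
    exact ⟨S.Orbs_of_R hO hw (hy.2.mono fun _ => Or.inr),
      ((S.Q_lo hb hy.2).1 (S.Orbs_W hb hO hw).1).trans lw⟩
  have h1 := S.Qorb_ge hb hO hu
  have h2 := S.Qorb_ge hb hO hv
  by_contra hn
  have h3 := card_le_card (union_subset (sub u hu lu) (sub v hv lv))
  rw [card_union_of_disjoint (disjoint_filter.2 fun w _ a b => hn (a.trans b.symm))] at h3
  unfold aO at h4
  have : 6 ≤ 4 := by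
    rw [← h4]
    refine le_trans ?_ h3
    rw [hk] at h1 h2
    convert add_le_add h1 h2
  omega

theorem first_tight (h : S.AlX c x) (hf : ∀ i, 1 ≤ i → i < c → 2 ≤ S.a i) (hc : 2 ≤ c)
    (hH : S.H c = c + 2) (hK : ∑ O ∈ S.Orbs (c - 1) (c + 1), S.kO O = 1)
    (ht : ∑ i ∈ range c, S.gam2 (c - 1) (c + 1) i + ∑ O ∈ S.Orbs (c - 1) (c + 1), S.exc O ≤
      2 * c + 2) : False := by
  have hb : c - 1 + 2 ≤ c + 1 := by omega
  have lx := h.2.2.1
  have g := first_g0 (S := S) (x := x) hb (by omega) (by omega)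
  have e0 := sum_excess (first_two h hf) (t := {0}) (by simp; omega)
  rw [sum_singleton, card_range, card_singleton] at e0
  have gi : ∀ i, 1 ≤ i → i < c → S.gam2 (c - 1) (c + 1) i ≤ 2 := fun i i1 i2 => by
    have e := sum_excess (first_two h hf) (t := {0, i}) (by simp [insert_subset_iff]; omega)
    rw [sum_pair (by omega), card_range, card_pair (by omega)] at e
    omega
  have p0 : ∀ O ∈ S.Orbs (c - 1) (c + 1), S.pl O = 0 := fun O hO => by
    by_contra hn
    have r := S.Orbs_range hb hO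
    have := (S.gam_P hb hO (by omega)).2.2
    have := gi (S.pl O) (by omega) (by omega)
    omega
  have hP : S.OP (c - 1) (c + 1) 0 = S.Orbs (c - 1) (c + 1) := filter_true_of_mem p0
  obtain ⟨O, hO, hk⟩ := exists_ne_zero_of_sum_ne_zero (hK ▸ one_ne_zero)
  have k1 := single_le_sum (f := S.kO) (fun _ _ => Nat.zero_le _) hO
  have x1 := single_le_sum (f := S.exc) (fun _ _ => Nat.zero_le _) hO
  have ea := first_a0 (S := S) hb
  have h4 := S.four_dvd_a0
  have ev := Nat.even_iff.1 (S.even_aX0 (b' := c + 1) (by omega))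
  have cO := S.card_O hb hO
  have cp := card_pos.2 ⟨O, hO⟩
  have g0 : S.gam2 (c - 1) (c + 1) 0 ≥ S.aX (c + 1) 0 + 2 * (S.Orbs (c - 1) (c + 1)).card := by
    unfold gam2
    rw [hP]
    omega
  rw [hP] at ea
  by_cases h2 : S.aX (c + 1) 0 + 2 * (S.Orbs (c - 1) (c + 1)).card = 2
  · obtain ⟨O', hO'⟩ := card_eq_one.1 (show (S.Orbs (c - 1) (c + 1)).card = 1 by omega)
    obtain rfl : O = O' := mem_singleton.1 (hO' ▸ hO)
    have X0 : S.aX (c + 1) 0 = 0 := by omega
    obtain ⟨-, a1, a2, a3, a4⟩ := first_one_orb (x := x) hb (by omega) (by omega) X0 (hP.trans hO')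
    have i1 : S.iO O = 1 := by
      by_contra hn
      have := S.exc_four hb hO a3 (by omega) (by omega)
      omega
    have q1 : S.ql O = 1 := by unfold iO at i1; omega
    have X1 : S.aX (c + 1) 1 = 0 := by
      have := gi 1 le_rfl (by omega)
      have := card_pos.2 ⟨O, (S.mem_OI (i := 1)).2 ⟨hO, by omega, by omega⟩⟩
      unfold gam2 at *
      omega
    have L : ∀ z, S.lo z ≤ 1 → z ∈ O := fun z hz => by
      obtain ⟨O1, b1, b2⟩ := first_mem (S := S) (b := c - 1) (b' := c + 1) (i := S.lo z)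
        (by omega) (by rcases Nat.le_one_iff_eq_zero_or_eq_one.1 hz with e | e <;> rwa [e]) rfl
      exact mem_singleton.1 (hO' ▸ b1) ▸ b2
    rcases hc.lt_or_eq with c3 | rfl
    · obtain ⟨z, z1, z2⟩ := S.cross (j := 2) (by omega) (y := x) (by omega)
      have := S.le_ql (S.Orbs_ρ hO (L (S.ρ 2 z) (by omega)) (i := 2) (Or.inl (by omega)))
      rw [S.inv] at this
      omega
    · have s := S.sum_aO O
      rw [a1, q1, show Icc 0 1 = {0, 1} from rfl, sum_pair (by omega)] at s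
      have b0 := S.aO_ge hb hO (l := 0) (by omega) (by omega)
      have b1 := S.aO_ge hb hO (l := 1) (by omega) (by omega)
      have hm := S.hm
      have ly := h.lo_y
      obtain ⟨z, z1, z2⟩ := S.cross (j := 1) le_rfl (y := x) (by omega)
      obtain ⟨w, w1, w2, -⟩ := S.d1 (h.gp (by omega) (by omega) (k := 1) (by omega))
      have mo : Set.Ici (2 + 1) ⊆ Set.Ici 1 := Set.Ici_subset_Ici.2 (by omega)
      have r1 := first_Q hb hO (by omega) (l := 1) (by omega) (L (S.ρ 2 x) (by omega))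
        (L z (by omega)) (by omega) z1
      have r0 := first_Q hb hO (by omega) (l := 0) (by omega) (L (S.ρ 1 z) (by omega))
        (L w (by omega)) (by omega) w1
      exact w2 (((((S.R_refl _ x).step (show 1 ≤ 2 by omega)).trans (r1.mono mo)).step
        (le_refl 1)).trans (r0.mono mo))
  · have i0 : S.iO O = 0 := by
      by_contra hn
      have := S.exc_two hb hO (by omega) (by omega)
      omega
    have a4 := S.aO_i0 hO i0
    rw [p0 O hO] at a4
    by_cases h1 : (S.Orbs (c - 1) (c + 1)).card = 1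
    · obtain ⟨O', hO'⟩ := card_eq_one.1 h1
      obtain rfl : O = O' := mem_singleton.1 (hO' ▸ hO)
      rw [hO', sum_singleton] at ea
      omega
    · obtain ⟨O', hO', hne⟩ := exists_mem_ne (show 1 < (S.Orbs (c - 1) (c + 1)).card by omega) O
      have e : S.Orbs (c - 1) (c + 1) = {O, O'} :=
        (eq_of_subset_of_card_le (by simp [insert_subset_iff, hO, hO'])
          (by rw [card_pair hne.symm]; omega)).symm
      have x2 := single_le_sum (f := S.exc) (fun _ _ => Nat.zero_le _) hO'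
      rw [e, sum_pair hne.symm] at ea hK
      have p' := p0 O' hO'
      have b0 := S.aO_ge hb hO' (l := 0) (by omega) (by omega)
      have b1 := S.exc_k0 hb hO' (by omega) (L := {0}) (by simp [p'])
      rw [sum_singleton, card_singleton] at b1
      omega

theorem AlX.first (h : S.AlX c x) (hf : ∀ i, 1 ≤ i → i < c → 2 ≤ S.a i) :
    2 * c + 2 ≤ (S.A c).card ∧ S.Inv c := by
  have hc := h.1
  have h4 := S.four_le_a0
  have e := sum_excess (s := range c) (f := S.a) (t := {0}) (fun i hi => by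
    rcases Nat.eq_zero_or_pos i with rfl | h0
    · omega
    · exact hf i h0 (mem_range.1 hi)) (by simp; omega)
  rw [sum_singleton, card_range, card_singleton, ← S.card_A] at e
  refine ⟨by omega, by omega, fun _ => by omega, fun hH => ?_⟩
  rcases hc.lt_or_eq with c2 | rfl
  · obtain ⟨s1, s2⟩ := h.first_sum
    have s3 := h.first_t2 hf c2 (by omega)
    by_contra hn
    exact first_tight h hf c2 (by omega) (by omega) (by omega)
  · have := h.first_one hH
    have := S.four_dvd_a0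
    rw [S.card_A, sum_range_one]
    omega

end SD
end D145
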