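import Pool.Agent.MP_d145c0_al.H75.Alpha
import Pool.Agent.MP_d145c0_al.H75.Dih

/-! Single levels with overhang at most one. -/

namespace D145
open Equiv Finset
namespace SD
variable {Ω : Type} [Fintype Ω] [DecidableEq Ω] {m : ℕ} (S : SD Ω m)

/-- the orbit of `x` under the labels `c+1, c+2` is a path on three points and the dihedral group
contains the 3-cycle on it -/
def Prim (c : ℕ) (x : Ω) : Prop :=
  S.lo (S.ρ (c + 2) (S.ρ (c + 1) x)) = c + 2 ∧
  AltIn (Subgroup.closure ({S.ρ (c + 1), S.ρ (c + 2)} : Set (Perm Ω)))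
    {x, S.ρ (c + 1) x, S.ρ (c + 2) (S.ρ (c + 1) x)}

/-- eight points moved by the label `c + 2` -/
def Eight (c : ℕ) (x w p q w' u1 u2 : Ω) : Prop :=
  S.lo w = c + 2 ∧ S.lo p = c + 1 ∧ S.lo q = c + 1 ∧ S.ρ (c + 1) p = q ∧
  S.ρ (c + 2) p = w ∧ S.ρ (c + 2) q = w' ∧ S.ρ (c + 2) u1 = u2 ∧
  (S.lo w' = c + 1 ∨ S.lo w' = c + 2) ∧ (S.lo u1 = c + 1 ∨ S.lo u1 = c + 2) ∧
  (S.lo u2 = c + 1 ∨ S.lo u2 = c + 2) ∧
  [S.ρ (c + 1) x, S.ρ (c + 2) (S.ρ (c + 1) x), w, p, q, w', u1, u2].Nodup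

variable {S} {c : ℕ} {x : Ω}

theorem g1_two_pts {i : ℕ} (h2 : S.a i = 2) {u v w : Ω} (hu : S.lo u = i) (hv : S.lo v = i)
    (hw : S.lo w = i) (huv : u ≠ v) : w = u ∨ w = v := by
  by_contra hh
  push Not at hh
  have hsub : ({u, v, w} : Finset Ω) ⊆ S.lev i := by
    intro z hz
    simp only [mem_insert, mem_singleton] at hz
    rcases hz with rfl | rfl | rfl <;> simpa
  have hc := Finset.card_le_card hsub
  rw [Finset.card_insert_of_notMem (by simp [huv, hh.1.symm]), Finset.card_pair hh.2.symm] at hc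
  unfold a at h2; omega

theorem g1_le_a {i : ℕ} {l : List Ω} (hl : l.Nodup) (h : ∀ z ∈ l, S.lo z = i) :
    l.length ≤ S.a i := by
  rw [← List.toFinset_card_of_nodup hl]
  exact Finset.card_le_card (fun z hz => by simpa using h z (List.mem_toFinset.1 hz))

/-- the primitive case -/
theorem AlX.g1_prim (h : S.AlX c x) {Δ : Set Ω} (hx : x ∈ Δ)
    (hD : AltIn (Subgroup.closure ({S.ρ (c + 1), S.ρ (c + 2)} : Set (Perm Ω)))
      (Δ ∩ {z | c ≤ S.lo z}))
    (ha : ∀ w ∈ Δ, S.ρ (c + 1) w ∈ Δ) (hb : ∀ w ∈ Δ, S.ρ (c + 2) w ∈ Δ) : S.Prim c x := by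
  obtain ⟨l1, u1⟩ := h.x1
  have lx : S.lo x = c := h.2.2.1
  have l2 := S.lo_step (c + 2) (S.ρ (c + 1) x)
  have n12 : S.ρ (c + 2) (S.ρ (c + 1) x) ≠ S.ρ (c + 1) x := by
    have := S.mv_hi (S.ρ (c + 1) x); rwa [u1] at this
  have n01 : x ≠ S.ρ (c + 1) x := fun e => by rw [← e] at l1; omega
  have n02 : x ≠ S.ρ (c + 2) (S.ρ (c + 1) x) := fun e => by rw [← e] at l2; omega
  have hA : AltIn (Subgroup.closure ({S.ρ (c + 1), S.ρ (c + 2)} : Set (Perm Ω)))
      {x, S.ρ (c + 1) x, S.ρ (c + 2) (S.ρ (c + 1) x)} := by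
    refine hD.mono le_rfl ?_
    rintro z (rfl | rfl | rfl)
    · exact ⟨hx, by simp only [Set.mem_ofPred_eq]; omega⟩
    · exact ⟨ha _ hx, by simp only [Set.mem_ofPred_eq]; omega⟩
    · exact ⟨hb _ (ha _ hx), by simp only [Set.mem_ofPred_eq]; omega⟩
  refine ⟨?_, hA⟩
  have h3 := (dk3 (S.inv (c + 1)) (S.inv (c + 2)) n01 n12.symm n02 hA
    (S.ρ (c + 2) (S.ρ (c + 1) x)) (by simp)).1
  have hfix : S.ρ (c + 1) (S.ρ (c + 2) (S.ρ (c + 1) x)) = S.ρ (c + 2) (S.ρ (c + 1) x) := by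
    rcases h3 with e | e | e
    · exact absurd (S.ρ_swap e).symm n12
    · exact absurd (S.ρ_inj e).symm n02
    · exact e
  have hm := S.mv_lo (S.ρ (c + 2) (S.ρ (c + 1) x))
  by_contra hne
  have : S.lo (S.ρ (c + 2) (S.ρ (c + 1) x)) = c + 1 := by omega
  rw [this] at hm
  exact hm hfix

/-- the imprimitive case: five points of level `c + 1` -/
theorem AlX.g1_five (h : S.AlX c x) (h1 : c + 2 ≤ m) {Δ : Set Ω} (hx : x ∈ Δ)
    (hD : AltIn (Subgroup.closure ({S.ρ (c + 1), S.ρ (c + 2)} : Set (Perm Ω)))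
      (Δ ∩ {z | c ≤ S.lo z}))
    (ha : ∀ w ∈ Δ, S.ρ (c + 1) w ∉ Δ) (hb : ∀ w ∈ Δ, S.ρ (c + 2) w ∈ Δ)
    (hb' : ∀ w, S.ρ (c + 1) w ∈ Δ → S.ρ (c + 1) (S.ρ (c + 2) w) ∈ Δ) : 5 ≤ S.a (c + 1) := by
  obtain ⟨l1, u1⟩ := h.x1
  have lx : S.lo x = c := h.2.2.1
  have ux := h.hi_x
  obtain ⟨x1, e1⟩ : ∃ x1, S.ρ (c + 1) x = x1 := ⟨_, rfl⟩
  rw [e1] at l1 u1
  have e1' := S.ρ_swap e1
  obtain ⟨x2, e2⟩ : ∃ x2, S.ρ (c + 2) x1 = x2 := ⟨_, rfl⟩
  have e2' := S.ρ_swap e2
  obtain ⟨x3, e3⟩ : ∃ x3, S.ρ (c + 1) x2 = x3 := ⟨_, rfl⟩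
  have e3' := S.ρ_swap e3
  have n12 : x1 ≠ x2 := by
    have := S.mv_hi x1; rw [u1, e2] at this; exact this.symm
  have m3 : x3 ∈ Δ := by
    have := hb' x1 (by rw [e1']; exact hx); rwa [e2, e3] at this
  have n23 : x2 ≠ x3 := fun e => ha x3 m3 (by rw [e3', e]; exact m3)
  have l2 : S.lo x2 = c + 1 := by
    have a1 := S.lo_step (c + 2) x1
    have a2 := S.lo_le (i := c + 1) (x := x2) (by rw [e3]; exact n23.symm)
    rw [e2] at a1; omega
  have n03 : x ≠ x3 := fun e => n12 (by rw [← e1, e, e3'])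
  have l3 : S.lo x3 = c + 1 := by
    have a1 := S.lo_step (c + 1) x2
    rw [e3] at a1
    by_contra hne
    exact n03 (h.2.2.2 x3 (by omega)).symm
  have n13 : x1 ≠ x3 := fun e => ha x hx (by rw [e1, e]; exact m3)
  have f3 : S.ρ (c + 2) x3 = x3 := by
    by_contra hne
    have a1 := S.lo_step (c + 2) x3
    have n0 : x ≠ S.ρ (c + 2) x3 := fun e => by rw [← e] at a1; omega
    have hA : AltIn (Subgroup.closure ({S.ρ (c + 1), S.ρ (c + 2)} : Set (Perm Ω)))
        {x, x3, S.ρ (c + 2) x3} := by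
      refine hD.mono le_rfl ?_
      rintro z (rfl | rfl | rfl)
      · exact ⟨hx, by simp only [Set.mem_ofPred_eq]; omega⟩
      · exact ⟨m3, by simp only [Set.mem_ofPred_eq]; omega⟩
      · exact ⟨hb _ m3, by simp only [Set.mem_ofPred_eq]; omega⟩
    have h3 := (dk3 (S.inv (c + 1)) (S.inv (c + 2)) n03 (Ne.symm hne) n0 hA x (by simp)).1
    refine ha x hx ?_
    rcases h3 with e | e | e <;> rw [e]
    exacts [hx, m3, hb _ m3]
  have ld := S.lo_δ x
  obtain ⟨z, lz, lp⟩ := S.cross (j := c + 2) (by omega) (y := S.δ x) (by omega)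
  obtain ⟨p, ep⟩ : ∃ p, S.ρ (c + 2) z = p := ⟨_, rfl⟩
  rw [ep] at lp
  have ep' := S.ρ_swap ep
  obtain ⟨q, eq⟩ : ∃ q, S.ρ (c + 1) p = q := ⟨_, rfl⟩
  have eq' := S.ρ_swap eq
  have p1 : x1 ≠ p := fun e => by rw [← e, e2] at ep'; rw [← ep'] at lz; omega
  have p2 : x2 ≠ p := fun e => by rw [← e, e2'] at ep'; rw [← ep'] at lz; omega
  have p3 : x3 ≠ p := fun e => by rw [← e, f3] at ep'; rw [← ep'] at lz; omega
  have pq : p ≠ q := by
    have := S.mv_lo p
    rw [show S.lo p = c + 1 by omega, eq] at this; exact this.symm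
  have lq : S.lo q = c + 1 := by
    have a1 := S.lo_step (c + 1) p
    rw [eq] at a1
    by_contra hne
    have : q = x := h.2.2.2 q (by omega)
    exact p1 (by rw [← e1, ← this, eq'])
  have q1 : x1 ≠ q := fun e => by rw [← e, e1'] at eq'; rw [← eq'] at lp; omega
  have q2 : x2 ≠ q := fun e => p3 (by rw [← e3, e, eq'])
  have q3 : x3 ≠ q := fun e => p2 (by rw [← e3', e, eq'])
  have := g1_le_a (S := S) (i := c + 1) (l := [x1, x2, x3, p, q])
    (by simp [n12, n13, n23, p1, p2, p3, q1, q2, q3, pq]) (by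
      intro w hw
      simp only [List.mem_cons, List.not_mem_nil, or_false] at hw
      rcases hw with rfl | rfl | rfl | rfl | rfl <;> omega)
  simpa using this

/-- the imprimitive case: the low part is large -/
theorem AlX.g1_low (h : S.AlX c x) {Δ : Set Ω}
    (hY : AltIn (S.G (Set.Ici 1)) {w | S.R (Set.Ici 1) x w})
    (hs : ∀ w, S.lo w < c → (w ∈ Δ ↔ S.ρ (c + 1) w ∉ Δ))
    (hp : ∀ i ≤ c, ∀ w, (S.ρ i w ∈ Δ ↔ w ∈ Δ)) : 2 * c + 4 ≤ (S.A c).card := by
  have hc : 1 ≤ c := h.1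
  have lx : S.lo x = c := h.2.2.1
  have ly := h.lo_y
  have mv : ∀ w, S.lo w < c → S.ρ (c + 1) w ≠ w := fun w hw e => by
    have := hs w hw; rw [e] at this; tauto
  have lv : ∀ w, S.lo w < c → S.lo (S.ρ (c + 1) w) = S.lo w := fun w hw => S.lo_far (by omega)
  have ev : ∀ i < c, Even (S.a i) := fun i hi =>
    even_card_of_inv (S.ρ (c + 1)) (S.lev i) (S.inv (c + 1)) (fun w hw => by
      have hw' : S.lo w = i := by simpa using hw
      exact ⟨by rw [mem_lev, lv w (by omega), hw'], mv w (by omega)⟩)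
  have ge2 : ∀ i < c, 2 ≤ S.a i := fun i hi => by
    rcases Nat.eq_zero_or_pos i with rfl | hi0
    · have := S.four_le_a0; omega
    · obtain ⟨z, hz, -⟩ := S.cross (j := i) hi0 (y := x) (by omega)
      have h0 : 0 < S.a i := Finset.card_pos.2 ⟨z, by simpa using hz⟩
      obtain ⟨k, hk⟩ := ev i hi
      omega
  by_contra hlt
  rw [S.card_A] at hlt
  -- bookkeeping
  have book : ∀ j < c, 1 ≤ j → S.a 0 + S.a j + 2 * c ≤ ∑ i ∈ range c, S.a i + 4 := by
    intro j hj hj1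
    have e1 : ∑ i ∈ range c, S.a i = ∑ i ∈ range c, (S.a i - 2) + 2 * c := by
      rw [show 2 * c = ∑ _i ∈ range c, 2 by simp [mul_comm], ← Finset.sum_add_distrib]
      exact Finset.sum_congr rfl fun i hi => by have := ge2 i (mem_range.1 hi); omega
    have e2 : ∑ i ∈ ({0, j} : Finset ℕ), (S.a i - 2) ≤ ∑ i ∈ range c, (S.a i - 2) :=
      Finset.sum_le_sum_of_subset (by
        intro i hi; simp only [mem_insert, mem_singleton] at hi; rw [mem_range]; omega)
    rw [Finset.sum_pair (by omega)] at e2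
    have := ge2 j hj; have := ge2 0 (by omega); omega
  have book0 : S.a 0 + 2 * c ≤ ∑ i ∈ range c, S.a i + 2 := by
    have e1 : ∑ i ∈ range c, S.a i = ∑ i ∈ range c, (S.a i - 2) + 2 * c := by
      rw [show 2 * c = ∑ _i ∈ range c, 2 by simp [mul_comm], ← Finset.sum_add_distrib]
      exact Finset.sum_congr rfl fun i hi => by have := ge2 i (mem_range.1 hi); omega
    have e2 : S.a 0 - 2 ≤ ∑ i ∈ range c, (S.a i - 2) :=
      Finset.single_le_sum (f := fun i => S.a i - 2) (fun _ _ => Nat.zero_le _)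
        (mem_range.2 (by omega))
    have := ge2 0 (by omega); omega
  have a0 : S.a 0 = 4 := by
    obtain ⟨k, hk⟩ := S.four_dvd_a0
    have := S.four_le_a0; omega
  have aj : ∀ j < c, 1 ≤ j → S.a j = 2 := fun j hj hj1 => by
    have := book j hj hj1
    obtain ⟨k, hk⟩ := ev j hj
    have := ge2 j hj
    omega
  have two : ∀ u w, S.lo u < c → 1 ≤ S.lo u → S.lo w = S.lo u →
      w = u ∨ w = S.ρ (c + 1) u := fun u w hu hu1 hw =>
    g1_two_pts (aj _ hu hu1) rfl (lv u hu) hw (mv u hu).symm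
  have l0 : ∀ u, S.lo u = 0 → S.lo (S.ρ 0 u) = 0 ∧ S.ρ 0 u ≠ u := fun u hu => by
    have a1 := S.lo_step 0 u
    have a2 := S.mv_lo u
    rw [hu] at a2
    exact ⟨by omega, a2⟩
  have four : ∀ u w, S.lo u = 0 → S.lo w = 0 → w = u ∨ w = S.ρ 0 u ∨ w = S.ρ (c + 1) u ∨
      w = S.ρ (c + 1) (S.ρ 0 u) := by
    intro u w hu hw
    by_contra hh
    push Not at hh
    obtain ⟨b1, b2, b3, b4⟩ := hh
    obtain ⟨d1, d2⟩ := l0 u hu
    have s1 := hs u (by omega)
    have s2 := hs (S.ρ 0 u) (by omega)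
    have s3 := hp 0 (by omega) u
    have n1 : u ≠ S.ρ (c + 1) u := (mv u (by omega)).symm
    have n2 : u ≠ S.ρ (c + 1) (S.ρ 0 u) := fun e => by rw [← e] at s2; tauto
    have n3 : S.ρ 0 u ≠ S.ρ (c + 1) u := fun e => by rw [← e] at s1; tauto
    have n4 : S.ρ 0 u ≠ S.ρ (c + 1) (S.ρ 0 u) := (mv _ (by omega)).symm
    have n5 : S.ρ (c + 1) u ≠ S.ρ (c + 1) (S.ρ 0 u) := fun e => d2 (S.ρ_inj e).symm
    have t1 := lv u (by omega)
    have t2 := lv (S.ρ 0 u) (by omega)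
    have := g1_le_a (S := S) (i := 0)
      (l := [w, u, S.ρ 0 u, S.ρ (c + 1) u, S.ρ (c + 1) (S.ρ 0 u)])
      (by simp only [List.nodup_cons, List.mem_cons, List.not_mem_nil, or_false, not_or,
            List.nodup_nil, not_false_eq_true, and_true]
          exact ⟨⟨b1, b2, b3, b4⟩, ⟨d2.symm, n1, n2⟩, ⟨n3, n4⟩, n5⟩) (by
        intro z hz
        simp only [List.mem_cons, List.not_mem_nil, or_false] at hz
        rcases hz with rfl | rfl | rfl | rfl | rfl <;> omega)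
    simp only [List.length_cons, List.length_nil] at this
    omega
  have Yi : ∀ i, 1 ≤ i → ∀ w, (S.R (Set.Ici 1) x (S.ρ i w) ↔ S.R (Set.Ici 1) x w) :=
    fun i hi w => ⟨fun r => r.step' hi (S.inv i w), fun r => r.step hi⟩
  have down : ∀ d j, j + d + 1 = c → ∃ u, S.lo u = j ∧ S.R (Set.Ici 1) x u := by
    intro d
    induction d with
    | zero => intro j hj; exact ⟨S.ρ c x, by omega, (S.R_refl _ x).step hc⟩
    | succ d ih =>
      intro j hj
      obtain ⟨u, hu, ru⟩ := ih (j + 1) (by omega)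
      obtain ⟨z, hz, hz'⟩ := S.cross (j := j + 1) (by omega) (y := x) (by omega)
      refine ⟨S.ρ (j + 1) z, by omega, (Yi _ (by omega) _).2 ?_⟩
      rcases two u z (by omega) (by omega) (by omega) with e | e <;> rw [e]
      · exact ru
      · exact (Yi _ (by omega) _).2 ru
  obtain ⟨f, lf, rf⟩ := down (c - 1) 0 (by omega)
  have cm : ∀ w, S.ρ 0 (S.ρ (c + 1) w) = S.ρ (c + 1) (S.ρ 0 w) := S.comm 0 (c + 1) (by omega)
  have ng : ¬ S.R (Set.Ici 1) x (S.ρ 0 f) := by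
    obtain ⟨g, lg, g1, -⟩ := S.d1 hY
    intro r
    apply g1
    rcases four f g lf lg with e | e | e | e <;> rw [e]
    exacts [rf, r, (Yi _ (by omega) _).2 rf, (Yi _ (by omega) _).2 r]
  have opp : ∀ z, S.lo z = 0 → (S.R (Set.Ici 1) x z ↔ ¬ S.R (Set.Ici 1) x (S.ρ 0 z)) := by
    intro z hz
    rcases four f z lf hz with e | e | e | e <;> rw [e]
    · tauto
    · rw [S.inv]; tauto
    · rw [cm, Yi (c + 1) (by omega), Yi (c + 1) (by omega)]; exact iff_of_true rf ng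
    · rw [cm, Yi (c + 1) (by omega), Yi (c + 1) (by omega), S.inv]
      exact iff_of_false ng (not_not.2 rf)
  have fx : ∀ z, z ≠ x → z ≠ S.ρ c x → S.ρ c z = z := by
    intro z z1 z2
    rcases Nat.lt_trichotomy (S.lo z) c with hz | hz | hz
    · have a1 := h.A_pres hz (i := c) (Or.inr z2)
      have a2 := S.lo_step c z
      have a3 : S.lo (S.ρ c z) = S.lo z := by omega
      have s1 := hs z hz
      have s2 := hp c le_rfl z
      rcases Nat.eq_zero_or_pos (S.lo z) with h0 | h0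
      · have s3 := hp 0 (by omega) z
        have s4 := hs (S.ρ 0 z) (by have := (l0 z h0).1; omega)
        have s5 := opp z h0
        have s6 := Yi c hc z
        rcases four z (S.ρ c z) h0 (by omega) with e | e | e | e
        · exact e
        · rw [e] at s6; tauto
        · rw [e] at s2; tauto
        · rw [e] at s2; tauto
      · rcases two z (S.ρ c z) hz h0 a3 with e | e
        · exact e
        · rw [e] at s2; tauto
    · exact absurd (h.2.2.2 z hz) z1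
    · exact S.fix_lo hz
  have hsub : S.supp c ⊆ {x, S.ρ c x} := by
    intro z hz
    rw [mem_supp] at hz
    simp only [mem_insert, mem_singleton]
    by_contra hh
    push Not at hh
    exact hz (fx z hh.1 hh.2)
  have c1 := (Finset.card_le_card hsub).trans Finset.card_le_two
  have c2 : 0 < (S.supp c).card := Finset.card_pos.2 ⟨x, by
    rw [mem_supp]; have := S.mv_lo x; rwa [lx] at this⟩
  obtain ⟨k, hk⟩ := S.four_dvd_supp c
  omega

theorem AlX.prim_or_imp (h : S.AlX c x) (h1 : c + 2 ≤ m) (h2 : S.H c ≤ c + 1) :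
    S.Prim c x ∨ (S.H c = c + 1 ∧ 2 * c + 4 ≤ (S.A c).card ∧ 5 ≤ S.a (c + 1)) := by
  have hc : 1 ≤ c := h.1
  have lx : S.lo x = c := h.2.2.1
  have ly := h.lo_y
  have ux := h.hi_x
  obtain ⟨l1, u1⟩ := h.x1
  have gB : AltIn (S.G (Set.Ici (c + 1))) {z | c ≤ S.lo z} :=
    (h.gp h1 (by omega) le_rfl).mono le_rfl (fun z hz => h.B_orb hz)
  have gY := h.gp h1 (by omega) (k := 1) (by omega)
  obtain ⟨z, lz, nz, hA⟩ := h.tri (l := c + 2) (by omega) (by omega)
  have hA' : AltIn (S.G (Set.Iic (c + 2))) {S.ρ c x, x, z} :=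
    hA.mono (S.G_mono Set.Icc_subset_Iic_self) subset_rfl
  obtain ⟨Δ, my, mx, -, hΔ, hb⟩ := hA'.cls (fun e => by rw [e] at ly; omega) nz.symm
    (fun e => by rw [e] at ly; omega)
  have hD := S.ipAlt hΔ gB
  rw [S.G_pair] at hD
  have pr : ∀ i ≤ c + 2, i ≠ c + 1 → ∀ w ∈ Δ, S.ρ i w ∈ Δ := by
    intro i hi hne
    refine hb _ (S.ρ_mem (Set.mem_Iic.2 hi)) x mx ?_
    rcases Nat.lt_trichotomy i c with e | e | e
    · rw [S.fix_lo (by omega)]; exact mx
    · rw [e]; exact my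
    · rw [S.fix_hi (by omega)]; exact mx
  by_cases hP : ∃ u ∈ Δ, S.ρ (c + 1) u ∈ Δ
  · obtain ⟨u, hu, hu'⟩ := hP
    exact Or.inl (h.g1_prim mx hD (hb _ (S.ρ_mem (Set.mem_Iic.2 (by omega))) u hu hu')
      (pr _ le_rfl (by omega)))
  push Not at hP
  right
  have hH : S.H c = c + 1 := by
    have a1 : S.ρ (c + 1) (S.ρ c x) ≠ S.ρ c x := fun e => hP _ my (by rw [e]; exact my)
    have a2 := S.le_hi a1
    have a3 := S.hi_le_H (c := c) (z := S.ρ c x) (by omega)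
    omega
  have hb' : ∀ g ∈ S.G (Set.Iic (c + 2)), ∀ u, S.ρ (c + 1) u ∈ Δ → S.ρ (c + 1) (g u) ∈ Δ →
      ∀ w, S.ρ (c + 1) w ∈ Δ → S.ρ (c + 1) (g w) ∈ Δ := by
    intro g hg u hu hgu w hw
    have ma : S.ρ (c + 1) ∈ S.G (Set.Iic (c + 2)) := S.ρ_mem (Set.mem_Iic.2 (by omega))
    have := hb _ (mul_mem ma (mul_mem hg ma)) _ hu (by
      simp only [Perm.mul_apply, S.inv]; exact hgu) _ hw
    simpa only [Perm.mul_apply, S.inv] using this
  have fixA : ∀ i, c + 2 ≤ i → ∀ w, S.lo w < c → S.ρ i w = w := fun i hi w hw =>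
    S.fix_hi (by have := S.hi_le_H hw; omega)
  have pr' : ∀ i ≤ c + 2, i ≠ c + 1 → ∀ w, S.ρ (c + 1) w ∈ Δ →
      S.ρ (c + 1) (S.ρ i w) ∈ Δ := by
    intro i hi hne
    by_cases e : i ≤ c
    · refine hb' _ (S.ρ_mem (Set.mem_Iic.2 hi)) (S.ρ (c + 1) x) (by rw [S.inv]; exact mx) ?_
      rw [S.fix_lo (i := i) (by omega), S.inv]; exact mx
    · refine hb' _ (S.ρ_mem (Set.mem_Iic.2 hi)) (S.ρ (c + 1) (S.ρ c x))
        (by rw [S.inv]; exact my) ?_
      rw [fixA i (by omega) _ (h.A_pres (by omega) (Or.inl (by omega))), S.inv]; exact my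
  have cover : ∀ w, S.lo w < c → w ∈ Δ ∨ S.ρ (c + 1) w ∈ Δ := by
    intro w hw
    by_contra hh
    push Not at hh
    have := S.conn (U := {z | S.lo z < c ∧ z ∉ Δ ∧ S.ρ (c + 1) z ∉ Δ}) (x := w) ⟨hw, hh⟩ (by
      rintro i z ⟨z1, z2, z3⟩
      by_cases e : c + 2 ≤ i
      · rw [fixA i e z z1]; exact ⟨z1, z2, z3⟩
      refine ⟨h.A_pres z1 (Or.inr fun e' => z2 (e' ▸ my)), ?_⟩
      by_cases e' : i = c + 1
      · rw [e', S.inv]; exact ⟨z3, z2⟩
      · refine ⟨fun k => z2 ?_, fun k => z3 ?_⟩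
        · have := pr i (by omega) e' _ k; rwa [S.inv] at this
        · have := pr' i (by omega) e' _ k; rwa [S.inv] at this) x
    have := this.1
    omega
  refine ⟨hH, h.g1_low (Δ := Δ) gY ?_ ?_, h.g1_five h1 mx hD hP (pr _ le_rfl (by omega))
    (pr' _ le_rfl (by omega))⟩
  · intro w hw
    exact ⟨hP w, fun k => (cover w hw).resolve_right k⟩
  · intro i hi w
    refine ⟨fun k => ?_, pr i (by omega) (by omega) w⟩
    have := pr i (by omega) (by omega) _ k; rwa [S.inv] at this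

theorem AlX.eight (h : S.AlX c x) (h2 : S.H c ≤ c + 1) (hp : S.Prim c x)
    (ha : 2 ≤ S.a (c + 1)) : ∃ w p q w' u1 u2, S.Eight c x w p q w' u1 u2 := by
  obtain ⟨l1, h1⟩ := h.x1
  obtain ⟨l2, hA⟩ := hp
  have lx : S.lo x = c := h.2.2.1
  have ux := h.hi_x
  unfold Eight
  obtain ⟨x1, e1⟩ : ∃ x1, S.ρ (c + 1) x = x1 := ⟨_, rfl⟩
  rw [e1] at l1 h1 l2 hA ⊢
  have e1' := S.ρ_swap e1
  obtain ⟨x2, e2⟩ : ∃ x2, S.ρ (c + 2) x1 = x2 := ⟨_, rfl⟩
  rw [e2] at l2 hA ⊢
  have e2' := S.ρ_swap e2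
  have stepa : ∀ z, S.lo z = c + 1 → z ≠ x1 →
      S.lo (S.ρ (c + 1) z) = c + 1 ∧ S.ρ (c + 1) z ≠ x1 := by
    intro z z1 z2
    have a1 := S.lo_step (c + 1) z
    refine ⟨?_, fun e => ?_⟩
    · by_contra hne
      have : S.ρ (c + 1) z = x := h.2.2.2 _ (by omega)
      exact z2 (by rw [← e1, S.ρ_swap this])
    · have : z = x := by rw [← e1', S.ρ_swap e]
      rw [this] at z1; omega
  obtain ⟨p, lp, np, lw⟩ : ∃ p, S.lo p = c + 1 ∧ p ≠ x1 ∧ S.lo (S.ρ (c + 2) p) = c + 2 := by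
    by_contra hh
    push Not at hh
    obtain ⟨v, hv, hv'⟩ := Finset.exists_mem_ne (s := S.lev (c + 1)) (by unfold a at ha; omega) x1
    have := S.conn (U := {z | S.lo z = c + 1 ∧ z ≠ x1}) (x := v) ⟨by simpa using hv, hv'⟩ (by
      rintro i z ⟨z1, z2⟩
      by_cases b1 : i ≤ c
      · rw [S.fix_lo (by omega)]; exact ⟨z1, z2⟩
      by_cases b2 : i = c + 1
      · rw [b2]; exact stepa z z1 z2
      by_cases b3 : i = c + 2
      · rw [b3]
        have a1 := S.lo_step (c + 2) z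
        have a2 := hh z z1 z2
        refine ⟨by omega, fun e => ?_⟩
        have : z = x2 := by rw [← e2, S.ρ_swap e]
        rw [this] at z1; omega
      · refine ⟨by rw [S.lo_far (by omega)]; exact z1, fun e => z2 ?_⟩
        rw [← S.ρ_swap e, S.fix_hi (by omega)]) x
    have := this.1
    omega
  obtain ⟨w, ew⟩ : ∃ w, S.ρ (c + 2) p = w := ⟨_, rfl⟩
  rw [ew] at lw
  have ew' := S.ρ_swap ew
  obtain ⟨lq, nq⟩ := stepa p lp np
  obtain ⟨q, eq⟩ : ∃ q, S.ρ (c + 1) p = q := ⟨_, rfl⟩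
  rw [eq] at lq nq
  have pq : p ≠ q := by
    have := S.mv_lo p
    rw [lp, eq] at this; exact this.symm
  have ne : ∀ {u v : Ω}, S.lo u ≠ S.lo v → u ≠ v := fun hh e => hh (by rw [e])
  obtain ⟨w', ev⟩ : ∃ w', S.ρ (c + 2) q = w' := ⟨_, rfl⟩
  have ev' := S.ρ_swap ev
  have qw : q ≠ w' := by
    intro e
    rw [Set.pair_comm] at hA
    have := (d3p (S.inv (c + 2)) (S.inv (c + 1)) (ne (by omega)) (ne (by omega)) (ne (by omega))
      hA ew' eq (S.fix_lo (by omega)) (by rw [ev, e]) (ne (by omega)) pq).2.1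
    rcases this with e' | e' | e'
    · rw [e'] at lp; omega
    · exact np e'
    · have e'' : p = x2 := e'
      rw [e''] at lp; omega
  have lv : S.lo w' = c + 1 ∨ S.lo w' = c + 2 := by
    have := S.lo_step (c + 2) q; rw [ev] at this; omega
  have n1 : x1 ≠ w' := fun e => by rw [← e, e2] at ev'; rw [← ev'] at lq; omega
  have n2 : x2 ≠ w := fun e => np (by rw [← ew', ← e, e2'])
  have n3 : x2 ≠ w' := fun e => nq (by rw [← ev', ← e, e2'])
  have n4 : w ≠ w' := fun e => pq (by rw [← ew', e, ev'])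
  have n5 : p ≠ w' := fun e => by rw [← e, ew] at ev'; rw [← ev'] at lq; omega
  have n6 : x1 ≠ x2 := ne (by omega)
  have n7 : x1 ≠ w := ne (by omega)
  have n8 : x2 ≠ p := ne (by omega)
  have n9 : x2 ≠ q := ne (by omega)
  have n10 : w ≠ p := ne (by omega)
  have n11 : w ≠ q := ne (by omega)
  have nd : [x1, x2, w, p, q, w'].Nodup := by
    simp only [List.nodup_cons, List.mem_cons, List.not_mem_nil, or_false, not_or,
      List.nodup_nil, not_false_eq_true, and_true]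
    exact ⟨⟨n6, n7, np.symm, nq.symm, n1⟩, ⟨n2, n8, n9, n3⟩, ⟨n10, n11, n4⟩, ⟨pq, n5⟩, qw⟩
  obtain ⟨u1, hu, hu'⟩ : ∃ u1, S.ρ (c + 2) u1 ≠ u1 ∧ u1 ∉ [x1, x2, w, p, q, w'] := by
    by_contra hh
    push Not at hh
    have hs : S.supp (c + 2) = [x1, x2, w, p, q, w'].toFinset := by
      ext z
      rw [mem_supp, List.mem_toFinset]
      refine ⟨hh z, fun hz => ?_⟩
      simp only [List.mem_cons, List.not_mem_nil, or_false] at hz
      rcases hz with rfl | rfl | rfl | rfl | rfl | rfl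
      · rw [e2]; exact n6.symm
      · rw [e2']; exact n6
      · rw [ew']; exact n10.symm
      · rw [ew]; exact n10
      · rw [ev]; exact qw.symm
      · rw [ev']; exact qw
    have := S.four_dvd_supp (c + 2)
    rw [hs, List.toFinset_card_of_nodup nd] at this
    simp only [List.length_cons, List.length_nil] at this
    omega
  have lu : ∀ u, S.ρ (c + 2) u ≠ u → S.lo u = c + 1 ∨ S.lo u = c + 2 := by
    intro u hu
    have a1 := S.lo_le hu
    have a2 := S.le_hi hu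
    by_contra hh
    rcases Nat.lt_or_ge (S.lo u) c with b | b
    · have := S.hi_le_H b; omega
    · have : u = x := h.2.2.2 u (by omega)
      rw [this] at a2; omega
  obtain ⟨u2, eu⟩ : ∃ u2, S.ρ (c + 2) u1 = u2 := ⟨_, rfl⟩
  have eu' := S.ρ_swap eu
  have hu2 : S.ρ (c + 2) u2 ≠ u2 := by rw [eu']; rw [eu] at hu; exact hu.symm
  simp only [List.mem_cons, List.not_mem_nil, or_false, not_or] at hu'
  obtain ⟨k1, k2, k3, k4, k5, k6⟩ := hu'
  refine ⟨w, p, q, w', u1, u2, lw, lp, lq, eq, ew, ev, eu, lv, lu _ hu, lu _ hu2, ?_⟩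
  have j1 : x1 ≠ u2 := fun e => k2 (by rw [← eu', ← e, e2])
  have j2 : x2 ≠ u2 := fun e => k1 (by rw [← eu', ← e, e2'])
  have j3 : w ≠ u2 := fun e => k4 (by rw [← eu', ← e, ew'])
  have j4 : p ≠ u2 := fun e => k3 (by rw [← eu', ← e, ew])
  have j5 : q ≠ u2 := fun e => k6 (by rw [← eu', ← e, ev])
  have j6 : w' ≠ u2 := fun e => k5 (by rw [← eu', ← e, ev'])
  have j7 : u1 ≠ u2 := by rw [eu] at hu; exact hu.symm
  simp only [List.nodup_cons, List.mem_cons, List.not_mem_nil, or_false, not_or,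
    List.nodup_nil, not_false_eq_true, and_true]
  exact ⟨⟨n6, n7, np.symm, nq.symm, n1, Ne.symm k1, j1⟩, ⟨n2, n8, n9, n3, Ne.symm k2, j2⟩,
    ⟨n10, n11, n4, Ne.symm k3, j3⟩, ⟨pq, n5, Ne.symm k4, j4⟩, ⟨qw, Ne.symm k5, j5⟩,
    ⟨Ne.symm k6, j6⟩, j7⟩

theorem AlX.eight_card (h : S.AlX c x) (hp : S.Prim c x) {w p q w' u1 u2 : Ω}
    (he : S.Eight c x w p q w' u1 u2) :
    8 ≤ S.a (c + 1) + S.a (c + 2) ∧ 3 ≤ S.a (c + 1) ∧ 2 ≤ S.a (c + 2) := by
  obtain ⟨lw, lp, lq, -, -, -, -, lv, lu1, lu2, nd⟩ := he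
  have l1 := h.x1.1
  have l2 := hp.1
  refine ⟨?_, ?_, ?_⟩
  · have hsub : [S.ρ (c + 1) x, S.ρ (c + 2) (S.ρ (c + 1) x), w, p, q, w', u1, u2].toFinset ⊆
        S.lev (c + 1) ∪ S.lev (c + 2) := by
      intro z hz
      rw [List.mem_toFinset] at hz
      simp only [List.mem_cons, List.not_mem_nil, or_false] at hz
      simp only [mem_union, mem_lev]
      rcases hz with rfl | rfl | rfl | rfl | rfl | rfl | rfl | rfl <;> omega
    have c1 := (Finset.card_le_card hsub).trans (Finset.card_union_le _ _)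
    rw [List.toFinset_card_of_nodup nd] at c1
    simpa [a] using c1
  · have := g1_le_a (S := S) (i := c + 1) (l := [S.ρ (c + 1) x, p, q])
      (nd.sublist (by
        refine .cons_cons _ (.cons _ (.cons _ (.cons_cons _ (.cons_cons _ (List.nil_sublist _))))))) (by
        intro z hz
        simp only [List.mem_cons, List.not_mem_nil, or_false] at hz
        rcases hz with rfl | rfl | rfl <;> omega)
    simpa using this
  · have := g1_le_a (S := S) (i := c + 2) (l := [S.ρ (c + 2) (S.ρ (c + 1) x), w])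
      (nd.sublist (by
        refine .cons _ (.cons_cons _ (.cons_cons _ (List.nil_sublist _))))) (by
        intro z hz
        simp only [List.mem_cons, List.not_mem_nil, or_false] at hz
        rcases hz with rfl | rfl <;> omega)
    simpa using this

end SD
end D145
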