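import Pool.Agent.MP_d145c0_al.H75.Basic

/-! Removing an inner label gives an intransitive group. -/

namespace D145
open Equiv Finset

namespace S1aux

theorem sq_le_two_pow {o : ℕ} (h : o ≠ 3) : o ^ 2 ≤ 2 ^ o := by
  have key : ∀ k, (k + 4) ^ 2 ≤ 2 ^ (k + 4) := by
    intro k
    induction k with
    | zero => norm_num
    | succ k ih =>
      have : 2 ^ (k + 1 + 4) = 2 * 2 ^ (k + 4) := by ring
      rw [this]; nlinarith [Nat.zero_le (k * k), Nat.zero_le k]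
  rcases Nat.lt_or_ge o 4 with h4 | h4
  · interval_cases o <;> simp_all
  · obtain ⟨k, rfl⟩ := Nat.exists_eq_add_of_le h4
    rw [add_comm]; exact key k

/-- an elementary abelian group of exponent two acting faithfully on `N` points has
order at most `2 ^ (N / 2)` -/
theorem elem {Γ X : Type} [Group Γ] [Finite Γ] [MulAction Γ X] [DecidableEq X] (U : Finset X) :
    ∀ E : Subgroup Γ, (∀ g ∈ E, ∀ h ∈ E, g * h = h * g) → (∀ g ∈ E, g * g = 1) →
      (∀ g ∈ E, ∀ x ∈ U, g • x ∈ U) → (∀ g ∈ E, (∀ x ∈ U, g • x = x) → g = 1) →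
      (Nat.card E) ^ 2 ≤ 2 ^ U.card := by
  classical
  induction U using Finset.strongInduction with
  | H U ih =>
    intro E hc h2 hU hf
    rcases U.eq_empty_or_nonempty with rfl | ⟨u, hu⟩
    · have : E = ⊥ := by
        rw [eq_bot_iff]; intro g hg; exact hf g hg (by simp)
      subst this; simp
    set O : Finset X := U.filter (fun y => ∃ g ∈ E, g • u = y) with hO
    have huO : u ∈ O := by
      simp only [hO, Finset.mem_filter]; exact ⟨hu, 1, one_mem _, one_smul _ _⟩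
    have hOU : O ⊆ U := Finset.filter_subset _ _
    have hss : U \ O ⊂ U := Finset.sdiff_ssubset hOU ⟨u, huO⟩
    have h1 := ih _ hss (E ⊓ MulAction.stabilizer Γ u)
      (fun g hg h hh => hc g hg.1 h hh.1) (fun g hg => h2 g hg.1) (by
        intro g hg x hx
        simp only [hO, Finset.mem_sdiff, Finset.mem_filter, not_and] at hx ⊢
        refine ⟨hU g hg.1 x hx.1, fun _ => ?_⟩
        rintro ⟨h, hh, e⟩
        refine hx.2 hx.1 ⟨g⁻¹ * h, mul_mem (inv_mem hg.1) hh, ?_⟩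
        rw [mul_smul, e, inv_smul_smul]) (by
        intro g hg hx
        refine hf g hg.1 ?_
        intro x hxU
        by_cases hxO : x ∈ O
        · simp only [hO, Finset.mem_filter] at hxO
          obtain ⟨_, h, hh, rfl⟩ := hxO
          have : g • u = u := hg.2
          rw [← mul_smul, hc g hg.1 h hh, mul_smul, this]
        · exact hx x (Finset.mem_sdiff.2 ⟨hxU, hxO⟩))
    have e1 : Nat.card (MulAction.orbit E u) = O.card := by
      rw [← Nat.card_eq_finsetCard]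
      refine Nat.card_congr (Equiv.subtypeEquivRight ?_)
      intro y
      simp only [hO, Finset.mem_filter, MulAction.mem_orbit_iff]
      constructor
      · rintro ⟨g, rfl⟩
        exact ⟨hU g g.2 u hu, g, g.2, rfl⟩
      · rintro ⟨_, g, hg, rfl⟩
        exact ⟨⟨g, hg⟩, rfl⟩
    have e2 : Nat.card (MulAction.stabilizer E u) =
        Nat.card (E ⊓ MulAction.stabilizer Γ u : Subgroup Γ) := by
      refine Nat.card_congr ⟨fun g => ⟨g.1.1, g.1.2, g.2⟩, fun g => ⟨⟨g.1, g.2.1⟩, g.2.2⟩,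
        fun _ => rfl, fun _ => rfl⟩
    have e3 : Nat.card E = O.card * Nat.card (E ⊓ MulAction.stabilizer Γ u : Subgroup Γ) := by
      rw [← e1, ← e2, ← Nat.card_prod]
      exact (Nat.card_congr (MulAction.orbitProdStabilizerEquivGroup E u)).symm
    have hp : IsPGroup 2 E := by
      intro g
      exact ⟨1, Subtype.ext (by simpa [pow_two] using h2 g g.2)⟩
    have h3 : O.card ≠ 3 := by
      intro h3
      obtain ⟨k, hk⟩ := IsPGroup.iff_card.1 hp
      have : 3 ∣ 2 ^ k := by rw [← hk, e3, h3]; exact Dvd.intro _ rfl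
      have := (Nat.prime_three.dvd_of_dvd_pow this)
      omega
    have h4 := sq_le_two_pow h3
    have h5 : U.card = O.card + (U \ O).card := by
      rw [Finset.card_sdiff_of_subset hOU]; have := Finset.card_le_card hOU; omega
    rw [e3, mul_pow, h5, pow_add]
    exact Nat.mul_le_mul h4 h1

variable {Ω : Type} [Fintype Ω] [DecidableEq Ω]

open Classical in
/-- orbit of a point as a finite set -/
noncomputable def orbF (P : Subgroup (Perm Ω)) (x : Ω) : Finset Ω :=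
  univ.filter (fun y => ∃ p ∈ P, p x = y)

theorem mem_orbF {P : Subgroup (Perm Ω)} {x y : Ω} : y ∈ orbF P x ↔ ∃ p ∈ P, p x = y := by
  simp [orbF]

theorem self_orbF (P : Subgroup (Perm Ω)) (x : Ω) : x ∈ orbF P x :=
  mem_orbF.2 ⟨1, one_mem _, rfl⟩

theorem orbF_eq {P : Subgroup (Perm Ω)} {x y : Ω} (h : y ∈ orbF P x) : orbF P y = orbF P x := by
  obtain ⟨p, hp, rfl⟩ := mem_orbF.1 h
  ext z; simp only [mem_orbF]
  constructor
  · rintro ⟨q, hq, rfl⟩; exact ⟨q * p, mul_mem hq hp, rfl⟩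
  · rintro ⟨q, hq, rfl⟩; exact ⟨q * p⁻¹, mul_mem hq (inv_mem hp), by simp⟩

theorem orbF_map {P : Subgroup (Perm Ω)} {q : Perm Ω} (hq : ∀ p ∈ P, ∀ x, p (q x) = q (p x))
    (x : Ω) : orbF P (q x) = (orbF P x).image q := by
  ext z; simp only [mem_orbF, Finset.mem_image]
  constructor
  · rintro ⟨p, hp, rfl⟩; exact ⟨p x, ⟨p, hp, rfl⟩, (hq p hp x).symm⟩
  · rintro ⟨_, ⟨p, hp, rfl⟩, rfl⟩; exact ⟨p, hp, hq p hp x⟩

/-- the set of orbits -/
noncomputable def orbs (P : Subgroup (Perm Ω)) : Finset (Finset Ω) := univ.image (orbF P)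

theorem prod_le {P Q : Subgroup (Perm Ω)} (htr : ∀ x y, ∃ p ∈ P, ∃ q ∈ Q, p (q x) = y) :
    (orbs P).card * (orbs Q).card ≤ Fintype.card Ω := by
  rw [← Finset.card_product, ← Finset.card_univ]
  refine Finset.card_le_card_of_surjOn (fun x => (orbF P x, orbF Q x)) ?_
  rintro ⟨A, B⟩ hAB
  simp only [Finset.coe_product, Set.mem_prod, orbs, Finset.coe_image, Set.mem_image] at hAB
  obtain ⟨⟨y, _, rfl⟩, ⟨x, _, rfl⟩⟩ := hAB
  obtain ⟨p, hp, q, hq, e⟩ := htr x y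
  refine ⟨q x, by simp, ?_⟩
  simp only [Prod.mk.injEq]
  exact ⟨(orbF_eq (mem_orbF.2 ⟨p, hp, e⟩)).symm, orbF_eq (mem_orbF.2 ⟨q, hq, rfl⟩)⟩

theorem card_eq {P Q : Subgroup (Perm Ω)} (hc : ∀ p ∈ P, ∀ q ∈ Q, ∀ x, p (q x) = q (p x))
    (htr : ∀ x y, ∃ p ∈ P, ∃ q ∈ Q, p (q x) = y) (x : Ω) :
    Fintype.card Ω = (orbs P).card * (orbF P x).card := by
  rw [← Finset.card_univ, Finset.card_eq_sum_card_image (orbF P) univ, ← smul_eq_mul,
    ← Finset.sum_const]
  refine Finset.sum_congr rfl ?_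
  intro A hA
  obtain ⟨y, _, rfl⟩ := Finset.mem_image.1 hA
  have h1 : univ.filter (fun z => orbF P z = orbF P y) = orbF P y := by
    ext z; simp only [Finset.mem_filter, Finset.mem_univ, true_and]
    exact ⟨fun h => h ▸ self_orbF P z, orbF_eq⟩
  rw [h1]
  obtain ⟨p, hp, q, hq, e⟩ := htr x y
  rw [orbF_eq (mem_orbF.2 ⟨p, hp, e⟩), orbF_map (fun p hp => hc p hp q hq),
    Finset.card_image_of_injective _ q.injective]

open Pointwise in
theorem side {P Q E : Subgroup (Perm Ω)} (hc : ∀ p ∈ P, ∀ q ∈ Q, ∀ x, p (q x) = q (p x))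
    (htr : ∀ x y, ∃ p ∈ P, ∃ q ∈ Q, p (q x) = y) (hodd : Odd (Fintype.card Ω))
    (hE : E ≤ Q) (hEc : ∀ g ∈ E, ∀ h ∈ E, g * h = h * g) (hE2 : ∀ g ∈ E, g * g = 1)
    {t : ℕ} (ht : 2 ^ t ≤ Nat.card E) : 2 * t + 1 ≤ (orbs P).card := by
  have hsm : ∀ g ∈ E, ∀ x, g • orbF P x = orbF P (g x) := by
    intro g hg x
    rw [orbF_map (fun p hp => hc p hp g (hE hg))]; rfl
  have h1 := elem (orbs P) E hEc hE2 (by
    intro g hg A hA
    obtain ⟨y, _, rfl⟩ := Finset.mem_image.1 hA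
    rw [hsm g hg]; exact Finset.mem_image_of_mem _ (Finset.mem_univ _)) (by
    intro g hg hA
    ext x
    have hx : Odd (orbF P x).card := by
      rw [card_eq hc htr x] at hodd; exact (Nat.odd_mul.1 hodd).2
    obtain ⟨y, hy, hgy⟩ : ∃ y ∈ orbF P x, g y = y := by
      by_contra hh
      push Not at hh
      refine Nat.not_even_iff_odd.2 hx (even_card_of_inv g _ ?_ ?_)
      · intro z; rw [← Perm.mul_apply, hE2 g hg]; rfl
      · intro z hz
        refine ⟨?_, hh z hz⟩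
        have h2 := hA (orbF P z) (Finset.mem_image_of_mem _ (Finset.mem_univ _))
        rw [hsm g hg] at h2
        rw [← orbF_eq hz, ← h2]; exact self_orbF P _
    obtain ⟨p, hp, rfl⟩ := mem_orbF.1 hy
    rw [← hc p hp g (hE hg)] at hgy
    exact p.injective hgy)
  have h2 : 2 ^ (2 * t) ≤ 2 ^ (orbs P).card := by
    refine le_trans ?_ h1
    rw [mul_comm, pow_mul]; exact Nat.pow_le_pow_left ht 2
  have h3 := (Nat.pow_le_pow_iff_right (by norm_num)).1 h2
  have h4 : Odd (orbs P).card := by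
    have hne : Nonempty Ω := Fintype.card_pos_iff.1 hodd.pos
    obtain ⟨x⟩ := hne
    rw [card_eq hc htr x] at hodd; exact (Nat.odd_mul.1 hodd).1
  obtain ⟨k, hk⟩ := h4
  omega

theorem double {Γ : Type} [Group Γ] [Finite Γ] {A B : Subgroup Γ} (h : A ≤ B) {g : Γ}
    (hB : g ∈ B) (hA : g ∉ A) : 2 * Nat.card A ≤ Nat.card B := by
  obtain ⟨k, hk⟩ := Subgroup.card_dvd_of_le h
  have hpos : 0 < Nat.card B := Nat.card_pos
  have h1 : k ≠ 1 := by
    rintro rfl
    have : A = B := Subgroup.eq_of_le_of_card_ge h (by omega)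
    exact hA (this ▸ hB)
  have h0 : k ≠ 0 := by rintro rfl; omega
  rw [hk, mul_comm]; exact Nat.mul_le_mul_left _ (by omega)

end S1aux

namespace SD
variable {Ω : Type} [Fintype Ω] [DecidableEq Ω] {m : ℕ} (S : SD Ω m)

theorem s1_comm {I J : Set ℕ} (h : ∀ i ∈ I, ∀ j ∈ J, ∀ z, S.ρ j (S.ρ i z) = S.ρ i (S.ρ j z)) :
    ∀ p ∈ S.G I, ∀ q ∈ S.G J, ∀ x, p (q x) = q (p x) := by
  intro p hp q hq
  refine S.G_comm (f := p) ?_ hq
  intro j hj z
  exact (S.G_comm (f := S.ρ j) (fun i hi z => h i hi j hj z) hp z).symm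

/-- labels `c, c + 2, ..., c + 2 (t - 1)` -/
def s1set (c t : ℕ) : Set ℕ := {j | ∃ k, k < t ∧ j = c + 2 * k}

theorem s1_ab (c t : ℕ) : ∀ g ∈ S.G (s1set c t), ∀ h ∈ S.G (s1set c t), g * h = h * g := by
  intro g hg h hh
  ext x
  refine S.s1_comm ?_ g hg h hh x
  rintro _ ⟨k, _, rfl⟩ _ ⟨l, _, rfl⟩ z
  by_cases e : k = l
  · rw [e]
  · exact S.comm' (by omega) z

theorem s1_sq (c t : ℕ) : ∀ g ∈ S.G (s1set c t), g * g = 1 := by
  intro g hg
  refine S.G_ind (P := fun g => g * g = 1) (by simp) ?_ hg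
  intro i hi g hg h
  have h1 := S.s1_ab c t g hg _ (S.ρ_mem hi)
  have h2 : S.ρ i * S.ρ i = 1 := by ext x; simp [S.inv]
  calc S.ρ i * g * (S.ρ i * g) = S.ρ i * (g * S.ρ i) * g := by group
    _ = (S.ρ i * S.ρ i) * (g * g) := by rw [h1]; group
    _ = 1 := by rw [h, h2, one_mul]

theorem s1_not_mem {k : ℕ} (hk : k < 2 * m) : S.ρ k ∉ S.G (Set.Iio k) := by
  intro h
  rcases Nat.eq_zero_or_pos k with rfl | h0
  · refine S.ne 0 hk (S.G_empty (k := 1) (l := 0) (by omega) (S.G_mono ?_ h))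
    intro j hj; simp at hj
  · refine S.ne k hk (S.G_empty (k := k) (l := k - 1) (by omega)
      (S.ipG k (k - 1) ⟨S.G_mono ?_ h, S.ρ_mem (Set.mem_Ici.2 le_rfl)⟩))
    intro j hj; simp at hj ⊢; omega

theorem s1_card (c : ℕ) : ∀ t, c + 2 * t ≤ 2 * m + 1 → 2 ^ t ≤ Nat.card (S.G (s1set c t)) := by
  intro t
  induction t with
  | zero => intro _; exact Nat.card_pos
  | succ t ih =>
    intro ht
    have h1 := ih (by omega)
    have h2 : 2 * Nat.card (S.G (s1set c t)) ≤ Nat.card (S.G (s1set c (t + 1))) := by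
      refine S1aux.double (g := S.ρ (c + 2 * t)) (S.G_mono ?_) (S.ρ_mem ⟨t, by omega, rfl⟩) ?_
      · rintro _ ⟨k, hk, rfl⟩; exact ⟨k, by omega, rfl⟩
      · intro h
        refine S.s1_not_mem (k := c + 2 * t) (by omega) (S.G_mono ?_ h)
        rintro _ ⟨k, hk, rfl⟩; simp; omega
    rw [pow_succ]; omega

theorem s1 {i : ℕ} (h1 : 1 ≤ i) (h2 : i + 2 ≤ 2 * m) : ∃ x y, ¬ S.R {j | j ≠ i} x y := by
  by_contra hh
  push Not at hh
  have hc : ∀ p ∈ S.G (Set.Iio i), ∀ q ∈ S.G (Set.Ioi i), ∀ x, p (q x) = q (p x) := by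
    refine S.s1_comm ?_
    intro a ha b hb z
    simp only [Set.mem_Iio, Set.mem_Ioi] at ha hb
    exact S.comm' (by omega) z
  have htr : ∀ x y, ∃ p ∈ S.G (Set.Iio i), ∃ q ∈ S.G (Set.Ioi i), p (q x) = y := by
    intro x y
    refine (hh x y).ind (U := {y | ∃ p ∈ S.G (Set.Iio i), ∃ q ∈ S.G (Set.Ioi i), p (q x) = y})
      ⟨1, one_mem _, 1, one_mem _, rfl⟩ ?_
    rintro j hj _ ⟨p, hp, q, hq, rfl⟩
    rcases lt_or_gt_of_ne (show j ≠ i from hj) with h | h
    · exact ⟨S.ρ j * p, mul_mem (S.ρ_mem h) hp, q, hq, rfl⟩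
    · exact ⟨p, hp, S.ρ j * q, mul_mem (S.ρ_mem h) hq, hc p hp _ (S.ρ_mem h) _⟩
  have hc' : ∀ q ∈ S.G (Set.Ioi i), ∀ p ∈ S.G (Set.Iio i), ∀ x, q (p x) = p (q x) :=
    fun q hq p hp x => (hc p hp q hq x).symm
  have htr' : ∀ x y, ∃ q ∈ S.G (Set.Ioi i), ∃ p ∈ S.G (Set.Iio i), q (p x) = y := by
    intro x y
    obtain ⟨p, hp, q, hq, e⟩ := htr x y
    exact ⟨q, hq, p, hp, by rw [← hc p hp q hq, e]⟩
  have hodd : Odd (Fintype.card Ω) := by rw [S.card]; exact ⟨2 * m + 1, by ring⟩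
  have hb := S1aux.side (E := S.G (s1set (i + 1) ((2 * m - i) / 2))) hc htr hodd
    (S.G_mono (by rintro _ ⟨k, _, rfl⟩; simp only [Set.mem_Ioi]; omega))
    (S.s1_ab _ _) (S.s1_sq _ _) (S.s1_card _ _ (by omega))
  have ha := S1aux.side (E := S.G (s1set ((i + 1) % 2) ((i + 1) / 2))) hc' htr' hodd
    (S.G_mono (by rintro _ ⟨k, _, rfl⟩; simp only [Set.mem_Iio]; omega))
    (S.s1_ab _ _) (S.s1_sq _ _) (S.s1_card _ _ (by omega))
  have hp := S1aux.prod_le htr
  rw [S.card] at hp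
  have hm := S.hm
  generalize (S1aux.orbs (S.G (Set.Iio i))).card = b at hb hp
  generalize (S1aux.orbs (S.G (Set.Ioi i))).card = a at ha hp
  obtain ⟨a', rfl⟩ : ∃ a', a = a' + 3 := ⟨a - 3, by omega⟩
  obtain ⟨b', rfl⟩ : ∃ b', b = b' + 3 := ⟨b - 3, by omega⟩
  have h5 : 2 * m ≤ a' + b' + 5 := by omega
  nlinarith [Nat.zero_le (a' * b')]

end SD
end D145
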