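import Pool.Agent.MP_d145c0_al.H75.Sum
import Pool.Agent.MP_d145c0_al.H75.S1

/-! The levels `0 .. m-1` are nonempty. -/

namespace D145
open Equiv Finset
namespace SD
variable {Ω : Type} [Fintype Ω] [DecidableEq Ω] {m : ℕ} (S : SD Ω m)

theorem s2_edge {j : ℕ} (h1 : 1 ≤ j) (h2 : j + 2 ≤ 2 * m) :
    ∃ z, ¬ S.R {i | i ≠ j} z (S.ρ j z) := by
  obtain ⟨x, y, hxy⟩ := S.s1 h1 h2
  by_contra hh
  push Not at hh
  apply hxy
  refine S.conn (U := {w | S.R {i | i ≠ j} x w}) (S.R_refl _ x) ?_ y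
  intro i z hz
  by_cases hi : i = j
  · subst hi; exact R.trans hz (hh z)
  · exact R.step hz hi

theorem s2_orb_eq {c b' : ℕ} {x y : Ω} (h : S.R (PQ c b') x y) : S.orb c b' x = S.orb c b' y := by
  ext w; rw [S.mem_orb, S.mem_orb]
  exact ⟨fun k => h.symm.trans k, fun k => h.trans k⟩

theorem s2_drop {c b' : ℕ} (h1 : c + 1 < b') (h2 : c + 3 ≤ 2 * m) :
    (univ.image (S.orb (c + 1) b')).card + 1 ≤ (univ.image (S.orb c b')).card := by
  classical
  obtain ⟨z, hz⟩ := S.s2_edge (j := c + 1) (by omega) (by omega)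
  have hsub : PQ c b' ⊆ PQ (c + 1) b' := by
    intro i hi; simp only [PQ, Set.mem_ofPred_eq] at hi ⊢; omega
  let f : Finset Ω → Finset Ω :=
    fun O => univ.filter (fun y => ∃ x ∈ O, S.R (PQ (c + 1) b') x y)
  have hf : ∀ x, f (S.orb c b' x) = S.orb (c + 1) b' x := by
    intro x; ext y
    simp only [f, mem_filter, mem_univ, true_and, S.mem_orb]
    exact ⟨fun ⟨w, a, k⟩ => (a.mono hsub).trans k, fun k => ⟨x, S.R_refl _ _, k⟩⟩
  have he : univ.image (S.orb (c + 1) b') = (univ.image (S.orb c b')).image f := by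
    rw [Finset.image_image]; congr 1; funext x; exact (hf x).symm
  rw [he]
  have hle := Finset.card_image_le (s := univ.image (S.orb c b')) (f := f)
  have hne : ((univ.image (S.orb c b')).image f).card ≠ (univ.image (S.orb c b')).card := by
    rw [Ne, Finset.card_image_iff]
    intro hinj
    have e := hinj (x₁ := S.orb c b' z) (by simp) (x₂ := S.orb c b' (S.ρ (c + 1) z)) (by simp)
      (by
        rw [hf, hf]
        exact S.s2_orb_eq ((S.R_refl _ z).step (by simp [PQ])))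
    have h3 : S.ρ (c + 1) z ∈ S.orb c b' z := by rw [e, S.mem_orb]; exact S.R_refl _ _
    rw [S.mem_orb] at h3
    refine hz (h3.mono ?_)
    intro i hi; simp only [PQ, Set.mem_ofPred_eq] at hi ⊢; omega
  omega

theorem s2_many {b b' : ℕ} (hb' : b' < 2 * m) (k : ℕ) (hk : b + k < b') :
    (univ.image (S.orb (b + k) b')).card + k ≤ (univ.image (S.orb b b')).card := by
  induction k with
  | zero => simp
  | succ k ih =>
    have h1 := ih (by omega)
    have h2 := S.s2_drop (c := b + k) (b' := b') (by omega) (by omega)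
    rw [show b + (k + 1) = b + k + 1 from rfl]; omega

theorem s2_odd {b b' : ℕ} {O : Finset Ω} (hb : b + 2 ≤ b') (hO : O ∈ S.Orbs b b')
    (ho : ¬ Even O.card) : 1 ≤ S.iO O ∧ 3 ≤ S.exc O := by
  have hi : 1 ≤ S.iO O := by
    by_contra hh
    apply ho
    rw [← S.aO_i0 hO (by omega)]; exact S.even_aO_pl hb hO
  have hk : 1 ≤ S.kO O := by
    by_contra hh
    apply ho
    rw [S.sum_aO O]
    exact Finset.even_sum _ (fun l _ => S.even_aO_k0 hb hO (by omega) l)
  have h1 := S.card_O hb hO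
  have h2 := S.exc_two hb hO hi hk
  rw [Nat.even_iff] at ho
  exact ⟨hi, by omega⟩

theorem s2_two {b b' j : ℕ} {O : Finset Ω} {x : Ω} (hb : b + 2 ≤ b')
    (hW : ∀ z, S.lo z ≤ b ∧ b' ≤ S.hi z) (hO : O ∈ S.Orbs b b') (hi : 1 ≤ S.iO O) (hx : x ∈ O)
    (hj : b + 2 ≤ j) (hn : S.ρ j x ∉ O) :
    ∃ l, 1 ≤ l ∧ l ≤ b ∧ 2 ≤ (S.OI b b' l).card := by
  obtain ⟨O', hO', hx'⟩ := S.exists_orb (hW (S.ρ j x)).1 (hW (S.ρ j x)).2
  have hr := S.Orbs_range hb hO
  unfold iO at hi
  have key : ∀ l, S.pl O ≤ l → l ≤ S.ql O → ∃ y ∈ O', S.lo y = l := by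
    intro l l1 l2
    obtain ⟨y, hy, hl⟩ := S.P_levels hb hO hx l1 l2
    refine ⟨S.ρ j y, S.Orbs_of_R hO' hx' ?_, ?_⟩
    · refine (hy.map (f := S.ρ j) ?_).mono ?_
      · intro i hi z
        exact S.comm' (Or.inr (by have : i ≤ b := hi; omega)) z
      · intro i hi; exact Or.inl hi
    · rw [S.lo_far (by omega), hl]
  obtain ⟨y0, a0, e0⟩ := key (S.pl O) le_rfl hr.1
  obtain ⟨y1, a1, e1⟩ := key (S.pl O + 1) (by omega) (by omega)
  have c0 := S.pl_le a0
  have c1 := S.le_ql a1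
  refine ⟨S.pl O + 1, by omega, by omega, ?_⟩
  refine Finset.one_lt_card.2 ⟨O, S.mem_OI.2 ⟨hO, by omega, by omega⟩, O',
    S.mem_OI.2 ⟨hO', by omega, by omega⟩, ?_⟩
  rintro rfl; exact hn hx'

theorem s2 : ∃ x, m ≤ S.lo x + 1 := by
  classical
  by_contra hh
  push Not at hh
  obtain ⟨x0, -⟩ := S.exists_lo_zero
  obtain ⟨y, -, hy⟩ := Finset.exists_max_image (univ : Finset Ω) S.lo ⟨x0, mem_univ _⟩
  have hA := hh y
  obtain ⟨b, hbdef⟩ : ∃ b, b = S.lo y := ⟨_, rfl⟩
  obtain ⟨b', hs⟩ : ∃ b', b + b' + 1 = 2 * m := ⟨2 * m - 1 - b, by omega⟩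
  have hb : b + 2 ≤ b' := by omega
  have hW : ∀ z, S.lo z ≤ b ∧ b' ≤ S.hi z := by
    intro z
    have h1 := hy z (mem_univ _)
    have h2 := hy (S.δ z) (mem_univ _)
    have h3 := S.lo_δ z
    omega
  have hWu : S.W b b' = univ := by
    ext z; simp only [mem_univ, iff_true]; exact S.mem_W.2 (hW z)
  have hX : ∀ i, S.aX b' i = 0 := by
    intro i; unfold aX; rw [Finset.card_eq_zero]
    ext z; simp only [Finset.notMem_empty, iff_false, S.mem_levX]
    have := hW z; omega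
  have hsym := S.sumSym hb hs
  have hg : ∑ i ∈ range (b + 1), S.gam b b' i =
      2 * ∑ i ∈ range (b + 1), (S.OI b b' i).card + (S.Orbs b b').card := by
    rw [← S.sum_OP hb, Finset.mul_sum, ← Finset.sum_add_distrib]
    refine Finset.sum_congr rfl (fun i _ => ?_)
    unfold gam; rw [hX, zero_add]
  have ht : b' - b ≤ (S.Orbs b b').card := by
    have h1 := S.s2_many (b := b) (b' := b') (by omega) (b' - b - 1) (by omega)
    have h2 : 0 < (univ.image (S.orb (b + (b' - b - 1)) b')).card :=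
      Finset.card_pos.2 ⟨_, Finset.mem_image_of_mem _ (mem_univ x0)⟩
    unfold Orbs; rw [hWu]; omega
  have hc := S.card_W hb
  rw [hWu, Finset.card_univ, S.card] at hc
  obtain ⟨O, hO, ho⟩ : ∃ O ∈ S.Orbs b b', ¬ Even O.card := by
    by_contra h2
    push Not at h2
    have := Finset.even_sum (s := S.Orbs b b') (fun O => O.card) h2
    rw [← hc, Nat.even_iff] at this; omega
  obtain ⟨x, hx⟩ := S.Orbs_nonempty hO
  obtain ⟨j, z, hz, hn⟩ : ∃ j, ∃ z ∈ O, S.ρ j z ∉ O := by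
    by_contra h2
    push Not at h2
    have h3 : ∀ w, w ∈ O := S.conn (U := (O : Set Ω)) hx h2
    have h4 : (S.Orbs b b').card ≤ 1 := by
      rw [Finset.card_le_one]
      intro O1 a1 O2 a2
      obtain ⟨w1, k1⟩ := S.Orbs_nonempty a1
      obtain ⟨w2, k2⟩ := S.Orbs_nonempty a2
      rw [S.Orbs_eq a1 hO k1 (h3 w1), S.Orbs_eq a2 hO k2 (h3 w2)]
    omega
  have hj : b < j ∧ j < b' := by
    by_contra h2
    exact hn (S.Orbs_ρ hO hz (by omega))
  have hexc : 3 ≤ ∑ O ∈ S.Orbs b b', S.exc O :=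
    (S.s2_odd hb hO ho).2.trans (Finset.single_le_sum (f := S.exc) (fun _ _ => Nat.zero_le _) hO)
  obtain ⟨l, l1, l2, hl⟩ : ∃ l, 1 ≤ l ∧ l ≤ b ∧ 2 ≤ (S.OI b b' l).card := by
    by_cases h2 : b + 2 ≤ j
    · exact S.s2_two hb hW hO (S.s2_odd hb hO ho).1 hz h2 hn
    · have hd := (S.dual_O hb hs hO).1
      have ho' : ¬ Even (O.image S.δ).card := by
        rwa [Finset.card_image_of_injective _ S.δ.injective]
      refine S.s2_two (j := 2 * m - 1 - j) (x := S.δ z) hb hW hd (S.s2_odd hb hd ho').1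
        (Finset.mem_image_of_mem _ hz) (by omega) ?_
      rw [S.δ_edge (i := j) (by omega)]
      intro h3
      obtain ⟨w, hw, e⟩ := Finset.mem_image.1 h3
      exact hn (S.δ_inj e ▸ hw)
  have hone : ∀ i, 1 ≤ i → i ≤ b → 1 ≤ (S.OI b b' i).card := by
    intro i i1 i2
    obtain ⟨w, -, -, h3 | ⟨O1, h3, -⟩⟩ := S.gam_cross (y := y) hb i1 i2 (by omega)
    · have := hW w; omega
    · exact Finset.card_pos.2 ⟨O1, h3⟩
  have hsum : b + 1 ≤ ∑ i ∈ range (b + 1), (S.OI b b' i).card := by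
    have h1 : ∑ i ∈ range (b + 1), ((if i = 0 then 0 else 1) + (if i = l then 1 else 0)) ≤
        ∑ i ∈ range (b + 1), (S.OI b b' i).card := by
      refine Finset.sum_le_sum (fun i hi => ?_)
      rw [Finset.mem_range] at hi
      by_cases h0 : i = 0
      · rw [if_pos h0, if_neg (by omega)]; omega
      · rw [if_neg h0]
        by_cases h2 : i = l
        · rw [if_pos h2, h2]; exact hl
        · rw [if_neg h2]; exact hone i (by omega) (by omega)
    rw [Finset.sum_add_distrib, Finset.sum_ite_eq', if_pos (by rw [Finset.mem_range]; omega),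
      Finset.sum_range_succ'] at h1
    simpa using h1
  omega

theorem a_pos {i : ℕ} (hi : i < m) : 1 ≤ S.a i := by
  rcases Nat.eq_zero_or_pos i with rfl | h0
  · have := S.four_le_a0; omega
  · obtain ⟨x, hx⟩ := S.s2
    obtain ⟨z, hz, -⟩ := S.cross (j := i) h0 (y := x) (by omega)
    exact Finset.card_pos.2 ⟨z, by simpa using hz⟩

end SD
end D145
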