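import Pool.Agent.MP_d145c0_al.H75.G1
import Pool.Agent.MP_d145c0_al.H75.First
import Pool.Agent.MP_d145c0_al.H75.S2

/-! From one single level to the next. -/

namespace D145
open Equiv Finset
namespace SD
variable {Ω : Type} [Fintype Ω] [DecidableEq Ω] {m : ℕ} {S : SD Ω m} {c c' : ℕ} {x x' : Ω}

omit [Fintype Ω] in
theorem gap_len {l : List Ω} (hl : l.Nodup) {U V : Finset Ω} (h : ∀ z ∈ l, z ∈ U ∨ z ∈ V) :
    l.length ≤ U.card + V.card := by
  rw [← List.toFinset_card_of_nodup hl]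
  refine le_trans (Finset.card_le_card ?_) (Finset.card_union_le U V)
  intro z hz
  exact Finset.mem_union.2 (h z (List.mem_toFinset.1 hz))

theorem AlX.gap_h0 (h' : S.AlX c' x') (hc : c' + 2 ≤ c) {O : Finset Ω}
    (hO : O ∈ S.Orbs (c - 1) (c + 1)) : c' + 1 ≤ S.pl O ∨ S.ql O < c' + 1 := by
  by_contra hh
  have hb : c - 1 + 2 ≤ c + 1 := by omega
  obtain ⟨z, hz⟩ := S.Orbs_nonempty hO
  obtain ⟨y, hy, hl⟩ := S.P_levels hb hO hz (l := c') (by omega) (by omega)
  have h1 : y ∈ O := S.Orbs_of_R hO hz (hy.mono (fun i hi => Or.inl hi))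
  have h2 := (S.Orbs_W hb hO h1).2
  rw [h'.2.2.2 y hl, h'.hi_x] at h2
  omega

theorem AlX.gap_pl (h' : S.AlX c' x') (hc : c' + 2 ≤ c) {O : Finset Ω}
    (hO : O ∈ S.Orbs (c - 1) (c + 1)) {z : Ω} (hz : z ∈ O) (hl : c' < S.lo z) :
    c' + 1 ≤ S.pl O := by
  have := h'.gap_h0 hc hO
  have := S.le_ql hz
  omega

theorem AlX.gap_card (h' : S.AlX c' x') (hc : c' + 2 ≤ c) :
    (S.A c).card = (S.A c').card + 1 + ∑ i ∈ Icc (c' + 1) (c - 1), S.a i ∧
    (univ.filter (fun z => c' + 1 ≤ S.lo z ∧ S.lo z ≤ c - 1)).card =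
      ∑ i ∈ Icc (c' + 1) (c - 1), S.a i := by
  constructor
  · have e : Icc (c' + 1) (c - 1) = Ico (c' + 1) c := by
      ext i; simp only [mem_Ico, mem_Icc]; omega
    have h1 := Finset.sum_range_add_sum_Ico S.a (m := c' + 1) (n := c) (by omega)
    rw [Finset.sum_range_succ, h'.al.2.2] at h1
    rw [S.card_A, S.card_A, e, h1]
  · rw [Finset.card_eq_sum_card_fiberwise (f := S.lo) (t := Icc (c' + 1) (c - 1))]
    · refine Finset.sum_congr rfl (fun i hi => ?_)
      rw [mem_Icc] at hi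
      unfold a; congr 1
      ext z; simp only [mem_filter, mem_univ, true_and, mem_lev]; omega
    · intro z hz; simpa using hz

theorem AlX.gap_K (h' : S.AlX c' x') (h : S.AlX c x) (hc : c' + 2 ≤ c) (h1 : S.H c' < S.H c) :
    S.H c ≤ c + 1 + ∑ O ∈ (S.Orbs (c - 1) (c + 1)).filter (fun O => c' + 1 ≤ S.pl O), S.kO O := by
  have key : ∀ j ∈ Ico (c + 1) (S.H c),
      ∃ O ∈ (S.Orbs (c - 1) (c + 1)).filter (fun O => c' + 1 ≤ S.pl O),
        S.ph O ≤ j ∧ j < S.qh O := by
    intro j hj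
    rw [mem_Ico] at hj
    obtain ⟨z0, a0, b0⟩ := S.exists_H (c := c) h.1
    have hz0 : c' < S.lo z0 := by
      by_contra hh
      rcases Nat.lt_or_ge (S.lo z0) c' with h2 | h2
      · have := S.hi_le_H h2; omega
      · have h3 := h'.hi_x
        rw [← h'.2.2.2 z0 (by omega)] at h3; omega
    obtain ⟨i, z, hz, hn⟩ : ∃ i z, (c' < S.lo z ∧ S.lo z < c ∧ j < S.hi z) ∧
        ¬ (c' < S.lo (S.ρ i z) ∧ S.lo (S.ρ i z) < c ∧ j < S.hi (S.ρ i z)) := by
      by_contra hh
      push Not at hh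
      have := S.conn (U := {z | c' < S.lo z ∧ S.lo z < c ∧ j < S.hi z}) (x := z0)
        ⟨hz0, a0, by omega⟩ (fun i z hz => hh i z hz) x
      have h3 := h.2.2.1
      have h4 := this.2.1
      omega
    have e1 : S.lo (S.ρ i z) < c := by
      refine h.A_pres hz.2.1 (Or.inr ?_)
      rintro rfl
      have := h.hi_y; omega
    have e2 : c' < S.lo (S.ρ i z) := by
      by_contra hh
      have h3 := S.lo_step i z
      have h4 : i = c' + 1 := by omega
      have h5 := S.ρ_swap (h'.2.2.2 (S.ρ i z) (by omega))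
      have h6 := h'.x1.2
      rw [← h4, h5] at h6; omega
    have h3 := S.hi_step i z
    obtain ⟨O, hO, hw⟩ := S.exists_orb (b := c - 1) (b' := c + 1) (x := S.ρ i z) (by omega)
      (by omega)
    have hz' : z ∈ O := by
      have := S.Orbs_ρ hO hw (i := i) (by omega)
      rwa [S.inv] at this
    have h4 := S.ph_le hw
    have h5 := S.le_qh hz'
    exact ⟨O, mem_filter.2 ⟨hO, h'.gap_pl hc hO hw e2⟩, by omega, by omega⟩
  have := S.sumK key
  rw [Nat.card_Ico] at this
  omega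

theorem AlX.gap_three (h' : S.AlX c' x') (hc : c' + 2 ≤ c) (ha : 2 ≤ S.a (c' + 1)) :
    3 ≤ S.gam2 (c - 1) (c + 1) (c' + 1) := by
  have hb : c - 1 + 2 ≤ c + 1 := by omega
  have hx1 := h'.x1
  obtain ⟨u, hu, hne⟩ := Finset.exists_mem_ne (s := S.lev (c' + 1)) ha (S.ρ (c' + 1) x')
  rw [mem_lev] at hu
  have hm : S.ρ (c' + 1) u ≠ u := hu ▸ S.mv_lo u
  have hu' : S.lo (S.ρ (c' + 1) u) = c' + 1 := by
    by_contra hh
    have h3 := S.lo_step (c' + 1) u
    exact hne (S.ρ_swap (h'.2.2.2 _ (by omega))).symm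
  have hne' : S.ρ (c' + 1) u ≠ S.ρ (c' + 1) x' := by
    intro e
    have := h'.2.2.1
    rw [← S.ρ_inj e] at this; omega
  unfold gam2
  by_cases hh : S.hi u < c + 1
  · have h3 := (S.P_hi hb ((S.R_refl (Set.Iic (c - 1)) u).step (i := c' + 1)
      (by simp; omega))).2.1 hh
    have := gap_len (l := [S.ρ (c' + 1) x', u, S.ρ (c' + 1) u]) (U := S.levX (c + 1) (c' + 1))
      (V := ∅) (by simp [hne.symm, hne'.symm, hm.symm]) (by
        intro z hz
        left; rw [S.mem_levX]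
        simp only [List.mem_cons, List.not_mem_nil, or_false] at hz
        rcases hz with rfl | rfl | rfl <;> omega)
    unfold aX; simp at this; omega
  · obtain ⟨O, hO, hw⟩ := S.exists_orb (b := c - 1) (b' := c + 1) (x := u) (by omega) (by omega)
    have h3 := h'.gap_pl hc hO hw (by omega)
    have h4 := S.pl_le hw
    have h5 : 0 < (S.OP (c - 1) (c + 1) (c' + 1)).card :=
      Finset.card_pos.2 ⟨O, S.mem_OP.2 ⟨hO, by omega⟩⟩
    have h6 : 0 < S.aX (c + 1) (c' + 1) :=
      Finset.card_pos.2 ⟨S.ρ (c' + 1) x', S.mem_levX.2 ⟨hx1.1, by omega⟩⟩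
    omega

theorem AlX.gap_eight (h' : S.AlX c' x') (hc : c' + 3 ≤ c) (hp : S.Prim c' x')
    {w p q w' u1 u2 : Ω} (he : S.Eight c' x' w p q w' u1 u2) :
    8 ≤ S.gam2 (c - 1) (c + 1) (c' + 1) + S.gam2 (c - 1) (c + 1) (c' + 2) +
      ∑ O ∈ (S.Orbs (c - 1) (c + 1)).filter (fun O => c' + 1 ≤ S.pl O), S.exc O := by
  have hb : c - 1 + 2 ≤ c + 1 := by omega
  have hc2 : c' + 2 ≤ c := by omega
  obtain ⟨lw, lp, lq, e1, e2, e3, e4, lw', l1, l2, hn⟩ := he
  replace lw' : c' + 1 ≤ S.lo w' ∧ S.lo w' ≤ c' + 2 := by omega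
  replace l1 : c' + 1 ≤ S.lo u1 ∧ S.lo u1 ≤ c' + 2 := by omega
  replace l2 : c' + 1 ≤ S.lo u2 ∧ S.lo u2 ≤ c' + 2 := by omega
  have dj : ∀ {n : ℕ}, c' + 1 ≤ n ∧ n ≤ c' + 2 → n = c' + 1 ∨ n = c' + 2 := fun h => by omega
  have hx1 := h'.x1
  have hx2 := hp.1
  have stepX : ∀ z i, i ≤ c' + 2 → S.hi z < c + 1 → S.hi (S.ρ i z) < c + 1 := fun z i hi hz =>
    (S.P_hi hb ((S.R_refl (Set.Iic (c - 1)) z).step (i := i) (by simp; omega))).2.1 hz
  have k1 : S.hi (S.ρ (c' + 1) x') < c + 1 := by omega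
  have k2 := stepX _ (c' + 2) le_rfl k1
  have cntX : ∀ l : List Ω, l.Nodup →
      (∀ z ∈ l, c' + 1 ≤ S.lo z ∧ S.lo z ≤ c' + 2 ∧ S.hi z < c + 1) →
      l.length ≤ S.aX (c + 1) (c' + 1) + S.aX (c + 1) (c' + 2) := by
    intro l hl hz
    refine gap_len hl (fun z hzl => ?_)
    rw [S.mem_levX, S.mem_levX]
    have := hz z hzl; omega
  have orbU : ¬ S.hi u1 < c + 1 → ∃ O ∈ S.Orbs (c - 1) (c + 1), u1 ∈ O ∧
      (O ∈ S.OP (c - 1) (c + 1) (c' + 1) ∨ O ∈ S.OP (c - 1) (c + 1) (c' + 2)) := by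
    intro hh
    obtain ⟨O, hO, hw⟩ := S.exists_orb (b := c - 1) (b' := c + 1) (x := u1) (by omega) (by omega)
    have h3 := h'.gap_pl hc2 hO hw (by omega)
    have h4 := S.pl_le hw
    refine ⟨O, hO, hw, ?_⟩
    rw [S.mem_OP, S.mem_OP]
    rcases Nat.eq_or_lt_of_le h3 with h5 | h5
    · exact Or.inl ⟨hO, h5.symm⟩
    · exact Or.inr ⟨hO, by omega⟩
  unfold gam2
  by_cases hP : S.hi p < c + 1
  · have kq : S.hi q < c + 1 := e1 ▸ stepX p _ (by omega) hP
    have kw : S.hi w < c + 1 := e2 ▸ stepX p _ (by omega) hP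
    have kw' : S.hi w' < c + 1 := e3 ▸ stepX q _ (by omega) kq
    by_cases hU : S.hi u1 < c + 1
    · have ku : S.hi u2 < c + 1 := e4 ▸ stepX u1 _ (by omega) hU
      have := cntX _ hn (by
        intro z hz
        simp only [List.mem_cons, List.not_mem_nil, or_false] at hz
        rcases hz with rfl | rfl | rfl | rfl | rfl | rfl | rfl | rfl <;>
          exact ⟨by omega, by omega, by assumption⟩)
      simp only [List.length_cons, List.length_nil] at this
      omega
    · have := cntX [S.ρ (c' + 1) x', S.ρ (c' + 2) (S.ρ (c' + 1) x'), w, p, q, w']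
        (hn.take (i := 6)) (by
        intro z hz
        simp only [List.mem_cons, List.not_mem_nil, or_false] at hz
        rcases hz with rfl | rfl | rfl | rfl | rfl | rfl <;>
          exact ⟨by omega, by omega, by assumption⟩)
      simp only [List.length_cons, List.length_nil] at this
      obtain ⟨O, -, -, h3 | h3⟩ := orbU hU
      · have := Finset.card_pos.2 ⟨O, h3⟩; omega
      · have := Finset.card_pos.2 ⟨O, h3⟩; omega
  · obtain ⟨O, hO, op⟩ := S.exists_orb (b := c - 1) (b' := c + 1) (x := p) (by omega) (by omega)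
    have oq : q ∈ O := e1 ▸ S.Orbs_ρ hO op (Or.inl (by omega))
    have ow : w ∈ O := e2 ▸ S.Orbs_ρ hO op (Or.inl (by omega))
    have ow' : w' ∈ O := e3 ▸ S.Orbs_ρ hO oq (Or.inl (by omega))
    have h3 := h'.gap_pl hc2 hO op (by omega)
    have h4 := S.pl_le op
    have h5 := S.le_ql ow
    have mP : O ∈ S.OP (c - 1) (c + 1) (c' + 1) := S.mem_OP.2 ⟨hO, by omega⟩
    have cP := Finset.card_pos.2 ⟨O, mP⟩
    have cI : 0 < (S.OI (c - 1) (c + 1) (c' + 2)).card :=
      Finset.card_pos.2 ⟨O, S.mem_OI.2 ⟨hO, by omega, by omega⟩⟩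
    have cE : S.exc O ≤
        ∑ O ∈ (S.Orbs (c - 1) (c + 1)).filter (fun O => c' + 1 ≤ S.pl O), S.exc O :=
      Finset.single_le_sum (f := S.exc) (fun _ _ => Nat.zero_le _) (mem_filter.2 ⟨hO, h3⟩)
    have c2 := cntX [S.ρ (c' + 1) x', S.ρ (c' + 2) (S.ρ (c' + 1) x')]
      (hn.take (i := 2)) (by
        intro z hz
        simp only [List.mem_cons, List.not_mem_nil, or_false] at hz
        rcases hz with rfl | rfl <;>
          exact ⟨by omega, by omega, by assumption⟩)
    simp only [List.length_cons, List.length_nil] at c2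
    by_cases hk : 1 ≤ S.kO O
    · have := S.exc_two hb hO (by unfold iO; omega) hk
      omega
    by_cases hU : S.hi u1 < c + 1
    · have ku : S.hi u2 < c + 1 := e4 ▸ stepX u1 _ (by omega) hU
      have := cntX [S.ρ (c' + 1) x', S.ρ (c' + 2) (S.ρ (c' + 1) x'), u1, u2]
        (hn.sublist (List.Sublist.cons_cons _ (List.Sublist.cons_cons _
          (List.drop_sublist 4 [w, p, q, w', u1, u2])))) (by
        intro z hz
        simp only [List.mem_cons, List.not_mem_nil, or_false] at hz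
        rcases hz with rfl | rfl | rfl | rfl <;>
          exact ⟨by omega, by omega, by assumption⟩)
      simp only [List.length_cons, List.length_nil] at this
      omega
    obtain ⟨O', hO', o1, h6⟩ := orbU hU
    by_cases hOO : O' = O
    · subst hOO
      have o2 : u2 ∈ O' := e4 ▸ S.Orbs_ρ hO o1 (Or.inl (by omega))
      have h7 := S.exc_k0 hb hO (by omega) (L := {c' + 1, c' + 2}) (by
        intro l hl
        simp only [mem_insert, mem_singleton] at hl
        rw [mem_Icc]; omega)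
      rw [Finset.sum_pair (by omega), Finset.card_pair (by omega)] at h7
      have h8 := gap_len (l := [w, p, q, w', u1, u2]) (hn.drop (i := 2))
        (U := O'.filter (fun z => S.lo z = c' + 1)) (V := O'.filter (fun z => S.lo z = c' + 2)) (by
          intro z hz
          simp only [List.mem_cons, List.not_mem_nil, or_false] at hz
          simp only [mem_filter]
          rcases hz with rfl | rfl | rfl | rfl | rfl | rfl
          exacts [Or.inr ⟨ow, lw⟩, Or.inl ⟨op, lp⟩, Or.inl ⟨oq, lq⟩,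
            (dj lw').imp (fun e => ⟨ow', e⟩) (fun e => ⟨ow', e⟩),
            (dj l1).imp (fun e => ⟨o1, e⟩) (fun e => ⟨o1, e⟩),
            (dj l2).imp (fun e => ⟨o2, e⟩) (fun e => ⟨o2, e⟩)])
      simp only [List.length_cons, List.length_nil] at h8
      unfold aO at h7
      omega
    · rcases h6 with h6 | h6
      · have := Finset.one_lt_card.2 ⟨O', h6, O, mP, hOO⟩; omega
      · have := Finset.card_pos.2 ⟨O', h6⟩; omega

theorem AlX.gap (h' : S.AlX c' x') (h : S.AlX c x) (hc : c' + 2 ≤ c)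
    (hg : ∀ i, c' < i → i < c → 2 ≤ S.a i) (hI : S.Inv c') :
    max (S.H c) c + c + 4 ≤ (S.A c).card ∨
    (S.H c' ≤ c' ∧ (S.A c').card = 2 * c' + 1 ∧ S.H c = c + 1 ∧ (S.A c).card = 2 * c + 4 ∧
      S.Prim c' x') := by
  have hb : c - 1 + 2 ≤ c + 1 := by omega
  obtain ⟨hA, hN⟩ := h'.gap_card hc
  have hs := S.sum2 hb (c' + 1) (fun O hO => h'.gap_h0 hc hO)
  rw [hN, Finset.sum_add_distrib, ← Finset.mul_sum] at hs
  have hK := h'.gap_K h hc
  have ha := hg (c' + 1) (by omega) (by omega)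
  have hcard : (Icc (c' + 1) (c - 1)).card = c - c' - 1 := by rw [Nat.card_Icc]; omega
  have ha2 : ∀ i ∈ Icc (c' + 1) (c - 1), 2 ≤ S.a i := by
    intro i hi; rw [mem_Icc] at hi; exact hg i (by omega) (by omega)
  have hg2 : ∀ i ∈ Icc (c' + 1) (c - 1), 2 ≤ S.gam2 (c - 1) (c + 1) i := by
    intro i hi
    have h1 := ha2 i hi
    rw [mem_Icc] at hi
    exact (S.gam_two hb (by omega) hi.2 h1).trans (S.gam_le_gam2 i)
  have t1 : ({c' + 1} : Finset ℕ) ⊆ Icc (c' + 1) (c - 1) := by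
    intro l hl; rw [mem_singleton] at hl; rw [mem_Icc]; omega
  have s1 := sum_excess ha2 t1
  have s2 := sum_excess hg2 t1
  rw [Finset.sum_singleton, Finset.card_singleton, hcard] at s1 s2
  have s3 := h'.gap_three hc ha
  obtain ⟨o, ho⟩ := h'.odd
  obtain ⟨i1, i2, i3⟩ := hI
  have hcm := h.2.1
  by_cases hH : c' + 2 ≤ S.H c'
  · left; omega
  rcases h'.prim_or_imp (by omega) (by omega) with hp | hp
  swap
  · left; omega
  obtain ⟨w, p, q, w', u1, u2, he⟩ := h'.eight (by omega) hp ha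
  obtain ⟨d1, d2, d3⟩ := h'.eight_card hp he
  have hc3 : c' + 3 ≤ c := by
    by_contra hh
    have h1 := h.al.2.2
    rw [show c = c' + 2 by omega] at h1; omega
  have t2 : ({c' + 1, c' + 2} : Finset ℕ) ⊆ Icc (c' + 1) (c - 1) := by
    intro l hl; simp only [mem_insert, mem_singleton] at hl; rw [mem_Icc]; omega
  have s4 := sum_excess ha2 t2
  have s5 := sum_excess hg2 t2
  rw [Finset.sum_pair (by omega), Finset.card_pair (by omega), hcard] at s4 s5
  have s6 := h'.gap_eight hc3 hp he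
  by_cases hl : max (S.H c) c + c + 4 ≤ (S.A c).card
  · exact Or.inl hl
  · right
    exact ⟨by omega, by omega, by omega, by omega, hp⟩

theorem AlX.inv (h : S.AlX c x) : S.Inv c := by
  induction c using Nat.strong_induction_on generalizing x with
  | _ c ih =>
    by_cases hf : ∀ i, 1 ≤ i → i < c → 2 ≤ S.a i
    · exact (h.first hf).2
    push Not at hf
    obtain ⟨i0, j1, j2, j3⟩ := hf
    obtain ⟨c', hc', hmax⟩ := Finset.exists_max_image
      ((range c).filter (fun i => 1 ≤ i ∧ S.a i < 2)) id ⟨i0, mem_filter.2 ⟨mem_range.2 j2, j1, j3⟩⟩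
    simp only [mem_filter, mem_range, id] at hc' hmax
    have hcm := h.2.1
    have hp := S.a_pos (i := c') (by omega)
    obtain ⟨x', h'⟩ := S.alX_of_al (c := c') ⟨hc'.2.1, by omega, by omega⟩
    have hI := ih c' hc'.1 h'
    by_cases e : c' + 1 = c
    · subst e
      obtain ⟨r1, r2, r3⟩ := h'.run h.al.2.2
      obtain ⟨i1, i2, i3⟩ := hI
      exact ⟨by omega, by omega, by omega⟩
    · have := h'.gap h (by omega) (fun i a1 a2 => by
        by_contra hh
        have := hmax i ⟨a2, by omega, by omega⟩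
        omega) hI
      exact ⟨by omega, by omega, by omega⟩

end SD
end D145
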