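import Pool.Agent.MP_d145c0_al.H75.LBDefs

/-! The intersection property for the two other models. -/

namespace D145
open Equiv Finset

namespace LBC

theorem gen_ind {Ω : Type} (ρ : ℕ → Perm Ω) (hρ : ∀ i, ρ i * ρ i = 1) (I : Set ℕ)
    (p : Perm Ω → Prop) (h1 : p 1) (hs : ∀ i ∈ I, ∀ g, p g → p (ρ i * g)) :
    ∀ g ∈ Gen ρ I, p g := by
  intro g hg
  unfold Gen at hg
  induction hg using Subgroup.closure_induction_left with
  | one => exact h1
  | mul_left x hx y _ hy =>
    obtain ⟨i, hi, rfl⟩ := hx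
    exact hs i hi y hy
  | inv_mul_cancel x hx y _ hy =>
    obtain ⟨i, hi, rfl⟩ := hx
    rw [inv_eq_of_mul_eq_one_left (hρ i)]
    exact hs i hi y hy

theorem gen_mem {Ω : Type} (ρ : ℕ → Perm Ω) {I : Set ℕ} {i : ℕ} (hi : i ∈ I) : ρ i ∈ Gen ρ I :=
  Subgroup.subset_closure ⟨i, hi, rfl⟩

/-- adjacent transpositions generate -/
theorem swap_mem (H : Subgroup (Perm ℕ)) (a l : ℕ)
    (h : ∀ i, a ≤ i → i ≤ l → swap i (i + 1) ∈ H) (i : ℕ) (hi : a ≤ i) :
    ∀ d, i + d ≤ l + 1 → swap i (i + d) ∈ H := by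
  intro d
  induction d with
  | zero => intro _; rw [add_zero, swap_self]; exact H.one_mem
  | succ d ih =>
    intro hd
    rcases Nat.eq_zero_or_pos d with rfl | hpos
    · exact h i hi (by omega)
    · have h1 := ih (by omega)
      have h2 := h (i + d) (by omega) (by omega)
      have e : swap i (i + (d + 1)) =
          swap (i + d) (i + d + 1) * swap i (i + d) * swap (i + d) (i + d + 1) := by
        ext x
        simp only [Perm.coe_mul, Function.comp_apply, swap_apply_def]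
        split_ifs <;> omega
      rw [e]
      exact H.mul_mem (H.mul_mem h2 h1) h2

theorem diag (H : Subgroup (Perm ℕ)) (a l : ℕ)
    (h : ∀ i, a ≤ i → i ≤ l → swap i (i + 1) ∈ H) :
    ∀ n, n ≤ l + 2 → ∀ π : Perm ℕ, (∀ j, j < a ∨ n ≤ j → π j = j) → π ∈ H := by
  intro n
  induction n with
  | zero =>
    intro _ π hπ
    have : π = 1 := by ext j; exact hπ j (Or.inr (Nat.zero_le j))
    rw [this]; exact H.one_mem
  | succ n ih =>
    intro hn π hπ
    by_cases hx : π n = n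
    · refine ih (by omega) π fun j hj => ?_
      by_cases hjn : j = n
      · rw [hjn]; exact hx
      · exact hπ j (by omega)
    · have h1 : ¬ (π n < a ∨ n + 1 ≤ π n) := fun h' => hx (π.injective (hπ _ h'))
      have h2 : ¬ (n < a ∨ n + 1 ≤ n) := fun h' => hx (hπ _ h')
      have h3 : swap (π n) n ∈ H := by
        have := swap_mem H a l h (π n) (by omega) (n - π n) (by omega)
        rwa [show π n + (n - π n) = n by omega] at this
      have h4 : swap (π n) n * π ∈ H := by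
        refine ih (by omega) _ fun j hj => ?_
        by_cases hjn : j = n
        · rw [hjn, Perm.mul_apply, swap_apply_left]
        · have h5 : π j = j := hπ j (by omega)
          rw [Perm.mul_apply, h5]
          exact swap_apply_of_ne_of_ne (by omega) hjn
      have h6 := H.mul_mem h3 h4
      rwa [← mul_assoc, swap_mul_self, one_mul] at h6

/-- the action of the labels `≥ 1` on the positions -/
def t (i : ℕ) : Perm ℕ := if i = 2 then swap 0 1 * swap 2 3 else swap i (i + 1)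

theorem t_apply (i j : ℕ) : t i j =
    if i = 2 ∧ j < 2 then 1 - j else if j = i then i + 1 else if j = i + 1 then i else j := by
  unfold t
  by_cases hi : i = 2
  · subst hi
    rcases j with _ | _ | _ | _ | j <;> simp [swap_apply_def]
  · simp only [hi, if_false, false_and, swap_apply_def]

theorem t_mul (i : ℕ) : t i * t i = 1 := by
  ext j
  rw [Perm.mul_apply, t_apply, t_apply, Perm.one_apply]
  split_ifs <;> omega

theorem t_fix (i j : ℕ) (h : i + 1 < j) : t i j = j := by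
  rw [t_apply]
  split_ifs <;> omega

theorem t_ne (i : ℕ) (hi : i ≠ 2) : t i = swap i (i + 1) := if_neg hi

theorem s0_eq : swap 0 1 = (t 2 * t 3) * (t 2 * t 3) * (t 2 * t 3) := by
  ext j
  simp only [Perm.coe_mul, Function.comp_apply]
  rcases j with _ | _ | _ | _ | _ | j
  iterate 5 decide
  have h2 := t_fix 2 (j + 1 + 1 + 1 + 1 + 1) (by omega)
  have h3 := t_fix 3 (j + 1 + 1 + 1 + 1 + 1) (by omega)
  rw [h3, h2, h3, h2, h3, h2]
  exact swap_apply_of_ne_of_ne (by omega) (by omega)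

theorem s2_eq : swap 2 3 = swap 0 1 * t 2 := by
  unfold t
  rw [if_pos rfl, ← mul_assoc, swap_mul_self, one_mul]

theorem s03_eq : swap 0 3 = t 2 * t 1 * t 2 := by
  ext j
  simp only [Perm.coe_mul, Function.comp_apply]
  rcases j with _ | _ | _ | _ | j
  iterate 4 decide
  have h1 := t_fix 1 (j + 1 + 1 + 1 + 1) (by omega)
  have h2 := t_fix 2 (j + 1 + 1 + 1 + 1) (by omega)
  rw [h2, h1, h2]
  exact swap_apply_of_ne_of_ne (by omega) (by omega)

/-- the colouring of the first four positions -/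
def e (j : ℕ) : Bool := decide (j = 0 ∨ j = 3)

theorem low_two {k : ℕ} (hk : 2 ≤ k) {I : Set ℕ} (hI : ∀ i ∈ I, k ≤ i) :
    ∀ π ∈ Gen t I, ∀ j, j < 2 → π j < 2 := by
  refine gen_ind t t_mul I _ (fun j hj => hj) fun i hi g hg j hj => ?_
  have := hg j hj
  have := hI i hi
  rw [Perm.mul_apply, t_apply]
  split_ifs <;> omega

theorem low_fix {k : ℕ} (hk : 3 ≤ k) {I : Set ℕ} (hI : ∀ i ∈ I, k ≤ i) :
    ∀ π ∈ Gen t I, ∀ j, j < k → π j = j := by
  refine gen_ind t t_mul I _ (fun j _ => rfl) fun i hi g hg j hj => ?_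
  have := hI i hi
  rw [Perm.mul_apply, hg j hj, t_apply]
  split_ifs <;> omega

theorem eq_one_of {π : Perm ℕ} (h0 : π 0 = 0) (h1 : π 1 = 1) (h3 : π 3 = 3)
    (h : ∀ j, 3 < j → π j = j) : π = 1 := by
  have h2 : π 2 = 2 := by
    by_contra hne
    apply hne
    apply π.injective
    have : π 2 = 0 ∨ π 2 = 1 ∨ π 2 = 3 ∨ 3 < π 2 := by omega
    rcases this with h' | h' | h' | h'
    · rw [h', h0]
    · rw [h', h1]
    · rw [h', h3]
    · exact h _ h'
  ext j
  have : j = 0 ∨ j = 1 ∨ j = 2 ∨ j = 3 ∨ 3 < j := by omega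
  rcases this with rfl | rfl | rfl | rfl | hj
  · exact h0
  · exact h1
  · exact h2
  · exact h3
  · exact h j hj

theorem le_three {π : Perm ℕ} (h : ∀ j, 3 < j → π j = j) (j : ℕ) (hj : j ≤ 3) : π j ≤ 3 := by
  by_contra hlt
  have := π.injective (h (π j) (by omega))
  omega

/-- a permutation of the first four positions that keeps the colouring -/
theorem colour {π : Perm ℕ} (h : ∀ j, 3 < j → π j = j) (he : ∀ j, j ≤ 3 → e (π j) = e j) :
    ((π 0 = 0 ∧ π 3 = 3) ∨ (π 0 = 3 ∧ π 3 = 0)) ∧ (π 1 = 1 ∨ (π 1 = 2 ∧ π 2 = 1)) := by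
  have a0 := he 0 (by omega)
  have a1 := he 1 (by omega)
  have a2 := he 2 (by omega)
  have a3 := he 3 (by omega)
  have b1 := le_three h 1 (by omega)
  have b2 := le_three h 2 (by omega)
  have c1 : π 0 ≠ π 3 := fun h' => absurd (π.injective h') (by omega)
  have c2 : π 1 ≠ π 2 := fun h' => absurd (π.injective h') (by omega)
  simp [e] at a0 a1 a2 a3
  omega

theorem small_false {k l : ℕ} (hk : 1 ≤ k) (hk2 : k ≤ 2) (hl : l ≤ 2) (π : Perm ℕ)
    (hlow : k = 2 → ∀ j, j < 2 → π j < 2) (hhi : ∀ j, l + 1 < j → π j = j)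
    (he : ∀ j, j ≤ 3 → e (π j) = e j) : π ∈ Gen t (Set.Icc k l) := by
  have h3 : ∀ j, 3 < j → π j = j := fun j hj => hhi j (by omega)
  have key : ∀ π : Perm ℕ, (k = 2 → ∀ j, j < 2 → π j < 2) → (∀ j, l + 1 < j → π j = j) →
      π 0 = 0 → π 3 = 3 → (π 1 = 1 ∨ (π 1 = 2 ∧ π 2 = 1)) → π ∈ Gen t (Set.Icc k l) := by
    intro π hlow hhi h0 h3 h1
    rcases h1 with h1 | ⟨h1, h2⟩
    · rw [eq_one_of h0 h1 h3 fun j hj => hhi j (by omega)]
      exact Subgroup.one_mem _
    · have hk1 : k = 1 := by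
        by_contra hne
        have := hlow (by omega) 1 (by omega)
        omega
      have hl1 : 1 ≤ l := by
        by_contra hne
        have := hhi 2 (by omega)
        omega
      have : t 1 * π = 1 := by
        refine eq_one_of ?_ ?_ ?_ fun j hj => ?_
        · rw [Perm.mul_apply, h0, t_apply]; simp
        · rw [Perm.mul_apply, h1, t_apply]; simp
        · rw [Perm.mul_apply, h3, t_apply]; simp
        · rw [Perm.mul_apply, hhi j (by omega), t_apply]
          split_ifs <;> omega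
      rw [eq_inv_of_mul_eq_one_right this]
      exact Subgroup.inv_mem _ (gen_mem t ⟨by omega, hl1⟩)
  obtain ⟨h0, h1⟩ := colour h3 he
  rcases h0 with ⟨h0, h0'⟩ | ⟨h0, h0'⟩
  · exact key π hlow hhi h0 h0' h1
  · have hk1 : k = 1 := by
      by_contra hne
      have := hlow (by omega) 0 (by omega)
      omega
    have hl2 : l = 2 := by
      by_contra hne
      have := hhi 3 (by omega)
      omega
    have hs : swap 0 3 ∈ Gen t (Set.Icc k l) := by
      rw [s03_eq]
      have m1 : t 1 ∈ Gen t (Set.Icc k l) := gen_mem t ⟨by omega, by omega⟩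
      have m2 : t 2 ∈ Gen t (Set.Icc k l) := gen_mem t ⟨by omega, by omega⟩
      exact Subgroup.mul_mem _ (Subgroup.mul_mem _ m2 m1) m2
    have h4 : swap 0 3 * π ∈ Gen t (Set.Icc k l) := by
      refine key _ (fun h => by omega) (fun j hj => ?_) ?_ ?_ ?_
      · rw [Perm.mul_apply, hhi j hj]
        exact swap_apply_of_ne_of_ne (by omega) (by omega)
      · rw [Perm.mul_apply, h0, swap_apply_right]
      · rw [Perm.mul_apply, h0', swap_apply_left]
      · rcases h1 with h1 | ⟨h1, h2⟩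
        · left
          rw [Perm.mul_apply, h1]
          exact swap_apply_of_ne_of_ne (by omega) (by omega)
        · right
          rw [Perm.mul_apply, Perm.mul_apply, h1, h2]
          exact ⟨swap_apply_of_ne_of_ne (by omega) (by omega),
            swap_apply_of_ne_of_ne (by omega) (by omega)⟩
    have h6 := Subgroup.mul_mem _ hs h4
    rwa [← mul_assoc, swap_mul_self, one_mul] at h6

theorem e_t2 (j : ℕ) (hj : j ≤ 3) : e (t 2 j) = !(e j) := by
  rw [t_apply]
  interval_cases j <;> simp [e]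

/-- the intersection property on the positions -/
theorem pos_ip {k l : ℕ} (hk : 1 ≤ k) {I : Set ℕ} (hI : ∀ i ∈ I, k ≤ i) (π : Perm ℕ)
    (hπ : π ∈ Gen t I) (hhi : ∀ j, l + 1 < j → π j = j)
    (he : l ≤ 2 → ∃ a : Bool, ∀ j, j ≤ 3 → e (π j) = xor (e j) a) :
    π ∈ Gen t (Set.Icc k l) := by
  by_cases hk3 : 3 ≤ k
  · refine diag _ k l (fun i h1 h2 => ?_) (l + 2) le_rfl π fun j hj => ?_
    · rw [← t_ne i (by omega)]
      exact gen_mem t ⟨h1, h2⟩
    · rcases hj with hj | hj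
      · exact low_fix hk3 hI π hπ j hj
      · exact hhi j (by omega)
  have hlow : k = 2 → ∀ j, j < 2 → π j < 2 := fun h => low_two h.ge hI π hπ
  by_cases hl : l ≤ 2
  · obtain ⟨a, ha⟩ := he hl
    cases a with
    | false =>
      exact small_false hk (by omega) hl π hlow hhi fun j hj => by rw [ha j hj, Bool.xor_false]
    | true =>
      have hl2 : l = 2 := by
        by_contra hne
        have h1 := ha 3 le_rfl
        rw [hhi 3 (by omega)] at h1
        simp [e] at h1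
      have m2 : t 2 ∈ Gen t (Set.Icc k l) := gen_mem t ⟨by omega, by omega⟩
      have h4 : t 2 * π ∈ Gen t (Set.Icc k l) := by
        refine small_false hk (by omega) hl _ (fun h j hj => ?_) (fun j hj => ?_) fun j hj => ?_
        · have := hlow h j hj
          rw [Perm.mul_apply, t_apply]
          split_ifs <;> omega
        · rw [Perm.mul_apply, hhi j hj, t_apply]
          split_ifs <;> omega
        · rw [Perm.mul_apply, e_t2 _ (le_three (fun j hj => hhi j (by omega)) j hj), ha j hj]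
          simp
      have h6 := Subgroup.mul_mem _ m2 h4
      rwa [← mul_assoc, t_mul, one_mul] at h6
  have m2 : t 2 ∈ Gen t (Set.Icc k l) := gen_mem t ⟨by omega, by omega⟩
  have m3 : t 3 ∈ Gen t (Set.Icc k l) := gen_mem t ⟨by omega, by omega⟩
  have m23 := Subgroup.mul_mem _ m2 m3
  have s0 : swap 0 1 ∈ Gen t (Set.Icc k l) := by
    rw [s0_eq]
    exact Subgroup.mul_mem _ (Subgroup.mul_mem _ m23 m23) m23
  have s2 : swap 2 3 ∈ Gen t (Set.Icc k l) := by
    rw [s2_eq]
    exact Subgroup.mul_mem _ s0 m2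
  have sw : ∀ i, k ≤ i → i ≤ l → swap i (i + 1) ∈ Gen t (Set.Icc k l) := by
    intro i h1 h2
    by_cases hi : i = 2
    · rw [hi]; exact s2
    · rw [← t_ne i hi]
      exact gen_mem t ⟨h1, h2⟩
  by_cases hk1 : k = 1
  · refine diag _ 0 l (fun i _ h2 => ?_) (l + 2) le_rfl π fun j hj => hhi j (by omega)
    by_cases hi : i = 0
    · rw [hi]; exact s0
    · exact sw i (by omega) h2
  have hk2 : k = 2 := by omega
  have a0 := hlow hk2 0 (by omega)
  have a1 := hlow hk2 1 (by omega)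
  have c1 : π 0 ≠ π 1 := fun h' => absurd (π.injective h') (by omega)
  by_cases h0 : π 0 = 0
  · refine diag _ k l sw (l + 2) le_rfl π fun j hj => ?_
    have : j = 0 ∨ j = 1 ∨ l + 1 < j := by omega
    rcases this with rfl | rfl | h
    · exact h0
    · omega
    · exact hhi j h
  · have h4 : swap 0 1 * π ∈ Gen t (Set.Icc k l) := by
      refine diag _ k l sw (l + 2) le_rfl _ fun j hj => ?_
      have : j = 0 ∨ j = 1 ∨ l + 1 < j := by omega
      rcases this with rfl | rfl | h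
      · rw [Perm.mul_apply, show π 0 = 1 by omega, swap_apply_right]
      · rw [Perm.mul_apply, show π 1 = 0 by omega, swap_apply_left]
      · rw [Perm.mul_apply, hhi j h]
        exact swap_apply_of_ne_of_ne (by omega) (by omega)
    have h6 := Subgroup.mul_mem _ s0 h4
    rwa [← mul_assoc, swap_mul_self, one_mul] at h6

/-- renaming of the four points of level `0` -/
def ren (ty : ℕ) (p : Bool × ℕ) : Bool × ℕ :=
  if ty = 0 then
    (if p = (true, 1) then (false, 0) else if p = (false, 0) then (true, 1) else p)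
  else (if p.2 = 0 then (!p.1, 0) else p)

/-- the labels after the renaming -/
def tau (ty i : ℕ) (p : Bool × ℕ) : Bool × ℕ :=
  if i = 0 then (if p.2 < 2 then (!p.1, if ty = 0 then p.2 else 1 - p.2) else p)
  else (p.1, t i p.2)

theorem ren_ren (ty : ℕ) (p : Bool × ℕ) : ren ty (ren ty p) = p := by
  obtain ⟨s, j⟩ := p
  unfold ren
  rcases j with _ | _ | j <;> cases s <;> by_cases h : ty = 0 <;> simp [h]

theorem ren_le (ty : ℕ) {m : ℕ} (hm : 3 ≤ m) (p : Bool × ℕ) (hp : p.2 ≤ m) :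
    (ren ty p).2 ≤ m := by
  unfold ren
  split_ifs <;> (try simp only) <;> omega

theorem ren_top (ty : ℕ) {m : ℕ} (hm : 3 ≤ m) (s : Bool) : ren ty (s, m) = (s, m) := by
  have h0 : m ≠ 0 := by omega
  have h1 : m ≠ 1 := by omega
  unfold ren
  simp [h0, h1]

theorem sig_ren {ty : ℕ} (h : ty ≤ 1) (i : ℕ) (p : Bool × ℕ) :
    sig ty i (ren ty p) = ren ty (tau ty i p) := by
  obtain ⟨s, j⟩ := p
  have ht : ty = 0 ∨ ty = 1 := by omega
  rcases ht with rfl | rfl <;> rcases i with _ | _ | _ | i <;> rcases j with _ | _ | _ | _ | j <;>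
    cases s <;> simp [sig, ren, tau, t_apply] <;> (try split_ifs) <;> simp_all

theorem tau_le (ty : ℕ) {i n : ℕ} (hi : i < n) (p : Bool × ℕ) (hp : p.2 ≤ n) :
    (tau ty i p).2 ≤ n := by
  unfold tau
  rw [t_apply]
  split_ifs <;> (try simp only) <;> omega

theorem tau_fix (ty i : ℕ) (p : Bool × ℕ) (hp : i + 1 < p.2) : tau ty i p = p := by
  obtain ⟨s, j⟩ := p
  unfold tau
  rw [t_apply]
  simp only at hp ⊢
  split_ifs <;> first | rfl | omega

theorem tau_flip (ty i : ℕ) (p : Bool × ℕ) :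
    tau ty i (!p.1, p.2) = (!(tau ty i p).1, (tau ty i p).2) := by
  unfold tau
  split_ifs <;> rfl

/-- the invariant of the first three labels -/
def f (ty : ℕ) (p : Bool × ℕ) : Bool := if ty = 0 then e p.2 else xor p.1 (e p.2)

theorem f_tau (ty : ℕ) {i : ℕ} (hi : i ≤ 2) (p : Bool × ℕ) (hp : p.2 ≤ 3) :
    f ty (tau ty i p) = xor (f ty p) (decide (i = 2)) := by
  obtain ⟨s, j⟩ := p
  simp only at hp
  unfold f tau
  rw [t_apply]
  by_cases h : ty = 0 <;> interval_cases i <;> interval_cases j <;> cases s <;> simp [h, e]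

end LBC

namespace Mod
variable {Ω : Type} [Fintype Ω] [DecidableEq Ω] {m ty : ℕ} (M : Mod Ω m ty)

open LBC

/-- the renamed points -/
def cR (p : Bool × ℕ) : Ω := M.P (ren ty p)

theorem cR_mul (i : ℕ) : M.ρ i * M.ρ i = 1 := by
  ext x
  exact M.inv i x

theorem cR_act (h : ty ≤ 1) {i : ℕ} (hi : i < m) (p : Bool × ℕ) (hp : p.2 ≤ m) :
    M.ρ i (M.cR p) = M.cR (tau ty i p) := by
  unfold cR
  rw [← sig_ren h]
  exact M.act i hi (ren ty p).1 (ren ty p).2 (ren_le ty M.hm p hp)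

theorem cR_inj {p q : Bool × ℕ} (hp : p.2 ≤ m) (hq : q.2 ≤ m) (h : M.cR p = M.cR q) : p = q := by
  obtain ⟨h1, h2⟩ := M.Pinj (ren ty p).1 (ren ty p).2 (ren ty q).1 (ren ty q).2
    (ren_le ty M.hm p hp) (ren_le ty M.hm q hq) h
  rw [← ren_ren ty p, ← ren_ren ty q, Prod.ext h1 h2]

theorem cR_ext {g h : Perm Ω} (h1 : ∀ p : Bool × ℕ, p.2 ≤ m → g (M.cR p) = h (M.cR p))
    (h2 : ∀ x, (∀ s j, j ≤ m → x ≠ M.P (s, j)) → g x = x)
    (h3 : ∀ x, (∀ s j, j ≤ m → x ≠ M.P (s, j)) → h x = x) : g = h := by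
  ext x
  by_cases hx : ∀ s j, j ≤ m → x ≠ M.P (s, j)
  · rw [h2 x hx, h3 x hx]
  · push Not at hx
    obtain ⟨s, j, hj, rfl⟩ := hx
    have := h1 (ren ty (s, j)) (ren_le ty M.hm _ hj)
    unfold cR at this
    rwa [ren_ren] at this

theorem cR_out {I : Set ℕ} (hI : ∀ i ∈ I, i < m) :
    ∀ g ∈ Gen M.ρ I, ∀ x, (∀ s j, j ≤ m → x ≠ M.P (s, j)) → g x = x := by
  refine gen_ind M.ρ M.cR_mul I _ (fun _ _ => rfl) fun i hi g hg x hx => ?_
  rw [Perm.mul_apply, hg x hx, M.out i (hI i hi) x hx]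

/-- `g` acts on both sides as `π` -/
def cDiag (g : Perm Ω) (π : Perm ℕ) : Prop :=
  ∀ s j, j ≤ m → π j ≤ m ∧ g (M.cR (s, j)) = M.cR (s, π j)

theorem cDiag_mul (h : ty ≤ 1) {i : ℕ} (hi : 1 ≤ i) (him : i < m) {g : Perm Ω} {π : Perm ℕ}
    (hg : M.cDiag g π) : M.cDiag (M.ρ i * g) (t i * π) := by
  intro s j hj
  obtain ⟨h1, h2⟩ := hg s j hj
  have e1 : tau ty i (s, π j) = (s, t i (π j)) := if_neg (by omega)
  have h3 := tau_le ty him (s, π j) h1
  rw [e1] at h3
  refine ⟨h3, ?_⟩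
  rw [Perm.mul_apply, h2, M.cR_act h him _ h1, e1, Perm.mul_apply]

theorem cDiag_of (h : ty ≤ 1) {I : Set ℕ} (hI : ∀ i ∈ I, 1 ≤ i ∧ i < m) :
    ∀ g ∈ Gen M.ρ I, ∃ π ∈ Gen t I, M.cDiag g π ∧ ∀ j, m < j → π j = j := by
  refine gen_ind M.ρ M.cR_mul I _ ⟨1, Subgroup.one_mem _, fun s j hj => ⟨hj, rfl⟩,
    fun _ _ => rfl⟩ ?_
  rintro i hi g ⟨π, hπ, h1, h2⟩
  refine ⟨t i * π, Subgroup.mul_mem _ (gen_mem t hi) hπ,
    M.cDiag_mul h (hI i hi).1 (hI i hi).2 h1, fun j hj => ?_⟩
  have := hI i hi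
  rw [Perm.mul_apply, h2 j hj, t_apply]
  split_ifs <;> omega

theorem of_cDiag (h : ty ≤ 1) {I : Set ℕ} (hI : ∀ i ∈ I, 1 ≤ i ∧ i < m) :
    ∀ π ∈ Gen t I, ∃ g ∈ Gen M.ρ I, M.cDiag g π := by
  refine gen_ind t t_mul I _ ⟨1, Subgroup.one_mem _, fun s j hj => ⟨hj, rfl⟩⟩ ?_
  rintro i hi π ⟨g, hg, h1⟩
  exact ⟨M.ρ i * g, Subgroup.mul_mem _ (gen_mem M.ρ hi) hg,
    M.cDiag_mul h (hI i hi).1 (hI i hi).2 h1⟩

theorem cLow (h : ty ≤ 1) {l : ℕ} (hl : l < m) :
    ∀ g ∈ Gen M.ρ (Set.Iic l), ∃ γ : Bool × ℕ → Bool × ℕ,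
      (∀ p : Bool × ℕ, p.2 ≤ m → (γ p).2 ≤ m ∧ g (M.cR p) = M.cR (γ p)) ∧
      (∀ p : Bool × ℕ, γ (!p.1, p.2) = (!(γ p).1, (γ p).2)) ∧
      (∀ p : Bool × ℕ, l + 1 < p.2 → γ p = p) ∧
      (l ≤ 2 → ∃ a : Bool, ∀ p : Bool × ℕ, p.2 ≤ 3 →
        (γ p).2 ≤ 3 ∧ f ty (γ p) = xor (f ty p) a) := by
  have hm := M.hm
  refine gen_ind M.ρ M.cR_mul _ _ ⟨id, fun p hp => ⟨hp, rfl⟩, fun _ => rfl, fun _ _ => rfl,
    fun _ => ⟨false, fun p hp => ⟨hp, by simp⟩⟩⟩ ?_
  rintro i hi g ⟨γ, h1, h2, h3, h4⟩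
  have hi' : i ≤ l := hi
  refine ⟨fun p => tau ty i (γ p), fun p hp => ?_, fun p => ?_, fun p hp => ?_, fun hl2 => ?_⟩
  · obtain ⟨a1, a2⟩ := h1 p hp
    refine ⟨tau_le ty (by omega) _ a1, ?_⟩
    rw [Perm.mul_apply, a2, M.cR_act h (by omega) _ a1]
  · simp only
    rw [h2, tau_flip]
  · simp only
    rw [h3 p hp, tau_fix ty i p (by omega)]
  · obtain ⟨a, ha⟩ := h4 hl2
    refine ⟨xor a (decide (i = 2)), fun p hp => ?_⟩
    obtain ⟨a1, a2⟩ := ha p hp
    refine ⟨tau_le ty (by omega) _ a1, ?_⟩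
    simp only
    rw [f_tau ty (by omega) _ a1, a2, Bool.xor_assoc]

theorem halfIP_core (h : ty ≤ 1) : M.HalfIP := by
  intro k l hk hkm hlm g hg η hη hgη
  have hm := M.hm
  have hI : ∀ i ∈ Set.Icc k (m - 1), 1 ≤ i ∧ i < m := fun i hi => by
    have := hi.1
    have := hi.2
    omega
  have hJ : ∀ i ∈ Set.Icc k l, 1 ≤ i ∧ i < m := fun i hi => by
    have := hi.1
    have := hi.2
    omega
  obtain ⟨π, hπ, hd, hfix⟩ := M.cDiag_of h hI η hη
  obtain ⟨γ, h1, h2, h3, h4⟩ := M.cLow h hlm g hg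
  have hQ : ∀ j, j ≤ m → γ (true, j) = (true, π j) := by
    intro j hj
    have e1 : g (M.cR (true, j)) = η (M.cR (true, j)) := by
      refine hgη (ren ty (true, j)).1 (ren ty (true, j)).2 (ren_le ty hm _ hj) ?_
      rintro ⟨u, hu, hu'⟩
      obtain ⟨π', -, hd', -⟩ := M.cDiag_of h hI u hu
      obtain ⟨b1, b2⟩ := hd' false m le_rfl
      have e2 : M.cR (false, m) = M.P (false, m) := by
        unfold cR
        rw [ren_top ty hm]
      rw [e2, hu'] at b2
      have := M.cR_inj (p := (true, j)) (q := (false, π' m)) hj b1 b2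
      simp at this
    obtain ⟨a1, a2⟩ := h1 (true, j) hj
    obtain ⟨b1, b2⟩ := hd true j hj
    exact M.cR_inj a1 b1 (a2.symm.trans (e1.trans b2))
  have hall : ∀ s j, j ≤ m → γ (s, j) = (s, π j) := by
    intro s j hj
    cases s with
    | true => exact hQ j hj
    | false =>
      have := h2 (true, j)
      rw [hQ j hj] at this
      exact this
  have hπ' : π ∈ Gen t (Set.Icc k l) := by
    refine pos_ip hk (fun i hi => hi.1) π hπ (fun j hj => ?_) fun hl2 => ?_
    · by_cases hjm : j ≤ m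
      · have := h3 (true, j) hj
        rw [hQ j hjm] at this
        exact (Prod.ext_iff.mp this).2
      · exact hfix j (by omega)
    · obtain ⟨a, ha⟩ := h4 hl2
      refine ⟨a, fun j hj => ?_⟩
      have := (ha (false, j) hj).2
      rw [hall false j (by omega)] at this
      unfold f at this
      split_ifs at this
      · exact this
      · simpa using this
  obtain ⟨g', hg', hd'⟩ := M.of_cDiag h hJ π hπ'
  have : g = g' := by
    refine M.cR_ext (fun p hp => ?_) (M.cR_out (fun i hi => ?_) g hg)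
      (M.cR_out (fun i hi => (hJ i hi).2) g' hg')
    · obtain ⟨s, j⟩ := p
      rw [(h1 (s, j) hp).2, hall s j hp, (hd' s j hp).2]
    · exact lt_of_le_of_lt hi hlm
  rw [this]
  exact hg'

end Mod
end D145
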