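import Mathlib

/-! String C-groups: the notions of the problem. -/

namespace D145

/-- `ρ 0, …, ρ (r-1)` are involutions generating `G`, non-adjacent ones commute, and the
intersection property holds. -/
def IsStringC {G : Type} [Group G] {r : ℕ} (ρ : Fin r → G) : Prop :=
  (∀ i, ρ i ≠ 1 ∧ ρ i ^ 2 = 1) ∧
  (∀ i j : Fin r, (i : ℕ) + 2 ≤ (j : ℕ) → (ρ i * ρ j) ^ 2 = 1) ∧
  Subgroup.closure (Set.range ρ) = ⊤ ∧
  ∀ I J : Set (Fin r),
    Subgroup.closure (ρ '' I) ⊓ Subgroup.closure (ρ '' J) = Subgroup.closure (ρ '' (I ∩ J))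

/-- some automorphism sends `ρ i` to `ρ (r-1-i)` -/
def SelfDual {G : Type} [Group G] {r : ℕ} (ρ : Fin r → G) : Prop :=
  ∃ φ : G ≃* G, ∀ i, φ (ρ i) = ρ i.rev

/-- a self-dual string C-group of rank `r` whose group is isomorphic to `A_n` -/
structure SDA (n r : ℕ) where
  G : Type
  [grp : Group G]
  ρ : Fin r → G
  isC : IsStringC ρ
  sd : SelfDual ρ
  alt : Nonempty (G ≃* alternatingGroup (Fin n))

/-- isomorphism of string C-groups -/
def SDA.Iso {n r : ℕ} (A B : SDA n r) : Prop :=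
  letI := A.grp
  letI := B.grp
  ∃ φ : A.G ≃* B.G, ∀ i, φ (A.ρ i) = B.ρ i

/-- number of isomorphism classes -/
noncomputable def N (n r : ℕ) : ℕ∞ := ENat.card (Quot (SDA.Iso (n := n) (r := r)))

end D145
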