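import Pool.Agent.MP_d145c0_al.H75.Shape
import Pool.Agent.MP_d145c0_al.H75.Stmt

/-! The models as permutations. -/

namespace D145
open Equiv Finset

/-- two copies of the model `ty` glued at the point `P (false, m)` -/
structure Mod (Ω : Type) [Fintype Ω] [DecidableEq Ω] (m ty : ℕ) where
  ρ : ℕ → Perm Ω
  δ : Perm Ω
  P : Bool × ℕ → Ω
  hm : 3 ≤ m
  hty : ty ∈ types m
  card : Fintype.card Ω = 4 * m + 3
  triv : ∀ i, 2 * m ≤ i → ρ i = 1
  inv : ∀ i x, ρ i (ρ i x) = x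
  comm : ∀ i j, i + 2 ≤ j → ∀ x, ρ i (ρ j x) = ρ j (ρ i x)
  even : ∀ i, Perm.sign (ρ i) = 1
  dinv : ∀ x, δ (δ x) = x
  dual : ∀ i, i < 2 * m → ∀ x, δ (ρ i x) = ρ (2 * m - 1 - i) (δ x)
  Pinj : ∀ s j s' j', j ≤ m → j' ≤ m → P (s, j) = P (s', j') → s = s' ∧ j = j'
  act : ∀ i < m, ∀ s j, j ≤ m → ρ i (P (s, j)) = P (sig ty i (s, j))
  out : ∀ i < m, ∀ x, (∀ s j, j ≤ m → x ≠ P (s, j)) → ρ i x = x
  cover : ∀ x, (∃ s j, j ≤ m ∧ x = P (s, j)) ∨ (∃ s j, j ≤ m ∧ δ x = P (s, j))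
  mid : δ (P (false, m)) = P (false, m)
  sep : ∀ s j s' j', j ≤ m → j' ≤ m → δ (P (s, j)) = P (s', j') → s = false ∧ j = m

namespace Mod
variable {Ω : Type} [Fintype Ω] [DecidableEq Ω] {m ty : ℕ} (M : Mod Ω m ty)

/-- the intersection property inside one half: `g` generated by labels `≤ l < m` and agreeing,
outside the orbit of the glued point under the labels `k .. m-1`, with an element generated by
these labels, is generated by the labels `k .. l` -/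
def HalfIP : Prop :=
  ∀ k l, 1 ≤ k → k < m → l < m → ∀ g ∈ Gen M.ρ (Set.Iic l), ∀ h ∈ Gen M.ρ (Set.Icc k (m - 1)),
    (∀ s j, j ≤ m →
      (¬ ∃ u ∈ Gen M.ρ (Set.Icc k (m - 1)), u (M.P (false, m)) = M.P (s, j)) →
        g (M.P (s, j)) = h (M.P (s, j))) →
    g ∈ Gen M.ρ (Set.Icc k l)

end Mod
end D145
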