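import Pool.Agent.MP_d145c0_al.H75.Defs

/-! The intersection property for intervals implies the full intersection property. -/

namespace D145
open Equiv Finset

namespace Full
variable {Γ : Type} [Group Γ] {ρ : ℕ → Γ}

theorem mono {I J : Set ℕ} {g : Γ} (hg : g ∈ Subgroup.closure (ρ '' I)) (h : I ⊆ J) :
    g ∈ Subgroup.closure (ρ '' J) := Subgroup.closure_mono (Set.image_mono h) hg

theorem com (comm : ∀ i j, i + 2 ≤ j → ρ i * ρ j = ρ j * ρ i) {i : ℕ} {g h : Γ}
    (hg : g ∈ Subgroup.closure (ρ '' Set.Iio i)) (hh : h ∈ Subgroup.closure (ρ '' Set.Ioi i)) :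
    Commute g h := by
  induction hh using Subgroup.closure_induction with
  | mem y hy =>
    induction hg using Subgroup.closure_induction with
    | mem x hx =>
      obtain ⟨j, hj, rfl⟩ := hx
      obtain ⟨k, hk, rfl⟩ := hy
      exact comm j k (by have : j < i := hj; have : i < k := hk; omega)
    | one => exact Commute.one_left _
    | mul _ _ _ _ h1 h2 => exact h1.mul_left h2
    | inv _ _ h1 => exact h1.inv_left
  | one => exact Commute.one_right _
  | mul _ _ _ _ h1 h2 => exact h1.mul_right h2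
  | inv _ _ h1 => exact h1.inv_right

theorem split (comm : ∀ i j, i + 2 ≤ j → ρ i * ρ j = ρ j * ρ i) {I : Set ℕ} {i : ℕ} (hi : i ∉ I)
    {g : Γ} (hg : g ∈ Subgroup.closure (ρ '' I)) :
    ∃ a ∈ Subgroup.closure (ρ '' (I ∩ Set.Iio i)), ∃ b ∈ Subgroup.closure (ρ '' (I ∩ Set.Ioi i)),
      g = a * b := by
  induction hg using Subgroup.closure_induction with
  | mem x hx =>
    obtain ⟨k, hk, rfl⟩ := hx
    rcases lt_trichotomy k i with h | rfl | h
    · exact ⟨_, Subgroup.subset_closure ⟨k, ⟨hk, h⟩, rfl⟩, 1, one_mem _, (mul_one _).symm⟩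
    · exact absurd hk hi
    · exact ⟨1, one_mem _, _, Subgroup.subset_closure ⟨k, ⟨hk, h⟩, rfl⟩, (one_mul _).symm⟩
  | one => exact ⟨1, one_mem _, 1, one_mem _, (mul_one _).symm⟩
  | mul _ _ _ _ h1 h2 =>
    obtain ⟨a, ha, b, hb, rfl⟩ := h1
    obtain ⟨c, hc, d, hd, rfl⟩ := h2
    refine ⟨a * c, mul_mem ha hc, b * d, mul_mem hb hd, ?_⟩
    have := com comm (mono hc Set.inter_subset_right) (mono hb Set.inter_subset_right)
    rw [mul_assoc, mul_assoc, ← mul_assoc b, ← this.eq, mul_assoc]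
  | inv _ _ h1 =>
    obtain ⟨a, ha, b, hb, rfl⟩ := h1
    refine ⟨a⁻¹, inv_mem ha, b⁻¹, inv_mem hb, ?_⟩
    rw [(com comm (mono ha Set.inter_subset_right) (mono hb Set.inter_subset_right)).eq,
      mul_inv_rev]

theorem mid (ip : ∀ k l, Subgroup.closure (ρ '' Set.Iic l) ⊓ Subgroup.closure (ρ '' Set.Ici k) ≤
      Subgroup.closure (ρ '' Set.Icc k l)) {i j : ℕ} {g : Γ}
    (h1 : g ∈ Subgroup.closure (ρ '' Set.Iio j)) (h2 : g ∈ Subgroup.closure (ρ '' Set.Ioi i)) :
    g ∈ Subgroup.closure (ρ '' Set.Ioo i j) := by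
  rcases j with _ | j
  · exact mono h1 fun k hk => absurd hk (Nat.not_lt_zero k)
  · exact mono (ip (i + 1) j ⟨mono h1 fun k hk => Nat.le_of_lt_succ hk, mono h2 fun k hk => hk⟩)
      fun k hk => ⟨hk.1, Nat.lt_succ_of_le hk.2⟩

theorem main (comm : ∀ i j, i + 2 ≤ j → ρ i * ρ j = ρ j * ρ i)
    (ip : ∀ k l, Subgroup.closure (ρ '' Set.Iic l) ⊓ Subgroup.closure (ρ '' Set.Ici k) ≤
      Subgroup.closure (ρ '' Set.Icc k l)) (n : ℕ) :
    ∀ (a : ℕ) (I J : Set ℕ), I ⊆ Set.Ico a (a + n) → J ⊆ Set.Ico a (a + n) → ∀ g,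
      g ∈ Subgroup.closure (ρ '' I) → g ∈ Subgroup.closure (ρ '' J) →
        g ∈ Subgroup.closure (ρ '' (I ∩ J)) := by
  induction n with
  | zero => exact fun a I J hI _ g hg _ => mono hg fun k hk => by simpa using hI hk
  | succ n ih =>
    have key : ∀ (a : ℕ) (I J : Set ℕ), I ⊆ Set.Ico a (a + (n + 1)) →
        J ⊆ Set.Ico a (a + (n + 1)) → ∀ i j, a ≤ i → i ≤ j → j ≤ a + n → i ∉ I → j ∉ J → ∀ g,
        g ∈ Subgroup.closure (ρ '' I) → g ∈ Subgroup.closure (ρ '' J) →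
          g ∈ Subgroup.closure (ρ '' (I ∩ J)) := by
      intro a I J hI hJ i j h1 h2 h3 hi hj g hg hg'
      obtain ⟨g1, k1, g2, k2, e1⟩ := split comm hi hg
      obtain ⟨u1, k3, u2, k4, e2⟩ := split comm hj hg'
      have k5 : u1⁻¹ * g1 ∈ Subgroup.closure (ρ '' Set.Ioo i j) := by
        refine mid ip (mul_mem (inv_mem (mono k3 Set.inter_subset_right))
          (mono k1 fun k hk => lt_of_lt_of_le hk.2 h2)) ?_
        have : u1⁻¹ * g1 = u2 * g2⁻¹ := by
          rw [inv_mul_eq_iff_eq_mul, ← mul_assoc, ← e2, e1, mul_inv_cancel_right]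
        rw [this]
        exact mul_mem (mono k4 fun k hk => lt_of_le_of_lt h2 hk.2)
          (inv_mem (mono k2 Set.inter_subset_right))
      have k6 : u1 ∈ Subgroup.closure (ρ '' (I ∩ Set.Iio i ∪ Set.Ioo i j)) := by
        have := mul_mem (mono k1 (Set.subset_union_left (t := Set.Ioo i j)))
          (inv_mem (mono k5 Set.subset_union_right))
        simpa using this
      have k7 := ih a _ _ (fun k hk => ⟨(hJ hk.1).1, lt_of_lt_of_le hk.2 h3⟩) (by
        rintro k (hk | hk)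
        · exact ⟨(hI hk.1).1, lt_of_lt_of_le hk.2 (h2.trans h3)⟩
        · exact ⟨h1.trans hk.1.le, lt_of_lt_of_le hk.2 h3⟩) u1 k3 k6
      obtain ⟨a1, k8, a2, k9, e3⟩ := split comm (i := i) (by simp) k7
      have k10 : a1 ∈ Subgroup.closure (ρ '' (I ∩ J)) := mono k8 (by
        rintro k ⟨⟨hk, hk' | hk'⟩, hk2⟩
        · exact ⟨hk'.1, hk.1⟩
        · exact absurd hk'.1 (lt_asymm hk2))
      have k11 : a1⁻¹ * g ∈ Subgroup.closure (ρ '' (J ∩ Set.Ioi i)) := by
        rw [e2, e3, mul_assoc, inv_mul_cancel_left]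
        exact mul_mem (mono k9 fun k hk => ⟨hk.1.1.1, hk.2⟩)
          (mono k4 fun k hk => ⟨hk.1, lt_of_le_of_lt h2 hk.2⟩)
      have k12 : a1⁻¹ * g ∈ Subgroup.closure (ρ '' (I ∩ Set.Ioi i)) := by
        have : a1⁻¹ * g1 ∈ Subgroup.closure (ρ '' Set.Ioo i i) := by
          refine mid ip (mul_mem (inv_mem (mono k8 Set.inter_subset_right))
            (mono k1 Set.inter_subset_right)) ?_
          have e4 : a1⁻¹ * g1 = a1⁻¹ * g * g2⁻¹ := by rw [e1]; group
          rw [e4]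
          exact mul_mem (mono k11 Set.inter_subset_right) (inv_mem (mono k2 Set.inter_subset_right))
        rw [e1, ← mul_assoc]
        exact mul_mem (mono this (by simp)) k2
      have k13 := ih (a + 1) _ _
        (fun k hk => ⟨lt_of_le_of_lt h1 hk.2, by have := (hI hk.1).2; omega⟩)
        (fun k hk => ⟨lt_of_le_of_lt h1 hk.2, by have := (hJ hk.1).2; omega⟩) _ k12 k11
      simpa using mul_mem k10 (mono k13 fun k hk => ⟨hk.1.1, hk.2.1⟩)
    intro a I J hI hJ g hg hg'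
    by_cases h1 : Set.Ico a (a + (n + 1)) ⊆ I
    · exact mono hg' fun k hk => ⟨h1 (hJ hk), hk⟩
    by_cases h2 : Set.Ico a (a + (n + 1)) ⊆ J
    · exact mono hg fun k hk => ⟨hk, h2 (hI hk)⟩
    obtain ⟨i, ⟨i1, i2⟩, hi⟩ := Set.not_subset.1 h1
    obtain ⟨j, ⟨j1, j2⟩, hj⟩ := Set.not_subset.1 h2
    rcases le_total i j with h | h
    · exact key a I J hI hJ i j i1 h (by omega) hi hj g hg hg'
    · rw [Set.inter_comm]
      exact key a J I hJ hI j i j1 h (by omega) hj hi g hg' hg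

theorem cut {r : ℕ} (triv : ∀ i, r ≤ i → ρ i = 1) (I : Set ℕ) :
    Subgroup.closure (ρ '' I) ≤ Subgroup.closure (ρ '' (I ∩ Set.Iio r)) := by
  rw [Subgroup.closure_le]
  rintro _ ⟨k, hk, rfl⟩
  rcases lt_or_ge k r with h | h
  · exact Subgroup.subset_closure ⟨k, ⟨hk, h⟩, rfl⟩
  · rw [triv k h]
    exact one_mem _

end Full

theorem full_ip {Γ : Type} [Group Γ] (ρ : ℕ → Γ) (r : ℕ) (triv : ∀ i, r ≤ i → ρ i = 1)
    (comm : ∀ i j, i + 2 ≤ j → ρ i * ρ j = ρ j * ρ i)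
    (ip : ∀ k l, Subgroup.closure (ρ '' Set.Iic l) ⊓ Subgroup.closure (ρ '' Set.Ici k) ≤
      Subgroup.closure (ρ '' Set.Icc k l)) (I J : Set ℕ) :
    Subgroup.closure (ρ '' I) ⊓ Subgroup.closure (ρ '' J) = Subgroup.closure (ρ '' (I ∩ J)) := by
  refine le_antisymm (fun g hg => ?_) fun g hg =>
    ⟨Full.mono hg Set.inter_subset_left, Full.mono hg Set.inter_subset_right⟩
  exact Full.mono (Full.main comm ip r 0 _ _ (fun k hk => ⟨Nat.zero_le _, by simpa using hk.2⟩)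
    (fun k hk => ⟨Nat.zero_le _, by simpa using hk.2⟩) g (Full.cut triv I hg.1)
    (Full.cut triv J hg.2)) fun k hk => ⟨hk.1.1, hk.2.1⟩

end D145
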