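import Pool.Agent.MP_d145c0_al.H75.LBDefs

/-! Generation and reduction of the intersection property to one half. -/

namespace D145
open Equiv Finset
namespace Mod
variable {Ω : Type} [Fintype Ω] [DecidableEq Ω] {m ty : ℕ} (M : Mod Ω m ty)

theorem gl_mem {I : Set ℕ} {i : ℕ} (h : i ∈ I) : M.ρ i ∈ Gen M.ρ I :=
  Subgroup.subset_closure ⟨i, h, rfl⟩

theorem gl_mono {I J : Set ℕ} (h : I ⊆ J) : Gen M.ρ I ≤ Gen M.ρ J :=
  Subgroup.closure_mono (Set.image_mono h)

theorem gl_ind {I : Set ℕ} {Q : Perm Ω → Prop} (h1 : Q 1)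
    (hs : ∀ i ∈ I, ∀ g, Q g → Q (M.ρ i * g)) {g : Perm Ω} (hg : g ∈ Gen M.ρ I) : Q g := by
  induction hg using Subgroup.closure_induction_left with
  | one => exact h1
  | mul_left x hx y hy ih => obtain ⟨i, hi, rfl⟩ := hx; exact hs i hi y ih
  | inv_mul_cancel x hx y hy ih =>
    obtain ⟨i, hi, rfl⟩ := hx
    rw [show (M.ρ i)⁻¹ = M.ρ i from inv_eq_of_mul_eq_one_right (Equiv.ext (M.inv i))]
    exact hs i hi y ih

theorem gl_sign {I : Set ℕ} {g : Perm Ω} (hg : g ∈ Gen M.ρ I) : Perm.sign g = 1 :=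
  M.gl_ind (Q := fun g => Perm.sign g = 1) (by simp) (fun i _ g h => by simp [M.even, h]) hg

theorem gl_pres {I : Set ℕ} {U : Ω → Prop} (hU : ∀ i ∈ I, ∀ z, U z → U (M.ρ i z)) {g : Perm Ω}
    (hg : g ∈ Gen M.ρ I) {x : Ω} (hx : U x) : U (g x) :=
  M.gl_ind (Q := fun g => U (g x)) hx (fun i hi _ h => hU i hi _ h) hg

theorem gl_fix {I : Set ℕ} {x : Ω} (hx : ∀ i ∈ I, M.ρ i x = x) {g : Perm Ω}
    (hg : g ∈ Gen M.ρ I) : g x = x :=
  M.gl_pres (U := fun z => z = x) (fun i hi _ hz => hz ▸ hx i hi) hg rfl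

theorem gl_dual {I J : Set ℕ} (hJ : ∀ i ∈ I, i < 2 * m → 2 * m - 1 - i ∈ J) {g : Perm Ω}
    (hg : g ∈ Gen M.ρ I) : M.δ * g * M.δ ∈ Gen M.ρ J := by
  refine M.gl_ind (Q := fun g => M.δ * g * M.δ ∈ Gen M.ρ J) ?_ ?_ hg
  · have : M.δ * 1 * M.δ = 1 := by ext x; simp [M.dinv]
    rw [this]; exact one_mem _
  · intro i hi g h
    by_cases h2 : i < 2 * m
    · have : M.δ * (M.ρ i * g) * M.δ = M.ρ (2 * m - 1 - i) * (M.δ * g * M.δ) := by
        ext x; simp [M.dual i h2]
      rw [this]; exact mul_mem (M.gl_mem (hJ i hi h2)) h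
    · rw [M.triv i (by omega), one_mul]; exact h

/-- the points of the half -/
def Hf (x : Ω) : Prop := ∃ s j, j ≤ m ∧ x = M.P (s, j)

/-- the orbit of the glued point -/
def Rv (I : Set ℕ) (x : Ω) : Prop := ∃ u ∈ Gen M.ρ I, u (M.P (false, m)) = x

theorem sig_up {s : Bool} {j : ℕ} (h : s = false ∨ ¬(ty = 0 ∧ j = 1)) :
    sig ty j (s, j) = (s, j + 1) := by
  unfold sig
  split_ifs <;> simp_all

theorem low_out {i : ℕ} (hi : i < m) {x : Ω} (hx : ¬M.Hf x) : M.ρ i x = x :=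
  M.out i hi x fun s j hj e => hx ⟨s, j, hj, e⟩

theorem low_pres {i : ℕ} (hi : i < m) {x : Ω} (hx : M.Hf x) : M.Hf (M.ρ i x) := by
  by_contra hn
  have := M.low_out hi hn
  rw [M.inv] at this
  exact hn (this ▸ hx)

theorem high_fix {i : ℕ} (hi : m ≤ i) {x : Ω} (hx : M.Hf x) (hv : x ≠ M.P (false, m)) :
    M.ρ i x = x := by
  by_cases h2 : i < 2 * m
  · obtain ⟨s, j, hj, rfl⟩ := hx
    refine M.δ.injective ?_
    rw [M.dual i h2]
    refine M.low_out (by omega) fun ⟨s', j', hj', e⟩ => hv ?_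
    obtain ⟨rfl, rfl⟩ := M.sep s j s' j' hj hj' e
    rfl
  · rw [M.triv i (by omega)]; rfl

theorem up {s : Bool} {j : ℕ} (hj : j < m) (h : s = false ∨ ¬(ty = 0 ∧ j = 1)) :
    M.ρ j (M.P (s, j)) = M.P (s, j + 1) := by rw [M.act j hj s j hj.le, sig_up h]

theorem mv_low {i : ℕ} (hi : i < m) : M.ρ i (M.P (false, i + 1)) ≠ M.P (false, i + 1) := by
  intro e
  rw [← M.up hi (.inl rfl), M.inv, M.up hi (.inl rfl)] at e
  have := (M.Pinj _ _ _ _ hi.le hi e).2
  omega

theorem ne_one {i : ℕ} (hi : i < 2 * m) : M.ρ i ≠ 1 := by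
  intro e
  by_cases h : i < m
  · exact M.mv_low h (by rw [e]; rfl)
  · refine M.mv_low (i := 2 * m - 1 - i) (by omega) (M.δ.injective ?_)
    rw [M.dual _ (by omega), show 2 * m - 1 - (2 * m - 1 - i) = i by omega, e]
    rfl

variable {M} in
theorem Rv.step {I : Set ℕ} {x : Ω} (h : M.Rv I x) {g : Perm Ω} (hg : g ∈ Gen M.ρ I) :
    M.Rv I (g x) := by
  obtain ⟨u, hu, rfl⟩ := h
  exact ⟨g * u, mul_mem hg hu, rfl⟩

theorem Rv_refl (I : Set ℕ) : M.Rv I (M.P (false, m)) := ⟨1, one_mem _, rfl⟩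

variable {M} in
theorem Rv.dual {I J : Set ℕ} {x : Ω} (h : M.Rv I x)
    (hJ : ∀ i ∈ I, i < 2 * m → 2 * m - 1 - i ∈ J) : M.Rv J (M.δ x) := by
  obtain ⟨u, hu, rfl⟩ := h
  exact ⟨_, M.gl_dual hJ hu, by simp [M.mid]⟩

theorem alt_orb {I : Set ℕ} (h1 : m - 1 ∈ I) (h2 : m ∈ I) :
    AltIn (Gen M.ρ I) {w | M.Rv I w} := by
  have hm := M.hm
  have hv : M.Hf (M.P (false, m)) := ⟨false, m, le_rfl, rfl⟩
  have a1 : M.ρ (m - 1) (M.P (false, m)) ≠ M.P (false, m) := by
    have := M.mv_low (i := m - 1) (by omega)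
    rwa [show m - 1 + 1 = m by omega] at this
  have a2 : M.ρ m (M.P (false, m)) ≠ M.P (false, m) := fun e => a1 (by
    have := congrArg M.δ e
    rwa [M.dual m (by omega), M.mid, show 2 * m - 1 - m = m - 1 by omega] at this)
  have a3 : ¬M.Hf (M.ρ m (M.P (false, m))) := fun e => a2 (by
    have := M.high_fix le_rfl e a2
    rw [M.inv] at this
    exact this.symm)
  obtain ⟨t1, t2⟩ := tri_comm (M.gl_mem h1) (M.gl_mem h2) a1 a2 fun y hy => by
    by_cases e : M.Hf y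
    exacts [.inr (M.high_fix le_rfl e hy), .inl (M.low_out (by omega) e)]
  obtain ⟨Δ, d1, d2, d3, hA, hb⟩ := t1.cls a1.symm t2 a2.symm
  refine hA.mono le_rfl ?_
  rintro _ ⟨u, hu, rfl⟩
  refine M.gl_pres (U := fun z => z ∈ Δ) (fun i hi z hz => ?_) hu d1
  by_cases e : i < m
  · exact hb _ (M.gl_mem hi) _ d3 (by rwa [M.low_out e a3]) z hz
  · exact hb _ (M.gl_mem hi) _ d2
      (by rwa [M.high_fix (by omega) (M.low_pres (by omega) hv) a1]) z hz

theorem reach (x : Ω) : M.Rv Set.univ x := by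
  have hm := M.hm
  have st : ∀ i z, M.Rv Set.univ z → M.Rv Set.univ (M.ρ i z) := fun i z hz =>
    hz.step (M.gl_mem trivial)
  have hF : ∀ j ≤ m, M.Rv Set.univ (M.P (false, j)) := by
    intro j hj
    induction hj using Nat.decreasingInduction with
    | self => exact M.Rv_refl _
    | of_succ i hi ih =>
      have := st i _ ih
      rwa [← M.up hi (.inl rfl), M.inv] at this
  have link : ∀ i < m, ∀ j ≤ m, ∀ j', sig ty i (false, j) = (true, j') →
      M.Rv Set.univ (M.P (true, j')) := fun i hi j hj j' e => by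
    rw [← e, ← M.act i hi _ j hj]
    exact st i _ (hF j hj)
  have hT : ∀ j ≤ m, M.Rv Set.univ (M.P (true, j)) := by
    intro j
    induction j with
    | zero =>
      intro _
      have h1 : ty < m := mem_range.1 (mem_filter.1 M.hty).1
      by_cases e : ty = 1
      · exact link 2 (by omega) 1 (by omega) 0 (by simp [sig, e])
      · refine link (max ty 2) (by omega) 0 (by omega) 0 ?_
        have h2 : ¬(ty = 0 ∧ max ty 2 = 1) := by omega
        have h3 : ¬0 = max ty 2 := by omega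
        have h4 : 0 < max ty 2 := by omega
        simp only [sig, if_neg h2, if_neg h3, e, h4]
        simp
    | succ j ih =>
      intro hj
      by_cases e : ty = 0 ∧ j = 1
      · obtain ⟨e, rfl⟩ := e
        exact link 1 (by omega) 0 (by omega) 2 (by simp [sig, e])
      · rw [← M.up hj (.inr e)]
        exact st j _ (ih (by omega))
  have hH : ∀ z, M.Hf z → M.Rv Set.univ z := by
    rintro _ ⟨_ | _, j, hj, rfl⟩
    exacts [hF j hj, hT j hj]
  rcases M.cover x with h | h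
  · exact hH x h
  · rw [← M.dinv x]
    exact (hH _ h).dual fun _ _ _ => trivial

theorem gen : Subgroup.closure (Set.range M.ρ) = alternatingGroup Ω := by
  rw [← Set.image_univ]
  exact le_antisymm (fun g hg => Perm.mem_alternatingGroup.2 (M.gl_sign hg)) fun g hg =>
    M.alt_orb (I := Set.univ) trivial trivial g (Perm.mem_alternatingGroup.1 hg)
      fun x hx => absurd (M.reach x) hx

/-- away from the orbit of the glued point only the low labels act on the half -/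
theorem low_part {k : ℕ} {g : Perm Ω} (hg : g ∈ Gen M.ρ (Set.Ici k)) :
    ∃ h ∈ Gen M.ρ (Set.Icc k (m - 1)), ∀ x, M.Hf x → ¬M.Rv (Set.Icc k (m - 1)) x → g x = h x := by
  have hm := M.hm
  refine M.gl_ind (Q := fun g => ∃ h ∈ Gen M.ρ (Set.Icc k (m - 1)),
    ∀ x, M.Hf x → ¬M.Rv (Set.Icc k (m - 1)) x → g x = h x) ⟨1, one_mem _, fun _ _ _ => rfl⟩ ?_ hg
  rintro i hi g ⟨h, h1, h2⟩
  by_cases e : i < m
  · exact ⟨M.ρ i * h, mul_mem (M.gl_mem ⟨hi, by omega⟩) h1, fun x a b => by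
      rw [Perm.mul_apply, Perm.mul_apply, h2 x a b]⟩
  · refine ⟨h, h1, fun x a b => ?_⟩
    rw [Perm.mul_apply, h2 x a b]
    refine M.high_fix (by omega)
      (M.gl_pres (fun j hj z hz => M.low_pres (by have := hj.2; omega) hz) h1 a) fun c => b ?_
    exact ⟨h⁻¹, inv_mem h1, by rw [← c]; simp⟩

theorem ip_low (h : M.HalfIP) {k l : ℕ} (h1 : 1 ≤ k) (h2 : k < m) (h3 : l < m) {g : Perm Ω}
    (a : g ∈ Gen M.ρ (Set.Iic l)) (b : g ∈ Gen M.ρ (Set.Ici k)) :
    g ∈ Gen M.ρ (Set.Icc k l) := by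
  obtain ⟨u, u1, u2⟩ := M.low_part b
  exact h k l h1 h2 h3 g a u u1 fun s j hj hn => u2 _ ⟨s, j, hj, rfl⟩ hn

theorem dd (g : Perm Ω) : M.δ * (M.δ * g * M.δ) * M.δ = g := by ext x; simp [M.dinv]

theorem ip (h : M.HalfIP) (k l : ℕ) :
    Gen M.ρ (Set.Iic l) ⊓ Gen M.ρ (Set.Ici k) ≤ Gen M.ρ (Set.Icc k l) := by
  rintro g ⟨a, b⟩
  have hm := M.hm
  by_cases k0 : k = 0
  · exact M.gl_mono (fun i hi => Set.mem_Icc.2 ⟨by omega, hi⟩) a
  by_cases l0 : 2 * m ≤ l + 1 ∨ 2 * m ≤ k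
  · refine M.gl_ind (Q := fun g => g ∈ Gen M.ρ (Set.Icc k l)) (one_mem _) (fun i hi g hg => ?_) b
    by_cases e : i < 2 * m
    · exact mul_mem (M.gl_mem ⟨hi, by have : k ≤ i := hi; omega⟩) hg
    · rwa [M.triv i (by omega), one_mul]
  have a' : M.δ * g * M.δ ∈ Gen M.ρ (Set.Ici (2 * m - 1 - l)) :=
    M.gl_dual (fun i hi _ => by have : i ≤ l := hi; rw [Set.mem_Ici]; omega) a
  by_cases k1 : k < m <;> by_cases l1 : l < m
  · exact M.ip_low h (by omega) k1 l1 a b
  · obtain ⟨u, u1, u2⟩ := M.low_part b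
    obtain ⟨w, w1, w2⟩ := M.low_part a'
    have w3 : M.δ * w * M.δ ∈ Gen M.ρ (Set.Icc m l) :=
      M.gl_dual (fun i hi _ => by have := hi.1; have := hi.2; rw [Set.mem_Icc]; omega) w1
    have s1 : Set.Icc k (m - 1) ⊆ Set.Icc k l := Set.Icc_subset_Icc le_rfl (by omega)
    have s2 : Set.Icc m l ⊆ Set.Icc k l := Set.Icc_subset_Icc k1.le le_rfl
    have uw := mul_mem (M.gl_mono s1 u1) (M.gl_mono s2 w3)
    have key : (u * (M.δ * w * M.δ))⁻¹ * g ∈ Gen M.ρ (Set.Icc k l) := by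
      refine M.alt_orb (I := Set.Icc k l) ⟨by omega, by omega⟩ ⟨by omega, by omega⟩ _
        (by rw [Perm.sign_mul, M.gl_sign (inv_mem uw), M.gl_sign a, one_mul]) fun x hx => ?_
      rw [Perm.mul_apply, Perm.inv_eq_iff_eq, Perm.mul_apply]
      have fx : ∀ y, M.Hf y → y ≠ M.P (false, m) → (M.δ * w * M.δ) y = y := fun y y1 y2 =>
        M.gl_fix (fun i hi => M.high_fix hi.1 y1 y2) w3
      by_cases e : M.Hf x
      · rw [fx x e fun c => hx (c ▸ M.Rv_refl _)]
        exact u2 x e fun ⟨t, t1, t2⟩ => hx ⟨t, M.gl_mono s1 t1, t2⟩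
      · have e1 : g x = (M.δ * w * M.δ) x := by
          have := w2 (M.δ x) ((M.cover x).resolve_left e) fun c => hx (by
            rw [← M.dinv x]
            exact c.dual fun i hi _ => by
              have := hi.1; have := hi.2; rw [Set.mem_Icc]; omega)
          simp only [Perm.mul_apply, M.dinv] at this ⊢
          rw [← this, M.dinv]
        rw [e1]
        refine (M.gl_fix (fun i hi => M.low_out (by have := hi.2; omega) fun c => ?_) u1).symm
        by_cases e2 : (M.δ * w * M.δ) x = M.P (false, m)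
        · exact hx ⟨_, inv_mem (M.gl_mono s2 w3), by rw [← e2]; exact Perm.inv_eq_iff_eq.2 rfl⟩
        · exact e ((M.δ * w * M.δ).injective (fx _ c e2) ▸ c)
    have := mul_mem uw key
    rwa [mul_inv_cancel_left] at this
  · have f : ∀ x, x ≠ M.P (false, m) → g x = x := fun x hx => by
      by_cases e : M.Hf x
      · exact M.gl_fix (fun i hi => M.high_fix (by have : k ≤ i := hi; omega) e hx) b
      · exact M.gl_fix (fun i hi => M.low_out (by have : i ≤ l := hi; omega) e) a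
    have : g = 1 := Equiv.ext fun x => by
      by_contra hn
      by_cases e : x = M.P (false, m)
      · exact hn (g.injective (f _ (e ▸ hn)))
      · exact hn (f x e)
    rw [this]
    exact one_mem _
  · have b' : M.δ * g * M.δ ∈ Gen M.ρ (Set.Iic (2 * m - 1 - k)) :=
      M.gl_dual (fun i hi _ => by have : k ≤ i := hi; rw [Set.mem_Iic]; omega) b
    rw [← M.dd g]
    exact M.gl_dual (fun i hi _ => by have := hi.1; have := hi.2; rw [Set.mem_Icc]; omega)
      (M.ip_low h (by omega) (by omega) (by omega) b' a')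

end Mod
end D145
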