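import Pool.Agent.MP_d145c0_al.H75.LBDefs

/-! The intersection property for the ladders. -/

namespace D145
open Equiv Finset

namespace LadX

/-- change the side if `e = 1` -/
def fl (s : Bool) (e : ZMod 2) : Bool := xor s (decide (e = 1))

theorem fl_zero (s : Bool) : fl s 0 = s := by revert s; decide
theorem fl_one (s : Bool) : fl s 1 = !s := by revert s; decide
theorem fl_fl (s : Bool) (a b : ZMod 2) : fl (fl s a) b = fl s (a + b) := by
  revert s a b; decide
theorem fl_inj {s : Bool} {a b : ZMod 2} : fl s a = fl s b → a = b := by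
  revert s a b; decide
theorem two_cases (a : ZMod 2) : a = 0 ∨ a = 1 := by revert a; decide
theorem add_self (a : ZMod 2) : a + a = 0 := by revert a; decide

/-- elements of the wreath product -/
def wr (π : Perm ℕ) (ε : ℕ → ZMod 2) : Perm (Bool × ℕ) where
  toFun p := (fl p.1 (ε p.2), π p.2)
  invFun p := (fl p.1 (ε (π.symm p.2)), π.symm p.2)
  left_inv p := by simp [fl_fl, add_self, fl_zero]
  right_inv p := by simp [fl_fl, add_self, fl_zero]

theorem wr_apply (π : Perm ℕ) (ε : ℕ → ZMod 2) (s : Bool) (j : ℕ) :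
    wr π ε (s, j) = (fl s (ε j), π j) := rfl

theorem wr_mul (π π' : Perm ℕ) (ε ε' : ℕ → ZMod 2) :
    wr π ε * wr π' ε' = wr (π * π') (fun j => ε' j + ε (π' j)) := by
  refine Equiv.ext fun p => ?_
  obtain ⟨s, j⟩ := p
  simp only [Perm.mul_apply, wr_apply, fl_fl]

theorem wr_one : wr 1 0 = 1 := by
  refine Equiv.ext fun p => ?_
  obtain ⟨s, j⟩ := p
  simp [wr_apply, fl_zero]

theorem wr_congr {π π' : Perm ℕ} {ε ε' : ℕ → ZMod 2} (h : π = π') (h' : ∀ j, ε j = ε' j) :
    wr π ε = wr π' ε' := by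
  rw [h, funext h']

theorem wr_mem {H : Subgroup (Perm (Bool × ℕ))} {π π' : Perm ℕ} {ε ε' : ℕ → ZMod 2}
    (h : wr π ε ∈ H) (e : π = π') (e' : ∀ j, ε j = ε' j) : wr π' ε' ∈ H :=
  wr_congr e e' ▸ h

/-- the generators -/
def gn (K i : ℕ) : Perm (Bool × ℕ) :=
  wr (swap i (i + 1)) (fun j => if i = K ∧ j < K then 1 else 0)

theorem gn_eq {K : ℕ} (hK : 2 ≤ K) (i : ℕ) (p : Bool × ℕ) : gn K i p = sig K i p := by
  obtain ⟨s, j⟩ := p
  have h0 : ¬(K = 0 ∧ i = 1) := by omega
  have h1 : ¬(K = 1 ∧ i = 2 ∧ j < 2) := by omega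
  have h2 : max K 2 = K := max_eq_left hK
  simp only [gn, wr_apply, sig, h0, h1, h2, if_false]
  by_cases a : j = i
  · subst a
    rw [if_pos rfl, if_neg (by omega), fl_zero, swap_apply_left]
  · rw [if_neg a]
    by_cases b : j = i + 1
    · subst b
      rw [if_pos rfl, if_neg (by omega), fl_zero, swap_apply_right]
    · rw [if_neg b, swap_apply_of_ne_of_ne a b]
      by_cases c : i = K ∧ j < K
      · rw [if_pos c, if_pos (by omega), fl_one]
      · rw [if_neg c, if_neg (by omega), fl_zero]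

theorem gn_inv (K i : ℕ) : (gn K i)⁻¹ = gn K i := by
  rw [inv_eq_iff_mul_eq_one, gn, wr_mul, ← wr_one]
  refine wr_congr (swap_mul_self _ _) fun j => ?_
  simp only [swap_apply_def, Pi.zero_apply]
  split_ifs <;> first | rfl | omega

/-- the twisted diagonal embedding -/
def dg (c : ℕ → ZMod 2) : Perm ℕ →* Perm (Bool × ℕ) where
  toFun π := wr π (fun j => c j + c (π j))
  map_one' := by
    rw [← wr_one]
    exact wr_congr rfl fun j => add_self _
  map_mul' π π' := by
    rw [wr_mul]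
    refine wr_congr rfl fun j => ?_
    rw [Perm.mul_apply]
    linear_combination -add_self (c (π' j))

theorem dg_apply (c : ℕ → ZMod 2) (π : Perm ℕ) : dg c π = wr π (fun j => c j + c (π j)) := rfl

theorem mem_adj {k l : ℕ} {π : Perm ℕ} (hπ : ∀ j, j < k ∨ l + 1 < j → π j = j) :
    π ∈ Subgroup.closure ((fun i => swap i (i + 1)) '' Set.Icc k l) := by
  set S : Set (Perm ℕ) := (fun i => swap i (i + 1)) '' Set.Icc k l with hS
  have hsw : ∀ f ∈ S, f.IsSwap := by
    rintro _ ⟨i, -, rfl⟩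
    exact ⟨i, i + 1, by omega, rfl⟩
  have horb : ∀ j, k ≤ j → j ≤ max k (l + 1) → j ∈ MulAction.orbit (Subgroup.closure S) k := by
    intro j hj
    induction j, hj using Nat.le_induction with
    | base => exact fun _ => MulAction.mem_orbit_self k
    | succ j hj ih =>
      intro h
      obtain ⟨g, hg⟩ := ih (by omega)
      refine ⟨(⟨swap j (j + 1), Subgroup.subset_closure ⟨j, ⟨hj, by omega⟩, rfl⟩⟩ :
        Subgroup.closure S) * g, ?_⟩
      have hg' : g • k = j := hg
      change ((_ : Subgroup.closure S) * g) • k = j + 1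
      rw [mul_smul, hg']
      exact swap_apply_left _ _
  rw [mem_closure_isSwap hsw]
  constructor
  · refine (Set.finite_Icc k (l + 1)).subset fun j hj => ?_
    by_contra hn
    refine hj (hπ j ?_)
    simp only [Set.mem_Icc] at hn
    omega
  · intro x
    by_cases hx : x < k ∨ l + 1 < x
    · rw [hπ x hx]; exact MulAction.mem_orbit_self x
    · have hy : ¬(π x < k ∨ l + 1 < π x) := fun hy => hx (by
        have := π.injective (hπ _ hy)
        rwa [this] at hy)
      rw [MulAction.orbit_eq_iff.2 (horb x (by omega) (by omega))]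
      exact horb _ (by omega) (by omega)

theorem diag {H : Subgroup (Perm (Bool × ℕ))} {c : ℕ → ZMod 2} {k l : ℕ}
    (h : ∀ i, k ≤ i → i ≤ l → dg c (swap i (i + 1)) ∈ H) {π : Perm ℕ}
    (hπ : ∀ j, j < k ∨ l + 1 < j → π j = j) : dg c π ∈ H := by
  have : Subgroup.closure ((fun i => swap i (i + 1)) '' Set.Icc k l) ≤ H.comap (dg c) := by
    rw [Subgroup.closure_le]
    rintro _ ⟨i, hi, rfl⟩
    exact h i hi.1 hi.2
  exact this (mem_adj hπ)

/-- the invariants of the group generated by the labels `k .. l` -/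
structure Inv (K k l : ℕ) (π : Perm ℕ) (ε : ℕ → ZMod 2) : Prop where
  fx : ∀ j, j < k ∨ l + 1 < j → π j = j
  hi : ∀ j, l + 1 < j → ε j = 0
  lo : ∃ a, ∀ j, j < k → j < K → ε j = a
  up : K ≤ k → ∀ j, K ≤ j → ε j = 0
  no : l < K ∨ K < k → ∀ j, ε j = 0
  eq : l = K → ∃ a, ∀ j, j ≤ K + 1 →
    ε j = a + (if j = K + 1 then 1 else 0) + (if π j = K + 1 then 1 else 0)
  par : ∑ j ∈ range (l + 2), ε j = 0

theorem sum_ind {K N : ℕ} (hK : K % 2 = 0) (h : K ≤ N) :
    ∑ j ∈ range N, (if j < K then 1 else 0 : ZMod 2) = 0 := by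
  rw [Finset.sum_boole]
  have : (range N).filter (fun j => j < K) = range K := by
    ext j; simp only [mem_filter, mem_range]; omega
  rw [this, card_range]
  exact (ZMod.natCast_eq_zero_iff K 2).2 (Nat.dvd_of_mod_eq_zero hK)

theorem Inv.step {K k l i : ℕ} (hK : K % 2 = 0) {π : Perm ℕ} {ε : ℕ → ZMod 2}
    (h : Inv K k l π ε) (hk : k ≤ i) (hl : i ≤ l) :
    Inv K k l (π * swap i (i + 1))
      (fun j => (if i = K ∧ j < K then 1 else 0) + ε (swap i (i + 1) j)) := by
  refine ⟨fun j hj => ?_, fun j hj => ?_, ?_, fun hu j hj => ?_, fun hn j => ?_, fun he => ?_, ?_⟩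
  · rw [Perm.mul_apply, swap_apply_of_ne_of_ne (by omega) (by omega), h.fx j hj]
  · rw [swap_apply_of_ne_of_ne (by omega) (by omega), h.hi j hj, if_neg (by omega), add_zero]
  · obtain ⟨a, ha⟩ := h.lo
    refine ⟨(if i = K then 1 else 0) + a, fun j h1 h2 => ?_⟩
    rw [swap_apply_of_ne_of_ne (by omega) (by omega), ha j h1 h2]
    simp only [h2, and_true]
  · rw [if_neg (by omega), zero_add]
    refine h.up hu _ ?_
    rw [swap_apply_def]
    split_ifs <;> omega
  · rw [if_neg (by omega), zero_add, h.no hn]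
  · obtain ⟨a, ha⟩ := h.eq he
    refine ⟨(if i = K then 1 else 0) + a, fun j hj => ?_⟩
    have h1 : swap i (i + 1) j ≤ K + 1 := by
      rw [swap_apply_def]
      split_ifs <;> omega
    have h2 : ((if i = K ∧ j < K then 1 else 0) + (if swap i (i + 1) j = K + 1 then 1 else 0) :
        ZMod 2) = (if i = K then 1 else 0) + (if j = K + 1 then 1 else 0) := by
      rw [swap_apply_def]
      split_ifs <;> first | rfl | omega
    rw [ha _ h1, Perm.mul_apply]
    linear_combination h2
  · rw [Finset.sum_add_distrib, Equiv.Perm.sum_comp (swap i (i + 1)) _ ε, h.par, add_zero]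
    · by_cases hi : i = K
      · simp only [hi, true_and]
        exact sum_ind hK (by omega)
      · simp only [hi, false_and, if_false, Finset.sum_const_zero]
    · intro j hj
      rw [mem_coe, mem_range]
      by_contra hn
      exact hj (swap_apply_of_ne_of_ne (by omega) (by omega))

theorem inv_of_mem {K k l : ℕ} (hK : K % 2 = 0) {γ : Perm (Bool × ℕ)}
    (hγ : γ ∈ Gen (gn K) (Set.Icc k l)) : ∃ π ε, γ = wr π ε ∧ Inv K k l π ε := by
  have step : ∀ x, ∀ y ∈ gn K '' Set.Icc k l, (∃ π ε, x = wr π ε ∧ Inv K k l π ε) →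
      ∃ π ε, x * y = wr π ε ∧ Inv K k l π ε := by
    rintro _ _ ⟨i, hi, rfl⟩ ⟨π, ε, rfl, h⟩
    exact ⟨_, _, wr_mul _ _ _ _, h.step hK hi.1 hi.2⟩
  induction hγ using Subgroup.closure_induction_right with
  | one =>
    refine ⟨1, 0, wr_one.symm, fun _ _ => rfl, fun _ _ => rfl, ⟨0, fun _ _ _ => rfl⟩,
      fun _ _ _ => rfl, fun _ _ => rfl, fun _ => ⟨0, fun j _ => ?_⟩, Finset.sum_const_zero⟩
    rw [zero_add, Perm.one_apply, add_self]
    rfl
  | mul_right x _ y hy ih => exact step x y hy ih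
  | mul_inv_cancel x _ y hy ih =>
    obtain ⟨i, hi, rfl⟩ := hy
    rw [gn_inv]
    exact step x _ ⟨i, hi, rfl⟩ ih

theorem gn_mem {K k l i : ℕ} (hk : k ≤ i) (hl : i ≤ l) : gn K i ∈ Gen (gn K) (Set.Icc k l) :=
  Subgroup.subset_closure ⟨i, ⟨hk, hl⟩, rfl⟩

theorem gn_ne {K i : ℕ} (h : i ≠ K) : gn K i = dg 0 (swap i (i + 1)) := by
  rw [gn, dg_apply]
  exact wr_congr rfl fun j => by rw [if_neg (by omega)]; rfl

theorem sw_a (i : ℕ) : swap i (i + 1) (i + 1 + 1) = i + 1 + 1 :=
  swap_apply_of_ne_of_ne (by omega) (by omega)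

theorem sw_b (i : ℕ) : swap (i + 1) (i + 1 + 1) i = i :=
  swap_apply_of_ne_of_ne (by omega) (by omega)

theorem cube (i : ℕ) : swap i (i + 1) * swap (i + 1) (i + 1 + 1) *
    (swap i (i + 1) * swap (i + 1) (i + 1 + 1)) * (swap i (i + 1) * swap (i + 1) (i + 1 + 1)) = 1 := by
  ext j
  by_cases h0 : j = i
  · simp only [h0, Perm.mul_apply, swap_apply_left, swap_apply_right, sw_a, sw_b, Perm.one_apply]
  by_cases h1 : j = i + 1
  · simp only [h1, Perm.mul_apply, swap_apply_left, swap_apply_right, sw_a, sw_b, Perm.one_apply]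
  by_cases h2 : j = i + 1 + 1
  · simp only [h2, Perm.mul_apply, swap_apply_left, swap_apply_right, sw_a, sw_b, Perm.one_apply]
  simp only [Perm.mul_apply, swap_apply_of_ne_of_ne h0 h1, swap_apply_of_ne_of_ne h1 h2,
    Perm.one_apply]

/-- the lower rungs -/
theorem low_mem {K k l : ℕ} (hk : k ≤ K) (hl : K < l) :
    wr 1 (fun j => if j < K then 1 else 0) ∈ Gen (gn K) (Set.Icc k l) := by
  have h : gn K K * gn K (K + 1) ∈ Gen (gn K) (Set.Icc k l) :=
    mul_mem (gn_mem hk (by omega)) (gn_mem (by omega) hl)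
  have h3 := mul_mem (mul_mem h h) h
  simp only [gn, wr_mul, true_and] at h3
  rw [cube] at h3
  refine wr_mem h3 rfl fun j => ?_
  by_cases h0 : j = K
  · simp only [h0, Perm.mul_apply, swap_apply_left, swap_apply_right, sw_a, sw_b]
    split_ifs <;> first | rfl | omega
  by_cases h1 : j = K + 1
  · simp only [h1, Perm.mul_apply, swap_apply_left, swap_apply_right, sw_a, sw_b]
    split_ifs <;> first | rfl | omega
  by_cases h2 : j = K + 1 + 1
  · simp only [h2, Perm.mul_apply, swap_apply_left, swap_apply_right, sw_a, sw_b]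
    split_ifs <;> first | rfl | omega
  simp only [Perm.mul_apply, swap_apply_of_ne_of_ne h0 h1, swap_apply_of_ne_of_ne h1 h2]
  split_ifs <;> first | rfl | omega

/-- all rungs -/
theorem all_mem {J k : ℕ} (hk : k ≤ J) :
    wr 1 (fun j => if j ≤ J + 1 + 1 then 1 else 0) ∈ Gen (gn (J + 1)) (Set.Icc k (J + 1)) := by
  have h : gn (J + 1) J * gn (J + 1) (J + 1) ∈ Gen (gn (J + 1)) (Set.Icc k (J + 1)) :=
    mul_mem (gn_mem hk (by omega)) (gn_mem (by omega) le_rfl)
  have h3 := mul_mem (mul_mem h h) h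
  simp only [gn, wr_mul, true_and] at h3
  rw [cube] at h3
  refine wr_mem h3 rfl fun j => ?_
  by_cases h0 : j = J
  · simp only [h0, Perm.mul_apply, swap_apply_left, swap_apply_right, sw_a, sw_b]
    split_ifs <;> first | rfl | omega
  by_cases h1 : j = J + 1
  · simp only [h1, Perm.mul_apply, swap_apply_left, swap_apply_right, sw_a, sw_b]
    split_ifs <;> first | rfl | omega
  by_cases h2 : j = J + 1 + 1
  · simp only [h2, Perm.mul_apply, swap_apply_left, swap_apply_right, sw_a, sw_b]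
    split_ifs <;> first | rfl | omega
  simp only [Perm.mul_apply, swap_apply_of_ne_of_ne h0 h1, swap_apply_of_ne_of_ne h1 h2]
  split_ifs <;> first | rfl | omega

/-- the rung patterns in a subgroup -/
def rungs (H : Subgroup (Perm (Bool × ℕ))) : AddSubgroup (ℕ → ZMod 2) where
  carrier := {ε | wr 1 ε ∈ H}
  zero_mem' := by
    change wr 1 0 ∈ H
    rw [wr_one]; exact one_mem H
  add_mem' := fun {a b} ha hb => by
    have : wr 1 b * wr 1 a ∈ H := mul_mem hb ha
    rw [wr_mul, mul_one] at this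
    exact this
  neg_mem' := fun {a} ha => by
    have : -a = a := funext fun j => neg_eq_of_add_eq_zero_left (add_self _)
    rwa [this]

theorem rungs_congr {H : Subgroup (Perm (Bool × ℕ))} {ε ε' : ℕ → ZMod 2} (h : ε ∈ rungs H)
    (e : ∀ j, ε j = ε' j) : ε' ∈ rungs H := (funext e : ε = ε') ▸ h

theorem rungs_mul {H : Subgroup (Perm (Bool × ℕ))} {ε ε' : ℕ → ZMod 2} {π : Perm ℕ}
    (hπ : wr π ε' ∈ H) (h : ε ∈ rungs H) : wr π (fun j => ε j + ε' j) ∈ H := by
  have : wr π ε' * wr 1 ε ∈ H := mul_mem hπ h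
  rw [wr_mul, mul_one] at this
  exact this

theorem rungs_smul {H : Subgroup (Perm (Bool × ℕ))} {ε : ℕ → ZMod 2} (h : ε ∈ rungs H)
    (a : ZMod 2) : a • ε ∈ rungs H := by
  rcases two_cases a with rfl | rfl
  · rw [zero_smul]; exact zero_mem _
  · rwa [one_smul]

theorem rungs_comp {H : Subgroup (Perm (Bool × ℕ))} {ε : ℕ → ZMod 2} (h : ε ∈ rungs H)
    {π : Perm ℕ} (hπ : dg 0 π ∈ H) : (fun j => ε (π j)) ∈ rungs H := by
  have : (dg 0 π)⁻¹ * wr 1 ε * dg 0 π ∈ H := mul_mem (mul_mem (inv_mem hπ) h) hπ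
  rw [← map_inv, dg_apply, dg_apply, wr_mul, wr_mul] at this
  refine wr_mem this (by simp) fun j => ?_
  simp

theorem mem_of_rungs {H : Subgroup (Perm (Bool × ℕ))} {c ε : ℕ → ZMod 2} {π : Perm ℕ}
    (hπ : dg c π ∈ H) (h : (fun j => ε j + (c j + c (π j))) ∈ rungs H) : wr π ε ∈ H := by
  rw [dg_apply] at hπ
  refine wr_mem (rungs_mul hπ h) rfl fun j => ?_
  rw [add_assoc, add_self, add_zero]

/-- the invariants describe the group -/
theorem mem_of_inv {K k l : ℕ} (hK : K % 2 = 0) {π : Perm ℕ} {ε : ℕ → ZMod 2}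
    (h : Inv K k l π ε) : wr π ε ∈ Gen (gn K) (Set.Icc k l) := by
  set H := Gen (gn K) (Set.Icc k l) with hH
  by_cases hn : l < K ∨ K < k
  · refine mem_of_rungs (c := 0) (diag (fun i h1 h2 => ?_) h.fx) ?_
    · rw [← gn_ne (K := K) (by omega)]; exact gn_mem h1 h2
    · have : (fun j => ε j + ((0 : ℕ → ZMod 2) j + (0 : ℕ → ZMod 2) (π j))) = 0 :=
        funext fun j => by rw [h.no hn]; rfl
      rw [this]; exact zero_mem _
  obtain ⟨a, ha⟩ := h.lo
  by_cases hl : K < l
  · have ht : (fun j => if j < K then 1 else 0) ∈ rungs H := low_mem (by omega) hl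
    have hd : ∀ {τ : Perm ℕ}, (∀ j, j < k ∨ l + 1 < j → τ j = j) → dg 0 τ ∈ H := by
      intro τ hτ
      refine diag (fun i h1 h2 => ?_) hτ
      by_cases hi : i = K
      · rw [dg_apply]
        refine wr_mem (rungs_mul (gn_mem (K := K) h1 h2) ht) rfl fun j => ?_
        simp only [hi, true_and, add_self, Pi.zero_apply]
      · rw [← gn_ne hi]; exact gn_mem h1 h2
    refine mem_of_rungs (c := 0) (hd h.fx) ?_
    simp only [Pi.zero_apply, add_zero]
    by_cases hk : k = K
    · have : (fun j => ε j) = a • fun j => if j < K then (1 : ZMod 2) else 0 := by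
        funext j
        simp only [Pi.smul_apply, smul_eq_mul]
        split_ifs with hj
        · rw [ha j (by omega) hj, mul_one]
        · rw [h.up (by omega) j (by omega), mul_zero]
      rw [this]; exact rungs_smul ht a
    have hp0 : (Pi.single k 1 + Pi.single K 1 : ℕ → ZMod 2) ∈ rungs H := by
      have h1 := rungs_comp ht (hd (τ := swap k K) fun j hj =>
        swap_apply_of_ne_of_ne (by omega) (by omega))
      have h2 := add_mem ht h1
      refine rungs_congr h2 fun j => ?_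
      simp only [Pi.add_apply, Pi.single_apply, swap_apply_def]
      split_ifs <;> first | rfl | omega
    have hp : ∀ i, k ≤ i → i ≤ l + 1 → (Pi.single k 1 + Pi.single i 1 : ℕ → ZMod 2) ∈ rungs H := by
      intro i h1 h2
      by_cases hi : i = k
      · have : (Pi.single k 1 + Pi.single i 1 : ℕ → ZMod 2) = 0 := by
          rw [hi]; exact funext fun j => add_self _
        rw [this]; exact zero_mem _
      have h3 := rungs_comp hp0 (hd (τ := swap K i) fun j hj =>
        swap_apply_of_ne_of_ne (by omega) (by omega))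
      refine rungs_congr h3 fun j => ?_
      simp only [Pi.add_apply, Pi.single_apply, swap_apply_def]
      split_ifs <;> first | rfl | omega
    let η : ℕ → ZMod 2 := fun j => ε j + a * if j < K then 1 else 0
    have hη0 : ∀ j, j < k ∨ l + 1 < j → η j = 0 := by
      rintro j (hj | hj)
      · simp only [η]
        rw [if_pos (by omega), ha j hj (by omega), mul_one, add_self]
      · simp only [η]
        rw [if_neg (by omega), h.hi j hj, mul_zero, add_zero]
    have hηs : ∑ j ∈ range (l + 2), η j = 0 := by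
      simp only [η]
      rw [Finset.sum_add_distrib, h.par, ← Finset.mul_sum, sum_ind hK (by omega), mul_zero,
        add_zero]
    have hη : η ∈ rungs H := by
      have : η = ∑ i ∈ range (l + 2), η i • (Pi.single k 1 + Pi.single i 1 : ℕ → ZMod 2) := by
        funext j
        simp only [Finset.sum_apply, Pi.smul_apply, Pi.add_apply, smul_eq_mul, mul_add,
          Finset.sum_add_distrib]
        rw [← Finset.sum_mul, hηs, zero_mul, zero_add]
        simp only [Pi.single_apply, mul_ite, mul_one, mul_zero, Finset.sum_ite_eq, mem_range]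
        split_ifs with hj
        · rfl
        · exact hη0 j (Or.inr (by omega))
      rw [this]
      refine sum_mem fun i hi => ?_
      by_cases h1 : i < k
      · rw [hη0 i (Or.inl h1), zero_smul]; exact zero_mem _
      · exact rungs_smul (hp i (by omega) (by have := mem_range.1 hi; omega)) _
    have h5 := add_mem hη (rungs_smul ht a)
    refine rungs_congr h5 fun j => ?_
    simp only [η, Pi.add_apply, Pi.smul_apply, smul_eq_mul]
    rw [add_assoc, add_self, add_zero]
  have hlK : l = K := by omega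
  obtain ⟨b, hb⟩ := h.eq hlK
  by_cases hk : k = K
  · have e0 := h.up (by omega)
    have e1 := hb K (by omega)
    rw [e0 K le_rfl, if_neg (by omega), add_zero] at e1
    have hin : ∀ j, ¬(j < k ∨ l + 1 < j) → ¬(π j < k ∨ l + 1 < π j) := fun j hx hy => hx (by
      have := π.injective (h.fx _ hy)
      rwa [this] at hy)
    have i0 := hin K (by omega)
    have i1 := hin (K + 1) (by omega)
    have i2 : π K ≠ π (K + 1) := fun e => by have := π.injective e; omega
    have hlow : ∀ j, j < K → ε j = b := fun j hj => by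
      rw [hb j (by omega), if_neg (by omega), h.fx j (by omega), if_neg (by omega), add_zero,
        add_zero]
    by_cases hπ : π K = K + 1
    · rw [if_pos hπ] at e1
      have hb1 : b = 1 := by linear_combination -e1 - add_self 1
      refine wr_mem (gn_mem (K := K) (i := K) (by omega) (by omega)) ?_ fun j => ?_
      · ext j
        rw [swap_apply_def]
        split_ifs with h1 h2
        · rw [h1, hπ]
        · rw [h2]; omega
        · exact (h.fx j (by omega)).symm
      · split_ifs with h1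
        · rw [hlow j h1.2, hb1]
        · exact (e0 j (by omega)).symm
    · rw [if_neg hπ, add_zero] at e1
      have : wr π ε = 1 := by
        rw [← wr_one]
        refine wr_congr ?_ fun j => ?_
        · ext j
          rw [Perm.one_apply]
          by_cases h1 : j = K
          · rw [h1]; omega
          by_cases h2 : j = K + 1
          · rw [h2]; omega
          exact h.fx j (by omega)
        · by_cases h1 : j < K
          · rw [hlow j h1, ← e1]; rfl
          · exact e0 j (by omega)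
      rw [this]; exact one_mem _
  obtain ⟨J, rfl⟩ : ∃ J, K = J + 1 := ⟨K - 1, by omega⟩
  subst hlK
  have ht : (fun j => if j ≤ J + 1 + 1 then 1 else 0) ∈ rungs H := all_mem (by omega)
  refine mem_of_rungs (c := fun j => if j = J + 1 + 1 then 1 else 0)
    (diag (fun i h1 h2 => ?_) h.fx) ?_
  · rw [dg_apply]
    by_cases hi : i = J + 1
    · refine wr_mem (rungs_mul (gn_mem (K := J + 1) h1 h2) ht) rfl fun j => ?_
      simp only [hi, true_and, swap_apply_def]
      split_ifs <;> first | rfl | omega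
    · refine wr_mem (gn_mem (K := J + 1) h1 h2) rfl fun j => ?_
      simp only [swap_apply_def]
      split_ifs <;> first | rfl | omega
  · refine rungs_congr (rungs_smul ht b) fun j => ?_
    simp only [Pi.smul_apply, smul_eq_mul]
    by_cases hj : j ≤ J + 1 + 1
    · rw [if_pos hj, hb j hj, mul_one, add_assoc b, add_assoc b, add_self, add_zero]
    · rw [if_neg hj, h.hi j (by omega), h.fx j (by omega), add_self, mul_zero, add_zero]

/-- the intersection property in the wreath product -/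
theorem core {K k l m : ℕ} (hK : K % 2 = 0) (hk : k < m) (hl : l < m)
    {γ η : Perm (Bool × ℕ)} (hγ : γ ∈ Gen (gn K) (Set.Icc 0 l))
    (hη : η ∈ Gen (gn K) (Set.Icc k (m - 1)))
    (h : ∀ s j, j ≤ m → j < k ∨ (K ≤ k ∧ s = true) → γ (s, j) = η (s, j)) :
    γ ∈ Gen (gn K) (Set.Icc k l) := by
  obtain ⟨π, ε, rfl, I⟩ := inv_of_mem hK hγ
  obtain ⟨π', ε', rfl, I'⟩ := inv_of_mem hK hη
  have h' : ∀ j, j ≤ m → j < k ∨ K ≤ k → ε j = ε' j ∧ π j = π' j := fun j h1 h2 => by
    have := h true j h1 (by tauto)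
    rw [wr_apply, wr_apply, Prod.mk.injEq] at this
    exact ⟨fl_inj this.1, this.2⟩
  refine mem_of_inv hK ⟨?_, I.hi, ?_, fun hu j hj => ?_, ?_, I.eq, I.par⟩
  · rintro j (hj | hj)
    · rw [(h' j (by omega) (Or.inl hj)).2, I'.fx j (Or.inl hj)]
    · exact I.fx j (Or.inr hj)
  · obtain ⟨a, ha⟩ := I'.lo
    exact ⟨a, fun j h1 h2 => by rw [(h' j (by omega) (Or.inl h1)).1, ha j h1 h2]⟩
  · by_cases h1 : j ≤ m
    · rw [(h' j h1 (Or.inr hu)).1, I'.up hu j hj]
    · exact I.hi j (by omega)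
  · rintro (hn | hn) j
    · exact I.no (Or.inl hn) j
    · by_cases h1 : j ≤ m
      · rw [(h' j h1 (Or.inr hn.le)).1, I'.no (Or.inr hn) j]
      · exact I.hi j (by omega)

end LadX

namespace Mod
variable {Ω : Type} [Fintype Ω] [DecidableEq Ω] {m ty : ℕ} (M : Mod Ω m ty)

open LadX

/-- `g` acts on the half as `γ` and fixes the other points -/
def LadRel (g : Perm Ω) (γ : Perm (Bool × ℕ)) : Prop :=
  (∀ p : Bool × ℕ, p.2 ≤ m → (γ p).2 ≤ m ∧ g (M.P p) = M.P (γ p)) ∧
    ∀ x, (∀ s j, j ≤ m → x ≠ M.P (s, j)) → g x = x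

theorem ladRel_one : M.LadRel 1 1 := ⟨fun _ hp => ⟨hp, rfl⟩, fun _ _ => rfl⟩

variable {M} in
theorem LadRel.mul {g g' : Perm Ω} {γ γ' : Perm (Bool × ℕ)} (h : M.LadRel g γ)
    (h' : M.LadRel g' γ') : M.LadRel (g * g') (γ * γ') := by
  refine ⟨fun p hp => ?_, fun x hx => ?_⟩
  · obtain ⟨a, b⟩ := h'.1 p hp
    obtain ⟨c, d⟩ := h.1 _ a
    exact ⟨c, by rw [Perm.mul_apply, b, d, Perm.mul_apply]⟩
  · rw [Perm.mul_apply, h'.2 x hx, h.2 x hx]

variable {M} in
theorem LadRel.uniq {g g' : Perm Ω} {γ : Perm (Bool × ℕ)} (h : M.LadRel g γ)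
    (h' : M.LadRel g' γ) : g = g' := by
  ext x
  by_cases hx : ∀ s j, j ≤ m → x ≠ M.P (s, j)
  · rw [h.2 x hx, h'.2 x hx]
  · push Not at hx
    obtain ⟨s, j, hj, rfl⟩ := hx
    rw [(h.1 (s, j) hj).2, (h'.1 (s, j) hj).2]

theorem ladRel_gn (h : 2 ≤ ty) {i : ℕ} (hi : i < m) : M.LadRel (M.ρ i) (gn ty i) := by
  refine ⟨fun p hp => ⟨?_, ?_⟩, M.out i hi⟩
  · change swap i (i + 1) p.2 ≤ m
    rw [swap_apply_def]
    split_ifs <;> omega
  · rw [gn_eq h]
    exact M.act i hi p.1 p.2 hp

theorem lad_inv (i : ℕ) : (M.ρ i)⁻¹ = M.ρ i := by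
  ext x; rw [Perm.inv_eq_iff_eq, M.inv]

theorem ladRel_fwd (h : 2 ≤ ty) {I : Set ℕ} (hI : ∀ i ∈ I, i < m) {g : Perm Ω}
    (hg : g ∈ Gen M.ρ I) : ∃ γ ∈ Gen (gn ty) I, M.LadRel g γ := by
  induction hg using Subgroup.closure_induction_left with
  | one => exact ⟨1, one_mem _, M.ladRel_one⟩
  | mul_left x hx y _ ih =>
    obtain ⟨i, hi, rfl⟩ := hx
    obtain ⟨γ, h1, h2⟩ := ih
    exact ⟨_, mul_mem (Subgroup.subset_closure ⟨i, hi, rfl⟩) h1,
      (M.ladRel_gn h (hI i hi)).mul h2⟩
  | inv_mul_cancel x hx y _ ih =>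
    obtain ⟨i, hi, rfl⟩ := hx
    obtain ⟨γ, h1, h2⟩ := ih
    rw [M.lad_inv]
    exact ⟨_, mul_mem (Subgroup.subset_closure ⟨i, hi, rfl⟩) h1,
      (M.ladRel_gn h (hI i hi)).mul h2⟩

theorem ladRel_bwd (h : 2 ≤ ty) {I : Set ℕ} (hI : ∀ i ∈ I, i < m) {γ : Perm (Bool × ℕ)}
    (hγ : γ ∈ Gen (gn ty) I) : ∃ g ∈ Gen M.ρ I, M.LadRel g γ := by
  induction hγ using Subgroup.closure_induction_left with
  | one => exact ⟨1, one_mem _, M.ladRel_one⟩
  | mul_left x hx y _ ih =>
    obtain ⟨i, hi, rfl⟩ := hx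
    obtain ⟨g, h1, h2⟩ := ih
    exact ⟨_, mul_mem (Subgroup.subset_closure ⟨i, hi, rfl⟩) h1,
      (M.ladRel_gn h (hI i hi)).mul h2⟩
  | inv_mul_cancel x hx y _ ih =>
    obtain ⟨i, hi, rfl⟩ := hx
    obtain ⟨g, h1, h2⟩ := ih
    rw [gn_inv]
    exact ⟨_, mul_mem (Subgroup.subset_closure ⟨i, hi, rfl⟩) h1,
      (M.ladRel_gn h (hI i hi)).mul h2⟩

theorem halfIP_lad (h : 2 ≤ ty) : M.HalfIP := by
  intro k l _ hk hl g hg u hu hagree
  have hty := mem_filter.1 M.hty
  have hlt : ty < m := mem_range.1 hty.1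
  have hev : ty % 2 = 0 := by have := hty.2; omega
  have hI : ∀ i ∈ Set.Icc k (m - 1), i < m := fun i hi => by have := hi.2; omega
  have e0 : Set.Iic l = Set.Icc 0 l := by ext i; simp
  rw [e0] at hg
  obtain ⟨γ, hγ, rγ⟩ := M.ladRel_fwd h (fun i hi => by have := hi.2; omega) hg
  obtain ⟨η, hη, rη⟩ := M.ladRel_fwd h hI hu
  have key : γ ∈ Gen (gn ty) (Set.Icc k l) := by
    refine core hev hk hl hγ hη fun s j hj hc => ?_
    have h1 := hagree s j hj (by
      rintro ⟨w, hw, e⟩
      obtain ⟨ω, hω, rω⟩ := M.ladRel_fwd h hI hw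
      obtain ⟨π, ε, rfl, I⟩ := inv_of_mem hev hω
      obtain ⟨a, b⟩ := rω.1 (false, m) le_rfl
      rw [b, wr_apply] at e
      obtain ⟨e1, e2⟩ := M.Pinj _ _ _ _ a hj e
      rcases hc with hc | hc
      · have := π.injective ((I.fx j (Or.inl hc)).trans e2.symm)
        omega
      · rw [I.up hc.1 m hlt.le, fl_zero, hc.2] at e1
        exact Bool.false_ne_true e1)
    obtain ⟨a, b⟩ := rγ.1 (s, j) hj
    obtain ⟨c, d⟩ := rη.1 (s, j) hj
    rw [b, d] at h1
    obtain ⟨e1, e2⟩ := M.Pinj _ _ _ _ a c h1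
    exact Prod.ext e1 e2
  obtain ⟨g', hg', r'⟩ := M.ladRel_bwd h (fun i hi => by have := hi.2; omega) key
  rw [rγ.uniq r']
  exact hg'

end Mod
end D145
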