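import Pool.Agent.MP_d145c0_al.H75.LBMod
import Pool.Agent.MP_d145c0_al.H75.LBFull
import Pool.Agent.MP_d145c0_al.H75.LBGlue
import Pool.Agent.MP_d145c0_al.H75.LBLad
import Pool.Agent.MP_d145c0_al.H75.LBCore

/-! The lower bound. -/

namespace D145
open Equiv Finset

namespace LBF

/-- the plain exchange of the positions `i` and `i + 1` -/
def tr (i : ℕ) (p : Bool × ℕ) : Bool × ℕ :=
  if p.2 = i then (p.1, i + 1) else if p.2 = i + 1 then (p.1, i) else p

theorem sig_plain {ty i : ℕ} (h0 : ty ≠ 0) (h : i ≠ max ty 2) (p : Bool × ℕ) :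
    sig ty i p = tr i p := by
  unfold sig tr
  have h1 : ¬ (ty = 1 ∧ i = 2 ∧ p.2 < 2) := by
    rintro ⟨rfl, rfl, _⟩
    exact h rfl
  rw [if_neg (fun k => h0 k.1), if_neg h1, if_neg (fun k : i = max ty 2 ∧ p.2 < i => h k.1)]

theorem tr_a (i : ℕ) (s : Bool) : tr i (s, i) = (s, i + 1) := if_pos rfl

theorem tr_b (i : ℕ) (s : Bool) : tr i (s, i + 1) = (s, i) := by
  unfold tr
  rw [if_neg (Nat.succ_ne_self i), if_pos rfl]

theorem tr_c {i j : ℕ} (s : Bool) (h : j ≠ i) (h' : j ≠ i + 1) : tr i (s, j) = (s, j) := by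
  unfold tr
  rw [if_neg h, if_neg h']

theorem tr_cube (i : ℕ) (p : Bool × ℕ) :
    tr i (tr (i + 1) (tr i (tr (i + 1) (tr i (tr (i + 1) p))))) = p := by
  obtain ⟨s, j⟩ := p
  have e1 : tr (i + 1) (s, i) = (s, i) := tr_c s (by omega) (by omega)
  have e2 : tr i (s, i + 1 + 1) = (s, i + 1 + 1) := tr_c s (by omega) (by omega)
  by_cases h0 : j = i
  · rw [h0, e1, tr_a, tr_a, e2, tr_b, tr_b]
  by_cases h1 : j = i + 1
  · rw [h1, tr_a, e2, tr_b, tr_b, e1, tr_a]
  by_cases h2 : j = i + 1 + 1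
  · rw [h2, tr_b, tr_b, e1, tr_a, tr_a, e2]
  have e3 : tr (i + 1) (s, j) = (s, j) := tr_c s h1 h2
  have e4 : tr i (s, j) = (s, j) := tr_c s h0 h1
  rw [e3, e4, e3, e4, e3, e4]

theorem sig_high {ty i j : ℕ} (s : Bool) (h0 : ty ≠ 0) (h : i + 1 < j) (h2 : 2 ≤ j) :
    sig ty i (s, j) = (s, j) := by
  unfold sig
  rw [if_neg (fun k => h0 k.1), if_neg (show ¬ j = i by omega), if_neg (show ¬ j = i + 1 by omega),
    if_neg (show ¬ (ty = 1 ∧ i = 2 ∧ j < 2) by omega),
    if_neg (show ¬ (i = max ty 2 ∧ j < i) by omega)]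

theorem sig_rung {ty : ℕ} (s : Bool) (h2 : 2 ≤ ty) : sig ty ty (s, 0) = (!s, 0) := by
  unfold sig
  rw [if_neg (show ¬ (ty = 0 ∧ ty = 1) by omega), if_neg (show ¬ 0 = ty by omega),
    if_neg (show ¬ 0 = ty + 1 by omega), if_neg (show ¬ (ty = 1 ∧ ty = 2 ∧ 0 < 2) by omega),
    if_pos (show ty = max ty 2 ∧ 0 < ty by omega)]

theorem sig_le {ty i m : ℕ} (hm : 3 ≤ m) (hi : i < m) (p : Bool × ℕ) (hp : p.2 ≤ m) :
    (sig ty i p).2 ≤ m := by
  unfold sig
  split_ifs <;> omega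

/-- the product of two consecutive labels on the half -/
def F (ty i : ℕ) (p : Bool × ℕ) : Bool × ℕ := sig ty i (sig ty (i + 1) p)

variable {Ω : Type} [Fintype Ω] [DecidableEq Ω] {m ty : ℕ} (M : Mod Ω m ty)

theorem pow_P {i : ℕ} (hi : i + 1 < m) (e : ℕ) (p : Bool × ℕ) (hp : p.2 ≤ m) :
    ((M.ρ i * M.ρ (i + 1)) ^ e) (M.P p) = M.P ((F ty i)^[e] p) ∧ ((F ty i)^[e] p).2 ≤ m := by
  induction e with
  | zero => exact ⟨rfl, hp⟩
  | succ e ih =>
    rw [pow_succ', Function.iterate_succ_apply', Perm.mul_apply, ih.1, Perm.mul_apply]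
    have h1 := sig_le (ty := ty) M.hm hi _ ih.2
    refine ⟨?_, sig_le M.hm (by omega) _ h1⟩
    have h2 := M.act (i + 1) hi ((F ty i)^[e] p).1 _ ih.2
    have h3 := M.act i (by omega) (sig ty (i + 1) ((F ty i)^[e] p)).1 _ h1
    exact (congrArg (M.ρ i) h2).trans h3

theorem rel_iff {i : ℕ} (hi : i + 1 < m) (e : ℕ) :
    (M.ρ i * M.ρ (i + 1)) ^ e = 1 ↔ ∀ p : Bool × ℕ, p.2 ≤ m → (F ty i)^[e] p = p := by
  constructor
  · intro h p hp
    have h1 := pow_P M hi e p hp
    rw [h, Perm.one_apply] at h1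
    have h2 := M.Pinj p.1 p.2 _ _ hp h1.2 h1.1
    exact (Prod.ext h2.1 h2.2).symm
  · intro h
    ext x
    rw [Perm.one_apply]
    by_cases hx : ∃ s j, j ≤ m ∧ x = M.P (s, j)
    · obtain ⟨s, j, hj, rfl⟩ := hx
      rw [(pow_P M hi e (s, j) hj).1, h (s, j) hj]
    · have hx' : ∀ s j, j ≤ m → x ≠ M.P (s, j) := fun s j hj k => hx ⟨s, j, hj, k⟩
      apply Perm.pow_apply_eq_self_of_apply_eq_self
      rw [Perm.mul_apply, M.out (i + 1) hi x hx', M.out i (by omega) x hx']

theorem cube_plain {ty i : ℕ} (h0 : ty ≠ 0) (h : i ≠ max ty 2) (h' : i + 1 ≠ max ty 2)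
    (p : Bool × ℕ) : (F ty i)^[3] p = p := by
  change F ty i (F ty i (F ty i p)) = p
  simp only [F, sig_plain h0 h, sig_plain h0 h']
  exact tr_cube i p

theorem four_one (p : Bool × ℕ) : (F 1 1)^[4] p = p := by
  obtain ⟨s, j⟩ := p
  change F 1 1 (F 1 1 (F 1 1 (F 1 1 (s, j)))) = (s, j)
  by_cases h : j < 4
  · interval_cases j <;> cases s <;> decide
  · have h1 : F 1 1 (s, j) = (s, j) := by
      unfold F
      rw [sig_high s (by omega) (by omega) (by omega), sig_high s (by omega) (by omega) (by omega)]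
    rw [h1, h1, h1, h1]

/-- different models are separated by a relation -/
theorem sep {m ty ty' : ℕ} (hm : 3 ≤ m) (h : ty ∈ types m) (h' : ty' ∈ types m) (hlt : ty < ty') :
    ∃ i e, i + 1 < m ∧ ¬ ((∀ p : Bool × ℕ, p.2 ≤ m → (F ty i)^[e] p = p) ↔
      (∀ p : Bool × ℕ, p.2 ≤ m → (F ty' i)^[e] p = p)) := by
  simp only [types, mem_filter, mem_range] at h h'
  rcases Nat.eq_zero_or_pos ty with rfl | h0
  · refine ⟨0, 3, by omega, fun k => ?_⟩
    have h1 := k.2 (fun p _ => cube_plain (by omega) (by omega) (by omega) p) (true, 0) (by simp)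
    exact absurd h1 (by decide)
  by_cases h1 : ty = 1
  · subst h1
    refine ⟨1, 4, by omega, fun k => ?_⟩
    have h2 := k.1 (fun p _ => four_one p) (false, 1) (by simp only; omega)
    by_cases h3 : ty' = 2
    · subst h3
      exact absurd h2 (by decide)
    · rw [Function.iterate_succ_apply',
        cube_plain (by omega) (by omega) (by omega)] at h2
      simp only [F, sig_plain (show ty' ≠ 0 by omega) (show 1 ≠ max ty' 2 by omega),
        sig_plain (show ty' ≠ 0 by omega) (show 1 + 1 ≠ max ty' 2 by omega)] at h2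
      exact absurd h2 (by decide)
  · obtain ⟨i, rfl⟩ : ∃ i, ty = i + 1 := ⟨ty - 1, by omega⟩
    refine ⟨i, 3, by omega, fun k => ?_⟩
    have h2 := k.2 (fun p _ => cube_plain (by omega) (by omega) (by omega) p) (false, 0) (by simp)
    have h3 : ∀ s, F (i + 1) i (s, 0) = (!s, 0) := by
      intro s
      unfold F
      rw [sig_rung s (by omega), sig_plain (by omega) (by omega), tr_c _ (by omega) (by omega)]
    change F (i + 1) i (F (i + 1) i (F (i + 1) i (false, 0))) = (false, 0) at h2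
    rw [h3, h3, h3] at h2
    exact absurd h2 (by decide)

theorem halfIP : M.HalfIP := by
  by_cases h : 2 ≤ ty
  · exact M.halfIP_lad h
  · exact M.halfIP_core (by omega)

/-- the generators as elements of the alternating group -/
def tup (i : Fin (2 * m)) : alternatingGroup Ω :=
  ⟨M.ρ i, Perm.mem_alternatingGroup.2 (M.even i)⟩

theorem map_tup (I : Set (Fin (2 * m))) :
    (Subgroup.closure (tup M '' I)).map (alternatingGroup Ω).subtype =
      Subgroup.closure (M.ρ '' (Fin.val '' I)) := by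
  rw [MonoidHom.map_closure, Set.image_image, Set.image_image]
  rfl

theorem comm' (i j : ℕ) (h : i + 2 ≤ j) : M.ρ i * M.ρ j = M.ρ j * M.ρ i := by
  ext x
  exact M.comm i j h x

theorem sq (i : ℕ) : M.ρ i * M.ρ i = 1 := by
  ext x
  exact M.inv i x

theorem isC : IsStringC (tup M) := by
  have hinj : Function.Injective (alternatingGroup Ω).subtype := Subtype.val_injective
  refine ⟨fun i => ⟨fun h => M.ne_one i.2 (congrArg Subtype.val h), ?_⟩, fun i j h => ?_, ?_,
    fun I J => ?_⟩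
  · rw [pow_two]
    exact Subtype.ext (sq M i)
  · rw [pow_two]
    apply Subtype.ext
    change M.ρ i * M.ρ j * (M.ρ i * M.ρ j) = 1
    rw [comm' M i j h, mul_assoc, ← comm' M i j h, ← mul_assoc (M.ρ i), sq, one_mul, sq]
  · apply Subgroup.map_injective hinj
    rw [← Set.image_univ, map_tup, ← MonoidHom.range_eq_map, Subgroup.range_subtype, ← M.gen]
    refine le_antisymm (Subgroup.closure_mono (Set.image_subset_range _ _)) ?_
    rw [Subgroup.closure_le]
    rintro _ ⟨i, rfl⟩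
    by_cases hi : i < 2 * m
    · exact Subgroup.subset_closure ⟨i, ⟨⟨i, hi⟩, trivial, rfl⟩, rfl⟩
    · rw [M.triv i (by omega)]
      exact Subgroup.one_mem _
  · apply Subgroup.map_injective hinj
    rw [Subgroup.map_inf _ _ _ hinj, map_tup, map_tup, map_tup,
      full_ip M.ρ (2 * m) M.triv (comm' M) (M.ip (halfIP M)), Set.image_inter Fin.val_injective]

theorem selfDual : SelfDual (tup M) := by
  refine ⟨MulAut.conjNormal M.δ, fun i => Subtype.ext ?_⟩
  rw [MulAut.conjNormal_apply, mul_inv_eq_iff_eq_mul]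
  ext x
  change M.δ (M.ρ i x) = M.ρ (i.rev : ℕ) (M.δ x)
  rw [M.dual i i.2, Fin.val_rev]
  congr 2
  omega

/-- the string C-group of a model -/
def toSDA {m ty : ℕ} (M : Mod (Fin (4 * m + 3)) m ty) : SDA (4 * m + 3) (2 * m) where
  G := alternatingGroup (Fin (4 * m + 3))
  ρ := tup M
  isC := isC M
  sd := selfDual M
  alt := ⟨MulEquiv.refl _⟩

/-- the relations between two generators -/
def rels {n r : ℕ} (A : SDA n r) (i j : Fin r) (e : ℕ) : Prop :=
  letI := A.grp
  (A.ρ i * A.ρ j) ^ e = 1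

theorem rels_iso {n r : ℕ} (A B : SDA n r) (h : A.Iso B) : rels A = rels B := by
  let _ := A.grp
  let _ := B.grp
  obtain ⟨φ, hφ⟩ := h
  funext i j e
  apply propext
  unfold rels
  rw [← hφ, ← hφ, ← map_mul, ← map_pow, MulEquiv.map_eq_one_iff]

theorem rels_toSDA {m ty : ℕ} (M : Mod (Fin (4 * m + 3)) m ty) {i : ℕ} (hi : i + 1 < m) (e : ℕ) :
    rels (toSDA M) ⟨i, by omega⟩ ⟨i + 1, by omega⟩ e ↔
      ∀ p : Bool × ℕ, p.2 ≤ m → (F ty i)^[e] p = p := by
  rw [← rel_iff M hi]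
  exact Subtype.ext_iff

end LBF

theorem lower {m : ℕ} (hm : 3 ≤ m) :
    (((4 * m + 3 + 9) / 8 : ℕ) : ℕ∞) ≤ N (4 * m + 3) (2 * m) := by
  have hc : (types m).card = (4 * m + 3 + 9) / 8 := by
    rw [card_types_aux m (by omega)]
    omega
  let M : ∀ t : types m, Mod (Fin (4 * m + 3)) m t := fun t => (exists_mod hm t.2).some
  let f : types m → Quot (SDA.Iso (n := 4 * m + 3) (r := 2 * m)) :=
    fun t => Quot.mk _ (LBF.toSDA (M t))
  have key : ∀ t t' : types m, t.1 < t'.1 → f t ≠ f t' := by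
    intro t t' hlt h
    obtain ⟨i, e, hi, hne⟩ := LBF.sep hm t.2 t'.2 hlt
    have h1 : LBF.rels (LBF.toSDA (M t)) = LBF.rels (LBF.toSDA (M t')) :=
      congrArg (Quot.lift LBF.rels LBF.rels_iso) h
    apply hne
    rw [← LBF.rels_toSDA (M t) hi e, ← LBF.rels_toSDA (M t') hi e, h1]
  have hf : Function.Injective f := by
    intro t t' h
    rcases lt_trichotomy t.1 t'.1 with k | k | k
    · exact absurd h (key t t' k)
    · exact Subtype.ext k
    · exact absurd h.symm (key t' t k)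
  rw [← hc, ← Fintype.card_coe, ← ENat.card_eq_coe_fintype_card]
  exact ENat.card_le_card_of_injective hf

end D145
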