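import Pool.Agent.MP_d145c0_al.H75.LBDefs

/-! Existence of the models. -/

namespace D145
open Equiv Finset

theorem msig_inv (ty i : ℕ) (p : Bool × ℕ) : sig ty i (sig ty i p) = p := by
  obtain ⟨s, j⟩ := p
  by_cases h : ty = 0 ∧ i = 1
  · obtain ⟨rfl, rfl⟩ := h
    rcases j with _ | _ | _ | j <;> cases s <;> simp [sig]
  · simp only [sig, if_neg h]
    split_ifs <;> simp_all <;> omega

theorem msig_fix {ty i : ℕ} {p : Bool × ℕ} (h : i + 2 ≤ p.2) : sig ty i p = p := by
  obtain ⟨s, j⟩ := p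
  simp only [sig, Prod.mk.injEq] at h ⊢
  split_ifs <;> first | rfl | omega

theorem msig_le {ty i m : ℕ} (hi : i < m) {p : Bool × ℕ} (h : p.2 ≤ m) : (sig ty i p).2 ≤ m := by
  obtain ⟨s, j⟩ := p
  simp only [sig, Prod.mk.injEq] at h ⊢
  split_ifs <;> simp only <;> omega

theorem msig_comm (ty : ℕ) {i j : ℕ} (h : i + 2 ≤ j) (p : Bool × ℕ) :
    sig ty i (sig ty j p) = sig ty j (sig ty i p) := by
  have hj : ¬ (ty = 0 ∧ j = 1) := by omega
  by_cases hl : j ≤ p.2
  · rw [msig_fix (p := p) (i := i) (by omega), msig_fix]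
    simp only [sig, if_neg hj]
    split_ifs <;> omega
  have hq : (sig ty i p).2 ≤ j - 1 := msig_le (by omega) (by omega)
  by_cases h1 : j = max ty 2
  swap
  · have e : ∀ q : Bool × ℕ, q.2 < j → sig ty j q = q := by
      intro q hq
      rw [sig, if_neg hj, if_neg (by omega), if_neg (by omega), if_neg (by omega),
        if_neg (by omega)]
    rw [e p (by omega), e _ (by omega)]
  by_cases h2 : ty = 1
  · subst h2
    have e1 : j = 2 := by omega
    have e2 : i = 0 := by omega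
    subst e1 e2
    obtain ⟨s, l⟩ := p
    have : l = 0 ∨ l = 1 := by simp only at hl; omega
    rcases this with rfl | rfl <;> cases s <;> rfl
  · have e : ∀ q : Bool × ℕ, q.2 < j → sig ty j q = (!q.1, q.2) := by
      intro q hq
      rw [sig, if_neg hj, if_neg (by omega), if_neg (by omega), if_neg (by omega),
        if_pos ⟨h1, hq⟩]
    rw [e p (by omega), e _ (by omega)]
    have hi : ¬ (ty = 0 ∧ i = 1) := by omega
    have a1 : ¬ (ty = 1 ∧ i = 2 ∧ p.2 < 2) := by omega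
    have a2 : ¬ (i = max ty 2 ∧ p.2 < i) := by omega
    simp only [sig, if_neg hi, if_neg a1, if_neg a2]
    split_ifs <;> rfl

theorem msig_supp {ty : ℕ} (hty : ty = 1 ∨ ty % 2 = 0) (i : ℕ) :
    ∃ T : Finset (Bool × ℕ), 4 ∣ T.card ∧ ∀ p, p ∈ T ↔ sig ty i p ≠ p := by
  by_cases h : ty = 0 ∧ i = 1
  · obtain ⟨rfl, rfl⟩ := h
    refine ⟨{(false, 1), (false, 2), (false, 0), (true, 2)}, by decide, ?_⟩
    rintro ⟨s, j⟩
    rcases j with _ | _ | _ | j <;> cases s <;> simp [sig]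
  · refine ⟨univ ×ˢ (if i = max ty 2 then range (i + 2) else {i, i + 1}), ?_, ?_⟩
    · rw [card_product, card_univ, Fintype.card_bool]
      split_ifs with h1
      · rw [card_range]
        omega
      · rw [card_pair (by omega)]
    · rintro ⟨s, j⟩
      simp only [sig, if_neg h, mem_product, mem_univ, true_and]
      split_ifs <;> simp_all <;> omega

theorem sign_of_four {Ω : Type} [Fintype Ω] [DecidableEq Ω] {g : Perm Ω} (hg : ∀ x, g (g x) = x)
    (h4 : 4 ∣ g.support.card) : Perm.sign g = 1 := by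
  have h2 : g ^ 2 = 1 := by ext x; simp [pow_two, hg]
  have h3 : ∀ n ∈ g.cycleType, n = 2 := by
    intro n hn
    have h4 := Perm.two_le_of_mem_cycleType hn
    have h5 : n ∣ 2 := (Perm.dvd_of_mem_cycleType hn).trans (orderOf_dvd_of_pow_eq_one h2)
    have := Nat.le_of_dvd (by norm_num) h5
    omega
  have h6 := Perm.sum_cycleType g
  rw [Multiset.eq_replicate_card.2 h3] at h6
  simp only [Multiset.sum_replicate, smul_eq_mul] at h6
  rw [Perm.sign_of_cycleType, Perm.sum_cycleType]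
  refine Even.neg_one_pow ?_
  rw [Nat.even_iff]
  omega

/-- the labels below `m` acting on an embedded half -/
theorem exists_low {Ω : Type} [Fintype Ω] [DecidableEq Ω] {m ty : ℕ}
    (hty : ty = 1 ∨ ty % 2 = 0) (P : Bool × ℕ → Ω)
    (hP : ∀ p q : Bool × ℕ, p.2 ≤ m → q.2 ≤ m → P p = P q → p = q) (i : ℕ) :
    ∃ g : Perm Ω, i < m → (∀ x, g (g x) = x) ∧ Perm.sign g = 1 ∧
      (∀ p : Bool × ℕ, p.2 ≤ m → g (P p) = P (sig ty i p)) ∧
      ∀ x, (∀ p : Bool × ℕ, p.2 ≤ m → x ≠ P p) → g x = x := by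
  classical
  by_cases hi : i < m
  swap
  · exact ⟨1, fun h => absurd h hi⟩
  let f : Ω → Ω := fun x =>
    if h : ∃ p : Bool × ℕ, p.2 ≤ m ∧ x = P p then P (sig ty i h.choose) else x
  have f1 : ∀ p : Bool × ℕ, p.2 ≤ m → f (P p) = P (sig ty i p) := by
    intro p hp
    have h : ∃ q : Bool × ℕ, q.2 ≤ m ∧ P p = P q := ⟨p, hp, rfl⟩
    simp only [f, dif_pos h]
    rw [← hP _ _ hp h.choose_spec.1 h.choose_spec.2]
  have f2 : ∀ x, (∀ p : Bool × ℕ, p.2 ≤ m → x ≠ P p) → f x = x :=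
    fun x hx => dif_neg fun ⟨p, h1, h2⟩ => hx p h1 h2
  have f3 : Function.Involutive f := by
    intro x
    by_cases h : ∃ p : Bool × ℕ, p.2 ≤ m ∧ x = P p
    · obtain ⟨p, hp, rfl⟩ := h
      rw [f1 p hp, f1 _ (msig_le hi hp), msig_inv]
    · have e := f2 x fun p h1 h2 => h ⟨p, h1, h2⟩
      rw [e, e]
  refine ⟨f3.toPerm, fun _ => ⟨f3, sign_of_four f3 ?_, f1, f2⟩⟩
  obtain ⟨T, h4, hT⟩ := msig_supp hty i
  have hle : ∀ p ∈ T, p.2 ≤ m := by
    intro p hp
    by_contra hh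
    exact (hT p).1 hp (msig_fix (by omega))
  have e : (f3.toPerm).support = T.image P := by
    ext x
    rw [Perm.mem_support, mem_image, Function.Involutive.coe_toPerm]
    constructor
    · intro hx
      by_cases h : ∃ p : Bool × ℕ, p.2 ≤ m ∧ x = P p
      · obtain ⟨p, hp, rfl⟩ := h
        refine ⟨p, (hT p).2 fun e => hx ?_, rfl⟩
        rw [f1 p hp, e]
      · exact absurd (f2 x fun p h1 h2 => h ⟨p, h1, h2⟩) hx
    · rintro ⟨p, hp, rfl⟩ e
      rw [f1 p (hle p hp)] at e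
      exact (hT p).1 hp (hP _ _ (msig_le hi (hle p hp)) (hle p hp) e)
  rw [e, card_image_of_injOn fun p hp q hq e => hP p q (hle p hp) (hle q hq) e]
  exact h4

/-- gluing two halves -/
theorem mod_of_half {Ω : Type} [Fintype Ω] [DecidableEq Ω] {m ty : ℕ} (hm : 3 ≤ m)
    (hty : ty ∈ types m) (hc : Fintype.card Ω = 4 * m + 3) (P : Bool × ℕ → Ω) (δ : Perm Ω)
    (hP : ∀ p q : Bool × ℕ, p.2 ≤ m → q.2 ≤ m → P p = P q → p = q)
    (dinv : ∀ x, δ (δ x) = x)
    (cover : ∀ x, (∃ s j, j ≤ m ∧ x = P (s, j)) ∨ (∃ s j, j ≤ m ∧ δ x = P (s, j)))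
    (mid : δ (P (false, m)) = P (false, m))
    (sep : ∀ p q : Bool × ℕ, p.2 ≤ m → q.2 ≤ m → δ (P p) = P q → p = (false, m)) :
    Nonempty (Mod Ω m ty) := by
  classical
  choose g hg using exists_low (mem_filter.1 hty).2 P hP
  let ρ : ℕ → Perm Ω := fun i =>
    if i < m then g i else if i < 2 * m then δ * g (2 * m - 1 - i) * δ else 1
  have r1 : ∀ i, i < m → ρ i = g i := fun i hi => if_pos hi
  have r2 : ∀ i, m ≤ i → i < 2 * m → ρ i = δ * g (2 * m - 1 - i) * δ :=
    fun i h1 h2 => (if_neg (by omega)).trans (if_pos h2)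
  have r3 : ∀ i, 2 * m ≤ i → ρ i = 1 :=
    fun i h1 => (if_neg (by omega)).trans (if_neg (by omega))
  have mv : ∀ i, i < m → ∀ x, g i x ≠ x →
      ∃ p : Bool × ℕ, p.2 ≤ m ∧ x = P p ∧ p.2 ≤ i + 1 := by
    intro i hi x hx
    by_cases h : ∃ p : Bool × ℕ, p.2 ≤ m ∧ x = P p
    · obtain ⟨p, hp, rfl⟩ := h
      refine ⟨p, hp, rfl, ?_⟩
      by_contra hh
      exact hx (by rw [(hg i hi).2.2.1 p hp, msig_fix (by omega)])
    · exact absurd ((hg i hi).2.2.2 x fun p h1 h2 => h ⟨p, h1, h2⟩) hx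
  have cl : ∀ i j, i + 2 ≤ j → j < m → ∀ x, g i (g j x) = g j (g i x) := by
    intro i j hij hj x
    have hi : i < m := by omega
    by_cases h : ∃ p : Bool × ℕ, p.2 ≤ m ∧ x = P p
    · obtain ⟨p, hp, rfl⟩ := h
      rw [(hg i hi).2.2.1 p hp, (hg j hj).2.2.1 p hp, (hg i hi).2.2.1 _ (msig_le hj hp),
        (hg j hj).2.2.1 _ (msig_le hi hp), msig_comm ty hij]
    · have e1 := (hg i hi).2.2.2 x fun p h1 h2 => h ⟨p, h1, h2⟩
      have e2 := (hg j hj).2.2.2 x fun p h1 h2 => h ⟨p, h1, h2⟩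
      rw [e1, e2, e1]
  refine ⟨⟨ρ, δ, P, hm, hty, hc, r3, fun i x => ?_, fun i j hij x => ?_, fun i => ?_, dinv,
    fun i hi x => ?_, fun s j s' j' h1 h2 e => Prod.mk.inj (hP _ _ h1 h2 e),
    fun i hi s j hj => ?_, fun i hi x hx => ?_, cover, mid,
    fun s j s' j' h1 h2 e => Prod.mk.inj (sep _ _ h1 h2 e)⟩⟩
  · by_cases h1 : i < m
    · rw [r1 i h1, (hg i h1).1]
    by_cases h2 : i < 2 * m
    · rw [r2 i (by omega) h2]
      simp only [Perm.mul_apply]
      rw [dinv, (hg _ (by omega)).1, dinv]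
    · rw [r3 i (by omega)]
      rfl
  · by_cases h1 : j < m
    · rw [r1 i (by omega), r1 j h1, cl i j hij h1]
    by_cases h2 : 2 * m ≤ j
    · rw [r3 j h2]
      rfl
    by_cases h3 : i < m
    · have d : Perm.Disjoint (ρ i) (ρ j) := by
        intro y
        by_contra hh
        rw [not_or, r1 i h3, r2 j (by omega) (by omega)] at hh
        obtain ⟨p, p1, rfl, p3⟩ := mv i h3 y hh.1
        obtain ⟨q, q1, q2, q3⟩ := mv (2 * m - 1 - j) (by omega) (δ (P p)) fun e => hh.2 (by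
          simp only [Perm.mul_apply]
          rw [e, dinv])
        have e1 := sep p q p1 q1 q2
        subst e1
        rw [mid] at q2
        have e2 := hP _ _ p1 q1 q2
        subst e2
        simp only at p3 q3
        omega
      exact congrArg (fun u : Perm Ω => u x) d.commute.eq
    · rw [r2 i (by omega) (by omega), r2 j (by omega) (by omega)]
      simp only [Perm.mul_apply]
      rw [dinv, dinv, cl (2 * m - 1 - j) (2 * m - 1 - i) (by omega) (by omega)]
  · by_cases h1 : i < m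
    · rw [r1 i h1, (hg i h1).2.1]
    by_cases h2 : i < 2 * m
    · rw [r2 i (by omega) h2, Perm.sign_mul, Perm.sign_mul, (hg _ (by omega)).2.1, mul_one,
        Int.units_mul_self]
    · rw [r3 i (by omega), Perm.sign_one]
  · by_cases h1 : i < m
    · rw [r1 i h1, r2 _ (by omega) (by omega), show 2 * m - 1 - (2 * m - 1 - i) = i by omega]
      simp only [Perm.mul_apply]
      rw [dinv]
    · rw [r2 i (by omega) hi, r1 _ (by omega)]
      simp only [Perm.mul_apply]
      rw [dinv]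
  · rw [r1 i hi, (hg i hi).2.2.1 _ hj]
  · rw [r1 i hi]
    exact (hg i hi).2.2.2 x fun p hp => hx p.1 p.2 hp

theorem exists_mod {m ty : ℕ} (hm : 3 ≤ m) (hty : ty ∈ types m) :
    Nonempty (Mod (Fin (4 * m + 3)) m ty) := by
  let P : Bool × ℕ → Fin (4 * m + 3) := fun p =>
    ⟨if p.1 = true then min p.2 m else m + 1 + min p.2 m, by split_ifs <;> omega⟩
  have v1 : ∀ j, j ≤ m → (P (true, j) : ℕ) = j := fun j hj => by
    simp only [P, if_true]
    omega
  have v2 : ∀ j, j ≤ m → (P (false, j) : ℕ) = m + 1 + j := fun j hj => by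
    simp only [P, Bool.false_eq_true, if_false]
    omega
  have vr : ∀ x : Fin (4 * m + 3), ((Fin.revPerm x : Fin (4 * m + 3)) : ℕ) + x = 4 * m + 2 := by
    intro x
    have := x.2
    rw [Fin.revPerm_apply, Fin.val_rev]
    omega
  have cv : ∀ x : Fin (4 * m + 3), (x : ℕ) ≤ 2 * m + 1 → ∃ s j, j ≤ m ∧ x = P (s, j) := by
    intro x hx
    by_cases h : (x : ℕ) ≤ m
    · exact ⟨true, x, h, Fin.ext (v1 _ h).symm⟩
    · exact ⟨false, x - (m + 1), by omega, Fin.ext (by rw [v2 _ (by omega)]; omega)⟩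
  refine mod_of_half hm hty (Fintype.card_fin _) P Fin.revPerm ?_ (fun x => Fin.rev_rev x)
    (fun x => ?_) (Fin.ext ?_) ?_
  · rintro ⟨s, j⟩ ⟨s', j'⟩ h1 h2 e
    have e' := congrArg Fin.val e
    have a1 := v1 j h1
    have a2 := v2 j h1
    have a3 := v1 j' h2
    have a4 := v2 j' h2
    simp only at h1 h2
    cases s <;> cases s' <;> simp only [Prod.mk.injEq, true_and, reduceCtorEq, false_and] <;> omega
  · have := vr x
    by_cases h : (x : ℕ) ≤ 2 * m + 1
    · exact Or.inl (cv x h)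
    · exact Or.inr (cv _ (by omega))
  · have a1 := vr (P (false, m))
    have a2 := v2 m le_rfl
    omega
  · rintro ⟨s, j⟩ ⟨s', j'⟩ h1 h2 e
    have e' := congrArg Fin.val e
    have a0 := vr (P (s, j))
    have a1 := v1 j h1
    have a2 := v2 j h1
    have a3 := v1 j' h2
    have a4 := v2 j' h2
    simp only at h1 h2
    cases s <;> cases s' <;> simp only [Prod.mk.injEq, true_and, reduceCtorEq, false_and] <;> omega

end D145
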