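import Pool.Agent.MP_d145c0_al.H75.G1
import Pool.Agent.MP_d145c0_al.H75.Sum

/-! The last single level, first reductions. -/

namespace D145
open Equiv Finset
namespace SD
variable {Ω : Type} [Fintype Ω] [DecidableEq Ω] {m : ℕ} {S : SD Ω m} {c : ℕ} {x : Ω}

/-- a point with a large label has a large level -/
theorem lastA_star (hc : c ≤ 2 * m) {z : Ω} (hz : ¬ S.hi z + c + 1 ≤ 2 * m) :
    2 * m ≤ S.lo z + S.H c + 1 := by
  have h1 := S.lo_δ z
  have h2 := S.hi_δ z
  have h3 := S.hi_le_H (c := c) (z := S.δ z) (by omega)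
  omega

/-- counting a finite set level by level -/
theorem lastA_levels (M : Finset Ω) (I : Finset ℕ) :
    ∑ i ∈ I, (M.filter (fun z => S.lo z = i)).card ≤ M.card := by
  rw [← Finset.card_biUnion]
  · apply Finset.card_le_card
    intro z hz
    rw [Finset.mem_biUnion] at hz
    obtain ⟨i, _, hz⟩ := hz
    exact (Finset.mem_filter.1 hz).1
  · intro i _ j _ hij
    rw [Function.onFun, Finset.disjoint_left]
    intro z h1 h2
    exact hij ((Finset.mem_filter.1 h1).2.symm.trans (Finset.mem_filter.1 h2).2)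

/-- a low level lies inside the middle part -/
theorem lastA_lev_le (hc : c ≤ 2 * m) {i : ℕ} (h1 : c ≤ i) (h2 : i + S.H c + 2 ≤ 2 * m) :
    S.a i ≤ ((univ.filter (fun z => c ≤ S.lo z ∧ S.hi z + c + 1 ≤ 2 * m)).filter
      (fun z => S.lo z = i)).card := by
  apply Finset.card_le_card
  intro z hz
  rw [mem_lev] at hz
  simp only [Finset.mem_filter, Finset.mem_univ, true_and]
  refine ⟨⟨by omega, ?_⟩, hz⟩
  by_contra hh
  have := lastA_star (S := S) hc hh
  omega

theorem AlX.last_big (h : S.AlX c x) (hl : ∀ i, c < i → i < m → 2 ≤ S.a i)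
    (hI : S.Inv c) (h2 : c + 2 ≤ S.H c) (hH : m ≤ S.H c + 1) : False := by
  have hcm := h.2.1
  have hA := hI.2.2 h2
  have hM := h.card_mid
  have hHle := h.H_le
  set M := univ.filter (fun z => c ≤ S.lo z ∧ S.hi z + c + 1 ≤ 2 * m) with hMdef
  have h3 := lastA_levels (S := S) M (Icc c (2 * m - 2 - c))
  have h4 : ∑ i ∈ Icc c (2 * m - 2 - c),
      (1 + if i ∈ Icc (c + 1) (2 * m - 2 - S.H c) then 1 else 0) ≤
      ∑ i ∈ Icc c (2 * m - 2 - c), (M.filter (fun z => S.lo z = i)).card := by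
    apply Finset.sum_le_sum
    intro i hi
    rw [Finset.mem_Icc] at hi
    split_ifs with hJ
    · rw [Finset.mem_Icc] at hJ
      have h5 := hl i (by omega) (by omega)
      have h6 := lastA_lev_le (S := S) (c := c) (i := i) (by omega) (by omega) (by omega)
      rw [← hMdef] at h6
      omega
    · obtain ⟨z, hz1, hz2⟩ := h.mid_lev (i := i) (by omega) (by omega)
      have : 0 < (M.filter (fun z => S.lo z = i)).card := by
        refine Finset.card_pos.2 ⟨z, ?_⟩
        simp only [hMdef, Finset.mem_filter, Finset.mem_univ, true_and]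
        exact ⟨⟨by omega, hz2⟩, hz1⟩
      omega
  rw [Finset.sum_add_distrib, Finset.sum_const, Finset.sum_ite_mem, Finset.sum_const] at h4
  have h7 : Icc c (2 * m - 2 - c) ∩ Icc (c + 1) (2 * m - 2 - S.H c) =
      Icc (c + 1) (2 * m - 2 - S.H c) := by
    apply Finset.inter_eq_right.2
    intro i hi
    rw [Finset.mem_Icc] at hi ⊢
    omega
  rw [h7, Nat.card_Icc, Nat.card_Icc] at h4
  simp only [smul_eq_mul, mul_one] at h4
  omega

theorem AlX.last_small_prim (h : S.AlX c x) (hc : c + 2 = m) (ha : 2 ≤ S.a (c + 1))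
    (h2 : S.H c ≤ c + 1) (hp : S.Prim c x) : False := by
  obtain ⟨hl2, hAlt⟩ := hp
  obtain ⟨hl1, hh1⟩ := h.x1
  have hl0 := h.2.2.1
  have hh0 := h.hi_x
  set x1 := S.ρ (c + 1) x with hx1
  set x2 := S.ρ (c + 2) x1 with hx2
  have n01 : x ≠ x1 := by intro e; rw [← e] at hl1; omega
  have n12 : x1 ≠ x2 := by intro e; rw [← e] at hl2; omega
  have n02 : x ≠ x2 := by intro e; rw [← e] at hl2; omega
  have f2 : S.ρ (c + 1) x2 = x2 := S.fix_lo (by omega)
  have e1 : S.ρ (c + 1) (S.δ x2) = S.δ x1 := by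
    rw [S.δ_edge (i := c + 2) (by omega), hx2, S.inv]
  have e2 : S.ρ (c + 2) (S.δ x1) = S.δ x := by
    rw [S.δ_edge (i := c + 1) (by omega), hx1, S.inv]
  have g1 : S.ρ (c + 2) (S.δ x2) = S.δ x2 := by
    rw [S.δ_edge (i := c + 1) (by omega), f2]
  have g3 : S.ρ (c + 1) (S.δ x) = S.δ x := by
    rw [S.δ_edge (i := c + 2) (by omega), h.fix_x le_rfl]
  have hd := (d3p (S.inv (c + 1)) (S.inv (c + 2)) n01 n12 n02 hAlt e1 e2 g1 g3
    (fun e => n12 (S.δ_inj e).symm) (fun e => n01 (S.δ_inj e).symm)).2.2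
  have hlδ := S.lo_δ x
  have hδ : S.δ x = x2 := by
    simp only [Set.mem_insert_iff, Set.mem_singleton_iff] at hd
    rcases hd with e | e | e
    · rw [e] at hlδ; omega
    · rw [e] at hlδ; omega
    · exact e
  have hcl := h.closed (P := fun z => z = x ∨ z = x1 ∨ z = x2 ∨ S.lo (S.δ z) < c) (Or.inl rfl) (by
    intro i hi z hz
    rcases hz with rfl | rfl | rfl | hz
    · rcases Nat.eq_or_lt_of_le hi with rfl | hi
      · exact Or.inr (Or.inl rfl)
      · exact Or.inl (h.fix_x (by omega))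
    · rcases Nat.eq_or_lt_of_le hi with rfl | hi
      · left; rw [hx1, S.inv]
      · rcases Nat.eq_or_lt_of_le hi with rfl | hi
        · exact Or.inr (Or.inr (Or.inl rfl))
        · exact Or.inr (Or.inl (S.fix_hi (by omega)))
    · by_cases hf : S.ρ i x2 = x2
      · exact Or.inr (Or.inr (Or.inl hf))
      have hlt := S.lt_of_mv hf
      have hle := S.lo_le hf
      rcases Nat.eq_or_lt_of_le hle with e | hi'
      · right; left
        rw [← e, hl2, hx2, S.inv]
      · right; right; right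
        have e3 : S.ρ i x2 = S.δ (S.ρ (2 * m - 1 - i) x) := by
          rw [← hδ, S.δ_edge (i := 2 * m - 1 - i) (by omega)]
        by_cases hj : 2 * m - 1 - i < c
        · exfalso; apply hf
          rw [e3, S.fix_lo (by omega), hδ]
        · have e4 : 2 * m - 1 - i = c := by omega
          rw [e3, S.dinv, e4]
          have := h.lo_y
          omega
    · by_cases hj : i + c + 1 ≠ 2 * m ∨ S.δ z ≠ S.ρ c x
      · exact Or.inr (Or.inr (Or.inr (h.D_pres hz hj)))
      · push Not at hj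
        obtain ⟨hj1, hj2⟩ := hj
        right; right; left
        have e5 : z = S.ρ i (S.δ x) := by
          rw [S.δ_edge (i := c) (by omega), ← hj2, S.dinv]
        rw [e5, S.inv, hδ])
  obtain ⟨w, hw, hw1⟩ : ∃ w ∈ S.lev (c + 1), w ≠ x1 := Finset.exists_mem_ne (by
    unfold a at ha; omega) x1
  rw [mem_lev] at hw
  rcases hcl w with e | e | e | e | e
  · omega
  · rw [e] at hw; omega
  · exact hw1 e
  · rw [e] at hw; omega
  · have h5 := S.hi_le_H e
    have h6 := S.hi_δ w
    omega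

/-- large overhang, or `c = m - 2` -/
theorem AlX.last12 (h : S.AlX c x) (hc : c + 2 ≤ m) (hl : ∀ i, c < i → i < m → 2 ≤ S.a i)
    (hI : S.Inv c) (hH : m ≤ S.H c + 1 ∨ c + 2 = m) : False := by
  by_cases h2 : c + 2 ≤ S.H c
  · exact h.last_big hl hI h2 (by omega)
  have hcm : c + 2 = m := by omega
  rcases h.prim_or_imp hc (by omega) with hp | ⟨h3, h4, h5⟩
  · exact h.last_small_prim hcm (hl _ (by omega) (by omega)) (by omega) hp
  · have hM := h.card_mid
    have h6 := lastA_lev_le (S := S) (c := c) (i := c + 1) (by omega) (by omega) (by omega)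
    have h7 := Finset.card_filter_le
      (univ.filter (fun z => c ≤ S.lo z ∧ S.hi z + c + 1 ≤ 2 * m)) (fun z => S.lo z = c + 1)
    omega

theorem AlX.last_low (h : S.AlX c x) (hc : c + 3 ≤ m) (hH : S.H c + 2 ≤ m) {z : Ω}
    (hz : S.lo z ≤ c) : S.hi z < m + 1 := by
  rcases Nat.eq_or_lt_of_le hz with e | e
  · have := h.hi_x
    rw [h.2.2.2 z e]; omega
  · have := S.hi_le_H e
    omega

theorem AlX.last_pl (h : S.AlX c x) (hc : c + 3 ≤ m) (hH : S.H c + 2 ≤ m) {O : Finset Ω}
    (hO : O ∈ S.Orbs (m - 2) (m + 1)) : c + 1 ≤ S.pl O := by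
  obtain ⟨z, hz, e⟩ := S.exists_pl hO
  have h1 := (S.Orbs_W (by omega) hO hz).2
  by_contra hh
  have := h.last_low hc hH (z := z) (by omega)
  omega

theorem AlX.last_gam (h : S.AlX c x) (hc : c + 3 ≤ m) (hH : S.H c + 2 ≤ m) {i : ℕ}
    (hi : i ≤ c) : S.gam (m - 2) (m + 1) i = S.a i := by
  have h1 : S.OI (m - 2) (m + 1) i = ∅ := by
    apply Finset.eq_empty_of_forall_notMem
    intro O hO
    rw [mem_OI] at hO
    have := h.last_pl hc hH hO.1
    omega
  have h2 : S.OP (m - 2) (m + 1) i = ∅ := by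
    apply Finset.eq_empty_of_forall_notMem
    intro O hO
    rw [mem_OP] at hO
    have := h.last_pl hc hH hO.1
    omega
  have h3 : S.levX (m + 1) i = S.lev i := by
    ext z
    rw [mem_levX, mem_lev]
    exact ⟨fun hz => hz.1, fun hz => ⟨hz, h.last_low hc hH (by omega)⟩⟩
  unfold gam aX a
  rw [h1, h2, h3]; simp

/-- the budget of the middle part -/
theorem AlX.last_sum (h : S.AlX c x) (hc : c + 3 ≤ m) (hH : S.H c + 2 ≤ m) :
    4 * m + 1 = (univ.filter (fun z => m - 2 < S.lo z ∧ S.hi z < m + 1)).card +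
      2 * (S.A c).card + 2 * ∑ i ∈ Icc (c + 1) (m - 2), S.gam (m - 2) (m + 1) i +
      ∑ O ∈ S.Orbs (m - 2) (m + 1), S.exc O ∧
    ∀ O ∈ S.Orbs (m - 2) (m + 1), c + 1 ≤ S.pl O := by
  refine ⟨?_, fun O hO => h.last_pl hc hH hO⟩
  have h1 := S.sumSym (b := m - 2) (b' := m + 1) (by omega) (by omega)
  have h2 : range (m - 2 + 1) = range (c + 1) ∪ Icc (c + 1) (m - 2) := by
    ext i
    simp only [Finset.mem_range, Finset.mem_union, Finset.mem_Icc]
    omega
  have h3 : Disjoint (range (c + 1)) (Icc (c + 1) (m - 2)) := by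
    rw [Finset.disjoint_left]
    intro i h1 h2
    rw [Finset.mem_range] at h1
    rw [Finset.mem_Icc] at h2
    omega
  have h4 : ∑ i ∈ range (c + 1), S.gam (m - 2) (m + 1) i = (S.A c).card + 1 := by
    rw [Finset.sum_congr rfl (fun i hi => h.last_gam hc hH
      (Nat.lt_succ_iff.1 (Finset.mem_range.1 hi))), Finset.sum_range_succ, ← S.card_A,
      h.al.2.2]
  rw [h2, Finset.sum_union h3, h4] at h1
  omega

theorem AlX.last_prim (h : S.AlX c x) (hc : c + 3 ≤ m) (hH : S.H c + 2 ≤ m)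
    (hl : ∀ i, c < i → i < m → 2 ≤ S.a i) (hI : S.Inv c) : S.H c ≤ c + 1 ∧ S.Prim c x := by
  obtain ⟨h1, hpl⟩ := h.last_sum hc hH
  have h2 : ∀ i ∈ Icc (c + 1) (m - 2), 2 ≤ S.gam (m - 2) (m + 1) i := by
    intro i hi
    rw [Finset.mem_Icc] at hi
    exact S.gam_two (by omega) (by omega) hi.2 (hl i (by omega) (by omega))
  obtain ⟨p, hp, hp3⟩ : ∃ p ∈ Icc (c + 1) (m - 2), 3 ≤ S.gam (m - 2) (m + 1) p := by
    rcases (S.W (m - 2) (m + 1)).eq_empty_or_nonempty with hW | hW
    · refine ⟨c + 1, by rw [Finset.mem_Icc]; omega, ?_⟩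
      have h3 : S.levX (m + 1) (c + 1) = S.lev (c + 1) := by
        ext z
        rw [mem_levX, mem_lev]
        refine ⟨fun hz => hz.1, fun hz => ⟨hz, ?_⟩⟩
        by_contra hh
        have : z ∈ S.W (m - 2) (m + 1) := by rw [mem_W]; omega
        rw [hW] at this
        simp at this
      have h4 : S.aX (m + 1) (c + 1) = S.a (c + 1) := by unfold aX a; rw [h3]
      have h5 := hl (c + 1) (by omega) (by omega)
      obtain ⟨k, hk⟩ := h.odd
      unfold gam
      omega
    · obtain ⟨y, hy, _⟩ := h.mid_lev (i := m - 1) (by omega) (by omega)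
      obtain ⟨O, hO, u, hu, he⟩ := S.exists_O1 (y := y) (by omega) hW
      have h3 := hpl O hO
      have h4 := S.Orbs_range (by omega) hO
      have h5 := (S.copy_gam (by omega) hO hu (by simpa using he)).2.2 (by omega)
      exact ⟨S.pl O, by rw [Finset.mem_Icc]; omega, by omega⟩
  have h6 := sum_excess h2 (t := {p}) (Finset.singleton_subset_iff.2 hp)
  rw [Finset.sum_singleton, Finset.card_singleton, Nat.card_Icc] at h6
  have h7 : (S.A c).card ≤ 2 * c + 3 := by omega
  have h8 : S.H c ≤ c + 1 := by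
    by_contra hh
    have := hI.2.2 (by omega)
    omega
  refine ⟨h8, ?_⟩
  rcases h.prim_or_imp (by omega) h8 with hp | ⟨_, h4, _⟩
  · exact hp
  · omega

end SD
end D145
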