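/-! A certificate checker for a backtracking search over tables of involutions, written for fast
evaluation. Points are `0, 1, …`; column `c < r` is the label `c`, column `r` is the duality.
An entry of a table is `0` (unknown) or `y + 1`. -/

namespace D145.Sm
noncomputable section

/-- forces the evaluation of `n`; equal to `k n` -/
def frc (n : Nat) (k : Nat → Bool) : Bool :=
  @Nat.rec (fun _ => Bool) false (fun m _ => k m) (Nat.succ n)

/-- position of the entry `(x, c)` -/
def pos (x c : Nat) : Nat := Nat.add (Nat.mul (nat_lit 45) x) (Nat.mul (nat_lit 5) c)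

/-- entry `(x, c)` of the table `T` -/
def gt (T x c : Nat) : Nat :=
  Nat.land (Nat.shiftRight T (Nat.add (Nat.mul (nat_lit 45) x) (Nat.mul (nat_lit 5) c))) (nat_lit 31)

/-- table with the new edge `x - y` in column `c` -/
def put (T x c y : Nat) : Nat :=
  Nat.lor (Nat.lor T (Nat.shiftLeft (Nat.succ y) (pos x c))) (Nat.shiftLeft (Nat.succ x) (pos y c))

/-- record the edge `x - y` in column `c`; the value `cf` on a conflict -/
def setE (cf : Bool) (T x c y : Nat) (k : Nat → Bool) : Bool :=
  @Nat.rec (fun _ => Bool)
    (@Nat.rec (fun _ => Bool) (frc (put T x c y) k) (fun _ _ => cf) (gt T y c))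
    (fun a _ => @Bool.rec (fun _ => Bool) cf (k T) (Nat.beq a y)) (gt T x c)

/-- one deduction: from `x -i- y`, `x -j- a`, `y -j'- b` record `a -i'- b` -/
def ded1 (cf : Bool) (T x i j i' j' : Nat) (k : Nat → Bool) : Bool :=
  @Nat.rec (fun _ => Bool) false (fun y _ =>
    @Nat.rec (fun _ => Bool) false (fun a _ =>
      @Nat.rec (fun _ => Bool) false (fun b _ => setE cf T a i' b k) (gt T y j')) (gt T x j))
    (gt T x i)

/-- A run of deductions, coded in `ds`. The byte number `i + 16 j` of `TB` is `0` or
`i' + 16 j' + 1` for a relation `σ j' * σ i = σ i' * σ j`. -/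
def ded (TB : Nat) (cf : Bool) (k : Nat → Bool) (fuel : Nat) : Nat → Nat → Bool :=
  @Nat.rec (fun _ => Nat → Nat → Bool) (fun _ _ => false)
    (fun _ ih T ds =>
      @Nat.rec (fun _ => Bool) (k T) (fun m _ =>
        frc (Nat.land m (nat_lit 31)) fun x =>
        frc (Nat.land (Nat.shiftRight m (nat_lit 5)) (nat_lit 255)) fun e =>
        @Nat.rec (fun _ => Bool) false (fun t _ =>
          frc (Nat.land t (nat_lit 15)) fun i' =>
          ded1 cf T x (Nat.land e (nat_lit 15)) (Nat.shiftRight e (nat_lit 4)) i'
            (Nat.shiftRight t (nat_lit 4))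
            (fun T' => ih T' (Nat.shiftRight m (nat_lit 13))))
          (Nat.land (Nat.shiftRight TB (Nat.mul (nat_lit 8) e)) (nat_lit 255))) ds) fuel

/-- The edges coded in `es` have labels `< r` other than `i`, each starts in the set `M` (a bit mask)
reached so far, and in the end all points `< nd` are reached. -/
def span (r T nd i : Nat) (fuel : Nat) : Nat → Nat → Bool :=
  @Nat.rec (fun _ => Nat → Nat → Bool) (fun _ _ => false)
    (fun _ ih M es =>
      @Nat.rec (fun _ => Bool) (Nat.beq (Nat.succ M) (Nat.shiftLeft (nat_lit 1) nd)) (fun m _ =>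
        frc (Nat.land m (nat_lit 31)) fun x =>
        frc (Nat.land (Nat.shiftRight m (nat_lit 5)) (nat_lit 7)) fun c =>
        @Bool.rec (fun _ => Bool)
          (@Bool.rec (fun _ => Bool)
            (@Nat.rec (fun _ => Bool) false (fun _ _ =>
              @Nat.rec (fun _ => Bool) false (fun y _ =>
                frc (Nat.lor M (Nat.shiftLeft (nat_lit 1) y)) fun M' =>
                  ih M' (Nat.shiftRight m (nat_lit 8))) (gt T x c))
              (Nat.land (Nat.shiftRight M x) (nat_lit 1)))
            false (Nat.ble r c))
          false (Nat.beq c i)) es) fuel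

/-- `d + 1` increasing labels in `(l, r - 2]`, each leaving the points `< nd` connected; each number
of the list codes a label and its spanning edges -/
def frac (r T nd : Nat) (k : List Nat → Bool) (d : Nat) : Nat → List Nat → Bool :=
  @Nat.rec (fun _ => Nat → List Nat → Bool) (fun _ s => k s)
    (fun _ ih l s =>
      @List.rec Nat (fun _ => Bool) false (fun u s' _ =>
        frc (Nat.land u (nat_lit 7)) fun i =>
        @Bool.rec (fun _ => Bool) false
          (@Bool.rec (fun _ => Bool) false
            (@Bool.rec (fun _ => Bool) false (ih i s')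
              (span r T nd i (nat_lit 30) (nat_lit 1) (Nat.shiftRight u (nat_lit 3))))
            (Nat.ble (Nat.succ (Nat.succ i)) r))
          (Nat.ble (Nat.succ l) i)) s) (Nat.succ d)

/-- number of points `< f` moved in the column `c`, plus one; `0` if an entry is unknown -/
def cnt (T c f : Nat) : Nat :=
  @Nat.rec (fun _ => Nat) (nat_lit 1)
    (fun x ih => @Nat.rec (fun _ => Nat) (nat_lit 0)
      (fun y _ => @Nat.rec (fun _ => Nat) (nat_lit 0)
        (fun s _ => @Bool.rec (fun _ => Nat) (Nat.succ (Nat.succ s)) (Nat.succ s) (Nat.beq x y)) ih)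
      (gt T x c)) f

/-- the column `c` is known and is trivial or odd -/
def par (n T c : Nat) : Bool :=
  @Nat.rec (fun _ => Bool) false
    (fun s _ => Nat.beq s (nat_lit 0) || !Nat.beq (Nat.mod s (nat_lit 4)) (nat_lit 0)) (cnt T c n)

/-- All labels are known on the points `< nd`; `F` has the bit `pos x c` set for all points `x` and
labels `c`. -/
def full (F T nd : Nat) : Bool :=
  frc (Nat.mod F (Nat.shiftLeft (nat_lit 1) (Nat.mul (nat_lit 45) nd))) fun G =>
  Nat.beq (Nat.land G (Nat.lor (Nat.lor (Nat.lor (Nat.lor T (Nat.shiftRight T (nat_lit 1)))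
    (Nat.shiftRight T (nat_lit 2))) (Nat.shiftRight T (nat_lit 3))) (Nat.shiftRight T (nat_lit 4)))) G

/-- the state `(nd, T)` is in the list -/
def inK (K : List (Nat × Nat)) (nd T : Nat) : Bool :=
  K.any (fun p => Nat.beq p.1 nd && Nat.beq p.2 T)

/-- The search from the state `(nd, T)`, branching on the entry coded by `z`. For each candidate the
list gives a number: what to do, an argument, and a run of deductions. `K` lists states treated
elsewhere. -/
def go (n r TB F : Nat) (K : List (Nat × Nat)) (fuel : Nat) :
    Nat → Nat → Nat → List Nat → (List Nat → Bool) → Bool :=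
  @Nat.rec (fun _ => Nat → Nat → Nat → List Nat → (List Nat → Bool) → Bool)
    (fun _ _ _ _ _ => false)
    (fun _ ih nd T z s k =>
      frc (Nat.div z (nat_lit 9)) fun x => frc (Nat.mod z (nat_lit 9)) fun c =>
      @Bool.rec (fun _ => Bool) false (@Bool.rec (fun _ => Bool) false (@Nat.rec (fun _ => Bool)
        (@Nat.rec (fun _ => List Nat → Bool) k
          (fun y ihy s1 =>
            @Nat.rec (fun _ => Bool)
              (@Bool.rec (fun _ => Bool)
                (@List.rec Nat (fun _ => Bool) false (fun w s2 _ =>
                  frc (@Bool.rec (fun _ => Nat) nd (Nat.succ nd) (Nat.beq y nd)) fun nd' =>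
                  frc (Nat.land (Nat.shiftRight w (nat_lit 3)) (nat_lit 255)) fun g =>
                  @Nat.rec (fun _ => Bool)
                    (setE false T x c y (fun T1 => ded TB false (fun T2 => ih nd' T2 g s2 ihy)
                      (nat_lit 200) T1 (Nat.shiftRight w (nat_lit 11))))
                    (fun a _ => @Nat.rec (fun _ => Bool)
                      (setE false T x c y (fun T1 => ded TB false
                        (fun T2 => frac r T2 nd' ihy (Nat.sub n nd') (nat_lit 0) s2)
                        (nat_lit 200) T1 (Nat.shiftRight w (nat_lit 11))))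
                      (fun a _ => @Bool.rec (fun _ => Bool) false (ihy s2)
                        (setE true T x c y (fun T1 => ded TB true (fun T2 =>
                          @Nat.rec (fun _ => Bool) false (fun a _ =>
                            @Nat.rec (fun _ => Bool) (Nat.blt nd' n && full F T2 nd') (fun a _ =>
                              @Nat.rec (fun _ => Bool) (Nat.beq nd' n && Nat.blt g r && par n T2 g)
                                (fun _ _ => inK K nd' T2) a) a) a)
                          (nat_lit 200) T1 (Nat.shiftRight w (nat_lit 11))))) a)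
                    (Nat.land w (nat_lit 7))) s1)
                (ihy s1) (Nat.beq y n))
              (fun _ _ => ihy s1) (gt T y c))
          (Nat.succ nd) s)
        (fun _ _ => false) (gt T x c)) (Nat.ble c r)) (Nat.ble (Nat.succ x) nd)) fuel

end
end D145.Sm
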