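import Pool.Agent.MP_d145c0_al.H75.Basic

/-! The setting for `m = 3, 4`: the same structure and basic facts. -/

namespace D145
open Equiv Finset

/-- A self-dual string C-group for the alternating group, as permutations. -/
structure SD0 (Ω : Type) [Fintype Ω] [DecidableEq Ω] (m : ℕ) where
  ρ : ℕ → Perm Ω
  δ : Perm Ω
  hm : 3 ≤ m
  hm4 : m ≤ 4
  card : Fintype.card Ω = 4 * m + 3
  triv : ∀ i, 2 * m ≤ i → ρ i = 1
  inv : ∀ i x, ρ i (ρ i x) = x
  ne : ∀ i, i < 2 * m → ρ i ≠ 1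
  comm : ∀ i j, i + 2 ≤ j → ∀ x, ρ i (ρ j x) = ρ j (ρ i x)
  even : ∀ i, Perm.sign (ρ i) = 1
  gen : Subgroup.closure (Set.range ρ) = alternatingGroup Ω
  ip : ∀ k l, Gen ρ (Set.Iic l) ⊓ Gen ρ (Set.Ici k) ≤ Gen ρ (Set.Icc k l)
  dinv : ∀ x, δ (δ x) = x
  dual : ∀ i, i < 2 * m → ∀ x, δ (ρ i x) = ρ (2 * m - 1 - i) (δ x)

namespace SD0
variable {Ω : Type} [Fintype Ω] [DecidableEq Ω] {m : ℕ} (S : SD0 Ω m)

/-- subgroup generated by the labels in `I` -/
def G (I : Set ℕ) : Subgroup (Perm Ω) := Gen S.ρ I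

/-- `y` is in the orbit of `x` under the labels in `I` -/
def R (I : Set ℕ) (x y : Ω) : Prop := ∃ g ∈ S.G I, g x = y

/-- least label moving `x` (the level of `x`) -/
noncomputable def lo (x : Ω) : ℕ := sInf {i | S.ρ i x ≠ x}

/-- largest label moving `x` -/
noncomputable def hi (x : Ω) : ℕ := sSup {i | S.ρ i x ≠ x}

/-- points of level `i` -/
noncomputable def lev (i : ℕ) : Finset Ω := univ.filter (fun x => S.lo x = i)

/-- number of points of level `i` -/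
noncomputable def a (i : ℕ) : ℕ := (S.lev i).card

/-- points moved by the label `i` -/
def supp (i : ℕ) : Finset Ω := univ.filter (fun x => S.ρ i x ≠ x)

/-- points of level `< c` -/
noncomputable def A (c : ℕ) : Finset Ω := univ.filter (fun x => S.lo x < c)


theorem ρ_inj {i : ℕ} {x y : Ω} (h : S.ρ i x = S.ρ i y) : x = y := (S.ρ i).injective h

theorem ρ_swap {i : ℕ} {x y : Ω} (h : S.ρ i x = y) : S.ρ i y = x := by rw [← h, S.inv]

theorem δ_inj {x y : Ω} (h : S.δ x = S.δ y) : x = y := S.δ.injective h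

theorem δ_swap {x y : Ω} (h : S.δ x = y) : S.δ y = x := by rw [← h, S.dinv]

/-- far apart labels commute -/
theorem comm' {i j : ℕ} (h : i + 2 ≤ j ∨ j + 2 ≤ i) (x : Ω) :
    S.ρ i (S.ρ j x) = S.ρ j (S.ρ i x) := by
  rcases h with h | h
  · exact S.comm i j h x
  · exact (S.comm j i h x).symm

theorem fix_comm {i j : ℕ} (h : i + 2 ≤ j ∨ j + 2 ≤ i) (x : Ω) :
    S.ρ j (S.ρ i x) = S.ρ i x ↔ S.ρ j x = x := by
  rw [← S.comm' h]; exact ⟨fun h => S.ρ_inj h, fun h => by rw [h]⟩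

theorem fix_self (i : ℕ) (x : Ω) : S.ρ i (S.ρ i x) = S.ρ i x ↔ S.ρ i x = x := by
  rw [S.inv]; exact eq_comm

theorem lt_of_mv {i : ℕ} {x : Ω} (h : S.ρ i x ≠ x) : i < 2 * m := by
  by_contra hh; apply h; rw [S.triv i (by omega)]; rfl

theorem ρ_mem {I : Set ℕ} {i : ℕ} (h : i ∈ I) : S.ρ i ∈ S.G I :=
  Subgroup.subset_closure ⟨i, h, rfl⟩

theorem G_mono {I J : Set ℕ} (h : I ⊆ J) : S.G I ≤ S.G J :=
  Subgroup.closure_mono (Set.image_mono h)

theorem ρ_inv_eq (i : ℕ) : (S.ρ i)⁻¹ = S.ρ i := by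
  ext x; rw [Perm.inv_eq_iff_eq, S.inv]

/-- induction over words -/
theorem G_ind {I : Set ℕ} {P : Perm Ω → Prop} (h1 : P 1)
    (hs : ∀ i ∈ I, ∀ g, g ∈ S.G I → P g → P (S.ρ i * g)) {g : Perm Ω} (hg : g ∈ S.G I) : P g := by
  induction hg using Subgroup.closure_induction_left with
  | one => exact h1
  | mul_left x hx y hy ih => obtain ⟨i, hi, rfl⟩ := hx; exact hs i hi y hy ih
  | inv_mul_cancel x hx y hy ih =>
    obtain ⟨i, hi, rfl⟩ := hx; rw [S.ρ_inv_eq]; exact hs i hi y hy ih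

theorem sign_G {I : Set ℕ} {g : Perm Ω} (hg : g ∈ S.G I) : Perm.sign g = 1 := by
  refine S.G_ind (P := fun g => Perm.sign g = 1) (by simp) ?_ hg
  intro i _ g _ h; simp [S.even, h]

/-- invariant sets are preserved by the group -/
theorem G_pres {I : Set ℕ} {U : Set Ω} (hU : ∀ i ∈ I, ∀ z ∈ U, S.ρ i z ∈ U) {g : Perm Ω}
    (hg : g ∈ S.G I) : ∀ x ∈ U, g x ∈ U := by
  refine S.G_ind (P := fun g => ∀ x ∈ U, g x ∈ U) (by simp) ?_ hg
  intro i hi g _ h x hx; exact hU i hi _ (h x hx)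

/-- a map commuting with the generators commutes with the group -/
theorem G_comm {I : Set ℕ} {f : Ω → Ω} (hf : ∀ i ∈ I, ∀ z, f (S.ρ i z) = S.ρ i (f z))
    {g : Perm Ω} (hg : g ∈ S.G I) : ∀ x, f (g x) = g (f x) := by
  refine S.G_ind (P := fun g => ∀ x, f (g x) = g (f x)) (by simp) ?_ hg
  intro i hi g _ h x; simp only [Perm.mul_apply]; rw [hf i hi, h]

theorem G_fix {I : Set ℕ} {x : Ω} (hx : ∀ i ∈ I, S.ρ i x = x) {g : Perm Ω} (hg : g ∈ S.G I) :
    g x = x := by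
  have := S.G_pres (U := {x}) (by intro i hi z hz; rw [Set.mem_singleton_iff.1 hz]; exact hx i hi)
    hg x rfl
  exact this

theorem R_refl (I : Set ℕ) (x : Ω) : S.R I x x := ⟨1, one_mem _, rfl⟩

variable {S} in
theorem R.symm {I : Set ℕ} {x y : Ω} (h : S.R I x y) : S.R I y x := by
  obtain ⟨g, hg, rfl⟩ := h; exact ⟨g⁻¹, inv_mem hg, by simp⟩

variable {S} in
theorem R.trans {I : Set ℕ} {x y z : Ω} (h : S.R I x y) (k : S.R I y z) : S.R I x z := by
  obtain ⟨g, hg, rfl⟩ := h; obtain ⟨g', hg', rfl⟩ := k; exact ⟨g' * g, mul_mem hg' hg, rfl⟩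

variable {S} in
theorem R.step {I : Set ℕ} {x y : Ω} (h : S.R I x y) {i : ℕ} (hi : i ∈ I) :
    S.R I x (S.ρ i y) := h.trans ⟨S.ρ i, S.ρ_mem hi, rfl⟩

variable {S} in
theorem R.step' {I : Set ℕ} {x y z : Ω} (h : S.R I x y) {i : ℕ} (hi : i ∈ I) (e : S.ρ i y = z) :
    S.R I x z := e ▸ h.step hi

variable {S} in
theorem R.mono {I J : Set ℕ} {x y : Ω} (h : S.R I x y) (hJ : I ⊆ J) : S.R J x y := by
  obtain ⟨g, hg, rfl⟩ := h; exact ⟨g, S.G_mono hJ hg, rfl⟩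

variable {S} in
/-- induction along an orbit -/
theorem R.ind {I : Set ℕ} {x y : Ω} (h : S.R I x y) {U : Set Ω} (hx : x ∈ U)
    (hU : ∀ i ∈ I, ∀ z ∈ U, S.ρ i z ∈ U) : y ∈ U := by
  obtain ⟨g, hg, rfl⟩ := h; exact S.G_pres hU hg x hx

variable {S} in
/-- induction along an orbit, remembering that the point is in the orbit -/
theorem R.ind' {I : Set ℕ} {x y : Ω} (h : S.R I x y) {P : Ω → Prop} (hx : P x)
    (hU : ∀ i ∈ I, ∀ z, S.R I x z → P z → P (S.ρ i z)) : P y :=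
  (h.ind (U := {z | S.R I x z ∧ P z}) ⟨S.R_refl I x, hx⟩
    (fun i hi z hz => ⟨hz.1.step hi, hU i hi z hz.1 hz.2⟩)).2

variable {S} in
theorem R.map {I : Set ℕ} {x y : Ω} (h : S.R I x y) {f : Ω → Ω}
    (hf : ∀ i ∈ I, ∀ z, f (S.ρ i z) = S.ρ i (f z)) : S.R I (f x) (f y) := by
  obtain ⟨g, hg, rfl⟩ := h; exact ⟨g, hg, (S.G_comm hf hg x).symm⟩

theorem G_univ : S.G Set.univ = alternatingGroup Ω := by
  rw [← S.gen]; unfold G Gen; rw [Set.image_univ]

theorem R_univ (x y : Ω) : S.R Set.univ x y := by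
  by_cases hxy : x = y
  · subst hxy; exact S.R_refl _ _
  have hc : 2 < Fintype.card Ω := by rw [S.card]; omega
  obtain ⟨z, hz⟩ : ∃ z, z ∉ ({x, y} : Finset Ω) := by
    by_contra hh; push Not at hh
    have : (univ : Finset Ω) ⊆ {x, y} := fun z _ => hh z
    have h2 := Finset.card_le_card this
    have h3 : ({x, y} : Finset Ω).card ≤ 2 := Finset.card_le_two
    rw [Finset.card_univ] at h2; omega
  simp only [Finset.mem_insert, Finset.mem_singleton, not_or] at hz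
  refine ⟨swap x y * swap y z, ?_, ?_⟩
  · rw [S.G_univ, Perm.mem_alternatingGroup]
    simp [Perm.sign_swap hxy, Perm.sign_swap (Ne.symm hz.2)]
  · simp [swap_apply_of_ne_of_ne hxy (Ne.symm hz.1)]

/-- connectivity: a nonempty invariant set is everything -/
theorem conn {U : Set Ω} {x : Ω} (hx : x ∈ U) (hU : ∀ i, ∀ z ∈ U, S.ρ i z ∈ U) (y : Ω) :
    y ∈ U := (S.R_univ x y).ind hx (fun i _ z hz => hU i z hz)

theorem connF {U : Finset Ω} {x : Ω} (hx : x ∈ U) (hU : ∀ i, ∀ z ∈ U, S.ρ i z ∈ U) :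
    U.card = 4 * m + 3 := by
  have : U = univ := by
    ext y; simp only [mem_univ, iff_true]
    exact S.conn (U := (U : Set Ω)) hx hU y
  rw [this, Finset.card_univ, S.card]

theorem exists_mv (x : Ω) : ∃ i, S.ρ i x ≠ x := by
  by_contra hh; push Not at hh
  have := S.connF (U := {x}) (Finset.mem_singleton_self x) (by
    intro i z hz; rw [Finset.mem_singleton] at hz ⊢; rw [hz, hh])
  simp at this

theorem exists_moved {i : ℕ} (hi : i < 2 * m) : ∃ x, S.ρ i x ≠ x := by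
  by_contra hh; push Not at hh
  exact S.ne i hi (by ext x; simp [hh])

theorem mv_lo (x : Ω) : S.ρ (S.lo x) x ≠ x := Nat.sInf_mem (s := {i | S.ρ i x ≠ x}) (S.exists_mv x)

theorem lo_le {i : ℕ} {x : Ω} (h : S.ρ i x ≠ x) : S.lo x ≤ i := Nat.sInf_le h

theorem fix_lo {i : ℕ} {x : Ω} (h : i < S.lo x) : S.ρ i x = x := by
  by_contra hh; have := S.lo_le hh; omega

theorem bdd (x : Ω) : BddAbove {i | S.ρ i x ≠ x} :=
  ⟨2 * m, fun _ hi => (S.lt_of_mv hi).le⟩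

theorem mv_hi (x : Ω) : S.ρ (S.hi x) x ≠ x :=
  Nat.sSup_mem (s := {i | S.ρ i x ≠ x}) (S.exists_mv x) (S.bdd x)

theorem le_hi {i : ℕ} {x : Ω} (h : S.ρ i x ≠ x) : i ≤ S.hi x := le_csSup (S.bdd x) h

theorem fix_hi {i : ℕ} {x : Ω} (h : S.hi x < i) : S.ρ i x = x := by
  by_contra hh; have := S.le_hi hh; omega

theorem hi_lt (x : Ω) : S.hi x < 2 * m := S.lt_of_mv (S.mv_hi x)

theorem lo_le_hi (x : Ω) : S.lo x ≤ S.hi x := S.lo_le (S.mv_hi x)

theorem lo_eq {i : ℕ} {x : Ω} (h : S.ρ i x ≠ x) (h' : ∀ j < i, S.ρ j x = x) : S.lo x = i := by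
  have h1 := S.lo_le h
  by_contra hh; exact S.mv_lo x (h' _ (by omega))

theorem hi_eq {i : ℕ} {x : Ω} (h : S.ρ i x ≠ x) (h' : ∀ j, i < j → S.ρ j x = x) : S.hi x = i := by
  have h1 := S.le_hi h
  by_contra hh; exact S.mv_hi x (h' _ (by omega))

theorem le_lo {i : ℕ} {x : Ω} (h' : ∀ j < i, S.ρ j x = x) : i ≤ S.lo x := by
  by_contra hh; exact S.mv_lo x (h' _ (by omega))

theorem hi_le {i : ℕ} {x : Ω} (h' : ∀ j, i < j → S.ρ j x = x) : S.hi x ≤ i := by
  by_contra hh; exact S.mv_hi x (h' _ (by omega))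

/-- the level changes along an edge only between `i - 1` and `i` -/
theorem lo_step (i : ℕ) (x : Ω) : S.lo (S.ρ i x) = S.lo x ∨
    (S.lo x = i ∧ S.lo (S.ρ i x) + 1 = i) ∨ (S.lo x + 1 = i ∧ S.lo (S.ρ i x) = i) := by
  by_cases hx : S.ρ i x = x
  · left; rw [hx]
  have h1 := S.lo_le hx
  have h2 : S.lo (S.ρ i x) ≤ i := S.lo_le (by rw [Ne, S.fix_self]; exact hx)
  have h3 : S.lo x + 2 ≤ i → S.lo (S.ρ i x) ≤ S.lo x := fun h =>
    S.lo_le (by rw [Ne, S.fix_comm (Or.inr h)]; exact S.mv_lo x)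
  have h4 : S.lo (S.ρ i x) + 2 ≤ i → S.lo x ≤ S.lo (S.ρ i x) := fun h =>
    S.lo_le (by rw [Ne, ← S.fix_comm (Or.inr h)]; exact S.mv_lo _)
  omega

theorem hi_step (i : ℕ) (x : Ω) : S.hi (S.ρ i x) = S.hi x ∨
    (S.hi x = i ∧ S.hi (S.ρ i x) = i + 1) ∨ (S.hi x = i + 1 ∧ S.hi (S.ρ i x) = i) := by
  by_cases hx : S.ρ i x = x
  · left; rw [hx]
  have h1 := S.le_hi hx
  have h2 : i ≤ S.hi (S.ρ i x) := S.le_hi (by rw [Ne, S.fix_self]; exact hx)
  have h3 : i + 2 ≤ S.hi x → S.hi x ≤ S.hi (S.ρ i x) := fun h =>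
    S.le_hi (by rw [Ne, S.fix_comm (Or.inl h)]; exact S.mv_hi x)
  have h4 : i + 2 ≤ S.hi (S.ρ i x) → S.hi (S.ρ i x) ≤ S.hi x := fun h =>
    S.le_hi (by rw [Ne, ← S.fix_comm (Or.inl h)]; exact S.mv_hi _)
  omega

theorem lo_far {i : ℕ} {x : Ω} (h : S.lo x + 2 ≤ i) : S.lo (S.ρ i x) = S.lo x := by
  have := S.lo_step i x; omega

theorem hi_far {i : ℕ} {x : Ω} (h : i + 2 ≤ S.hi x) : S.hi (S.ρ i x) = S.hi x := by
  have := S.hi_step i x; omega

theorem ρ_δ {i : ℕ} (hi : i < 2 * m) (x : Ω) :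
    S.ρ i (S.δ x) = S.δ (S.ρ (2 * m - 1 - i) x) := by
  rw [S.dual _ (by omega)]; congr 2; omega

/-- dual edges: `i + j + 1 = 2m` -/
theorem δ_edge {i j : ℕ} (h : i + j + 1 = 2 * m) (x : Ω) :
    S.ρ j (S.δ x) = S.δ (S.ρ i x) := by
  rw [S.ρ_δ (by omega)]; congr 3; omega

theorem δ_fix {i j : ℕ} (h : i + j + 1 = 2 * m) (x : Ω) :
    S.ρ j (S.δ x) = S.δ x ↔ S.ρ i x = x := by
  rw [S.δ_edge h]; exact ⟨fun h => S.δ_inj h, fun h => by rw [h]⟩

theorem lo_δ (x : Ω) : S.lo (S.δ x) + S.hi x + 1 = 2 * m := by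
  have h0 := S.hi_lt x
  have h1 : S.lo (S.δ x) ≤ 2 * m - 1 - S.hi x :=
    S.lo_le (by rw [Ne, S.δ_fix (i := S.hi x) (by omega)]; exact S.mv_hi x)
  have h2 := S.mv_lo (S.δ x)
  rw [Ne, S.δ_fix (i := 2 * m - 1 - S.lo (S.δ x)) (by omega)] at h2
  have h3 := S.le_hi h2
  omega

theorem hi_δ (x : Ω) : S.hi (S.δ x) + S.lo x + 1 = 2 * m := by
  have := S.lo_δ (S.δ x); rw [S.dinv] at this; omega

variable {S} in
theorem R.dual {I J : Set ℕ} {x y : Ω} (h : S.R I x y)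
    (hJ : ∀ i ∈ I, i < 2 * m → 2 * m - 1 - i ∈ J) : S.R J (S.δ x) (S.δ y) := by
  refine h.ind' (P := fun z => S.R J (S.δ x) (S.δ z)) (S.R_refl _ _) ?_
  intro i hi z _ hz
  by_cases h2 : i < 2 * m
  · rw [S.dual i h2]; exact hz.step (hJ i hi h2)
  · rw [S.triv i (by omega)]; exact hz

theorem G_dual {I J : Set ℕ} (hJ : ∀ i ∈ I, i < 2 * m → 2 * m - 1 - i ∈ J) {g : Perm Ω}
    (hg : g ∈ S.G I) : S.δ * g * S.δ ∈ S.G J := by
  refine S.G_ind (P := fun g => S.δ * g * S.δ ∈ S.G J) ?_ ?_ hg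
  · have : S.δ * 1 * S.δ = 1 := by ext x; simp [S.dinv]
    rw [this]; exact one_mem _
  · intro i hi g _ h
    by_cases h2 : i < 2 * m
    · have : S.δ * (S.ρ i * g) * S.δ = S.ρ (2 * m - 1 - i) * (S.δ * g * S.δ) := by
        ext x; simp [S.dual i h2]
      rw [this]; exact mul_mem (S.ρ_mem (hJ i hi h2)) h
    · rw [S.triv i (by omega), one_mul]; exact h

theorem altIn_dual {I J : Set ℕ} {U : Set Ω} (h : AltIn (S.G I) U)
    (hJ : ∀ i ∈ I, i < 2 * m → 2 * m - 1 - i ∈ J) : AltIn (S.G J) {x | S.δ x ∈ U} := by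
  intro g hg hf
  have h1 : S.δ * g * S.δ ∈ S.G I := by
    apply h
    · simp [hg, Int.units_mul_self]
    · intro x hx
      simp only [Perm.mul_apply]
      rw [hf (S.δ x) (by simpa [S.dinv] using hx), S.dinv]
  have h2 := S.G_dual hJ h1
  have : S.δ * (S.δ * g * S.δ) * S.δ = g := by ext x; simp [S.dinv]
  rwa [this] at h2

variable {S} in
/-- an orbit containing points below and above a level has a crossing edge -/
theorem R.cross_lo {I : Set ℕ} {x y : Ω} (h : S.R I x y) {j : ℕ} (hx : S.lo x < j)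
    (hy : j ≤ S.lo y) : j ∈ I ∧ ∃ z, S.R I x z ∧ S.lo z = j ∧ S.lo (S.ρ j z) + 1 = j := by
  by_contra hh
  have : S.lo y < j := by
    refine h.ind' (P := fun z => S.lo z < j) hx ?_
    intro i hi z hz hlt
    by_contra h2
    have h3 := S.lo_step i z
    have h4 : i = j := by omega
    subst h4
    exact hh ⟨hi, S.ρ i z, hz.step hi, by omega, by rw [S.inv]; omega⟩
  omega

variable {S} in
theorem R.cross_hi {I : Set ℕ} {x y : Ω} (h : S.R I x y) {j : ℕ} (hx : S.hi x ≤ j)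
    (hy : j < S.hi y) : j ∈ I ∧ ∃ z, S.R I x z ∧ S.hi z = j ∧ S.hi (S.ρ j z) = j + 1 := by
  by_contra hh
  have : S.hi y ≤ j := by
    refine h.ind' (P := fun z => S.hi z ≤ j) hx ?_
    intro i hi z hz hlt
    by_contra h2
    have h3 := S.hi_step i z
    have h4 : i = j := by omega
    subst h4
    exact hh ⟨hi, z, hz, by omega, by omega⟩
  omega

theorem exists_lo_zero : ∃ x, S.lo x = 0 := by
  obtain ⟨x, hx⟩ := S.exists_moved (i := 0) (by have := S.hm; omega)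
  exact ⟨x, by have := S.lo_le hx; omega⟩

/-- every level below a nonempty one is entered by a crossing edge -/
theorem cross {j : ℕ} (hj : 1 ≤ j) {y : Ω} (hy : j ≤ S.lo y) :
    ∃ z, S.lo z = j ∧ S.lo (S.ρ j z) + 1 = j := by
  obtain ⟨x, hx⟩ := S.exists_lo_zero
  obtain ⟨_, z, _, h⟩ := (S.R_univ x y).cross_lo (j := j) (by omega) hy
  exact ⟨z, h⟩

@[simp] theorem mem_lev {i : ℕ} {x : Ω} : x ∈ S.lev i ↔ S.lo x = i := by simp [lev]
@[simp] theorem mem_supp {i : ℕ} {x : Ω} : x ∈ S.supp i ↔ S.ρ i x ≠ x := by simp [supp]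
@[simp] theorem mem_A {c : ℕ} {x : Ω} : x ∈ S.A c ↔ S.lo x < c := by simp [A]

theorem card_A (c : ℕ) : (S.A c).card = ∑ i ∈ range c, S.a i := by
  induction c with
  | zero => simp [A]
  | succ c ih =>
    rw [Finset.sum_range_succ, ← ih]
    have : S.A (c + 1) = S.A c ∪ S.lev c := by ext x; simp; omega
    rw [this, Finset.card_union_of_disjoint]; · rfl
    rw [Finset.disjoint_left]; intro x h1 h2; simp at h1 h2; omega

/-- an even involution moves a multiple of four points -/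
theorem four_dvd_supp (i : ℕ) : 4 ∣ (S.supp i).card := by
  have hs : (S.ρ i).support = S.supp i := by ext x; simp
  have h2 : (S.ρ i) ^ 2 = 1 := by ext x; simp [pow_two, S.inv]
  have h3 : ∀ n ∈ (S.ρ i).cycleType, n = 2 := by
    intro n hn
    have h4 := Perm.two_le_of_mem_cycleType hn
    have h5 : n ∣ 2 := (Perm.dvd_of_mem_cycleType hn).trans (orderOf_dvd_of_pow_eq_one h2)
    have := Nat.le_of_dvd (by norm_num) h5
    omega
  have h6 := Perm.sum_cycleType (S.ρ i)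
  have h7 := Perm.sign_of_cycleType (S.ρ i)
  rw [Multiset.eq_replicate_card.2 h3] at h6
  simp only [Multiset.sum_replicate, smul_eq_mul] at h6
  rw [S.even, Perm.sum_cycleType, ← h6] at h7
  rw [← hs, ← h6]
  have h8 : Even ((S.ρ i).cycleType.card * 2 + (S.ρ i).cycleType.card) := by
    by_contra ho
    rw [Nat.not_even_iff_odd] at ho
    rw [ho.neg_one_pow] at h7
    exact absurd h7 (by decide)
  obtain ⟨k, hk⟩ := h8
  exact ⟨(S.ρ i).cycleType.card / 2, by omega⟩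

theorem supp_zero : S.supp 0 = S.lev 0 := by
  ext x; simp only [mem_supp, mem_lev]
  exact ⟨fun h => by have := S.lo_le h; omega, fun h => by have := S.mv_lo x; rwa [h] at this⟩

theorem four_dvd_a0 : 4 ∣ S.a 0 := by unfold a; rw [← S.supp_zero]; exact S.four_dvd_supp 0

theorem four_le_a0 : 4 ≤ S.a 0 := by
  obtain ⟨x, hx⟩ := S.exists_lo_zero
  have : 0 < S.a 0 := Finset.card_pos.2 ⟨x, by simpa using hx⟩
  exact Nat.le_of_dvd this S.four_dvd_a0

theorem ipG (k l : ℕ) : S.G (Set.Iic l) ⊓ S.G (Set.Ici k) ≤ S.G (Set.Icc k l) := S.ip k l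

theorem ipAlt {k l : ℕ} {U V : Set Ω} (h : AltIn (S.G (Set.Iic l)) U)
    (h' : AltIn (S.G (Set.Ici k)) V) : AltIn (S.G (Set.Icc k l)) (U ∩ V) :=
  (h.inf h').mono (S.ipG k l) subset_rfl

theorem G_pair (i : ℕ) :
    S.G (Set.Icc i (i + 1)) = Subgroup.closure ({S.ρ i, S.ρ (i + 1)} : Set (Perm Ω)) := by
  unfold G Gen; congr 1; ext g; simp only [Set.mem_image, Set.mem_Icc, Set.mem_insert_iff,
    Set.mem_singleton_iff]
  constructor
  · rintro ⟨j, ⟨h1, h2⟩, rfl⟩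
    rcases Nat.eq_or_lt_of_le h1 with h | h
    · left; rw [h]
    · right; congr 1; omega
  · rintro (rfl | rfl)
    · exact ⟨i, ⟨le_rfl, by omega⟩, rfl⟩
    · exact ⟨i + 1, ⟨by omega, le_rfl⟩, rfl⟩

theorem G_pair' (i : ℕ) :
    S.G (Set.Icc i (i + 1)) = Subgroup.closure ({S.ρ (i + 1), S.ρ i} : Set (Perm Ω)) := by
  rw [S.G_pair, Set.pair_comm]

theorem G_single {k : ℕ} {g : Perm Ω} (hg : g ∈ S.G (Set.Icc k k)) : g = 1 ∨ g = S.ρ k := by
  refine S.G_ind (P := fun g => g = 1 ∨ g = S.ρ k) (Or.inl rfl) ?_ hg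
  intro i hi g _ h
  have : i = k := by simp at hi; omega
  subst this
  rcases h with rfl | rfl
  · right; simp
  · left; ext x; simp [S.inv]

theorem G_empty {k l : ℕ} (h : l < k) {g : Perm Ω} (hg : g ∈ S.G (Set.Icc k l)) : g = 1 := by
  refine S.G_ind (P := fun g => g = 1) rfl ?_ hg
  intro i hi; simp at hi; omega

theorem ρ_not_mem {k : ℕ} (hk : k < 2 * m) : S.ρ k ∉ S.G (Set.Ici (k + 1)) := by
  intro h
  exact S.ne k hk (S.G_empty (by omega)
    (S.ipG (k + 1) k ⟨S.ρ_mem (Set.mem_Iic.2 le_rfl), h⟩))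

/-- from a 3-cycle whose support is met by each generator to the whole orbit -/
theorem altR {I : Set ℕ} {x y z : Ω} (h : AltIn (S.G I) {x, y, z})
    (hxy : x ≠ y) (hyz : y ≠ z) (hxz : x ≠ z)
    (hI : ∀ i ∈ I, ∃ u ∈ ({x, y, z} : Set Ω), S.ρ i u ∈ ({x, y, z} : Set Ω)) :
    AltIn (S.G I) {w | S.R I x w} := by
  obtain ⟨Δ, hx, hy, hz, hA, hb⟩ := h.cls hxy hyz hxz
  have hsub : ({x, y, z} : Set Ω) ⊆ Δ := by
    intro w hw; rcases hw with rfl | rfl | rfl; exacts [hx, hy, hz]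
  refine hA.mono le_rfl ?_
  intro w hw
  refine R.ind hw hx ?_
  intro i hi u hu
  obtain ⟨u0, h1, h2⟩ := hI i hi
  exact hb _ (S.ρ_mem hi) u0 (hsub h1) (hsub h2) u hu

/-- if the labels `≥ 1` generate the alternating group on the orbit of `x`, some edge with label
`0` leaves this orbit -/
theorem d1 {x : Ω} (h : AltIn (S.G (Set.Ici 1)) {w | S.R (Set.Ici 1) x w}) :
    ∃ g, S.lo g = 0 ∧ ¬ S.R (Set.Ici 1) x g ∧ S.R (Set.Ici 1) x (S.ρ 0 g) := by
  by_contra hh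
  push Not at hh
  have hall : ∀ y, S.R (Set.Ici 1) x y := by
    intro y
    refine S.conn (U := {w | S.R (Set.Ici 1) x w}) (S.R_refl _ x) ?_ y
    intro i z hz
    rcases Nat.eq_zero_or_pos i with rfl | hi
    · by_cases h0 : S.ρ 0 z = z
      · rw [h0]; exact hz
      · by_contra h2
        refine hh (S.ρ 0 z) ?_ h2 (by rw [S.inv]; exact hz)
        have := S.lo_le (x := S.ρ 0 z) (i := 0) (by rw [Ne, S.fix_self]; exact h0)
        omega
    · exact R.step hz hi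
  refine S.ρ_not_mem (k := 0) (by have := S.hm; omega) (h _ (S.even 0) ?_)
  intro y hy; exact absurd (hall y) hy

end SD0
end D145
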