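import Pool.Agent.MP_d145c0_al.H75.SmS1

/-! The fracture bound. -/

namespace D145
open Equiv

namespace SD0
variable {Ω : Type} [Fintype Ω] [DecidableEq Ω] {m : ℕ} (S : SD0 Ω m)

theorem frac_edge {i : ℕ} (h1 : 1 ≤ i) (h2 : i + 2 ≤ 2 * m) :
    ∃ z, ¬ S.R {j | j ≠ i} z (S.ρ i z) := by
  by_contra hh
  push Not at hh
  obtain ⟨x, y, hxy⟩ := S.s1 h1 h2
  refine hxy ((S.R_univ x y).ind (U := {z | S.R {j | j ≠ i} x z}) (S.R_refl _ x) ?_)
  intro j _ z hz
  by_cases e : j = i
  · rw [e]; exact R.trans hz (hh z)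
  · exact R.step hz e

theorem frac_aux (K : Finset Ω) (hK : K.Nonempty) (U : Finset ℕ)
    (hU : ∀ i ∈ U, 1 ≤ i ∧ i + 2 ≤ 2 * m)
    (hc : ∀ i ∈ U, ∀ x ∈ K, ∀ y ∈ K, S.R {j | j ≠ i} x y) (V : Finset ℕ) :
    V ⊆ U → ∃ f : Ω → Ω, (Finset.univ.image f).card + V.card + K.card ≤ 4 * m + 4 ∧
      ∀ i ∈ U, i ∉ V → ∀ x y, f x = f y → S.R {j | j ≠ i} x y := by
  induction V using Finset.induction_on with
  | empty =>
    intro _
    obtain ⟨k, hk⟩ := hK
    refine ⟨fun x => if x ∈ K then k else x, ?_, ?_⟩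
    · have h1 : (Finset.univ.image fun x => if x ∈ K then k else x) ⊆ insert k Kᶜ := by
        intro y hy
        obtain ⟨x, _, rfl⟩ := Finset.mem_image.1 hy
        by_cases hx : x ∈ K <;> simp [hx]
      have h2 := Finset.card_le_card h1
      have h3 := Finset.card_insert_le k Kᶜ
      have h4 := Finset.card_add_card_compl K
      rw [S.card] at h4
      simp only [Finset.card_empty]
      omega
    · intro i hi _ x y h
      by_cases hx : x ∈ K <;> by_cases hy : y ∈ K <;> simp only [hx, hy, if_true, if_false] at h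
      · exact hc i hi x hx y hy
      · exact absurd (h ▸ hk) hy
      · exact absurd (h ▸ hk) hx
      · exact h ▸ S.R_refl _ x
  | insert i V hi ih =>
    intro hs
    have hiU : i ∈ U := hs (Finset.mem_insert_self i V)
    obtain ⟨f, hf, hr⟩ := ih fun j hj => hs (Finset.mem_insert_of_mem hj)
    obtain ⟨z, hz⟩ := S.frac_edge (hU i hiU).1 (hU i hiU).2
    have hne : f z ≠ f (S.ρ i z) := fun e => hz (hr i hiU hi _ _ e)
    refine ⟨fun u => if f u = f z then f (S.ρ i z) else f u, ?_, ?_⟩
    · have h1 : (Finset.univ.image fun u => if f u = f z then f (S.ρ i z) else f u) ⊆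
          (Finset.univ.image f).erase (f z) := by
        intro y hy
        obtain ⟨x, _, rfl⟩ := Finset.mem_image.1 hy
        by_cases hx : f x = f z
        · simp only [hx, if_true]
          exact Finset.mem_erase.2 ⟨hne.symm, Finset.mem_image_of_mem f (Finset.mem_univ _)⟩
        · simp only [hx, if_false]
          exact Finset.mem_erase.2 ⟨hx, Finset.mem_image_of_mem f (Finset.mem_univ _)⟩
      have h2 := Finset.card_le_card h1
      have h3 := Finset.card_erase_add_one (Finset.mem_image_of_mem f (Finset.mem_univ z))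
      rw [Finset.card_insert_of_notMem hi]
      omega
    · intro j hj hjV x y h
      have hji : i ≠ j := fun e => hjV (e ▸ Finset.mem_insert_self i V)
      have hj' : j ∉ V := fun e => hjV (Finset.mem_insert_of_mem e)
      have he : S.R {l | l ≠ j} z (S.ρ i z) := R.step (S.R_refl _ z) hji
      by_cases hx : f x = f z <;> by_cases hy : f y = f z <;>
        simp only [hx, hy, if_true, if_false] at h
      · exact hr j hj hj' _ _ (hx.trans hy.symm)
      · exact ((hr j hj hj' _ _ hx).trans he).trans (hr j hj hj' _ _ h)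
      · exact ((hr j hj hj' _ _ h).trans he.symm).trans (hr j hj hj' _ _ hy.symm)
      · exact hr j hj hj' _ _ h

theorem frac_bound (K : Finset Ω) (hK : K.Nonempty) (U : Finset ℕ)
    (hU : ∀ i ∈ U, 1 ≤ i ∧ i + 2 ≤ 2 * m)
    (hc : ∀ i ∈ U, ∀ x ∈ K, ∀ y ∈ K, S.R {j | j ≠ i} x y) : U.card + K.card ≤ 4 * m + 3 := by
  obtain ⟨f, hf, -⟩ := S.frac_aux K hK U hU hc U subset_rfl
  obtain ⟨k, -⟩ := hK
  have : 0 < (Finset.univ.image f).card :=
    Finset.card_pos.2 ⟨f k, Finset.mem_image_of_mem f (Finset.mem_univ k)⟩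
  omega

end SD0
end D145
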