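import Pool.Agent.MP_d145c0_al.H75.SmInv
import Pool.Agent.MP_d145c0_al.H75.SmFr

/-! Soundness of the three ways to close a branch. -/

namespace D145
open Equiv Sm

namespace Sm.Kill

theorem brT {t e : Bool} (h : @Bool.rec (fun _ => Bool) false t e = true) :
    e = true ∧ t = true := by
  cases e
  · cases h
  · exact ⟨rfl, h⟩

theorem brF {f e : Bool} (h : @Bool.rec (fun _ => Bool) f false e = true) :
    e = false ∧ f = true := by
  cases e
  · exact ⟨rfl, h⟩
  · cases h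

theorem nrS {g : ℕ → Bool} {e : ℕ} (h : @Nat.rec (fun _ => Bool) false (fun y _ => g y) e = true) :
    ∃ y, e = y + 1 ∧ g y = true := by
  cases e with
  | zero => cases h
  | succ y => exact ⟨y, rfl, h⟩

theorem span_succ (r T nd i fuel M m : ℕ) : span r T nd i (fuel + 1) M (m + 1) =
    @Bool.rec (fun _ => Bool) (@Bool.rec (fun _ => Bool)
      (@Nat.rec (fun _ => Bool) false (fun _ _ => @Nat.rec (fun _ => Bool) false
        (fun y _ => span r T nd i fuel (M ||| 1 <<< y) (m >>> 8))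
        (gt T (m &&& 31) ((m >>> 5) &&& 7))) ((M >>> (m &&& 31)) &&& 1))
      false (Nat.ble r ((m >>> 5) &&& 7))) false (Nat.beq ((m >>> 5) &&& 7) i) := rfl

theorem span_inv {r T nd i fuel M es : ℕ} (h : span r T nd i (fuel + 1) M es = true) :
    M + 1 = 2 ^ nd ∨ ∃ x c y es', c < 9 ∧ c ≠ i ∧ c < r ∧ M.testBit x = true ∧ gt T x c = y + 1 ∧
      span r T nd i fuel (M ||| 2 ^ y) es' = true := by
  cases es with
  | zero => exact Or.inl ((Nat.eq_of_beq_eq_true h).trans (Nat.one_shiftLeft nd))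
  | succ m =>
    rw [span_succ] at h
    obtain ⟨h1, h⟩ := brF h
    obtain ⟨h2, h⟩ := brF h
    obtain ⟨a, h3, h⟩ := nrS (g := fun _ => _) h
    obtain ⟨y, h4, h⟩ := nrS h
    refine Or.inr ⟨_, _, y, _, lt_of_le_of_lt Nat.and_le_right (by norm_num),
      Nat.ne_of_beq_eq_false h1, Nat.lt_of_not_le fun e => ?_, ?_, h4,
      Nat.one_shiftLeft y ▸ h⟩
    · rw [Nat.ble_eq_true_of_le e] at h2
      cases h2
    · rw [Nat.testBit, Nat.and_comm, h3]
      simp

theorem frac_zero (r T nd : ℕ) (k : List ℕ → Bool) (l u : ℕ) (s : List ℕ) :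
    frac r T nd k 0 l (u :: s) = @Bool.rec (fun _ => Bool) false (@Bool.rec (fun _ => Bool) false
      (@Bool.rec (fun _ => Bool) false (k s) (span r T nd (u &&& 7) 30 1 (u >>> 3)))
      (Nat.ble ((u &&& 7) + 2) r)) (Nat.ble (l + 1) (u &&& 7)) := rfl

theorem frac_succ (r T nd : ℕ) (k : List ℕ → Bool) (d l u : ℕ) (s : List ℕ) :
    frac r T nd k (d + 1) l (u :: s) = @Bool.rec (fun _ => Bool) false
      (@Bool.rec (fun _ => Bool) false
      (@Bool.rec (fun _ => Bool) false (frac r T nd k d (u &&& 7) s)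
        (span r T nd (u &&& 7) 30 1 (u >>> 3)))
      (Nat.ble ((u &&& 7) + 2) r)) (Nat.ble (l + 1) (u &&& 7)) := rfl

theorem frac_inv {r T nd : ℕ} {k : List ℕ → Bool} (d : ℕ) : ∀ (l : ℕ) (s : List ℕ),
    frac r T nd k d l s = true → (∃ s', k s' = true) ∧ ∃ U : Finset ℕ, U.card = d + 1 ∧
      ∀ i ∈ U, l < i ∧ i + 2 ≤ r ∧ ∃ es, span r T nd i 30 1 es = true := by
  induction d with
  | zero =>
    rintro l (_ | ⟨u, s⟩) h
    · cases h
    rw [frac_zero] at h
    obtain ⟨h1, h⟩ := brT h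
    obtain ⟨h2, h⟩ := brT h
    obtain ⟨h3, h⟩ := brT h
    exact ⟨⟨s, h⟩, {u &&& 7}, rfl, fun i hi => Finset.mem_singleton.1 hi ▸
      ⟨Nat.le_of_ble_eq_true h1, Nat.le_of_ble_eq_true h2, _, h3⟩⟩
  | succ d ih =>
    rintro l (_ | ⟨u, s⟩) h
    · cases h
    rw [frac_succ] at h
    obtain ⟨h1, h⟩ := brT h
    obtain ⟨h2, h⟩ := brT h
    obtain ⟨h3, h⟩ := brT h
    obtain ⟨k1, U, k2, k3⟩ := ih _ _ h
    have h4 : l < u &&& 7 := Nat.le_of_ble_eq_true h1
    refine ⟨k1, insert (u &&& 7) U, by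
      rw [Finset.card_insert_of_notMem fun e => lt_irrefl _ (k3 _ e).1, k2], fun i hi => ?_⟩
    rcases Finset.mem_insert.1 hi with rfl | hi
    · exact ⟨h4, Nat.le_of_ble_eq_true h2, _, h3⟩
    · exact ⟨h4.trans (k3 i hi).1, (k3 i hi).2⟩

theorem cnt_succ (T c f : ℕ) : cnt T c (f + 1) = @Nat.rec (fun _ => ℕ) 0
    (fun y _ => @Nat.rec (fun _ => ℕ) 0
      (fun s _ => @Bool.rec (fun _ => ℕ) (s + 2) (s + 1) (Nat.beq f y)) (cnt T c f))
    (gt T f c) := rfl

theorem cnt_inv {T c : ℕ} (f : ℕ) : ∀ s, cnt T c f = s + 1 → (∀ x, x < f → gt T x c ≠ 0) ∧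
    s = ((Finset.range f).filter fun x => gt T x c ≠ x + 1).card := by
  induction f with
  | zero => exact fun s h => ⟨fun _ h => absurd h (Nat.not_lt_zero _), (Nat.succ.inj h).symm⟩
  | succ f ih =>
    intro s h
    rw [cnt_succ] at h
    rcases h1 : gt T f c with _ | y
    · rw [h1] at h; cases h
    rcases h2 : cnt T c f with _ | t
    · rw [h1, h2] at h; cases h
    rw [h1, h2] at h
    obtain ⟨k1, k2⟩ := ih t h2
    refine ⟨fun x hx => ?_, ?_⟩
    · rcases Nat.lt_succ_iff_lt_or_eq.1 hx with e | rfl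
      exacts [k1 x e, by omega]
    rw [Finset.range_add_one, Finset.filter_insert]
    change @Bool.rec (fun _ => ℕ) (t + 2) (t + 1) (Nat.beq f y) = s + 1 at h
    cases h3 : Nat.beq f y
    · have := Nat.ne_of_beq_eq_false h3
      rw [h3] at h
      rw [if_pos (by omega), Finset.card_insert_of_notMem (by simp), ← k2]
      exact (Nat.succ.inj h).symm
    · have := Nat.eq_of_beq_eq_true h3
      rw [h3] at h
      rw [if_neg (by omega), ← k2]
      exact (Nat.succ.inj h).symm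

theorem bit_of_gt {T x c t : ℕ} (h : gt T x c = 0) (ht : t < 5) :
    T.testBit (t + (45 * x + 5 * c)) = false := by
  have h1 : (T >>> (45 * x + 5 * c)) &&& (2 ^ 5 - 1) = 0 := h
  have h2 := congrArg (fun a => Nat.testBit a t) h1
  simpa only [Nat.testBit_and, Nat.testBit_shiftRight, Nat.testBit_two_pow_sub_one, ht,
    decide_true, Bool.and_true, Nat.zero_testBit, Nat.add_comm t] using h2

end Sm.Kill

open Sm.Kill

theorem Sm.frac_cont {r T nd : ℕ} {k : List ℕ → Bool} {d l : ℕ} {s : List ℕ}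
    (h : frac r T nd k d l s = true) : ∃ s', k s' = true := (frac_inv d l s h).1

namespace SD0
variable {Ω : Type} [Fintype Ω] [DecidableEq Ω] {m : ℕ} {S : SD0 Ω m} {nd T : ℕ} {L : ℕ → Ω}

theorem Inv.span (hI : S.Inv nd T L) {i : ℕ} (fuel : ℕ) : ∀ M es : ℕ,
    (∀ x, M.testBit x = true → S.R {j | j ≠ i} (L 0) (L x)) →
    span (2 * m) T nd i fuel M es = true → ∀ x, x < nd → S.R {j | j ≠ i} (L 0) (L x) := by
  induction fuel with
  | zero => intro M es _ h; cases h
  | succ fuel ih =>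
    intro M es hM h
    rcases span_inv h with e | ⟨x, c, y, es', h1, h2, h3, h4, h5, h6⟩
    · intro x hx
      refine hM x ?_
      rw [show M = 2 ^ nd - 1 by omega, Nat.testBit_two_pow_sub_one]
      exact decide_eq_true hx
    · refine ih _ _ (fun z hz => ?_) h6
      rw [Nat.testBit_or, Bool.or_eq_true, Nat.testBit_two_pow, decide_eq_true_eq] at hz
      rcases hz with hz | rfl
      · exact hM z hz
      · exact (hM x h4).step' (i := c) h2 (S.σ_lt h3 ▸ (hI.ent x c y h1 h5).2.2.2.1)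

theorem Inv.card (hI : S.Inv nd T L) {A : Finset ℕ} (hA : ∀ x ∈ A, x < nd) :
    (A.image L).card = A.card :=
  Finset.card_image_of_injOn fun x hx y hy => hI.inj x (hA x hx) y (hA y hy)

theorem Inv.frac (hI : S.Inv nd T L) {k : List ℕ → Bool} {s : List ℕ}
    (h : frac (2 * m) T nd k (4 * m + 3 - nd) 0 s = true) : False := by
  obtain ⟨-, U, h1, h2⟩ := frac_inv _ _ _ h
  have h3 := S.frac_bound ((Finset.range nd).image L)
    ⟨L 0, Finset.mem_image_of_mem _ (Finset.mem_range.2 hI.pos)⟩ U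
    (fun i hi => ⟨(h2 i hi).1, (h2 i hi).2.1⟩) fun i hi x hx y hy => by
      obtain ⟨es, h4⟩ := (h2 i hi).2.2
      have h5 := hI.span 30 1 es (fun z hz => by
        rw [Nat.testBit_one_eq_true_iff_self_eq_zero.1 hz]; exact S.R_refl _ _) h4
      obtain ⟨a, ha, rfl⟩ := Finset.mem_image.1 hx
      obtain ⟨b, hb, rfl⟩ := Finset.mem_image.1 hy
      exact (h5 a (Finset.mem_range.1 ha)).symm.trans (h5 b (Finset.mem_range.1 hb))
  rw [hI.card fun _ => Finset.mem_range.1, Finset.card_range, h1] at h3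
  have := hI.le
  omega

theorem Inv.par (hI : S.Inv (4 * m + 3) T L) {c : ℕ} (hc : c < 2 * m)
    (h : par (4 * m + 3) T c = true) : False := by
  obtain ⟨s, h1, h2⟩ := nrS h
  obtain ⟨h3, h4⟩ := cnt_inv _ s h1
  have h9 : c < 9 := by have := S.hm4; omega
  have hu : (Finset.range (4 * m + 3)).image L = Finset.univ :=
    Finset.eq_univ_of_card _ (by rw [hI.card fun _ => Finset.mem_range.1, Finset.card_range, S.card])
  have h5 : ((Finset.range (4 * m + 3)).filter fun x => gt T x c ≠ x + 1).image L = S.supp c := by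
    ext z
    obtain ⟨x, hx, rfl⟩ := Finset.mem_image.1 (hu.ge (Finset.mem_univ z))
    have hx' := Finset.mem_range.1 hx
    obtain ⟨y, hy⟩ := Nat.exists_eq_succ_of_ne_zero (h3 x hx')
    obtain ⟨-, k1, -, k2, -⟩ := hI.ent x c y h9 hy
    rw [S.σ_lt hc] at k2
    rw [mem_supp, k2, Finset.mem_image]
    constructor
    · rintro ⟨x', h6, h7⟩ e
      obtain ⟨h8, h10⟩ := Finset.mem_filter.1 h6
      obtain rfl := hI.inj _ (Finset.mem_range.1 h8) _ hx' h7
      exact h10 (hI.inj _ k1 _ hx' e ▸ hy)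
    · exact fun e => ⟨x, Finset.mem_filter.2 ⟨hx, fun e' => e (by
        rw [Nat.succ.inj (hy.symm.trans e')])⟩, rfl⟩
  rw [← hI.card fun x hx => Finset.mem_range.1 (Finset.mem_filter.1 hx).1, h5] at h4
  have h6 := S.four_dvd_supp c
  obtain ⟨z, hz⟩ := S.exists_moved hc
  have h7 : 0 < (S.supp c).card := Finset.card_pos.2 ⟨z, S.mem_supp.2 hz⟩
  rw [← h4] at h6 h7
  rcases Bool.or_eq_true_iff.1 h2 with e | e
  · exact h7.ne' (Nat.eq_of_beq_eq_true e)
  · have e' : s % 4 ≠ 0 := Nat.ne_of_beq_eq_false (Bool.not_eq_true' _ ▸ e)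
    omega

theorem full_ne {r F : ℕ} (hF : Fok r F) (hn : nd ≤ 20) (hr : r ≤ 9) (h : full F T nd = true)
    {x c : ℕ} (hx : x < nd) (hc : c < r) : gt T x c ≠ 0 := by
  intro h0
  have h1 : (F % 1 <<< (45 * nd)) &&& (T ||| T >>> 1 ||| T >>> 2 ||| T >>> 3 ||| T >>> 4) =
      F % 1 <<< (45 * nd) := Nat.eq_of_beq_eq_true h
  have h2 := congrArg (fun a => Nat.testBit a (45 * x + 5 * c)) h1
  have h3 := bit_of_gt h0 (t := 0) (by norm_num)
  rw [Nat.zero_add] at h3
  simp only [Nat.one_shiftLeft, Nat.testBit_and, Nat.testBit_or, Nat.testBit_shiftRight,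
    Nat.testBit_mod_two_pow, hF x (by omega) c hc, h3, bit_of_gt h0 (show 1 < 5 by norm_num),
    bit_of_gt h0 (show 2 < 5 by norm_num), bit_of_gt h0 (show 3 < 5 by norm_num),
    bit_of_gt h0 (show 4 < 5 by norm_num), show 45 * x + 5 * c < 45 * nd by omega] at h2
  cases h2

theorem Inv.full {F : ℕ} (hF : Fok (2 * m) F) (hI : S.Inv nd T L) (hn : nd < 4 * m + 3)
    (h : full F T nd = true) : False := by
  have h4 := S.hm4
  have h1 := S.connF (U := (Finset.range nd).image L)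
    (Finset.mem_image_of_mem _ (Finset.mem_range.2 hI.pos)) fun i z hz => by
      by_cases hi : i < 2 * m
      · obtain ⟨x, hx, rfl⟩ := Finset.mem_image.1 hz
        obtain ⟨y, hy⟩ := Nat.exists_eq_succ_of_ne_zero
          (full_ne hF (by omega) (by omega) h (Finset.mem_range.1 hx) hi)
        obtain ⟨-, k1, -, k2, -⟩ := hI.ent x i y (by omega) hy
        rw [← S.σ_lt hi, k2]
        exact Finset.mem_image_of_mem _ (Finset.mem_range.2 k1)
      · rw [S.triv i (by omega)]; exact hz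
  rw [hI.card fun _ => Finset.mem_range.1, Finset.card_range] at h1
  omega

end SD0
end D145
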