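import Pool.Agent.MP_d145c0_al.H75.SmTab
import Pool.Agent.MP_d145c0_al.H75.SmKill

/-! Soundness of the search. -/

namespace D145
open Equiv Sm

namespace Sm
noncomputable section

/-- the closing test of kind `a + 2` -/
def fin (n r F : Nat) (K : List (Nat × Nat)) (nd' g a T2 : Nat) : Bool :=
  @Nat.rec (fun _ => Bool) false (fun a _ =>
    @Nat.rec (fun _ => Bool) (Nat.blt nd' n && full F T2 nd') (fun a _ =>
      @Nat.rec (fun _ => Bool) (Nat.beq nd' n && Nat.blt g r && par n T2 g)
        (fun _ _ => inK K nd' T2) a) a) a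

/-- the action of the kind `q` -/
def act (n r TB F : Nat) (K : List (Nat × Nat))
    (ih : Nat → Nat → Nat → List Nat → (List Nat → Bool) → Bool) (T x c y : Nat)
    (ihy : List Nat → Bool) (s2 : List Nat) (nd' g ds q : Nat) : Bool :=
  @Nat.rec (fun _ => Bool)
    (setE false T x c y (fun T1 => ded TB false (fun T2 => ih nd' T2 g s2 ihy)
      (nat_lit 200) T1 ds))
    (fun a _ => @Nat.rec (fun _ => Bool)
      (setE false T x c y (fun T1 => ded TB false
        (fun T2 => frac r T2 nd' ihy (Nat.sub n nd') (nat_lit 0) s2)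
        (nat_lit 200) T1 ds))
      (fun a _ => @Bool.rec (fun _ => Bool) false (ihy s2)
        (setE true T x c y (fun T1 => ded TB true (fun T2 => fin n r F K nd' g a T2)
          (nat_lit 200) T1 ds))) a) q

/-- the treatment of the candidate `y` -/
def step (n r TB F : Nat) (K : List (Nat × Nat))
    (ih : Nat → Nat → Nat → List Nat → (List Nat → Bool) → Bool) (nd T x c y : Nat)
    (ihy : List Nat → Bool) (s1 : List Nat) : Bool :=
  @Nat.rec (fun _ => Bool)
    (@Bool.rec (fun _ => Bool)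
      (@List.rec Nat (fun _ => Bool) false (fun w s2 _ =>
        act n r TB F K ih T x c y ihy s2
          (@Bool.rec (fun _ => Nat) nd (Nat.succ nd) (Nat.beq y nd))
          (Nat.land (Nat.shiftRight w (nat_lit 3)) (nat_lit 255))
          (Nat.shiftRight w (nat_lit 11)) (Nat.land w (nat_lit 7))) s1)
      (ihy s1) (Nat.beq y n))
    (fun _ _ => ihy s1) (gt T y c)

/-- the loop over the candidates `< j` -/
def loop (n r TB F : Nat) (K : List (Nat × Nat))
    (ih : Nat → Nat → Nat → List Nat → (List Nat → Bool) → Bool) (nd T x c : Nat)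
    (k : List Nat → Bool) (j : Nat) : List Nat → Bool :=
  @Nat.rec (fun _ => List Nat → Bool) k
    (fun y ihy s1 => step n r TB F K ih nd T x c y ihy s1) j

end

theorem go_zero (n r TB F : ℕ) (K : List (ℕ × ℕ)) (nd T z : ℕ) (s : List ℕ)
    (k : List ℕ → Bool) : go n r TB F K 0 nd T z s k = false := rfl

theorem go_succ (n r TB F : ℕ) (K : List (ℕ × ℕ)) (fuel nd T z : ℕ) (s : List ℕ)
    (k : List ℕ → Bool) : go n r TB F K (fuel + 1) nd T z s k =
      @Bool.rec (fun _ => Bool) false (@Bool.rec (fun _ => Bool) false (@Nat.rec (fun _ => Bool)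
        (loop n r TB F K (go n r TB F K fuel) nd T (z / 9) (z % 9) k (nd + 1) s)
        (fun _ _ => false) (gt T (z / 9) (z % 9))) (Nat.ble (z % 9) r))
        (Nat.ble (z / 9 + 1) nd) := rfl

theorem go_spec {n r TB F : ℕ} {K : List (ℕ × ℕ)} {fuel nd T z : ℕ} {s : List ℕ}
    {k : List ℕ → Bool} (h : go n r TB F K (fuel + 1) nd T z s k = true) :
    z / 9 < nd ∧ z % 9 ≤ r ∧ gt T (z / 9) (z % 9) = 0 ∧
      loop n r TB F K (go n r TB F K fuel) nd T (z / 9) (z % 9) k (nd + 1) s = true := by
  rw [go_succ] at h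
  cases h1 : Nat.ble (z / 9 + 1) nd with
  | false => rw [h1] at h; exact absurd h Bool.false_ne_true
  | true =>
    rw [h1] at h
    cases h2 : Nat.ble (z % 9) r with
    | false => rw [h2] at h; exact absurd h Bool.false_ne_true
    | true =>
      rw [h2] at h
      cases h3 : gt T (z / 9) (z % 9) with
      | succ a => rw [h3] at h; exact absurd h Bool.false_ne_true
      | zero =>
        rw [h3] at h
        exact ⟨Nat.le_of_ble_eq_true h1, Nat.le_of_ble_eq_true h2, rfl, h⟩

theorem loop_zero (n r TB F : ℕ) (K : List (ℕ × ℕ))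
    (ih : Nat → Nat → Nat → List Nat → (List Nat → Bool) → Bool) (nd T x c : ℕ)
    (k : List ℕ → Bool) : loop n r TB F K ih nd T x c k 0 = k := rfl

theorem loop_succ (n r TB F : ℕ) (K : List (ℕ × ℕ))
    (ih : Nat → Nat → Nat → List Nat → (List Nat → Bool) → Bool) (nd T x c : ℕ)
    (k : List ℕ → Bool) (j : ℕ) (s : List ℕ) : loop n r TB F K ih nd T x c k (j + 1) s =
      step n r TB F K ih nd T x c j (loop n r TB F K ih nd T x c k j) s := rfl

/-- either the candidate is skipped or an action is performed -/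
theorem step_spec {n r TB F : ℕ} {K : List (ℕ × ℕ)}
    {ih : Nat → Nat → Nat → List Nat → (List Nat → Bool) → Bool} {nd T x c y : ℕ}
    {ihy : List ℕ → Bool} {s1 : List ℕ} (h : step n r TB F K ih nd T x c y ihy s1 = true) :
    ((gt T y c ≠ 0 ∨ y = n) ∧ ihy s1 = true) ∨
      ∃ s2 g ds q, act n r TB F K ih T x c y ihy s2 (if y = nd then nd + 1 else nd) g ds q = true := by
  unfold step at h
  cases h1 : gt T y c with
  | succ a => rw [h1] at h; exact Or.inl ⟨Or.inl (Nat.succ_ne_zero a), h⟩
  | zero =>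
    rw [h1] at h
    cases h2 : Nat.beq y n with
    | true => rw [h2] at h; exact Or.inl ⟨Or.inr (Nat.eq_of_beq_eq_true h2), h⟩
    | false =>
      rw [h2] at h
      cases s1 with
      | nil => exact absurd h Bool.false_ne_true
      | cons w s2 =>
        refine Or.inr ⟨s2, Nat.land (Nat.shiftRight w (nat_lit 3)) (nat_lit 255),
          Nat.shiftRight w (nat_lit 11), Nat.land w (nat_lit 7), ?_⟩
        cases h3 : Nat.beq y nd with
        | true =>
          rw [h3] at h
          rw [if_pos (Nat.eq_of_beq_eq_true h3)]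
          exact h
        | false =>
          rw [h3] at h
          rw [if_neg (Nat.ne_of_beq_eq_false h3)]
          exact h

theorem act_spec {n r TB F : ℕ} {K : List (ℕ × ℕ)}
    {ih : Nat → Nat → Nat → List Nat → (List Nat → Bool) → Bool} {T x c y : ℕ}
    {ihy : List ℕ → Bool} {s2 : List ℕ} {nd' g ds q : ℕ}
    (h : act n r TB F K ih T x c y ihy s2 nd' g ds q = true) :
    setE false T x c y (fun T1 => ded TB false (fun T2 => ih nd' T2 g s2 ihy) 200 T1 ds) = true ∨
    setE false T x c y (fun T1 => ded TB false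
      (fun T2 => frac r T2 nd' ihy (n - nd') 0 s2) 200 T1 ds) = true ∨
    (ihy s2 = true ∧ ∃ a, setE true T x c y
      (fun T1 => ded TB true (fun T2 => fin n r F K nd' g a T2) 200 T1 ds) = true) := by
  rcases q with _ | _ | a
  · exact Or.inl h
  · exact Or.inr (Or.inl h)
  · refine Or.inr (Or.inr ?_)
    have h' : @Bool.rec (fun _ => Bool) false (ihy s2) (setE true T x c y
      (fun T1 => ded TB true (fun T2 => fin n r F K nd' g a T2) 200 T1 ds)) = true := h
    cases h1 : setE true T x c y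
      (fun T1 => ded TB true (fun T2 => fin n r F K nd' g a T2) 200 T1 ds) with
    | false => rw [h1] at h'; exact absurd h' Bool.false_ne_true
    | true => rw [h1] at h'; exact ⟨h', a, h1⟩

theorem fin_spec {n r F : ℕ} {K : List (ℕ × ℕ)} {nd' g a T2 : ℕ}
    (h : fin n r F K nd' g a T2 = true) :
    (nd' < n ∧ full F T2 nd' = true) ∨ (nd' = n ∧ g < r ∧ par n T2 g = true) ∨
      (nd', T2) ∈ K := by
  rcases a with _ | _ | _ | a
  · exact absurd h Bool.false_ne_true
  · have h' : (Nat.blt nd' n && full F T2 nd') = true := h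
    rw [Bool.and_eq_true, Nat.blt_eq] at h'
    exact Or.inl h'
  · have h' : (Nat.beq nd' n && Nat.blt g r && par n T2 g) = true := h
    rw [Bool.and_eq_true, Bool.and_eq_true, Nat.blt_eq] at h'
    exact Or.inr (Or.inl ⟨Nat.eq_of_beq_eq_true h'.1.1, h'.1.2, h'.2⟩)
  · have h' : K.any (fun p => Nat.beq p.1 nd' && Nat.beq p.2 T2) = true := h
    rw [List.any_eq_true] at h'
    obtain ⟨p, hp, h2⟩ := h'
    rw [Bool.and_eq_true] at h2
    have e1 := Nat.eq_of_beq_eq_true h2.1
    have e2 := Nat.eq_of_beq_eq_true h2.2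
    refine Or.inr (Or.inr ?_)
    rw [← e1, ← e2]
    exact hp

theorem step_cont {n r TB F : ℕ} {K : List (ℕ × ℕ)}
    {ih : Nat → Nat → Nat → List Nat → (List Nat → Bool) → Bool}
    (hih : ∀ nd T z s k, ih nd T z s k = true → ∃ s', k s' = true) {nd T x c y : ℕ}
    {ihy : List ℕ → Bool} {s1 : List ℕ} (h : step n r TB F K ih nd T x c y ihy s1 = true) :
    ∃ s', ihy s' = true := by
  rcases step_spec h with ⟨_, h1⟩ | ⟨s2, g, ds, q, h1⟩
  · exact ⟨s1, h1⟩
  · rcases act_spec h1 with h2 | h2 | ⟨h2, _⟩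
    · obtain ⟨T1, h3⟩ := setE_cont h2
      obtain ⟨T2, h4⟩ := ded_cont h3
      exact hih _ _ _ _ _ h4
    · obtain ⟨T1, h3⟩ := setE_cont h2
      obtain ⟨T2, h4⟩ := ded_cont h3
      exact frac_cont h4
    · exact ⟨s2, h2⟩

/-- going down the loop -/
theorem loop_down {n r TB F : ℕ} {K : List (ℕ × ℕ)}
    {ih : Nat → Nat → Nat → List Nat → (List Nat → Bool) → Bool}
    (hih : ∀ nd T z s k, ih nd T z s k = true → ∃ s', k s' = true) {nd T x c : ℕ}
    {k : List ℕ → Bool} {i j : ℕ} (hij : i ≤ j) {s : List ℕ}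
    (h : loop n r TB F K ih nd T x c k j s = true) :
    ∃ s', loop n r TB F K ih nd T x c k i s' = true := by
  induction j, hij using Nat.le_induction generalizing s with
  | base => exact ⟨s, h⟩
  | succ j _ ihj =>
    rw [loop_succ] at h
    obtain ⟨s', h'⟩ := step_cont hih h
    exact ihj h'

theorem go_cont' (n r TB F : ℕ) (K : List (ℕ × ℕ)) (fuel : ℕ) :
    ∀ nd T z s k, go n r TB F K fuel nd T z s k = true → ∃ s', k s' = true := by
  induction fuel with
  | zero => intro nd T z s k h; exact absurd h Bool.false_ne_true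
  | succ fuel ih =>
    intro nd T z s k h
    exact loop_down ih (Nat.zero_le _) (go_spec h).2.2.2

theorem gt_start {m : ℕ} (h3 : 3 ≤ m) (h4 : m ≤ 4) (x c : ℕ) (hc : c < 9) :
    gt (2 ^ (10 * m)) x c = if x = 0 ∧ c = 2 * m then 1 else 0 := by
  have e : gt (2 ^ (10 * m)) x c = ((2 ^ (10 * m)) >>> (45 * x + 5 * c)) &&& (2 ^ 5 - 1) := rfl
  rw [e]
  apply Nat.eq_of_testBit_eq
  intro i
  rw [Nat.testBit_and, Nat.testBit_shiftRight, Nat.testBit_two_pow, Nat.testBit_two_pow_sub_one]
  split_ifs with h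
  · obtain ⟨rfl, rfl⟩ := h
    have e1 : (1 : ℕ).testBit i = decide (0 = i) := Nat.testBit_two_pow (n := 0) (m := i)
    rw [e1, ← Bool.decide_and]
    apply decide_eq_decide.2
    omega
  · rw [Nat.zero_testBit, ← Bool.decide_and]
    apply decide_eq_false
    omega

end Sm

theorem Sm.go_cont {n r TB F : ℕ} {K : List (ℕ × ℕ)} {fuel nd T z : ℕ} {s : List ℕ}
    {k : List ℕ → Bool} (h : go n r TB F K fuel nd T z s k = true) : ∃ s', k s' = true :=
  Sm.go_cont' n r TB F K fuel nd T z s k h

namespace SD0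
variable {Ω : Type} [Fintype Ω] [DecidableEq Ω] {m : ℕ} (S : SD0 Ω m)

/-- the true neighbour has a name, possibly a new one -/
theorem neighbour {nd T : ℕ} {L : ℕ → Ω} (hI : S.Inv nd T L) {x c : ℕ} (hx : x < nd)
    (hc : c ≤ 2 * m) (h0 : gt T x c = 0) :
    ∃ y L', y ≤ nd ∧ y ≠ 4 * m + 3 ∧ gt T y c = 0 ∧ y < (if y = nd then nd + 1 else nd) ∧
      x < (if y = nd then nd + 1 else nd) ∧
      S.Inv (if y = nd then nd + 1 else nd) T L' ∧ S.σ c (L' x) = L' y := by
  have hm := S.hm4
  have hc9 : c < 9 := by omega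
  have hle := hI.le
  by_cases hw : ∃ y, y < nd ∧ L y = S.σ c (L x)
  · obtain ⟨y, hy, e⟩ := hw
    have hne : y ≠ nd := by omega
    refine ⟨y, L, by omega, by omega, ?_, ?_, ?_, ?_, e.symm⟩
    · by_contra h1
      obtain ⟨b, hb⟩ := Nat.exists_eq_succ_of_ne_zero h1
      obtain ⟨_, hb1, _, e2, e3⟩ := hI.ent y c b hc9 hb
      have e4 : L b = L x := by rw [← e2, e, S.σ_inv]
      have e5 := hI.inj b hb1 x hx e4
      rw [e5, h0] at e3
      omega
    · rw [if_neg hne]; exact hy
    · rw [if_neg hne]; exact hx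
    · rw [if_neg hne]; exact hI
  · push Not at hw
    have hlt : nd < 4 * m + 3 := by
      by_contra h1
      have hnd : nd = 4 * m + 3 := by omega
      have hcard : ((Finset.range nd).image L).card = nd := by
        rw [Finset.card_image_of_injOn, Finset.card_range]
        intro a ha b hb e
        exact hI.inj a (by simpa using ha) b (by simpa using hb) e
      have hu : (Finset.range nd).image L = Finset.univ :=
        Finset.eq_univ_of_card _ (by rw [hcard, S.card, hnd])
      have : S.σ c (L x) ∈ (Finset.range nd).image L := by rw [hu]; exact Finset.mem_univ _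
      obtain ⟨y, hy, e⟩ := Finset.mem_image.1 this
      exact hw y (Finset.mem_range.1 hy) e
    have hup : ∀ a, a < nd → Function.update L nd (S.σ c (L x)) a = L a := fun a ha =>
      Function.update_of_ne (by omega) _ _
    refine ⟨nd, Function.update L nd (S.σ c (L x)), le_rfl, by omega, ?_, ?_, ?_, ?_, ?_⟩
    · by_contra h1
      obtain ⟨b, hb⟩ := Nat.exists_eq_succ_of_ne_zero h1
      exact absurd (hI.ent nd c b hc9 hb).1 (lt_irrefl _)
    · rw [if_pos rfl]; omega
    · rw [if_pos rfl]; omega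
    · rw [if_pos rfl]
      refine ⟨by omega, by omega, ?_, ?_⟩
      · intro a ha b hb e
        rcases Nat.lt_succ_iff_lt_or_eq.1 ha with ha' | rfl
        · rcases Nat.lt_succ_iff_lt_or_eq.1 hb with hb' | rfl
          · rw [hup a ha', hup b hb'] at e; exact hI.inj a ha' b hb' e
          · rw [hup a ha', Function.update_self] at e; exact absurd e (hw a ha')
        · rcases Nat.lt_succ_iff_lt_or_eq.1 hb with hb' | rfl
          · rw [hup b hb', Function.update_self] at e; exact absurd e.symm (hw b hb')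
          · rfl
      · intro a d b hd hb
        obtain ⟨h1, h2, h3, h4, h5⟩ := hI.ent a d b hd hb
        exact ⟨by omega, by omega, h3, by rw [hup a h1, hup b h2]; exact h4, h5⟩
    · rw [hup x hx, Function.update_self]

theorem go_sound' {TB F : ℕ} (hTB : TBok (2 * m) TB) (hF : Fok (2 * m) F) (K : List (ℕ × ℕ))
    (fuel : ℕ) : ∀ nd T z s k, go (4 * m + 3) (2 * m) TB F K fuel nd T z s k = true →
      S.Real nd T → ∃ p ∈ K, S.Real p.1 p.2 := by
  induction fuel with
  | zero => intro nd T z s k h; exact absurd h Bool.false_ne_true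
  | succ fuel ih =>
    intro nd T z s k h hR
    obtain ⟨L, hI⟩ := hR
    obtain ⟨hx, hc, h0, hl⟩ := go_spec h
    obtain ⟨y, L', hy, hyn, hy0, hy', hx', hI', e⟩ := S.neighbour hI hx hc h0
    obtain ⟨s1, h1⟩ := loop_down (go_cont' _ _ _ _ _ fuel) (Nat.succ_le_succ hy) hl
    rw [Nat.succ_eq_add_one, loop_succ] at h1
    rcases step_spec h1 with ⟨h2 | h2, _⟩ | ⟨s2, g, ds, q, h2⟩
    · exact absurd hy0 h2
    · exact absurd h2 hyn
    · generalize (if y = nd then nd + 1 else nd) = nd' at hy' hx' hI' h2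
      rcases act_spec h2 with h3 | h3 | ⟨_, a, h3⟩
      · obtain ⟨T1, hI1, h4⟩ := hI'.setE hx' hy' hc e h3
        obtain ⟨T2, hI2, h5⟩ := Inv.ded hTB hI1 h4
        exact ih _ _ _ _ _ h5 ⟨L', hI2⟩
      · obtain ⟨T1, hI1, h4⟩ := hI'.setE hx' hy' hc e h3
        obtain ⟨T2, hI2, h5⟩ := Inv.ded hTB hI1 h4
        exact (hI2.frac h5).elim
      · obtain ⟨T1, hI1, h4⟩ := hI'.setE hx' hy' hc e h3
        obtain ⟨T2, hI2, h5⟩ := Inv.ded hTB hI1 h4
        rcases fin_spec h5 with ⟨h6, h7⟩ | ⟨h6, h7, h8⟩ | h6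
        · exact (Inv.full hF hI2 h6 h7).elim
        · rw [h6] at hI2
          exact (hI2.par h7 h8).elim
        · exact ⟨(nd', T2), h6, L', hI2⟩

theorem go_sound {TB F : ℕ} (hTB : TBok (2 * m) TB) (hF : Fok (2 * m) F) {K : List (ℕ × ℕ)}
    {fuel nd T z : ℕ} {s : List ℕ} {k : List ℕ → Bool}
    (h : go (4 * m + 3) (2 * m) TB F K fuel nd T z s k = true) (hR : S.Real nd T) :
    ∃ p ∈ K, S.Real p.1 p.2 :=
  S.go_sound' hTB hF K fuel nd T z s k h hR

/-- the first state: a fixed point of the duality -/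
theorem real_start : S.Real 1 (2 ^ (10 * m)) := by
  have hfix : ∃ p, S.δ p = p := by
    by_contra h
    push Not at h
    have h2 := even_card_of_inv S.δ (Finset.univ : Finset Ω) S.dinv
      (fun x _ => ⟨Finset.mem_univ _, h x⟩)
    rw [Finset.card_univ, S.card] at h2
    obtain ⟨t, ht⟩ := h2
    omega
  obtain ⟨p, hp⟩ := hfix
  have h3 := S.hm
  have h4 := S.hm4
  refine ⟨fun _ => p, le_rfl, by omega, fun x hx y hy _ => by omega, ?_⟩
  intro x c y hc h
  rw [gt_start h3 h4 x c hc] at h
  by_cases h1 : x = 0 ∧ c = 2 * m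
  · rw [if_pos h1] at h
    obtain ⟨rfl, rfl⟩ := h1
    have hy : y = 0 := by omega
    subst hy
    refine ⟨by omega, by omega, le_rfl, ?_, ?_⟩
    · rw [S.σ_top]; exact hp
    · rw [gt_start h3 h4 0 _ hc, if_pos ⟨rfl, rfl⟩]
  · rw [if_neg h1] at h
    omega

end SD0
end D145
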