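import Pool.Agent.MP_d145c0_al.H75.SmBase
import Pool.Agent.MP_d145c0_al.H75.SmAlg

/-! The meaning of a table of the search. -/

namespace D145
open Equiv

namespace Sm

/-- the relations `σ j' * σ i = σ i' * σ j` used for deductions -/
def Rule (r i j i' j' : ℕ) : Prop :=
  (i < r ∧ j < r ∧ (i + 2 ≤ j ∨ j + 2 ≤ i) ∧ i' = i ∧ j' = j) ∨
  (i < r ∧ j = r ∧ i' = r - 1 - i ∧ j' = r) ∨ (i = r ∧ j < r ∧ i' = r ∧ j' = r - 1 - j)

instance (r i j i' j' : ℕ) : Decidable (Rule r i j i' j') := by unfold Rule; infer_instance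

/-- the table of relations is correct -/
def TBok (r TB : ℕ) : Prop :=
  ∀ e, e < 256 → (TB >>> (8 * e)) &&& 255 ≠ 0 →
    Rule r (e &&& 15) (e >>> 4) ((((TB >>> (8 * e)) &&& 255) - 1) &&& 15)
      ((((TB >>> (8 * e)) &&& 255) - 1) >>> 4)

instance (r TB : ℕ) : Decidable (TBok r TB) := by unfold TBok; infer_instance

/-- the mask of the label entries is correct -/
def Fok (r F : ℕ) : Prop := ∀ x, x < 20 → ∀ c, c < r → F.testBit (45 * x + 5 * c) = true

instance (r F : ℕ) : Decidable (Fok r F) := by unfold Fok; infer_instance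

end Sm

namespace SD0
variable {Ω : Type} [Fintype Ω] [DecidableEq Ω] {m : ℕ} (S : SD0 Ω m)

/-- the permutation of the column `c`: the label `c`, or the duality for `c = 2 m` -/
def σ (c : ℕ) : Perm Ω := if c = 2 * m then S.δ else S.ρ c

/-- The table `T` on the points `< nd` is realised by the naming `L`. -/
structure Inv (nd T : ℕ) (L : ℕ → Ω) : Prop where
  pos : 1 ≤ nd
  le : nd ≤ 4 * m + 3
  inj : ∀ x, x < nd → ∀ y, y < nd → L x = L y → x = y
  ent : ∀ x c y, c < 9 → Sm.gt T x c = y + 1 →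
    x < nd ∧ y < nd ∧ c ≤ 2 * m ∧ S.σ c (L x) = L y ∧ Sm.gt T y c = x + 1

/-- the state `(nd, T)` is realised -/
def Real (nd T : ℕ) : Prop := ∃ L, S.Inv nd T L

theorem σ_lt {c : ℕ} (h : c < 2 * m) : S.σ c = S.ρ c := if_neg (by omega)

theorem σ_top : S.σ (2 * m) = S.δ := if_pos rfl

theorem σ_inv (c : ℕ) (x : Ω) : S.σ c (S.σ c x) = x := by
  unfold σ; split_ifs
  · exact S.dinv x
  · exact S.inv c x

theorem σ_rule {i j i' j' : ℕ} (h : Sm.Rule (2 * m) i j i' j') (z : Ω) :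
    S.σ j' (S.σ i z) = S.σ i' (S.σ j z) := by
  rcases h with ⟨h1, h2, h3, rfl, rfl⟩ | ⟨h1, rfl, rfl, rfl⟩ | ⟨rfl, h2, rfl, rfl⟩
  · rw [S.σ_lt h1, S.σ_lt h2]; exact (S.comm' h3 z).symm
  · rw [S.σ_lt h1, S.σ_top, S.σ_lt (by omega)]; exact S.dual i h1 z
  · rw [S.σ_lt h2, S.σ_top, S.σ_lt (by omega)]; exact (S.dual j h2 z).symm

end SD0
end D145
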