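import Pool.Agent.MP_d145c0_al.H75.SmBase
import Pool.Agent.MP_d145c0_al.H75.S1

/-! Removing an inner label gives an intransitive group (`m = 3, 4`). -/

namespace D145
open Equiv Finset

theorem orb_dvd {Ω : Type} [Fintype Ω] [DecidableEq Ω] (Q : Subgroup (Perm Ω)) (U : Finset Ω)
    (s : ℕ) (hU : ∀ q ∈ Q, ∀ x ∈ U, q x ∈ U) (hs : ∀ x, (S1aux.orbF Q x).card = s) :
    s ∣ U.card := by
  rw [Finset.card_eq_sum_card_image (S1aux.orbF Q) U]
  refine Finset.dvd_sum ?_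
  intro A hA
  obtain ⟨y, hy, rfl⟩ := Finset.mem_image.1 hA
  have h1 : U.filter (fun z => S1aux.orbF Q z = S1aux.orbF Q y) = S1aux.orbF Q y := by
    ext z; simp only [Finset.mem_filter]
    refine ⟨fun h => h.2 ▸ S1aux.self_orbF Q z, fun h => ⟨?_, S1aux.orbF_eq h⟩⟩
    obtain ⟨q, hq, rfl⟩ := S1aux.mem_orbF.1 h
    exact hU q hq y hy
  rw [h1, hs]

namespace SD0
variable {Ω : Type} [Fintype Ω] [DecidableEq Ω] {m : ℕ} (S : SD0 Ω m)

theorem s1_comm {I J : Set ℕ} (h : ∀ i ∈ I, ∀ j ∈ J, ∀ z, S.ρ j (S.ρ i z) = S.ρ i (S.ρ j z)) :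
    ∀ p ∈ S.G I, ∀ q ∈ S.G J, ∀ x, p (q x) = q (p x) := by
  intro p hp q hq
  refine S.G_comm (f := p) ?_ hq
  intro j hj z
  exact (S.G_comm (f := S.ρ j) (fun i hi z => h i hi j hj z) hp z).symm

/-- labels `c, c + 2, ..., c + 2 (t - 1)` -/
def s1set (c t : ℕ) : Set ℕ := {j | ∃ k, k < t ∧ j = c + 2 * k}

theorem s1_ab (c t : ℕ) : ∀ g ∈ S.G (s1set c t), ∀ h ∈ S.G (s1set c t), g * h = h * g := by
  intro g hg h hh
  ext x
  refine S.s1_comm ?_ g hg h hh x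
  rintro _ ⟨k, _, rfl⟩ _ ⟨l, _, rfl⟩ z
  by_cases e : k = l
  · rw [e]
  · exact S.comm' (by omega) z

theorem s1_sq (c t : ℕ) : ∀ g ∈ S.G (s1set c t), g * g = 1 := by
  intro g hg
  refine S.G_ind (P := fun g => g * g = 1) (by simp) ?_ hg
  intro i hi g hg h
  have h1 := S.s1_ab c t g hg _ (S.ρ_mem hi)
  have h2 : S.ρ i * S.ρ i = 1 := by ext x; simp [S.inv]
  calc S.ρ i * g * (S.ρ i * g) = S.ρ i * (g * S.ρ i) * g := by group
    _ = (S.ρ i * S.ρ i) * (g * g) := by rw [h1]; group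
    _ = 1 := by rw [h, h2, one_mul]

theorem s1_not_mem {k : ℕ} (hk : k < 2 * m) : S.ρ k ∉ S.G (Set.Iio k) := by
  intro h
  rcases Nat.eq_zero_or_pos k with rfl | h0
  · refine S.ne 0 hk (S.G_empty (k := 1) (l := 0) (by omega) (S.G_mono ?_ h))
    intro j hj; simp at hj
  · refine S.ne k hk (S.G_empty (k := k) (l := k - 1) (by omega)
      (S.ipG k (k - 1) ⟨S.G_mono ?_ h, S.ρ_mem (Set.mem_Ici.2 le_rfl)⟩))
    intro j hj; simp at hj ⊢; omega

theorem s1_card (c : ℕ) : ∀ t, c + 2 * t ≤ 2 * m + 1 → 2 ^ t ≤ Nat.card (S.G (s1set c t)) := by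
  intro t
  induction t with
  | zero => intro _; exact Nat.card_pos
  | succ t ih =>
    intro ht
    have h1 := ih (by omega)
    have h2 : 2 * Nat.card (S.G (s1set c t)) ≤ Nat.card (S.G (s1set c (t + 1))) := by
      refine S1aux.double (g := S.ρ (c + 2 * t)) (S.G_mono ?_) (S.ρ_mem ⟨t, by omega, rfl⟩) ?_
      · rintro _ ⟨k, hk, rfl⟩; exact ⟨k, by omega, rfl⟩
      · intro h
        refine S.s1_not_mem (k := c + 2 * t) (by omega) (S.G_mono ?_ h)
        rintro _ ⟨k, hk, rfl⟩; simp; omega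
    rw [pow_succ]; omega

theorem s1 {i : ℕ} (h1 : 1 ≤ i) (h2 : i + 2 ≤ 2 * m) : ∃ x y, ¬ S.R {j | j ≠ i} x y := by
  by_contra hh
  push Not at hh
  have hc : ∀ p ∈ S.G (Set.Iio i), ∀ q ∈ S.G (Set.Ioi i), ∀ x, p (q x) = q (p x) := by
    refine S.s1_comm ?_
    intro a ha b hb z
    simp only [Set.mem_Iio, Set.mem_Ioi] at ha hb
    exact S.comm' (by omega) z
  have htr : ∀ x y, ∃ p ∈ S.G (Set.Iio i), ∃ q ∈ S.G (Set.Ioi i), p (q x) = y := by
    intro x y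
    refine (hh x y).ind (U := {y | ∃ p ∈ S.G (Set.Iio i), ∃ q ∈ S.G (Set.Ioi i), p (q x) = y})
      ⟨1, one_mem _, 1, one_mem _, rfl⟩ ?_
    rintro j hj _ ⟨p, hp, q, hq, rfl⟩
    rcases lt_or_gt_of_ne (show j ≠ i from hj) with h | h
    · exact ⟨S.ρ j * p, mul_mem (S.ρ_mem h) hp, q, hq, rfl⟩
    · exact ⟨p, hp, S.ρ j * q, mul_mem (S.ρ_mem h) hq, hc p hp _ (S.ρ_mem h) _⟩
  have hc' : ∀ q ∈ S.G (Set.Ioi i), ∀ p ∈ S.G (Set.Iio i), ∀ x, q (p x) = p (q x) :=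
    fun q hq p hp x => (hc p hp q hq x).symm
  have htr' : ∀ x y, ∃ q ∈ S.G (Set.Ioi i), ∃ p ∈ S.G (Set.Iio i), q (p x) = y := by
    intro x y
    obtain ⟨p, hp, q, hq, e⟩ := htr x y
    exact ⟨q, hq, p, hp, by rw [← hc p hp q hq, e]⟩
  have hodd : Odd (Fintype.card Ω) := by rw [S.card]; exact ⟨2 * m + 1, by ring⟩
  have hb := S1aux.side (E := S.G (s1set (i + 1) ((2 * m - i) / 2))) hc htr hodd
    (S.G_mono (by rintro _ ⟨k, _, rfl⟩; simp only [Set.mem_Ioi]; omega))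
    (S.s1_ab _ _) (S.s1_sq _ _) (S.s1_card _ _ (by omega))
  have ha := S1aux.side (E := S.G (s1set ((i + 1) % 2) ((i + 1) / 2))) hc' htr' hodd
    (S.G_mono (by rintro _ ⟨k, _, rfl⟩; simp only [Set.mem_Iio]; omega))
    (S.s1_ab _ _) (S.s1_sq _ _) (S.s1_card _ _ (by omega))
  have hp := S1aux.prod_le htr
  rw [S.card] at hp
  have hm := S.hm
  have hm4 := S.hm4
  obtain ⟨x0⟩ : Nonempty Ω := Fintype.card_pos_iff.1 hodd.pos
  have eb := fun x => S1aux.card_eq hc htr x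
  have ea := fun x => S1aux.card_eq hc' htr' x
  simp only [S.card] at eb ea
  have key : ∀ (Q : Subgroup (Perm Ω)) (j : ℕ), j < 2 * m →
      (∀ q ∈ Q, ∀ x, S.ρ j (q x) = q (S.ρ j x)) → (∀ x, (S1aux.orbF Q x).card = 5) → m ≠ 3 := by
    intro Q j hj hq h5 h3
    have d5 := orb_dvd Q (S.supp j) 5 (by
      intro q hq' x hx
      rw [mem_supp] at hx ⊢
      rw [hq q hq']; exact fun e => hx (q.injective e)) h5
    have d4 := S.four_dvd_supp j
    obtain ⟨z, hz⟩ := S.exists_moved hj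
    have p0 : 0 < (S.supp j).card := Finset.card_pos.2 ⟨z, S.mem_supp.2 hz⟩
    have p1 : (S.supp j).card ≤ 4 * m + 3 := by rw [← S.card]; exact Finset.card_le_univ _
    omega
  have k1 := key (S.G (Set.Ioi i)) 0 (by omega)
    (fun q hq x => hc _ (S.ρ_mem (show 0 ∈ Set.Iio i from h1)) q hq x)
  have k2 := key (S.G (Set.Iio i)) (2 * m - 1) (by omega)
    (fun q hq x => hc' _ (S.ρ_mem (show 2 * m - 1 ∈ Set.Ioi i by simp; omega)) q hq x)
  generalize (S1aux.orbs (S.G (Set.Iio i))).card = b at hb hp eb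
  generalize (S1aux.orbs (S.G (Set.Ioi i))).card = a at ha hp ea
  have a3 : 3 ≤ a := by omega
  have b3 : 3 ≤ b := by omega
  have hs : 2 * m + 1 ≤ a + b := by omega
  have a6 : a ≤ 6 := by nlinarith
  have b6 : b ≤ 6 := by nlinarith
  have hA := ea x0
  have hB := eb x0
  obtain rfl | rfl : m = 3 ∨ m = 4 := by omega
  · by_cases h3 : a = 3
    · subst h3
      exact k1 (fun x => by have := ea x; omega) rfl
    · by_cases h3' : b = 3
      · subst h3'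
        exact k2 (fun x => by have := eb x; omega) rfl
      · nlinarith [show 4 ≤ a by omega, show 4 ≤ b by omega]
  · interval_cases a <;> omega

end SD0
end D145
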