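import Pool.Agent.MP_d145c0_al.H75.SmInv

/-! Soundness of recording edges and of deductions. -/

namespace D145
open Equiv Sm

namespace Sm

theorem frc_eq (n : ℕ) (k : ℕ → Bool) : frc n k = k n := rfl

theorem gt_eq (T x c : ℕ) : gt T x c = (T >>> (45 * x + 5 * c)) &&& 31 := rfl

theorem put_eq (T x c y : ℕ) :
    put T x c y = (T ||| (y + 1) <<< (45 * x + 5 * c)) ||| (x + 1) <<< (45 * y + 5 * c) := rfl

theorem gt_put {c c' v : ℕ} (hc : c < 9) (hc' : c' < 9) (hv : v < 32) (T x x' : ℕ) :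
    gt (T ||| v <<< (45 * x + 5 * c)) x' c' =
      gt T x' c' ||| (if x' = x ∧ c' = c then v else 0) := by
  apply Nat.eq_of_testBit_eq
  intro t
  have h31 : (31 : ℕ) = 2 ^ 5 - 1 := rfl
  have hb : ∀ s, 5 ≤ s → v.testBit s = false := fun s hs =>
    Nat.testBit_lt_two_pow (lt_of_lt_of_le hv (Nat.pow_le_pow_right (n := 2) (by omega) hs))
  rw [gt_eq, gt_eq, h31]
  simp only [Nat.testBit_and, Nat.testBit_or, Nat.testBit_shiftRight, Nat.testBit_shiftLeft,
    Nat.testBit_two_pow_sub_one]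
  by_cases ht : t < 5
  · simp only [ht, decide_true, Bool.and_true]
    congr 1
    split_ifs with h
    · obtain ⟨rfl, rfl⟩ := h
      simp
    · rw [Nat.zero_testBit]
      by_cases h1 : 45 * x' + 5 * c' + t ≥ 45 * x + 5 * c
      · rw [hb _ (by omega), Bool.and_false]
      · simp only [h1, decide_false, Bool.false_and]
  · simp only [ht, decide_false, Bool.and_false, Bool.false_or]
    split_ifs
    · exact (hb _ (by omega)).symm
    · exact (Nat.zero_testBit _).symm

theorem gt_put' {T x c y : ℕ} (hc : c < 9) (hx : x < 31) (hy : y < 31) (h1 : gt T x c = 0)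
    (h2 : gt T y c = 0) (x' : ℕ) {c' : ℕ} (hc' : c' < 9) :
    gt (put T x c y) x' c' =
      if x' = x ∧ c' = c then y + 1 else if x' = y ∧ c' = c then x + 1 else gt T x' c' := by
  rw [put_eq, gt_put hc hc' (by omega), gt_put hc hc' (by omega)]
  split_ifs with a b b
  · obtain ⟨rfl, rfl⟩ := a
    obtain ⟨rfl, -⟩ := b
    rw [h1, Nat.zero_or, Nat.or_self]
  · obtain ⟨rfl, rfl⟩ := a
    rw [h1, Nat.zero_or, Nat.or_zero]
  · obtain ⟨rfl, rfl⟩ := b
    rw [h2, Nat.zero_or, Nat.zero_or]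
  · rw [Nat.or_zero, Nat.or_zero]

theorem setE_cases {cf : Bool} {T x c y : ℕ} {k : ℕ → Bool} (h : setE cf T x c y k = true) :
    (gt T x c = 0 ∧ gt T y c = 0 ∧ k (put T x c y) = true) ∨
    (gt T x c = 0 ∧ gt T y c ≠ 0 ∧ cf = true) ∨
    (gt T x c = y + 1 ∧ k T = true) ∨ (gt T x c ≠ 0 ∧ gt T x c ≠ y + 1 ∧ cf = true) := by
  unfold setE at h
  generalize gt T x c = u at h ⊢
  generalize gt T y c = v at h ⊢
  rcases u with _ | a
  · rcases v with _ | b
    · exact Or.inl ⟨rfl, rfl, h⟩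
    · exact Or.inr (Or.inl ⟨rfl, by omega, h⟩)
  · have h' : @Bool.rec (fun _ => Bool) cf (k T) (Nat.beq a y) = true := h
    cases he : Nat.beq a y
    · rw [he] at h'
      have := Nat.ne_of_beq_eq_false he
      exact Or.inr (Or.inr (Or.inr ⟨by omega, by omega, h'⟩))
    · rw [he] at h'
      have := Nat.eq_of_beq_eq_true he
      exact Or.inr (Or.inr (Or.inl ⟨by omega, h'⟩))

theorem ded1_cases {cf : Bool} {T x i j i' j' : ℕ} {k : ℕ → Bool}
    (h : ded1 cf T x i j i' j' k = true) :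
    ∃ y a b, gt T x i = y + 1 ∧ gt T x j = a + 1 ∧ gt T y j' = b + 1 ∧
      setE cf T a i' b k = true := by
  unfold ded1 at h
  generalize gt T x i = u at h ⊢
  generalize gt T x j = v at h ⊢
  rcases u with _ | y
  · exact absurd h Bool.false_ne_true
  rcases v with _ | a
  · exact absurd h Bool.false_ne_true
  have h' : @Nat.rec (fun _ => Bool) false (fun b _ => setE cf T a i' b k) (gt T y j') = true := h
  rcases hw : gt T y j' with _ | b
  · rw [hw] at h'
    exact absurd h' Bool.false_ne_true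
  · rw [hw] at h'
    exact ⟨y, a, b, rfl, rfl, hw, h'⟩

theorem ded_cases {TB : ℕ} {cf : Bool} {k : ℕ → Bool} {fuel T ds : ℕ}
    (h : ded TB cf k (fuel + 1) T ds = true) :
    k T = true ∨ ∃ x e t ds', e < 256 ∧ (TB >>> (8 * e)) &&& 255 = t + 1 ∧
      ded1 cf T x (e &&& 15) (e >>> 4) (t &&& 15) (t >>> 4)
        (fun T' => ded TB cf k fuel T' ds') = true := by
  rcases ds with _ | m
  · exact Or.inl h
  · right
    have h' : @Nat.rec (fun _ => Bool) false (fun t _ =>
        ded1 cf T (m &&& 31) (((m >>> 5) &&& 255) &&& 15) (((m >>> 5) &&& 255) >>> 4) (t &&& 15)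
          (t >>> 4) (fun T' => ded TB cf k fuel T' (m >>> 13)))
        ((TB >>> (8 * ((m >>> 5) &&& 255))) &&& 255) = true := h
    rcases hw : (TB >>> (8 * ((m >>> 5) &&& 255))) &&& 255 with _ | t
    · rw [hw] at h'
      exact absurd h' Bool.false_ne_true
    · rw [hw] at h'
      exact ⟨_, _, t, _, Nat.lt_succ_of_le Nat.and_le_right, hw, h'⟩

theorem setE_cont {T x c y : ℕ} {k : ℕ → Bool} (h : setE false T x c y k = true) :
    ∃ T', k T' = true := by
  rcases setE_cases h with h | h | h | h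
  · exact ⟨_, h.2.2⟩
  · exact absurd h.2.2 Bool.false_ne_true
  · exact ⟨_, h.2⟩
  · exact absurd h.2.2 Bool.false_ne_true

theorem ded_cont {TB : ℕ} {k : ℕ → Bool} {fuel T ds : ℕ} (h : ded TB false k fuel T ds = true) :
    ∃ T', k T' = true := by
  induction fuel generalizing T ds with
  | zero => exact absurd h Bool.false_ne_true
  | succ f ih =>
    rcases ded_cases h with h | ⟨x, e, t, ds', -, -, h⟩
    · exact ⟨T, h⟩
    · obtain ⟨y, a, b, -, -, -, h⟩ := ded1_cases h
      obtain ⟨T', h⟩ := setE_cont h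
      exact ih h

end Sm

namespace SD0
variable {Ω : Type} [Fintype Ω] [DecidableEq Ω] {m : ℕ} {S : SD0 Ω m} {nd T : ℕ} {L : ℕ → Ω}

theorem Inv.setE (hI : S.Inv nd T L) {cf : Bool} {x c y : ℕ} {k : ℕ → Bool} (hx : x < nd)
    (hy : y < nd) (hc : c ≤ 2 * m) (e : S.σ c (L x) = L y) (h : setE cf T x c y k = true) :
    ∃ T', S.Inv nd T' L ∧ k T' = true := by
  have hm := S.hm4
  have hle := hI.le
  have hc9 : c < 9 := by omega
  have e' : S.σ c (L y) = L x := by rw [← e, S.σ_inv]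
  rcases setE_cases h with ⟨h1, h2, h3⟩ | ⟨h1, h2, -⟩ | ⟨-, h2⟩ | ⟨h1, h2, -⟩
  · refine ⟨_, ⟨hI.pos, hI.le, hI.inj, fun x' c' y' hc' hg => ?_⟩, h3⟩
    have key := gt_put' hc9 (show x < 31 by omega) (show y < 31 by omega) h1 h2
    rw [key x' hc'] at hg
    rw [key y' hc']
    split_ifs at hg with a b
    · obtain ⟨rfl, rfl⟩ := a
      obtain rfl : y = y' := by omega
      refine ⟨hx, hy, hc, e, ?_⟩
      split_ifs with p q
      · rw [p.1]
      · rfl
      · exact absurd ⟨rfl, rfl⟩ q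
    · obtain ⟨rfl, rfl⟩ := b
      obtain rfl : x = y' := by omega
      exact ⟨hy, hx, hc, e', if_pos ⟨rfl, rfl⟩⟩
    · obtain ⟨a1, a2, a3, a4, a5⟩ := hI.ent x' c' y' hc' hg
      refine ⟨a1, a2, a3, a4, ?_⟩
      split_ifs with p q
      · obtain ⟨rfl, rfl⟩ := p
        omega
      · obtain ⟨rfl, rfl⟩ := q
        omega
      · exact a5
  · obtain ⟨b, hb⟩ := Nat.exists_eq_succ_of_ne_zero h2
    obtain ⟨-, a2, -, a4, a5⟩ := hI.ent y c b hc9 hb
    obtain rfl : b = x := hI.inj b a2 x hx (by rw [← a4, e'])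
    omega
  · exact ⟨T, hI, h2⟩
  · obtain ⟨b, hb⟩ := Nat.exists_eq_succ_of_ne_zero h1
    obtain ⟨-, a2, -, a4, -⟩ := hI.ent x c b hc9 hb
    obtain rfl : b = y := hI.inj b a2 y hy (by rw [← a4, e])
    exact absurd hb h2

theorem Inv.ded {TB : ℕ} (hTB : TBok (2 * m) TB) (hI : S.Inv nd T L) {cf : Bool} {k : ℕ → Bool}
    {fuel ds : ℕ} (h : ded TB cf k fuel T ds = true) : ∃ T', S.Inv nd T' L ∧ k T' = true := by
  have hm := S.hm4
  induction fuel generalizing T ds with
  | zero => exact absurd h Bool.false_ne_true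
  | succ f ih =>
    rcases ded_cases h with h | ⟨x, e, t, ds', he, ht, h⟩
    · exact ⟨T, hI, h⟩
    · have hR := hTB e he (by omega)
      rw [ht, Nat.add_sub_cancel] at hR
      generalize e &&& 15 = i at h hR
      generalize e >>> 4 = j at h hR
      generalize t &&& 15 = i' at h hR
      generalize t >>> 4 = j' at h hR
      obtain ⟨y, a, b, h1, h2, h3, h⟩ := ded1_cases h
      have hb : i ≤ 2 * m ∧ j ≤ 2 * m ∧ i' ≤ 2 * m ∧ j' ≤ 2 * m := by
        unfold Rule at hR
        omega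
      obtain ⟨-, -, -, e1, -⟩ := hI.ent x i y (by omega) h1
      obtain ⟨-, ha, -, e2, -⟩ := hI.ent x j a (by omega) h2
      obtain ⟨-, hb', -, e3, -⟩ := hI.ent y j' b (by omega) h3
      obtain ⟨T', hI', h⟩ := hI.setE ha hb' hb.2.2.1
        (by rw [← e2, ← S.σ_rule hR, e1, e3]) h
      exact ih hI' h

end SD0
end D145
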