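import Pool.Agent.MP_d145c0_al.H75.Defs

/-! Three-cycle toolkit (pure permutation group facts). -/

namespace D145
open Equiv Finset
variable {Ω : Type} [Fintype Ω] [DecidableEq Ω]

theorem AltIn.mono {H H' : Subgroup (Perm Ω)} {U U' : Set Ω} (h : AltIn H U) (hH : H ≤ H')
    (hU : U' ⊆ U) : AltIn H' U' := by
  intro g hg hf
  exact hH (h g hg (fun x hx => hf x (fun hx' => hx (hU hx'))))

theorem AltIn.inf {H K : Subgroup (Perm Ω)} {U V : Set Ω} (h : AltIn H U) (k : AltIn K V) :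
    AltIn (H ⊓ K) (U ∩ V) := by
  intro g hg hf
  exact ⟨h g hg (fun x hx => hf x (fun hx' => hx hx'.1)),
    k g hg (fun x hx => hf x (fun hx' => hx hx'.2))⟩

/-- conjugation -/
theorem AltIn.conj {H : Subgroup (Perm Ω)} {U : Set Ω} (hU : AltIn H U) {h : Perm Ω}
    (hh : h ∈ H) : AltIn H (h '' U) := by
  intro g hg hf
  have h1 : h⁻¹ * g * h ∈ H := by
    refine hU _ (by simp [hg]) fun x hx => ?_
    have : g (h x) = h x := hf _ fun ⟨y, hy, e⟩ => hx (h.injective e ▸ hy)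
    simp [this]
  have h2 : g = h * (h⁻¹ * g * h) * h⁻¹ := by group
  rw [h2]
  exact H.mul_mem (H.mul_mem hh h1) (H.inv_mem hh)

/-- products of two transpositions through a base point generate -/
theorem altIn_of_base {H : Subgroup (Perm Ω)} {T : Set Ω} {x : Ω}
    (h : ∀ u ∈ T, ∀ v ∈ T, u ≠ x → v ≠ x → swap x u * swap x v ∈ H) : AltIn H T := by
  let P : Perm Ω → Prop := fun g =>
    (Perm.sign g = 1 → g ∈ H) ∧ ∀ u ∈ T, u ≠ x → Perm.sign g = -1 → swap x u * g ∈ H
  have s1 : ∀ w ∈ T, w ≠ x → ∀ g, P g → P (swap x w * g) := by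
    intro w hw hwx g hg
    have e : Perm.sign (swap x w * g) = -Perm.sign g := by
      rw [Perm.sign_mul, Perm.sign_swap hwx.symm, neg_one_mul]
    refine ⟨fun hs => hg.2 w hw hwx ?_, fun u hu hux hs => ?_⟩
    · rw [e] at hs; exact neg_eq_iff_eq_neg.1 hs
    · rw [e] at hs
      rw [← mul_assoc]
      exact H.mul_mem (h u hu w hw hux hwx) (hg.1 (neg_injective hs))
  have s2 : ∀ a ∈ T, ∀ b ∈ T, a ≠ b → ∀ g, P g → P (swap a b * g) := by
    intro a ha b hb hab g hg
    by_cases e1 : a = x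
    · subst e1; exact s1 b hb hab.symm g hg
    by_cases e2 : b = x
    · subst e2; rw [swap_comm]; exact s1 a ha hab g hg
    have : swap a b = swap x a * (swap x b * swap x a) := by
      rw [← mul_assoc, swap_comm x b, swap_mul_swap_mul_swap e2 (Ne.symm hab)]
    rw [this, mul_assoc, mul_assoc]
    exact s1 a ha e1 _ (s1 b hb e2 _ (s1 a ha e1 g hg))
  have key : ∀ n : ℕ, ∀ g : Perm Ω, g.support.card ≤ n → (∀ y, y ∉ T → g y = y) → P g := by
    intro n
    induction n with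
    | zero =>
      intro g hn _
      have : g = 1 := Perm.support_eq_empty_iff.1 (card_eq_zero.1 (Nat.le_zero.1 hn))
      subst this
      exact ⟨fun _ => H.one_mem, fun u _ _ hs => absurd hs (by simp)⟩
    | succ n ih =>
      intro g hn hf
      by_cases e : ∀ a, g a = a
      · refine ih g ?_ hf
        rw [Perm.support_eq_empty_iff.2 (Equiv.ext e)]
        simp
      obtain ⟨a, ha⟩ := not_forall.1 e
      have aT : a ∈ T := by_contra fun h' => ha (hf a h')
      have gT : g a ∈ T := by_contra fun h' => ha (g.injective (hf _ h'))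
      have hlt := Perm.card_support_swap_mul ha
      have := s2 a aT (g a) gT (Ne.symm ha) _ (ih (swap a (g a) * g) (by omega) fun y hy => by
        rw [Perm.mul_apply, hf y hy]
        exact swap_apply_of_ne_of_ne (fun e => hy (e ▸ aT)) fun e => hy (e ▸ gT))
      rwa [← mul_assoc, swap_mul_self, one_mul] at this
  exact fun g hg hf => (key _ g le_rfl hf).1 hg

theorem AltIn.swaps {H : Subgroup (Perm Ω)} {U : Set Ω} (hU : AltIn H U) {x u v : Ω}
    (hx : x ∈ U) (hu : u ∈ U) (hv : v ∈ U) (hux : u ≠ x) (hvx : v ≠ x) :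
    swap x u * swap x v ∈ H := by
  refine hU _ (by simp [Perm.sign_swap hux.symm, Perm.sign_swap hvx.symm]) fun y hy => ?_
  have h1 : y ≠ x := fun e => hy (e ▸ hx)
  rw [Perm.mul_apply, swap_apply_of_ne_of_ne h1 fun e => hy (e ▸ hv),
    swap_apply_of_ne_of_ne h1 fun e => hy (e ▸ hu)]

theorem altIn_three_aux {H : Subgroup (Perm Ω)} {t : Perm Ω} (ht : t ∈ H) {x y z : Ω}
    (hxy : x ≠ y) (hyz : y ≠ z) (hxz : x ≠ z) (h1 : t x = y) (h2 : t y = z) (h3 : t z = x)
    (ho : ∀ w, w ≠ x → w ≠ y → w ≠ z → t w = w) : AltIn H {x, y, z} := by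
  have e : swap x z * swap x y = t := by
    ext w
    rw [Perm.mul_apply]
    by_cases a : w = x
    · rw [a, swap_apply_left, swap_apply_of_ne_of_ne hxy.symm hyz, h1]
    by_cases b : w = y
    · rw [b, swap_apply_right, swap_apply_left, h2]
    by_cases c : w = z
    · rw [c, swap_apply_of_ne_of_ne hxz.symm hyz.symm, swap_apply_right, h3]
    rw [swap_apply_of_ne_of_ne a b, swap_apply_of_ne_of_ne a c, ho w a b c]
  refine altIn_of_base (x := x) ?_
  rintro u (rfl | rfl | rfl) v (rfl | rfl | rfl) hu hv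
  all_goals first | exact absurd rfl hu | exact absurd rfl hv | skip
  · rw [swap_mul_self]; exact H.one_mem
  · have := H.inv_mem ht
    rwa [← e, mul_inv_rev, swap_inv, swap_inv] at this
  · rwa [e]
  · rw [swap_mul_self]; exact H.one_mem

/-- two elements whose supports meet in one point give a 3-cycle -/
theorem tri_comm {H : Subgroup (Perm Ω)} {g h : Perm Ω} (hg : g ∈ H) (hh : h ∈ H) {x : Ω}
    (gx : g x ≠ x) (hx : h x ≠ x) (ho : ∀ y, y ≠ x → g y = y ∨ h y = y) :
    AltIn H {x, g x, h x} ∧ g x ≠ h x := by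
  have inv : ∀ (k : Perm Ω) (a b : Ω), k a = b → k⁻¹ b = a := fun k a b e => by
    rw [← e]; simp
  have ha : h (g x) = g x := (ho _ gx).resolve_left fun e => gx (g.injective e)
  have hb : g (h x) = h x := (ho _ hx).resolve_right fun e => hx (h.injective e)
  have hab : g x ≠ h x := fun e => hx (h.injective (by rw [← e, ha, e]))
  refine ⟨altIn_three_aux (t := g * h * g⁻¹ * h⁻¹)
    (H.mul_mem (H.mul_mem (H.mul_mem hg hh) (H.inv_mem hg)) (H.inv_mem hh))
    gx.symm hab hx.symm ?_ ?_ ?_ fun w w1 w2 w3 => ?_, hab⟩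
  · have n1 : h⁻¹ x ≠ x := fun e => hx (by simpa using (congrArg h e).symm)
    have f1 : g (h⁻¹ x) = h⁻¹ x := (ho _ n1).resolve_right fun e => n1 (by simpa using e.symm)
    simp only [Perm.mul_apply]
    rw [inv g _ _ f1]
    simp
  · simp only [Perm.mul_apply]
    rw [inv h _ _ ha, inv g _ _ rfl, hb]
  · have n1 : g⁻¹ x ≠ x := fun e => gx (by simpa using (congrArg g e).symm)
    have f1 : h (g⁻¹ x) = g⁻¹ x := (ho _ n1).resolve_left fun e => n1 (by simpa using e.symm)
    simp only [Perm.mul_apply]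
    rw [inv h _ _ rfl, f1]
    simp
  · simp only [Perm.mul_apply]
    by_cases e : h w = w
    · rw [inv h _ _ e]
      have n1 : g⁻¹ w ≠ x := fun e' => w2 (by rw [← e']; simp)
      rcases ho _ n1 with f | f
      · have f' : g⁻¹ w = w := by simpa using f.symm
        rw [f'] at f ⊢
        rw [e, f]
      · rw [f]; simp
    · have gw : g w = w := (ho w w1).resolve_right e
      have n1 : h⁻¹ w ≠ x := fun e' => w3 (by rw [← e']; simp)
      rcases ho _ n1 with f | f
      · rw [inv g _ _ f]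
        simpa using gw
      · have f' : h⁻¹ w = w := by simpa using f.symm
        rw [f'] at f
        exact absurd f e

/-- a 3-cycle of `H` gives `AltIn` on its support -/
theorem altIn_three {H : Subgroup (Perm Ω)} {t : Perm Ω} (ht : t ∈ H) {x y z : Ω}
    (hxy : x ≠ y) (hyz : y ≠ z) (hxz : x ≠ z) (h1 : t x = y) (h2 : t y = z) (h3 : t z = x)
    (ho : ∀ w, w ≠ x → w ≠ y → w ≠ z → t w = w) : AltIn H {x, y, z} := by
  exact altIn_three_aux ht hxy hyz hxz h1 h2 h3 ho

omit [Fintype Ω] [DecidableEq Ω] in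
theorem exists_third {U : Set Ω} (cU : 3 ≤ U.ncard) (x u : Ω) : ∃ w ∈ U, w ≠ x ∧ w ≠ u := by
  by_contra hn
  push Not at hn
  have h1 : U ⊆ {x, u} := fun w hw => by
    by_cases e : w = x
    exacts [.inl e, .inr (hn w hw e)]
  have h2 := Set.ncard_le_ncard h1 (Set.toFinite _)
  have h3 := Set.ncard_insert_le x ({u} : Set Ω)
  rw [Set.ncard_singleton] at h3
  omega

theorem AltIn.mixed {H : Subgroup (Perm Ω)} {U V : Set Ω} (hU : AltIn H U) (hV : AltIn H V)
    (cU : 3 ≤ U.ncard) (cV : 3 ≤ V.ncard) {x : Ω} (xU : x ∈ U) (xV : x ∈ V) {u v : Ω}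
    (hu : u ∈ U) (hv : v ∈ V) (hux : u ≠ x) (hvx : v ≠ x) : swap x u * swap x v ∈ H := by
  by_cases hw : ∃ w, w ≠ x ∧ w ∈ U ∧ w ∈ V
  · obtain ⟨w, h1, h2, h3⟩ := hw
    have := H.mul_mem (hU.swaps xU hu h2 hux h1) (hV.swaps xV h3 hv h1 hvx)
    rwa [mul_assoc, ← mul_assoc (swap x w), swap_mul_self, one_mul] at this
  push Not at hw
  obtain ⟨u', a1, a2, a3⟩ := exists_third cU x u
  obtain ⟨v', b1, b2, b3⟩ := exists_third cV x v
  have e1 : (swap x u' * swap x u) x = u := by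
    rw [Perm.mul_apply, swap_apply_left, swap_apply_of_ne_of_ne hux a3.symm]
  have e2 : (swap x v' * swap x v) x = v := by
    rw [Perm.mul_apply, swap_apply_left, swap_apply_of_ne_of_ne hvx b3.symm]
  have := (tri_comm (x := x) (hU.swaps xU a1 hu a2 hux) (hV.swaps xV b1 hv b2 hvx)
    (by rwa [e1]) (by rwa [e2]) fun y hy => ?_).1
  · rw [e1, e2] at this
    exact this.swaps (by simp) (by simp) (by simp) hux hvx
  · by_cases yU : y ∈ U
    · have yV := hw y hy yU
      right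
      rw [Perm.mul_apply, swap_apply_of_ne_of_ne hy fun e => yV (e ▸ hv),
        swap_apply_of_ne_of_ne hy fun e => yV (e ▸ b1)]
    · left
      rw [Perm.mul_apply, swap_apply_of_ne_of_ne hy fun e => yU (e ▸ hu),
        swap_apply_of_ne_of_ne hy fun e => yU (e ▸ a1)]

/-- union of overlapping sets -/
theorem AltIn.union {H : Subgroup (Perm Ω)} {U V : Set Ω} (hU : AltIn H U) (hV : AltIn H V)
    (cU : 3 ≤ U.ncard) (cV : 3 ≤ V.ncard) {x : Ω} (xU : x ∈ U) (xV : x ∈ V) :
    AltIn H (U ∪ V) := by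
  refine altIn_of_base (x := x) ?_
  rintro u (hu | hu) v (hv | hv) hux hvx
  · exact hU.swaps xU hu hv hux hvx
  · exact hU.mixed hV cU cV xU xV hu hv hux hvx
  · exact hV.mixed hU cV cU xV xU hu hv hux hvx
  · exact hV.swaps xV hu hv hux hvx

/-- the class of a 3-cycle is a block -/
theorem AltIn.cls {H : Subgroup (Perm Ω)} {x y z : Ω} (hU : AltIn H {x, y, z})
    (hxy : x ≠ y) (hyz : y ≠ z) (hxz : x ≠ z) :
    ∃ Δ : Set Ω, x ∈ Δ ∧ y ∈ Δ ∧ z ∈ Δ ∧ AltIn H Δ ∧
      ∀ h ∈ H, ∀ u ∈ Δ, h u ∈ Δ → ∀ w ∈ Δ, h w ∈ Δ := by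
  obtain ⟨Δ, ⟨h1, h2, h3, h4⟩, hmax⟩ := Set.exists_max_image
    {Δ : Set Ω | x ∈ Δ ∧ y ∈ Δ ∧ z ∈ Δ ∧ AltIn H Δ} Set.ncard (Set.toFinite _)
    ⟨{x, y, z}, by simp, by simp, by simp, hU⟩
  refine ⟨Δ, h1, h2, h3, h4, fun h hh u hu hhu w hw => ?_⟩
  have c1 : 3 ≤ Δ.ncard := by
    rw [← Set.ncard_eq_three.2 ⟨x, y, z, hxy, hxz, hyz, rfl⟩]
    refine Set.ncard_le_ncard ?_ (Set.toFinite _)
    rintro _ (rfl | rfl | rfl)
    exacts [h1, h2, h3]
  have c2 : 3 ≤ (h '' Δ).ncard := by rwa [Set.ncard_image_of_injective _ h.injective]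
  have h5 := h4.union (h4.conj hh) c1 c2 hhu ⟨u, hu, rfl⟩
  have h6 := hmax (Δ ∪ h '' Δ) ⟨.inl h1, .inl h2, .inl h3, h5⟩
  have h7 := Set.eq_of_subset_of_ncard_le (Set.subset_union_left (t := h '' Δ)) h6 (Set.toFinite _)
  rw [h7]
  exact .inr ⟨w, hw, rfl⟩

end D145
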